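import Mathlib

set_option autoImplicit false

namespace Pool.Agent.Lib.MP_2619d0_ag

open Polynomial

theorem exists_odd_irreducible_factor {K : Type*} [Field K] :
    ∀ (n : ℕ) (g : K[X]), g.natDegree = n → Odd n →
      ∃ p : K[X], Irreducible p ∧ Odd p.natDegree ∧ p ∣ g := by
  intro n
  induction n using Nat.strong_induction_on with
  | _ n ih =>
    intro g hg hn
    have hpos : 0 < g.natDegree := by
      rw [hg]
      exact hn.pos
    have hg0 : g ≠ 0 := by
      rintro rfl
      simp at hpos
    obtain ⟨p1, hp1, hp1g⟩ := Polynomial.exists_irreducible_of_natDegree_pos hpos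
    obtain ⟨g1, rfl⟩ := hp1g
    have hp10 : p1 ≠ 0 := hp1.ne_zero
    have hg10 : g1 ≠ 0 := right_ne_zero_of_mul hg0
    have hdeg := natDegree_mul hp10 hg10
    have hp1pos : 0 < p1.natDegree := hp1.natDegree_pos
    rcases Nat.even_or_odd p1.natDegree with he | ho
    · have hodd : Odd g1.natDegree := by
        have h1 : Odd (p1.natDegree + g1.natDegree) := by
          rw [← hdeg, hg]
          exact hn
        rcases Nat.even_or_odd g1.natDegree with he2 | ho2
        · have := he.add he2
          exact absurd h1 (Nat.not_odd_iff_even.mpr this)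
        · exact ho2
      obtain ⟨p, hp, hpo, hpd⟩ := ih g1.natDegree (by omega) g1 rfl hodd
      exact ⟨p, hp, hpo, Dvd.dvd.mul_left hpd _⟩
    · exact ⟨p1, hp1, ho, dvd_mul_right _ _⟩

/-- A version of Springer's theorem (odd degree extensions), for a quadratic form restricted to
a hyperplane, stated with polynomials. -/
theorem springer_poly {K : Type*} [Field K] {ι : Type*} [Fintype ι]
    (t : ι → K) (q : ι → ι → K)
    (haniso : ∀ v : ι → K, ∑ i, t i * v i = 0 → ∑ i, ∑ j, q i j * (v i * v j) = 0 → v = 0) :
    ∀ (n : ℕ) (p : K[X]), Irreducible p → p.natDegree = n → Odd n →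
      ∀ f : ι → K[X], p ∣ ∑ i, C (t i) * f i → p ∣ ∑ i, ∑ j, C (q i j) * (f i * f j) →
        ∀ i, p ∣ f i := by
  classical
  intro n
  induction n using Nat.strong_induction_on with
  | _ n ih =>
    intro p hp hpn hn f hlin hquad
    by_contra hcon
    push Not at hcon
    obtain ⟨i₀, hi₀⟩ := hcon
    have hp0 : p ≠ 0 := hp.ne_zero
    -- bad tuples
    let Bad : ℕ → Prop := fun M => ∃ h : ι → K[X], (∃ i, h i ≠ 0) ∧ (∀ i, (h i).natDegree ≤ M) ∧
      M < n ∧ ∑ i, C (t i) * h i = 0 ∧ p ∣ ∑ i, ∑ j, C (q i j) * (h i * h j)
    have hnpos : 0 < n := hn.pos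
    have hbad : ∃ M, Bad M := by
      refine ⟨n - 1, fun i => f i % p, ⟨i₀, ?_⟩, ?_, by omega, ?_, ?_⟩
      · intro h
        exact hi₀ ((EuclideanDomain.mod_eq_zero).mp h)
      · intro i
        change (f i % p).natDegree ≤ n - 1
        have h1 := Polynomial.degree_mod_lt (f i) hp0
        have h2 : (f i % p).natDegree < p.natDegree := by
          by_cases h3 : f i % p = 0
          · rw [h3, natDegree_zero, hpn]
            exact hnpos
          · exact natDegree_lt_natDegree h3 h1
        omega
      · -- degree < n and divisible by p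
        have h1 : p ∣ ∑ i, C (t i) * (f i % p) := by
          have h2 : ∑ i, C (t i) * (f i % p) = ∑ i, C (t i) * f i
              - p * ∑ i, C (t i) * (f i / p) := by
            rw [Finset.mul_sum, ← Finset.sum_sub_distrib]
            refine Finset.sum_congr rfl fun i _ => ?_
            have h3 := EuclideanDomain.div_add_mod (f i) p
            linear_combination C (t i) * h3
          rw [h2]
          exact dvd_sub hlin (dvd_mul_right _ _)
        apply Polynomial.eq_zero_of_dvd_of_degree_lt h1
        refine lt_of_le_of_lt (Polynomial.degree_sum_le _ _) ?_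
        rw [Finset.sup_lt_iff (by rw [bot_lt_iff_ne_bot, Ne, degree_eq_bot]; exact hp0)]
        intro i _
        refine lt_of_le_of_lt (degree_mul_le _ _) ?_
        calc (C (t i)).degree + (f i % p).degree ≤ 0 + (f i % p).degree :=
              add_le_add degree_C_le le_rfl
          _ = (f i % p).degree := zero_add _
          _ < p.degree := Polynomial.degree_mod_lt _ hp0
      · have h2 : ∑ i, ∑ j, C (q i j) * ((f i % p) * (f j % p)) =
            ∑ i, ∑ j, C (q i j) * (f i * f j)
              - p * ∑ i, ∑ j, C (q i j) * ((f i / p) * f j + (f i % p) * (f j / p)) := by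
          rw [Finset.mul_sum, ← Finset.sum_sub_distrib]
          refine Finset.sum_congr rfl fun i _ => ?_
          rw [Finset.mul_sum, ← Finset.sum_sub_distrib]
          refine Finset.sum_congr rfl fun j _ => ?_
          have h3 := EuclideanDomain.div_add_mod (f i) p
          have h4 := EuclideanDomain.div_add_mod (f j) p
          linear_combination C (q i j) * (f j * h3 + (f i % p) * h4)
        rw [h2]
        exact dvd_sub hquad (dvd_mul_right _ _)
    -- minimal M
    obtain ⟨h, ⟨i₁, hi₁⟩, hdeg, hMn, hl, hq⟩ := Nat.find_spec hbad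
    set M := Nat.find hbad with hM
    have hmin : ∀ M' < M, ¬ Bad M' := fun M' hM' => Nat.find_min hbad hM'
    -- leading vector
    set v : ι → K := fun i => (h i).coeff M with hv
    have hv0 : v ≠ 0 := by
      intro hv0
      have h1 : ∀ i, (h i).natDegree ≤ M - 1 := by
        intro i
        by_cases hM0 : M = 0
        · have := hdeg i
          omega
        · have h2 : (h i).coeff M = 0 := congrFun hv0 i
          have h3 := hdeg i
          by_contra h4
          have h5 : (h i).natDegree = M := by omega
          have h6 : h i = 0 := by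
            rw [← leadingCoeff_eq_zero, leadingCoeff, h5]
            exact h2
          rw [h6, natDegree_zero] at h5
          omega
      by_cases hM0 : M = 0
      · have h2 : (h i₁).coeff M = 0 := congrFun hv0 i₁
        have h3 := hdeg i₁
        apply hi₁
        rw [hM0] at h2 h3
        rw [Polynomial.eq_C_of_natDegree_le_zero h3, h2, C_0]
      · exact hmin (M - 1) (by omega) ⟨h, ⟨i₁, hi₁⟩, h1, by omega, hl, hq⟩
    have hvl : ∑ i, t i * v i = 0 := by
      have h1 := congrArg (fun r => Polynomial.coeff r M) hl
      simp only [finsetSum_coeff, coeff_C_mul, coeff_zero] at h1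
      exact h1
    have hvq : ∑ i, ∑ j, q i j * (v i * v j) ≠ 0 := fun h1 => hv0 (haniso v hvl h1)
    set Q : K[X] := ∑ i, ∑ j, C (q i j) * (h i * h j) with hQ
    have hQc : Q.coeff (2 * M) = ∑ i, ∑ j, q i j * (v i * v j) := by
      rw [hQ, finsetSum_coeff]
      refine Finset.sum_congr rfl fun i _ => ?_
      rw [finsetSum_coeff]
      refine Finset.sum_congr rfl fun j _ => ?_
      rw [coeff_C_mul, two_mul, coeff_mul_add_eq_of_natDegree_le (hdeg i) (hdeg j)]
    have hQd : Q.natDegree ≤ 2 * M := by
      rw [hQ]
      refine natDegree_sum_le_of_forall_le _ _ fun i _ => ?_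
      refine natDegree_sum_le_of_forall_le _ _ fun j _ => ?_
      refine (natDegree_C_mul_le _ _).trans ?_
      refine natDegree_mul_le.trans ?_
      have := hdeg i
      have := hdeg j
      omega
    have hQdeg : Q.natDegree = 2 * M := by
      apply le_antisymm hQd
      apply le_natDegree_of_ne_zero
      rw [hQc]
      exact hvq
    have hQ0 : Q ≠ 0 := by
      intro h1
      rw [h1, coeff_zero] at hQc
      exact hvq hQc.symm
    obtain ⟨g, hg⟩ := hq
    have hg0 : g ≠ 0 := by
      rintro rfl
      rw [mul_zero] at hg
      exact hQ0 hg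
    have hdg : 2 * M = n + g.natDegree := by
      rw [← hQdeg, hg, natDegree_mul hp0 hg0, hpn]
    have hgodd : Odd g.natDegree := by
      rcases Nat.even_or_odd g.natDegree with he | ho
      · exfalso
        have h1 : Odd (n + g.natDegree) := hn.add_even he
        rw [← hdg] at h1
        exact (Nat.not_odd_iff_even.mpr (even_two_mul M)) h1
      · exact ho
    obtain ⟨p', hp', hp'o, hp'g⟩ := exists_odd_irreducible_factor _ g rfl hgodd
    have hp'deg : p'.natDegree ≤ g.natDegree := natDegree_le_of_dvd hp'g hg0
    have hlt : p'.natDegree < n := by omega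
    have hall : ∀ i, p' ∣ h i := by
      apply ih p'.natDegree hlt p' hp' rfl hp'o h
      · rw [hl]
        exact dvd_zero _
      · rw [← hQ, hg]
        exact Dvd.dvd.mul_left hp'g _
    choose h' hh' using hall
    have hp'0 : p' ≠ 0 := hp'.ne_zero
    have hp'pos : 0 < p'.natDegree := hp'.natDegree_pos
    have hMpos : 0 < M := by omega
    apply hmin (M - 1) (by omega)
    refine ⟨h', ⟨i₁, ?_⟩, ?_, by omega, ?_, ?_⟩
    · intro h1
      apply hi₁
      rw [hh' i₁, h1, mul_zero]
    · intro i
      by_cases h1 : h' i = 0
      · rw [h1, natDegree_zero]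
        omega
      · have h2 := hdeg i
        rw [hh' i, natDegree_mul hp'0 h1] at h2
        omega
    · apply mul_left_cancel₀ hp'0
      rw [mul_zero, ← hl, Finset.mul_sum]
      refine Finset.sum_congr rfl fun i _ => ?_
      conv_rhs => rw [hh' i]
      ring
    · have h1 : Q = p' ^ 2 * ∑ i, ∑ j, C (q i j) * (h' i * h' j) := by
        rw [hQ, Finset.mul_sum]
        refine Finset.sum_congr rfl fun i _ => ?_
        rw [Finset.mul_sum]
        refine Finset.sum_congr rfl fun j _ => ?_
        conv_lhs => rw [hh' i, hh' j]
        ring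
      have h2 : p ∣ p' ^ 2 * ∑ i, ∑ j, C (q i j) * (h' i * h' j) := by
        rw [← h1, hg]
        exact dvd_mul_right _ _
      have hpp : Prime p := hp.prime
      rcases hpp.dvd_or_dvd h2 with h3 | h3
      · exfalso
        have h4 : p ∣ p' := hpp.dvd_of_dvd_pow h3
        have h5 := natDegree_le_of_dvd h4 hp'0
        omega
      · exact h3

/-- Springer's theorem for a quadratic form restricted to a hyperplane. -/
theorem springer {K L : Type*} [Field K] [Field L] [Algebra K L] [CharZero K]
    [FiniteDimensional K L] (hodd : Odd (Module.finrank K L)) {ι : Type*} [Fintype ι]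
    (t : ι → K) (q : ι → ι → K)
    (haniso : ∀ v : ι → K, ∑ i, t i * v i = 0 → ∑ i, ∑ j, q i j * (v i * v j) = 0 → v = 0)
    (v : ι → L) (h1 : ∑ i, algebraMap K L (t i) * v i = 0)
    (h2 : ∑ i, ∑ j, algebraMap K L (q i j) * (v i * v j) = 0) : v = 0 := by
  obtain ⟨x, hx⟩ := Field.exists_primitive_element K L
  have hint : IsIntegral K x := Algebra.IsIntegral.isIntegral x
  have hdeg : (minpoly K x).natDegree = Module.finrank K L := by
    rw [← IntermediateField.adjoin.finrank hint, hx]
    exact IntermediateField.finrank_top'
  have hsurj : ∀ y : L, ∃ g : K[X], aeval x g = y := by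
    intro y
    have hy : y ∈ (⊤ : IntermediateField K L) := IntermediateField.mem_top
    rw [← hx, ← IntermediateField.mem_toSubalgebra,
      IntermediateField.adjoin_simple_toSubalgebra_of_isAlgebraic hint.isAlgebraic,
      Algebra.adjoin_singleton_eq_range_aeval] at hy
    exact hy
  choose f hf using fun i => hsurj (v i)
  have hirr := minpoly.irreducible hint
  have hall := springer_poly t q haniso _ (minpoly K x) hirr hdeg hodd f
    (by
      rw [minpoly.dvd_iff, map_sum]
      rw [← h1]
      refine Finset.sum_congr rfl fun i _ => ?_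
      rw [map_mul, aeval_C, hf i])
    (by
      rw [minpoly.dvd_iff, map_sum]
      rw [← h2]
      refine Finset.sum_congr rfl fun i _ => ?_
      rw [map_sum]
      refine Finset.sum_congr rfl fun j _ => ?_
      rw [map_mul, map_mul, aeval_C, hf i, hf j])
  funext i
  rw [Pi.zero_apply, ← hf i]
  exact (minpoly.dvd_iff).mp (hall i)

end Pool.Agent.Lib.MP_2619d0_ag
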