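import Pool.Agent.Lib.MP_2619d0_ag.TFinal

/-!
# Stable version: no points of odd degree on the fibres of cubic parametrisations
-/

set_option autoImplicit false

namespace MP2619.T

universe u

open MvPolynomial Pool.Agent.Lib.MP_2619d0_ag Pool.Agent.Lib.MP_2619d0_ag.T

section base

/-- `ℂ[x]` is algebraic over `ℂ[φ]` if the forms `φ` have no common zero. -/
theorem st_isAlgebraic {M : ℕ} {ι : Type} [Fintype ι] {e : ℕ} (he : 1 ≤ e)
    (φ : ι → MvPolynomial (Fin (M+1)) ℂ) (hφ : ∀ j, (φ j).IsHomogeneous e)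
    (hbp : ∀ w : Fin (M+1) → ℂ, (∀ j, eval w (φ j) = 0) → w = 0) :
    Algebra.IsAlgebraic (Algebra.adjoin ℂ (Set.range φ)) (MvPolynomial (Fin (M+1)) ℂ) := by
  classical
  obtain ⟨N, hN⟩ := decomp_family φ hφ hbp
  set B := Algebra.adjoin ℂ (Set.range φ) with hB
  let T : Finset (MvPolynomial (Fin (M+1)) ℂ) :=
    ((Finset.range (N + e)).biUnion fun n =>
      (Finset.univ : Finset (Fin (M+1))).finsuppAntidiag n).image (fun γ => monomial γ (1:ℂ))
  have key : ∀ n, ∀ G : MvPolynomial (Fin (M+1)) ℂ, G.IsHomogeneous n →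
      G ∈ Submodule.span B (T : Set (MvPolynomial (Fin (M+1)) ℂ)) := by
    intro n
    induction n using Nat.strong_induction_on with
    | _ n ih =>
      intro G hG
      by_cases hn : n < N + e
      · rw [MvPolynomial.as_sum G]
        refine Submodule.sum_mem _ fun γ hγ => ?_
        have hγs : ∑ l, γ l = n := by
          have h2 := hG (mem_support_iff.1 hγ)
          rw [← h2, Finsupp.weight_apply, Finsupp.sum_fintype _ _ (by simp)]
          simp
        have h1 : monomial γ (coeff γ G) = (algebraMap ℂ B (coeff γ G)) • monomial γ (1:ℂ) := by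
          rw [algebraMap_smul, smul_monomial, smul_eq_mul, mul_one]
        rw [h1]
        refine Submodule.smul_mem _ _ (Submodule.subset_span ?_)
        rw [Finset.mem_coe]
        refine Finset.mem_image_of_mem _ (Finset.mem_biUnion.2 ⟨n, Finset.mem_range.2 hn, ?_⟩)
        rw [Finset.mem_finsuppAntidiag]
        exact ⟨hγs, Finset.subset_univ _⟩
      · obtain ⟨n', rfl⟩ : ∃ n', n = n' + e := ⟨n - e, by omega⟩
        obtain ⟨H, hH, rfl⟩ := hN n' (by omega) G hG
        refine Submodule.sum_mem _ fun j _ => ?_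
        have h2 : φ j * H j = (⟨φ j, Algebra.subset_adjoin ⟨j, rfl⟩⟩ : B) • H j := rfl
        rw [h2]
        exact Submodule.smul_mem _ _ (ih n' (by omega) _ (hH j))
  have hfin : Module.Finite B (MvPolynomial (Fin (M+1)) ℂ) := by
    refine ⟨⟨T, eq_top_iff.2 fun G _ => ?_⟩⟩
    rw [← MvPolynomial.sum_homogeneousComponent G]
    exact Submodule.sum_mem _ fun i _ => key i _ (homogeneousComponent_isHomogeneous i G)
  have hint : Algebra.IsIntegral B (MvPolynomial (Fin (M+1)) ℂ) := Algebra.IsIntegral.of_finite _ _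
  infer_instance

theorem st_base_big {m M e : ℕ} (he : 1 ≤ e) (hM : m + 2 ≤ M + 1)
    {F : MvPolynomial (Fin (m+2)) ℂ} (hF0 : F ≠ 0)
    (φ : Fin (m+2) → MvPolynomial (Fin (M+1)) ℂ) (hφ : ∀ j, (φ j).IsHomogeneous e)
    (h0 : aeval φ F = 0) : ∃ p : Fin (M+1) → ℂ, p ≠ 0 ∧ ∀ j, eval p (φ j) = 0 := by
  by_contra hcon
  have hbp : ∀ w : Fin (M+1) → ℂ, (∀ j, eval w (φ j) = 0) → w = 0 := by
    intro w hw
    by_contra hw0
    exact hcon ⟨w, hw0, hw⟩
  have halg := st_isAlgebraic he φ hφ hbp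
  have h1 : IsTranscendenceBasis ℂ φ :=
    Algebra.IsAlgebraic.isTranscendenceBasis_of_le_trdeg_of_finite ℂ φ (by
      rw [MvPolynomial.trdeg_of_isDomain, Cardinal.lift_id, Cardinal.mk_fin, Cardinal.mk_fin]
      exact_mod_cast hM)
  exact hF0 (h1.1.eq_zero_of_aeval_eq_zero F h0)

theorem st_small {m N : ℕ} {F : MvPolynomial (Fin (m+2)) ℂ} (hF : VG F)
    (φ : Fin (m+2) → MvPolynomial (Fin N) ℂ)
    (hdom : ∀ G : MvPolynomial (Fin (m+2)) ℂ, aeval φ G = 0 → F ∣ G) : m + 1 ≤ N := by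
  classical
  have hai : AlgebraicIndependent ℂ (fun i : Fin (m+1) => φ i.succ) := by
    rw [algebraicIndependent_iff]
    intro G hG
    have h1 : aeval φ (rename Fin.succ G) = 0 := by
      rw [aeval_rename]
      exact hG
    obtain ⟨H, hH⟩ := hdom _ h1
    by_contra hG0
    have hren : rename Fin.succ G ≠ 0 := by
      intro h
      exact hG0 (rename_injective _ (Fin.succ_injective _) (by rw [h, map_zero]))
    have hF0 : F ≠ 0 := F_ne_zero (N := m+1) hF
    have hH0 : H ≠ 0 := by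
      rintro rfl
      rw [mul_zero] at hH
      exact hren hH
    have h2 : degreeOf 0 (rename Fin.succ G) = degreeOf 0 F + degreeOf 0 H := by
      rw [hH, degreeOf_mul_eq hF0 hH0]
    have h3 : degreeOf 0 (rename Fin.succ G) = 0 := by
      by_contra hne
      have h4 : (0 : Fin (m+2)) ∈ (rename Fin.succ G).vars := by
        by_contra hnv
        exact hne (Nat.le_zero.1 ((degreeOf_le_iff).2 (by
          intro d hd
          by_contra hd0
          exact hnv ((mem_vars_iff_mem_support _).2 ⟨d, hd, Finsupp.mem_support_iff.2 (by omega)⟩))))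
      have h5 := vars_rename Fin.succ G h4
      rw [Finset.mem_image] at h5
      obtain ⟨i, _, hi⟩ := h5
      exact Fin.succ_ne_zero i hi
    have h4 : 3 ≤ degreeOf 0 F := by
      have h5 : (Finsupp.single (0 : Fin (m+2)) 3).degree = 3 := Finsupp.degree_single _ _
      have h6 := hF.2.ne_zero ⟨_, h5⟩
      have h7 := monomial_le_degreeOf (0 : Fin (m+2)) (mem_support_iff.2 h6)
      simpa using h7
    omega
  have h3 := hai.cardinalMk_le_trdeg
  rw [MvPolynomial.trdeg_of_isDomain, Cardinal.lift_id, Cardinal.mk_fin, Cardinal.mk_fin] at h3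
  exact_mod_cast h3

end base

section generic

variable {n N : ℕ} {L : Type*} [Field L] [Algebra ℂ L]

/-- homogeneous coordinates of a generic point -/
def HG (F : MvPolynomial (Fin n) ℂ) (x : Fin n → L) : Prop :=
  ∀ (d : ℕ) (G : MvPolynomial (Fin n) ℂ), G.IsHomogeneous d → (aeval x G = 0 ↔ F ∣ G)

theorem HG_smul {F : MvPolynomial (Fin n) ℂ} {x : Fin n → L} (hx : HG F x) (μ : L) (hμ : μ ≠ 0) :
    HG F (μ • x) := by
  intro d G hG
  have h1 : (μ • x : Fin n → L) = fun i => μ * x i := rfl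
  rw [h1, aeval_smul_hom hG, mul_eq_zero, ← hx d G hG]
  constructor
  · rintro (h | h)
    · exact absurd h (pow_ne_zero _ hμ)
    · exact h
  · exact fun h => Or.inr h

theorem st_hdom {e : ℕ} (he : 1 ≤ e) {F : MvPolynomial (Fin n) ℂ}
    (φ : Fin n → MvPolynomial (Fin N) ℂ) (hφ : ∀ j, (φ j).IsHomogeneous e) (p : Fin N → L)
    (hx : HG F (fun j => aeval p (φ j))) (G : MvPolynomial (Fin n) ℂ) (hG : aeval φ G = 0) :
    F ∣ G := by
  classical
  have h2 : ∀ i, (aeval φ (homogeneousComponent i G)).IsHomogeneous (e * i) := fun i =>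
    (homogeneousComponent_isHomogeneous i G).aeval φ hφ
  have h3 : ∑ i ∈ Finset.range (G.totalDegree + 1), aeval φ (homogeneousComponent i G) = 0 := by
    rw [← map_sum, MvPolynomial.sum_homogeneousComponent, hG]
  rw [← MvPolynomial.sum_homogeneousComponent G]
  refine Finset.dvd_sum fun d hd => ?_
  have h4 : aeval φ (homogeneousComponent d G) = 0 := by
    have h5 := congrArg (homogeneousComponent (e * d)) h3
    rw [map_sum, map_zero, Finset.sum_eq_single d] at h5
    · rwa [homogeneousComponent_of_mem (h2 d), if_pos rfl] at h5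
    · intro i _ hi
      rw [homogeneousComponent_of_mem (h2 i), if_neg]
      intro h
      exact hi (Nat.eq_of_mul_eq_mul_left (by omega) h).symm
    · intro h
      exact absurd hd h
  refine (hx d _ (homogeneousComponent_isHomogeneous d G)).1 ?_
  have h5 := MvPolynomial.comp_aeval_apply φ (aeval p : MvPolynomial (Fin N) ℂ →ₐ[ℂ] L)
    (homogeneousComponent d G)
  rw [h4, map_zero] at h5
  exact h5.symm

end generic

section curves

variable {ι : Type*} [Fintype ι] {K : Type*} [Field K] [Infinite K]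

theorem st_line_coeffs (c0 : ι → ι → ι → K) (q c : ι → K)
    (h : ∀ s : K, Fc c0 (s • q + c) = 0) :
    Fc c0 q = 0 ∧ Dc c0 q c = 0 ∧ Dc c0 c q = 0 ∧ Fc c0 c = 0 := by
  have hP : (Polynomial.C (Fc c0 q) * Polynomial.X ^ 3 + Polynomial.C (Dc c0 q c) *
      Polynomial.X ^ 2 + Polynomial.C (Dc c0 c q) * Polynomial.X + Polynomial.C (Fc c0 c) :
      Polynomial K) = 0 := by
    apply Polynomial.funext
    intro s
    have h1 := h s
    have h2 : s • q + c = s • q + (1 : K) • c := by rw [one_smul]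
    rw [h2, Fc_line] at h1
    simp only [Polynomial.eval_add, Polynomial.eval_mul, Polynomial.eval_C, Polynomial.eval_pow,
      Polynomial.eval_X, Polynomial.eval_zero]
    linear_combination h1
  have e3 := congrArg (fun p => Polynomial.coeff p 3) hP
  have e2 := congrArg (fun p => Polynomial.coeff p 2) hP
  have e1 := congrArg (fun p => Polynomial.coeff p 1) hP
  have e0 := congrArg (fun p => Polynomial.coeff p 0) hP
  simp only [Polynomial.coeff_add, Polynomial.coeff_C_mul, Polynomial.coeff_X_pow,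
    Polynomial.coeff_X, Polynomial.coeff_C, Polynomial.coeff_zero] at e3 e2 e1 e0
  norm_num at e3 e2 e1 e0
  exact ⟨e3, e2, e1, e0⟩

theorem st_conic_coeffs (c0 : ι → ι → ι → K) (w q c : ι → K)
    (h : ∀ s : K, Fc c0 (s ^ 2 • w + s • q + c) = 0) :
    Fc c0 w = 0 ∧ Dc c0 w q = 0 ∧ Dc c0 w c + Dc c0 q w = 0 ∧ Fc c0 q + Tc c0 w q c = 0 ∧
      Dc c0 q c + Dc c0 c w = 0 ∧ Dc c0 c q = 0 ∧ Fc c0 c = 0 := by
  have hP : (Polynomial.C (Fc c0 w) * Polynomial.X ^ 6 + Polynomial.C (Dc c0 w q) *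
      Polynomial.X ^ 5 + Polynomial.C (Dc c0 w c + Dc c0 q w) * Polynomial.X ^ 4 +
      Polynomial.C (Fc c0 q + Tc c0 w q c) * Polynomial.X ^ 3 +
      Polynomial.C (Dc c0 q c + Dc c0 c w) * Polynomial.X ^ 2 +
      Polynomial.C (Dc c0 c q) * Polynomial.X + Polynomial.C (Fc c0 c) :
      Polynomial K) = 0 := by
    apply Polynomial.funext
    intro s
    have h1 := h s
    have hT : Tc c0 (s ^ 2 • w) (s • q) c = s ^ 3 * Tc c0 w q c := by
      rw [Tc_smul_left, Tc_comm, Tc_smul_left, Tc_comm]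
      ring
    rw [Fc_add, Fc_line, Dc_add_left, Dc_smul_left, Dc_smul_left, hT, Dc_add_right,
      Dc_smul_right, Dc_smul_right] at h1
    simp only [Polynomial.eval_add, Polynomial.eval_mul, Polynomial.eval_C, Polynomial.eval_pow,
      Polynomial.eval_X, Polynomial.eval_zero]
    linear_combination h1
  have e6 := congrArg (fun p => Polynomial.coeff p 6) hP
  have e5 := congrArg (fun p => Polynomial.coeff p 5) hP
  have e4 := congrArg (fun p => Polynomial.coeff p 4) hP
  have e3 := congrArg (fun p => Polynomial.coeff p 3) hP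
  have e2 := congrArg (fun p => Polynomial.coeff p 2) hP
  have e1 := congrArg (fun p => Polynomial.coeff p 1) hP
  have e0 := congrArg (fun p => Polynomial.coeff p 0) hP
  simp only [Polynomial.coeff_add, Polynomial.coeff_C_mul, Polynomial.coeff_X_pow,
    Polynomial.coeff_X, Polynomial.coeff_C, Polynomial.coeff_zero] at e6 e5 e4 e3 e2 e1 e0
  norm_num at e6 e5 e4 e3 e2 e1 e0
  exact ⟨e6, e5, e4, e3, e2, e1, e0⟩

end curves

section LL

variable {m : ℕ} {L : Type u} [Field L] [Algebra ℂ L]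

theorem HG_zero {F : MvPolynomial (Fin (m+1+1)) ℂ} (hF : VG F) {x : Fin (m+1+1) → L}
    (hx : HG F x) : x 0 ≠ 0 := by
  intro h0
  have h1 := (hx 1 (X 0) (isHomogeneous_X _ _)).1 (by rw [aeval_X, h0])
  have h2 := MP2619.Q.eq_zero_of_dvd_of_lt hF.1 (isHomogeneous_X ℂ (0 : Fin (m+2)))
    (by norm_num) h1
  exact X_ne_zero _ h2

/-- A generic point of odd degree does not move on a line contained in `X`. -/
theorem st_line (hm : 1 ≤ m) {F : MvPolynomial (Fin (m+1+1)) ℂ} (hF : VG F)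
    (q c x : Fin (m+1+1) → L) (α : L) (hid : ∀ s : L, Fc (cL L F) (s • q + c) = 0)
    (hxq : x = α • q + c) (hx0 : x 0 ≠ 0) (hG : Gp F (ev x)) (hodd : Odd (fd (ev x))) :
    (∃ a : L, q = a • x) ∧ ∃ b : L, c = b • x := by
  have hinf : Infinite L := Infinite.of_injective _ (algebraMap ℂ L).injective
  obtain ⟨e3, e2, e1, e0⟩ := st_line_coeffs (cL L F) q c hid
  have hT1 : Tc (cL L F) q c q = 0 := by
    rw [Tc_comm', Tc_self, e2, mul_zero]
  have hT2 : Tc (cL L F) q c c = 0 := by
    rw [Tc_comm, Tc_comm', Tc_self, e1, mul_zero]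
  constructor
  · refine star_ev (N := m+1) (by omega) hF x hx0 hG hodd q ?_ ?_
    · rw [hxq, Dc_add_left, Dc_smul_left, Dc_self, e3, Tc_smul_left, hT1, e1]
      ring
    · rw [hxq, Dc_add_right, Dc_smul_right, Dc_self, e3, e2]
      ring
  · refine star_ev (N := m+1) (by omega) hF x hx0 hG hodd c ?_ ?_
    · rw [hxq, Dc_add_left, Dc_smul_left, Dc_self, e0, e2, Tc_smul_left, hT2]
      ring
    · rw [hxq, Dc_add_right, Dc_smul_right, Dc_self, e0, e1]
      ring

/-- A generic point of odd degree does not move on a conic through a point of a constant linear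
subspace of `X`. -/
theorem st_conic (hm : 3 ≤ m) {F : MvPolynomial (Fin (m+1+1)) ℂ} (hF : VG F)
    (hT : StT.{u} (N := m+1) F) (hS : StS.{u} (N := m+1) F) (W : Submodule ℂ (Fin (m+1+1) → ℂ))
    (hW : ∀ x ∈ W, Fc (cub F) x = 0) (w q c x : Fin (m+1+1) → L) (α : L)
    (hw : w ∈ spanL L W) (hw0 : w ≠ 0)
    (hid : ∀ s : L, Fc (cL L F) (s ^ 2 • w + s • q + c) = 0)
    (hxx : x = α ^ 2 • w + α • q + c) (hx : HG F x) (hodd : Odd (fd (ev x))) : False := by
  have hinf : Infinite L := Infinite.of_injective _ (algebraMap ℂ L).injective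
  have hx0 : x 0 ≠ 0 := HG_zero hF hx
  have hG : Gp F (ev x) := Gp_ev (N := m+1) hF.1 x hx0 hx
  have hFx : Fc (cL L F) x = 0 := Fc_zero (N := m+1) hF.1 x hx0 hG
  have hxW : x ∉ spanL L W := not_mem_span (N := m+1) hF W hW x hx
  obtain ⟨e6, e5, e4, e3, e2, e1, e0⟩ := st_conic_coeffs (cL L F) w q c hid
  obtain ⟨γ, hγ⟩ : ∃ γ, γ = Dc (cL L F) w c := ⟨_, rfl⟩
  obtain ⟨τ, hτ⟩ : ∃ τ, τ = Tc (cL L F) w q c := ⟨_, rfl⟩
  obtain ⟨κ, hκ⟩ : ∃ κ, κ = Dc (cL L F) c w := ⟨_, rfl⟩
  have hB : ∀ s : L, Dc (cL L F) w (s ^ 2 • w + s • q + c) = γ := by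
    intro s
    rw [Dc_add_right, Dc_add_right, Dc_smul_right, Dc_smul_right, Dc_self, e6, e5, ← hγ]
    ring
  have hA : ∀ s : L, Dc (cL L F) (s ^ 2 • w + s • q + c) w = s ^ 2 * γ + s * τ + κ := by
    intro s
    have t1 : Tc (cL L F) w q w = 0 := by rw [Tc_comm', Tc_self, e5, mul_zero]
    have t2 : Tc (cL L F) w c w = 2 * γ := by rw [Tc_comm', Tc_self, ← hγ]
    have t3 : Tc (cL L F) q c w = τ := by rw [Tc_comm', Tc_comm, ← hτ]
    have t4 : Dc (cL L F) q w = - γ := by
      rw [hγ]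
      linear_combination e4
    have t5 : Tc (cL L F) (s ^ 2 • w) (s • q) w = 0 := by
      rw [Tc_smul_left, Tc_comm, Tc_smul_left, Tc_comm, t1]
      ring
    rw [Dc_add_left, Dc_add_left, Dc_smul_left, Dc_smul_left, Dc_self, e6, t5, Tc_add_left,
      Tc_smul_left, Tc_smul_left, t2, t3, t4, ← hκ]
    ring
  have hγ0 : γ ≠ 0 := by
    intro h
    have h1 : Dc (cL L F) w x = 0 := by rw [hxx, hB, h]
    obtain ⟨a, ha⟩ := hT L x w hx0 hG hodd e6 h1
    have ha0 : a ≠ 0 := by
      rintro rfl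
      rw [zero_smul] at ha
      exact hw0 ha
    apply hxW
    have : x = a⁻¹ • w := by rw [ha, smul_smul, inv_mul_cancel₀ ha0, one_smul]
    rw [this]
    exact Submodule.smul_mem _ _ hw
  obtain ⟨a, haa⟩ : ∃ a, a = γ • c - κ • w := ⟨_, rfl⟩
  obtain ⟨b, hbb⟩ : ∃ b, b = γ • q - τ • w := ⟨_, rfl⟩
  have hz : ∀ s : L, s • b + a = γ • ((s ^ 2 • w + s • q + c) +
      (-((s ^ 2 * γ + s * τ + κ) / γ)) • w) := by
    intro s
    have h2 : γ * -((s ^ 2 * γ + s * τ + κ) / γ) = - (s ^ 2 * γ + s * τ + κ) := by field_simp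
    rw [smul_add, smul_smul, h2, haa, hbb]
    funext i
    simp only [Pi.add_apply, Pi.sub_apply, Pi.smul_apply, smul_eq_mul]
    ring
  have hzF : ∀ s : L, Fc (cL L F) (s • b + a) = 0 := by
    intro s
    rw [hz, Fc_smul]
    have h1 : (s ^ 2 • w + s • q + c) + (-((s ^ 2 * γ + s * τ + κ) / γ)) • w =
        (1 : L) • (s ^ 2 • w + s • q + c) + (-((s ^ 2 * γ + s * τ + κ) / γ)) • w := by
      rw [one_smul]
    rw [h1, Fc_line, hid, hA, hB, e6]
    field_simp
    ring
  obtain ⟨ρ, hρ⟩ : ∃ ρ, ρ = -((α ^ 2 * γ + α * τ + κ) / γ) := ⟨_, rfl⟩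
  have hzα : α • b + a = γ • (x + ρ • w) := by rw [hz, ← hxx, ← hρ]
  have hFz : Fc (cL L F) (x + ρ • w) = 0 := by
    have h1 := hzF α
    rw [hzα, Fc_smul] at h1
    exact (mul_eq_zero.1 h1).resolve_left (pow_ne_zero _ hγ0)
  obtain ⟨k0, kG, kodd⟩ := hS L x (ρ • w) W hx0 hG hodd hW (Submodule.smul_mem _ _ hw) hFz
  obtain ⟨z, hzz⟩ : ∃ z, z = α • b + a := ⟨_, rfl⟩
  have hz1 : z = γ • (x + ρ • w) := by rw [hzz, hzα]
  have hz0 : z 0 ≠ 0 := by
    rw [hz1]
    exact mul_ne_zero hγ0 k0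
  have hzG : Gp F (ev z) := by rw [hz1, ev_smul γ hγ0]; exact kG
  have hzodd : Odd (fd (ev z)) := by rw [hz1, ev_smul γ hγ0]; exact kodd
  obtain ⟨⟨l, hl⟩, ⟨μ, hμ⟩⟩ := st_line (by omega) hF b a z α hzF hzz hz0 hzG hzodd
  have hlμ : α * l + μ = 1 := by
    have h1 : (α * l + μ) • z = z := by
      have h2 := hzz
      rw [hl, hμ, smul_smul, ← add_smul] at h2
      exact h2.symm
    have h3 := congrFun h1 0
    rw [Pi.smul_apply, smul_eq_mul] at h3
    exact mul_right_cancel₀ hz0 (by rw [h3, one_mul])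
  have hFz' : Fc (cL L F) z = 0 := by rw [hz1, Fc_smul, hFz, mul_zero]
  have hDz : Dc (cL L F) w z = γ ^ 2 := by
    have h1 := hB α
    rw [← hxx] at h1
    rw [hz1, Dc_smul_right, Dc_add_right, Dc_smul_right, Dc_self, e6, h1]
    ring
  obtain ⟨δ, hδ⟩ : ∃ δ, δ = Dc (cL L F) z w := ⟨_, rfl⟩
  -- the conic lies on a line
  have hline : ∀ s : L, γ • (s ^ 2 • w + s • q + c) =
      (γ * s ^ 2 + τ * s + κ) • w + (l * s + μ) • z := by
    intro s
    have h1 : γ • q = τ • w + l • z := by rw [← hl, hbb]; abel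
    have h2 : γ • c = κ • w + μ • z := by rw [← hμ, haa]; abel
    have h3 : γ • (s ^ 2 • w + s • q + c) = (γ * s ^ 2) • w + s • (γ • q) + γ • c := by
      funext i
      simp only [Pi.add_apply, Pi.smul_apply, smul_eq_mul]
      ring
    rw [h3, h1, h2]
    funext i
    simp only [Pi.add_apply, Pi.smul_apply, smul_eq_mul]
    ring
  have hprod : ∀ s : L, (γ * s ^ 2 + τ * s + κ) * (l * s + μ) *
      ((γ * s ^ 2 + τ * s + κ) * γ ^ 2 + (l * s + μ) * δ) = 0 := by
    intro s
    have h1 : Fc (cL L F) (γ • (s ^ 2 • w + s • q + c)) = 0 := by rw [Fc_smul, hid, mul_zero]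
    rw [hline, Fc_line, e6, hFz', hDz, ← hδ] at h1
    linear_combination h1
  have hPoly : (Polynomial.C γ * Polynomial.X ^ 2 + Polynomial.C τ * Polynomial.X +
      Polynomial.C κ) * (Polynomial.C l * Polynomial.X + Polynomial.C μ) *
      ((Polynomial.C γ * Polynomial.X ^ 2 + Polynomial.C τ * Polynomial.X +
      Polynomial.C κ) * Polynomial.C (γ ^ 2) + (Polynomial.C l * Polynomial.X + Polynomial.C μ) *
        Polynomial.C δ) = 0 := by
    apply Polynomial.funext
    intro s
    simp only [Polynomial.eval_add, Polynomial.eval_mul, Polynomial.eval_C, Polynomial.eval_pow,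
      Polynomial.eval_X, Polynomial.eval_zero]
    exact hprod s
  rcases mul_eq_zero.1 hPoly with h | h
  · rcases mul_eq_zero.1 h with h | h
    · have h1 := congrArg (fun p => Polynomial.coeff p 2) h
      simp only [Polynomial.coeff_add, Polynomial.coeff_C_mul, Polynomial.coeff_X_pow,
        Polynomial.coeff_X, Polynomial.coeff_C, Polynomial.coeff_zero] at h1
      norm_num at h1
      exact hγ0 h1
    · have h1 := congrArg (fun p => Polynomial.eval α p) h
      simp only [Polynomial.eval_add, Polynomial.eval_mul, Polynomial.eval_C,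
        Polynomial.eval_X, Polynomial.eval_zero] at h1
      have h2 : l * α + μ = 1 := by rw [mul_comm]; exact hlμ
      rw [h2] at h1
      exact one_ne_zero h1
  · have h1 := congrArg (fun p => Polynomial.coeff p 2) h
    simp only [Polynomial.coeff_add, Polynomial.coeff_mul_C, Polynomial.coeff_C_mul,
      Polynomial.coeff_X_pow, Polynomial.coeff_X, Polynomial.coeff_C,
      Polynomial.coeff_zero] at h1
    norm_num at h1
    exact hγ0 h1

end LL

section fse

variable {M : ℕ} {A : Type*} [CommRing A] [Algebra ℂ A]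

theorem st_fse (s : A) (v : Fin M → A) (f : MvPolynomial (Fin (M+1)) ℂ) :
    aeval (Fin.cons s v : Fin (M+1) → A) f = Polynomial.eval s ((finSuccEquiv ℂ M f).map
      (aeval v : MvPolynomial (Fin M) ℂ →ₐ[ℂ] A).toRingHom) := by
  induction f using MvPolynomial.induction_on with
  | C a =>
    rw [finSuccEquiv_apply, eval₂Hom_C, RingHom.comp_apply, Polynomial.map_C, Polynomial.eval_C,
      aeval_C]
    exact (aeval_C _ _).symm
  | add p q hp hq => rw [map_add, map_add, hp, hq, Polynomial.map_add, Polynomial.eval_add]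
  | mul_X p i hp =>
    rw [map_mul, map_mul, hp, Polynomial.map_mul, Polynomial.eval_mul, aeval_X]
    congr 1
    refine Fin.cases ?_ (fun j => ?_) i
    · rw [finSuccEquiv_X_zero, Polynomial.map_X, Polynomial.eval_X, Fin.cons_zero]
    · rw [finSuccEquiv_X_succ, Polynomial.map_C, Polynomial.eval_C, Fin.cons_succ]
      exact (aeval_X _ _).symm

omit [Algebra ℂ A] in
theorem st_eval_lt (P : Polynomial A) (n : ℕ) (h : ∀ k, n ≤ k → P.coeff k = 0) (s : A) :
    P.eval s = ∑ i ∈ Finset.range n, P.coeff i * s ^ i := by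
  classical
  have h1 : P = ∑ i ∈ Finset.range n, Polynomial.monomial i (P.coeff i) := by
    ext k
    rw [Polynomial.finsetSum_coeff]
    simp only [Polynomial.coeff_monomial]
    rw [Finset.sum_ite_eq']
    split_ifs with hk
    · rfl
    · exact h k (by simpa using hk)
  conv_lhs => rw [h1]
  rw [Polynomial.eval_finsetSum]
  exact Finset.sum_congr rfl fun i _ => Polynomial.eval_monomial

theorem st_eval_zero {d : ℕ} (hd : d ≠ 0) {f : MvPolynomial (Fin M) ℂ} (hf : f.IsHomogeneous d) :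
    aeval (0 : Fin M → ℂ) f = 0 := by
  have h1 := aeval_smul_hom (A := ℂ) hf 0 (0 : Fin M → ℂ)
  have h2 : (fun i : Fin M => (0:ℂ) * (0 : Fin M → ℂ) i) = 0 := by
    funext i
    simp
  rw [h2, zero_pow hd, zero_mul] at h1
  exact h1

theorem st_const {f : MvPolynomial (Fin M) ℂ} (hf : f.IsHomogeneous 0) :
    f = C (aeval (0 : Fin M → ℂ) f) := by
  have h1 : f = C (coeff 0 f) := (totalDegree_eq_zero_iff_eq_C).1 (Nat.le_zero.1 hf.totalDegree_le)
  rw [h1, aeval_C]
  rfl

/-- The coefficients of a form vanishing at the first base vector. -/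
theorem st_top {e : ℕ} {f : MvPolynomial (Fin (M+1)) ℂ} (hf : f.IsHomogeneous e)
    (h0 : aeval (Fin.cons 1 0 : Fin (M+1) → ℂ) f = 0) (k : ℕ) (hk : e ≤ k) :
    (finSuccEquiv ℂ M f).coeff k = 0 := by
  classical
  have hbig : ∀ k, e + 1 ≤ k → (finSuccEquiv ℂ M f).coeff k = 0 := by
    intro k hk
    apply Polynomial.coeff_eq_zero_of_natDegree_lt
    rw [natDegree_finSuccEquiv]
    have h1 := degreeOf_le_totalDegree f 0
    have h2 := hf.totalDegree_le
    omega
  rcases Nat.lt_or_ge e k with h | h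
  · exact hbig k h
  · obtain rfl : k = e := le_antisymm h hk
    have h1 := hf.finSuccEquiv_coeff_isHomogeneous k 0 (add_zero _)
    have h2 := st_const h1
    rw [st_fse, st_eval_lt _ (k + 1)] at h0
    · rw [Finset.sum_eq_single k] at h0
      · rw [one_pow, mul_one, Polynomial.coeff_map] at h0
        rw [h2]
        have h3 : aeval (0 : Fin M → ℂ) ((finSuccEquiv ℂ M f).coeff k) = 0 := h0
        rw [h3, C_0]
      · intro i hi hik
        have hi' := Finset.mem_range.1 hi
        rw [Polynomial.coeff_map]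
        have h3 := hf.finSuccEquiv_coeff_isHomogeneous i (k - i) (by omega)
        have h4 : (aeval (0 : Fin M → ℂ) : MvPolynomial (Fin M) ℂ →ₐ[ℂ] ℂ).toRingHom
          ((finSuccEquiv ℂ M f).coeff i) = 0 := st_eval_zero (by omega) h3
        rw [h4, zero_mul]
      · intro h
        exact absurd (Finset.mem_range.2 (Nat.lt_succ_self k)) h
    · intro i hi
      rw [Polynomial.coeff_map, hbig i hi, map_zero]

theorem st_sum {e : ℕ} {f : MvPolynomial (Fin (M+1)) ℂ} (hf : f.IsHomogeneous e)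
    (h0 : aeval (Fin.cons 1 0 : Fin (M+1) → ℂ) f = 0) (s : A) (v : Fin M → A) :
    aeval (Fin.cons s v : Fin (M+1) → A) f =
      ∑ i ∈ Finset.range e, aeval v ((finSuccEquiv ℂ M f).coeff i) * s ^ i := by
  rw [st_fse, st_eval_lt _ e]
  · refine Finset.sum_congr rfl fun i _ => ?_
    rw [Polynomial.coeff_map]
    rfl
  · intro k hk
    rw [Polynomial.coeff_map, st_top hf h0 k hk, map_zero]

theorem st_lin {f : MvPolynomial (Fin M) ℂ} (hf : f.IsHomogeneous 1) :
    ∃ a : Fin M → ℂ, f = ∑ i, C (a i) * X i := by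
  refine ⟨fun i => aeval (0 : Fin M → ℂ) (pderiv i f), ?_⟩
  have h1 := hf.sum_X_mul_pderiv
  rw [one_smul] at h1
  conv_lhs => rw [← h1]
  refine Finset.sum_congr rfl fun i _ => ?_
  rw [← st_const (hf.pderiv), mul_comm]

end fse

section main

variable {m : ℕ} {L : Type u} [Field L] [Algebra ℂ L]

theorem st_step (hm : 1 ≤ m) {F : MvPolynomial (Fin (m+1+1)) ℂ} (hF : VG F) {M : ℕ}
    (v : Fin M → L)
    (IH : ∀ e, e ≤ 3 → ∀ φ : Fin (m+1+1) → MvPolynomial (Fin M) ℂ, (∀ j, (φ j).IsHomogeneous e) →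
      aeval φ F = 0 → ∀ x : Fin (m+1+1) → L, x = (fun j => aeval v (φ j)) → HG F x →
        Odd (fd (ev x)) → False)
    {dq dc : ℕ} (hdq : dq ≤ 3) (hdc : dc ≤ 3) (Q R : Fin (m+1+1) → MvPolynomial (Fin M) ℂ)
    (hQ : ∀ j, (Q j).IsHomogeneous dq) (hR : ∀ j, (R j).IsHomogeneous dc)
    (hid : ∀ (s : ℂ) (t : Fin M → ℂ), Fc (cL ℂ F) (s • (fun j => aeval t (Q j)) +
      (fun j => aeval t (R j))) = 0)
    (hidL : ∀ s : L, Fc (cL L F) (s • (fun j => aeval v (Q j)) + (fun j => aeval v (R j))) = 0)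
    (α : L) (x : Fin (m+1+1) → L)
    (hx : x = α • (fun j => aeval v (Q j)) + (fun j => aeval v (R j))) (hxG : HG F x)
    (hodd : Odd (fd (ev x))) : False := by
  have hx0 : x 0 ≠ 0 := HG_zero hF hxG
  have hG : Gp F (ev x) := Gp_ev (N := m+1) hF.1 x hx0 hxG
  obtain ⟨⟨a, ha⟩, ⟨b, hb⟩⟩ := st_line hm hF _ _ x α hidL hx hx0 hG hodd
  have hFQ : aeval Q F = 0 := by
    apply MvPolynomial.funext
    intro t
    rw [map_zero, ← MvPolynomial.aeval_eq_eval]
    have h1 := MvPolynomial.comp_aeval_apply Q (aeval t : MvPolynomial (Fin M) ℂ →ₐ[ℂ] ℂ) F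
    change aeval t (aeval Q F) = 0
    rw [h1, aeval_eq_Fc hF.1]
    exact (st_line_coeffs _ _ _ (fun s => hid s t)).1
  have hFR : aeval R F = 0 := by
    apply MvPolynomial.funext
    intro t
    rw [map_zero, ← MvPolynomial.aeval_eq_eval]
    have h1 := MvPolynomial.comp_aeval_apply R (aeval t : MvPolynomial (Fin M) ℂ →ₐ[ℂ] ℂ) F
    change aeval t (aeval R F) = 0
    rw [h1, aeval_eq_Fc hF.1]
    exact (st_line_coeffs _ _ _ (fun s => hid s t)).2.2.2
  by_cases hb0 : b = 0
  · have ha0 : a ≠ 0 := by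
      rintro rfl
      apply hx0
      rw [hx, ha, hb, hb0]
      simp
    refine IH dq hdq Q hQ hFQ (a • x) ha.symm (HG_smul hxG a ha0) ?_
    rw [ev_smul a ha0]
    exact hodd
  · refine IH dc hdc R hR hFR (b • x) hb.symm (HG_smul hxG b hb0) ?_
    rw [ev_smul b hb0]
    exact hodd

/-- Degrees zero and one. -/
theorem st_span {F : MvPolynomial (Fin (m+1+1)) ℂ} (hF : VG F) {M : ℕ} (v : Fin M → L)
    (a : Fin M → Fin (m+1+1) → ℂ)
    (h : ∀ t : Fin M → ℂ, Fc (cub F) (∑ i, t i • a i) = 0) (x : Fin (m+1+1) → L)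
    (hx : x = ∑ i, v i • (fun j => algebraMap ℂ L (a i j))) (hxG : HG F x) : False := by
  refine not_mem_span (N := m+1) hF (Submodule.span ℂ (Set.range a)) ?_ x hxG ?_
  · intro y hy
    obtain ⟨t, rfl⟩ := (Submodule.mem_span_range_iff_exists_fun ℂ).1 hy
    exact h t
  · rw [hx]
    unfold spanL
    refine Submodule.sum_mem _ fun i _ => Submodule.smul_mem _ _ (Submodule.subset_span ?_)
    exact ⟨a i, Submodule.subset_span ⟨i, rfl⟩, rfl⟩

theorem st_cL {n : ℕ} (F : MvPolynomial (Fin (n+1)) ℂ) : cL ℂ F = cub F := rfl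

theorem st_id {A : Type*} [Field A] [Algebra ℂ A] {F : MvPolynomial (Fin (m+1+1)) ℂ} (hF : VG F)
    {N : ℕ} (ψ : Fin (m+1+1) → MvPolynomial (Fin N) ℂ) (h0 : aeval ψ F = 0) (y : Fin N → A) :
    Fc (cL A F) (fun j => aeval y (ψ j)) = 0 := by
  have h1 := MvPolynomial.comp_aeval_apply ψ (aeval y : MvPolynomial (Fin N) ℂ →ₐ[ℂ] A) F
  rw [h0, map_zero, aeval_eq_Fc hF.1] at h1
  exact h1.symm

/-- Dropping a dependent coordinate. -/
theorem st_drop {M n e : ℕ} (p : Fin (M+1) → L) (hdep : ¬ LinearIndependent ℂ p)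
    (φ : Fin n → MvPolynomial (Fin (M+1)) ℂ) (hφ : ∀ j, (φ j).IsHomogeneous e)
    {F : MvPolynomial (Fin n) ℂ} (h0 : aeval φ F = 0) :
    ∃ (p' : Fin M → L) (φ' : Fin n → MvPolynomial (Fin M) ℂ), (∀ j, (φ' j).IsHomogeneous e) ∧
      aeval φ' F = 0 ∧ ∀ j, aeval p' (φ' j) = aeval p (φ j) := by
  classical
  obtain ⟨g, hg, i0, hi0⟩ := Fintype.not_linearIndependent_iff.1 hdep
  let σ : Fin (M+1) → MvPolynomial (Fin M) ℂ :=
    Fin.insertNth (α := fun _ => MvPolynomial (Fin M) ℂ) i0
      (∑ k, C (-(g (i0.succAbove k)) / g i0) * X k) (fun k => X k)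
  have hσ0 : σ i0 = ∑ k, C (-(g (i0.succAbove k)) / g i0) * X k := by
    simp only [σ, Fin.insertNth_apply_same]
  have hσ1 : ∀ k, σ (i0.succAbove k) = X k := by
    intro k
    simp only [σ, Fin.insertNth_apply_succAbove]
  have hσh : ∀ i, (σ i).IsHomogeneous 1 := by
    intro i
    rcases Fin.eq_self_or_eq_succAbove i0 i with rfl | ⟨k, rfl⟩
    · rw [hσ0]
      refine IsHomogeneous.sum _ _ _ fun k _ => ?_
      have := (isHomogeneous_C (Fin M) (-(g (i.succAbove k)) / g i)).mul (isHomogeneous_X ℂ k)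
      rwa [zero_add] at this
    · rw [hσ1]
      exact isHomogeneous_X _ _
  have hp : (fun i => aeval (fun k => p (i0.succAbove k)) (σ i)) = p := by
    funext i
    rcases Fin.eq_self_or_eq_succAbove i0 i with rfl | ⟨k, rfl⟩
    · rw [hσ0, map_sum]
      rw [Fin.sum_univ_succAbove _ i] at hg
      have h1 : ∀ k, aeval (fun k => p (i.succAbove k)) (C (-(g (i.succAbove k)) / g i) * X k :
          MvPolynomial (Fin M) ℂ) = -((g i)⁻¹ • (g (i.succAbove k) • p (i.succAbove k))) := by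
        intro k
        rw [map_mul, aeval_C, aeval_X, smul_smul, ← neg_smul, ← Algebra.smul_def]
        congr 1
        rw [neg_div, div_eq_inv_mul]
      simp only [h1]
      rw [Finset.sum_neg_distrib, ← Finset.smul_sum]
      have h2 : ∑ k, g (i.succAbove k) • p (i.succAbove k) = - (g i • p i) :=
        eq_neg_of_add_eq_zero_right hg
      rw [h2, smul_neg, neg_neg, smul_smul, inv_mul_cancel₀ hi0, one_smul]
    · rw [hσ1, aeval_X]
  refine ⟨fun k => p (i0.succAbove k), fun j => aeval σ (φ j), ?_, ?_, ?_⟩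
  · intro j
    have := (hφ j).aeval σ hσh
    rwa [one_mul] at this
  · have h1 := MvPolynomial.comp_aeval_apply φ (aeval σ : MvPolynomial (Fin (M+1)) ℂ →ₐ[ℂ] _) F
    rw [h0, map_zero] at h1
    exact h1.symm
  · intro j
    have h1 := MvPolynomial.comp_aeval_apply σ (aeval (fun k => p (i0.succAbove k)) :
      MvPolynomial (Fin M) ℂ →ₐ[ℂ] L) (φ j)
    rw [hp] at h1
    exact h1

/-- Moving the base point to the first base vector. -/
theorem st_change {M n e : ℕ} (p : Fin (M+1) → L) (hli : LinearIndependent ℂ p)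
    (φ : Fin n → MvPolynomial (Fin (M+1)) ℂ) (hφ : ∀ j, (φ j).IsHomogeneous e)
    {F : MvPolynomial (Fin n) ℂ} (h0 : aeval φ F = 0) (p0 : Fin (M+1) → ℂ) (hp0 : p0 ≠ 0)
    (hbp : ∀ j, eval p0 (φ j) = 0) :
    ∃ (α : L) (v : Fin M → L) (ψ : Fin n → MvPolynomial (Fin (M+1)) ℂ), LinearIndependent ℂ v ∧
      (∀ j, (ψ j).IsHomogeneous e) ∧ aeval ψ F = 0 ∧
      (∀ j, aeval (Fin.cons 1 0 : Fin (M+1) → ℂ) (ψ j) = 0) ∧
      ∀ j, aeval (Fin.cons α v : Fin (M+1) → L) (ψ j) = aeval p (φ j) := by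
  classical
  obtain ⟨i0, hi0⟩ : ∃ i0, p0 i0 ≠ 0 := by
    by_contra hcon
    push Not at hcon
    exact hp0 (funext hcon)
  let σ : Fin (M+1) → MvPolynomial (Fin (M+1)) ℂ :=
    Fin.insertNth (α := fun _ => MvPolynomial (Fin (M+1)) ℂ) i0
      (C (p0 i0) * X 0) (fun k => C (p0 (i0.succAbove k)) * X 0 + X k.succ)
  have hσ0 : σ i0 = C (p0 i0) * X 0 := by
    simp only [σ, Fin.insertNth_apply_same]
  have hσ1 : ∀ k, σ (i0.succAbove k) = C (p0 (i0.succAbove k)) * X 0 + X k.succ := by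
    intro k
    simp only [σ, Fin.insertNth_apply_succAbove]
  have hσh : ∀ i, (σ i).IsHomogeneous 1 := by
    intro i
    have hc : ∀ a : ℂ, (C a * X 0 : MvPolynomial (Fin (M+1)) ℂ).IsHomogeneous 1 := by
      intro a
      have := (isHomogeneous_C (Fin (M+1)) a).mul (isHomogeneous_X ℂ (0 : Fin (M+1)))
      rwa [zero_add] at this
    rcases Fin.eq_self_or_eq_succAbove i0 i with rfl | ⟨k, rfl⟩
    · rw [hσ0]
      exact hc _
    · rw [hσ1]
      exact (hc _).add (isHomogeneous_X _ _)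
  obtain ⟨α, hα⟩ : ∃ α : L, α = (p0 i0)⁻¹ • p i0 := ⟨_, rfl⟩
  obtain ⟨v, hv⟩ : ∃ v : Fin M → L, v = fun k => p (i0.succAbove k) - p0 (i0.succAbove k) • α :=
    ⟨_, rfl⟩
  have hα' : p0 i0 • α = p i0 := by
    rw [hα, smul_smul, mul_inv_cancel₀ hi0, one_smul]
  have hp : (fun i => aeval (Fin.cons α v : Fin (M+1) → L) (σ i)) = p := by
    funext i
    rcases Fin.eq_self_or_eq_succAbove i0 i with rfl | ⟨k, rfl⟩
    · rw [hσ0, map_mul, aeval_C, aeval_X, Fin.cons_zero, ← Algebra.smul_def, hα']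
    · rw [hσ1, map_add, map_mul, aeval_C, aeval_X, aeval_X, Fin.cons_zero, Fin.cons_succ,
        ← Algebra.smul_def, hv]
      simp
  have hp1 : (fun i => aeval (Fin.cons 1 0 : Fin (M+1) → ℂ) (σ i)) = p0 := by
    funext i
    rcases Fin.eq_self_or_eq_succAbove i0 i with rfl | ⟨k, rfl⟩
    · rw [hσ0, map_mul, aeval_C, aeval_X, Fin.cons_zero, mul_one]
      rfl
    · rw [hσ1, map_add, map_mul, aeval_C, aeval_X, aeval_X, Fin.cons_zero, Fin.cons_succ, mul_one]
      simp
  refine ⟨α, v, fun j => aeval σ (φ j), ?_, ?_, ?_, ?_, ?_⟩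
  · rw [Fintype.linearIndependent_iff]
    intro g hg
    have hli' := Fintype.linearIndependent_iff.1 hli
    let h : Fin (M+1) → ℂ := Fin.insertNth (α := fun _ => ℂ) i0
      (-(∑ k, g k * p0 (i0.succAbove k)) * (p0 i0)⁻¹) g
    have hh0 : h i0 = -(∑ k, g k * p0 (i0.succAbove k)) * (p0 i0)⁻¹ := by
      simp only [h, Fin.insertNth_apply_same]
    have hh1 : ∀ k, h (i0.succAbove k) = g k := by
      intro k
      simp only [h, Fin.insertNth_apply_succAbove]
    have h1 : ∑ i, h i • p i = 0 := by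
      rw [Fin.sum_univ_succAbove _ i0, hh0]
      simp only [hh1]
      have h2 : ∑ k, g k • v k = ∑ k, g k • p (i0.succAbove k) -
          (∑ k, g k * p0 (i0.succAbove k)) • α := by
        rw [hv, Finset.sum_smul, ← Finset.sum_sub_distrib]
        refine Finset.sum_congr rfl fun k _ => ?_
        rw [smul_sub, smul_smul]
      rw [h2] at hg
      rw [mul_smul, ← hα, neg_smul]
      rw [sub_eq_zero] at hg
      rw [hg]
      abel
    intro k
    rw [← hh1 k]
    exact hli' h h1 _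
  · intro j
    have := (hφ j).aeval σ hσh
    rwa [one_mul] at this
  · have h1 := MvPolynomial.comp_aeval_apply φ (aeval σ : MvPolynomial (Fin (M+1)) ℂ →ₐ[ℂ] _) F
    rw [h0, map_zero] at h1
    exact h1.symm
  · intro j
    have h1 := MvPolynomial.comp_aeval_apply σ (aeval (Fin.cons 1 0 : Fin (M+1) → ℂ) :
      MvPolynomial (Fin (M+1)) ℂ →ₐ[ℂ] ℂ) (φ j)
    rw [hp1, MvPolynomial.aeval_eq_eval p0] at h1
    exact h1.trans (hbp j)
  · intro j
    have h1 := MvPolynomial.comp_aeval_apply σ (aeval (Fin.cons α v : Fin (M+1) → L) :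
      MvPolynomial (Fin (M+1)) ℂ →ₐ[ℂ] L) (φ j)
    rw [hp] at h1
    exact h1

/-- Base points. -/
theorem st_base (hm : 3 ≤ m) {F : MvPolynomial (Fin (m+1+1)) ℂ} (hF : VG F) {M e : ℕ}
    (he2 : 2 ≤ e) (he3 : e ≤ 3) (φ : Fin (m+1+1) → MvPolynomial (Fin (M+1)) ℂ)
    (hφ : ∀ j, (φ j).IsHomogeneous e) (h0 : aeval φ F = 0)
    (hdom : ∀ G : MvPolynomial (Fin (m+2)) ℂ, aeval φ G = 0 → F ∣ G) :
    ∃ p : Fin (M+1) → ℂ, p ≠ 0 ∧ ∀ j, eval p (φ j) = 0 := by
  have hsm : ∀ w : Fin (m+2) → ℂ, (∀ j, eval w (pderiv j F) = 0) → w = 0 :=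
    fun w hw => smooth_of_VG hF w hw
  have hN := st_small hF φ hdom
  rcases Nat.lt_or_ge m M with h | h
  · exact st_base_big (by omega) (by omega) (F_ne_zero (N := m+1) hF) φ hφ h0
  · obtain rfl : M = m := by omega
    rcases Nat.lt_or_ge e 3 with h3 | h3
    · exfalso
      obtain ⟨h1, h2⟩ := MP2619.Q.main (by omega) (d := 2) (e := e) (by omega) hF.1 hsm φ hφ
        h0 hdom
      have h3 : (e - 1) ^ M ≤ 1 := by
        calc (e - 1) ^ M ≤ 1 ^ M := Nat.pow_le_pow_left (by omega) M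
          _ = 1 := one_pow M
      have h4 : MP2619.Q.mapDegree φ * (2 + 1) * 2 ^ M ≤ M + 1 := by
        calc _ ≤ (M + 1) * (e - 1) ^ M := h2
          _ ≤ (M + 1) * 1 := Nat.mul_le_mul_left _ h3
          _ = M + 1 := mul_one _
      have h5 : 2 ^ M ≤ MP2619.Q.mapDegree φ * (2 + 1) * 2 ^ M :=
        Nat.le_mul_of_pos_left _ (by positivity)
      have h6 : M + 1 < 2 ^ M := by
        clear * - hm
        induction M, hm using Nat.le_induction with
        | base => norm_num
        | succ j hj ih => rw [pow_succ]; omega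
      omega
    · obtain rfl : e = 3 := le_antisymm he3 h3
      exact exists_base_point (by omega) hF.1 hsm φ hφ h0 hdom

/-- **Theorem S.** The very general cubic hypersurface `X` of dimension `m ≥ 3`: if `φ` is a
family of forms of degree at most three in any number of variables with `F(φ) = 0` and `p` is a
point with coordinates in an extension field `L` of `ℂ` such that `φ(p)` is a generic point of
`X`, then `L` does not have odd degree over `ℂ(X)`. -/
theorem stable_odd (hm : 3 ≤ m) {F : MvPolynomial (Fin (m+1+1)) ℂ} (hF : VG F)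
    (hT : StT.{u} (N := m+1) F) (hS : StS.{u} (N := m+1) F) :
    ∀ (N e : ℕ), e ≤ 3 → ∀ φ : Fin (m+1+1) → MvPolynomial (Fin N) ℂ,
      (∀ j, (φ j).IsHomogeneous e) → aeval φ F = 0 → ∀ (p : Fin N → L) (x : Fin (m+1+1) → L),
        x = (fun j => aeval p (φ j)) → HG F x → Odd (fd (ev x)) → False := by
  intro N
  induction N using Nat.strong_induction_on with
  | _ N ih =>
  intro e he φ hφ h0 p x hx hxG hodd
  have hx0 : x 0 ≠ 0 := HG_zero hF hxG
  by_cases he0 : e = 0
  · -- constants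
    subst he0
    refine st_span hF (M := 1) (fun _ => (1 : L)) (fun _ j => aeval (0 : Fin N → ℂ) (φ j)) ?_ x ?_ hxG
    · intro t
      have h1 := st_id hF φ h0 (0 : Fin N → ℂ)
      rw [st_cL] at h1
      have h2 : ∑ i : Fin 1, t i • (fun j => aeval (0 : Fin N → ℂ) (φ j)) =
          t 0 • (fun j => aeval (0 : Fin N → ℂ) (φ j)) := by simp
      rw [h2, Fc_smul, h1, mul_zero]
    · rw [hx]
      funext j
      have h1 := st_const (hφ j)
      have h2 : aeval p (φ j) = algebraMap ℂ L (aeval (0 : Fin N → ℂ) (φ j)) := by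
        conv_lhs => rw [h1]
        rw [aeval_C]
      rw [h2]
      simp
  by_cases he1 : e = 1
  · -- linear forms
    subst he1
    choose a ha using fun j => st_lin (hφ j)
    refine st_span hF p (fun i j => a j i) ?_ x ?_ hxG
    · intro t
      have h1 := st_id hF φ h0 t
      rw [st_cL] at h1
      have h2 : (∑ i, t i • fun j => a j i) = fun j => aeval t (φ j) := by
        funext j
        rw [Finset.sum_apply, ha j, map_sum]
        refine Finset.sum_congr rfl fun i _ => ?_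
        rw [map_mul, aeval_C, aeval_X, Pi.smul_apply, smul_eq_mul, mul_comm]
        rfl
      rw [h2]
      exact h1
    · rw [hx]
      funext j
      rw [Finset.sum_apply, ha j, map_sum]
      refine Finset.sum_congr rfl fun i _ => ?_
      rw [map_mul, aeval_C, aeval_X, Pi.smul_apply, smul_eq_mul, mul_comm]
  have he2 : 2 ≤ e := by omega
  have hdom : ∀ G : MvPolynomial (Fin (m+1+1)) ℂ, aeval φ G = 0 → F ∣ G := by
    intro G hG
    exact st_hdom (by omega) φ hφ p (by rw [← hx]; exact hxG) G hG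
  have hN := st_small hF φ hdom
  obtain ⟨M, rfl⟩ : ∃ M, N = M + 1 := ⟨N - 1, by omega⟩
  by_cases hli : LinearIndependent ℂ p
  swap
  · obtain ⟨p', φ', hφ', h0', hpp⟩ := st_drop p hli φ hφ h0
    refine ih M (Nat.lt_succ_self M) e he φ' hφ' h0' p' x ?_ hxG hodd
    rw [hx]
    funext j
    exact (hpp j).symm
  obtain ⟨p0, hp0, hbp⟩ := st_base hm hF he2 he φ hφ h0 hdom
  obtain ⟨α, v, ψ, hvli, hψ, hψ0, hψb, hψp⟩ := st_change p hli φ hφ h0 p0 hp0 hbp
  have hIH : ∀ e, e ≤ 3 → ∀ φ : Fin (m+1+1) → MvPolynomial (Fin M) ℂ,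
      (∀ j, (φ j).IsHomogeneous e) → aeval φ F = 0 → ∀ x : Fin (m+1+1) → L,
        x = (fun j => aeval v (φ j)) → HG F x → Odd (fd (ev x)) → False :=
    fun e he φ hφ h0 x hx hxG hodd => ih M (Nat.lt_succ_self M) e he φ hφ h0 v x hx hxG hodd
  obtain ⟨co, hco⟩ : ∃ co : ℕ → Fin (m+1+1) → MvPolynomial (Fin M) ℂ,
      co = fun k j => (finSuccEquiv ℂ M (ψ j)).coeff k := ⟨_, rfl⟩
  have hcoh : ∀ k l, k + l = e → ∀ j, (co k j).IsHomogeneous l := by
    intro k l hkl j
    rw [hco]
    exact (hψ j).finSuccEquiv_coeff_isHomogeneous k l hkl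
  by_cases he22 : e = 2
  · subst he22
    have hsum : ∀ (s : L) (t : Fin M → L),
        (fun j => aeval (Fin.cons s t : Fin (M+1) → L) (ψ j)) =
          s • (fun j => aeval t (co 1 j)) + fun j => aeval t (co 0 j) := by
      intro s t
      funext j
      rw [st_sum (hψ j) (hψb j), Finset.sum_range_succ, Finset.sum_range_one, hco]
      simp only [Pi.add_apply, Pi.smul_apply, smul_eq_mul]
      ring
    have hsumC : ∀ (s : ℂ) (t : Fin M → ℂ),
        (fun j => aeval (Fin.cons s t : Fin (M+1) → ℂ) (ψ j)) =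
          s • (fun j => aeval t (co 1 j)) + fun j => aeval t (co 0 j) := by
      intro s t
      funext j
      rw [st_sum (hψ j) (hψb j), Finset.sum_range_succ, Finset.sum_range_one, hco]
      simp only [Pi.add_apply, Pi.smul_apply, smul_eq_mul]
      ring
    refine st_step (by omega) hF v hIH (dq := 1) (dc := 2) (by omega) (by omega) (co 1) (co 0)
      (hcoh 1 1 rfl) (hcoh 0 2 rfl) ?_ ?_ α x ?_ hxG hodd
    · intro s t
      rw [← hsumC]
      exact st_id hF ψ hψ0 _
    · intro s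
      rw [← hsum]
      exact st_id hF ψ hψ0 _
    · rw [← hsum, hx]
      funext j
      exact (hψp j).symm
  obtain rfl : e = 3 := by omega
  have hsum : ∀ (s : L) (t : Fin M → L),
      (fun j => aeval (Fin.cons s t : Fin (M+1) → L) (ψ j)) =
        s ^ 2 • (fun j => aeval t (co 2 j)) + s • (fun j => aeval t (co 1 j)) +
          fun j => aeval t (co 0 j) := by
    intro s t
    funext j
    rw [st_sum (hψ j) (hψb j), Finset.sum_range_succ, Finset.sum_range_succ,
      Finset.sum_range_one, hco]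
    simp only [Pi.add_apply, Pi.smul_apply, smul_eq_mul]
    ring
  have hsumC : ∀ (s : ℂ) (t : Fin M → ℂ),
      (fun j => aeval (Fin.cons s t : Fin (M+1) → ℂ) (ψ j)) =
        s ^ 2 • (fun j => aeval t (co 2 j)) + s • (fun j => aeval t (co 1 j)) +
          fun j => aeval t (co 0 j) := by
    intro s t
    funext j
    rw [st_sum (hψ j) (hψb j), Finset.sum_range_succ, Finset.sum_range_succ,
      Finset.sum_range_one, hco]
    simp only [Pi.add_apply, Pi.smul_apply, smul_eq_mul]
    ring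
  choose a ha using fun j => st_lin (hcoh 2 1 rfl j)
  have hwt : ∀ (t : Fin M → L),
      (fun j => aeval t (co 2 j)) = ∑ i, t i • (fun j => algebraMap ℂ L (a j i)) := by
    intro t
    funext j
    rw [Finset.sum_apply, ha j, map_sum]
    refine Finset.sum_congr rfl fun i _ => ?_
    rw [map_mul, aeval_C, aeval_X, Pi.smul_apply, smul_eq_mul, mul_comm]
  have hwtC : ∀ (t : Fin M → ℂ),
      (fun j => aeval t (co 2 j)) = ∑ i, t i • (fun j => algebraMap ℂ ℂ (a j i)) := by
    intro t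
    funext j
    rw [Finset.sum_apply, ha j, map_sum]
    refine Finset.sum_congr rfl fun i _ => ?_
    rw [map_mul, aeval_C, aeval_X, Pi.smul_apply, smul_eq_mul, mul_comm]
  by_cases hw0 : (fun j => aeval v (co 2 j)) = 0
  · -- the linear part vanishes identically
    have ha0 : ∀ j i, a j i = 0 := by
      intro j
      have h1 := congrFun ((hwt v).symm.trans hw0) j
      rw [Finset.sum_apply] at h1
      have h2 : ∑ i, a j i • v i = 0 := by
        refine Eq.trans ?_ h1
        refine Finset.sum_congr rfl fun i _ => ?_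
        rw [Algebra.smul_def, Pi.smul_apply, smul_eq_mul, mul_comm]
      exact fun i => Fintype.linearIndependent_iff.1 hvli (a j) h2 i
    have hco2 : ∀ (t : Fin M → L),
        (fun j => aeval t (co 2 j)) = 0 := by
      intro t
      rw [hwt]
      refine Finset.sum_eq_zero fun i _ => ?_
      funext j
      simp [ha0]
    have hco2C : ∀ (t : Fin M → ℂ),
        (fun j => aeval t (co 2 j)) = 0 := by
      intro t
      rw [hwtC]
      refine Finset.sum_eq_zero fun i _ => ?_
      funext j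
      simp [ha0]
    refine st_step (by omega) hF v hIH (dq := 2) (dc := 3) (by omega) (by omega) (co 1) (co 0)
      (hcoh 1 2 rfl) (hcoh 0 3 rfl) ?_ ?_ α x ?_ hxG hodd
    · intro s t
      have h1 := st_id hF ψ hψ0 (Fin.cons s t : Fin (M+1) → ℂ)
      rw [hsumC, hco2C, smul_zero, zero_add] at h1
      exact h1
    · intro s
      have h1 := st_id hF ψ hψ0 (Fin.cons s v : Fin (M+1) → L)
      rw [hsum, hco2, smul_zero, zero_add] at h1
      exact h1
    · have h1 := hsum α v
      rw [hco2, smul_zero, zero_add] at h1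
      rw [← h1, hx]
      funext j
      exact (hψp j).symm
  · refine st_conic hm hF hT hS (Submodule.span ℂ (Set.range fun i j => a j i)) ?_
      (fun j => aeval v (co 2 j)) (fun j => aeval v (co 1 j)) (fun j => aeval v (co 0 j)) x α ?_
      hw0 ?_ ?_ hxG hodd
    · intro y hy
      obtain ⟨t, rfl⟩ := (Submodule.mem_span_range_iff_exists_fun ℂ).1 hy
      have h1 := (st_conic_coeffs (cL ℂ F) (fun j => aeval t (co 2 j))
        (fun j => aeval t (co 1 j)) (fun j => aeval t (co 0 j)) (fun s => by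
          rw [← hsumC]
          exact st_id hF ψ hψ0 _)).1
      rw [hwtC, st_cL] at h1
      exact h1
    · rw [hwt]
      unfold spanL
      refine Submodule.sum_mem _ fun i _ => Submodule.smul_mem _ _ (Submodule.subset_span ?_)
      exact ⟨fun j => a j i, Submodule.subset_span ⟨i, rfl⟩, rfl⟩
    · intro s
      rw [← hsum]
      exact st_id hF ψ hψ0 _
    · rw [← hsum, hx]
      funext j
      exact (hψp j).symm

end main

end MP2619.T
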