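import Pool.Agent.Lib.MP_2619d0_ag.QMain
import Pool.Agent.Lib.MP_2619d0_ag.T.SG8
import Pool.Agent.Lib.MP_2619d0_ag.Q2.TLe
import Pool.Agent.Lib.MP_2619d0_ag.Q2.TR1

/-!
# Families of subvarieties of a cubic parametrised by quadratic forms: the theorem
-/

set_option autoImplicit false

namespace MP2619.T

universe u

open Algebra MvPolynomial Pool.Agent.Lib.MP_2619d0_ag Pool.Agent.Lib.MP_2619d0_ag.T

/-- the third point theorem in the form needed for `quad_false` -/
theorem third_convert {m : ℕ} {L : Type u} [Field L] [Algebra ℂ L] (hm : 1 ≤ m)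
    {F : MvPolynomial (Fin (m+1+1)) ℂ} (hF : VG F) (w x : Fin (m+1+1) → L)
    (h1 : (∑ j, x j * aeval w (pderiv j F)) ≠ 0)
    (h2 : IsGP F (fun i => (∑ j, x j * aeval w (pderiv j F)) * x i -
            (∑ j, w j * aeval x (pderiv j F)) * w i) ∧
          Odd (Module.finrank (ratioF (fun i => (∑ j, x j * aeval w (pderiv j F)) * x i -
            (∑ j, w j * aeval x (pderiv j F)) * w i)) L)) :
    Dc (cL L F) w x ≠ 0 ∧ HG F (Dc (cL L F) w x • x - Dc (cL L F) x w • w) ∧
      Odd (fd (ev (Dc (cL L F) w x • x - Dc (cL L F) x w • w))) := by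
  have e1 : Dc (cL L F) w x = ∑ j, x j * aeval w (pderiv j F) := Dc_eq_sum_pderiv hF.1 w x
  have e2 : Dc (cL L F) x w = ∑ j, w j * aeval x (pderiv j F) := Dc_eq_sum_pderiv hF.1 x w
  have e3 : Dc (cL L F) w x • x - Dc (cL L F) x w • w =
      fun i => (∑ j, x j * aeval w (pderiv j F)) * x i -
            (∑ j, w j * aeval x (pderiv j F)) * w i := by
    funext i
    rw [e1, e2]
    rfl
  rw [e3, e1]
  obtain ⟨h3, h4⟩ := h2
  refine ⟨h1, h3, ?_⟩
  have h5 := ((isGP_iff (N := m+1) (by omega) hF _).mp h3).1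
  rw [← finrank_ratioF _ h5]
  exact h4

theorem extend_map {n : ℕ} {E L : Type u} [Field E] [Field L] [Algebra ℂ E] [Algebra ℂ L]
    [Algebra E L] [IsScalarTower ℂ E L] (W : Submodule ℂ (Fin n → ℂ)) (a : Fin n → E)
    (ha : a ∈ extend E W) : (fun j => algebraMap E L (a j)) ∈ extend L W := by
  unfold extend at ha
  refine Submodule.span_induction (p := fun a _ => (fun j => algebraMap E L (a j)) ∈ extend L W)
    ?_ ?_ ?_ ?_ ha
  · rintro _ ⟨w, hw, rfl⟩
    refine Submodule.subset_span ⟨w, hw, ?_⟩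
    funext j
    exact IsScalarTower.algebraMap_apply ℂ E L (w j)
  · have h : (fun j : Fin n => algebraMap E L ((0 : Fin n → E) j)) = 0 := by
      funext j
      exact map_zero _
    rw [h]
    exact zero_mem _
  · intro x y _ _ hx hy
    have h : (fun j : Fin n => algebraMap E L ((x + y) j)) =
        (fun j => algebraMap E L (x j)) + fun j => algebraMap E L (y j) := by
      funext j
      exact map_add _ _ _
    rw [h]
    exact add_mem hx hy
  · intro c x _ hx
    have h : (fun j : Fin n => algebraMap E L ((c • x) j)) =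
        algebraMap E L c • fun j => algebraMap E L (x j) := by
      funext j
      exact map_mul _ _ _
    rw [h]
    exact Submodule.smul_mem _ _ hx

section main

variable {m n : ℕ} {E L : Type u} [Field E] [Field L] [Algebra ℂ E] [Algebra ℂ L] [Algebra E L]
  [IsScalarTower ℂ E L]

theorem trdeg_base_le {F : MvPolynomial (Fin (m+1+1)) ℂ} (hF : VG F) (x : Fin (m+1+1) → L)
    (hx : HG F x) (hodd : Odd (Module.finrank (ratioField x) L)) (hn : 2 ≤ n) (p : Fin n → L)
    (hp : GenE E p) : trdeg ℂ E ≤ (m + 1 - n : ℕ) := by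
  obtain ⟨n, rfl⟩ : ∃ n', n = n' + 1 := ⟨n - 1, by omega⟩
  have h1 := MP2619.TL.le_trdeg_of_generic (E := E) p hp
  have hF0 : F ≠ 0 := F_ne_zero (N := m+1) hF
  have h2 : trdeg ℂ (ratioField x) ≤ m :=
    MP2619.TL.trdeg_ratio_le hF.1 hF0 x (HG_zero hF hx) ((hx 3 F hF.1).2 dvd_rfl)
  have hfin : FiniteDimensional (ratioField x) L := by
    apply FiniteDimensional.of_finrank_pos
    exact Nat.pos_of_ne_zero fun h => by rw [h] at hodd; exact Nat.not_odd_zero hodd
  have h3 := trdeg_add_eq ℂ (ratioField x) (A := L)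
  rw [trdeg_eq_zero (R := ratioField x) (A := L), add_zero] at h3
  have h4 := trdeg_add_eq ℂ E (A := L)
  rw [h3] at h2
  have h5 : trdeg ℂ E + (n : Cardinal) ≤ m := by
    refine le_trans ?_ h2
    rw [← h4]
    gcongr
  have h6 : trdeg ℂ E < Cardinal.aleph0 := by
    refine lt_of_le_of_lt ?_ (Cardinal.natCast_lt_aleph0 (n := m))
    exact le_trans le_self_add h5
  obtain ⟨t, ht⟩ := Cardinal.lt_aleph0.1 h6
  rw [ht] at h5 ⊢
  have h7 : t + n ≤ m := by exact_mod_cast h5
  have h8 : t ≤ m + 1 - (n + 1) := by omega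
  exact_mod_cast h8

theorem quad_even (hm : 1 ≤ m) (hn : 2 ≤ n) {F : MvPolynomial (Fin (m+1+1)) ℂ} (hF : VG F)
    (k0 : Subfield ℂ) (hk0 : Countable k0)
    (hind : AlgebraicIndependent k0 (fun j : Exp3 (m + 1 + 1) => coeff j.1 F)) {d : ℕ}
    {G : MvPolynomial (Fin (m + 1 + 1)) ℂ} (hG : G.IsHomogeneous d) (hG0 : G ≠ 0)
    (hGk : ∀ e, coeff e G ∈ k0)
    (φ : Fin (m+1+1) → MvPolynomial (Fin n) E)
    (hφ : ∀ j, (φ j).IsHomogeneous 2) (p : Fin n → L) (hp : GenE E p)
    (x : Fin (m+1+1) → L) (hxd : x = fun j => aeval p (φ j)) (hx : HG F x)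
    (hcond : 2 ^ (m + 1 - n) < n ∨ ∃ e : Fin n → E, e ≠ 0 ∧
      (aeval (fun j => eval e (φ j)) G = 0 ∨ ∃ W : Submodule ℂ (Fin (m + 1 + 1) → ℂ),
        2 * Module.finrank ℂ W < m + 1 + 1 ∧ (fun j => eval e (φ j)) ∈ extend E W)) :
    ¬ Odd (Module.finrank (ratioField x) L) := by
  intro hodd
  have h0 : aeval φ F = 0 := by
    refine hp (2 * 3) _ (hF.1.aeval _ hφ) ?_
    have h2 : aeval x F = ((aeval p : MvPolynomial (Fin n) E →ₐ[E] L).restrictScalars ℂ)
        (aeval φ F) := by
      rw [MvPolynomial.comp_aeval_apply, hxd]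
      rfl
    rw [(hx 3 F hF.1).2 dvd_rfl] at h2
    exact h2.symm
  have hFw : ∀ e : Fin n → E, aeval (fun j => algebraMap E L (eval e (φ j))) F = 0 := by
    intro e
    have h2 := fc_phi (L := L) hF φ h0 (fun i => algebraMap E L (e i))
    have h3 : (fun j => aeval (fun i => algebraMap E L (e i)) (φ j)) =
        fun j => algebraMap E L (eval e (φ j)) := by
      funext j
      have h4 := MvPolynomial.aeval_algebraMap_apply (A := E) L e (φ j)
      rw [← MvPolynomial.aeval_eq_eval]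
      exact h4
    rw [h3] at h2
    rw [← h2]
    exact aeval_eq_Fc hF.1 _
  rcases hcond with hcond | ⟨e, he, hcond⟩
  · obtain ⟨e, he, he0⟩ := MP2619.TL.exists_zero hcond (trdeg_base_le hF x hx hodd hn p hp)
      (φ 0) (hφ 0)
    refine quad_false hm hn hF φ hφ h0 p hp x hxd hx hodd e he _ rfl ?_
    intro hne
    obtain ⟨h1, h2⟩ := third_hom2 (N := m+1) (by omega) hF x hx hodd _ (hFw e) hne
    exact third_convert hm hF _ x h1 (h2 (Or.inl (by rw [he0, map_zero])))
  · refine quad_false hm hn hF φ hφ h0 p hp x hxd hx hodd e he _ rfl ?_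
    intro hne
    obtain ⟨h1, h2⟩ := third_homG (N := m+1) (by omega) hF k0 hk0 hind hG hG0 hGk x hx hodd _
      (hFw e) hne
    refine third_convert hm hF _ x h1 (h2 ?_)
    rcases hcond with h3 | ⟨W, hW1, hW2⟩
    · left
      have h4 := MvPolynomial.aeval_algebraMap_apply (A := E) L (fun j => eval e (φ j)) G
      rw [h3, map_zero] at h4
      exact h4
    · right
      exact ⟨W, hW1, extend_map W _ hW2⟩

end main

end MP2619.T
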