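import Pool.Agent.Lib.MP_2619d0_ag.TFinal
import Pool.Agent.Lib.MP_2619d0_ag.T.T2
import Pool.Agent.Lib.MP_2619d0_ag.T.T2b

/-!
# The tangent theorem and the secant theorem in the form used for parametrisations
-/

set_option autoImplicit false

namespace MP2619.T

open MvPolynomial Pool.Agent.Lib.MP_2619d0_ag Pool.Agent.Lib.MP_2619d0_ag.T

universe u

theorem stT_of_VG {N : ℕ} (hN : 2 ≤ N) {F : MvPolynomial (Fin (N+1)) ℂ} (hF : VG F) : StT.{u} F := by
  intro L _ _ y x hy0 hGp hodd hx hD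
  have hy : IsGP F y := (isGP_iff hN hF y).mpr ⟨hy0, hGp⟩
  have hodd' : Odd (Module.finrank (ratioF y) L) := by
    rw [finrank_ratioF y hy0]; exact hodd
  refine tangent_hom hN hF y hy hodd' x ?_ ?_
  · rw [aeval_eq_Fc hF.1]
    exact hx
  · rw [← Dc_eq_sum_pderiv hF.1 x y]
    exact hD

theorem stS_of_VG {N : ℕ} (hN : 4 ≤ N) {F : MvPolynomial (Fin (N+1)) ℂ} (hF : VG F) : StS.{u} F := by
  intro L _ _ y w W hy0 hGp hodd hW hw hz
  have hy : IsGP F y := (isGP_iff (by omega) hF y).mpr ⟨hy0, hGp⟩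
  have hodd' : Odd (Module.finrank (ratioF y) L) := by
    rw [finrank_ratioF y hy0]; exact hodd
  have hW' : ∀ x ∈ W, eval x F = 0 := by
    intro x hx
    rw [← MvPolynomial.aeval_eq_eval, aeval_eq_Fc hF.1]
    exact hW x hx
  have hyW : y ∉ spanL L W := not_mem_span hF W hW y hy
  have hzW : y + w ∉ extend L W := by
    intro h
    apply hyW
    have h2 : y = (y + w) - w := by abel
    rw [h2]
    exact Submodule.sub_mem _ h hw
  obtain ⟨h1, h2⟩ := secant_hom hN hF y hy hodd' W hW' (y + w)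
    (by rw [aeval_eq_Fc hF.1]; exact hz) hzW 1 (by rw [one_smul, add_sub_cancel_left]; exact hw)
  obtain ⟨h3, h4⟩ := (isGP_iff (by omega) hF (y + w)).mp h1
  refine ⟨h3, h4, ?_⟩
  rw [← finrank_ratioF (y + w) h3]
  exact h2

end MP2619.T
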