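import Mathlib
import Pool.Agent.Lib.MP_2619d0_ag.T.LT2

/-!
# Specialising transcendental parameters: odd degree is preserved at some place
-/

set_option autoImplicit false

namespace MP2619.T

open Polynomial Pool.Agent.Lib.MP_2619d0_ag.T

universe u

/-- One transcendental parameter `v`: if `L` has odd degree over `K(v)` there is a `K`-place of `L`
which is finite at given elements and whose residue field has odd degree over `K`. -/
theorem spec_one {K L : Type u} [Field K] [Field L] [CharZero K] [Algebra K L] (v : L)
    (hv : Transcendental K v)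
    (hodd : Odd (Module.finrank (IntermediateField.adjoin K {v}) L)) (S : Finset L) :
    ∃ (L1 : Type u) (_ : Field L1) (_ : Algebra K L1) (O : Subalgebra K L) (_ : O →ₐ[K] L1),
      (∀ a ∈ S, a ∈ O) ∧ Odd (Module.finrank K L1) := by
  classical
  have hL0 : CharZero L := charZero_of_injective_algebraMap (algebraMap K L).injective
  have hfd : FiniteDimensional (IntermediateField.adjoin K {v}) L :=
    FiniteDimensional.of_finrank_pos hodd.pos
  -- polynomials in two variables vanishing at `(v, a)`
  have hS : ∀ a : L, ∃ p : (K[X])[X], p ≠ 0 ∧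
      Polynomial.eval₂ (aeval (R := K) v).toRingHom a p = 0 := by
    intro a
    have h1 : Algebra.IsAlgebraic (Algebra.adjoin K ({v} : Set L)) L :=
      IntermediateField.isAlgebraic_adjoin_iff_top.1 inferInstance
    obtain ⟨q, hq0, hq⟩ := h1.isAlgebraic a
    have hsurj : Function.Surjective ((aeval (R := K) v).rangeRestrict) :=
      AlgHom.rangeRestrict_surjective _
    have hadj : Algebra.adjoin K ({v} : Set L) = (aeval (R := K) v).range :=
      Algebra.adjoin_singleton_eq_range_aeval K v
    have hq' : ∃ p : (K[X])[X], p.map (aeval (R := K) v).toRingHom =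
        q.map (algebraMap (Algebra.adjoin K ({v} : Set L)) L) := by
      have h2 : q.map (algebraMap (Algebra.adjoin K ({v} : Set L)) L) ∈
          Polynomial.lifts (aeval (R := K) v).toRingHom := by
        rw [Polynomial.lifts_iff_coeff_lifts]
        intro n
        rw [Polynomial.coeff_map]
        exact hadj.le (q.coeff n).2
      rwa [Polynomial.mem_lifts] at h2
    obtain ⟨p, hp⟩ := hq'
    refine ⟨p, ?_, ?_⟩
    · rintro rfl
      rw [Polynomial.map_zero] at hp
      apply hq0
      apply Polynomial.map_injective _ (FaithfulSMul.algebraMap_injective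
        (Algebra.adjoin K ({v} : Set L)) L)
      rw [← hp, Polynomial.map_zero]
    · rw [Polynomial.eval₂_eq_eval_map, hp, ← Polynomial.eval₂_eq_eval_map]
      exact hq
  choose P hP0 hP using hS
  obtain ⟨c, hc⟩ : ∃ c : K, (∏ a ∈ S, (P a).leadingCoeff).eval c ≠ 0 := by
    have h1 : (∏ a ∈ S, (P a).leadingCoeff) ≠ 0 :=
      Finset.prod_ne_zero_iff.2 fun a _ => Polynomial.leadingCoeff_ne_zero.2 (hP0 a)
    by_contra hcon
    push Not at hcon
    exact h1 (Polynomial.funext fun r => by rw [hcon r, Polynomial.eval_zero])
  have hcS : ∀ a ∈ S, (P a).leadingCoeff.eval c ≠ 0 := by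
    rw [Polynomial.eval_prod, Finset.prod_ne_zero_iff] at hc
    exact hc
  -- the discrete valuation ring of the point `c`
  let I : Ideal K[X] := Ideal.span {X - C c}
  have hI0 : I ≠ ⊥ := by
    intro h
    rw [Ideal.span_singleton_eq_bot] at h
    exact Polynomial.X_sub_C_ne_zero c h
  have hIm : I.IsMaximal :=
    PrincipalIdealRing.isMaximal_of_irreducible (Polynomial.irreducible_X_sub_C c)
  have hIp : I.IsPrime := hIm.isPrime
  have hmemI : ∀ p : K[X], p ∈ I ↔ p.eval c = 0 := by
    intro p
    rw [Ideal.mem_span_singleton, Polynomial.dvd_iff_isRoot]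
    rfl
  let A := Localization.AtPrime I
  have hdvr : IsDiscreteValuationRing A :=
    IsLocalization.AtPrime.isDiscreteValuationRing_of_dedekind_domain K[X] hI0 A
  have hunit : ∀ y : I.primeCompl, IsUnit ((aeval (R := K) v).toRingHom (y : K[X])) := by
    intro y
    rw [isUnit_iff_ne_zero]
    intro h
    have h1 : (y : K[X]) = 0 := by
      by_contra hne
      exact hv ⟨y, hne, h⟩
    apply y.2
    rw [h1]
    exact I.zero_mem
  let j : A →+* L := IsLocalization.lift (M := I.primeCompl) hunit
  have hj1 : ∀ p : K[X], j (algebraMap K[X] A p) = aeval v p := fun p =>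
    IsLocalization.lift_eq hunit p
  have hj : Function.Injective j := by
    rw [injective_iff_map_eq_zero]
    intro a ha
    obtain ⟨⟨p, q⟩, rfl⟩ := IsLocalization.mk'_surjective I.primeCompl a
    have h1 : aeval v p = 0 := by
      have h2 : algebraMap K[X] A q * IsLocalization.mk' A p q = algebraMap K[X] A p := by
        rw [mul_comm]; exact IsLocalization.mk'_spec A p q
      have h3 := congrArg j h2
      rw [map_mul, hj1, hj1] at h3
      change _ * j (IsLocalization.mk' A p q) = _ at h3
      rw [← h3]
      have h4 : j (IsLocalization.mk' A p q) = 0 := ha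
      rw [h4, mul_zero]
    have h2 : p = 0 := by
      by_contra hne
      exact hv ⟨p, hne, h1⟩
    change IsLocalization.mk' A p q = 0
    rw [h2, IsLocalization.mk'_zero]
  -- the closure of the range
  have hcl : Subfield.closure (Set.range j) = (IntermediateField.adjoin K {v}).toSubfield := by
    apply le_antisymm
    · rw [Subfield.closure_le]
      rintro _ ⟨a, rfl⟩
      obtain ⟨⟨p, q⟩, rfl⟩ := IsLocalization.mk'_surjective I.primeCompl a
      have h2 : algebraMap K[X] A q * IsLocalization.mk' A p q = algebraMap K[X] A p := by
        rw [mul_comm]; exact IsLocalization.mk'_spec A p q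
      have h3 := congrArg j h2
      rw [map_mul, hj1, hj1] at h3
      have h4 : aeval v (q : K[X]) ≠ 0 := (isUnit_iff_ne_zero.1 (hunit q))
      have h5 : j (IsLocalization.mk' A p q) = aeval v p / aeval v (q : K[X]) := by
        rw [eq_div_iff h4, mul_comm]; exact h3
      change j (IsLocalization.mk' A p q) ∈ _
      rw [h5]
      have hm : ∀ r : K[X], aeval v r ∈ (IntermediateField.adjoin K {v}) := by
        intro r
        have h6 := Polynomial.aeval_algebraMap_apply L (IntermediateField.AdjoinSimple.gen K v) r
        rw [IntermediateField.AdjoinSimple.algebraMap_gen] at h6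
        rw [h6]
        exact (aeval (IntermediateField.AdjoinSimple.gen K v) r).2
      exact div_mem (hm _) (hm _)
    · have h1 : ∀ a : K, algebraMap K L a ∈ Subfield.closure (Set.range j) := by
        intro a
        apply Subfield.subset_closure
        exact ⟨algebraMap K[X] A (C a), by rw [hj1, aeval_C]⟩
      let M : IntermediateField K L := { Subfield.closure (Set.range j) with algebraMap_mem' := h1 }
      have h2 : IntermediateField.adjoin K {v} ≤ M := by
        rw [IntermediateField.adjoin_le_iff]
        rintro _ rfl
        exact Subfield.subset_closure ⟨algebraMap K[X] A X, by rw [hj1, aeval_X]⟩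
      exact h2
  have hfr : Module.finrank (Subfield.closure (Set.range j)) L =
      Module.finrank (IntermediateField.adjoin K {v}) L := by
    rw [hcl]
    rfl
  obtain ⟨s, e, d, hs, -, hd, hsum⟩ := fi_dvr j hj (by rw [hfr]; exact hodd.pos.ne')
  obtain ⟨O, hOs, hOd⟩ : ∃ O ∈ s, Odd (d O) := by
    by_contra hcon
    push Not at hcon
    have h1 : Even (∑ O ∈ s, e O * d O) := by
      apply Finset.even_sum
      intro O hO
      exact (Nat.not_odd_iff_even.1 (hcon O hO)).mul_left _
    rw [hsum, hfr] at h1
    exact (Nat.not_even_iff_odd.2 hodd) h1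
  obtain ⟨hO1, hO2⟩ := (hs O).1 hOs
  have hKO : ∀ a : K, algebraMap K L a ∈ O := by
    intro a
    have := hO1 (algebraMap K[X] A (C a))
    rwa [hj1, aeval_C] at this
  let OA : Subalgebra K L := { O.toSubring with algebraMap_mem' := hKO }
  let res : OA →+* IsLocalRing.ResidueField O := IsLocalRing.residue O
  let iK : Algebra K (IsLocalRing.ResidueField O) :=
    ((IsLocalRing.residue O).comp ((algebraMap K L).codRestrict O hKO)).toAlgebra
  have hiK : ∀ a : K, algebraMap K (IsLocalRing.ResidueField O) a =
      IsLocalRing.residue O ⟨algebraMap K L a, hKO a⟩ := fun a => rfl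
  refine ⟨IsLocalRing.ResidueField O, inferInstance, iK, OA,
    { res with commutes' := fun a => rfl }, ?_, ?_⟩
  · intro a ha
    change a ∈ O
    let iA : Algebra A L := j.toAlgebra
    apply LT2_integral (A := A) O (fun a => hO1 a)
    have hp1 : aeval a ((P a).map (algebraMap K[X] A)) = 0 := by
      rw [aeval_def, eval₂_map]
      have h1 : (algebraMap A L).comp (algebraMap K[X] A) = (aeval (R := K) v).toRingHom := by
        ext x
        · simp only [RingHom.comp_apply]
          exact hj1 _
        · simp only [RingHom.comp_apply]
          exact hj1 _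
      rw [h1]
      exact hP a
    have hlu : IsUnit (algebraMap K[X] A (P a).leadingCoeff) := by
      apply IsLocalization.map_units A (⟨(P a).leadingCoeff, ?_⟩ : I.primeCompl)
      intro h
      exact hcS a ha ((hmemI _).1 h)
    have hlc : ((P a).map (algebraMap K[X] A)).leadingCoeff =
        algebraMap K[X] A (P a).leadingCoeff := by
      apply Polynomial.leadingCoeff_map_of_leadingCoeff_ne_zero
      exact hlu.ne_zero
    have h2 := isIntegral_leadingCoeff_smul _ a hp1
    rw [hlc] at h2
    obtain ⟨u, hu⟩ := hlu
    rw [← hu] at h2
    have h3 : a = (↑u⁻¹ : A) • ((u : A) • a) := by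
      rw [smul_smul, Units.inv_mul, one_smul]
    rw [h3]
    exact h2.smul _
  · have h1 : Module.finrank K (IsLocalRing.ResidueField O) = d O := by
      rw [← hd O hOs hO1]
      -- the image of `K`
      have hrange : Subfield.closure (Set.range ((IsLocalRing.residue O).comp
          (j.codRestrict O hO1))) = (algebraMap K (IsLocalRing.ResidueField O)).fieldRange := by
        apply le_antisymm
        · rw [Subfield.closure_le]
          rintro _ ⟨a, rfl⟩
          obtain ⟨⟨p, q⟩, rfl⟩ := IsLocalization.mk'_surjective I.primeCompl a
          have hqc : (q : K[X]).eval c ≠ 0 := fun h => q.2 ((hmemI _).2 h)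
          refine ⟨p.eval c / (q : K[X]).eval c, ?_⟩
          rw [hiK, RingHom.comp_apply, ← sub_eq_zero, ← map_sub, IsLocalRing.residue_eq_zero_iff,
            ValuationSubring.valuation_lt_one_iff]
          change O.valuation (algebraMap K L (p.eval c / (q : K[X]).eval c) -
            j (IsLocalization.mk' A p q)) < 1
          have h2 : algebraMap K L (p.eval c / (q : K[X]).eval c) =
              j (algebraMap K[X] A (C (p.eval c / (q : K[X]).eval c))) := by
            rw [hj1, aeval_C]
          rw [h2, ← map_sub, hO2]
          have h3 : (algebraMap K[X] A (C (p.eval c / (q : K[X]).eval c)) -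
              IsLocalization.mk' A p q) * algebraMap K[X] A q ∈ IsLocalRing.maximalIdeal A := by
            rw [sub_mul, IsLocalization.mk'_spec, ← map_mul, ← map_sub,
              IsLocalization.AtPrime.to_map_mem_maximal_iff A I, hmemI]
            rw [eval_sub, eval_mul, eval_C, div_mul_cancel₀ _ hqc, sub_self]
          refine ((IsLocalRing.maximalIdeal.isMaximal A).isPrime.mem_or_mem h3).resolve_right ?_
          rw [IsLocalization.AtPrime.to_map_mem_maximal_iff A I]
          exact q.2
        · rintro _ ⟨a, rfl⟩
          apply Subfield.subset_closure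
          refine ⟨algebraMap K[X] A (C a), ?_⟩
          rw [hiK, RingHom.comp_apply]
          congr 1
          apply Subtype.ext
          change j (algebraMap K[X] A (C a)) = _
          rw [hj1, aeval_C]
      rw [hrange]
      have hinj := (algebraMap K (IsLocalRing.ResidueField O)).injective
      exact Algebra.finrank_eq_of_equiv_equiv
        (RingEquiv.ofBijective (algebraMap K (IsLocalRing.ResidueField O)).rangeRestrictField
          ⟨(algebraMap K (IsLocalRing.ResidueField O)).rangeRestrictField.injective, by
            rintro ⟨_, a, rfl⟩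
            exact ⟨a, rfl⟩⟩) (RingEquiv.refl _) (by ext x; rfl)
    rw [h1]
    exact hOd

/-- `spec_one` for a finite family `p`: there is a field `L1` of odd degree over `K` and a family
`p1` in `L1` satisfying all the polynomial relations over `K` which `p` satisfies. -/
theorem spec_one' {K L : Type u} [Field K] [Field L] [CharZero K] [Algebra K L] (v : L)
    (hv : Transcendental K v)
    (hodd : Odd (Module.finrank (IntermediateField.adjoin K {v}) L)) {ι : Type} [Fintype ι]
    (p : ι → L) :
    ∃ (L1 : Type u) (_ : Field L1) (_ : Algebra K L1) (p1 : ι → L1),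
      (∀ G : MvPolynomial ι K, MvPolynomial.aeval p G = 0 → MvPolynomial.aeval p1 G = 0) ∧
        Odd (Module.finrank K L1) := by
  classical
  obtain ⟨L1, fL1, aL1, O, ρ, hO, hodd1⟩ := spec_one v hv hodd (Finset.univ.image p)
  have hp : ∀ i, p i ∈ O := fun i => hO _ (Finset.mem_image_of_mem _ (Finset.mem_univ i))
  refine ⟨L1, fL1, aL1, fun i => ρ ⟨p i, hp i⟩, ?_, hodd1⟩
  intro G hG
  have h1 : MvPolynomial.aeval (fun i => (⟨p i, hp i⟩ : O)) G = 0 := by
    have h2 := MvPolynomial.aeval_algebraMap_apply (A := O) L
      (fun i => (⟨p i, hp i⟩ : O)) G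
    have h3 : MvPolynomial.aeval ((algebraMap O L) ∘ fun i => (⟨p i, hp i⟩ : O)) G = 0 := hG
    rw [h2] at h3
    exact Subtype.ext h3
  have h4 := MvPolynomial.map_aeval (fun i => (⟨p i, hp i⟩ : O)) ρ.toRingHom G
  have h5 : MvPolynomial.aeval (fun i => ρ ⟨p i, hp i⟩) G =
      ρ (MvPolynomial.aeval (fun i => (⟨p i, hp i⟩ : O)) G) := by
    rw [← MvPolynomial.comp_aeval_apply]
  rw [h5, h1, map_zero]

/-- Algebraically independent parameters `v_1, …, v_r`: if `L` has odd degree over `K(v)` and `p` is
a finite family in `L`, there is a field `L1` of odd degree over `K` and a family `p1` in `L1`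
satisfying all the polynomial relations over `K` which `p` satisfies. -/
theorem odd_spec {ι : Type} [Fintype ι] (r : ℕ) : ∀ {K L : Type u} [Field K] [Field L] [CharZero K]
    [Algebra K L] (v : Fin r → L), AlgebraicIndependent K v →
      Odd (Module.finrank (IntermediateField.adjoin K (Set.range v)) L) → ∀ p : ι → L,
        ∃ (L1 : Type u) (_ : Field L1) (_ : Algebra K L1) (p1 : ι → L1),
          (∀ G : MvPolynomial ι K, MvPolynomial.aeval p G = 0 → MvPolynomial.aeval p1 G = 0) ∧
            Odd (Module.finrank K L1) := by
  classical
  induction r with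
  | zero =>
    intro K L _ _ _ _ v hv hodd p
    refine ⟨L, inferInstance, inferInstance, p, fun G h => h, ?_⟩
    have h1 : IntermediateField.adjoin K (Set.range v) = ⊥ := by
      rw [Set.range_eq_empty, IntermediateField.adjoin_empty]
    rw [h1, IntermediateField.finrank_bot'] at hodd
    exact hodd
  | succ r ih =>
    intro K L _ _ _ _ v hv hodd p
    -- the field generated by the last `r` parameters
    let M : IntermediateField K L := IntermediateField.adjoin K (Set.range (fun i => v (Fin.succ i)))
    have hMC : CharZero M := charZero_of_injective_algebraMap (algebraMap K M).injective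
    have h0 : Transcendental M (v 0) := by
      have h1 := hv.transcendental_adjoin (s := Set.range Fin.succ) (i := 0)
        (by rintro ⟨i, hi⟩; exact Fin.succ_ne_zero i hi)
      have h2 : v '' Set.range Fin.succ = Set.range (fun i => v (Fin.succ i)) := by
        rw [← Set.range_comp]; rfl
      rw [h2] at h1
      intro h3
      exact h1 (IntermediateField.isAlgebraic_adjoin_iff.1 h3)
    have hadj : (IntermediateField.adjoin M {v 0}).restrictScalars K =
        IntermediateField.adjoin K (Set.range v) := by
      rw [IntermediateField.adjoin_adjoin_left]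
      congr 1
      rw [Fin.range_fin_succ, Set.union_singleton]
      rfl
    have hodd1 : Odd (Module.finrank (IntermediateField.adjoin M {v 0}) L) := by
      rw [← hadj] at hodd
      exact hodd
    obtain ⟨L1, fL1, aL1, p1, hp1, hL1⟩ := spec_one' (v 0) h0 hodd1 p
    let aK : Algebra K L1 := ((algebraMap M L1).comp (algebraMap K M)).toAlgebra
    have tw : IsScalarTower K M L1 := IsScalarTower.of_algebraMap_eq fun _ => rfl
    let v' : Fin r → M := fun i => ⟨v (Fin.succ i), IntermediateField.subset_adjoin _ _ ⟨i, rfl⟩⟩
    have hv' : AlgebraicIndependent K v' := by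
      have h1 : AlgebraicIndependent K (fun i => v (Fin.succ i)) :=
        hv.comp _ (Fin.succ_injective r)
      exact (AlgHom.algebraicIndependent_iff M.val M.val.injective).1 h1
    have hv1 : AlgebraicIndependent K (fun i => algebraMap M L1 (v' i)) :=
      hv'.map' (f := IsScalarTower.toAlgHom K M L1) (algebraMap M L1).injective
    have hr1 : Odd (Module.finrank (IntermediateField.adjoin K
        (Set.range fun i => algebraMap M L1 (v' i))) L1) := by
      have h1 : IntermediateField.adjoin K (Set.range v') = ⊤ := by
        apply IntermediateField.lift_injective M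
        rw [IntermediateField.lift_adjoin, IntermediateField.lift_top, ← Set.range_comp]
        rfl
      have h2 : IntermediateField.adjoin K (Set.range fun i => algebraMap M L1 (v' i)) =
          (IsScalarTower.toAlgHom K M L1).fieldRange := by
        rw [AlgHom.fieldRange_eq_map, ← h1, IntermediateField.adjoin_map, ← Set.range_comp]
        rfl
      rw [h2]
      have h3 : Module.finrank (IsScalarTower.toAlgHom K M L1).fieldRange L1 =
          Module.finrank M L1 := by
        symm
        exact Algebra.finrank_eq_of_equiv_equiv
          (AlgEquiv.ofInjectiveField (IsScalarTower.toAlgHom K M L1)).toRingEquiv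
          (RingEquiv.refl _) (by ext x; rfl)
      rw [h3]
      exact hL1
    obtain ⟨L2, fL2, aL2, p2, hp2, hL2⟩ := ih _ hv1 hr1 p1
    refine ⟨L2, fL2, aL2, p2, ?_, hL2⟩
    intro G hG
    apply hp2
    have h1 := hp1 (MvPolynomial.map (algebraMap K M) G) (by
      rw [MvPolynomial.aeval_map_algebraMap]; exact hG)
    rw [MvPolynomial.aeval_map_algebraMap] at h1
    exact h1

end MP2619.T
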