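import Pool.Agent.Lib.MP_2619d0_ag.TOdd
import Pool.Agent.Lib.MP_2619d0_ag.TSpec
import Pool.Agent.Lib.MP_2619d0_ag.TBridge

/-!
# Parametrisations of `X × 𝔸^r` whose component in `X` is given by cubic forms
-/

set_option autoImplicit false

namespace MP2619.T

open MvPolynomial Pool.Agent.Lib.MP_2619d0_ag Pool.Agent.Lib.MP_2619d0_ag.T

universe u

theorem HG_algebraMap {n : ℕ} {K L : Type u} [Field K] [Field L] [Algebra ℂ K] [Algebra ℂ L]
    [Algebra K L] [IsScalarTower ℂ K L] {F : MvPolynomial (Fin n) ℂ} {y : Fin n → K} :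
    HG F (fun j => algebraMap K L (y j)) ↔ HG F y := by
  have key : ∀ G : MvPolynomial (Fin n) ℂ,
      aeval (fun j => algebraMap K L (y j)) G = 0 ↔ aeval y G = 0 := by
    intro G
    have h1 : aeval (fun j => algebraMap K L (y j)) G = algebraMap K L (aeval y G) :=
      MvPolynomial.aeval_algebraMap_apply L y G
    rw [h1, map_eq_zero]
  constructor
  · intro h d G hG
    rw [← key]; exact h d G hG
  · intro h d G hG
    rw [key]; exact h d G hG

theorem ratioField_smul' {n : ℕ} {L : Type u} [Field L] [Algebra ℂ L] (x : Fin n → L) {c : L}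
    (hc : c ≠ 0) : ratioField (fun j => c * x j) = ratioField x := by
  have h : ∀ i j, (c * x i) / (c * x j) = x i / x j := fun i j => mul_div_mul_left _ _ hc
  unfold ratioField
  simp only [h]

/-- Theorem S with a factor `𝔸^r`. -/
theorem stable_odd_r {m : ℕ} (hm : 3 ≤ m) {F : MvPolynomial (Fin (m+1+1)) ℂ} (hF : VG F)
    (hT : StT.{u} (N := m+1) F) (hS : StS.{u} (N := m+1) F) {N e : ℕ} (he : e ≤ 3)
    (φ : Fin (m+1+1) → MvPolynomial (Fin N) ℂ) (hφ : ∀ j, (φ j).IsHomogeneous e)
    (h0 : aeval φ F = 0) {L : Type u} [Field L] [Algebra ℂ L] (p : Fin N → L)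
    (hx : HG F (fun j => aeval p (φ j))) {r : ℕ} (v : Fin r → L)
    (hv : AlgebraicIndependent (ratioField (fun j => aeval p (φ j))) v) :
    ¬ Odd (Module.finrank (IntermediateField.adjoin (ratioField (fun j => aeval p (φ j)))
      (Set.range v)) L) := by
  classical
  intro hodd
  obtain ⟨x, hxd⟩ : ∃ x : Fin (m+1+1) → L, x = fun j => aeval p (φ j) := ⟨_, rfl⟩
  rw [← hxd] at hx
  have hx0 : x 0 ≠ 0 := HG_zero hF hx
  -- the function field of `X`
  obtain ⟨K0, hK0⟩ : ∃ K0 : IntermediateField ℂ L, K0 = ratioField (fun j => aeval p (φ j)) :=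
    ⟨_, rfl⟩
  rw [← hK0] at hodd hv
  have hK0x : K0 = ratioField x := by rw [hK0, hxd]
  have hKC : CharZero K0 := charZero_of_injective_algebraMap (algebraMap ℂ K0).injective
  have hmem : ∀ j, x j / x 0 ∈ K0 := by
    intro j
    rw [hK0x]
    exact IntermediateField.subset_adjoin _ _ ⟨j, 0, rfl⟩
  let y : Fin (m+1+1) → K0 := fun j => ⟨x j / x 0, hmem j⟩
  obtain ⟨L1, fL1, aL1, p1, hp1, hodd1⟩ := odd_spec (ι := Fin N ⊕ Unit) r v hv hodd
    (Sum.elim p (fun _ => (x 0)⁻¹))
  let aC : Algebra ℂ L1 := ((algebraMap K0 L1).comp (algebraMap ℂ K0)).toAlgebra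
  have tw : IsScalarTower ℂ K0 L1 := IsScalarTower.of_algebraMap_eq fun _ => rfl
  -- the relations
  have hrel : ∀ j, aeval (fun i => p1 (Sum.inl i)) (φ j) * p1 (Sum.inr ()) =
      algebraMap K0 L1 (y j) := by
    intro j
    have h1 := hp1 (MvPolynomial.map (algebraMap ℂ K0) (rename Sum.inl (φ j)) * X (Sum.inr ()) -
      C (y j)) (by
        rw [map_sub, map_mul, aeval_X, aeval_C, aeval_map_algebraMap, aeval_rename,
          Sum.elim_inr]
        have h2 : (Sum.elim p (fun _ => (x 0)⁻¹) : Fin N ⊕ Unit → L) ∘ Sum.inl = p := by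
          funext i; rfl
        rw [h2]
        have h3 : aeval p (φ j) = x j := by rw [hxd]
        rw [h3]
        change x j * (x 0)⁻¹ - x j / x 0 = 0
        rw [div_eq_mul_inv, sub_self])
    rw [map_sub, map_mul, aeval_X, aeval_C, aeval_map_algebraMap, aeval_rename, sub_eq_zero] at h1
    exact h1
  set c := p1 (Sum.inr ()) with hc
  have hc0 : c ≠ 0 := by
    intro h
    have h1 := hrel 0
    rw [h, mul_zero] at h1
    have h2 : y 0 = 1 := Subtype.ext (div_self hx0)
    rw [h2, map_one] at h1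
    exact zero_ne_one h1
  have hx1 : (fun j => aeval (fun i => p1 (Sum.inl i)) (φ j)) =
      fun j => c⁻¹ * algebraMap K0 L1 (y j) := by
    funext j
    rw [← hrel j, mul_comm _ c, inv_mul_cancel_left₀ hc0]
  -- the generic point
  have hyL : HG F (fun j => algebraMap K0 L (y j)) := by
    have h1 : (fun j => algebraMap K0 L (y j)) = (x 0)⁻¹ • x := by
      funext j
      change x j / x 0 = (x 0)⁻¹ * x j
      rw [div_eq_mul_inv, mul_comm]
    rw [h1]
    exact HG_smul hx _ (inv_ne_zero hx0)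
  have hy : HG F y := HG_algebraMap.1 hyL
  have hy1 : HG F (fun j => algebraMap K0 L1 (y j)) := HG_algebraMap.2 hy
  have hg1 : HG F (fun j => aeval (fun i => p1 (Sum.inl i)) (φ j)) := by
    rw [hx1]
    exact HG_smul hy1 _ (inv_ne_zero hc0)
  -- the degree
  have htop : IntermediateField.adjoin ℂ {z : K0 | ∃ i j, z = y i / y j} = ⊤ := by
    apply IntermediateField.lift_injective K0
    rw [IntermediateField.lift_adjoin, IntermediateField.lift_top]
    refine Eq.trans ?_ hK0x.symm
    unfold ratioField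
    congr 1
    ext z
    constructor
    · rintro ⟨_, ⟨i, j, rfl⟩, rfl⟩
      refine ⟨i, j, ?_⟩
      change x i / x 0 / (x j / x 0) = x i / x j
      rw [div_div_div_cancel_right₀ hx0]
    · rintro ⟨i, j, rfl⟩
      refine ⟨y i / y j, ⟨i, j, rfl⟩, ?_⟩
      change x i / x 0 / (x j / x 0) = x i / x j
      rw [div_div_div_cancel_right₀ hx0]
  have hrf : ratioField (fun j => aeval (fun i => p1 (Sum.inl i)) (φ j)) =
      (IsScalarTower.toAlgHom ℂ K0 L1).fieldRange := by
    rw [hx1, ratioField_smul' _ (inv_ne_zero hc0), AlgHom.fieldRange_eq_map, ← htop,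
      IntermediateField.adjoin_map]
    unfold ratioField
    congr 1
    ext z
    constructor
    · rintro ⟨i, j, rfl⟩
      exact ⟨y i / y j, ⟨i, j, rfl⟩, by
        change algebraMap K0 L1 (y i / y j) = _
        rw [map_div₀]⟩
    · rintro ⟨_, ⟨i, j, rfl⟩, rfl⟩
      refine ⟨i, j, ?_⟩
      change algebraMap K0 L1 (y i / y j) = _
      rw [map_div₀]
  have hfin : Module.finrank (ratioField (fun j => aeval (fun i => p1 (Sum.inl i)) (φ j))) L1 =
      Module.finrank K0 L1 := by
    rw [hrf]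
    symm
    exact Algebra.finrank_eq_of_equiv_equiv
      (AlgEquiv.ofInjectiveField (IsScalarTower.toAlgHom ℂ K0 L1)).toRingEquiv
      (RingEquiv.refl _) (by ext x; rfl)
  refine stable_odd hm hF hT hS N e he φ hφ h0 (fun i => p1 (Sum.inl i)) _ rfl hg1 ?_
  rw [fd_ev (N := m+1) _ (HG_zero hF hg1), hfin]
  exact hodd1

end MP2619.T
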