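import Pool.Agent.Lib.MP_2619d0_ag.FunField
import Pool.Agent.Lib.MP_2619d0_ag.VeryGeneral

set_option autoImplicit false

namespace Pool.Agent.Lib.MP_2619d0_ag

open MvPolynomial

universe u

/-- Line-ruled parametrisations have even degree; `K` is a fraction field of the coordinate ring. -/
theorem line_ruled_even_fraction {N : ℕ} (F : MvPolynomial (Fin (N + 2 + 1)) ℂ)
    (hF : F.IsHomogeneous 3)
    (hgen : AlgebraicIndependent ℚ (fun j : Exp3 (N + 2 + 1) => coeff j.1 F))
    {f : MvPolynomial (Fin (N + 2)) ℂ} (hf : f = dh ℂ (N + 2) F)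
    {K E L : Type*} [Field K] [Algebra ℂ K]
    [Algebra (MvPolynomial (Fin (N + 2)) ℂ ⧸ Ideal.span {f}) K]
    [IsFractionRing (MvPolynomial (Fin (N + 2)) ℂ ⧸ Ideal.span {f}) K]
    (hCK : ∀ c : ℂ, algebraMap (MvPolynomial (Fin (N + 2)) ℂ ⧸ Ideal.span {f}) K
      (Ideal.Quotient.mk (Ideal.span {f}) (C c)) = algebraMap ℂ K c)
    [Field E] [Algebra ℂ E] [Field L] [Algebra E L] [Algebra ℂ L]
    [IsScalarTower ℂ E L] [Algebra K L]
    [IsScalarTower ℂ K L] [Module.Finite K L] (t : L) (htr : Transcendental E t)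
    (a b : Fin (N + 2 + 1) → E) (hD : algebraMap E L (a 0) + algebraMap E L (b 0) * t ≠ 0)
    (hcoord : ∀ j : Fin (N + 2), algebraMap K L
      (algebraMap (MvPolynomial (Fin (N + 2)) ℂ ⧸ Ideal.span {f}) K
        (Ideal.Quotient.mk (Ideal.span {f}) (X j))) *
      (algebraMap E L (a 0) + algebraMap E L (b 0) * t) =
      (algebraMap E L (a j.succ) + algebraMap E L (b j.succ) * t)) :
    Even (Module.finrank K L) := by
  obtain ⟨hstar, hprime, hone⟩ := generic_star (N := N) F hF hgen
  rw [← hf] at hstar hprime hone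
  have : IsDomain (MvPolynomial (Fin (N + 2)) ℂ ⧸ Ideal.span {f}) :=
    isDomain_quotient hprime hone
  have : CharZero K :=
    charZero_of_injective_algebraMap (algebraMap ℂ K).injective
  by_contra hcon
  rw [Nat.not_even_iff_odd] at hcon
  -- the coordinates
  set ξ : Fin (N + 2) → L := fun j =>
    algebraMap K L (algebraMap _ K (Ideal.Quotient.mk (Ideal.span {f}) (X j))) with hξ
  have haev : ∀ p : MvPolynomial (Fin (N + 2)) ℂ,
      aeval ξ p = algebraMap K L
        (algebraMap _ K (Ideal.Quotient.mk (Ideal.span {f}) p)) := by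
    intro p
    induction p using MvPolynomial.induction_on with
    | C c =>
      rw [aeval_C, hCK, IsScalarTower.algebraMap_apply ℂ K L]
    | add p q hp hq => rw [map_add, map_add, map_add, map_add, hp, hq]
    | mul_X p i hp =>
      rw [map_mul, map_mul, map_mul, map_mul, hp, aeval_X]
  have hfξ : aeval ξ f = 0 := by
    rw [haev, Ideal.Quotient.eq_zero_iff_mem.mpr (Ideal.mem_span_singleton_self f), map_zero,
      map_zero]
  rw [hf] at hfξ
  obtain ⟨ht, hq⟩ := line_family hF a b t htr ξ hD hcoord hfξ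
  rw [← hf] at ht hq
  have hv : (fun j : Fin (N + 2) => algebraMap E L (b j.succ) - ξ j * algebraMap E L (b 0))
      = 0 := by
    refine springer (K := K) hcon
      (fun i => algebraMap _ K
        (Ideal.Quotient.mk (Ideal.span {f}) (pderiv i f)))
      (fun i j => algebraMap _ K
        (Ideal.Quotient.mk (Ideal.span {f}) (pderiv i (pderiv j f))))
      ?_ _ ?_ ?_
    · intro v h1 h2
      exact fraction_anisotropic hstar v h1 h2
    · rw [← ht]
      exact Finset.sum_congr rfl fun j _ => by rw [haev]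
    · rw [← hq]
      exact Finset.sum_congr rfl fun i _ => Finset.sum_congr rfl fun j _ => by rw [haev]
  -- the coordinates are then constant along the lines
  have hconst : ∃ e : Fin (N + 2) → E, ∀ j, ξ j = algebraMap E L (e j) := by
    have hv' : ∀ j : Fin (N + 2), algebraMap E L (b j.succ) = ξ j * algebraMap E L (b 0) := by
      intro j
      have := congrFun hv j
      simp only [Pi.zero_apply] at this
      exact sub_eq_zero.mp this
    by_cases hb : b 0 = 0
    · refine ⟨fun j => a j.succ / a 0, fun j => ?_⟩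
      have h1 := hv' j
      rw [hb, map_zero, mul_zero] at h1
      have h2 := hcoord j
      rw [h1, hb, map_zero, zero_mul, add_zero, add_zero] at h2
      rw [hb, map_zero, zero_mul, add_zero] at hD
      rw [map_div₀, eq_div_iff hD, ← h2]
    · refine ⟨fun j => b j.succ / b 0, fun j => ?_⟩
      have h3 : algebraMap E L (b 0) ≠ 0 := by
        intro h4
        apply hb
        apply (algebraMap E L).injective
        rw [h4, map_zero]
      rw [map_div₀, eq_div_iff h3, hv' j]
  obtain ⟨e, he⟩ := hconst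
  have hk : ∀ c : ℂ, algebraMap K L
      (algebraMap _ K (Ideal.Quotient.mk (Ideal.span {f}) (C c)))
      = algebraMap E L (algebraMap ℂ E c) := by
    intro c
    rw [← haev, aeval_C, IsScalarTower.algebraMap_apply ℂ E L]
  refine not_finite_of_range (K := K) t htr
    (I := Ideal.span {f}) hk e ?_ ?_
  · intro j
    exact he j
  · exact Algebra.IsAlgebraic.of_finite K L

/-- Relation between a form and its dehomogenisation. -/
theorem aeval_eq_dh {m d : ℕ} {L : Type*} [Field L] [Algebra ℂ L] (x : Fin (m + 1) → L)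
    (hx : x 0 ≠ 0) {G : MvPolynomial (Fin (m + 1)) ℂ} (hG : G.IsHomogeneous d) :
    aeval x G = x 0 ^ d * aeval (fun j : Fin m => x j.succ / x 0) (dh ℂ m G) := by
  conv_lhs => rw [G.as_sum]
  conv_rhs => rw [G.as_sum]
  rw [map_sum, map_sum, map_sum, Finset.mul_sum]
  refine Finset.sum_congr rfl fun e he => ?_
  rw [dh_monomial, aeval_monomial, aeval_monomial, Finsupp.prod_fintype _ _ (by intro i; simp),
    Finsupp.prod_fintype _ _ (by intro i; simp), Fin.prod_univ_succ]
  have h1 : d = e 0 + e.tail.degree := by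
    rw [← degree_eq_cons, degree_of_mem hG he]
  have h2 : x 0 ^ e.tail.degree * ∏ i : Fin m, (x i.succ / x 0) ^ e.tail i
      = ∏ i : Fin m, x i.succ ^ e i.succ := by
    rw [Finsupp.degree_eq_sum, ← Finset.prod_pow_eq_pow_sum, ← Finset.prod_mul_distrib]
    refine Finset.prod_congr rfl fun i _ => ?_
    rw [← mul_pow, mul_div_cancel₀ _ hx, Finsupp.tail_apply]
  rw [← h2]
  conv_rhs => rw [h1]
  rw [pow_add]
  ring

/-- A homogenisation. -/
noncomputable def homog {m : ℕ} (g : MvPolynomial (Fin m) ℂ) : MvPolynomial (Fin (m + 1)) ℂ :=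
  ∑ e ∈ g.support, monomial (Finsupp.cons (g.totalDegree - e.degree) e) (coeff e g)

theorem homog_homogeneous {m : ℕ} (g : MvPolynomial (Fin m) ℂ) :
    (homog g).IsHomogeneous g.totalDegree := by
  rw [homog]
  refine IsHomogeneous.sum _ _ _ fun e he => ?_
  apply isHomogeneous_monomial
  rw [degree_eq_cons, Finsupp.cons_zero, Finsupp.tail_cons]
  have h1 : e.degree ≤ g.totalDegree := by
    have := le_totalDegree he
    rw [Finsupp.degree_eq_sum]
    rwa [Finsupp.sum_fintype _ _ (by intro i; rfl)] at this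
  omega

theorem dh_homog {m : ℕ} (g : MvPolynomial (Fin m) ℂ) : dh ℂ m (homog g) = g := by
  rw [homog, map_sum]
  conv_rhs => rw [g.as_sum]
  refine Finset.sum_congr rfl fun e _ => ?_
  rw [dh_monomial, Finsupp.tail_cons]

theorem point_even {N : ℕ} (F : MvPolynomial (Fin (N + 2 + 1)) ℂ)
    (hF : F.IsHomogeneous 3)
    (hgen : AlgebraicIndependent ℚ (fun j : Exp3 (N + 2 + 1) => coeff j.1 F))
    {E L : Type*}
    [Field E] [Algebra ℂ E] [Field L] [Algebra E L] [Algebra ℂ L]
    [IsScalarTower ℂ E L] (t : L) (htr : Transcendental E t)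
    (a b : Fin (N + 2 + 1) → E) (x : Fin (N + 2 + 1) → L)
    (hx : ∀ i, x i = algebraMap E L (a i) + algebraMap E L (b i) * t)
    (hpt : ∀ (d : ℕ) (G : MvPolynomial (Fin (N + 2 + 1)) ℂ), G.IsHomogeneous d →
      (aeval x G = 0 ↔ F ∣ G))
    (hfin : FiniteDimensional (IntermediateField.adjoin ℂ {z : L | ∃ i j, z = x i / x j}) L) :
    Even (Module.finrank (IntermediateField.adjoin ℂ {z : L | ∃ i j, z = x i / x j}) L) := by
  obtain ⟨hstar, hprime, hone⟩ := generic_star (N := N) F hF hgen
  have hx0 : x 0 ≠ 0 := by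
    intro h0
    have h1 := (hpt 1 (X 0) (isHomogeneous_X _ _)).mp (by rw [aeval_X, h0])
    obtain ⟨H, hH⟩ := h1
    apply hone
    refine ⟨dh ℂ (N + 2) H, ?_⟩
    rw [← map_mul, ← hH, dh_X_zero]
  set K := IntermediateField.adjoin ℂ {z : L | ∃ i j, z = x i / x j} with hK
  set f : MvPolynomial (Fin (N + 2)) ℂ := dh ℂ (N + 2) F with hf
  -- affine coordinates
  have hmem : ∀ j : Fin (N + 2), x j.succ / x 0 ∈ K := fun j =>
    IntermediateField.subset_adjoin _ _ ⟨j.succ, 0, rfl⟩
  set ξ : Fin (N + 2) → K := fun j => ⟨x j.succ / x 0, hmem j⟩ with hξ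
  have hker : ∀ g : MvPolynomial (Fin (N + 2)) ℂ,
      aeval (fun j : Fin (N + 2) => x j.succ / x 0) g = 0 ↔ f ∣ g := by
    intro g
    constructor
    · intro hg
      have h1 : aeval x (homog g) = 0 := by
        rw [aeval_eq_dh x hx0 (homog_homogeneous g), dh_homog, hg, mul_zero]
      obtain ⟨H, hH⟩ := (hpt _ _ (homog_homogeneous g)).mp h1
      refine ⟨dh ℂ (N + 2) H, ?_⟩
      rw [← map_mul, ← hH, dh_homog]
    · rintro ⟨h, rfl⟩
      have h1 := (hpt 3 F hF).mpr (dvd_refl F)
      rw [aeval_eq_dh x hx0 hF] at h1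
      have h2 := (mul_eq_zero.mp h1).resolve_left (pow_ne_zero _ hx0)
      rw [map_mul, h2, zero_mul]
  have haev : ∀ g : MvPolynomial (Fin (N + 2)) ℂ,
      ((aeval ξ g : K) : L) = aeval (fun j : Fin (N + 2) => x j.succ / x 0) g := by
    intro g
    have h1 := (MvPolynomial.aeval_algebraMap_apply (A := K) L ξ g)
    rw [show (fun j : Fin (N + 2) => x j.succ / x 0) = (fun j => algebraMap K L (ξ j)) from rfl]
    exact h1.symm
  let φ : (MvPolynomial (Fin (N + 2)) ℂ ⧸ Ideal.span {f}) →+* K :=
    Ideal.Quotient.lift (Ideal.span {f}) (aeval ξ : MvPolynomial (Fin (N + 2)) ℂ →ₐ[ℂ] K).toRingHom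
      (by
        intro g hg
        rw [Ideal.mem_span_singleton] at hg
        have h1 := (hker g).mpr hg
        rw [← haev] at h1
        exact_mod_cast h1)
  have hφ : ∀ g, φ (Ideal.Quotient.mk (Ideal.span {f}) g) = aeval ξ g := fun g => rfl
  have hφinj : Function.Injective φ := by
    rw [injective_iff_map_eq_zero]
    intro z hz
    obtain ⟨g, rfl⟩ := Ideal.Quotient.mk_surjective z
    rw [hφ] at hz
    rw [Ideal.Quotient.eq_zero_iff_mem, Ideal.mem_span_singleton, ← hker, ← haev, hz]
    rfl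
  let : Algebra (MvPolynomial (Fin (N + 2)) ℂ ⧸ Ideal.span {f}) K := φ.toAlgebra
  have hdom : IsDomain (MvPolynomial (Fin (N + 2)) ℂ ⧸ Ideal.span {f}) :=
    isDomain_quotient hprime hone
  have hmap : ∀ z, algebraMap (MvPolynomial (Fin (N + 2)) ℂ ⧸ Ideal.span {f}) K z = φ z :=
    fun z => rfl
  have hfrac : IsFractionRing (MvPolynomial (Fin (N + 2)) ℂ ⧸ Ideal.span {f}) K := by
    have : FaithfulSMul (MvPolynomial (Fin (N + 2)) ℂ ⧸ Ideal.span {f}) K :=
      (faithfulSMul_iff_algebraMap_injective _ _).mpr hφinj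
    refine IsFractionRing.of_field _ _ fun z => ?_
    have hz : (z : L) ∈ IntermediateField.adjoin ℂ
        (Set.range (fun j : Fin (N + 2) => x j.succ / x 0)) := by
      refine (IntermediateField.adjoin_le_iff.mpr ?_ : K ≤ _) z.2
      rintro w ⟨i, j, rfl⟩
      have hi : ∀ i : Fin (N + 2 + 1), x i / x 0 ∈ IntermediateField.adjoin ℂ
          (Set.range (fun j : Fin (N + 2) => x j.succ / x 0)) := by
        intro i
        refine Fin.cases ?_ (fun j => ?_) i
        · rw [div_self hx0]
          exact one_mem _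
        · exact IntermediateField.subset_adjoin _ _ ⟨j, rfl⟩
      have h1 : x i / x j = (x i / x 0) / (x j / x 0) := by
        rw [div_div_div_cancel_right₀ hx0]
      rw [h1]
      exact div_mem (hi i) (hi j)
    rw [IntermediateField.mem_adjoin_range_iff] at hz
    obtain ⟨r, s, hrs⟩ := hz
    refine ⟨Ideal.Quotient.mk _ r, Ideal.Quotient.mk _ s, ?_⟩
    rw [hmap, hmap, hφ, hφ]
    apply Subtype.ext
    rw [hrs, ← haev, ← haev]
    rfl
  refine line_ruled_even_fraction (K := K) F hF hgen hf ?_ t htr a b ?_ ?_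
  · intro c
    rw [hmap, hφ, aeval_C]
  · rw [← hx]
    exact hx0
  · intro j
    rw [hmap, hφ, aeval_X, ← hx, ← hx]
    change x j.succ / x 0 * x 0 = _
    rw [div_mul_cancel₀ _ hx0]

end Pool.Agent.Lib.MP_2619d0_ag
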