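import Mathlib

/-!
# Quadratic forms as polynomials
-/

set_option autoImplicit false

namespace MP2619.T

open MvPolynomial

theorem degree_two {σ : Type*} (d : σ →₀ ℕ) (h : d.degree = 2) :
    ∃ i j, d = Finsupp.single i 1 + Finsupp.single j 1 := by
  classical
  have hd0 : d ≠ 0 := by
    rintro rfl
    simp at h
  obtain ⟨i, hi⟩ := Finsupp.ne_iff.1 hd0
  have hi' : Finsupp.single i 1 ≤ d := by
    rw [Finsupp.single_le_iff]
    exact Nat.one_le_iff_ne_zero.2 hi
  obtain ⟨d1, rfl⟩ := exists_add_of_le hi'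
  have h1 : d1.degree = 1 := by
    rw [map_add, Finsupp.degree_single] at h
    omega
  have hd1 : d1 ≠ 0 := by
    rintro rfl
    simp at h1
  obtain ⟨j, hj⟩ := Finsupp.ne_iff.1 hd1
  have hj' : Finsupp.single j 1 ≤ d1 := by
    rw [Finsupp.single_le_iff]
    exact Nat.one_le_iff_ne_zero.2 hj
  obtain ⟨d2, rfl⟩ := exists_add_of_le hj'
  have h2 : d2.degree = 0 := by
    rw [map_add, Finsupp.degree_single] at h1
    omega
  have hd2 : d2 = 0 := (Finsupp.degree_eq_zero_iff d2).1 h2
  exact ⟨i, j, by rw [hd2, add_zero]⟩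

theorem hom2_induction {σ R : Type*} [CommRing R] {P : MvPolynomial σ R → Prop}
    (h0 : P 0) (hadd : ∀ p q, P p → P q → P (p + q)) (hmon : ∀ i j c, P (C c * (X i * X j)))
    {φ : MvPolynomial σ R} (hφ : φ.IsHomogeneous 2) : P φ := by
  classical
  rw [φ.as_sum]
  refine Finset.sum_induction _ P hadd h0 ?_
  intro d hd
  have hdeg : d.degree = 2 := by
    by_contra h1
    exact mem_support_iff.1 hd (hφ.coeff_eq_zero h1)
  obtain ⟨i, j, hij⟩ := degree_two d hdeg
  have h2 : (monomial d (coeff d φ) : MvPolynomial σ R) = C (coeff d φ) * (X i * X j) := by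
    rw [X, X, monomial_mul, C_mul_monomial, hij]
    simp
  rw [h2]
  exact hmon i j _

/-- The linear form `∑ e_i ∂φ/∂X_i`. -/
noncomputable def Bf {n : ℕ} {E : Type*} [CommRing E] (φ : MvPolynomial (Fin n) E) (e : Fin n → E) :
    MvPolynomial (Fin n) E := ∑ i, C (e i) * pderiv i φ

theorem Bf_homogeneous {n : ℕ} {E : Type*} [CommRing E] {φ : MvPolynomial (Fin n) E}
    (hφ : φ.IsHomogeneous 2) (e : Fin n → E) : (Bf φ e).IsHomogeneous 1 := by
  refine IsHomogeneous.sum _ _ _ fun i _ => ?_
  have h1 := (isHomogeneous_C (Fin n) (e i)).mul (hφ.pderiv (i := i))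
  exact h1

theorem quad_expand {n : ℕ} {E A : Type*} [CommRing E] [CommRing A] [Algebra E A]
    {φ : MvPolynomial (Fin n) E} (hφ : φ.IsHomogeneous 2) (e : Fin n → E) (p : Fin n → A) (s : A) :
    aeval (fun i => s * algebraMap E A (e i) + p i) φ =
      s ^ 2 * algebraMap E A (eval e φ) + s * aeval p (Bf φ e) + aeval p φ := by
  refine hom2_induction (P := fun φ => aeval (fun i => s * algebraMap E A (e i) + p i) φ =
      s ^ 2 * algebraMap E A (eval e φ) + s * aeval p (Bf φ e) + aeval p φ) ?_ ?_ ?_ hφ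
  · simp [Bf]
  · intro φ ψ h1 h2
    have h3 : Bf (φ + ψ) e = Bf φ e + Bf ψ e := by
      simp only [Bf, map_add, mul_add, Finset.sum_add_distrib]
    rw [map_add, h1, h2, h3]
    simp only [map_add]
    ring
  · intro i j c
    have h3 : Bf (C c * (X i * X j)) e = C c * (C (e i) * X j + X i * C (e j)) := by
      simp only [Bf, Derivation.leibniz, pderiv_X, smul_eq_mul]
      simp only [Pi.single_apply, mul_add, Finset.sum_add_distrib]
      simp [Finset.sum_ite_eq, mul_ite]
      ring
    rw [h3]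
    simp only [map_mul, map_add, aeval_C, aeval_X, eval_C, eval_X, map_mul]
    ring

theorem lin_sum {n : ℕ} {E A : Type*} [CommRing E] [CommRing A] [Algebra E A]
    {ψ : MvPolynomial (Fin n) E} (hψ : ψ.IsHomogeneous 1) (p : Fin n → A) :
    aeval p ψ = ∑ i, p i * algebraMap E A (eval (Pi.single i 1) ψ) := by
  classical
  have h1 : ∀ d ∈ ψ.support, ∃ k, d = Finsupp.single k 1 := by
    intro d hd
    have hdeg : d.degree = 1 := by
      by_contra h2
      exact mem_support_iff.1 hd (hψ.coeff_eq_zero h2)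
    have hd0 : d ≠ 0 := by
      rintro rfl
      simp at hdeg
    obtain ⟨j, hj⟩ := Finsupp.ne_iff.1 hd0
    have hj' : Finsupp.single j 1 ≤ d := by
      rw [Finsupp.single_le_iff]
      exact Nat.one_le_iff_ne_zero.2 hj
    obtain ⟨d2, rfl⟩ := exists_add_of_le hj'
    have h2 : d2.degree = 0 := by
      rw [map_add, Finsupp.degree_single] at hdeg
      omega
    have hd2 : d2 = 0 := (Finsupp.degree_eq_zero_iff d2).1 h2
    exact ⟨j, by rw [hd2, add_zero]⟩
  have h2 : ∀ (χ : MvPolynomial (Fin n) E), (∀ d ∈ χ.support, ∃ k, d = Finsupp.single k 1) →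
      aeval p χ = ∑ i, p i * algebraMap E A (eval (Pi.single i 1) χ) := by
    intro χ hχ
    rw [χ.as_sum]
    simp only [map_sum, Finset.mul_sum]
    rw [Finset.sum_comm]
    refine Finset.sum_congr rfl fun d hd => ?_
    obtain ⟨k, rfl⟩ := hχ d hd
    rw [Finset.sum_eq_single k]
    · rw [aeval_monomial, eval_monomial]
      simp [mul_comm]
    · intro i _ hi
      rw [eval_monomial]
      simp [Pi.single_apply, Ne.symm hi]
    · intro h
      exact absurd (Finset.mem_univ _) h
  exact h2 ψ h1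

end MP2619.T
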