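import Pool.Agent.Lib.MP_2619d0_ag.QConic
import Pool.Agent.Lib.MP_2619d0_ag.QQuad
import Pool.Agent.Lib.MP_2619d0_ag.Q2.TR2
import Pool.Agent.Lib.MP_2619d0_ag.Q2.TR3

/-!
# Families of subvarieties of a cubic parametrised by quadratic forms
-/

set_option autoImplicit false

namespace MP2619.T

universe u

open Algebra MvPolynomial Pool.Agent.Lib.MP_2619d0_ag Pool.Agent.Lib.MP_2619d0_ag.T

section alg

variable {m n : ℕ} {E L : Type u} [Field E] [Field L] [Algebra ℂ E] [Algebra ℂ L] [Algebra E L]
  [IsScalarTower ℂ E L]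

/-- `p` is a generic point of the projective space over `E`. -/
def GenE {n : ℕ} (E : Type u) {L : Type u} [Field E] [Field L] [Algebra E L] (p : Fin n → L) :
    Prop :=
  ∀ (d : ℕ) (G : MvPolynomial (Fin n) E), G.IsHomogeneous d → aeval p G = 0 → G = 0

theorem small_false {k : ℕ} (hk : k + 2 ≤ n) (p : Fin n → L) (hp : GenE E p)
    (x : Fin (m+1+1) → L) (hodd : Odd (Module.finrank (ratioField x) L)) (y : Fin k → L)
    (hle : ∀ i j, x i / x j ∈ IntermediateField.adjoin E (Set.range y)) : False := by
  obtain ⟨n, rfl⟩ : ∃ n', n = n' + 1 := ⟨n - 1, by omega⟩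
  have h1 := MP2619.TL.le_trdeg_of_generic (E := E) p hp
  have h2 := MP2619.TL.trdeg_adjoin_fin_le (k := E) y
  have hfin : FiniteDimensional (ratioField x) L := by
    apply FiniteDimensional.of_finrank_pos
    exact Nat.pos_of_ne_zero fun h => by rw [h] at hodd; exact Nat.not_odd_zero hodd
  have halg : Algebra.IsAlgebraic (IntermediateField.adjoin E (Set.range y)) L := by
    refine ⟨fun z => ?_⟩
    have h3 : IsAlgebraic (ratioField x) z := Algebra.IsAlgebraic.isAlgebraic z
    have h4 : ratioField x ≤ (IntermediateField.adjoin E (Set.range y)).restrictScalars ℂ := by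
      unfold ratioField
      rw [IntermediateField.adjoin_le_iff]
      rintro _ ⟨i, j, rfl⟩
      exact hle i j
    obtain ⟨f, hf0, hf⟩ := h3
    let ι : ratioField x →+* IntermediateField.adjoin E (Set.range y) :=
      (IntermediateField.inclusion h4).toRingHom
    refine ⟨f.map ι, (Polynomial.map_ne_zero_iff ι.injective).2 hf0, ?_⟩
    rw [Polynomial.aeval_def, Polynomial.eval₂_map]
    rw [Polynomial.aeval_def] at hf
    exact hf
  have h5 := trdeg_add_eq E (IntermediateField.adjoin E (Set.range y)) (A := L)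
  rw [trdeg_eq_zero (R := IntermediateField.adjoin E (Set.range y)) (A := L), add_zero] at h5
  rw [← h5] at h1
  have h6 : (n : Cardinal) ≤ (k : Cardinal) := h1.trans h2
  have h7 : n ≤ k := by exact_mod_cast h6
  omega

/-- `x` is not proportional to a point over `E`. -/
theorem not_E_point (hn : 2 ≤ n) (p : Fin n → L) (hp : GenE E p)
    (x : Fin (m+1+1) → L) (hodd : Odd (Module.finrank (ratioField x) L))
    (c : L) (hc : c ≠ 0) (a : Fin (m+1+1) → E) (h : ∀ j, x j = c * algebraMap E L (a j)) :
    False := by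
  refine small_false (k := 0) (by omega) p hp x hodd Fin.elim0 ?_
  intro i j
  rw [h, h, mul_div_mul_left _ _ hc, ← map_div₀]
  exact IntermediateField.algebraMap_mem _ _

end alg

section main

variable {m n : ℕ} {E L : Type u} [Field E] [Field L] [Algebra ℂ E] [Algebra ℂ L] [Algebra E L]
  [IsScalarTower ℂ E L]

/-- `F(φ(r)) = 0` for every point `r` over `L`. -/
theorem fc_phi {F : MvPolynomial (Fin (m+1+1)) ℂ} (hF : VG F)
    (φ : Fin (m+1+1) → MvPolynomial (Fin n) E) (h0 : aeval φ F = 0) (r : Fin n → L) :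
    Fc (cL L F) (fun j => aeval r (φ j)) = 0 := by
  have h9 : Fc (cL L F) (fun j => aeval r (φ j)) = aeval (fun j => aeval r (φ j)) F :=
    (aeval_eq_Fc hF.1 _).symm
  rw [h9]
  have h1 : aeval (fun j => (aeval r : MvPolynomial (Fin n) E →ₐ[E] L) (φ j)) F =
      ((aeval r : MvPolynomial (Fin n) E →ₐ[E] L).restrictScalars ℂ) (aeval φ F) := by
    rw [MvPolynomial.comp_aeval_apply]
    rfl
  rw [h1, h0, map_zero]

/-- a family of quadratic forms that do not depend on the direction `e` -/
theorem invariant_false (hn : 2 ≤ n) (φ : Fin (m+1+1) → MvPolynomial (Fin n) E)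
    (hφ : ∀ j, (φ j).IsHomogeneous 2) (p : Fin n → L) (hp : GenE E p)
    (hx0 : aeval p (φ 0) ≠ 0)
    (hodd : Odd (Module.finrank (ratioField (fun j => aeval p (φ j))) L))
    (e : Fin n → E) (he : e ≠ 0) (h1 : ∀ j, eval e (φ j) = 0) (h2 : ∀ j, Bf (φ j) e = 0) :
    False := by
  classical
  obtain ⟨i0, hi0⟩ := Function.ne_iff.1 he
  have hi0' : algebraMap E L (e i0) ≠ 0 := by
    rw [Ne, map_eq_zero]
    exact hi0
  obtain ⟨s, hs⟩ : ∃ s : L, s = - (p i0 / algebraMap E L (e i0)) := ⟨_, rfl⟩
  obtain ⟨u, hu⟩ : ∃ u : Fin n → L, u = fun i => s * algebraMap E L (e i) + p i := ⟨_, rfl⟩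
  have hu0 : u i0 = 0 := by
    rw [hu, hs]
    field_simp
    ring
  have hxu : ∀ j, aeval p (φ j) = aeval u (φ j) := by
    intro j
    rw [hu, quad_expand (hφ j), h1, h2, map_zero, map_zero, mul_zero, mul_zero, zero_add, zero_add]
  have hk0 : ∃ k0, u k0 ≠ 0 := by
    by_contra hcon
    push Not at hcon
    apply hx0
    rw [hxu]
    have h4 := aeval_smul_homog (L := L) (hφ 0) 0 u
    have h5 : (fun i => 0 * u i) = u := by
      funext i
      rw [zero_mul, hcon i]
    rw [h5, zero_pow (by norm_num), zero_mul] at h4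
    exact h4
  obtain ⟨k0, hk0⟩ := hk0
  have hki : k0 ≠ i0 := by
    rintro rfl
    exact hk0 hu0
  have hcard : Fintype.card {i : Fin n // i ≠ i0 ∧ i ≠ k0} = n - 2 := by
    have h3 : Fintype.card {i : Fin n // i ≠ i0 ∧ i ≠ k0} =
        (Finset.univ.filter fun i : Fin n => i ≠ i0 ∧ i ≠ k0).card := Fintype.card_subtype _
    have h4 : (Finset.univ.filter fun i : Fin n => i ≠ i0 ∧ i ≠ k0) = {i0, k0}ᶜ := by
      ext i
      simp
    rw [h3, h4, Finset.card_compl, Fintype.card_fin, Finset.card_pair hki.symm]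
  let σ := (Fintype.equivFinOfCardEq hcard).symm
  let y : Fin (n - 2) → L := fun t => u (σ t).1 / u k0
  have hmem : ∀ i, u i / u k0 ∈ IntermediateField.adjoin E (Set.range y) := by
    intro i
    by_cases hi : i = i0
    · rw [hi, hu0, zero_div]
      exact zero_mem _
    by_cases hi' : i = k0
    · rw [hi', div_self hk0]
      exact one_mem _
    apply IntermediateField.subset_adjoin
    refine ⟨σ.symm ⟨i, hi, hi'⟩, ?_⟩
    change u (σ (σ.symm ⟨i, hi, hi'⟩)).1 / u k0 = u i / u k0
    rw [Equiv.apply_symm_apply]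
  refine small_false (k := n - 2) (by omega) p hp _ hodd y ?_
  have hval : ∀ j, aeval p (φ j) = (u k0) ^ 2 * aeval (fun i => u i / u k0) (φ j) := by
    intro j
    rw [hxu, ← aeval_smul_homog (L := L) (hφ j)]
    congr 1
    congr 1
    funext i
    rw [mul_div_cancel₀ _ hk0]
  have hin : ∀ j, aeval (fun i => u i / u k0) (φ j) ∈ IntermediateField.adjoin E (Set.range y) := by
    intro j
    have h3 := MvPolynomial.aeval_algebraMap_apply
      (A := IntermediateField.adjoin E (Set.range y)) L (fun i => ⟨u i / u k0, hmem i⟩) (φ j)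
    have h4 : (fun i => algebraMap (IntermediateField.adjoin E (Set.range y)) L
        (⟨u i / u k0, hmem i⟩ : IntermediateField.adjoin E (Set.range y))) =
        fun i => u i / u k0 := rfl
    change aeval (fun i => algebraMap (IntermediateField.adjoin E (Set.range y)) L
        (⟨u i / u k0, hmem i⟩ : IntermediateField.adjoin E (Set.range y))) (φ j) = _ at h3
    rw [h4] at h3
    rw [h3]
    exact (aeval (fun i => (⟨u i / u k0, hmem i⟩ : IntermediateField.adjoin E (Set.range y)))
      (φ j)).2
  intro i j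
  rw [hval, hval, mul_div_mul_left _ _ (pow_ne_zero 2 hk0)]
  exact div_mem (hin i) (hin j)

theorem quad_false (hm : 1 ≤ m) (hn : 2 ≤ n) {F : MvPolynomial (Fin (m+1+1)) ℂ} (hF : VG F)
    (φ : Fin (m+1+1) → MvPolynomial (Fin n) E)
    (hφ : ∀ j, (φ j).IsHomogeneous 2) (h0 : aeval φ F = 0) (p : Fin n → L) (hp : GenE E p)
    (x : Fin (m+1+1) → L) (hxd : x = fun j => aeval p (φ j)) (hx : HG F x)
    (hodd : Odd (Module.finrank (ratioField x) L)) (e : Fin n → E) (he : e ≠ 0)
    (w : Fin (m+1+1) → L) (hw : w = fun j => algebraMap E L (eval e (φ j)))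
    (hthird : (∀ c : L, w ≠ c • x) → Dc (cL L F) w x ≠ 0 ∧
      HG F (Dc (cL L F) w x • x - Dc (cL L F) x w • w) ∧
      Odd (fd (ev (Dc (cL L F) w x • x - Dc (cL L F) x w • w)))) : False := by
  classical
  have hinf : Infinite L := Infinite.of_injective _ (algebraMap ℂ L).injective
  have hx0 : x 0 ≠ 0 := HG_zero hF hx
  have hGx : Gp F (ev x) := Gp_ev (N := m+1) hF.1 x hx0 hx
  have hodd' : Odd (fd (ev x)) := by
    rw [fd_ev (N := m+1) x hx0]
    exact hodd
  obtain ⟨q, hq⟩ : ∃ q : Fin (m+1+1) → L, q = fun j => aeval p (Bf (φ j) e) := ⟨_, rfl⟩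
  have hexp : ∀ s : L, (fun j => aeval (fun i => s * algebraMap E L (e i) + p i) (φ j)) =
      s ^ 2 • w + s • q + x := by
    intro s
    funext j
    rw [quad_expand (hφ j), hw, hq, hxd]
    rfl
  have hid : ∀ s : L, Fc (cL L F) (s ^ 2 • w + s • q + x) = 0 := by
    intro s
    rw [← hexp]
    exact fc_phi hF φ h0 _
  by_cases hw0 : w = 0
  · -- the point `e` is a base point
    have hwe : ∀ j, eval e (φ j) = 0 := by
      intro j
      have h1 := congrFun hw0 j
      rw [hw] at h1
      exact (map_eq_zero (algebraMap E L)).1 h1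
    have hid' : ∀ s : L, Fc (cL L F) (s • q + x) = 0 := by
      intro s
      have h1 := hid s
      rwa [hw0, smul_zero, zero_add] at h1
    obtain ⟨⟨μ, hμ⟩, -⟩ := st_line hm hF q x x 0 hid' (by rw [zero_smul, zero_add]) hx0 hGx hodd'
    by_cases hB : ∀ j, Bf (φ j) e = 0
    · rw [hxd] at hx0 hodd
      exact invariant_false hn φ hφ p hp hx0 hodd e he hwe hB
    · push Not at hB
      obtain ⟨j0, hj0⟩ := hB
      have hq0 : q j0 ≠ 0 := by
        rw [hq]
        intro h
        exact hj0 (hp 1 _ (Bf_homogeneous (hφ j0) e) h)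
      have hμ0 : μ ≠ 0 := by
        rintro rfl
        rw [zero_smul] at hμ
        rw [hμ] at hq0
        exact hq0 rfl
      -- the linear map `B`
      have hFq : Fc (cL L F) q = 0 := by
        have h1 := hid' 0
        rw [hμ, Fc_smul]
        rw [zero_smul, zero_add] at h1
        rw [h1, mul_zero]
      have hB0 : aeval (fun j => Bf (φ j) e) F = 0 := by
        have h1 : (aeval (fun j => Bf (φ j) e) F).IsHomogeneous (1 * 3) :=
          hF.1.aeval _ fun j => Bf_homogeneous (hφ j) e
        refine hp _ _ h1 ?_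
        have h2 : aeval q F = ((aeval p : MvPolynomial (Fin n) E →ₐ[E] L).restrictScalars ℂ)
            (aeval (fun j => Bf (φ j) e) F) := by
          rw [MvPolynomial.comp_aeval_apply, hq]
          rfl
        have h3 : aeval q F = 0 := by
          rw [← hFq]
          exact aeval_eq_Fc hF.1 q
        rw [h3] at h2
        exact h2.symm
      have hFB : ∀ r : Fin n → L, Fc (cL L F) (fun j => aeval r (Bf (φ j) e)) = 0 := fun r =>
        fc_phi hF _ hB0 r
      have hex : ∃ i, eval (Pi.single i 1) (Bf (φ j0) e) ≠ 0 := by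
        by_contra hcon
        push Not at hcon
        apply hq0
        rw [hq]
        change aeval p (Bf (φ j0) e) = 0
        rw [lin_sum (Bf_homogeneous (hφ j0) e)]
        refine Finset.sum_eq_zero fun i _ => ?_
        rw [hcon i, map_zero, mul_zero]
      obtain ⟨i, hi⟩ := hex
      obtain ⟨b, hb⟩ : ∃ b : Fin (m+1+1) → L, b = fun j => algebraMap E L
        (eval (Pi.single i 1) (Bf (φ j) e)) := ⟨_, rfl⟩
      have hid2 : ∀ s : L, Fc (cL L F) (s • (μ⁻¹ • b) + x) = 0 := by
        intro s
        have h1 : s • (μ⁻¹ • b) + x = μ⁻¹ •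
            fun j => aeval (fun k => p k + s * (Pi.single i 1 : Fin n → L) k) (Bf (φ j) e) := by
          funext j
          have h2 : x j = μ⁻¹ * q j := by
            rw [hμ, Pi.smul_apply, smul_eq_mul, inv_mul_cancel_left₀ hμ0]
          simp only [Pi.add_apply, Pi.smul_apply, smul_eq_mul]
          rw [lin_sum (Bf_homogeneous (hφ j) e)]
          simp only [add_mul, Finset.sum_add_distrib]
          rw [← lin_sum (Bf_homogeneous (hφ j) e), h2, hq, hb]
          have h3 : ∑ k, s * (Pi.single i 1 : Fin n → L) k * algebraMap E L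
              (eval (Pi.single k 1) (Bf (φ j) e)) = s * algebraMap E L
              (eval (Pi.single i 1) (Bf (φ j) e)) := by
            rw [Finset.sum_eq_single i]
            · rw [Pi.single_eq_same, mul_one]
            · intro k _ hk
              rw [Pi.single_eq_of_ne hk]
              ring
            · intro h
              exact absurd (Finset.mem_univ _) h
          rw [h3]
          ring
        rw [h1, Fc_smul, hFB, mul_zero]
      obtain ⟨⟨l, hl⟩, -⟩ := st_line hm hF (μ⁻¹ • b) x x 0 hid2 (by rw [zero_smul, zero_add]) hx0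
        hGx hodd'
      have hbl : b = (μ * l) • x := by
        rw [mul_smul, ← hl, smul_smul, mul_inv_cancel₀ hμ0, one_smul]
      have hml : μ * l ≠ 0 := by
        intro h
        rw [h, zero_smul] at hbl
        have h1 := congrFun hbl j0
        rw [hb] at h1
        exact hi ((map_eq_zero (algebraMap E L)).1 h1)
      refine not_E_point (m := m) hn p hp x hodd (μ * l)⁻¹ (inv_ne_zero hml)
        (fun j => eval (Pi.single i 1) (Bf (φ j) e)) ?_
      intro j
      have h1 := congrFun hbl j
      rw [hb] at h1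
      change algebraMap E L (eval (Pi.single i 1) (Bf (φ j) e)) = ((μ * l) • x) j at h1
      rw [h1, Pi.smul_apply, smul_eq_mul, inv_mul_cancel_left₀ hml]
  · have hnp : ∀ c : L, w ≠ c • x := by
      intro c hc
      have hc0 : c ≠ 0 := by
        rintro rfl
        rw [zero_smul] at hc
        exact hw0 hc
      refine not_E_point (m := m) hn p hp x hodd c⁻¹ (inv_ne_zero hc0) (fun j => eval e (φ j)) ?_
      intro j
      have h1 := congrFun hc j
      rw [hw] at h1
      change algebraMap E L (eval e (φ j)) = (c • x) j at h1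
      rw [h1, Pi.smul_apply, smul_eq_mul, inv_mul_cancel_left₀ hc0]
    obtain ⟨h1, h2, h3⟩ := hthird hnp
    exact conic_third hm hF w q x hx h1 hid h2 h3

end main

end MP2619.T
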