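import Pool.Agent.Lib.MP_2619d0_ag.Special

set_option autoImplicit false

namespace Pool.Agent.Lib.MP_2619d0_ag

open MvPolynomial

/-- Dehomogenisation with respect to the variable `X 0`. -/
noncomputable def dh (R : Type*) [CommRing R] (m : ℕ) :
    MvPolynomial (Fin (m + 1)) R →ₐ[R] MvPolynomial (Fin m) R :=
  aeval (Fin.cases (motive := fun _ => MvPolynomial (Fin m) R) 1 (fun j => X j))

theorem dh_X_zero {R : Type*} [CommRing R] {m : ℕ} : dh R m (X 0) = 1 := by
  simp [dh]

theorem dh_X_succ {R : Type*} [CommRing R] {m : ℕ} (j : Fin m) : dh R m (X j.succ) = X j := by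
  simp [dh]

theorem dh_C {R : Type*} [CommRing R] {m : ℕ} (a : R) : dh R m (C a) = C a := by
  simp [dh]

theorem dh_map {R S : Type*} [CommRing R] [CommRing S] (φ : R →+* S) {m : ℕ}
    (p : MvPolynomial (Fin (m + 1)) R) : dh S m (map φ p) = map φ (dh R m p) := by
  induction p using MvPolynomial.induction_on with
  | C a => rw [map_C, dh_C, dh_C, map_C]
  | add p q hp hq => rw [map_add, map_add, map_add, map_add, hp, hq]
  | mul_X p i hp =>
    rw [map_mul, map_mul, map_mul, map_mul, hp, map_X]
    congr 1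
    refine Fin.cases ?_ (fun j => ?_) i
    · rw [dh_X_zero, dh_X_zero, map_one]
    · rw [dh_X_succ, dh_X_succ, map_X]

theorem dh_monomial {R : Type*} [CommRing R] {m : ℕ} (e : Fin (m + 1) →₀ ℕ) (a : R) :
    dh R m (monomial e a) = monomial e.tail a := by
  rw [dh, aeval_monomial, Finsupp.prod_fintype _ _ (by intro i; simp), Fin.prod_univ_succ]
  simp only [Fin.cases_zero, one_pow, one_mul, Fin.cases_succ]
  rw [monomial_eq (s := e.tail), Finsupp.prod_fintype _ _ (by intro i; simp)]
  simp [Finsupp.tail_apply, algebraMap_eq]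

theorem coeff_dh {R : Type*} [CommRing R] {m : ℕ} (F : MvPolynomial (Fin (m + 1)) R)
    (d : Fin m →₀ ℕ) :
    coeff d (dh R m F) = ∑ e ∈ F.support, if e.tail = d then coeff e F else 0 := by
  classical
  conv_lhs => rw [F.as_sum]
  rw [map_sum, coeff_sum]
  refine Finset.sum_congr rfl fun e _ => ?_
  rw [dh_monomial, coeff_monomial]

theorem degree_eq_cons {m : ℕ} (e : Fin (m + 1) →₀ ℕ) :
    e.degree = e 0 + e.tail.degree := by
  rw [Finsupp.degree_eq_sum, Finsupp.degree_eq_sum, Fin.sum_univ_succ]
  rfl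

theorem degree_of_mem {R : Type*} [CommRing R] {m : ℕ} {F : MvPolynomial (Fin m) R} {n : ℕ}
    (hF : F.IsHomogeneous n) {e : Fin m →₀ ℕ} (he : e ∈ F.support) : e.degree = n := by
  have h1 := hF (mem_support_iff.mp he)
  rw [Finsupp.degree_eq_weight_one (R := ℕ)]
  exact h1

theorem coeff_dh_of_lt {R : Type*} [CommRing R] {m : ℕ} {F : MvPolynomial (Fin (m + 1)) R}
    (hF : F.IsHomogeneous 3) {d : Fin m →₀ ℕ} (hd : 3 < d.degree) :
    coeff d (dh R m F) = 0 := by
  classical
  rw [coeff_dh]
  refine Finset.sum_eq_zero fun e he => ?_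
  rw [if_neg]
  rintro rfl
  have h1 := degree_of_mem hF he
  have h2 := degree_eq_cons e
  omega

theorem coeff_dh_of_eq {R : Type*} [CommRing R] {m : ℕ} {F : MvPolynomial (Fin (m + 1)) R}
    (hF : F.IsHomogeneous 3) {d : Fin m →₀ ℕ} (hd : d.degree = 3) :
    coeff d (dh R m F) = coeff (Finsupp.cons 0 d) F := by
  classical
  rw [coeff_dh]
  have key : ∀ e ∈ F.support, e.tail = d → e = Finsupp.cons 0 d := by
    intro e he h
    have h1 := degree_of_mem hF he
    have h2 := degree_eq_cons e
    rw [h] at h2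
    have h3 : e 0 = 0 := by omega
    rw [← Finsupp.cons_tail e, h, h3]
  by_cases hc : coeff (Finsupp.cons 0 d) F = 0
  · rw [hc]
    refine Finset.sum_eq_zero fun e he => ?_
    split_ifs with h
    · rw [key e he h, hc]
    · rfl
  · rw [Finset.sum_eq_single (Finsupp.cons 0 d)]
    · rw [Finsupp.tail_cons, if_pos rfl]
    · intro e he hne
      rw [if_neg]
      intro h
      exact hne (key e he h)
    · intro h
      rw [notMem_support_iff] at h
      exact absurd h hc

/-- Leading coefficient of the dehomogenisation with respect to the first variable. -/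
theorem finSucc_dh_coeff {R : Type*} [CommRing R] {m : ℕ}
    {F : MvPolynomial (Fin (m + 1 + 1)) R} (hF : F.IsHomogeneous 3) :
    (finSuccEquiv R m (dh R (m + 1) F)).degree ≤ 3 ∧
    (finSuccEquiv R m (dh R (m + 1) F)).coeff 3 = C (coeff (Finsupp.single 1 3) F) := by
  constructor
  · rw [Polynomial.degree_le_iff_coeff_zero]
    intro i hi
    ext d
    rw [finSuccEquiv_coeff_coeff, coeff_zero]
    apply coeff_dh_of_lt hF
    rw [degree_eq_cons, Finsupp.cons_zero]
    have : 3 < i := by exact_mod_cast hi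
    omega
  · ext d
    rw [finSuccEquiv_coeff_coeff, coeff_C]
    split_ifs with h
    · subst h
      have hdeg : (Finsupp.cons 3 (0 : Fin m →₀ ℕ)).degree = 3 := by
        rw [degree_eq_cons, Finsupp.cons_zero, Finsupp.tail_cons]
        simp
      rw [coeff_dh_of_eq hF hdeg]
      congr 1
      ext i
      refine Fin.cases ?_ (fun j => ?_) i
      · simp
      · refine Fin.cases ?_ (fun j' => ?_) j
        · rw [Finsupp.cons_succ, Finsupp.cons_zero]
          exact (Finsupp.single_eq_same (a := (1 : Fin (m + 1 + 1))) (b := 3)).symm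
        · rw [Finsupp.cons_succ, Finsupp.cons_succ, Finsupp.single_apply, if_neg]
          · rfl
          · intro h
            have := congrArg Fin.val h
            simp at this
    · apply coeff_dh_of_lt hF
      rw [degree_eq_cons, Finsupp.cons_zero, Finsupp.tail_cons]
      have : d.degree ≠ 0 := by
        intro h0
        apply h
        symm
        exact (Finsupp.degree_eq_zero_iff d).mp h0
      omega

theorem map_f0 {R S : Type*} [CommRing R] [CommRing S] (φ : R →+* S) {N : ℕ} :
    map φ (f0 R N) = f0 S N := by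
  rw [f0, f0, map_add, map_X, map_sum]
  congr 1
  refine Finset.sum_congr rfl fun i _ => ?_
  rw [map_pow, map_X]

/-- The cubic form whose dehomogenisation is `f0`. -/
noncomputable def F0 (R : Type*) [CommRing R] (N : ℕ) : MvPolynomial (Fin (N + 2 + 1)) R :=
  X 0 ^ 2 * X (Fin.succ 1) + ∑ i ∈ Finset.univ.erase (1 : Fin (N + 2)), X i.succ ^ 3

theorem dh_F0 {R : Type*} [CommRing R] {N : ℕ} : dh R (N + 2) (F0 R N) = f0 R N := by
  rw [F0, f0, map_add, map_mul, map_pow, dh_X_zero, dh_X_succ, one_pow, one_mul, map_sum]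
  congr 1
  refine Finset.sum_congr rfl fun i _ => ?_
  rw [map_pow, dh_X_succ]

theorem F0_homogeneous {R : Type*} [CommRing R] {N : ℕ} : (F0 R N).IsHomogeneous 3 := by
  rw [F0]
  refine IsHomogeneous.add ?_ ?_
  · have h1 := (isHomogeneous_X R (0 : Fin (N + 2 + 1))).pow 2
    have h2 := h1.mul (isHomogeneous_X R (Fin.succ 1 : Fin (N + 2 + 1)))
    simpa using h2
  · refine IsHomogeneous.sum _ _ _ fun i _ => ?_
    have h1 := (isHomogeneous_X R (i.succ : Fin (N + 2 + 1))).pow 3
    simpa using h1

theorem coeff_F0 {R : Type*} [CommRing R] {N : ℕ} :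
    coeff (Finsupp.single 1 3) (F0 R N) = 1 := by
  have h := (finSucc_dh_coeff (m := N + 1) (F := F0 R N) F0_homogeneous).2
  rw [dh_F0] at h
  have h2 := congrArg (coeff 0) h
  rw [coeff_C, if_pos rfl, finSuccEquiv_coeff_coeff] at h2
  rw [← h2, f0, coeff_add, coeff_sum]
  rw [Finset.sum_eq_single 0]
  · have hc : (Finsupp.cons 3 (0 : Fin (N + 1) →₀ ℕ)) = Finsupp.single 0 3 := by
      ext i
      refine Fin.cases ?_ (fun j => ?_) i
      · simp
      · simp
    rw [hc, coeff_X_pow, if_pos rfl, coeff_X, if_neg, zero_add]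
    intro h
    have := DFunLike.congr_fun h 1
    simp at this
  · intro i _ hi
    rw [coeff_X_pow, if_neg]
    intro h
    have := DFunLike.congr_fun h 0
    simp [hi] at this
  · intro h
    simp at h

end Pool.Agent.Lib.MP_2619d0_ag
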