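import Pool.Agent.Lib.MP_2619d0_ag.Dehom
import Pool.Agent.Lib.MP_2619d0_ag.OddDegree

set_option autoImplicit false

namespace Pool.Agent.Lib.MP_2619d0_ag

open MvPolynomial

theorem derivative_aeval {k L : Type*} [Field k] [Field L] [Algebra k L] {m : ℕ}
    (g : Fin m → Polynomial L) (f : MvPolynomial (Fin m) k) :
    Polynomial.derivative (aeval g f) =
      ∑ j, aeval g (pderiv j f) * Polynomial.derivative (g j) := by
  induction f using MvPolynomial.induction_on with
  | C a =>
    simp [Polynomial.algebraMap_eq, IsScalarTower.algebraMap_apply k L (Polynomial L)]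
  | add p q hp hq =>
    rw [map_add, map_add, hp, hq, ← Finset.sum_add_distrib]
    refine Finset.sum_congr rfl fun j _ => ?_
    rw [map_add, map_add, add_mul]
  | mul_X p i hp =>
    rw [map_mul, Polynomial.derivative_mul, hp, aeval_X, Finset.sum_mul]
    have h1 : ∀ j, aeval g (pderiv j (p * X i)) * Polynomial.derivative (g j)
        = aeval g (pderiv j p) * Polynomial.derivative (g j) * g i
          + if j = i then aeval g p * Polynomial.derivative (g i) else 0 := by
      intro j
      rw [pderiv_mul, map_add, map_mul, map_mul, aeval_X]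
      split_ifs with h
      · subst h
        rw [pderiv_X_self, map_one]
        ring
      · rw [pderiv_X_of_ne (Ne.symm h), map_zero]
        ring
    rw [Finset.sum_congr rfl (fun j _ => h1 j), Finset.sum_add_distrib]
    congr 1
    rw [Finset.sum_ite_eq' Finset.univ i, if_pos (Finset.mem_univ _)]

/-- If a polynomial vanishes on infinitely many points of an affine line, then the direction of the
line is tangent and asymptotic at the base point. -/
theorem tangent_asymptotic {k L : Type*} [Field k] [Field L] [Algebra k L]
    {m : ℕ} (f : MvPolynomial (Fin m) k) (ξ v : Fin m → L)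
    (S : Set L) (hS : S.Infinite) (h : ∀ s ∈ S, aeval (fun j => ξ j + s * v j) f = 0) :
    ∑ j, aeval ξ (pderiv j f) * v j = 0 ∧
    ∑ i, ∑ j, aeval ξ (pderiv i (pderiv j f)) * (v i * v j) = 0 := by
  set g : Fin m → Polynomial L := fun j => Polynomial.C (ξ j) + Polynomial.C (v j) * Polynomial.X
    with hg
  have heval : ∀ (s : L) (p : MvPolynomial (Fin m) k),
      Polynomial.eval s (aeval g p) = aeval (fun j => ξ j + s * v j) p := by
    intro s p
    have h1 : ∀ q : Polynomial L, Polynomial.eval s q = Polynomial.aeval s q := by
      intro q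
      rw [Polynomial.coe_aeval_eq_eval]
    rw [h1]
    have h2 : ((Polynomial.aeval s : Polynomial L →ₐ[L] L).restrictScalars k).comp
        (aeval g : MvPolynomial (Fin m) k →ₐ[k] Polynomial L)
        = aeval (fun j => ξ j + s * v j) := by
      apply MvPolynomial.algHom_ext
      intro i
      simp [hg]
      ring
    have h3 := DFunLike.congr_fun h2 p
    exact h3
  have hp : aeval g f = 0 := by
    apply Polynomial.eq_zero_of_infinite_isRoot
    refine hS.mono fun s hs => ?_
    change Polynomial.eval s (aeval g f) = 0
    rw [heval, h s hs]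
  have hder : ∀ j, Polynomial.derivative (g j) = Polynomial.C (v j) := by
    intro j
    simp [hg]
  have h0 : ∀ p : MvPolynomial (Fin m) k, Polynomial.eval 0 (aeval g p) = aeval ξ p := by
    intro p
    rw [heval]
    simp
  have h1 := derivative_aeval g f
  rw [hp, Polynomial.derivative_zero] at h1
  have h1' : ∑ j, aeval g (pderiv j f) * Polynomial.C (v j) = 0 := by
    rw [h1]
    exact Finset.sum_congr rfl fun j _ => by rw [hder]
  constructor
  · have h2 := congrArg (Polynomial.eval 0) h1'
    rw [Polynomial.eval_finsetSum, Polynomial.eval_zero] at h2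
    rw [← h2]
    refine Finset.sum_congr rfl fun j _ => ?_
    rw [Polynomial.eval_mul, Polynomial.eval_C, h0]
  · have h2 := congrArg Polynomial.derivative h1'
    rw [Polynomial.derivative_zero, Polynomial.derivative_sum] at h2
    have h3 := congrArg (Polynomial.eval 0) h2
    rw [Polynomial.eval_finsetSum, Polynomial.eval_zero] at h3
    rw [Finset.sum_comm, ← h3]
    refine Finset.sum_congr rfl fun j _ => ?_
    rw [Polynomial.derivative_mul, Polynomial.derivative_C, mul_zero, add_zero, derivative_aeval,
      Polynomial.eval_mul, Polynomial.eval_finsetSum, Polynomial.eval_C, Finset.sum_mul]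
    refine Finset.sum_congr rfl fun i _ => ?_
    rw [Polynomial.eval_mul, h0, hder, Polynomial.eval_C]
    ring

theorem aeval_smul_homog {k L : Type*} [Field k] [Field L] [Algebra k L] {m : ℕ}
    {F : MvPolynomial (Fin m) k} {n : ℕ} (hF : F.IsHomogeneous n) (c : L) (w : Fin m → L) :
    aeval (fun i => c * w i) F = c ^ n * aeval w F := by
  rw [aeval_def, aeval_def, eval₂_eq', eval₂_eq', Finset.mul_sum]
  refine Finset.sum_congr rfl fun e he => ?_
  have h1 := degree_of_mem hF he
  simp_rw [mul_pow]
  rw [Finset.prod_mul_distrib, Finset.prod_pow_eq_pow_sum, ← h1, Finsupp.degree_eq_sum]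
  ring

theorem aeval_dh {k L : Type*} [Field k] [Field L] [Algebra k L] {m : ℕ}
    (F : MvPolynomial (Fin (m + 1)) k) (ξ : Fin m → L) :
    aeval ξ (dh k m F) = aeval (Fin.cases (motive := fun _ => L) 1 ξ) F := by
  have h : (aeval ξ : MvPolynomial (Fin m) k →ₐ[k] L).comp (dh k m)
      = aeval (Fin.cases (motive := fun _ => L) 1 ξ) := by
    apply MvPolynomial.algHom_ext
    intro i
    refine Fin.cases ?_ (fun j => ?_) i
    · simp [dh_X_zero]
    · simp [dh_X_succ]
  exact DFunLike.congr_fun h F

/-- The function field data of a family of lines. -/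
theorem line_family {k E L : Type*} [Field k] [CharZero k] [Field E] [Algebra k E] [Field L]
    [Algebra E L] [Algebra k L] [IsScalarTower k E L] {m : ℕ}
    {F : MvPolynomial (Fin (m + 1)) k} {d : ℕ} (hF : F.IsHomogeneous d)
    (a b : Fin (m + 1) → E) (t : L) (ht : Transcendental E t) (ξ : Fin m → L)
    (hD : algebraMap E L (a 0) + algebraMap E L (b 0) * t ≠ 0)
    (hξ : ∀ j : Fin m, ξ j * (algebraMap E L (a 0) + algebraMap E L (b 0) * t)
      = algebraMap E L (a j.succ) + algebraMap E L (b j.succ) * t)
    (hf : aeval ξ (dh k m F) = 0) :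
    ∑ j, aeval ξ (pderiv j (dh k m F)) *
      (algebraMap E L (b j.succ) - ξ j * algebraMap E L (b 0)) = 0 ∧
    ∑ i, ∑ j, aeval ξ (pderiv i (pderiv j (dh k m F))) *
      ((algebraMap E L (b i.succ) - ξ i * algebraMap E L (b 0)) *
        (algebraMap E L (b j.succ) - ξ j * algebraMap E L (b 0))) = 0 := by
  set D : L := algebraMap E L (a 0) + algebraMap E L (b 0) * t with hDdef
  -- the polynomial identity
  set H : Polynomial E := aeval (fun i => Polynomial.C (a i) + Polynomial.C (b i) * Polynomial.X) F
    with hH
  have hmapH : ∀ τ : L, Polynomial.aeval τ H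
      = aeval (fun i => algebraMap E L (a i) + algebraMap E L (b i) * τ) F := by
    intro τ
    have h1 : ((Polynomial.aeval τ : Polynomial E →ₐ[E] L).restrictScalars k).comp
        (aeval (fun i => Polynomial.C (a i) + Polynomial.C (b i) * Polynomial.X) :
          MvPolynomial (Fin (m + 1)) k →ₐ[k] Polynomial E)
        = aeval (fun i => algebraMap E L (a i) + algebraMap E L (b i) * τ) := by
      apply MvPolynomial.algHom_ext
      intro i
      simp
    exact DFunLike.congr_fun h1 F
  have hAD : (fun i => algebraMap E L (a i) + algebraMap E L (b i) * t)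
      = fun i => D * (Fin.cases (motive := fun _ => L) 1 ξ) i := by
    funext i
    refine Fin.cases ?_ (fun j => ?_) i
    · simp [hDdef]
    · rw [Fin.cases_succ]
      linear_combination (-1 : L) * hξ j
  have hH0 : H = 0 := by
    by_contra hne
    apply ht
    refine ⟨H, hne, ?_⟩
    rw [hmapH, hAD, aeval_smul_homog hF, ← aeval_dh, hf, mul_zero]
  have hall : ∀ τ : L,
      aeval (fun i => algebraMap E L (a i) + algebraMap E L (b i) * τ) F = 0 := by
    intro τ
    rw [← hmapH, hH0, map_zero]
  apply tangent_asymptotic (dh k m F) ξ
    (fun j => algebraMap E L (b j.succ) - ξ j * algebraMap E L (b 0))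
    {s : L | 1 - s * algebraMap E L (b 0) ≠ 0}
  · -- infinite
    have hinf : (Set.univ : Set L).Infinite := by
      have : CharZero L := by
        exact charZero_of_injective_algebraMap (algebraMap k L).injective
      have : Infinite L := Infinite.of_injective (Nat.cast : ℕ → L)
        Nat.cast_injective
      exact Set.infinite_univ
    have hfin : {s : L | 1 - s * algebraMap E L (b 0) = 0}.Finite := by
      apply Set.Subsingleton.finite
      intro s hs t ht
      simp only [Set.mem_ofPred_eq] at hs ht
      have hb : algebraMap E L (b 0) ≠ 0 := by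
        intro h0
        rw [h0, mul_zero, sub_zero] at hs
        exact one_ne_zero hs
      apply mul_right_cancel₀ hb
      linear_combination ht - hs
    have : {s : L | 1 - s * algebraMap E L (b 0) ≠ 0}
        = Set.univ \ {s : L | 1 - s * algebraMap E L (b 0) = 0} := by
      ext s
      simp
    rw [this]
    exact hinf.sdiff hfin
  · intro s hs
    simp only [Set.mem_ofPred_eq] at hs
    rw [aeval_dh]
    set μ := s / (1 - s * algebraMap E L (b 0)) with hμ
    have hμ' : μ * (1 - s * algebraMap E L (b 0)) = s := div_mul_cancel₀ _ hs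
    have hpt : (Fin.cases (motive := fun _ => L) 1
        (fun j => ξ j + s * (algebraMap E L (b j.succ) - ξ j * algebraMap E L (b 0))))
        = fun i => ((1 - s * algebraMap E L (b 0)) / D) *
          (algebraMap E L (a i) + algebraMap E L (b i) * (t + μ * D)) := by
      funext i
      refine Fin.cases ?_ (fun j => ?_) i
      · rw [Fin.cases_zero]
        field_simp
        rw [hDdef] at *
        linear_combination (-(algebraMap E L (b 0) *
          (algebraMap E L (a 0) + algebraMap E L (b 0) * t))) * hμ'
      · rw [Fin.cases_succ]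
        field_simp
        have h1 := hξ j
        linear_combination (1 - s * algebraMap E L (b 0)) * h1
          - algebraMap E L (b j.succ) * D * hμ'
    rw [hpt, aeval_smul_homog hF, hall, mul_zero]

end Pool.Agent.Lib.MP_2619d0_ag
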