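import Pool.Agent.Lib.MP_2619d0_ag.Generic
import Pool.Agent.Lib.MP_2619d0_ag.Lines

set_option autoImplicit false

namespace Pool.Agent.Lib.MP_2619d0_ag

open MvPolynomial

/-- Anisotropy of the second fundamental form over the function field. -/
theorem fraction_anisotropic {k : Type*} [Field k] {m : ℕ} {f : MvPolynomial (Fin m) k}
    (hstar : Star f) {K : Type*} [Field K]
    [Algebra (MvPolynomial (Fin m) k ⧸ Ideal.span {f}) K]
    [IsFractionRing (MvPolynomial (Fin m) k ⧸ Ideal.span {f}) K]
    (v : Fin m → K)
    (h1 : ∑ i, algebraMap _ K (Ideal.Quotient.mk (Ideal.span {f}) (pderiv i f)) * v i = 0)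
    (h2 : ∑ i, ∑ j, algebraMap _ K (Ideal.Quotient.mk (Ideal.span {f}) (pderiv i (pderiv j f)))
      * (v i * v j) = 0) : v = 0 := by
  classical
  set A := MvPolynomial (Fin m) k ⧸ Ideal.span {f} with hA
  obtain ⟨b, hb⟩ := IsLocalization.exist_integer_multiples_of_finite (nonZeroDivisors A) v
  choose w hw using hb
  choose u hu using fun i => Ideal.Quotient.mk_surjective (w i)
  have hinj : Function.Injective (algebraMap A K) := IsFractionRing.injective A K
  have hw' : ∀ i, algebraMap A K (w i) = algebraMap A K b * v i := by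
    intro i
    rw [hw i, Algebra.smul_def]
  have hdvd : ∀ P : MvPolynomial (Fin m) k, Ideal.Quotient.mk (Ideal.span {f}) P = 0 ↔ f ∣ P := by
    intro P
    rw [Ideal.Quotient.eq_zero_iff_mem, Ideal.mem_span_singleton]
  have hT : f ∣ ∑ i, pderiv i f * u i := by
    rw [← hdvd]
    apply hinj
    rw [map_zero, map_sum, map_sum]
    calc ∑ i, algebraMap A K (Ideal.Quotient.mk (Ideal.span {f}) (pderiv i f * u i))
        = algebraMap A K b *
          ∑ i, algebraMap A K (Ideal.Quotient.mk (Ideal.span {f}) (pderiv i f)) * v i := by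
            rw [Finset.mul_sum]
            refine Finset.sum_congr rfl fun i _ => ?_
            rw [map_mul, map_mul, hu i, hw' i]
            ring
      _ = 0 := by rw [h1, mul_zero]
  have hQ : f ∣ ∑ i, ∑ j, pderiv i (pderiv j f) * (u i * u j) := by
    rw [← hdvd]
    apply hinj
    rw [map_zero, map_sum, map_sum]
    calc ∑ i, algebraMap A K (Ideal.Quotient.mk (Ideal.span {f})
          (∑ j, pderiv i (pderiv j f) * (u i * u j)))
        = algebraMap A K b ^ 2 *
          ∑ i, ∑ j, algebraMap A K (Ideal.Quotient.mk (Ideal.span {f}) (pderiv i (pderiv j f)))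
            * (v i * v j) := by
            rw [Finset.mul_sum]
            refine Finset.sum_congr rfl fun i _ => ?_
            rw [map_sum, map_sum, Finset.mul_sum]
            refine Finset.sum_congr rfl fun j _ => ?_
            rw [map_mul, map_mul, map_mul, map_mul, hu i, hu j, hw' i, hw' j]
            ring
      _ = 0 := by rw [h2, mul_zero]
  have hall := hstar u hT hQ
  funext i
  have h3 : w i = 0 := by
    rw [← hu i, hdvd]
    exact hall i
  have h4 := hw' i
  rw [h3, map_zero] at h4
  have hb0 : algebraMap A K b ≠ 0 := by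
    intro h5
    have h6 : (b : A) = 0 := hinj (by rw [h5, map_zero])
    have h7 := b.2
    rw [h6] at h7
    have : Nontrivial A := by
      refine ⟨0, 1, fun h8 => ?_⟩
      have h9 : algebraMap A K 0 = algebraMap A K 1 := congrArg _ h8
      rw [map_zero, map_one] at h9
      exact zero_ne_one h9
    exact zero_notMem_nonZeroDivisors h7
  exact (mul_eq_zero.mp h4.symm).resolve_left hb0

theorem isDomain_quotient {k : Type*} [Field k] {m : ℕ} {f : MvPolynomial (Fin m) k}
    (hp : ∀ P Q, f ∣ P * Q → f ∣ P ∨ f ∣ Q) (h1 : ¬ f ∣ 1) :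
    IsDomain (MvPolynomial (Fin m) k ⧸ Ideal.span {f}) := by
  rw [Ideal.Quotient.isDomain_iff_prime]
  refine ⟨?_, ?_⟩
  · intro h
    rw [Ideal.eq_top_iff_one, Ideal.mem_span_singleton] at h
    exact h1 h
  · intro P Q h
    rw [Ideal.mem_span_singleton] at h
    rw [Ideal.mem_span_singleton, Ideal.mem_span_singleton]
    exact hp P Q h

/-- If the images of the coordinates lie in `E` and `L` contains an element transcendental over `E`
then `L` is not algebraic over the function field. -/
theorem not_finite_of_range {k E L : Type*} [Field k] [Field E] [Algebra k E] [Field L]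
    [Algebra E L] (t : L) (htr : Transcendental E t) {m : ℕ}
    {I : Ideal (MvPolynomial (Fin m) k)} {K : Type*} [Field K]
    [Algebra (MvPolynomial (Fin m) k ⧸ I) K]
    [IsFractionRing (MvPolynomial (Fin m) k ⧸ I) K] [Algebra K L]
    (hk : ∀ c : k, algebraMap K L (algebraMap _ K (Ideal.Quotient.mk I (C c)))
      = algebraMap E L (algebraMap k E c))
    (e : Fin m → E)
    (h : ∀ j, algebraMap K L (algebraMap _ K (Ideal.Quotient.mk I (X j)))
      = algebraMap E L (e j)) : ¬ Algebra.IsAlgebraic K L := by
  intro halg
  set A := MvPolynomial (Fin m) k ⧸ I with hA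
  have h1 : ∀ P : MvPolynomial (Fin m) k,
      algebraMap K L (algebraMap A K (Ideal.Quotient.mk I P))
        = algebraMap E L (aeval e P) := by
    intro P
    induction P using MvPolynomial.induction_on with
    | C c => rw [hk c, aeval_C]
    | add p q hp hq => rw [map_add, map_add, map_add, hp, hq, map_add, map_add]
    | mul_X p i hp => rw [map_mul, map_mul, map_mul, hp, h i, map_mul, map_mul, aeval_X]
  have h2 : ∀ x : K, ∃ y : E, algebraMap K L x = algebraMap E L y := by
    intro x
    obtain ⟨a, b, hb, rfl⟩ := IsFractionRing.div_surjective (A := A) x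
    obtain ⟨P, rfl⟩ := Ideal.Quotient.mk_surjective a
    obtain ⟨Q, rfl⟩ := Ideal.Quotient.mk_surjective b
    refine ⟨aeval e P / aeval e Q, ?_⟩
    rw [map_div₀, h1, h1, map_div₀]
  choose φ hφ using h2
  have hφinj : Function.Injective (algebraMap E L) := (algebraMap E L).injective
  let φ' : K →+* E :=
    { toFun := φ
      map_one' := hφinj (by rw [← hφ, map_one, map_one])
      map_mul' := fun x y => hφinj (by rw [← hφ, map_mul, hφ, hφ, map_mul])
      map_zero' := hφinj (by rw [← hφ, map_zero, map_zero])
      map_add' := fun x y => hφinj (by rw [← hφ, map_add, hφ, hφ, map_add]) }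
  obtain ⟨p, hp0, hp⟩ := halg.isAlgebraic t
  apply htr
  refine ⟨p.map φ', ?_, ?_⟩
  · rw [Ne, Polynomial.map_eq_zero]
    exact hp0
  · rw [Polynomial.aeval_def, Polynomial.eval₂_map]
    rw [Polynomial.aeval_def] at hp
    have h3 : (algebraMap E L).comp φ' = algebraMap K L := by
      ext x
      rw [RingHom.comp_apply, hφ x]
      rfl
    rw [h3]
    exact hp

end Pool.Agent.Lib.MP_2619d0_ag
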