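import Pool.Agent.Lib.MP_2619d0_ag.Specialize

set_option autoImplicit false

namespace Pool.Agent.Lib.MP_2619d0_ag

open MvPolynomial

theorem star_of_residue {𝕂 : Type*} [Field 𝕂] (V : ValuationSubring 𝕂) {m : ℕ}
    (f : MvPolynomial (Fin (m + 1)) V) (hf : (finSuccEquiv V m f).Monic)
    (h : Star (map (IsLocalRing.residue V) f)) : Star (map V.subtype f) := by
  intro u hT hQ
  by_contra hcon
  push Not at hcon
  obtain ⟨c, s, hs, i, hi⟩ := exists_lift V f hf u hcon
  apply hi
  set fK := map V.subtype f with hfK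
  have hcong : ∀ i, ∃ q, map V.subtype (s i) = C c * u i + fK * q := by
    intro i
    obtain ⟨q, hq⟩ := hs i
    refine ⟨-q, ?_⟩
    linear_combination -hq
  choose q hq using hcong
  have hT' : f ∣ ∑ i, pderiv i f * s i := by
    apply dvd_of_map_dvd V.subtype V.subtype_injective hf
    have h1 : map V.subtype (∑ i, pderiv i f * s i)
        = C c * (∑ i, pderiv i fK * u i) + fK * ∑ i, pderiv i fK * q i := by
      rw [map_sum, Finset.mul_sum, Finset.mul_sum, ← Finset.sum_add_distrib]
      refine Finset.sum_congr rfl fun i _ => ?_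
      rw [map_mul, hq i, ← pderiv_map, ← hfK]
      ring
    rw [h1]
    exact dvd_add (Dvd.dvd.mul_left hT _) (dvd_mul_right _ _)
  have hQ' : f ∣ ∑ i, ∑ j, pderiv i (pderiv j f) * (s i * s j) := by
    apply dvd_of_map_dvd V.subtype V.subtype_injective hf
    have h1 : map V.subtype (∑ i, ∑ j, pderiv i (pderiv j f) * (s i * s j))
        = C c ^ 2 * (∑ i, ∑ j, pderiv i (pderiv j fK) * (u i * u j))
          + fK * ∑ i, ∑ j, pderiv i (pderiv j fK) *
            (C c * u i * q j + q i * (C c * u j) + fK * (q i * q j)) := by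
      rw [map_sum, Finset.mul_sum, Finset.mul_sum, ← Finset.sum_add_distrib]
      refine Finset.sum_congr rfl fun i _ => ?_
      rw [map_sum, Finset.mul_sum, Finset.mul_sum, ← Finset.sum_add_distrib]
      refine Finset.sum_congr rfl fun j _ => ?_
      rw [map_mul, map_mul, hq i, hq j, ← pderiv_map, ← pderiv_map, ← hfK]
      ring
    rw [h1]
    exact dvd_add (Dvd.dvd.mul_left hQ _) (dvd_mul_right _ _)
  have := h (fun i => map (IsLocalRing.residue V) (s i)) ?_ ?_ i
  · exact this
  · have h1 := map_dvd (map (IsLocalRing.residue V)) hT'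
    rw [map_sum] at h1
    convert h1 using 2 with i _
    rw [map_mul, pderiv_map]
  · have h1 := map_dvd (map (IsLocalRing.residue V)) hQ'
    rw [map_sum] at h1
    convert h1 using 2 with i _
    rw [map_sum]
    refine Finset.sum_congr rfl fun j _ => ?_
    rw [map_mul, map_mul, pderiv_map, pderiv_map]

theorem prime_of_residue {𝕂 : Type*} [Field 𝕂] (V : ValuationSubring 𝕂) {m : ℕ}
    (f : MvPolynomial (Fin (m + 1)) V) (hf : (finSuccEquiv V m f).Monic)
    (h : ∀ P Q, map (IsLocalRing.residue V) f ∣ P * Q →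
      map (IsLocalRing.residue V) f ∣ P ∨ map (IsLocalRing.residue V) f ∣ Q)
    (P Q : MvPolynomial (Fin (m + 1)) 𝕂) (hPQ : map V.subtype f ∣ P * Q) :
    map V.subtype f ∣ P ∨ map V.subtype f ∣ Q := by
  by_contra hcon
  push Not at hcon
  obtain ⟨hP, hQ⟩ := hcon
  obtain ⟨c, s, hs, i, hi⟩ := exists_lift V f hf (fun _ : Unit => P) ⟨(), hP⟩
  obtain ⟨d, t, ht, j, hj⟩ := exists_lift V f hf (fun _ : Unit => Q) ⟨(), hQ⟩
  have h1 : f ∣ s i * t j := by
    apply dvd_of_map_dvd V.subtype V.subtype_injective hf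
    have h2 : map V.subtype (s i * t j) = C c * C d * (P * Q)
        - (C c * P - map V.subtype (s i)) * (C d * Q)
        - map V.subtype (s i) * (C d * Q - map V.subtype (t j)) := by
      rw [map_mul]
      ring
    rw [h2]
    exact dvd_sub (dvd_sub (Dvd.dvd.mul_left hPQ _) (Dvd.dvd.mul_right (hs i) _))
      (Dvd.dvd.mul_left (ht j) _)
  have h3 := map_dvd (map (IsLocalRing.residue V)) h1
  rw [map_mul] at h3
  rcases h _ _ h3 with h4 | h4
  · exact hi h4
  · exact hj h4

end Pool.Agent.Lib.MP_2619d0_ag
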