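import Mathlib

set_option autoImplicit false

namespace Pool.Agent.Lib.MP_2619d0_ag

open MvPolynomial

/-- A specialisation `a_j ↦ a⁰_j` of algebraically independent elements extends to a place. -/
theorem exists_valuation {𝕂 : Type*} [Field 𝕂] [Algebra ℚ 𝕂] {J : Type*} (a : J → 𝕂)
    (ha : AlgebraicIndependent ℚ a) (a0 : J → ℚ) :
    ∃ (V : ValuationSubring 𝕂) (α : MvPolynomial J ℚ →+* V),
      (∀ p, (α p : 𝕂) = aeval a p) ∧
      (∀ p, IsLocalRing.residue V (α p) = 0 ↔ eval a0 p = 0) := by
  classical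
  set φ : MvPolynomial J ℚ →+* 𝕂 := (aeval a : MvPolynomial J ℚ →ₐ[ℚ] 𝕂).toRingHom with hφ
  have hφinj : Function.Injective φ := ha
  set B : Subring 𝕂 := φ.range with hB
  set e : MvPolynomial J ℚ ≃+* B := RingEquiv.ofBijective φ.rangeRestrict
    ⟨fun x y h => hφinj (congrArg Subtype.val h), φ.rangeRestrict_surjective⟩ with he
  have he_apply : ∀ p, ((e p : B) : 𝕂) = aeval a p := fun p => rfl
  set ε : B →+* ℚ := (eval a0).comp e.symm.toRingHom with hε
  have hε_apply : ∀ p, ε (e p) = eval a0 p := by
    intro p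
    simp [hε]
  set P : Ideal B := RingHom.ker ε with hP
  have : P.IsPrime := RingHom.ker_isPrime ε
  obtain ⟨V, hV, hVloc⟩ := LocalSubring.exists_le_valuationSubring (LocalSubring.ofPrime B P)
  set ι : (LocalSubring.ofPrime B P).toSubring →+* V.toLocalSubring.toSubring :=
    Subring.inclusion hV with hι
  set α' : MvPolynomial J ℚ →+* V.toLocalSubring.toSubring :=
    ι.comp ((algebraMap B (LocalSubring.ofPrime B P).toSubring).comp e.toRingHom) with hα'
  have hα'_apply : ∀ p, ((α' p : V.toLocalSubring.toSubring) : 𝕂) = aeval a p := by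
    intro p
    rfl
  have hunit : ∀ p, IsUnit (α' p) ↔ eval a0 p ≠ 0 := by
    intro p
    have h1 : IsUnit (α' p) ↔
        IsUnit (algebraMap B (LocalSubring.ofPrime B P).toSubring (e p)) := by
      constructor
      · intro h
        exact hVloc.map_nonunit _ h
      · intro h
        exact h.map ι
    rw [h1, IsLocalization.AtPrime.isUnit_to_map_iff (LocalSubring.ofPrime B P).toSubring P]
    rw [Ideal.mem_primeCompl_iff, hP, RingHom.mem_ker, hε_apply]
  refine ⟨V, α', hα'_apply, fun p => ?_⟩
  rw [IsLocalRing.residue_eq_zero_iff, IsLocalRing.mem_maximalIdeal, mem_nonunits_iff]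
  have := hunit p
  constructor
  · intro h
    by_contra h2
    exact h (this.mpr h2)
  · intro h h2
    exact (this.mp h2) h

end Pool.Agent.Lib.MP_2619d0_ag
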