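import Pool.Agent.Lib.MP_2619d0_ag.Dehom
import Pool.Agent.Lib.MP_2619d0_ag.Transfer
import Pool.Agent.Lib.MP_2619d0_ag.Valuation

set_option autoImplicit false

namespace Pool.Agent.Lib.MP_2619d0_ag

open MvPolynomial

/-- Exponents of the monomials of degree three. -/
abbrev Exp3 (m : ℕ) : Type := {d : Fin m →₀ ℕ // d.degree = 3}

noncomputable instance (m : ℕ) : Fintype (Exp3 m) :=
  Fintype.subtype ((Finset.univ : Finset (Fin m)).finsuppAntidiag 3) (by
    intro d
    rw [Finset.mem_finsuppAntidiag, Finsupp.degree_eq_sum]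
    simp)

/-- The generic cubic form. -/
noncomputable def genForm (m : ℕ) : MvPolynomial (Fin m) (MvPolynomial (Exp3 m) ℚ) :=
  ∑ j : Exp3 m, monomial j.1 (X j)

theorem coeff_genForm {m : ℕ} (d : Fin m →₀ ℕ) :
    coeff d (genForm m) = if h : d.degree = 3 then X ⟨d, h⟩ else 0 := by
  classical
  rw [genForm, coeff_sum]
  split_ifs with h
  · rw [Finset.sum_eq_single (⟨d, h⟩ : Exp3 m)]
    · rw [coeff_monomial, if_pos rfl]
    · intro j _ hj
      rw [coeff_monomial, if_neg]
      intro h2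
      exact hj (Subtype.ext h2)
    · intro h2
      exact absurd (Finset.mem_univ _) h2
  · refine Finset.sum_eq_zero fun j _ => ?_
    rw [coeff_monomial, if_neg]
    intro h2
    exact h (h2 ▸ j.2)

theorem genForm_homogeneous (m : ℕ) : (genForm m).IsHomogeneous 3 := by
  rw [genForm]
  refine IsHomogeneous.sum _ _ _ fun j _ => ?_
  exact isHomogeneous_monomial _ j.2

theorem map_homogeneous {R S : Type*} [CommRing R] [CommRing S] (φ : R →+* S) {m n : ℕ}
    {F : MvPolynomial (Fin m) R} (hF : F.IsHomogeneous n) : (map φ F).IsHomogeneous n :=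
  hF.map φ

theorem star_C_mul {k : Type*} [Field k] {m : ℕ} {f : MvPolynomial (Fin m) k} {c : k}
    (hc : c ≠ 0) (h : Star (C c * f)) : Star f := by
  have hu : IsUnit (C c : MvPolynomial (Fin m) k) := (isUnit_iff_ne_zero.mpr hc).map C
  have hd : ∀ P, C c * f ∣ P ↔ f ∣ P := fun P => hu.mul_left_dvd
  intro u hT hQ i
  rw [← hd]
  apply h u
  · rw [hd]
    have : ∑ i, pderiv i (C c * f) * u i = C c * ∑ i, pderiv i f * u i := by
      rw [Finset.mul_sum]
      refine Finset.sum_congr rfl fun i _ => ?_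
      rw [pderiv_C_mul, mul_assoc]
    rw [this]
    exact Dvd.dvd.mul_left hT _
  · rw [hd]
    have : ∑ i, ∑ j, pderiv i (pderiv j (C c * f)) * (u i * u j)
        = C c * ∑ i, ∑ j, pderiv i (pderiv j f) * (u i * u j) := by
      rw [Finset.mul_sum]
      refine Finset.sum_congr rfl fun i _ => ?_
      rw [Finset.mul_sum]
      refine Finset.sum_congr rfl fun j _ => ?_
      rw [pderiv_C_mul, pderiv_C_mul, mul_assoc]
    rw [this]
    exact Dvd.dvd.mul_left hQ _

theorem generic_star {𝕂 : Type*} [Field 𝕂] [Algebra ℚ 𝕂] {N : ℕ}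
    (F : MvPolynomial (Fin (N + 2 + 1)) 𝕂) (hF : F.IsHomogeneous 3)
    (hgen : AlgebraicIndependent ℚ (fun j : Exp3 (N + 2 + 1) => coeff j.1 F)) :
    Star (dh 𝕂 (N + 2) F) ∧
    (∀ P Q, dh 𝕂 (N + 2) F ∣ P * Q → dh 𝕂 (N + 2) F ∣ P ∨ dh 𝕂 (N + 2) F ∣ Q) ∧
    ¬ dh 𝕂 (N + 2) F ∣ 1 := by
  classical
  set a : Exp3 (N + 2 + 1) → 𝕂 := fun j => coeff j.1 F with ha
  set a0 : Exp3 (N + 2 + 1) → ℚ := fun j => coeff j.1 (F0 ℚ N) with ha0
  obtain ⟨V, α, hα, hres⟩ := exists_valuation a hgen a0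
  set ρ := IsLocalRing.residue V with hρ
  set β : ℚ →+* IsLocalRing.ResidueField V := (ρ.comp α).comp C with hβ
  set FV : MvPolynomial (Fin (N + 2 + 1)) V := map α (genForm (N + 2 + 1)) with hFV
  have hFVh : FV.IsHomogeneous 3 := (genForm_homogeneous _).map α
  have h1 : map V.subtype FV = F := by
    ext d
    rw [hFV, coeff_map, coeff_map, coeff_genForm]
    split_ifs with h
    · have := hα (X ⟨d, h⟩)
      rw [aeval_X] at this
      exact this
    · rw [map_zero, map_zero]
      symm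
      by_contra h2
      exact h (degree_of_mem hF (mem_support_iff.mpr h2))
  have hX : ∀ j, ρ (α (X j)) = β (a0 j) := by
    intro j
    have h2 : ρ (α (X j - C (a0 j))) = 0 := by
      rw [hres]
      simp
    rw [map_sub, map_sub, sub_eq_zero] at h2
    exact h2
  have h2 : map ρ FV = map β (F0 ℚ N) := by
    ext d
    rw [hFV, coeff_map, coeff_map, coeff_genForm, coeff_map]
    split_ifs with h
    · exact hX ⟨d, h⟩
    · rw [map_zero, map_zero]
      by_cases hz : coeff d (F0 ℚ N) = 0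
      · rw [hz, map_zero]
      · exact absurd (degree_of_mem F0_homogeneous (mem_support_iff.mpr hz)) h
  set fV := dh V (N + 2) FV with hfV
  have h3 : map V.subtype fV = dh 𝕂 (N + 2) F := by
    rw [hfV, ← dh_map, h1]
  have h4 : map ρ fV = f0 (IsLocalRing.ResidueField V) N := by
    rw [hfV, ← dh_map, h2, dh_map, dh_F0, map_f0]
  -- the leading coefficient
  have hj1 : (Finsupp.single (1 : Fin (N + 2 + 1)) 3).degree = 3 := Finsupp.degree_single _ _
  set c : V := coeff (Finsupp.single 1 3) FV with hc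
  have hρc : ρ c = 1 := by
    have h5 : coeff (Finsupp.single 1 3) (map ρ FV)
        = coeff (Finsupp.single 1 3) (map β (F0 ℚ N)) := by rw [h2]
    have h6 : coeff (Finsupp.single 1 3) (map β (F0 ℚ N)) = 1 := by
      rw [coeff_map, coeff_F0, map_one]
    rw [h6] at h5
    rw [← h5, hc]
    exact (coeff_map ρ FV _).symm
  have hcu : IsUnit c := by
    by_contra h6
    have h7 : ρ c = 0 := by
      rw [hρ, IsLocalRing.residue_eq_zero_iff, IsLocalRing.mem_maximalIdeal, mem_nonunits_iff]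
      exact h6
    rw [hρc] at h7
    exact one_ne_zero h7
  obtain ⟨cu, hcu⟩ := hcu
  set g : MvPolynomial (Fin (N + 2)) V := C ((cu⁻¹ : Vˣ) : V) * fV with hg
  have hlead := finSucc_dh_coeff (m := N + 1) (F := FV) hFVh
  have hmonic : (finSuccEquiv V (N + 1) g).Monic := by
    have hC : finSuccEquiv V (N + 1) (C ((cu⁻¹ : Vˣ) : V)) = Polynomial.C (C ((cu⁻¹ : Vˣ) : V)) := by
      simp [finSuccEquiv_apply]
    refine Polynomial.monic_of_degree_le 3 ?_ ?_
    · rw [hg, map_mul, hC]
      refine (Polynomial.degree_mul_le _ _).trans ?_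
      have h8 : (Polynomial.C (C ((cu⁻¹ : Vˣ) : V)) :
          Polynomial (MvPolynomial (Fin (N + 1)) V)).degree ≤ 0 := Polynomial.degree_C_le
      calc _ ≤ (0 : WithBot ℕ) + 3 := add_le_add h8 hlead.1
        _ = 3 := zero_add _
    · rw [hg, map_mul, hC, Polynomial.coeff_C_mul]
      have h9 := hlead.2
      rw [hfV]
      rw [show (Polynomial.coeff (finSuccEquiv V (N + 1) (dh V (N + 2) FV)) 3) = C c from h9]
      rw [← C_mul, ← hcu, Units.inv_mul, C_1]
  have h5 : map ρ g = f0 (IsLocalRing.ResidueField V) N := by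
    rw [hg, map_mul, map_C, h4]
    have h6 : ρ ((cu⁻¹ : Vˣ) : V) = 1 := by
      have h7 : ρ ((cu⁻¹ : Vˣ) : V) * ρ c = 1 := by
        rw [← map_mul, ← hcu, Units.inv_mul, map_one]
      rwa [hρc, mul_one] at h7
    rw [h6, C_1, one_mul]
  have h6ne : (6 : IsLocalRing.ResidueField V) ≠ 0 := by
    have h7 : β 6 = 6 := map_ofNat β 6
    rw [← h7, Ne, map_eq_zero]
    norm_num
  have hcne : ((cu⁻¹ : Vˣ) : V) ≠ 0 := Units.ne_zero _
  have hcne' : V.subtype ((cu⁻¹ : Vˣ) : V) ≠ 0 := by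
    intro h
    exact hcne (V.subtype_injective (by rw [h, map_zero]))
  have hgK : map V.subtype g = C (V.subtype ((cu⁻¹ : Vˣ) : V)) * dh 𝕂 (N + 2) F := by
    rw [hg, map_mul, map_C, h3]
  refine ⟨?_, ?_, ?_⟩
  · apply star_C_mul hcne'
    rw [← hgK]
    apply star_of_residue V g hmonic
    rw [← hρ, h5]
    exact star_f0 h6ne
  · intro P Q hPQ
    have hu : IsUnit (C (V.subtype ((cu⁻¹ : Vˣ) : V)) : MvPolynomial (Fin (N + 2)) 𝕂) :=
      (isUnit_iff_ne_zero.mpr hcne').map C
    have hd : ∀ P, map V.subtype g ∣ P ↔ dh 𝕂 (N + 2) F ∣ P := by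
      intro P
      rw [hgK]
      exact hu.mul_left_dvd
    rw [← hd] at hPQ
    rw [← hd, ← hd]
    apply prime_of_residue V g hmonic _ P Q hPQ
    intro P' Q' h
    rw [← hρ, h5] at h ⊢
    exact prime_f0 h
  · intro h
    have hu : IsUnit (C (V.subtype ((cu⁻¹ : Vˣ) : V)) : MvPolynomial (Fin (N + 2)) 𝕂) :=
      (isUnit_iff_ne_zero.mpr hcne').map C
    have h7 : map V.subtype g ∣ map V.subtype 1 := by
      rw [hgK, map_one]
      exact hu.mul_left_dvd.mpr h
    have h8 := dvd_of_map_dvd V.subtype V.subtype_injective hmonic h7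
    have h9 := map_dvd (map ρ) h8
    rw [h5, map_one, f0_dvd_iff, map_one] at h9
    exact one_ne_zero h9

end Pool.Agent.Lib.MP_2619d0_ag
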