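import Pool.Agent.Lib.MP_2619d0_ag.HalfTools

/-!
# Pfister forms over the residue field, constancy along curves, base fields
-/

set_option autoImplicit false

/-!
# Pfister forms and curves on a singular cubic (algebra over the residue field)
-/


namespace Pool.Agent.Lib.MP_2619d0_ag.Half

open Polynomial

section Pfister

/-- The coefficients of the Pfister form `⊗ <1, t_i>`. -/
def pf {R : Type*} [CommRing R] {n : ℕ} (t : Fin n → R) (S : Fin n → Bool) : R :=
  ∏ i, if S i then t i else 1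

/-- The Pfister form `⊗ <1, t_i>`. -/
def Q {R : Type*} [CommRing R] {n : ℕ} (t : Fin n → R) (w : (Fin n → Bool) → R) : R :=
  ∑ S, pf t S * w S ^ 2

/-- `c` is a value of the Pfister form (zero allowed). -/
def Rep {R : Type*} [CommRing R] {n : ℕ} (t : Fin n → R) (c : R) : Prop := ∃ w, Q t w = c

/-- Anisotropy of the Pfister form. -/
def Aniso {R : Type*} [CommRing R] {n : ℕ} (t : Fin n → R) : Prop := ∀ w, Q t w = 0 → w = 0

theorem pf_succ {R : Type*} [CommRing R] {n : ℕ} (t : Fin (n + 1) → R) (b : Bool)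
    (S : Fin n → Bool) :
    pf t (Fin.cons b S : Fin (n + 1) → Bool)
      = (if b then t 0 else 1) * pf (fun i => t i.succ) S := by
  unfold pf
  rw [Fin.prod_univ_succ]
  simp

theorem Q_succ {R : Type*} [CommRing R] {n : ℕ} (t : Fin (n + 1) → R)
    (w : (Fin (n + 1) → Bool) → R) :
    Q t w = Q (fun i => t i.succ) (fun S => w (Fin.cons false S))
      + t 0 * Q (fun i => t i.succ) (fun S => w (Fin.cons true S)) := by
  unfold Q
  rw [← (Fin.consEquiv (fun _ => Bool)).sum_comp, Fintype.sum_prod_type, Fintype.sum_bool,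
    Finset.mul_sum, add_comm]
  congr 1
  · refine Finset.sum_congr rfl fun S _ => ?_
    have : (Fin.consEquiv (fun _ : Fin (n + 1) => Bool)) (false, S)
      = (Fin.cons false S : Fin (n + 1) → Bool) := rfl
    rw [this, pf_succ]
    simp
  · refine Finset.sum_congr rfl fun S _ => ?_
    have : (Fin.consEquiv (fun _ : Fin (n + 1) => Bool)) (true, S)
      = (Fin.cons true S : Fin (n + 1) → Bool) := rfl
    rw [this, pf_succ]
    simp
    ring

theorem Q_map {R R' : Type*} [CommRing R] [CommRing R'] (f : R →+* R') {n : ℕ} (t : Fin n → R)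
    (w : (Fin n → Bool) → R) : f (Q t w) = Q (fun i => f (t i)) (fun S => f (w S)) := by
  unfold Q pf
  rw [map_sum]
  refine Finset.sum_congr rfl fun S _ => ?_
  rw [map_mul, map_pow, map_prod]
  congr 1
  refine Finset.prod_congr rfl fun i _ => ?_
  split_ifs <;> simp

theorem Q_smul {R : Type*} [CommRing R] {n : ℕ} (t : Fin n → R) (r : R)
    (w : (Fin n → Bool) → R) : Q t (fun S => r * w S) = r ^ 2 * Q t w := by
  unfold Q
  rw [Finset.mul_sum]
  refine Finset.sum_congr rfl fun S _ => ?_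
  ring

theorem Q_comb {R : Type*} [CommRing R] {n : ℕ} (t : Fin n → R) (u A B : R)
    (x y : (Fin n → Bool) → R) :
    A * Q t (fun S => x S - u * B * y S) + u * (B * Q t (fun S => x S + A * y S))
      = (A + u * B) * (Q t x + u * (A * B * Q t y)) := by
  unfold Q
  simp only [Finset.mul_sum, ← Finset.sum_add_distrib]
  refine Finset.sum_congr rfl fun S _ => ?_
  ring

theorem Rep_zero {R : Type*} [CommRing R] {n : ℕ} (t : Fin n → R) : Rep t 0 :=
  ⟨fun _ => 0, by unfold Q; simp⟩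

theorem Rep_smul {R : Type*} [CommRing R] {n : ℕ} {t : Fin n → R} {c : R} (h : Rep t c) (r : R) :
    Rep t (r ^ 2 * c) := by
  obtain ⟨w, rfl⟩ := h
  exact ⟨_, Q_smul t r w⟩

theorem Q_cons {R : Type*} [CommRing R] {n : ℕ} (t : Fin (n + 1) → R) (x y : (Fin n → Bool) → R) :
    ∃ w, Q t w = Q (fun i => t i.succ) x + t 0 * Q (fun i => t i.succ) y := by
  refine ⟨fun S => if S 0 then y (Fin.tail S) else x (Fin.tail S), ?_⟩
  rw [Q_succ]
  simp

theorem Rep_mul_aux {E : Type*} [Field E] : ∀ (n : ℕ) (t : Fin n → E) (p q : (Fin n → Bool) → E),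
    ∃ r, Q t r = Q t p * Q t q := by
  intro n
  induction n with
  | zero =>
    intro t p q
    refine ⟨fun S => p S * q S, ?_⟩
    unfold Q pf
    simp
    ring
  | succ n ih =>
    intro t p q
    set t' : Fin n → E := fun i => t i.succ with ht'
    set a := fun S => p (Fin.cons false S) with ha
    set b := fun S => p (Fin.cons true S) with hb
    set x := fun S => q (Fin.cons false S) with hx
    set y := fun S => q (Fin.cons true S) with hy
    set A := Q t' a with hA
    set B := Q t' b with hB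
    have hp : Q t p = A + t 0 * B := Q_succ t p
    have hq : Q t q = Q t' x + t 0 * Q t' y := Q_succ t q
    by_cases hA0 : A = 0
    · obtain ⟨z1, hz1⟩ := ih t' b y
      obtain ⟨z2, hz2⟩ := ih t' b x
      obtain ⟨r, hr⟩ := Q_cons t (fun S => t 0 * z1 S) z2
      refine ⟨r, ?_⟩
      rw [hr, hp, hq, hA0, Q_smul, hz1, hz2]
      ring
    by_cases hB0 : B = 0
    · obtain ⟨z1, hz1⟩ := ih t' a x
      obtain ⟨z2, hz2⟩ := ih t' a y
      obtain ⟨r, hr⟩ := Q_cons t z1 z2
      refine ⟨r, ?_⟩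
      rw [hr, hp, hq, hB0, hz1, hz2]
      ring
    obtain ⟨y1, hy1⟩ := ih t' (fun S => A⁻¹ * a S) y
    obtain ⟨y2, hy2⟩ := ih t' (fun S => B⁻¹ * b S) y1
    have hy2' : Q t' y = A * B * Q t' y2 := by
      rw [hy2, hy1, Q_smul, Q_smul, ← hA, ← hB]
      field_simp
    obtain ⟨z1, hz1⟩ := ih t' a (fun S => x S - t 0 * B * y2 S)
    obtain ⟨z2, hz2⟩ := ih t' b (fun S => x S + A * y2 S)
    obtain ⟨r, hr⟩ := Q_cons t z1 z2
    refine ⟨r, ?_⟩
    rw [hr, hp, hq, hz1, hz2, ← hA, ← hB, Q_comb, hy2']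

theorem Rep_mul {E : Type*} [Field E] {n : ℕ} {t : Fin n → E} {c d : E} (hc : Rep t c)
    (hd : Rep t d) : Rep t (c * d) := by
  obtain ⟨p, rfl⟩ := hc
  obtain ⟨q, rfl⟩ := hd
  exact Rep_mul_aux n t p q

theorem Rep_inv {E : Type*} [Field E] {n : ℕ} {t : Fin n → E} {c : E} (hc : Rep t c) :
    Rep t c⁻¹ := by
  by_cases h : c = 0
  · rw [h, inv_zero]
    exact Rep_zero t
  have h1 := Rep_smul hc c⁻¹
  have h2 : c⁻¹ ^ 2 * c = c⁻¹ := by
    field_simp
  rwa [h2] at h1

theorem Rep_of_mul {E : Type*} [Field E] {n : ℕ} {t : Fin n → E} {c d : E} (h : Rep t (c * d))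
    (hd : Rep t d) (hd0 : d ≠ 0) : Rep t c := by
  have h1 := Rep_mul h (Rep_inv hd)
  rwa [mul_inv_cancel_right₀ hd0] at h1

theorem Rep_sq {R : Type*} [CommRing R] {n : ℕ} (t : Fin n → R) (x : R) : Rep t (x ^ 2) := by
  refine ⟨Pi.single (fun _ => false) x, ?_⟩
  unfold Q
  rw [Finset.sum_eq_single (fun _ => false)]
  · simp [pf]
  · intro b _ hb
    rw [Pi.single_eq_of_ne hb]
    ring
  · intro h
    exact absurd (Finset.mem_univ _) h

theorem Rep_one {R : Type*} [CommRing R] {n : ℕ} (t : Fin n → R) : Rep t 1 := by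
  have := Rep_sq t 1
  rwa [one_pow] at this

theorem Rep_pow {E : Type*} [Field E] {n : ℕ} {t : Fin n → E} {c : E} (h : Rep t c) (k : ℕ) :
    Rep t (c ^ k) := by
  induction k with
  | zero => simpa using Rep_one t
  | succ k ih => rw [pow_succ]; exact Rep_mul ih h

theorem Rep_prod {E : Type*} [Field E] {n : ℕ} {t : Fin n → E} {ι : Type*} (s : Finset ι)
    (f : ι → E) (h : ∀ i ∈ s, Rep t (f i)) : Rep t (∏ i ∈ s, f i) := by
  classical
  induction s using Finset.induction_on with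
  | empty => simpa using Rep_one t
  | insert a s ha ih =>
    rw [Finset.prod_insert ha]
    exact Rep_mul (h a (Finset.mem_insert_self _ _)) (ih fun i hi =>
      h i (Finset.mem_insert_of_mem hi))

/-- The slots `∅, {1}, …, {n}`. -/
def slot {n : ℕ} : Option (Fin n) → (Fin n → Bool) :=
  fun o => o.elim (fun _ => false) (fun j i => decide (i = j))

theorem slot_injective {n : ℕ} : Function.Injective (slot : Option (Fin n) → (Fin n → Bool)) := by
  rintro (_ | a) (_ | b) h
  · rfl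
  · have := congrFun h b
    simp [slot] at this
  · have := congrFun h a
    simp [slot] at this
  · have := congrFun h a
    simp [slot] at this
    rw [this]

theorem pf_slot {R : Type*} [CommRing R] {n : ℕ} (t : Fin n → R) (o : Option (Fin n)) :
    pf t (slot o) = o.elim 1 t := by
  rcases o with _ | j
  · simp [pf, slot]
  · simp [pf, slot]

theorem Q_slot {R : Type*} [CommRing R] {n : ℕ} (t : Fin n → R) (y0 : R) (y : Fin n → R) :
    Q t (Function.extend slot (fun o => o.elim y0 y) 0) = y0 ^ 2 + ∑ j, t j * y j ^ 2 := by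
  have h1 : ∀ o : Option (Fin n),
      Function.extend slot (fun o => o.elim y0 y) 0 (slot o) = o.elim y0 y :=
    fun o => slot_injective.extend_apply _ _ _
  unfold Q
  rw [← Fintype.sum_of_injective (slot : Option (Fin n) → (Fin n → Bool)) slot_injective
    (fun o => (o.elim 1 t : R) * (o.elim y0 y) ^ 2)]
  · rw [Fintype.sum_option]
    simp
  · intro S hS
    rw [Function.extend_apply' _ _ _ (by simpa using hS)]
    simp
  · intro o
    rw [h1, pf_slot]

theorem Rep_slot {R : Type*} [CommRing R] {n : ℕ} (t : Fin n → R) (y0 : R) (y : Fin n → R) :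
    Rep t (y0 ^ 2 + ∑ j, t j * y j ^ 2) := ⟨_, Q_slot t y0 y⟩

theorem Aniso_slot {R : Type*} [CommRing R] {n : ℕ} {t : Fin n → R} (ht : Aniso t) {y0 : R}
    {y : Fin n → R} (h : y0 ^ 2 + ∑ j, t j * y j ^ 2 = 0) : y0 = 0 ∧ ∀ j, y j = 0 := by
  rw [← Q_slot] at h
  have h1 := ht _ h
  have h2 : ∀ o : Option (Fin n), (o.elim y0 y : R) = 0 := by
    intro o
    have h3 := congrFun h1 (slot o)
    rw [slot_injective.extend_apply] at h3
    exact h3
  exact ⟨h2 none, fun j => h2 (some j)⟩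

/-- The binary subform. -/
theorem bin_eq {R : Type*} [CommRing R] {n : ℕ} (t : Fin n → R) (j : Fin n) (a b : R) :
    a ^ 2 + ∑ i, t i * (if i = j then b else 0) ^ 2 = a ^ 2 + t j * b ^ 2 := by
  congr 1
  rw [Finset.sum_eq_single j]
  · simp
  · intro i _ hi
    simp [hi]
  · intro h
    exact absurd (Finset.mem_univ _) h

end Pfister

section Poly

variable {E : Type*} [Field E] {n : ℕ} {t : Fin n → E}

theorem Q_natDegree_le {d : ℕ} (w : (Fin n → Bool) → E[X]) (hw : ∀ S, (w S).natDegree ≤ d) :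
    (Q (fun i => C (t i)) w).natDegree ≤ 2 * d := by
  unfold Q
  refine natDegree_sum_le_of_forall_le _ _ fun S _ => ?_
  have h1 : pf (fun i => C (t i)) S = C (pf t S) := by
    unfold pf
    rw [map_prod]
    refine Finset.prod_congr rfl fun i _ => ?_
    split_ifs <;> simp
  rw [h1]
  refine (natDegree_C_mul_le _ _).trans ?_
  exact natDegree_pow_le_of_le 2 (hw S)

theorem Q_coeff_top {d : ℕ} (w : (Fin n → Bool) → E[X]) (hw : ∀ S, (w S).natDegree ≤ d) :
    (Q (fun i => C (t i)) w).coeff (2 * d) = Q t (fun S => (w S).coeff d) := by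
  unfold Q
  rw [finsetSum_coeff]
  refine Finset.sum_congr rfl fun S _ => ?_
  have h1 : pf (fun i => C (t i)) S = C (pf t S) := by
    unfold pf
    rw [map_prod]
    refine Finset.prod_congr rfl fun i _ => ?_
    split_ifs <;> simp
  rw [h1, coeff_C_mul, coeff_pow_of_natDegree_le (hw S)]

theorem exists_top (w : (Fin n → Bool) → E[X]) (hw : w ≠ 0) :
    ∃ d, (∀ S, (w S).natDegree ≤ d) ∧ (fun S => (w S).coeff d) ≠ 0 := by
  obtain ⟨S0, -, hS0⟩ := Finset.exists_max_image (Finset.univ : Finset (Fin n → Bool))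
    (fun S => (w S).degree) Finset.univ_nonempty
  have hne : w S0 ≠ 0 := by
    intro h
    apply hw
    funext S
    have h1 := hS0 S (Finset.mem_univ _)
    rw [h, degree_zero, le_bot_iff, degree_eq_bot] at h1
    exact h1
  refine ⟨(w S0).natDegree, fun S => natDegree_le_natDegree (hS0 S (Finset.mem_univ _)), ?_⟩
  intro h
  have h1 := congrFun h S0
  exact hne (leadingCoeff_eq_zero.mp h1)

theorem Q_poly (ht : Aniso t) (w : (Fin n → Bool) → E[X]) (hw : w ≠ 0) :
    Q (fun i => C (t i)) w ≠ 0 ∧ Rep t (Q (fun i => C (t i)) w).leadingCoeff := by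
  obtain ⟨d, hd, hd0⟩ := exists_top w hw
  have h1 := Q_coeff_top (t := t) w hd
  have h2 : Q t (fun S => (w S).coeff d) ≠ 0 := fun h => hd0 (ht _ h)
  have h3 : (Q (fun i => C (t i)) w).coeff (2 * d) ≠ 0 := by
    rw [h1]
    exact h2
  have h4 : (Q (fun i => C (t i)) w).natDegree = 2 * d :=
    natDegree_eq_of_le_of_coeff_ne_zero (Q_natDegree_le w hd) h3
  refine ⟨?_, ?_⟩
  · intro h
    rw [h] at h3
    simp at h3
  · rw [leadingCoeff, h4, h1]
    exact ⟨_, rfl⟩

theorem Aniso_poly (ht : Aniso t) : Aniso (fun i => C (t i)) := by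
  intro w hw
  by_contra h
  exact (Q_poly ht w h).1 hw

theorem Q_eval (w : (Fin n → Bool) → E[X]) (b : E) :
    (Q (fun i => C (t i)) w).eval b = Q t (fun S => (w S).eval b) := by
  have h := Q_map (evalRingHom b) (fun i => C (t i)) w
  simpa using h

/-- The form becomes isotropic modulo `P`. -/
def Iso (t : Fin n → E) (P : E[X]) : Prop :=
  ∃ h : (Fin n → Bool) → E[X], P ∣ Q (fun i => C (t i)) h ∧ ∃ S, ¬ P ∣ h S

theorem dvd_Q_sub {R : Type*} [CommRing R] (P : R) {n : ℕ} (s : Fin n → R)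
    (h h' : (Fin n → Bool) → R) (hh : ∀ S, P ∣ h S - h' S) : P ∣ Q s h - Q s h' := by
  unfold Q
  rw [← Finset.sum_sub_distrib]
  refine Finset.dvd_sum fun S _ => ?_
  obtain ⟨c, hc⟩ := hh S
  refine ⟨pf s S * c * (h S + h' S), ?_⟩
  linear_combination (pf s S * (h S + h' S)) * hc

/-- Products of values. -/
theorem Rep_of_factors [DecidableEq E] (φ : E[X] →* E) (hφ : ∀ c, φ (C c) = c) (g : E[X])
    (h : ∀ P ∈ UniqueFactorizationMonoid.normalizedFactors g,
      Odd ((UniqueFactorizationMonoid.normalizedFactors g).count P) → Rep t (φ P)) :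
    Rep t (g.leadingCoeff * φ g) := by
  have h1 := leadingCoeff_mul_prod_normalizedFactors g
  have h2 : φ g = g.leadingCoeff * φ (UniqueFactorizationMonoid.normalizedFactors g).prod := by
    conv_lhs => rw [← h1]
    rw [map_mul, hφ]
  rw [h2, ← mul_assoc, Finset.prod_multiset_count, map_prod, ← pow_two]
  refine Rep_mul (Rep_sq t _) (Rep_prod _ _ fun P hP => ?_)
  rw [Multiset.mem_toFinset] at hP
  rw [map_pow]
  rcases Nat.even_or_odd ((UniqueFactorizationMonoid.normalizedFactors g).count P) with he | ho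
  · obtain ⟨k, hk⟩ := he
    rw [hk, ← two_mul, mul_comm, pow_mul]
    exact Rep_sq t _
  · exact Rep_pow (h P hP ho) _

/-- Norm principle: a monic irreducible polynomial modulo which the form is isotropic takes only
values represented by the form. -/
theorem Rep_of_Iso (ht : Aniso t) : ∀ (N : ℕ) (P : E[X]), P.natDegree = N → P.Monic →
    Irreducible P → Iso t P → ∀ b, Rep t (P.eval b) := by
  classical
  intro N
  induction N using Nat.strong_induction_on with
  | _ N ih =>
  intro P hPN hPm hPi hPiso b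
  have hPp : Prime P := hPi.prime
  have hPd : 0 < P.natDegree := hPi.natDegree_pos
  -- a small isotropic vector
  have hex : ∃ d, ∃ w : (Fin n → Bool) → E[X], w ≠ 0 ∧ P ∣ Q (fun i => C (t i)) w ∧
      (∀ S, (w S).natDegree ≤ d) ∧ ∀ S, (w S).natDegree < P.natDegree := by
    obtain ⟨h, h1, S, h2⟩ := hPiso
    refine ⟨P.natDegree, fun S => h S %ₘ P, ?_, ?_, ?_, ?_⟩
    · intro h0
      exact h2 ((modByMonic_eq_zero_iff_dvd hPm).mp (congrFun h0 S))
    · have h3 := dvd_Q_sub P (fun i => C (t i)) h (fun S => h S %ₘ P) (fun S => by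
        refine ⟨h S /ₘ P, ?_⟩
        have := modByMonic_add_div (h S) P
        linear_combination -this)
      exact (dvd_sub_right h1).mp h3
    · intro S
      exact (natDegree_modByMonic_lt _ hPm (by
        intro h0
        rw [h0] at hPd
        simp at hPd)).le
    · intro S
      exact natDegree_modByMonic_lt _ hPm (by
        intro h0
        rw [h0] at hPd
        simp at hPd)
  obtain ⟨w, hw0, hwP, hwd, hwlt⟩ := Nat.find_spec hex
  set d := Nat.find hex with hd
  have hprim : ∀ R : E[X], Irreducible R → (∀ S, R ∣ w S) → False := by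
    intro R hR hRw
    choose w' hw' using hRw
    have hw'0 : w' ≠ 0 := by
      rintro h0
      apply hw0
      funext S
      rw [hw', h0]
      simp
    obtain ⟨S0, hS0⟩ := Function.ne_iff.mp hw'0
    have hRd : 0 < R.natDegree := hR.natDegree_pos
    have hdeg : ∀ S, w' S ≠ 0 → (w S).natDegree = R.natDegree + (w' S).natDegree := by
      intro S hS
      rw [hw', natDegree_mul hR.ne_zero hS]
    have hRlt : R.natDegree < P.natDegree := by
      have h1 := hdeg S0 hS0
      have h2 := hwlt S0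
      omega
    have hd1 : 0 < d := by
      have h1 := hdeg S0 hS0
      have h2 := hwd S0
      omega
    refine Nat.find_min hex (show d - 1 < Nat.find hex by omega) ⟨w', hw'0, ?_, ?_, ?_⟩
    · have h1 : Q (fun i => C (t i)) w = R ^ 2 * Q (fun i => C (t i)) w' := by
        rw [← Q_smul]
        congr 1
        funext S
        exact hw' S
      rw [h1] at hwP
      rcases hPp.dvd_or_dvd hwP with h2 | h2
      · exfalso
        have h3 := hPp.dvd_of_dvd_pow h2
        have h4 := natDegree_le_of_dvd h3 hR.ne_zero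
        omega
      · exact h2
    · intro S
      by_cases hS : w' S = 0
      · rw [hS]
        simp
      · have h1 := hdeg S hS
        have h2 := hwd S
        omega
    · intro S
      by_cases hS : w' S = 0
      · rw [hS]
        simpa using hPd
      · have h1 := hdeg S hS
        have h2 := hwlt S
        omega
  obtain ⟨hf0, hflc⟩ := Q_poly ht w hw0
  obtain ⟨g, hg⟩ := hwP
  have hg0 : g ≠ 0 := by
    rintro rfl
    rw [mul_zero] at hg
    exact hf0 hg
  have hgd : g.natDegree < P.natDegree := by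
    have h1 : (Q (fun i => C (t i)) w).natDegree ≤ 2 * (P.natDegree - 1) :=
      Q_natDegree_le w fun S => by
        have := hwlt S
        omega
    rw [hg, natDegree_mul hPi.ne_zero hg0] at h1
    omega
  have hglc : g.leadingCoeff = (Q (fun i => C (t i)) w).leadingCoeff := by
    rw [hg, leadingCoeff_mul, hPm.leadingCoeff, one_mul]
  rw [← hglc] at hflc
  have hgb : Rep t (g.leadingCoeff * g.eval b) := by
    refine Rep_of_factors ((evalRingHom b : E[X] →+* E) : E[X] →* E) (fun c => by simp) g ?_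
    intro R hR _
    rw [Polynomial.mem_normalizedFactors_iff hg0] at hR
    obtain ⟨hRi, hRm, hRg⟩ := hR
    have hRle := natDegree_le_of_dvd hRg hg0
    refine ih R.natDegree (by omega) R rfl hRm hRi ⟨w, ?_, ?_⟩ b
    · rw [hg]
      exact Dvd.dvd.mul_left hRg P
    · by_contra hcon
      push Not at hcon
      exact hprim R hRi hcon
  have hglc0 : g.leadingCoeff ≠ 0 := leadingCoeff_ne_zero.mpr hg0
  have hgb' : Rep t (g.eval b) := by
    rw [mul_comm] at hgb
    exact Rep_of_mul hgb hflc hglc0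
  have hfb : P.eval b * g.eval b = Q t (fun S => (w S).eval b) := by
    rw [← eval_mul, ← hg, Q_eval]
  have hfb0 : Q t (fun S => (w S).eval b) ≠ 0 := by
    intro h0
    have h1 := ht _ h0
    refine hprim (X - C b) (irreducible_X_sub_C b) fun S => ?_
    rw [dvd_iff_isRoot]
    exact congrFun h1 S
  refine Rep_of_mul (d := g.eval b) ?_ hgb' ?_
  · rw [hfb]
    exact ⟨_, rfl⟩
  · intro h0
    rw [h0, mul_zero] at hfb
    exact hfb0 hfb.symm

end Poly

section Low

variable {E : Type*} [Field E]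

/-- `f = c X^k + higher order terms` (`c = 0` allowed). -/
def Low (f : E[X]) (k : ℕ) (c : E) : Prop := ∃ f', f = X ^ k * f' ∧ f'.coeff 0 = c

theorem Low.add {f g : E[X]} {k : ℕ} {c d : E} (hf : Low f k c) (hg : Low g k d) :
    Low (f + g) k (c + d) := by
  obtain ⟨f', rfl, rfl⟩ := hf
  obtain ⟨g', rfl, rfl⟩ := hg
  exact ⟨f' + g', by ring, by simp⟩

theorem Low.sub {f g : E[X]} {k : ℕ} {c d : E} (hf : Low f k c) (hg : Low g k d) :
    Low (f - g) k (c - d) := by
  obtain ⟨f', rfl, rfl⟩ := hf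
  obtain ⟨g', rfl, rfl⟩ := hg
  exact ⟨f' - g', by ring, by simp⟩

theorem Low.mul {f g : E[X]} {k l : ℕ} {c d : E} (hf : Low f k c) (hg : Low g l d) :
    Low (f * g) (k + l) (c * d) := by
  obtain ⟨f', rfl, rfl⟩ := hf
  obtain ⟨g', rfl, rfl⟩ := hg
  exact ⟨f' * g', by ring, by simp [mul_coeff_zero]⟩

theorem Low.const_mul {f : E[X]} {k : ℕ} {c : E} (a : E) (hf : Low f k c) :
    Low (C a * f) k (a * c) := by
  obtain ⟨f', rfl, rfl⟩ := hf
  exact ⟨C a * f', by ring, by simp⟩

theorem Low.pow {f : E[X]} {k : ℕ} {c : E} (hf : Low f k c) (m : ℕ) :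
    Low (f ^ m) (m * k) (c ^ m) := by
  obtain ⟨f', rfl, rfl⟩ := hf
  refine ⟨f' ^ m, by rw [mul_pow, ← pow_mul, mul_comm k m], ?_⟩
  rw [coeff_zero_eq_eval_zero, coeff_zero_eq_eval_zero, eval_pow]

theorem Low.lt {f : E[X]} {k l : ℕ} {c : E} (hf : Low f k c) (h : l < k) : Low f l 0 := by
  obtain ⟨f', rfl, rfl⟩ := hf
  refine ⟨X ^ (k - l) * f', ?_, ?_⟩
  · rw [← mul_assoc, ← pow_add]
    congr 2
    omega
  · obtain ⟨m, hm⟩ : ∃ m, k - l = m + 1 := ⟨k - l - 1, by omega⟩
    rw [hm, pow_succ]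
    simp [mul_coeff_zero]

theorem Low.unique {f : E[X]} {k : ℕ} {c d : E} (hf : Low f k c) (hg : Low f k d) : c = d := by
  obtain ⟨f', h1, rfl⟩ := hf
  obtain ⟨g', h2, rfl⟩ := hg
  rw [h1] at h2
  rw [mul_left_cancel₀ (pow_ne_zero k X_ne_zero) h2]

theorem Low.eq_of_ne {f : E[X]} {k l : ℕ} {c d : E} (hf : Low f k c) (hg : Low f l d) (hc : c ≠ 0)
    (hd : d ≠ 0) : k = l ∧ c = d := by
  rcases lt_trichotomy k l with h | h | h
  · exact absurd (hf.unique (hg.lt h)) hc
  · subst h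
    exact ⟨rfl, hf.unique hg⟩
  · exact absurd (hg.unique (hf.lt h)) hd

theorem Low_zero (k : ℕ) : Low (0 : E[X]) k 0 := ⟨0, by simp, by simp⟩

theorem Low_coeff_zero (f : E[X]) : Low f 0 (f.coeff 0) := ⟨f, by simp, rfl⟩

theorem Low_trailing (f : E[X]) : ∃ k, Low f k f.trailingCoeff := by
  refine ⟨f.natTrailingDegree, ?_⟩
  have h1 : X ^ f.natTrailingDegree ∣ f := by
    rw [X_pow_dvd_iff]
    intro d hd
    exact coeff_eq_zero_of_lt_natTrailingDegree hd
  obtain ⟨f', hf'⟩ := h1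
  refine ⟨f', hf', ?_⟩
  have h2 : (X ^ f.natTrailingDegree * f').coeff (0 + f.natTrailingDegree) = f'.coeff 0 := by
    rw [mul_comm, coeff_mul_X_pow]
  rw [zero_add, ← hf'] at h2
  exact h2.symm

/-- Common order of vanishing of a family. -/
theorem exists_low {ι : Type*} (w : ι → E[X]) (hw : w ≠ 0) :
    ∃ (k : ℕ) (w' : ι → E[X]), (∀ i, w i = X ^ k * w' i) ∧ ∃ i, (w' i).coeff 0 ≠ 0 := by
  classical
  have hex : ∃ k, ∃ i, (w i).coeff k ≠ 0 := by
    by_contra hcon
    push Not at hcon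
    apply hw
    funext i
    ext k
    simpa using hcon k i
  have h1 : ∀ i, X ^ Nat.find hex ∣ w i := by
    intro i
    rw [X_pow_dvd_iff]
    intro d hd
    by_contra h2
    exact Nat.find_min hex hd ⟨i, h2⟩
  choose w' hw' using h1
  refine ⟨Nat.find hex, w', hw', ?_⟩
  obtain ⟨i, hi⟩ := Nat.find_spec hex
  refine ⟨i, ?_⟩
  rw [hw' i] at hi
  have h2 : (X ^ Nat.find hex * w' i).coeff (0 + Nat.find hex) = (w' i).coeff 0 := by
    rw [mul_comm, coeff_mul_X_pow]
  rw [zero_add] at h2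
  rw [h2] at hi
  exact hi

variable {n : ℕ} {t : Fin n → E}

theorem Rep_low_Q (ht : Aniso t) (w : (Fin n → Bool) → E[X]) {k : ℕ} {c : E}
    (h : Low (Q (fun i => C (t i)) w) k c) (hc : c ≠ 0) : Rep t c := by
  have hw : w ≠ 0 := by
    rintro rfl
    have h1 : Q (fun i => C (t i)) (0 : (Fin n → Bool) → E[X]) = 0 := by
      unfold Q
      simp
    rw [h1] at h
    exact hc (h.unique (Low_zero k))
  obtain ⟨m, w', hw', i, hi⟩ := exists_low w hw
  have h1 : Q (fun i => C (t i)) w = (X ^ m) ^ 2 * Q (fun i => C (t i)) w' := by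
    rw [← Q_smul]
    congr 1
    funext S
    exact hw' S
  have h2 : (Q (fun i => C (t i)) w').coeff 0 = Q t (fun S => (w' S).coeff 0) := by
    simp only [coeff_zero_eq_eval_zero]
    exact Q_eval w' 0
  have h3 : Low (Q (fun i => C (t i)) w) (m * 2) (Q t (fun S => (w' S).coeff 0)) :=
    ⟨Q (fun i => C (t i)) w', by rw [h1, ← pow_mul], h2⟩
  have h4 : Q t (fun S => (w' S).coeff 0) ≠ 0 := fun h0 => hi (congrFun (ht _ h0) i)
  rw [(h.eq_of_ne h3 hc h4).2]
  exact ⟨_, rfl⟩

theorem Rep_low_sq {M : E[X]} {k : ℕ} {c : E} (h : Low (M ^ 2) k c) (hc : c ≠ 0) : Rep t c := by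
  have hM : M ≠ 0 := by
    rintro rfl
    rw [zero_pow two_ne_zero] at h
    exact hc (h.unique (Low_zero k))
  obtain ⟨m, hm⟩ := Low_trailing M
  have h1 := hm.pow 2
  rw [(h.eq_of_ne h1 hc (pow_ne_zero 2 (trailingCoeff_nonzero_iff_nonzero.mpr hM))).2]
  exact Rep_sq t _

end Low

section Curve

variable {E : Type*} [Field E] {n : ℕ} {t : Fin n → E}

/-- The discriminant-like function `S = M² + t_1 x_0 M_1`. -/
def SS {R : Type*} [CommRing R] {n : ℕ} (s : Fin n → R) (j0 : Fin n) (x0 M M1 : R) : R :=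
  M ^ 2 + s j0 * x0 * M1

/-- The singular cubic form. -/
def F0 {R : Type*} [CommRing R] {n : ℕ} (s : Fin n → R) (j0 : Fin n) (x0 M M1 y0 : R)
    (y : Fin n → R) : R :=
  x0 * y0 ^ 2 + ∑ j, s j * x0 * y j ^ 2 + 2 * SS s j0 x0 M M1 * y0 + 2 * M * M1 * y j0 - M1 ^ 3
    - x0 * SS s j0 x0 M M1

theorem F0_ident {R : Type*} [CommRing R] {n : ℕ} (s : Fin n → R) (j0 : Fin n) (x0 M M1 y0 : R)
    (y : Fin n → R) (u : R) (hu : s j0 * u = 1) :
    (x0 * y0 + SS s j0 x0 M M1) ^ 2
        + ∑ j, s j * (x0 * y j + if j = j0 then u * M * M1 else 0) ^ 2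
      = SS s j0 x0 M M1 * (SS s j0 x0 M M1 + (x0 ^ 2 + u * M1 ^ 2))
        + x0 * F0 s j0 x0 M M1 y0 y := by
  have h1 : ∑ j, s j * (x0 * y j + if j = j0 then u * M * M1 else 0) ^ 2
      = ∑ j, s j * (x0 * y j) ^ 2 + s j0 * (2 * x0 * y j0 * (u * M * M1) + (u * M * M1) ^ 2) := by
    have h2 : s j0 * (2 * x0 * y j0 * (u * M * M1) + (u * M * M1) ^ 2)
        = ∑ j, s j * (2 * x0 * y j * (if j = j0 then u * M * M1 else 0)
          + (if j = j0 then u * M * M1 else 0) ^ 2) := by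
      rw [Finset.sum_eq_single j0]
      · simp
      · intro j _ hj
        simp [hj]
      · intro h
        exact absurd (Finset.mem_univ _) h
    rw [h2, ← Finset.sum_add_distrib]
    refine Finset.sum_congr rfl fun j _ => ?_
    ring
  have h3 : ∑ j, s j * (x0 * y j) ^ 2 = x0 * ∑ j, s j * x0 * y j ^ 2 := by
    rw [Finset.mul_sum]
    refine Finset.sum_congr rfl fun j _ => ?_
    ring
  rw [h1, h3]
  unfold F0 SS
  linear_combination (2 * x0 * y j0 * (M * M1) + M ^ 2 * M1 ^ 2 * u - M1 ^ 3 * x0) * hu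

theorem N_ident {R : Type*} [CommRing R] {n : ℕ} (s : Fin n → R) (j0 : Fin n) (x0 M1 : R)
    (u : R) (hu : s j0 * u = 1) :
    x0 ^ 2 + ∑ j, s j * (if j = j0 then u * M1 else 0) ^ 2 = x0 ^ 2 + u * M1 ^ 2 := by
  rw [bin_eq]
  linear_combination (u * M1 ^ 2) * hu

/-- Multiplicity of a value at a prime modulo which the form is anisotropic. -/
theorem Q_mult {P : E[X]} (hP : Irreducible P) (hiso : ¬ Iso t P) (w : (Fin n → Bool) → E[X])
    (hw : w ≠ 0) : ∃ k : ℕ, emultiplicity P (Q (fun i => C (t i)) w) = (2 * k : ℕ) ∧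
      ∀ S, P ^ k ∣ w S := by
  classical
  have hex : ∃ k, ∃ S, ¬ P ^ (k + 1) ∣ w S := by
    obtain ⟨S, hS⟩ := Function.ne_iff.mp hw
    obtain ⟨k, hk⟩ := FiniteMultiplicity.of_prime_left hP.prime hS
    exact ⟨k, S, hk⟩
  set k := Nat.find hex with hk
  have h1 : ∀ S, P ^ k ∣ w S := by
    intro S
    rcases Nat.eq_zero_or_pos k with h0 | hpos
    · rw [h0, pow_zero]
      exact one_dvd _
    · by_contra h2
      refine Nat.find_min hex (show k - 1 < Nat.find hex by omega) ⟨S, ?_⟩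
      rw [Nat.sub_add_cancel hpos]
      exact h2
  refine ⟨k, ?_, h1⟩
  choose w' hw' using h1
  have h2 : Q (fun i => C (t i)) w = (P ^ k) ^ 2 * Q (fun i => C (t i)) w' := by
    rw [← Q_smul]
    congr 1
    funext S
    exact hw' S
  have h3 : ¬ P ∣ Q (fun i => C (t i)) w' := by
    intro h4
    apply hiso
    obtain ⟨S, hS⟩ := Nat.find_spec hex
    refine ⟨w', h4, S, fun h5 => hS ?_⟩
    rw [hw', pow_succ]
    exact mul_dvd_mul_left _ h5
  refine emultiplicity_eq_of_dvd_of_not_dvd ?_ ?_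
  · rw [h2, ← pow_mul, mul_comm k 2]
    exact dvd_mul_right _ _
  · intro h4
    apply h3
    rw [h2, ← pow_mul, mul_comm k 2, pow_succ] at h4
    exact (mul_dvd_mul_iff_left (pow_ne_zero _ hP.ne_zero)).mp h4

/-- The function `S` has even order along every curve on the cubic at every point over which the
form stays anisotropic. -/
theorem S_even {j0 : Fin n} (ht0 : t j0 ≠ 0) {x0 M M1 y0 : E[X]} {y : Fin n → E[X]}
    (hF : F0 (fun i => C (t i)) j0 x0 M M1 y0 y = 0) {P : E[X]} (hP : Irreducible P)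
    (hiso : ¬ Iso t P) (hS : SS (fun i => C (t i)) j0 x0 M M1 ≠ 0) :
    ∃ k : ℕ, emultiplicity P (SS (fun i => C (t i)) j0 x0 M M1) = (2 * k : ℕ) := by
  have hPp := hP.prime
  set f := SS (fun i => C (t i)) j0 x0 M M1 with hf
  set u : E[X] := C (t j0)⁻¹ with hu
  have hu1 : (fun i => C (t i)) j0 * u = 1 := by
    simp only [hu]
    rw [← C_mul, mul_inv_cancel₀ ht0, C_1]
  have hid := F0_ident (fun i => C (t i)) j0 x0 M M1 y0 y u hu1
  rw [hF, mul_zero, add_zero, ← hf, ← Q_slot] at hid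
  have hNid := N_ident (fun i => C (t i)) j0 x0 M1 u hu1
  rw [← Q_slot] at hNid
  set wY := Function.extend slot (fun o => o.elim (x0 * y0 + f)
    (fun j => x0 * y j + if j = j0 then u * M * M1 else 0)) 0 with hwY
  set wN := Function.extend slot (fun o => o.elim x0
    (fun j => if j = j0 then u * M1 else 0)) 0 with hwN
  have hwN1 : wN (slot none) = x0 := slot_injective.extend_apply _ _ _
  have hwN2 : wN (slot (some j0)) = u * M1 := by
    have h1 : wN (slot (some j0)) = if j0 = j0 then u * M1 else 0 :=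
      slot_injective.extend_apply _ _ _
    rw [if_pos rfl] at h1
    exact h1
  have hfin : FiniteMultiplicity P f := FiniteMultiplicity.of_prime_left hPp hS
  have hsq : ∀ g : E[X], g ^ 2 = M ^ 2 → M ≠ 0 → ∃ k : ℕ, emultiplicity P (g ^ 2) = (2 * k : ℕ) := by
    intro g hg hM
    obtain ⟨k, hk⟩ : ∃ k : ℕ, emultiplicity P M = k :=
      ⟨_, (FiniteMultiplicity.of_prime_left hPp hM).emultiplicity_eq_multiplicity⟩
    refine ⟨k, ?_⟩
    rw [hg, emultiplicity_pow hPp, hk]
    push_cast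
    rfl
  by_cases hN0 : wN = 0
  · have hx0 : x0 = 0 := by rw [← hwN1, hN0]; rfl
    have hM0 : M ≠ 0 := by
      rintro rfl
      apply hS
      rw [hf, hx0]
      simp [SS]
    have hfM : f = M ^ 2 := by
      rw [hf, hx0]
      simp [SS]
    rw [hfM]
    exact hsq M rfl hM0
  obtain ⟨μ, hμ, hμd⟩ := Q_mult hP hiso wN hN0
  rw [hNid] at hμ
  have hdx : P ^ μ ∣ x0 := hwN1 ▸ hμd (slot none)
  have hdM1 : P ^ μ ∣ M1 := by
    have h1 := hμd (slot (some j0))
    rw [hwN2] at h1
    have h2 : M1 = C (t j0) * (u * M1) := by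
      linear_combination (-M1) * hu1
    rw [h2]
    exact Dvd.dvd.mul_left h1 _
  rcases lt_trichotomy (emultiplicity P f) ((2 * μ : ℕ) : ℕ∞) with h | h | h
  · -- `S` is dominated by `M²`
    have h1 : ((2 * μ : ℕ) : ℕ∞) ≤ emultiplicity P (C (t j0) * x0 * M1) := by
      apply le_emultiplicity_of_pow_dvd
      rw [two_mul, pow_add, mul_assoc]
      exact Dvd.dvd.mul_left (mul_dvd_mul hdx hdM1) _
    have h2 : M ^ 2 = f - C (t j0) * x0 * M1 := by
      rw [hf, SS]
      ring
    have h3 : emultiplicity P (M ^ 2) = emultiplicity P f := by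
      rw [h2, ← emultiplicity_neg, neg_sub]
      rw [emultiplicity_sub_of_gt (h.trans_le h1)]
    rw [← h3]
    refine hsq M rfl ?_
    rintro rfl
    rw [zero_pow two_ne_zero, emultiplicity_zero] at h3
    rw [← h3] at h
    exact absurd h (by simp)
  · exact ⟨μ, h⟩
  · -- `T` is dominated by `N`
    have h1 : emultiplicity P (f + (x0 ^ 2 + u * M1 ^ 2)) = (2 * μ : ℕ) := by
      rw [← hμ]
      apply emultiplicity_add_of_gt
      rw [hμ]
      exact h
    have hT0 : f + (x0 ^ 2 + u * M1 ^ 2) ≠ 0 := by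
      intro h0
      rw [h0, emultiplicity_zero] at h1
      exact ENat.natCast_ne_top _ h1.symm
    have hY0 : wY ≠ 0 := by
      intro h0
      rw [h0] at hid
      have h2 : Q (fun i => C (t i)) (0 : (Fin n → Bool) → E[X]) = 0 := by
        unfold Q
        simp
      rw [h2] at hid
      exact mul_ne_zero hS hT0 hid.symm
    obtain ⟨k, hk, -⟩ := Q_mult hP hiso wY hY0
    rw [hid, emultiplicity_mul hPp, h1, hfin.emultiplicity_eq_multiplicity] at hk
    rw [hfin.emultiplicity_eq_multiplicity]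
    have hk' : multiplicity P f + 2 * μ = 2 * k := by exact_mod_cast hk
    refine ⟨k - μ, ?_⟩
    have : multiplicity P f = 2 * (k - μ) := by omega
    rw [this]

/-- Global lemma: comparison of the lowest and the highest coefficient of `S`. -/
theorem S_global (ht : Aniso t) {j0 : Fin n} (ht0 : t j0 ≠ 0) {x0 M M1 y0 : E[X]}
    {y : Fin n → E[X]} (hF : F0 (fun i => C (t i)) j0 x0 M M1 y0 y = 0)
    (hS : SS (fun i => C (t i)) j0 x0 M M1 ≠ 0) :
    Rep t ((SS (fun i => C (t i)) j0 x0 M M1).leadingCoeff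
      * (SS (fun i => C (t i)) j0 x0 M M1).trailingCoeff) := by
  classical
  set f := SS (fun i => C (t i)) j0 x0 M M1 with hf
  let φ : E[X] →* E :=
    { toFun := trailingCoeff
      map_one' := by
        change trailingCoeff (1 : E[X]) = 1
        rw [← C_1, trailingCoeff, natTrailingDegree_C, coeff_C_zero]
      map_mul' := fun p q => trailingCoeff_mul p q }
  have hφ : ∀ g, φ g = trailingCoeff g := fun g => rfl
  refine Rep_of_factors φ ?_ f ?_
  · intro c
    rw [hφ, trailingCoeff, natTrailingDegree_C, coeff_C_zero]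
  · intro P hP hodd
    have hP' := (Polynomial.mem_normalizedFactors_iff hS).mp hP
    obtain ⟨hPi, hPm, -⟩ := hP'
    have hiso : Iso t P := by
      by_contra hiso
      obtain ⟨k, hk⟩ := S_even ht0 hF hPi hiso hS
      rw [← hf, UniqueFactorizationMonoid.emultiplicity_eq_count_normalizedFactors hPi hS,
        UniqueFactorizationMonoid.normalize_normalized_factor _ hP] at hk
      have hk' : (UniqueFactorizationMonoid.normalizedFactors f).count P = 2 * k := by
        exact_mod_cast hk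
      rw [hk'] at hodd
      exact (Nat.not_odd_iff_even.mpr (even_two_mul k)) hodd
    rw [hφ]
    by_cases hP0 : P.coeff 0 = 0
    · have hX : X ∣ P := X_dvd_iff.mpr hP0
      have h1 : Associated X P := (irreducible_X.associated_of_dvd hPi hX)
      have h2 : X = P := eq_of_monic_of_associated monic_X hPm h1
      rw [← h2]
      have h3 : trailingCoeff (X : E[X]) = 1 := by
        rw [trailingCoeff, natTrailingDegree_X, coeff_X_one]
      rw [h3]
      exact Rep_one t
    · rw [trailingCoeff_eq_coeff_zero hP0, coeff_zero_eq_eval_zero]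
      exact Rep_of_Iso ht _ P rfl hPm hPi hiso 0

theorem F0_expand {R : Type*} [CommRing R] {n : ℕ} (s : Fin n → R) (j0 : Fin n)
    (x0 M M1 y0 : R) (y : Fin n → R) :
    F0 s j0 x0 M M1 y0 y = x0 * (y0 ^ 2 + ∑ j, s j * y j ^ 2)
      + 2 * (SS s j0 x0 M M1 * y0) + 2 * (M * M1 * y j0) - M1 ^ 3 - x0 * SS s j0 x0 M M1 := by
  have h1 : ∑ j, s j * x0 * y j ^ 2 = x0 * ∑ j, s j * y j ^ 2 := by
    rw [Finset.mul_sum]
    refine Finset.sum_congr rfl fun j _ => ?_
    ring
  rw [F0, h1]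
  ring

theorem low_of_pos {μ : ℕ} (hμ : 0 < μ) {g g' : E[X]} (hg : g = X ^ μ * g') : g.coeff 0 = 0 := by
  obtain ⟨m, rfl⟩ : ∃ m, μ = m + 1 := ⟨μ - 1, by omega⟩
  rw [hg, pow_succ]
  simp [mul_coeff_zero]

/-- In the balanced case `x_0` vanishes to higher order. -/
theorem balanced (ht : Aniso t) {j0 : Fin n} {x0 M M1 y0 : E[X]}
    {y : Fin n → E[X]} (hF : F0 (fun i => C (t i)) j0 x0 M M1 y0 y = 0)
    (h0 : ¬ (x0.coeff 0 = 0 ∧ M.coeff 0 = 0 ∧ M1.coeff 0 = 0 ∧ y0.coeff 0 = 0 ∧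
      ∀ j, (y j).coeff 0 = 0)) {μ : ℕ} (hμ : 0 < μ) {a b : E[X]} (hx0a : x0 = X ^ μ * a)
    (hM1b : M1 = X ^ μ * b) {c : E}
    (hr : Low (SS (fun i => C (t i)) j0 x0 M M1) (2 * μ) c) : a.coeff 0 = 0 := by
  set f := SS (fun i => C (t i)) j0 x0 M M1 with hf
  have hLx : Low x0 μ (a.coeff 0) := ⟨a, hx0a, rfl⟩
  have hLM1 : Low M1 μ (b.coeff 0) := ⟨b, hM1b, rfl⟩
  have hMd : X ^ μ ∣ M := by
    obtain ⟨f', hf', -⟩ := hr
    rw [← IsIntegrallyClosed.pow_dvd_pow_iff (R := E[X]) two_ne_zero, ← pow_mul, mul_comm μ 2]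
    refine ⟨f' - C (t j0) * a * b, ?_⟩
    have h1 : M ^ 2 = f - C (t j0) * x0 * M1 := by
      rw [hf, SS]
      ring
    rw [h1, hf', hx0a, hM1b]
    ring
  obtain ⟨M', hM'⟩ := hMd
  have hLM : Low M μ (M'.coeff 0) := ⟨M', hM', rfl⟩
  have hx00 := low_of_pos hμ hx0a
  have hM10 := low_of_pos hμ hM1b
  have hM0 := low_of_pos hμ hM'
  obtain ⟨qy, hqy⟩ : ∃ qy : E[X], qy = y0 ^ 2 + ∑ j, C (t j) * y j ^ 2 := ⟨_, rfl⟩
  have hqy0 : qy.coeff 0 = y0.coeff 0 ^ 2 + ∑ j, t j * (y j).coeff 0 ^ 2 := by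
    rw [hqy]
    simp only [coeff_zero_eq_eval_zero, eval_add, eval_pow, eval_finsetSum, eval_mul, eval_C]
  have hqy1 : qy.coeff 0 ≠ 0 := by
    intro h1
    rw [hqy0] at h1
    obtain ⟨h2, h3⟩ := Aniso_slot ht h1
    exact h0 ⟨hx00, hM0, hM10, h2, h3⟩
  have h2C : (2 : E[X]) = C 2 := (map_ofNat C 2).symm
  have e1 : Low (x0 * qy) μ (a.coeff 0 * qy.coeff 0) := by
    have h1 := hLx.mul (Low_coeff_zero qy)
    rwa [add_zero] at h1
  have e2 : Low (C 2 * (f * y0)) μ (2 * 0) := by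
    have h1 : Low (f * y0) (2 * μ + 0) (c * y0.coeff 0) := hr.mul (Low_coeff_zero y0)
    have h2 : Low (f * y0) μ 0 := h1.lt (by omega)
    exact h2.const_mul 2
  have e3 : Low (C 2 * (M * M1 * y j0)) μ (2 * 0) := by
    have h1 := (hLM.mul hLM1).mul (Low_coeff_zero (y j0))
    have h2 : Low (M * M1 * y j0) μ 0 := h1.lt (by omega)
    exact h2.const_mul 2
  have e4 : Low (M1 ^ 3) μ 0 := by
    have h1 := hLM1.pow 3
    exact h1.lt (by omega)
  have e5 : Low (x0 * f) μ 0 := by
    have h1 := hLx.mul hr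
    exact h1.lt (by omega)
  have hLF := (((e1.add e2).add e3).sub e4).sub e5
  rw [F0_expand, ← hf, ← hqy, h2C] at hF
  rw [hF] at hLF
  have h1 := hLF.unique (Low_zero μ)
  have h2 : a.coeff 0 * qy.coeff 0 = 0 := by linear_combination h1
  exact (mul_eq_zero.mp h2).resolve_right hqy1

/-- Local lemma: if `S` vanishes at a point of the curve then its lowest coefficient is
represented by the form. -/
theorem S_local (ht : Aniso t) {j0 : Fin n} (ht0 : t j0 ≠ 0) {x0 M M1 y0 : E[X]}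
    {y : Fin n → E[X]} (hF : F0 (fun i => C (t i)) j0 x0 M M1 y0 y = 0)
    (h0 : ¬ (x0.coeff 0 = 0 ∧ M.coeff 0 = 0 ∧ M1.coeff 0 = 0 ∧ y0.coeff 0 = 0 ∧
      ∀ j, (y j).coeff 0 = 0))
    (hS : SS (fun i => C (t i)) j0 x0 M M1 ≠ 0)
    (hS0 : (SS (fun i => C (t i)) j0 x0 M M1).coeff 0 = 0) :
    Rep t (SS (fun i => C (t i)) j0 x0 M M1).trailingCoeff := by
  set f := SS (fun i => C (t i)) j0 x0 M M1 with hf
  set c := f.trailingCoeff with hc
  have hc0 : c ≠ 0 := trailingCoeff_nonzero_iff_nonzero.mpr hS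
  obtain ⟨r, hr⟩ := Low_trailing f
  rw [← hc] at hr
  have hr1 : 0 < r := by
    by_contra hr0
    have : r = 0 := by omega
    subst this
    have h1 := hr.unique (Low_coeff_zero f)
    rw [hS0] at h1
    exact hc0 h1
  set u : E[X] := C (t j0)⁻¹ with hu
  have hu1 : (fun i => C (t i)) j0 * u = 1 := by
    simp only [hu]
    rw [← C_mul, mul_inv_cancel₀ ht0, C_1]
  have hid := F0_ident (fun i => C (t i)) j0 x0 M M1 y0 y u hu1
  rw [hF, mul_zero, add_zero, ← hf, ← Q_slot] at hid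
  by_cases hxM : (fun b : Bool => if b then x0 else M1) = 0
  · have hx0 : x0 = 0 := congrFun hxM true
    have hfM : f = M ^ 2 := by
      rw [hf, hx0]
      simp [SS]
    rw [hfM] at hr
    exact Rep_low_sq hr hc0
  obtain ⟨μ, w', hw', b0, hb0⟩ := exists_low _ hxM
  set a := w' true with ha
  set b := w' false with hb
  have hx0a : x0 = X ^ μ * a := hw' true
  have hM1b : M1 = X ^ μ * b := hw' false
  have hab : ¬ (a.coeff 0 = 0 ∧ b.coeff 0 = 0) := by
    rintro ⟨h1, h2⟩
    rcases b0 with _ | _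
    · exact hb0 h2
    · exact hb0 h1
  have hLx : Low x0 μ (a.coeff 0) := ⟨a, hx0a, rfl⟩
  have hLM1 : Low M1 μ (b.coeff 0) := ⟨b, hM1b, rfl⟩
  have hLprod : Low (C (t j0) * x0 * M1) (μ + μ) (t j0 * a.coeff 0 * b.coeff 0) :=
    (hLx.const_mul (t j0)).mul hLM1
  have hM2 : M ^ 2 = f - C (t j0) * x0 * M1 := by
    rw [hf, SS]
    ring
  have hLN : Low (x0 ^ 2 + u * M1 ^ 2) (2 * μ) (a.coeff 0 ^ 2 + (t j0)⁻¹ * b.coeff 0 ^ 2) :=
    (hLx.pow 2).add ((hLM1.pow 2).const_mul _)
  have hN0eq : a.coeff 0 ^ 2 + ∑ j, t j * (if j = j0 then (t j0)⁻¹ * b.coeff 0 else 0) ^ 2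
      = a.coeff 0 ^ 2 + (t j0)⁻¹ * b.coeff 0 ^ 2 :=
    N_ident t j0 (a.coeff 0) (b.coeff 0) (t j0)⁻¹ (mul_inv_cancel₀ ht0)
  have hN0 : a.coeff 0 ^ 2 + (t j0)⁻¹ * b.coeff 0 ^ 2 ≠ 0 := by
    intro h
    rw [← hN0eq] at h
    obtain ⟨h1, h2⟩ := Aniso_slot ht h
    apply hab
    refine ⟨h1, ?_⟩
    have h3 := h2 j0
    rw [if_pos rfl] at h3
    exact (mul_eq_zero.mp h3).resolve_left (inv_ne_zero ht0)
  have hN0rep : Rep t (a.coeff 0 ^ 2 + (t j0)⁻¹ * b.coeff 0 ^ 2) := by
    rw [← hN0eq]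
    exact Rep_slot t _ _
  rcases lt_trichotomy r (2 * μ) with h | h | h
  · -- `S` is dominated by `M²`
    have h1 : Low (M ^ 2) r (c - 0) := by
      rw [hM2]
      exact hr.sub (hLprod.lt (by omega))
    rw [sub_zero] at h1
    exact Rep_low_sq h1 hc0
  · -- balanced case
    rw [h] at hr
    have ha0 : a.coeff 0 = 0 := balanced ht hF h0 (by omega) hx0a hM1b hr
    have hLM2 : Low (M ^ 2) (2 * μ) (c - t j0 * a.coeff 0 * b.coeff 0) := by
      rw [hM2]
      have h1 := hLprod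
      rw [← two_mul] at h1
      exact hr.sub h1
    rw [ha0] at hLM2
    have h3 : c - t j0 * 0 * b.coeff 0 = c := by ring
    rw [h3] at hLM2
    exact Rep_low_sq hLM2 hc0
  · -- `T` is dominated by `N`
    have hLT : Low (f + (x0 ^ 2 + u * M1 ^ 2)) (2 * μ)
        (0 + (a.coeff 0 ^ 2 + (t j0)⁻¹ * b.coeff 0 ^ 2)) := (hr.lt h).add hLN
    have hLST := hr.mul hLT
    rw [← hid, zero_add] at hLST
    exact Rep_of_mul (Rep_low_Q ht _ hLST (mul_ne_zero hc0 hN0)) hN0rep hN0

theorem S_local' (ht : Aniso t) {j0 : Fin n} (ht0 : t j0 ≠ 0) {x0 M M1 y0 : E[X]}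
    {y : Fin n → E[X]} (hF : F0 (fun i => C (t i)) j0 x0 M M1 y0 y = 0)
    (h0 : ¬ (x0.coeff 0 = 0 ∧ M.coeff 0 = 0 ∧ M1.coeff 0 = 0 ∧ y0.coeff 0 = 0 ∧
      ∀ j, (y j).coeff 0 = 0))
    (hS : SS (fun i => C (t i)) j0 x0 M M1 ≠ 0) :
    Rep t ((SS (fun i => C (t i)) j0 x0 M M1).coeff 0)
      ↔ Rep t (SS (fun i => C (t i)) j0 x0 M M1).trailingCoeff := by
  by_cases hS0 : (SS (fun i => C (t i)) j0 x0 M M1).coeff 0 = 0
  · rw [hS0]
    exact ⟨fun _ => S_local ht ht0 hF h0 hS hS0, fun _ => Rep_zero t⟩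
  · rw [trailingCoeff_eq_coeff_zero hS0]

theorem reflect_sum {ι : Type*} (s : Finset ι) (f : ι → E[X]) (N : ℕ) :
    reflect N (∑ i ∈ s, f i) = ∑ i ∈ s, reflect N (f i) := by
  classical
  induction s using Finset.induction_on with
  | empty => simp
  | insert a s ha ih => rw [Finset.sum_insert ha, Finset.sum_insert ha, reflect_add, ih]

theorem SS_reflect {j0 : Fin n} {x0 M M1 : E[X]} {d : ℕ} (hx0 : x0.natDegree ≤ d)
    (hM : M.natDegree ≤ d) (hM1 : M1.natDegree ≤ d) :
    SS (fun i => C (t i)) j0 (reflect d x0) (reflect d M) (reflect d M1)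
      = reflect (d + d) (SS (fun i => C (t i)) j0 x0 M M1) := by
  have h1 : SS (fun i => C (t i)) j0 x0 M M1 = M * M + C (t j0) * (x0 * M1) := by
    rw [SS]
    ring
  rw [h1, reflect_add, reflect_C_mul, reflect_mul M M hM hM, reflect_mul x0 M1 hx0 hM1, SS]
  ring

theorem F0_reflect {j0 : Fin n} {x0 M M1 y0 : E[X]} {y : Fin n → E[X]} {d : ℕ}
    (hx0 : x0.natDegree ≤ d) (hM : M.natDegree ≤ d) (hM1 : M1.natDegree ≤ d)
    (hy0 : y0.natDegree ≤ d) (hy : ∀ j, (y j).natDegree ≤ d) :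
    F0 (fun i => C (t i)) j0 (reflect d x0) (reflect d M) (reflect d M1) (reflect d y0)
        (fun j => reflect d (y j))
      = reflect (d + d + d) (F0 (fun i => C (t i)) j0 x0 M M1 y0 y) := by
  have h3 : ∀ a b c : E[X], a.natDegree ≤ d → b.natDegree ≤ d → c.natDegree ≤ d →
      reflect (d + d + d) (a * b * c) = reflect d a * reflect d b * reflect d c := by
    intro a b c ha hb hc
    rw [reflect_mul (a * b) c (natDegree_mul_le_of_le ha hb) hc, reflect_mul a b ha hb]
  have h2 : (2 : E[X]) = C 2 := (map_ofNat C 2).symm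
  have h1 : F0 (fun i => C (t i)) j0 x0 M M1 y0 y
      = x0 * y0 * y0 + ∑ j, C (t j) * (x0 * y j * y j) + C 2 * (M * M * y0)
        + C 2 * (C (t j0) * (x0 * M1 * y0)) + C 2 * (M * M1 * y j0) - M1 * M1 * M1
        - x0 * M * M - C (t j0) * (x0 * x0 * M1) := by
    rw [F0, SS, h2]
    have h4 : ∑ j, C (t j) * x0 * y j ^ 2 = ∑ j, C (t j) * (x0 * y j * y j) :=
      Finset.sum_congr rfl fun j _ => by ring
    rw [h4]
    ring
  rw [h1]
  simp only [reflect_add, reflect_sub, reflect_C_mul, reflect_sum]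
  rw [h3 _ _ _ hx0 hy0 hy0, h3 _ _ _ hM hM hy0, h3 _ _ _ hx0 hM1 hy0, h3 _ _ _ hM hM1 (hy j0),
    h3 _ _ _ hM1 hM1 hM1, h3 _ _ _ hx0 hM hM, h3 _ _ _ hx0 hx0 hM1]
  have h5 : ∑ j, C (t j) * reflect (d + d + d) (x0 * y j * y j)
      = ∑ j, C (t j) * (reflect d x0 * reflect d (y j) * reflect d (y j)) :=
    Finset.sum_congr rfl fun j _ => by rw [h3 _ _ _ hx0 (hy j) (hy j)]
  rw [h5, F0, SS, h2]
  have h4 : ∑ j, C (t j) * reflect d x0 * reflect d (y j) ^ 2
      = ∑ j, C (t j) * (reflect d x0 * reflect d (y j) * reflect d (y j)) :=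
    Finset.sum_congr rfl fun j _ => by ring
  rw [h4]
  ring

theorem trailingCoeff_reflect {f : E[X]} {N : ℕ} (hN : f.natDegree ≤ N) :
    (reflect N f).trailingCoeff = f.leadingCoeff := by
  by_cases hf : f = 0
  · rw [hf]
    simp
  have h1 : ∀ i, i < N - f.natDegree → (reflect N f).coeff i = 0 := by
    intro i hi
    rw [coeff_reflect, revAt_le (by omega)]
    exact coeff_eq_zero_of_natDegree_lt (by omega)
  have h2 : (reflect N f).coeff (N - f.natDegree) = f.leadingCoeff := by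
    rw [coeff_reflect, revAt_le (by omega), show N - (N - f.natDegree) = f.natDegree by omega]
    rfl
  have h3 : Low (reflect N f) (N - f.natDegree) f.leadingCoeff := by
    obtain ⟨g, hg⟩ := X_pow_dvd_iff.mpr h1
    refine ⟨g, hg, ?_⟩
    rw [← h2, hg]
    have h4 : (X ^ (N - f.natDegree) * g).coeff (0 + (N - f.natDegree)) = g.coeff 0 := by
      rw [mul_comm, coeff_mul_X_pow]
    rw [zero_add] at h4
    exact h4.symm
  obtain ⟨k, hk⟩ := Low_trailing (reflect N f)
  have hr0 : reflect N f ≠ 0 := by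
    rw [Ne, reflect_eq_zero_iff]
    exact hf
  exact (hk.eq_of_ne h3 (trailingCoeff_nonzero_iff_nonzero.mpr hr0)
    (leadingCoeff_ne_zero.mpr hf)).2

theorem S_local_top (ht : Aniso t) {j0 : Fin n} (ht0 : t j0 ≠ 0) {x0 M M1 y0 : E[X]}
    {y : Fin n → E[X]} {d : ℕ} (hx0 : x0.natDegree ≤ d) (hM : M.natDegree ≤ d)
    (hM1 : M1.natDegree ≤ d) (hy0 : y0.natDegree ≤ d) (hy : ∀ j, (y j).natDegree ≤ d)
    (hF : F0 (fun i => C (t i)) j0 x0 M M1 y0 y = 0)
    (h0 : ¬ (x0.coeff d = 0 ∧ M.coeff d = 0 ∧ M1.coeff d = 0 ∧ y0.coeff d = 0 ∧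
      ∀ j, (y j).coeff d = 0))
    (hS : SS (fun i => C (t i)) j0 x0 M M1 ≠ 0) :
    Rep t ((SS (fun i => C (t i)) j0 x0 M M1).coeff (d + d))
      ↔ Rep t (SS (fun i => C (t i)) j0 x0 M M1).leadingCoeff := by
  have hc : ∀ f : E[X], (reflect d f).coeff 0 = f.coeff d := by
    intro f
    rw [coeff_reflect, revAt_zero]
  have h1 := S_local' ht ht0 (x0 := reflect d x0) (M := reflect d M) (M1 := reflect d M1)
    (y0 := reflect d y0) (y := fun j => reflect d (y j)) (j0 := j0)
    (by rw [F0_reflect hx0 hM hM1 hy0 hy, hF, reflect_zero])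
    (by
      simp only [hc]
      exact h0)
    (by
      rw [SS_reflect hx0 hM hM1, Ne, reflect_eq_zero_iff]
      exact hS)
  have hSd : (SS (fun i => C (t i)) j0 x0 M M1).natDegree ≤ d + d := by
    rw [SS]
    refine (natDegree_add_le _ _).trans (max_le ?_ ?_)
    · refine (natDegree_pow_le_of_le 2 hM).trans (by omega)
    · refine natDegree_mul_le_of_le ((natDegree_C_mul_le _ _).trans hx0) hM1
  rw [SS_reflect hx0 hM hM1, trailingCoeff_reflect hSd, coeff_reflect, revAt_zero] at h1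
  exact h1

/-- Comparison of the two ends of a polynomial curve on the cubic. -/
theorem ends (ht : Aniso t) {j0 : Fin n} (ht0 : t j0 ≠ 0) {x0 M M1 y0 : E[X]}
    {y : Fin n → E[X]} {d : ℕ} (hx0 : x0.natDegree ≤ d) (hM : M.natDegree ≤ d)
    (hM1 : M1.natDegree ≤ d) (hy0 : y0.natDegree ≤ d) (hy : ∀ j, (y j).natDegree ≤ d)
    (hF : F0 (fun i => C (t i)) j0 x0 M M1 y0 y = 0)
    (h0 : ¬ (x0.coeff 0 = 0 ∧ M.coeff 0 = 0 ∧ M1.coeff 0 = 0 ∧ y0.coeff 0 = 0 ∧
      ∀ j, (y j).coeff 0 = 0))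
    (hd : ¬ (x0.coeff d = 0 ∧ M.coeff d = 0 ∧ M1.coeff d = 0 ∧ y0.coeff d = 0 ∧
      ∀ j, (y j).coeff d = 0)) :
    Rep t (SS t j0 (x0.coeff 0) (M.coeff 0) (M1.coeff 0))
      ↔ Rep t (SS t j0 (x0.coeff d) (M.coeff d) (M1.coeff d)) := by
  have hc0 : (SS (fun i => C (t i)) j0 x0 M M1).coeff 0
      = SS t j0 (x0.coeff 0) (M.coeff 0) (M1.coeff 0) := by
    simp only [SS, coeff_zero_eq_eval_zero, eval_add, eval_pow, eval_mul, eval_C]
  have hcd : (SS (fun i => C (t i)) j0 x0 M M1).coeff (d + d)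
      = SS t j0 (x0.coeff d) (M.coeff d) (M1.coeff d) := by
    have h1 : (reflect (d + d) (SS (fun i => C (t i)) j0 x0 M M1)).coeff 0
        = (SS (fun i => C (t i)) j0 x0 M M1).coeff (d + d) := by
      rw [coeff_reflect, revAt_zero]
    rw [← h1, ← SS_reflect hx0 hM hM1]
    simp only [SS, coeff_zero_eq_eval_zero, eval_add, eval_pow, eval_mul, eval_C]
    simp only [← coeff_zero_eq_eval_zero, coeff_reflect, revAt_zero]
  by_cases hS : SS (fun i => C (t i)) j0 x0 M M1 = 0
  · rw [hS] at hc0 hcd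
    simp only [coeff_zero] at hc0 hcd
    rw [← hc0, ← hcd]
  · rw [← hc0, ← hcd, S_local' ht ht0 hF h0 hS, S_local_top ht ht0 hx0 hM hM1 hy0 hy hF hd hS]
    have hg := S_global ht ht0 hF hS
    constructor
    · intro h
      exact Rep_of_mul hg h (trailingCoeff_nonzero_iff_nonzero.mpr hS)
    · intro h
      rw [mul_comm] at hg
      exact Rep_of_mul hg h (leadingCoeff_ne_zero.mpr hS)

end Curve

end Pool.Agent.Lib.MP_2619d0_ag.Half

/-!
# Polynomial curves over a valued field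
-/


namespace Pool.Agent.Lib.MP_2619d0_ag.Half

open Polynomial

universe u

section Residue

/-- Valuation ring and residue field of a nonarchimedean absolute value. -/
theorem exists_residue {K : Type u} [Field K] (v : AbsoluteValue K ℝ)
    (hna : IsNonarchimedean v) :
    ∃ (O : Subring K) (E : Type u) (_ : Field E) (res : O →+* E),
      (∀ x, x ∈ O ↔ v x ≤ 1) ∧ (∀ x : O, res x = 0 ↔ v (x : K) < 1) ∧
        Function.Surjective res := by
  let O : Subring K :=
    { carrier := {x | v x ≤ 1}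
      mul_mem' := fun {a b} ha hb => by
        change v (a * b) ≤ 1
        rw [map_mul]
        exact mul_le_one₀ ha (v.nonneg _) hb
      one_mem' := by
        change v 1 ≤ 1
        rw [map_one]
      add_mem' := fun {a b} ha hb => (hna a b).trans (max_le ha hb)
      zero_mem' := by
        change v 0 ≤ 1
        rw [map_zero]
        exact zero_le_one
      neg_mem' := fun {a} ha => by
        change v (-a) ≤ 1
        rw [AbsoluteValue.map_neg]
        exact ha }
  have hO : ∀ x, x ∈ O ↔ v x ≤ 1 := fun x => Iff.rfl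
  let I : Ideal O :=
    { carrier := {x | v (x : K) < 1}
      add_mem' := fun {a b} ha hb => (hna a b).trans_lt (max_lt ha hb)
      zero_mem' := by
        change v ((0 : O) : K) < 1
        rw [ZeroMemClass.coe_zero, map_zero]
        exact zero_lt_one
      smul_mem' := fun c x hx => by
        change v ((c * x : O) : K) < 1
        rw [Subring.coe_mul, map_mul]
        have h1 : v (c : K) ≤ 1 := c.2
        have h2 : v (x : K) < 1 := hx
        calc v (c : K) * v (x : K) ≤ 1 * v (x : K) :=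
              mul_le_mul_of_nonneg_right h1 (v.nonneg _)
          _ < 1 := by rw [one_mul]; exact h2 }
  have hI : ∀ x : O, x ∈ I ↔ v (x : K) < 1 := fun x => Iff.rfl
  have hmax : I.IsMaximal := by
    rw [Ideal.isMaximal_iff]
    refine ⟨?_, ?_⟩
    · rw [hI]
      simp
    · intro J x hIJ hxI hxJ
      rw [hI, not_lt] at hxI
      have hx1 : v (x : K) = 1 := le_antisymm x.2 hxI
      have hx0 : (x : K) ≠ 0 := by
        intro h
        rw [h, map_zero] at hx1
        exact zero_ne_one hx1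
      have hinv : (x : K)⁻¹ ∈ O := by
        rw [hO, map_inv₀, hx1, inv_one]
      have h1 : (1 : O) = (⟨(x : K)⁻¹, hinv⟩ : O) * x := by
        apply Subtype.ext
        rw [Subring.coe_mul]
        exact (inv_mul_cancel₀ hx0).symm
      rw [h1]
      exact J.mul_mem_left _ hxJ
  refine ⟨O, O ⧸ I, Ideal.Quotient.field I, Ideal.Quotient.mk I, hO, ?_,
    Ideal.Quotient.mk_surjective⟩
  intro x
  rw [Ideal.Quotient.eq_zero_iff_mem]
  exact hI x

end Residue

section Coordinates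

/-- Index of `y_0`. -/
def iY0 (n : ℕ) : Fin (n + 2 + n + 1 + 1) := Fin.succ 0

/-- Index of `M`. -/
def iM (n : ℕ) : Fin (n + 2 + n + 1 + 1) := (Fin.castAdd n (0 : Fin (n + 2))).succ.succ

/-- Index of `M_1`. -/
def iM1 (n : ℕ) : Fin (n + 2 + n + 1 + 1) := (Fin.castAdd n (1 : Fin (n + 2))).succ.succ

/-- Index of `y_j`. -/
def iy {n : ℕ} (j : Fin n) : Fin (n + 2 + n + 1 + 1) :=
  (Fin.castAdd n (j.succ.succ : Fin (n + 2))).succ.succ

/-- Index of the base coordinate `X_j`. -/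
def iX {n : ℕ} (j : Fin n) : Fin (n + 2 + n + 1 + 1) := (Fin.natAdd (n + 2) j).succ.succ

/-- All coordinates. -/
theorem forall_index {n : ℕ} {p : Fin (n + 2 + n + 1 + 1) → Prop} (h0 : p 0) (hY : p (iY0 n))
    (hM : p (iM n)) (hM1 : p (iM1 n)) (hy : ∀ j : Fin n, p (iy j)) (hX : ∀ j : Fin n, p (iX j)) :
    ∀ i, p i := by
  intro i
  refine Fin.cases h0 (fun i => ?_) i
  refine Fin.cases hY (fun i => ?_) i
  refine Fin.addCases (fun i => ?_) (fun i => hX i) i
  refine Fin.cases hM (fun i => ?_) i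
  refine Fin.cases hM1 (fun i => hy i) i

/-- The integral cubic form. -/
noncomputable def Fh {n : ℕ} (j0 : Fin n) : MvPolynomial (Fin (n + 2 + n + 1 + 1)) ℤ :=
  MvPolynomial.X 0 * MvPolynomial.X (iY0 n) ^ 2
    + ∑ j : Fin n, MvPolynomial.X (iX j) * MvPolynomial.X (iy j) ^ 2
    + 2 * ((MvPolynomial.X (iM n) ^ 2 + MvPolynomial.X (iX j0) * MvPolynomial.X (iM1 n))
      * MvPolynomial.X (iY0 n))
    + 2 * (MvPolynomial.X (iM n) * MvPolynomial.X (iM1 n) * MvPolynomial.X (iy j0))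
    - MvPolynomial.X (iM1 n) ^ 3
    - MvPolynomial.X 0 * (MvPolynomial.X (iM n) ^ 2
      + MvPolynomial.X (iX j0) * MvPolynomial.X (iM1 n))
    + 3 * MvPolynomial.X (iY0 n) ^ 3

theorem isHomogeneous_natCast_mul {σ : Type*} {m : ℕ} (p : MvPolynomial σ ℤ) (k : ℤ)
    (hp : p.IsHomogeneous m) : (MvPolynomial.C k * p).IsHomogeneous m := by
  have h := (MvPolynomial.isHomogeneous_C σ k).mul hp
  rwa [zero_add] at h

theorem Fh_homogeneous {n : ℕ} (j0 : Fin n) : (Fh j0).IsHomogeneous 3 := by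
  have h2 : (2 : MvPolynomial (Fin (n + 2 + n + 1 + 1)) ℤ) = MvPolynomial.C 2 :=
    (map_ofNat MvPolynomial.C 2).symm
  have h3 : (3 : MvPolynomial (Fin (n + 2 + n + 1 + 1)) ℤ) = MvPolynomial.C 3 :=
    (map_ofNat MvPolynomial.C 3).symm
  have hX : ∀ i, (MvPolynomial.X i : MvPolynomial (Fin (n + 2 + n + 1 + 1)) ℤ).IsHomogeneous 1 :=
    fun i => MvPolynomial.isHomogeneous_X _ _
  have hX2 : ∀ i, ((MvPolynomial.X i : MvPolynomial (Fin (n + 2 + n + 1 + 1)) ℤ) ^ 2).IsHomogeneous
      2 := fun i => by simpa using (hX i).pow 2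
  have hX3 : ∀ i, ((MvPolynomial.X i : MvPolynomial (Fin (n + 2 + n + 1 + 1)) ℤ) ^ 3).IsHomogeneous
      3 := fun i => by simpa using (hX i).pow 3
  have hS : (MvPolynomial.X (iM n) ^ 2 + MvPolynomial.X (iX j0) * MvPolynomial.X (iM1 n) :
      MvPolynomial (Fin (n + 2 + n + 1 + 1)) ℤ).IsHomogeneous 2 := (hX2 _).add ((hX _).mul (hX _))
  rw [Fh, h2, h3]
  refine MvPolynomial.IsHomogeneous.add (MvPolynomial.IsHomogeneous.sub
    (MvPolynomial.IsHomogeneous.sub (MvPolynomial.IsHomogeneous.add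
      (MvPolynomial.IsHomogeneous.add (MvPolynomial.IsHomogeneous.add ?_ ?_) ?_) ?_) ?_) ?_) ?_
  · exact (hX _).mul (hX2 _)
  · exact MvPolynomial.IsHomogeneous.sum _ _ _ fun j _ => (hX _).mul (hX2 _)
  · exact isHomogeneous_natCast_mul _ _ (hS.mul (hX _))
  · exact isHomogeneous_natCast_mul _ _ (((hX _).mul (hX _)).mul (hX _))
  · exact hX3 _
  · exact (hX _).mul hS
  · exact isHomogeneous_natCast_mul _ _ (hX3 _)

theorem eval_Fh {R : Type*} [CommRing R] {n : ℕ} (j0 : Fin n) (τ : Fin n → R)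
    (γ : Fin (n + 2 + n + 1 + 1) → R) (hbase : ∀ j, γ (iX j) = τ j * γ 0) :
    MvPolynomial.eval₂ (Int.castRingHom R) γ (Fh j0)
      = F0 τ j0 (γ 0) (γ (iM n)) (γ (iM1 n)) (γ (iY0 n))
      (fun j => γ (iy j)) + 3 * γ (iY0 n) ^ 3 := by
  have h2 : MvPolynomial.eval₂ (Int.castRingHom R) γ 2 = 2 :=
    map_ofNat (MvPolynomial.eval₂Hom (Int.castRingHom R) γ) 2
  have h3 : MvPolynomial.eval₂ (Int.castRingHom R) γ 3 = 3 :=
    map_ofNat (MvPolynomial.eval₂Hom (Int.castRingHom R) γ) 3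
  simp only [Fh, MvPolynomial.eval₂_add, MvPolynomial.eval₂_sub, MvPolynomial.eval₂_mul,
    MvPolynomial.eval₂_pow, MvPolynomial.eval₂_sum, MvPolynomial.eval₂_X, h2, h3,
    hbase, F0, SS]
  ring

end Coordinates

section Good

variable {K : Type u} [Field K] {n : ℕ}

/-- The class of `S` at the point is trivial. -/
def Good (v : AbsoluteValue K ℝ) (τ : Fin n → K) (j0 : Fin n)
    (γ : Fin (n + 2 + n + 1 + 1) → K) : Prop :=
  ∃ (w : (Fin n → Bool) → K) (i : Fin (n + 2 + n + 1 + 1)),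
    v (SS τ j0 (γ 0) (γ (iM n)) (γ (iM1 n)) - Q τ w) < v (γ i) ^ 2

theorem Good_smul_aux (v : AbsoluteValue K ℝ) (τ : Fin n → K) (j0 : Fin n)
    (γ : Fin (n + 2 + n + 1 + 1) → K) {r : K} (hr : r ≠ 0) (h : Good v τ j0 γ) :
    Good v τ j0 (fun i => r * γ i) := by
  obtain ⟨w, i, h⟩ := h
  refine ⟨fun S => r * w S, i, ?_⟩
  have h1 : SS τ j0 (r * γ 0) (r * γ (iM n)) (r * γ (iM1 n)) - Q τ (fun S => r * w S)
      = r ^ 2 * (SS τ j0 (γ 0) (γ (iM n)) (γ (iM1 n)) - Q τ w) := by
    rw [Q_smul]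
    unfold SS
    ring
  rw [h1, map_mul, map_mul, map_pow, mul_pow]
  exact mul_lt_mul_of_pos_left h (pow_pos (v.pos hr) 2)

theorem Good_smul (v : AbsoluteValue K ℝ) (τ : Fin n → K) (j0 : Fin n)
    (γ : Fin (n + 2 + n + 1 + 1) → K) {r : K} (hr : r ≠ 0) :
    Good v τ j0 (fun i => r * γ i) ↔ Good v τ j0 γ := by
  constructor
  · intro h
    have h1 := Good_smul_aux v τ j0 _ (inv_ne_zero hr) h
    have h2 : (fun i => r⁻¹ * (r * γ i)) = γ := by
      funext i
      rw [inv_mul_cancel_left₀ hr]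
    rwa [h2] at h1
  · exact Good_smul_aux v τ j0 γ hr

end Good

section Step

variable {K : Type u} [Field K] (v : AbsoluteValue K ℝ) (hna : IsNonarchimedean v)
  {O : Subring K} {E : Type u} [Field E] (res : O →+* E) (hO : ∀ x, x ∈ O ↔ v x ≤ 1)
  (hres : ∀ x : O, res x = 0 ↔ v (x : K) < 1) (hsurj : Function.Surjective res) {n : ℕ}
  (τ : Fin n → O) (hτ : ∀ i, v (τ i : K) = 1) (hSA : SA v (pf (fun i => (τ i : K))))

theorem Q_coe (w : (Fin n → Bool) → O) :
    ((Q τ w : O) : K) = Q (fun i => (τ i : K)) (fun S => (w S : K)) :=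
  Q_map O.subtype τ w

include hτ in
theorem v_pf (S : Fin n → Bool) : v (pf (fun i => (τ i : K)) S) = 1 := by
  unfold pf
  rw [map_prod]
  refine Finset.prod_eq_one fun i _ => ?_
  split_ifs
  · exact hτ i
  · exact map_one v

include hres hsurj hτ hSA in
theorem aniso_res : Aniso (fun i => res (τ i)) := by
  intro w' hw'
  choose w hw using fun S => hsurj (w' S)
  have h1 : res (Q τ w) = 0 := by
    rw [Q_map]
    simp only [hw]
    exact hw'
  rw [hres, Q_coe] at h1
  funext S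
  have h2 := hSA (fun S => (w S : K)) S
  rw [v_pf v τ hτ, one_mul] at h2
  have h3 : v (w S : K) ^ 2 < 1 := h2.trans_lt h1
  have h4 : v (w S : K) < 1 := by
    by_contra h5
    push Not at h5
    exact absurd h3 (not_lt.mpr (one_le_pow₀ h5))
  rw [← hw]
  exact (hres _).mpr h4

theorem SS_coe (j0 : Fin n) (a b c : O) :
    ((SS τ j0 a b c : O) : K) = SS (fun i => (τ i : K)) j0 (a : K) (b : K) (c : K) := by
  simp [SS]

include hna hres hO hsurj hτ hSA in
theorem Good_iff (j0 : Fin n) (u : Fin (n + 2 + n + 1 + 1) → O) (hu : ∃ i, v (u i : K) = 1) :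
    Good v (fun i => (τ i : K)) j0 (fun i => (u i : K)) ↔
      Rep (fun i => res (τ i)) (SS (fun i => res (τ i)) j0 (res (u 0)) (res (u (iM n)))
        (res (u (iM1 n)))) := by
  have hSSres : SS (fun i => res (τ i)) j0 (res (u 0)) (res (u (iM n))) (res (u (iM1 n)))
      = res (SS τ j0 (u 0) (u (iM n)) (u (iM1 n))) := by
    simp [SS]
  rw [hSSres]
  have hu1 : ∀ i, v (u i : K) ≤ 1 := fun i => (hO _).mp (u i).2
  constructor
  · rintro ⟨w, i, h⟩
    have h1 : v (SS (fun i => (τ i : K)) j0 (u 0 : K) (u (iM n)) (u (iM1 n))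
        - Q (fun i => (τ i : K)) w) < 1 :=
      h.trans_le (pow_le_one₀ (v.nonneg _) (hu1 i))
    have h2 : v (Q (fun i => (τ i : K)) w) ≤ 1 := by
      have h3 : Q (fun i => (τ i : K)) w = ((SS τ j0 (u 0) (u (iM n)) (u (iM1 n)) : O) : K)
          + -(SS (fun i => (τ i : K)) j0 (u 0 : K) (u (iM n)) (u (iM1 n))
            - Q (fun i => (τ i : K)) w) := by
        rw [SS_coe]
        ring
      rw [h3]
      refine (hna _ _).trans (max_le ((hO _).mp (Subtype.mem _)) ?_)
      rw [AbsoluteValue.map_neg]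
      exact h1.le
    have h4 : ∀ S, w S ∈ O := by
      intro S
      rw [hO]
      have h5 := hSA w S
      rw [v_pf v τ hτ, one_mul] at h5
      have h6 : v (w S) ^ 2 ≤ 1 := h5.trans h2
      by_contra h7
      push Not at h7
      exact absurd h6 (not_le.mpr (one_lt_pow₀ h7 two_ne_zero))
    refine ⟨fun S => res ⟨w S, h4 S⟩, ?_⟩
    rw [← Q_map, ← sub_eq_zero, ← map_sub, hres]
    rw [← AbsoluteValue.map_neg] at h1
    refine lt_of_eq_of_lt ?_ h1
    congr 1
    rw [AddSubgroupClass.coe_sub, Q_coe, SS_coe]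
    ring
  · rintro ⟨w', hw'⟩
    obtain ⟨i, hi⟩ := hu
    choose w hw using fun S => hsurj (w' S)
    refine ⟨fun S => (w S : K), i, ?_⟩
    rw [hi, one_pow, ← SS_coe, ← Q_coe, ← AddSubgroupClass.coe_sub, ← hres, map_sub, Q_map, ← hw', sub_eq_zero]
    simp only [hw]

theorem F0_smul {R : Type*} [CommRing R] {n : ℕ} (s : Fin n → R) (j0 : Fin n)
    (r x0 M M1 y0 : R) (y : Fin n → R) :
    F0 s j0 (r * x0) (r * M) (r * M1) (r * y0) (fun j => r * y j) = r ^ 3 * F0 s j0 x0 M M1 y0 y := by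
  have h1 : ∑ j, s j * (r * x0) * (r * y j) ^ 2 = r ^ 3 * ∑ j, s j * x0 * y j ^ 2 := by
    rw [Finset.mul_sum]
    refine Finset.sum_congr rfl fun j _ => ?_
    ring
  unfold F0 SS
  rw [h1]
  ring

include hna hres hO hsurj hτ hSA in
/-- One step of the comparison, for curves with integral coefficients. -/
theorem step_integral (h3 : v (3 : K) < 1) (j0 : Fin n) (γ : Fin (n + 2 + n + 1 + 1) → O[X])
    {i j : ℕ} (hij : i ≤ j) (hlow : ∀ l k, k < i → v ((γ l).coeff k : K) < 1)
    (hhigh : ∀ l k, j < k → v ((γ l).coeff k : K) < 1)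
    (hi : ∃ l, v ((γ l).coeff i : K) = 1) (hj : ∃ l, v ((γ l).coeff j : K) = 1)
    (hbase : ∀ j, γ (iX j) = C (τ j) * γ 0)
    (hF : ∀ k, v ((MvPolynomial.eval₂ (Int.castRingHom O[X]) γ (Fh j0)).coeff k : K) < 1) :
    Good v (fun i => (τ i : K)) j0 (fun l => ((γ l).coeff i : K)) ↔
      Good v (fun i => (τ i : K)) j0 (fun l => ((γ l).coeff j : K)) := by
  have ht := aniso_res v res hres hsurj τ hτ hSA
  have ht0 : (fun i => res (τ i)) j0 ≠ 0 := by
    simp only [Ne, hres, hτ]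
    exact lt_irrefl _
  rw [Good_iff v hna res hO hres hsurj τ hτ hSA j0 (fun l => (γ l).coeff i) hi,
    Good_iff v hna res hO hres hsurj τ hτ hSA j0 (fun l => (γ l).coeff j) hj]
  have hdvd : ∀ l, X ^ i ∣ (γ l).map res := by
    intro l
    rw [X_pow_dvd_iff]
    intro k hk
    rw [coeff_map, hres]
    exact hlow l k hk
  choose δ hδ using hdvd
  have hδc : ∀ l k, (δ l).coeff k = res ((γ l).coeff (k + i)) := by
    intro l k
    have h1 : (X ^ i * δ l).coeff (k + i) = (δ l).coeff k := by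
      rw [mul_comm, coeff_mul_X_pow]
    rw [← h1, ← hδ, coeff_map]
  have hδd : ∀ l, (δ l).natDegree ≤ j - i := by
    intro l
    rw [natDegree_le_iff_coeff_eq_zero]
    intro k hk
    rw [hδc, hres]
    exact hhigh l _ (by omega)
  have h3E : (3 : E[X]) = 0 := by
    have h4 : res 3 = 0 := by
      rw [hres]
      exact h3
    rw [map_ofNat] at h4
    have h5 : (3 : E[X]) = C 3 := (map_ofNat C 3).symm
    rw [h5, h4, C_0]
  have hbase' : ∀ j, (γ (iX j)).map res = C (res (τ j)) * (γ 0).map res := by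
    intro j
    rw [hbase, Polynomial.map_mul, map_C]
  have hFE : F0 (fun i => C (res (τ i))) j0 (δ 0) (δ (iM n)) (δ (iM1 n)) (δ (iY0 n))
      (fun j => δ (iy j)) = 0 := by
    have h4 : MvPolynomial.eval₂ (Int.castRingHom E[X]) (fun l => (γ l).map res) (Fh j0) = 0 := by
      have h5 : MvPolynomial.eval₂ (Int.castRingHom E[X]) (fun l => (γ l).map res) (Fh j0)
          = (mapRingHom res) (MvPolynomial.eval₂ (Int.castRingHom O[X]) γ (Fh j0)) := by
        rw [MvPolynomial.hom_eval₂]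
        congr 1
        exact Subsingleton.elim _ _
      rw [h5]
      ext k
      rw [coe_mapRingHom, coeff_map, coeff_zero, hres]
      exact hF k
    rw [eval_Fh j0 (fun i => C (res (τ i))) (fun l => (γ l).map res) hbase', h3E, zero_mul,
      add_zero] at h4
    have h6 : (fun j => (γ (iy j)).map res) = fun j => X ^ i * δ (iy j) := by
      funext j
      exact hδ _
    rw [h6, hδ, hδ, hδ, hδ, F0_smul] at h4
    exact (mul_eq_zero.mp h4).resolve_left (pow_ne_zero _ (pow_ne_zero _ X_ne_zero))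
  have hne : ∀ k, (∃ l, v ((γ l).coeff (k + i) : K) = 1) →
      ¬ ((δ 0).coeff k = 0 ∧ (δ (iM n)).coeff k = 0 ∧ (δ (iM1 n)).coeff k = 0 ∧
        (δ (iY0 n)).coeff k = 0 ∧ ∀ j, (δ (iy j)).coeff k = 0) := by
    rintro k ⟨l, hl⟩ ⟨h0, hM, hM1, hY0, hy⟩
    have hall : ∀ l, res ((γ l).coeff (k + i)) = 0 := by
      refine forall_index ?_ ?_ ?_ ?_ ?_ ?_
      · rw [← hδc, h0]
      · rw [← hδc, hY0]
      · rw [← hδc, hM]
      · rw [← hδc, hM1]
      · intro j
        rw [← hδc, hy]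
      · intro j
        rw [hbase, coeff_C_mul, map_mul, ← hδc, h0, mul_zero]
    have h4 := hall l
    rw [hres, hl] at h4
    exact lt_irrefl _ h4
  have key := ends ht ht0 (hδd 0) (hδd (iM n)) (hδd (iM1 n)) (hδd (iY0 n)) (fun j => hδd (iy j))
    hFE (hne 0 (by simpa using hi)) (hne (j - i) (by rw [Nat.sub_add_cancel hij]; exact hj))
  simp only [hδc, zero_add, Nat.sub_add_cancel hij] at key
  exact key

end Step

section Scale

theorem eval₂_scale {A B σ : Type*} [CommRing A] [CommRing B] [Fintype σ] (f : A →+* B) (r : B)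
    (g : σ → B) {m : ℕ} (φ : MvPolynomial σ A) (hφ : φ.IsHomogeneous m) :
    MvPolynomial.eval₂ f (fun l => r * g l) φ = r ^ m * MvPolynomial.eval₂ f g φ := by
  rw [MvPolynomial.eval₂_eq', MvPolynomial.eval₂_eq', Finset.mul_sum]
  refine Finset.sum_congr rfl fun d hd => ?_
  have h2 : ∑ j, d j = m := by
    have h3 := hφ (MvPolynomial.mem_support_iff.mp hd)
    rw [← h3, Finsupp.weight_apply, Finsupp.sum_fintype _ _ (by intro i; simp)]
    simp
  simp only [mul_pow, Finset.prod_mul_distrib, Finset.prod_pow_eq_pow_sum, h2]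
  ring

/-- Bound for the value of a form with small coefficients. -/
theorem form_bound {𝓕 R : Type*} [NormedField 𝓕] [CommRing R] [IsDomain R] (v : AbsoluteValue R ℝ)
    (hna : IsNonarchimedean v) (κ : 𝓕 →+* R) (hκ : ∀ a, v (κ a) = ‖a‖) {m : ℕ}
    (H : MvPolynomial (Fin m) 𝓕) (hH : H.IsHomogeneous 3) {ε : ℝ} (hε : 0 ≤ ε)
    (hc : ∀ d, ‖H.coeff d‖ ≤ ε) (γ : Fin m → R) {B : ℝ} (hB0 : 0 ≤ B) (hB : ∀ j, v (γ j) ≤ B) :
    v (MvPolynomial.eval₂ κ γ H) ≤ ε * B ^ 3 := by
  rw [MvPolynomial.eval₂_eq']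
  apply na_sum_le v hna _ _ _ (by positivity)
  intro d hd
  rw [map_mul, hκ, map_prod]
  have h1 : ∏ j, v (γ j ^ d j) ≤ B ^ 3 := by
    have h2 : ∑ j, d j = 3 := by
      have h3 := hH (MvPolynomial.mem_support_iff.mp hd)
      rw [← h3, Finsupp.weight_apply, Finsupp.sum_fintype _ _ (by intro i; simp)]
      simp
    calc ∏ j, v (γ j ^ d j) ≤ ∏ j, B ^ d j := by
          refine Finset.prod_le_prod (fun j _ => v.nonneg _) fun j _ => ?_
          rw [map_pow]
          exact pow_le_pow_left₀ (v.nonneg _) (hB j) _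
      _ = B ^ 3 := by rw [Finset.prod_pow_eq_pow_sum, h2]
  exact mul_le_mul (hc d) h1 (Finset.prod_nonneg fun j _ => v.nonneg _) hε

variable {𝓕 : Type*} [NormedField 𝓕] {K : Type u} [Field K] (v : AbsoluteValue K ℝ)
  (hna : IsNonarchimedean v) (κ : 𝓕 →+* K) (hκ : ∀ a, v (κ a) = ‖a‖) (h3 : ‖(3 : 𝓕)‖ < 1)
  {n : ℕ} (τ : Fin n → K) (hτ : ∀ i, v (τ i) = 1) (hSA : SA v (pf τ)) (j0 : Fin n)
  (F' : MvPolynomial (Fin (n + 2 + n + 1 + 1)) 𝓕) (hF' : F'.IsHomogeneous 3)
  (hFc : ∀ d, ‖F'.coeff d - (((Fh j0).coeff d : ℤ) : 𝓕)‖ ≤ 1 / 9)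
  (γ : Fin (n + 2 + n + 1 + 1) → K[X]) (hsol : MvPolynomial.eval₂ (C.comp κ) γ F' = 0)
  (hbase : ∀ i, γ (iX i) = C (τ i) * γ 0)

include hna hκ hF' hFc in
/-- The integral form is small on solutions of the perturbed equation. -/
theorem Fh_small (γ : Fin (n + 2 + n + 1 + 1) → K[X])
    (hsol : MvPolynomial.eval₂ (C.comp κ) γ F' = 0) (hγ : ∀ l k, v ((γ l).coeff k) ≤ 1) (k : ℕ) :
    v ((MvPolynomial.eval₂ (Int.castRingHom K[X]) γ (Fh j0)).coeff k) < 1 := by
  set FZ : MvPolynomial (Fin (n + 2 + n + 1 + 1)) 𝓕 :=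
    MvPolynomial.map (Int.castRingHom 𝓕) (Fh j0) with hFZ
  have hH : (F' - FZ).IsHomogeneous 3 := hF'.sub ((Fh_homogeneous j0).map _)
  have hHc : ∀ d, ‖(F' - FZ).coeff d‖ ≤ 1 / 9 := by
    intro d
    rw [MvPolynomial.coeff_sub, hFZ, MvPolynomial.coeff_map]
    exact hFc d
  have hb := form_bound (gaussAbs v hna 1 one_pos) (gaussAbs_nonarch v hna 1 one_pos)
    (C.comp κ) (fun a => by
      rw [RingHom.comp_apply, gaussAbs_apply, gaussNorm_C]
      exact hκ a) (F' - FZ) hH (by norm_num : (0 : ℝ) ≤ 1 / 9) hHc γ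
      (B := 1) zero_le_one (by
        intro j
        rw [gaussAbs_apply]
        obtain ⟨k, hk⟩ := exists_eq_gaussNorm v 1 (γ j)
        rw [hk, one_pow, mul_one]
        exact hγ j k)
  have h1 : MvPolynomial.eval₂ (Int.castRingHom K[X]) γ (Fh j0)
      = - MvPolynomial.eval₂ (C.comp κ) γ (F' - FZ) := by
    rw [MvPolynomial.eval₂_sub, hsol, zero_sub, neg_neg, hFZ, MvPolynomial.eval₂_map]
    congr 1
    exact Subsingleton.elim _ _
  rw [h1, coeff_neg, AbsoluteValue.map_neg]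
  have h5 := le_gaussNorm v (MvPolynomial.eval₂ (C.comp κ) γ (F' - FZ)) zero_le_one k
  rw [one_pow, mul_one] at h5
  rw [gaussAbs_apply, one_pow, mul_one] at hb
  linarith

/-- Size of the `k`-th coefficient vector. -/
noncomputable def szc (γ : Fin (n + 2 + n + 1 + 1) → K[X]) (k : ℕ) : ℝ :=
  (Finset.univ : Finset (Fin (n + 2 + n + 1 + 1))).sup' ⟨0, Finset.mem_univ _⟩
    (fun l => v ((γ l).coeff k))

theorem le_szc (γ : Fin (n + 2 + n + 1 + 1) → K[X]) (k : ℕ) (l : Fin (n + 2 + n + 1 + 1)) :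
    v ((γ l).coeff k) ≤ szc v γ k :=
  Finset.le_sup' (fun l => v ((γ l).coeff k)) (Finset.mem_univ l)

theorem exists_szc (γ : Fin (n + 2 + n + 1 + 1) → K[X]) (k : ℕ) :
    ∃ l, v ((γ l).coeff k) = szc v γ k := by
  obtain ⟨l, -, hl⟩ := Finset.exists_mem_eq_sup'
    (s := (Finset.univ : Finset (Fin (n + 2 + n + 1 + 1)))) ⟨0, Finset.mem_univ _⟩
    (fun l => v ((γ l).coeff k))
  exact ⟨l, hl.symm⟩

theorem szc_nonneg (γ : Fin (n + 2 + n + 1 + 1) → K[X]) (k : ℕ) : 0 ≤ szc v γ k :=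
  (v.nonneg _).trans (le_szc v γ k 0)

include hna hκ h3 hτ hSA hF' hFc hsol hbase in
/-- One step of the comparison. -/
theorem step (c : K) (hc : c ≠ 0) {i j : ℕ} (hij : i ≤ j) (hi : 0 < szc v γ i)
    (hlow : ∀ k, k < i → szc v γ k < szc v γ i * v c ^ (i - k))
    (hmid : ∀ k, i < k → szc v γ k * v c ^ (k - i) ≤ szc v γ i)
    (hj : szc v γ j * v c ^ (j - i) = szc v γ i)
    (hhigh : ∀ k, j < k → szc v γ k * v c ^ (k - i) < szc v γ i) :
    Good v τ j0 (fun l => (γ l).coeff i) ↔ Good v τ j0 (fun l => (γ l).coeff j) := by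
  obtain ⟨O, E, instE, res, hO, hres, hsurj⟩ := exists_residue v hna
  obtain ⟨l0, hl0⟩ := exists_szc v γ i
  set a : K := (γ l0).coeff i with ha
  set N := szc v γ i with hN
  set ρ := v c with hρ
  have hρ0 : 0 < ρ := v.pos hc
  have ha0 : a ≠ 0 := by
    intro h
    rw [h, map_zero] at hl0
    exact hi.ne hl0
  set r : K := a⁻¹ * (c ^ i)⁻¹ with hr
  have hr0 : r ≠ 0 := mul_ne_zero (inv_ne_zero ha0) (inv_ne_zero (pow_ne_zero _ hc))
  have hvr : v r = N⁻¹ * (ρ ^ i)⁻¹ := by
    rw [hr, map_mul, map_inv₀, map_inv₀, map_pow, hl0]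
  set g : Fin (n + 2 + n + 1 + 1) → K[X] := fun l => C r * (γ l).comp (C c * X) with hg
  have hgc : ∀ l k, (g l).coeff k = r * c ^ k * (γ l).coeff k := by
    intro l k
    rw [hg, coeff_C_mul, comp_C_mul_X_coeff]
    ring
  have hgv : ∀ l k, v ((g l).coeff k) = N⁻¹ * (ρ ^ i)⁻¹ * ρ ^ k * v ((γ l).coeff k) := by
    intro l k
    rw [hgc, map_mul, map_mul, hvr, map_pow]
  have hNρ : 0 < N * ρ ^ i := mul_pos hi (pow_pos hρ0 i)
  have hle1 : ∀ x : ℝ, ∀ k, x * ρ ^ k ≤ N * ρ ^ i → N⁻¹ * (ρ ^ i)⁻¹ * ρ ^ k * x ≤ 1 := by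
    intro x k hx
    have h1 : N⁻¹ * (ρ ^ i)⁻¹ * ρ ^ k * x = (x * ρ ^ k) / (N * ρ ^ i) := by
      rw [div_eq_mul_inv, mul_inv]
      ring
    rw [h1, div_le_one hNρ]
    exact hx
  have hlt1 : ∀ x : ℝ, ∀ k, x * ρ ^ k < N * ρ ^ i → N⁻¹ * (ρ ^ i)⁻¹ * ρ ^ k * x < 1 := by
    intro x k hx
    have h1 : N⁻¹ * (ρ ^ i)⁻¹ * ρ ^ k * x = (x * ρ ^ k) / (N * ρ ^ i) := by
      rw [div_eq_mul_inv, mul_inv]
      ring
    rw [h1, div_lt_one hNρ]
    exact hx
  have heq1 : ∀ x : ℝ, ∀ k, x * ρ ^ k = N * ρ ^ i → N⁻¹ * (ρ ^ i)⁻¹ * ρ ^ k * x = 1 := by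
    intro x k hx
    have h1 : N⁻¹ * (ρ ^ i)⁻¹ * ρ ^ k * x = (x * ρ ^ k) / (N * ρ ^ i) := by
      rw [div_eq_mul_inv, mul_inv]
      ring
    rw [h1, hx, div_self hNρ.ne']
  have hlow' : ∀ k, k < i → szc v γ k * ρ ^ k < N * ρ ^ i := by
    intro k hk
    have h1 := mul_lt_mul_of_pos_right (hlow k hk) (pow_pos hρ0 k)
    rw [mul_assoc, ← pow_add, Nat.sub_add_cancel hk.le] at h1
    exact h1
  have hpow : ∀ k, i ≤ k → ∀ x : ℝ, x * ρ ^ k = (x * ρ ^ (k - i)) * ρ ^ i := by
    intro k hk x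
    rw [mul_assoc, ← pow_add, Nat.sub_add_cancel hk]
  have hmid' : ∀ k, szc v γ k * ρ ^ k ≤ N * ρ ^ i := by
    intro k
    rcases lt_trichotomy k i with h | h | h
    · exact (hlow' k h).le
    · rw [h]
    · rw [hpow k h.le]
      exact mul_le_mul_of_nonneg_right (hmid k h) (pow_nonneg hρ0.le _)
  have hj' : szc v γ j * ρ ^ j = N * ρ ^ i := by
    rw [hpow j hij, hj]
  have hhigh' : ∀ k, j < k → szc v γ k * ρ ^ k < N * ρ ^ i := by
    intro k hk
    rw [hpow k (hij.trans hk.le)]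
    exact mul_lt_mul_of_pos_right (hhigh k hk) (pow_pos hρ0 i)
  have hle : ∀ l k, v ((γ l).coeff k) * ρ ^ k ≤ szc v γ k * ρ ^ k := fun l k =>
    mul_le_mul_of_nonneg_right (le_szc v γ k l) (pow_nonneg hρ0.le _)
  have hg1 : ∀ l k, v ((g l).coeff k) ≤ 1 := by
    intro l k
    rw [hgv]
    exact hle1 _ _ ((hle l k).trans (hmid' k))
  -- lift to the valuation ring
  have hlift : ∀ l, ∃ p : O[X], p.map O.subtype = g l := by
    intro l
    rw [← mem_lifts, lifts_iff_coeff_lifts]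
    intro k
    exact ⟨⟨(g l).coeff k, (hO _).mpr (hg1 l k)⟩, rfl⟩
  choose G hG using hlift
  have hGc : ∀ l k, ((G l).coeff k : K) = (g l).coeff k := by
    intro l k
    rw [← hG, coeff_map]
    rfl
  have hsolg : MvPolynomial.eval₂ (C.comp κ) g F' = 0 := by
    rw [hg, eval₂_scale _ _ _ _ hF']
    have h5 := congrArg (Polynomial.compRingHom (C c * X : K[X])) hsol
    rw [map_zero, MvPolynomial.hom_eval₂] at h5
    have h6 : (Polynomial.compRingHom (C c * X : K[X])).comp (C.comp κ) = C.comp κ := by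
      apply RingHom.ext
      intro x
      simp
    rw [h6] at h5
    have h7 : MvPolynomial.eval₂ (C.comp κ) (fun l => (γ l).comp (C c * X)) F' = 0 := h5
    rw [h7, mul_zero]
  have hsmall := Fh_small v hna κ hκ j0 F' hF' hFc g hsolg hg1
  set τ' : Fin n → O := fun i => ⟨τ i, (hO _).mpr (hτ i).le⟩ with hτ'
  have hv3 : v (3 : K) < 1 := by
    have h5 := hκ 3
    rw [map_ofNat] at h5
    rw [h5]
    exact h3
  have key := step_integral v hna res hO hres hsurj τ' hτ hSA hv3 j0 G hij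
    (fun l k hk => by
      rw [hGc, hgv]
      exact hlt1 _ _ ((hle l k).trans_lt (hlow' k hk)))
    (fun l k hk => by
      rw [hGc, hgv]
      exact hlt1 _ _ ((hle l k).trans_lt (hhigh' k hk)))
    (by
      refine ⟨l0, ?_⟩
      rw [hGc, hgv]
      refine heq1 _ _ ?_
      rw [← ha, hl0])
    (by
      obtain ⟨l1, hl1⟩ := exists_szc v γ j
      refine ⟨l1, ?_⟩
      rw [hGc, hgv]
      refine heq1 _ _ ?_
      rw [hl1, hj'])
    (by
      intro j
      apply Polynomial.map_injective O.subtype Subtype.coe_injective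
      rw [hG, Polynomial.map_mul, hG, map_C, hg]
      simp only
      rw [hbase, mul_comp, C_comp]
      change C r * (C (τ j) * _) = C (τ j) * _
      ring)
    (by
      intro k
      have h5 : ((mapRingHom O.subtype) (MvPolynomial.eval₂ (Int.castRingHom O[X]) G (Fh j0)))
          = MvPolynomial.eval₂ (Int.castRingHom K[X]) g (Fh j0) := by
        rw [MvPolynomial.hom_eval₂]
        have h6 : (fun l => (mapRingHom O.subtype) (G l)) = g := funext hG
        rw [h6]
        congr 1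
        exact Subsingleton.elim _ _
      have h7 := hsmall k
      rw [← h5, coe_mapRingHom, coeff_map] at h7
      exact h7)
  have hGi : ∀ k, (fun l => ((G l).coeff k : K)) = fun l => (r * c ^ k) * (γ l).coeff k := by
    intro k
    funext l
    rw [hGc, hgc]
  rw [hGi, hGi, Good_smul v _ j0 _ (mul_ne_zero hr0 (pow_ne_zero _ hc)),
    Good_smul v _ j0 _ (mul_ne_zero hr0 (pow_ne_zero _ hc))] at key
  exact key

include hna hκ h3 hτ hSA hF' hFc hsol hbase in
/-- The chain of comparisons along the Newton polygon. -/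
theorem chain (hVG : ∀ x : K, x ≠ 0 → ∀ m : ℕ, 0 < m → ∃ c : K, v c ^ m = v x) {D : ℕ}
    (hD : ∀ k, D < k → szc v γ k = 0) (hD0 : 0 < szc v γ D) :
    ∀ (e i : ℕ), D = i + e → 0 < szc v γ i →
      (∃ ρ : ℝ, 0 ≤ ρ ∧ (∀ k, k < i → szc v γ k ≤ szc v γ i * ρ ^ (i - k)) ∧
        ∀ k, i < k → szc v γ k * ρ ^ (k - i) < szc v γ i) →
      (Good v τ j0 (fun l => (γ l).coeff i) ↔ Good v τ j0 (fun l => (γ l).coeff D)) := by
  classical
  intro e
  induction e using Nat.strong_induction_on with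
  | _ e ih =>
  intro i hDi hi hpoly
  obtain ⟨ρ, hρ0, hlow, hhigh⟩ := hpoly
  rcases Nat.eq_zero_or_pos e with he | he
  · have hDi' : D = i := by omega
    rw [hDi']
  -- candidates for the next vertex
  set A : Finset ℕ := (Finset.Ioc i D).filter (fun k => 0 < szc v γ k) with hA
  have hAD : D ∈ A := by
    rw [hA, Finset.mem_filter, Finset.mem_Ioc]
    exact ⟨⟨by omega, le_refl _⟩, hD0⟩
  have hAmem : ∀ k, k ∈ A ↔ (i < k ∧ k ≤ D) ∧ 0 < szc v γ k := by
    intro k
    rw [hA, Finset.mem_filter, Finset.mem_Ioc]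
  have hex : ∀ k, ∃ c : K, k ∈ A → v c ^ (k - i) = szc v γ i / szc v γ k := by
    intro k
    by_cases hk : k ∈ A
    · obtain ⟨⟨hk1, -⟩, hk2⟩ := (hAmem k).mp hk
      obtain ⟨l1, hl1⟩ := exists_szc v γ i
      obtain ⟨l2, hl2⟩ := exists_szc v γ k
      have h1 : (γ l1).coeff i ≠ 0 := by
        intro h
        rw [h, map_zero] at hl1
        exact hi.ne hl1
      have h2 : (γ l2).coeff k ≠ 0 := by
        intro h
        rw [h, map_zero] at hl2
        exact hk2.ne hl2
      obtain ⟨c, hc⟩ := hVG ((γ l1).coeff i / (γ l2).coeff k) (div_ne_zero h1 h2) (k - i) (by omega)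
      refine ⟨c, fun _ => ?_⟩
      rw [hc, map_div₀, hl1, hl2]
    · exact ⟨0, fun h => absurd h hk⟩
  choose c hc using hex
  obtain ⟨ks, hksA, hksmin⟩ := Finset.exists_min_image A (fun k => v (c k)) ⟨D, hAD⟩
  obtain ⟨⟨hks1, hks2⟩, hks3⟩ := (hAmem ks).mp hksA
  set ρ' := v (c ks) with hρ'
  have hρ'0 : 0 ≤ ρ' := v.nonneg _
  have hcks := hc ks hksA
  have hρ'pos : 0 < ρ' := by
    rcases hρ'0.eq_or_lt with h | h
    · exfalso
      rw [← hρ', ← h, zero_pow (by omega)] at hcks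
      exact (div_pos hi hks3).ne hcks
    · exact h
  have hcks0 : c ks ≠ 0 := by
    intro h
    rw [hρ', h, map_zero] at hρ'pos
    exact lt_irrefl _ hρ'pos
  have hkseq : szc v γ ks * ρ' ^ (ks - i) = szc v γ i := by
    rw [hρ', hcks, mul_div_cancel₀ _ hks3.ne']
  have hρρ' : ρ < ρ' := by
    have h1 := hhigh ks hks1
    rw [← hkseq] at h1
    have h2 := lt_of_mul_lt_mul_left h1 hks3.le
    exact lt_of_pow_lt_pow_left₀ _ hρ'0 h2
  have hlow' : ∀ k, k < i → szc v γ k < szc v γ i * ρ' ^ (i - k) := by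
    intro k hk
    refine (hlow k hk).trans_lt ?_
    exact mul_lt_mul_of_pos_left (pow_lt_pow_left₀ hρρ' hρ0 (by omega)) hi
  have hmid' : ∀ k, i < k → szc v γ k * ρ' ^ (k - i) ≤ szc v γ i := by
    intro k hk
    by_cases hkA : k ∈ A
    · obtain ⟨⟨hk1, hk2⟩, hk3⟩ := (hAmem k).mp hkA
      have h1 : ρ' ^ (k - i) ≤ v (c k) ^ (k - i) := pow_le_pow_left₀ hρ'0 (hksmin k hkA) _
      rw [hc k hkA] at h1
      rw [mul_comm]
      exact (le_div_iff₀ hk3).mp h1
    · have h1 : szc v γ k = 0 := by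
        by_contra h2
        have h3' : 0 < szc v γ k := lt_of_le_of_ne (szc_nonneg v γ k) (Ne.symm h2)
        by_cases hkD : k ≤ D
        · exact hkA ((hAmem k).mpr ⟨⟨hk, hkD⟩, h3'⟩)
        · exact h2 (hD k (by omega))
      rw [h1, zero_mul]
      exact hi.le
  -- the next vertex
  set B : Finset ℕ := A.filter (fun k => szc v γ k * ρ' ^ (k - i) = szc v γ i) with hB
  have hksB : ks ∈ B := Finset.mem_filter.mpr ⟨hksA, hkseq⟩
  set j := B.max' ⟨ks, hksB⟩ with hj
  have hjB : j ∈ B := B.max'_mem _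
  obtain ⟨hjA, hjeq⟩ := Finset.mem_filter.mp hjB
  obtain ⟨⟨hj1, hj2⟩, hj3⟩ := (hAmem j).mp hjA
  have hhigh' : ∀ k, j < k → szc v γ k * ρ' ^ (k - i) < szc v γ i := by
    intro k hk
    refine lt_of_le_of_ne (hmid' k (by omega)) ?_
    intro heq
    by_cases hkA : k ∈ A
    · have h1 : k ∈ B := Finset.mem_filter.mpr ⟨hkA, heq⟩
      exact absurd (B.le_max' k h1) (not_le.mpr hk)
    · have h1 : szc v γ k = 0 := by
        by_contra h2
        have h3' : 0 < szc v γ k := lt_of_le_of_ne (szc_nonneg v γ k) (Ne.symm h2)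
        by_cases hkD : k ≤ D
        · exact hkA ((hAmem k).mpr ⟨⟨by omega, hkD⟩, h3'⟩)
        · exact h2 (hD k (by omega))
      rw [h1, zero_mul] at heq
      exact hi.ne heq
  rw [step v hna κ hκ h3 τ hτ hSA j0 F' hF' hFc γ hsol hbase (c ks) hcks0 hj1.le hi hlow' hmid'
    hjeq hhigh']
  refine ih (D - j) (by omega) j (by omega) hj3 ⟨ρ', hρ'0, ?_, ?_⟩
  · intro k hk
    rcases lt_trichotomy k i with h | h | h
    · refine (hlow' k h).le.trans (le_of_eq ?_)
      rw [← hjeq, mul_assoc, ← pow_add]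
      congr 2
      omega
    · rw [h, hjeq]
    · have h1 := hmid' k h
      rw [← hjeq] at h1
      have h2 : ρ' ^ (j - i) = ρ' ^ (j - k) * ρ' ^ (k - i) := by
        rw [← pow_add]
        congr 1
        omega
      rw [h2, ← mul_assoc] at h1
      exact le_of_mul_le_mul_right h1 (pow_pos hρ'pos _)
  · intro k hk
    have h1 := hhigh' k hk
    rw [← hjeq] at h1
    have h2 : ρ' ^ (k - i) = ρ' ^ (k - j) * ρ' ^ (j - i) := by
      rw [← pow_add]
      congr 1
      omega
    rw [h2, ← mul_assoc] at h1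
    exact lt_of_mul_lt_mul_right h1 (pow_nonneg hρ'0 _)

include hna hκ h3 hτ hSA hF' hFc hsol hbase in
/-- Comparison of the point at `0` and the point at infinity. -/
theorem zero_iff_top (hVG : ∀ x : K, x ≠ 0 → ∀ m : ℕ, 0 < m → ∃ c : K, v c ^ m = v x) {D : ℕ}
    (hD : ∀ l, (γ l).natDegree ≤ D) (hD0 : ∃ l, (γ l).coeff D ≠ 0)
    (h00 : ∃ l, (γ l).coeff 0 ≠ 0) :
    Good v τ j0 (fun l => (γ l).coeff 0) ↔ Good v τ j0 (fun l => (γ l).coeff D) := by
  have hpos : ∀ k, (∃ l, (γ l).coeff k ≠ 0) → 0 < szc v γ k := by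
    rintro k ⟨l, hl⟩
    exact (v.pos hl).trans_le (le_szc v γ k l)
  refine chain v hna κ hκ h3 τ hτ hSA j0 F' hF' hFc γ hsol hbase hVG (D := D) ?_ (hpos D hD0) D 0
    (by omega) (hpos 0 h00) ⟨0, le_refl _, ?_, ?_⟩
  · intro k hk
    obtain ⟨l, hl⟩ := exists_szc v γ k
    rw [← hl, coeff_eq_zero_of_natDegree_lt ((hD l).trans_lt hk), map_zero]
  · intro k hk
    omega
  · intro k hk
    rw [zero_pow (by omega), mul_zero]
    exact hpos 0 h00

theorem coeff_comp_top {p : K[X]} {D : ℕ} (hp : p.natDegree ≤ D) :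
    (p.comp (X + 1)).coeff D = p.coeff D := by
  have hX : (X + 1 : K[X]).natDegree = 1 := by
    rw [← C_1]
    exact natDegree_X_add_C 1
  have h1 : (p.comp (X + 1)).natDegree = p.natDegree := by
    rw [natDegree_comp, hX, mul_one]
  rcases hp.eq_or_lt with h | h
  · rw [← h]
    have h2 : (p.comp (X + 1)).leadingCoeff = p.leadingCoeff := by
      rw [leadingCoeff_comp (by rw [hX]; exact one_ne_zero)]
      have h3 : (X + 1 : K[X]).leadingCoeff = 1 := by
        rw [← C_1]
        exact leadingCoeff_X_add_C 1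
      rw [h3, one_pow, mul_one]
    rw [leadingCoeff, h1] at h2
    exact h2
  · rw [coeff_eq_zero_of_natDegree_lt h, coeff_eq_zero_of_natDegree_lt (by rw [h1]; exact h)]

include hna hκ h3 hτ hSA hF' hFc hsol hbase in
/-- Constancy along polynomial curves. -/
theorem good_const (hVG : ∀ x : K, x ≠ 0 → ∀ m : ℕ, 0 < m → ∃ c : K, v c ^ m = v x)
    (h00 : ∃ l, (γ l).eval 0 ≠ 0) (h01 : ∃ l, (γ l).eval 1 ≠ 0) :
    Good v τ j0 (fun l => (γ l).eval 0) ↔ Good v τ j0 (fun l => (γ l).eval 1) := by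
  obtain ⟨l0, hl0⟩ := h00
  obtain ⟨ls, -, hls⟩ := Finset.exists_max_image
    (Finset.univ : Finset (Fin (n + 2 + n + 1 + 1))) (fun l => (γ l).degree)
    ⟨0, Finset.mem_univ _⟩
  set D := (γ ls).natDegree with hDdef
  have hD : ∀ l, (γ l).natDegree ≤ D := fun l => natDegree_le_natDegree (hls l (Finset.mem_univ _))
  have hls0 : γ ls ≠ 0 := by
    intro h
    have h1 := hls l0 (Finset.mem_univ _)
    rw [h, degree_zero, le_bot_iff, degree_eq_bot] at h1
    rw [h1, eval_zero] at hl0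
    exact hl0 rfl
  have hD0 : ∃ l, (γ l).coeff D ≠ 0 := ⟨ls, by
    rw [hDdef]
    exact leadingCoeff_ne_zero.mpr hls0⟩
  have hc0 : ∀ p : K[X], p.coeff 0 = p.eval 0 := fun p => coeff_zero_eq_eval_zero p
  have hc1 : ∀ p : K[X], (p.comp (X + 1)).coeff 0 = p.eval 1 := by
    intro p
    rw [coeff_zero_eq_eval_zero, eval_comp]
    simp
  have key0 := zero_iff_top v hna κ hκ h3 τ hτ hSA j0 F' hF' hFc γ hsol hbase hVG hD hD0
    ⟨l0, by rw [hc0]; exact hl0⟩
  have hX : (X + 1 : K[X]).natDegree = 1 := by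
    rw [← C_1]
    exact natDegree_X_add_C 1
  obtain ⟨l1, hl1⟩ := h01
  have key1 := zero_iff_top v hna κ hκ h3 τ hτ hSA j0 F' hF' hFc (fun l => (γ l).comp (X + 1))
    (by
      have h5 := congrArg (Polynomial.compRingHom (X + 1 : K[X])) hsol
      rw [map_zero, MvPolynomial.hom_eval₂] at h5
      have h6 : (Polynomial.compRingHom (X + 1 : K[X])).comp (C.comp κ) = C.comp κ := by
        apply RingHom.ext
        intro x
        simp
      rw [h6] at h5
      exact h5)
    (fun i => by rw [hbase, mul_comp, C_comp]) hVG (D := D)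
    (fun l => by rw [natDegree_comp, hX, mul_one]; exact hD l)
    (by
      obtain ⟨l, hl⟩ := hD0
      exact ⟨l, by rw [coeff_comp_top (hD l)]; exact hl⟩)
    ⟨l1, by rw [hc1]; exact hl1⟩
  have h7 : (fun l => ((γ l).comp (X + 1)).coeff D) = fun l => (γ l).coeff D :=
    funext fun l => coeff_comp_top (hD l)
  simp only [hc1] at key1
  rw [h7] at key1
  simp only [hc0] at key0
  rw [key0, key1]

end Scale

end Pool.Agent.Lib.MP_2619d0_ag.Half

/-!
# The valued field for the second comparison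
-/


namespace Pool.Agent.Lib.MP_2619d0_ag.Half

open Polynomial

section Gauss

theorem continuous_gaussNorm {R : Type*} [CommRing R] (v : AbsoluteValue R ℝ) (p : R[X]) :
    Continuous (fun r : ℝ => gaussNorm v r p) := by
  unfold gaussNorm
  by_cases h : p.support.Nonempty
  · simp only [dif_pos h]
    apply Continuous.finset_sup'_apply
    intro i _
    fun_prop
  · simp only [dif_neg h]
    exact continuous_const

/-- Strong anisotropy for diagonal forms over a polynomial ring whose coefficients are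
`u_j X^{e_j}` with `u_j(0)` a unit. -/
theorem gauss_SA_poly {R : Type*} [CommRing R] [IsDomain R] (v : AbsoluteValue R ℝ)
    (hna : IsNonarchimedean v) {ι : Type*} [Fintype ι] (a : ι → R) (e : ι → ℕ) (u : ι → R[X])
    (hu0 : ∀ j, (u j).coeff 0 = a j) (hu1 : ∀ j k, v ((u j).coeff k) ≤ 1) (ha : ∀ j, v (a j) = 1)
    (h : ∀ c : ℕ, ∀ x : ι → R, (∀ j, e j % 2 ≠ c → x j = 0) →
      ∀ i, v (a i) * v (x i) ^ 2 ≤ v (∑ j, a j * x j ^ 2))
    (y : ι → R[X]) (i : ι) :
    (gaussNorm v 1 (y i)) ^ 2 ≤ gaussNorm v 1 (∑ j, u j * X ^ (e j) * (y j) ^ 2) := by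
  classical
  have key : ∀ r : ℝ, 0 < r → r < 1 → r ^ (e i) * (gaussNorm v r (y i)) ^ 2
      ≤ gaussNorm v r (∑ j, u j * X ^ (e j) * (y j) ^ 2) := by
    intro r hr0 hr1
    set G := gaussAbs v hna r hr0 with hG
    have hGa : ∀ p, gaussNorm v r p = G p := fun p => rfl
    have hGna : IsNonarchimedean G := gaussAbs_nonarch v hna r hr0
    set A : R[X] := ∑ j, C (a j) * X ^ (e j) * (y j) ^ 2 with hA
    set B : R[X] := ∑ j, (u j - C (a j)) * X ^ (e j) * (y j) ^ 2 with hB
    have hsum : ∑ j, u j * X ^ (e j) * (y j) ^ 2 = A + B := by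
      rw [hA, hB, ← Finset.sum_add_distrib]
      refine Finset.sum_congr rfl fun j _ => ?_
      ring
    have hAge : ∀ j, r ^ (e j) * G (y j) ^ 2 ≤ G A := by
      intro j
      have h1 := gauss_SA v hna hr0 a e h y j
      rw [ha, one_mul] at h1
      exact h1
    have hGX : G X = r := by
      rw [← hGa, ← Polynomial.monomial_one_one_eq_X, gaussNorm_monomial]
      simp
    have hGu : ∀ j, G (u j - C (a j)) ≤ r := by
      intro j
      obtain ⟨k, hk⟩ := exists_eq_gaussNorm v r (u j - C (a j))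
      rw [← hGa, hk, coeff_sub]
      rcases Nat.eq_zero_or_pos k with h0 | h0
      · rw [h0, coeff_C_zero, hu0, sub_self, map_zero, zero_mul]
        exact hr0.le
      · rw [coeff_C_of_ne_zero (by omega), sub_zero]
        calc v ((u j).coeff k) * r ^ k ≤ 1 * r ^ k :=
              mul_le_mul_of_nonneg_right (hu1 j k) (pow_nonneg hr0.le _)
          _ = r ^ k := one_mul _
          _ ≤ r ^ 1 := pow_le_pow_of_le_one hr0.le hr1.le h0
          _ = r := pow_one r
    have hBle : G B ≤ r * G A := by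
      apply na_sum_le G hGna _ _ _ (mul_nonneg hr0.le (G.nonneg _))
      intro j _
      rw [map_mul, map_mul, map_pow, map_pow, hGX, mul_assoc]
      exact mul_le_mul (hGu j) (hAge j) (by positivity) hr0.le
    rw [hsum, hGa, hGa]
    rcases (G.nonneg A).eq_or_lt with h0 | h0
    · have h1 : r ^ (e i) * G (y i) ^ 2 ≤ 0 := by
        rw [h0]
        exact hAge i
      exact h1.trans (G.nonneg _)
    · have h1 : G (A + B) = G A := by
        apply na_eq_of_sub_lt G hGna
        rw [add_sub_cancel_left]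
        refine hBle.trans_lt ?_
        calc r * G A < 1 * G A := mul_lt_mul_of_pos_right hr1 h0
          _ = G A := one_mul _
      rw [h1]
      exact hAge i
  have hclosed : IsClosed {r : ℝ | r ^ (e i) * (gaussNorm v r (y i)) ^ 2
      ≤ gaussNorm v r (∑ j, u j * X ^ (e j) * (y j) ^ 2)} := by
    apply isClosed_le
    · exact (continuous_pow _).mul ((continuous_gaussNorm v _).pow 2)
    · exact continuous_gaussNorm v _
  have hsub : Set.Ioo (0 : ℝ) 1 ⊆ {r : ℝ | r ^ (e i) * (gaussNorm v r (y i)) ^ 2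
      ≤ gaussNorm v r (∑ j, u j * X ^ (e j) * (y j) ^ 2)} := fun r hr => key r hr.1 hr.2
  have h1 : (1 : ℝ) ∈ closure (Set.Ioo (0 : ℝ) 1) := by
    rw [closure_Ioo (by norm_num)]
    exact ⟨zero_le_one, le_refl _⟩
  have h2 := closure_minimal hsub hclosed h1
  simp only [Set.mem_ofPred_eq, one_pow, one_mul] at h2
  exact h2

/-- Inequality for vectors supported on a strongly anisotropic subform. -/
theorem SA_supp {R : Type*} [CommRing R] (v : AbsoluteValue R ℝ) {ι ι' : Type*} [Fintype ι]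
    [Fintype ι'] (a : ι → R) (e : ι' → ι) (he : Function.Injective e)
    (h : SA v (fun j => a (e j))) (x : ι → R) (hx : ∀ i, (∀ j, e j ≠ i) → x i = 0) (i : ι) :
    v (a i) * v (x i) ^ 2 ≤ v (∑ j, a j * x j ^ 2) := by
  have hsum : ∑ j, a (e j) * x (e j) ^ 2 = ∑ i, a i * x i ^ 2 := by
    refine Fintype.sum_of_injective e he _ _ ?_ ?_
    · intro i hi
      rw [hx i (by
        intro j hj
        exact hi ⟨j, hj⟩)]
      ring
    · intro j
      rfl
  by_cases hi : ∃ j, e j = i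
  · obtain ⟨j, rfl⟩ := hi
    rw [← hsum]
    exact h (fun j => x (e j)) j
  · push Not at hi
    rw [hx i hi]
    simp only [map_zero, ne_eq, OfNat.ofNat_ne_zero, not_false_eq_true, zero_pow, mul_zero]
    exact v.nonneg _

theorem SA_comp' {R : Type*} [CommRing R] (v : AbsoluteValue R ℝ) {ι ι' : Type*} [Fintype ι]
    [Fintype ι'] (a : ι → R) (h : SA v a) (e : ι' → ι) (he : Function.Injective e) :
    SA v (fun j => a (e j)) := by
  intro x i
  set y : ι → R := Function.extend e x 0 with hy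
  have hye : ∀ j, y (e j) = x j := fun j => he.extend_apply _ _ _
  have hsum : ∑ j, a (e j) * x j ^ 2 = ∑ i, a i * y i ^ 2 := by
    refine Fintype.sum_of_injective e he _ _ ?_ ?_
    · intro i hi
      have h1 : y i = 0 := by
        rw [hy, Function.extend_apply' _ _ _ (by simpa using hi)]
        rfl
      rw [h1]
      ring
    · intro j
      rw [hye]
  rw [hsum, ← hye]
  exact h y (e i)

theorem SA_mul_sq {R : Type*} [CommRing R] [IsDomain R] (v : AbsoluteValue R ℝ) {ι : Type*}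
    [Fintype ι] (a c : ι → R) (hc : ∀ i, v (c i) = 1) (h : SA v a) :
    SA v (fun i => a i * c i ^ 2) := by
  intro x i
  have h1 := h (fun i => c i * x i) i
  simp only [map_mul, map_pow, hc, one_pow, mul_one, one_mul] at h1 ⊢
  refine h1.trans (le_of_eq ?_)
  congr 1
  refine Finset.sum_congr rfl fun j _ => ?_
  ring

end Gauss

section Up

variable {𝓕 : Type*} [Field 𝓕]

/-- The Gauss extension of an absolute value to one more variable. -/
noncomputable def mvUp {N : ℕ} (v : AbsoluteValue (MvPolynomial (Fin N) 𝓕) ℝ)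
    (hv : IsNonarchimedean v) : AbsoluteValue (MvPolynomial (Fin (N + 1)) 𝓕) ℝ :=
  compAbs (gaussAbs v hv 1 one_pos) (MvPolynomial.finSuccEquiv 𝓕 N).toRingEquiv.toRingHom
    (MvPolynomial.finSuccEquiv 𝓕 N).injective

theorem mvUp_apply {N : ℕ} (v : AbsoluteValue (MvPolynomial (Fin N) 𝓕) ℝ)
    (hv : IsNonarchimedean v) (p : MvPolynomial (Fin (N + 1)) 𝓕) :
    mvUp v hv p = gaussNorm v 1 (MvPolynomial.finSuccEquiv 𝓕 N p) := rfl

theorem mvUp_nonarch {N : ℕ} (v : AbsoluteValue (MvPolynomial (Fin N) 𝓕) ℝ)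
    (hv : IsNonarchimedean v) : IsNonarchimedean (mvUp v hv) := by
  intro p q
  rw [mvUp_apply, mvUp_apply, mvUp_apply, map_add]
  exact gaussAbs_nonarch v hv 1 one_pos _ _

theorem finSucc_rename {N : ℕ} (p : MvPolynomial (Fin N) 𝓕) :
    MvPolynomial.finSuccEquiv 𝓕 N (MvPolynomial.rename Fin.succ p) = C p := by
  have h : ((MvPolynomial.finSuccEquiv 𝓕 N).toAlgHom.comp (MvPolynomial.rename Fin.succ))
      = (Polynomial.CAlgHom : MvPolynomial (Fin N) 𝓕 →ₐ[𝓕] (MvPolynomial (Fin N) 𝓕)[X]) := by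
    apply MvPolynomial.algHom_ext
    intro i
    simp [MvPolynomial.finSuccEquiv_X_succ]
  exact congrArg (fun φ => φ p) h

theorem mvUp_rename {N : ℕ} (v : AbsoluteValue (MvPolynomial (Fin N) 𝓕) ℝ)
    (hv : IsNonarchimedean v) (p : MvPolynomial (Fin N) 𝓕) :
    mvUp v hv (MvPolynomial.rename Fin.succ p) = v p := by
  rw [mvUp_apply, finSucc_rename, gaussNorm_C]

theorem mvUp_X_zero {N : ℕ} (v : AbsoluteValue (MvPolynomial (Fin N) 𝓕) ℝ)
    (hv : IsNonarchimedean v) : mvUp v hv (MvPolynomial.X 0) = 1 := by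
  rw [mvUp_apply, MvPolynomial.finSuccEquiv_X_zero, ← Polynomial.monomial_one_one_eq_X,
    gaussNorm_monomial]
  simp

theorem mvUp_C {N : ℕ} (v : AbsoluteValue (MvPolynomial (Fin N) 𝓕) ℝ)
    (hv : IsNonarchimedean v) (a : 𝓕) :
    mvUp v hv (MvPolynomial.C a) = v (MvPolynomial.C a) := by
  rw [← mvUp_rename v hv, MvPolynomial.rename_C]

end Up

section Base

variable {𝓕 : Type*} [Field 𝓕]

/-- Properties of the Gauss absolute value on a polynomial ring. -/
structure Ok (v0 : AbsoluteValue 𝓕 ℝ) {N : ℕ} (v : AbsoluteValue (MvPolynomial (Fin N) 𝓕) ℝ) :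
    Prop where
  nonarch : IsNonarchimedean v
  C : ∀ a, v (MvPolynomial.C a) = v0 a
  X : ∀ i, v (MvPolynomial.X i) = 1
  vals : ∀ p, ∃ a, v p = v0 a

theorem Ok.up {v0 : AbsoluteValue 𝓕 ℝ} {N : ℕ} {v : AbsoluteValue (MvPolynomial (Fin N) 𝓕) ℝ}
    (h : Ok v0 v) : Ok v0 (mvUp v h.nonarch) where
  nonarch := mvUp_nonarch v h.nonarch
  C := fun a => by rw [mvUp_C, h.C]
  X := fun i => by
    refine Fin.cases ?_ (fun j => ?_) i
    · exact mvUp_X_zero v h.nonarch
    · have h1 := mvUp_rename v h.nonarch (MvPolynomial.X j)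
      rw [MvPolynomial.rename_X] at h1
      rw [h1, h.X]
  vals := fun p => by
    obtain ⟨k, hk⟩ := exists_eq_gaussNorm v 1 (MvPolynomial.finSuccEquiv 𝓕 N p)
    obtain ⟨a, ha⟩ := h.vals ((MvPolynomial.finSuccEquiv 𝓕 N p).coeff k)
    exact ⟨a, by rw [mvUp_apply, hk, one_pow, mul_one, ha]⟩

theorem exists_ok_zero (v0 : AbsoluteValue 𝓕 ℝ) (hna : IsNonarchimedean v0) :
    ∃ v : AbsoluteValue (MvPolynomial (Fin 0) 𝓕) ℝ, Ok v0 v := by
  set φ := (MvPolynomial.isEmptyAlgEquiv 𝓕 (Fin 0)).toRingEquiv.toRingHom with hφ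
  have hφinj : Function.Injective φ := (MvPolynomial.isEmptyAlgEquiv 𝓕 (Fin 0)).injective
  have hφa : ∀ p, φ p = MvPolynomial.isEmptyAlgEquiv 𝓕 (Fin 0) p := fun p => rfl
  refine ⟨compAbs v0 φ hφinj, ?_, ?_, ?_, ?_⟩
  · intro p q
    simp only [compAbs_apply, map_add]
    exact hna _ _
  · intro a
    rw [compAbs_apply, hφa]
    exact congrArg v0 ((MvPolynomial.isEmptyAlgEquiv 𝓕 (Fin 0)).commutes a)
  · intro i
    exact i.elim0
  · intro p
    exact ⟨φ p, rfl⟩

/-- `ν³ - 1/4`. -/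
noncomputable def P00 (𝓕 : Type*) [Field 𝓕] : MvPolynomial (Fin 1) 𝓕 :=
  MvPolynomial.X 0 ^ 3 - MvPolynomial.C (1 / 4)

/-- `ν³ - (A+1)²/4`, where `A` is the variable `0` and `ν` is the variable `1`. -/
noncomputable def P0 (𝓕 : Type*) [Field 𝓕] : MvPolynomial (Fin 2) 𝓕 :=
  MvPolynomial.X 1 ^ 3 - MvPolynomial.C (1 / 4) * (MvPolynomial.X 0 + 1) ^ 2

/-- `ν³ + (A²-1)/4`. -/
noncomputable def D0 (𝓕 : Type*) [Field 𝓕] : MvPolynomial (Fin 2) 𝓕 :=
  MvPolynomial.X 1 ^ 3 + MvPolynomial.C (1 / 4) * (MvPolynomial.X 0 ^ 2 - 1)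

/-- The three slots `1, νAP, -AP`. -/
noncomputable def slots (𝓕 : Type*) [Field 𝓕] : Option Bool → MvPolynomial (Fin 2) 𝓕
  | none => -(MvPolynomial.X 0 * P0 𝓕)
  | some false => 1
  | some true => MvPolynomial.X 1 * MvPolynomial.X 0 * P0 𝓕

theorem na_le_one {R : Type*} [CommRing R] (v : AbsoluteValue R ℝ) (hna : IsNonarchimedean v)
    {a b : R} (ha : v a ≤ 1) (hb : v b ≤ 1) : v (a + b) ≤ 1 := (hna a b).trans (max_le ha hb)

theorem na_sub_le_one {R : Type*} [CommRing R] (v : AbsoluteValue R ℝ) (hna : IsNonarchimedean v)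
    {a b : R} (ha : v a ≤ 1) (hb : v b ≤ 1) : v (a - b) ≤ 1 := by
  rw [sub_eq_add_neg]
  exact na_le_one v hna ha (by rwa [AbsoluteValue.map_neg])

theorem finSucc_X1 : MvPolynomial.finSuccEquiv 𝓕 1 (MvPolynomial.X 1)
    = C (MvPolynomial.X 0) := by
  have h := MvPolynomial.finSuccEquiv_X_succ (R := 𝓕) (n := 1) (j := 0)
  exact h

theorem finSucc_C {N : ℕ} (a : 𝓕) : MvPolynomial.finSuccEquiv 𝓕 N (MvPolynomial.C a)
    = C (MvPolynomial.C a) := by
  simp [MvPolynomial.finSuccEquiv_apply]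

theorem v0_quarter (v0 : AbsoluteValue 𝓕 ℝ) (h2 : v0 2 = 1) : v0 (1 / 4) = 1 := by
  have h1 : (1 / 4 : 𝓕) = (1 / 2) * (1 / 2) := by
    rw [div_mul_div_comm]
    norm_num
  rw [h1, map_mul, map_div₀, map_one, h2]
  norm_num

/-- The first variable. -/
theorem base_one (v0 : AbsoluteValue 𝓕 ℝ) (hna : IsNonarchimedean v0) (h2 : v0 2 = 1) :
    ∃ w1 : AbsoluteValue (MvPolynomial (Fin 1) 𝓕) ℝ, Ok v0 w1 ∧ w1 (P00 𝓕) = 1 ∧
      ∀ x y : MvPolynomial (Fin 1) 𝓕,
        w1 x ^ 2 ≤ w1 (MvPolynomial.X 0 * x ^ 2 - y ^ 2) ∧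
          w1 y ^ 2 ≤ w1 (MvPolynomial.X 0 * x ^ 2 - y ^ 2) := by
  obtain ⟨w0, hw0⟩ := exists_ok_zero v0 hna
  have h4 := v0_quarter v0 h2
  have hw1 := hw0.up
  refine ⟨mvUp w0 hw0.nonarch, hw1, ?_, ?_⟩
  · apply le_antisymm
    · rw [P00]
      refine na_sub_le_one _ hw1.nonarch ?_ ?_
      · rw [map_pow, hw1.X, one_pow]
      · rw [hw1.C, h4]
    · rw [mvUp_apply]
      have h1 := le_gaussNorm w0 (MvPolynomial.finSuccEquiv 𝓕 0 (P00 𝓕)) zero_le_one 3
      rw [one_pow, mul_one] at h1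
      refine le_trans (le_of_eq ?_) h1
      rw [P00, map_sub, map_pow, MvPolynomial.finSuccEquiv_X_zero, finSucc_C, coeff_sub,
        coeff_X_pow, if_pos rfl, coeff_C_of_ne_zero (by norm_num), sub_zero, map_one]
  · intro x y
    have key := gauss_SA w0 hw0.nonarch one_pos (fun b : Bool => if b then (1 : MvPolynomial (Fin 0) 𝓕)
      else -1) (fun b => if b then 1 else 0) (by
        intro c z hz i
        by_cases hc0 : c = 0
        · subst hc0
          have hz1 : z true = 0 := hz true (by simp)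
          rw [Fintype.sum_bool, hz1]
          rcases i with _ | _
          · simp
          · rw [hz1]
            simp
        · by_cases hc1 : c = 1
          · subst hc1
            have hz1 : z false = 0 := hz false (by simp)
            rw [Fintype.sum_bool, hz1]
            rcases i with _ | _
            · rw [hz1]
              simp
            · simp
          · have hz1 : ∀ b, z b = 0 := by
              intro b
              apply hz
              rcases b with _ | _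
              · simp
                omega
              · simp
                omega
            simp [hz1])
      (fun b : Bool => if b then MvPolynomial.finSuccEquiv 𝓕 0 x else MvPolynomial.finSuccEquiv 𝓕 0 y)
    have hsum : ∑ b : Bool, C (if b then (1 : MvPolynomial (Fin 0) 𝓕) else -1)
        * (X : (MvPolynomial (Fin 0) 𝓕)[X]) ^ (if b then 1 else 0) *
        (if b then MvPolynomial.finSuccEquiv 𝓕 0 x else MvPolynomial.finSuccEquiv 𝓕 0 y) ^ 2
        = MvPolynomial.finSuccEquiv 𝓕 0 (MvPolynomial.X 0 * x ^ 2 - y ^ 2) := by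
      rw [Fintype.sum_bool, map_sub, map_mul, map_pow, map_pow, MvPolynomial.finSuccEquiv_X_zero]
      simp
      ring
    rw [hsum] at key
    constructor
    · have := key true
      simp only [if_true, map_one, one_mul, one_pow] at this
      exact this
    · have := key false
      simp only [Bool.false_eq_true, if_false, AbsoluteValue.map_neg, map_one, one_mul,
        one_pow] at this
      exact this

theorem finSucc_P0 : MvPolynomial.finSuccEquiv 𝓕 1 (P0 𝓕)
    = C (MvPolynomial.X 0 ^ 3) - C (MvPolynomial.C (1 / 4)) * (X + 1) ^ 2 := by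
  rw [P0, map_sub, map_pow, finSucc_X1, map_mul, finSucc_C, map_pow, map_add,
    MvPolynomial.finSuccEquiv_X_zero, map_one, C_pow]

theorem finSucc_P0_coeff : (MvPolynomial.finSuccEquiv 𝓕 1 (P0 𝓕)).coeff 0 = P00 𝓕 := by
  rw [finSucc_P0, coeff_sub, coeff_C_zero, coeff_zero_eq_eval_zero, P00]
  simp

theorem finSucc_D0_coeff :
    (MvPolynomial.finSuccEquiv 𝓕 1 (D0 𝓕)).coeff 0 = P00 𝓕 := by
  rw [D0, map_add, map_pow, finSucc_X1, map_mul, finSucc_C, map_sub, map_pow,
    MvPolynomial.finSuccEquiv_X_zero, map_one, P00, ← C_pow, coeff_add, coeff_C_zero,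
    coeff_zero_eq_eval_zero]
  simp
  ring

/-- Coefficients of the ternary form at `A = 0`. -/
noncomputable def aa (𝓕 : Type*) [Field 𝓕] : Option Bool → MvPolynomial (Fin 1) 𝓕
  | none => -P00 𝓕
  | some false => 1
  | some true => MvPolynomial.X 0 * P00 𝓕

/-- Exponents of the ternary form at `A = 0`. -/
def ee : Option Bool → ℕ
  | none => 1
  | some false => 0
  | some true => 1

/-- Unit parts of the coefficients of the ternary form. -/
noncomputable def uu (𝓕 : Type*) [Field 𝓕] : Option Bool → (MvPolynomial (Fin 1) 𝓕)[X]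
  | none => -MvPolynomial.finSuccEquiv 𝓕 1 (P0 𝓕)
  | some false => 1
  | some true => C (MvPolynomial.X 0) * MvPolynomial.finSuccEquiv 𝓕 1 (P0 𝓕)

theorem finSucc_slots (o : Option Bool) :
    MvPolynomial.finSuccEquiv 𝓕 1 (slots 𝓕 o) = uu 𝓕 o * X ^ (ee o) := by
  rcases o with _ | _ | _
  · simp only [slots, uu, ee, map_neg, map_mul, MvPolynomial.finSuccEquiv_X_zero]
    ring
  · simp only [slots, uu, ee, map_one]
    ring
  · simp only [slots, uu, ee, map_mul, MvPolynomial.finSuccEquiv_X_zero, finSucc_X1]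
    ring

theorem aa_parity (w1 : AbsoluteValue (MvPolynomial (Fin 1) 𝓕) ℝ) (hX : w1 (MvPolynomial.X 0) = 1)
    (hP00 : w1 (P00 𝓕) = 1) (hbin : ∀ x y : MvPolynomial (Fin 1) 𝓕,
        w1 x ^ 2 ≤ w1 (MvPolynomial.X 0 * x ^ 2 - y ^ 2) ∧
          w1 y ^ 2 ≤ w1 (MvPolynomial.X 0 * x ^ 2 - y ^ 2)) (c : ℕ)
    (z : Option Bool → MvPolynomial (Fin 1) 𝓕) (hz : ∀ j, ee j % 2 ≠ c → z j = 0)
    (i : Option Bool) : w1 (aa 𝓕 i) * w1 (z i) ^ 2 ≤ w1 (∑ j, aa 𝓕 j * z j ^ 2) := by
  have hsum : ∑ o, aa 𝓕 o * z o ^ 2 = -P00 𝓕 * z none ^ 2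
      + (MvPolynomial.X 0 * P00 𝓕 * z (some true) ^ 2 + 1 * z (some false) ^ 2) := by
    rw [Fintype.sum_option, Fintype.sum_bool]
    rfl
  have hzero : ∀ y : MvPolynomial (Fin 1) 𝓕, ∀ b, y = 0 → w1 b * w1 y ^ 2 ≤
      w1 (∑ j, aa 𝓕 j * z j ^ 2) := by
    intro y b hy
    rw [hy, map_zero, zero_pow two_ne_zero, mul_zero]
    exact w1.nonneg _
  by_cases hc0 : c = 0
  · subst hc0
    have hz1 : z none = 0 := hz none (by simp [ee])
    have hz2 : z (some true) = 0 := hz (some true) (by simp [ee])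
    rcases i with _ | _ | _
    · exact hzero _ _ hz1
    · rw [hsum, hz1, hz2]
      simp [aa]
    · exact hzero _ _ hz2
  · by_cases hc1 : c = 1
    · subst hc1
      have hz1 : z (some false) = 0 := hz (some false) (by simp [ee])
      have hsum' : ∑ o, aa 𝓕 o * z o ^ 2
          = P00 𝓕 * (MvPolynomial.X 0 * z (some true) ^ 2 - z none ^ 2) := by
        rw [hsum, hz1]
        ring
      obtain ⟨h5, h6⟩ := hbin (z (some true)) (z none)
      rcases i with _ | _ | _
      · rw [hsum', map_mul, hP00, one_mul]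
        simp only [aa, AbsoluteValue.map_neg, hP00, one_mul]
        exact h6
      · exact hzero _ _ hz1
      · rw [hsum', map_mul, hP00, one_mul]
        simp only [aa, map_mul, hX, hP00, one_mul]
        exact h5
    · have hz1 : ∀ o, z o = 0 := by
        intro o
        apply hz
        rcases o with _ | _ | _
        · simp [ee]
          omega
        · simp [ee]
          omega
        · simp [ee]
          omega
      exact hzero _ _ (hz1 i)

theorem slots_SA (w1 : AbsoluteValue (MvPolynomial (Fin 1) 𝓕) ℝ) (hna1 : IsNonarchimedean w1)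
    (hX : w1 (MvPolynomial.X 0) = 1) (hP00 : w1 (P00 𝓕) = 1)
    (hbin : ∀ x y : MvPolynomial (Fin 1) 𝓕,
        w1 x ^ 2 ≤ w1 (MvPolynomial.X 0 * x ^ 2 - y ^ 2) ∧
          w1 y ^ 2 ≤ w1 (MvPolynomial.X 0 * x ^ 2 - y ^ 2))
    (hPc : ∀ k, w1 ((MvPolynomial.finSuccEquiv 𝓕 1 (P0 𝓕)).coeff k) ≤ 1)
    (y : Option Bool → (MvPolynomial (Fin 1) 𝓕)[X]) (o : Option Bool) :
    gaussNorm w1 1 (y o) ^ 2 ≤ gaussNorm w1 1 (∑ j, uu 𝓕 j * X ^ (ee j) * (y j) ^ 2) := by
  have hu0 : ∀ o, (uu 𝓕 o).coeff 0 = aa 𝓕 o := by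
    intro o
    rcases o with _ | _ | _
    · simp only [uu, aa, coeff_neg, finSucc_P0_coeff]
    · simp only [uu, aa, coeff_one_zero]
    · simp only [uu, aa, coeff_C_mul, finSucc_P0_coeff]
  have hu1 : ∀ o k, w1 ((uu 𝓕 o).coeff k) ≤ 1 := by
    intro o k
    rcases o with _ | _ | _
    · simp only [uu, coeff_neg, AbsoluteValue.map_neg]
      exact hPc k
    · simp only [uu, coeff_one]
      split_ifs <;> simp
    · simp only [uu, coeff_C_mul, map_mul, hX, one_mul]
      exact hPc k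
  have ha1 : ∀ o, w1 (aa 𝓕 o) = 1 := by
    intro o
    rcases o with _ | _ | _
    · simp only [aa, AbsoluteValue.map_neg, hP00]
    · simp only [aa, map_one]
    · simp only [aa, map_mul, hX, hP00, mul_one]
  exact gauss_SA_poly w1 hna1 (aa 𝓕) ee (uu 𝓕) hu0 hu1 ha1
    (aa_parity w1 hX hP00 hbin) y o

theorem base_facts (v0 : AbsoluteValue 𝓕 ℝ) (hna : IsNonarchimedean v0) (h2 : v0 2 = 1) :
    ∃ v : AbsoluteValue (MvPolynomial (Fin 2) 𝓕) ℝ, Ok v0 v ∧ v (P0 𝓕) = 1 ∧ v (D0 𝓕) = 1 ∧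
      SA v (slots 𝓕) := by
  obtain ⟨w1, hw1, hP00, hbin⟩ := base_one v0 hna h2
  have h4 := v0_quarter v0 h2
  obtain ⟨w2, hw2def⟩ : ∃ w2 : AbsoluteValue (MvPolynomial (Fin 2) 𝓕) ℝ,
    w2 = mvUp w1 hw1.nonarch := ⟨_, rfl⟩
  have hw2 : Ok v0 w2 := by
    rw [hw2def]
    exact hw1.up
  have hw2a : ∀ p, w2 p = gaussNorm w1 1 (MvPolynomial.finSuccEquiv 𝓕 1 p) := by
    intro p
    rw [hw2def]
    rfl
  have hcoef : ∀ (p : MvPolynomial (Fin 2) 𝓕) k,
      w1 ((MvPolynomial.finSuccEquiv 𝓕 1 p).coeff k) ≤ w2 p := by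
    intro p k
    have h1 := le_gaussNorm w1 (MvPolynomial.finSuccEquiv 𝓕 1 p) zero_le_one k
    rw [one_pow, mul_one, ← hw2a] at h1
    exact h1
  have hP0le : w2 (P0 𝓕) ≤ 1 := by
    rw [P0]
    refine na_sub_le_one w2 hw2.nonarch ?_ ?_
    · rw [map_pow, hw2.X, one_pow]
    · rw [map_mul, hw2.C, h4, one_mul, map_pow]
      refine pow_le_one₀ (w2.nonneg _) (na_le_one w2 hw2.nonarch ?_ ?_)
      · rw [hw2.X]
      · rw [map_one]
  have hP0 : w2 (P0 𝓕) = 1 := by
    apply le_antisymm hP0le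
    have h1 := hcoef (P0 𝓕) 0
    rw [finSucc_P0_coeff, hP00] at h1
    exact h1
  have hD0 : w2 (D0 𝓕) = 1 := by
    apply le_antisymm
    · rw [D0]
      refine na_le_one w2 hw2.nonarch ?_ ?_
      · rw [map_pow, hw2.X, one_pow]
      · rw [map_mul, hw2.C, h4, one_mul]
        refine na_sub_le_one w2 hw2.nonarch ?_ ?_
        · rw [map_pow, hw2.X, one_pow]
        · rw [map_one]
    · have h1 := hcoef (D0 𝓕) 0
      rw [finSucc_D0_coeff, hP00] at h1
      exact h1
  have hvals : ∀ o, w2 (slots 𝓕 o) = 1 := by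
    intro o
    rcases o with _ | _ | _
    · simp only [slots, AbsoluteValue.map_neg, map_mul, hw2.X, hP0, mul_one]
    · simp only [slots, map_one]
    · simp only [slots, map_mul, hw2.X, hP0, mul_one]
  refine ⟨w2, hw2, hP0, hD0, ?_⟩
  intro x o
  have key := slots_SA w1 hw1.nonarch (hw1.X 0) hP00 hbin
    (fun k => (hcoef (P0 𝓕) k).trans hP0le) (fun o => MvPolynomial.finSuccEquiv 𝓕 1 (x o)) o
  have hsum : MvPolynomial.finSuccEquiv 𝓕 1 (∑ j, slots 𝓕 j * x j ^ 2)
      = ∑ j, uu 𝓕 j * X ^ (ee j) * (MvPolynomial.finSuccEquiv 𝓕 1 (x j)) ^ 2 := by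
    rw [map_sum]
    refine Finset.sum_congr rfl fun o' _ => ?_
    rw [map_mul, map_pow, finSucc_slots]
  rw [hvals, one_mul, hw2a (x o), hw2a (∑ j, slots 𝓕 j * x j ^ 2), hsum]
  exact key

end Base

section Tower

variable {𝓕 : Type*} [Field 𝓕]

/-- The base variables after adding `K` variables. -/
noncomputable def up (K : ℕ) (p : MvPolynomial (Fin 2) 𝓕) : MvPolynomial (Fin (2 + K)) 𝓕 :=
  MvPolynomial.rename (fun i => Fin.addNat i K) p

/-- The added variables. -/
noncomputable def tv (𝓕 : Type*) [Field 𝓕] (K : ℕ) (j : Fin K) : MvPolynomial (Fin (2 + K)) 𝓕 :=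
  MvPolynomial.X (Fin.castLE (by omega) j)

/-- The slots of the form `<1, νAP> ⊗ <<τ_1, …, τ_K>> ⊥ <-AP>`. -/
noncomputable def LL (𝓕 : Type*) [Field 𝓕] (K : ℕ) :
    Option (Bool × (Fin K → Bool)) → MvPolynomial (Fin (2 + K)) 𝓕
  | none => up K (slots 𝓕 none)
  | some p => up K (slots 𝓕 (some p.1)) * pf (tv 𝓕 K) p.2

theorem up_succ (K : ℕ) (p : MvPolynomial (Fin 2) 𝓕) :
    up (K + 1) p = MvPolynomial.rename Fin.succ (up K p) := by
  rw [up, up, MvPolynomial.rename_rename]
  rfl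

theorem tv_succ (K : ℕ) (j : Fin K) :
    tv 𝓕 (K + 1) j.succ = MvPolynomial.rename Fin.succ (tv 𝓕 K j) := by
  rw [tv, tv, MvPolynomial.rename_X]
  rfl

theorem tv_zero (K : ℕ) : tv 𝓕 (K + 1) 0 = MvPolynomial.X 0 := rfl

theorem pf_map {R R' : Type*} [CommRing R] [CommRing R'] (f : R →+* R') {n : ℕ} (t : Fin n → R)
    (S : Fin n → Bool) : f (pf t S) = pf (fun i => f (t i)) S := by
  unfold pf
  rw [map_prod]
  refine Finset.prod_congr rfl fun i _ => ?_
  split_ifs <;> simp

theorem pf_cons {R : Type*} [CommRing R] {n : ℕ} (t : Fin (n + 1) → R) (S : Fin (n + 1) → Bool) :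
    pf t S = (if S 0 then t 0 else 1) * pf (fun i => t i.succ) (fun i => S i.succ) := by
  have h1 : S = (Fin.cons (S 0) (fun i => S i.succ) : Fin (n + 1) → Bool) := by
    funext i
    refine Fin.cases ?_ (fun j => ?_) i <;> simp
  conv_lhs => rw [h1]
  rw [pf_succ]

theorem LL_succ (K : ℕ) (o : Option (Bool × (Fin (K + 1) → Bool))) :
    LL 𝓕 (K + 1) o = MvPolynomial.rename Fin.succ
      (LL 𝓕 K (o.map (fun p => (p.1, fun i => p.2 i.succ))))
        * MvPolynomial.X 0 ^ (o.elim 0 (fun p => if p.2 0 then 1 else 0)) := by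
  rcases o with _ | ⟨b, S⟩
  · simp only [LL, Option.map, Option.elim, pow_zero, mul_one]
    exact up_succ K _
  · simp only [LL, Option.map, Option.elim]
    rw [pf_cons, up_succ, map_mul, tv_zero]
    have h1 : MvPolynomial.rename Fin.succ (pf (tv 𝓕 K) (fun i => S i.succ))
        = pf (fun i => tv 𝓕 (K + 1) i.succ) (fun i => S i.succ) := by
      have h2 := pf_map (MvPolynomial.rename Fin.succ : MvPolynomial (Fin (2 + K)) 𝓕 →ₐ[𝓕]
        MvPolynomial (Fin (2 + K + 1)) 𝓕).toRingHom (tv 𝓕 K) (fun i => S i.succ)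
      refine Eq.trans h2 ?_
      congr 1
      funext i
      exact (tv_succ K i).symm
    rw [h1]
    by_cases hS : S 0
    · simp only [hS, if_true, pow_one]
      ring
    · simp only [hS, Bool.false_eq_true, if_false, pow_zero]
      ring

theorem exists_mv (v0 : AbsoluteValue 𝓕 ℝ) (hna : IsNonarchimedean v0) (h2 : v0 2 = 1) :
    ∀ K : ℕ, ∃ v : AbsoluteValue (MvPolynomial (Fin (2 + K)) 𝓕) ℝ, Ok v0 v ∧
      v (up K (P0 𝓕)) = 1 ∧ v (up K (D0 𝓕)) = 1 ∧ SA v (LL 𝓕 K) := by
  intro K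
  induction K with
  | zero =>
    obtain ⟨v, hv, hP, hD, hSA⟩ := base_facts v0 hna h2
    have hup : ∀ p : MvPolynomial (Fin 2) 𝓕, up 0 p = p := by
      intro p
      have h1 : (fun i : Fin 2 => Fin.addNat i 0) = id := rfl
      rw [up, h1, MvPolynomial.rename_id_apply]
    refine ⟨v, hv, ?_, ?_, ?_⟩
    · rw [hup]
      exact hP
    · rw [hup]
      exact hD
    · have h1 := SA_comp' v _ hSA (fun o : Option (Bool × (Fin 0 → Bool)) => o.map Prod.fst) (by
        apply Option.map_injective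
        rintro ⟨b, S⟩ ⟨b', S'⟩ hbb
        simp only at hbb
        rw [Prod.mk.injEq]
        exact ⟨hbb, Subsingleton.elim _ _⟩)
      have h2 : LL 𝓕 0 = fun o : Option (Bool × (Fin 0 → Bool)) => slots 𝓕 (o.map Prod.fst) := by
        funext o
        rcases o with _ | ⟨b, S⟩
        · exact hup _
        · simp only [LL, Option.map]
          rw [hup]
          have h3 : pf (tv 𝓕 0) S = 1 := by
            unfold pf
            simp
          rw [h3, mul_one]
      rw [h2]
      exact h1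
  | succ K ih =>
    obtain ⟨v, hv, hP, hD, hSA⟩ := ih
    refine ⟨mvUp v hv.nonarch, hv.up, ?_, ?_, ?_⟩
    · rw [up_succ, mvUp_rename, hP]
    · rw [up_succ, mvUp_rename, hD]
    · intro x o
      set a : Option (Bool × (Fin (K + 1) → Bool)) → MvPolynomial (Fin (2 + K)) 𝓕 :=
        fun o => LL 𝓕 K (o.map (fun p => (p.1, fun i => p.2 i.succ))) with ha
      set e : Option (Bool × (Fin (K + 1) → Bool)) → ℕ :=
        fun o => o.elim 0 (fun p => if p.2 0 then 1 else 0) with he
      have hpar : ∀ c : ℕ, ∀ z : Option (Bool × (Fin (K + 1) → Bool)) →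
          MvPolynomial (Fin (2 + K)) 𝓕, (∀ j, e j % 2 ≠ c → z j = 0) →
          ∀ i, v (a i) * v (z i) ^ 2 ≤ v (∑ j, a j * z j ^ 2) := by
        intro c z hz i
        by_cases hc0 : c = 0
        · subst hc0
          refine SA_supp v a (fun o : Option (Bool × (Fin K → Bool)) =>
            o.map (fun p => (p.1, (Fin.cons false p.2 : Fin (K + 1) → Bool)))) ?_ ?_ z ?_ i
          · apply Option.map_injective
            rintro ⟨b, S⟩ ⟨b', S'⟩ hbb
            rw [Prod.mk.injEq] at hbb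
            rw [Prod.mk.injEq]
            exact ⟨hbb.1, Fin.cons_right_injective (α := fun _ => Bool) _ hbb.2⟩
          · have h3 : (fun o : Option (Bool × (Fin K → Bool)) => a
                (o.map (fun p => (p.1, (Fin.cons false p.2 : Fin (K + 1) → Bool))))) = LL 𝓕 K := by
              funext o
              rcases o with _ | ⟨b, S⟩
              · rfl
              · simp [ha]
            rw [h3]
            exact hSA
          · intro j hj
            rcases j with _ | ⟨b, S⟩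
            · exact absurd rfl (hj none)
            · apply hz
              intro h4
              apply hj (some (b, fun i => S i.succ))
              simp only [he, Option.elim] at h4
              have h5 : S 0 = false := by
                by_contra h6
                rw [Bool.not_eq_false] at h6
                simp [h6] at h4
              simp only [Option.map]
              congr 2
              funext i
              refine Fin.cases ?_ (fun j => ?_) i
              · simp [h5]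
              · simp
        · by_cases hc1 : c = 1
          · subst hc1
            refine SA_supp v a (fun p : Bool × (Fin K → Bool) =>
              some (p.1, (Fin.cons true p.2 : Fin (K + 1) → Bool))) ?_ ?_ z ?_ i
            · rintro ⟨b, S⟩ ⟨b', S'⟩ hbb
              simp only [Option.some.injEq, Prod.mk.injEq] at hbb
              rw [Prod.mk.injEq]
              exact ⟨hbb.1, Fin.cons_right_injective (α := fun _ => Bool) _ hbb.2⟩
            · have h3 : (fun p : Bool × (Fin K → Bool) => a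
                  (some (p.1, (Fin.cons true p.2 : Fin (K + 1) → Bool))))
                  = fun p => LL 𝓕 K (some p) := by
                funext p
                simp [ha]
              rw [h3]
              exact SA_comp' v _ hSA some (Option.some_injective _)
            · intro j hj
              rcases j with _ | ⟨b, S⟩
              · exact hz none (by simp [he])
              · apply hz
                intro h4
                apply hj (b, fun i => S i.succ)
                simp only [he, Option.elim] at h4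
                have h5 : S 0 = true := by
                  by_contra h6
                  rw [Bool.not_eq_true] at h6
                  simp [h6] at h4
                simp only
                congr 2
                funext i
                refine Fin.cases ?_ (fun j => ?_) i
                · simp [h5]
                · simp
          · have hz1 : ∀ o, z o = 0 := by
              intro o
              apply hz
              intro h4
              have h5 : e o = 0 ∨ e o = 1 := by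
                rcases o with _ | ⟨b, S⟩
                · left
                  rfl
                · simp only [he, Option.elim]
                  split_ifs <;> simp
              rcases h5 with h5 | h5
              · rw [h5] at h4
                omega
              · rw [h5] at h4
                omega
            rw [hz1]
            simp only [map_zero, ne_eq, OfNat.ofNat_ne_zero, not_false_eq_true, zero_pow, mul_zero]
            exact v.nonneg _
      have key := gauss_SA v hv.nonarch one_pos a e hpar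
        (fun o => MvPolynomial.finSuccEquiv 𝓕 (2 + K) (x o)) o
      have hf : ∀ o, MvPolynomial.finSuccEquiv 𝓕 (2 + K) (LL 𝓕 (K + 1) o) = C (a o) * X ^ (e o) := by
        intro o
        rw [LL_succ, map_mul, map_pow, MvPolynomial.finSuccEquiv_X_zero, finSucc_rename]
      have hLv : mvUp v hv.nonarch (LL 𝓕 (K + 1) o) = v (a o) := by
        rw [mvUp_apply, hf, C_mul_X_pow_eq_monomial, gaussNorm_monomial]
        simp
      have hsum : MvPolynomial.finSuccEquiv 𝓕 (2 + K) (∑ j, LL 𝓕 (K + 1) j * x j ^ 2)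
          = ∑ j, C (a j) * X ^ (e j) * (MvPolynomial.finSuccEquiv 𝓕 (2 + K) (x j)) ^ 2 := by
        rw [map_sum]
        refine Finset.sum_congr rfl fun o' _ => ?_
        rw [map_mul, map_pow, hf]
      rw [one_pow, mul_one, ← hsum] at key
      rw [hLv]
      exact key

end Tower

end Pool.Agent.Lib.MP_2619d0_ag.Half

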