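import Pool.Agent.Lib.MP_2619d0_ag.HalfAlgebra

/-!
# The special cubic and the proof of the degree theorem
-/

set_option autoImplicit false

/-!
# Completion, odd extensions and the data of the main argument
-/


namespace Pool.Agent.Lib.MP_2619d0_ag.Half

open Polynomial

section Complete

theorem exists_complete {𝓕 : Type*} [Field 𝓕] (v0 : AbsoluteValue 𝓕 ℝ) {R : Type} [CommRing R]
    [IsDomain R] (v : AbsoluteValue R ℝ) (hv : IsNonarchimedean v) (hnt : ∃ a, 1 < v a)
    (hvals : ∀ p, ∃ a, v p = v0 a) :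
    ∃ (M : Type) (_ : NontriviallyNormedField M) (_ : CompleteSpace M) (_ : IsUltrametricDist M)
      (i : R →+* M), (∀ p, ‖i p‖ = v p) ∧
      (∀ (ι : Type) [Fintype ι] (a : ι → R), SA v a → SA (fun x : M => ‖x‖) (fun o => i (a o))) ∧
      ∀ x : M, ∃ a, ‖x‖ = v0 a := by
  obtain ⟨w, hw, hwa⟩ := exists_fracAbs v hv
  set K := FractionRing R with hK
  let M := UniformSpace.Completion (WithAbs w)
  set i : R →+* M :=
    (UniformSpace.Completion.coeRingHom (α := WithAbs w)).comp
      ((WithAbs.equiv w).symm.toRingHom.comp (algebraMap R K)) with hi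
  have hnorm : ∀ p, ‖i p‖ = v p := by
    intro p
    have h1 : i p = (((WithAbs.toAbs w (algebraMap R K p)) : WithAbs w) :
      UniformSpace.Completion (WithAbs w)) := rfl
    rw [h1, UniformSpace.Completion.norm_coe, ← hwa]
    rfl
  obtain ⟨a, ha⟩ := hnt
  let inst : NontriviallyNormedField M :=
    { (inferInstance : NormedField M) with
      non_trivial := ⟨i a, by
        have : ‖i a‖ = v a := hnorm a
        rw [this]
        exact ha⟩ }
  have hKvals : ∀ x : K, ∃ a, w x = v0 a := by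
    intro x
    obtain ⟨p, q, hq, rfl⟩ := IsFractionRing.div_surjective (A := R) x
    obtain ⟨a, ha⟩ := hvals p
    obtain ⟨b, hb⟩ := hvals q
    exact ⟨a / b, by rw [map_div₀, hwa, hwa, ha, hb, map_div₀]⟩
  refine ⟨M, inst, inferInstanceAs (CompleteSpace M), ?_, i, hnorm, ?_, ?_⟩
  · -- ultrametric
    refine IsUltrametricDist.isUltrametricDist_of_forall_norm_add_le_max_norm ?_
    intro x y
    refine UniformSpace.Completion.induction_on₂ x y ?_ ?_
    · apply isClosed_le
      · fun_prop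
      · fun_prop
    · intro a b
      rw [← UniformSpace.Completion.coe_add, UniformSpace.Completion.norm_coe,
        UniformSpace.Completion.norm_coe, UniformSpace.Completion.norm_coe]
      exact hw _ _
  · intro ι _ a hSA
    have hSAw := SA_frac v w hwa _ hSA
    refine SA_completion (K := WithAbs w)
      (fun o => WithAbs.toAbs w (algebraMap R K (a o))) ?_
    intro x o
    have h1 := hSAw (fun j => (WithAbs.equiv w) (x j)) o
    have h2 : ∀ y : WithAbs w, ‖y‖ = w (WithAbs.equiv w y) := fun y => rfl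
    simp only [h2, map_sum, map_mul, map_pow]
    exact h1
  · intro x
    by_cases hx : x = 0
    · exact ⟨0, by rw [hx, norm_zero, map_zero]⟩
    have hxpos : 0 < ‖x‖ := norm_pos_iff.mpr hx
    obtain ⟨y, hy⟩ := UniformSpace.Completion.denseRange_coe.exists_dist_lt x hxpos
    rw [dist_eq_norm] at hy
    have hya : ‖(y : M)‖ = ‖x‖ := by
      have hna : ∀ a b : M, ‖a + b‖ ≤ max ‖a‖ ‖b‖ := by
        intro a b
        refine UniformSpace.Completion.induction_on₂ a b ?_ ?_
        · apply isClosed_le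
          · fun_prop
          · fun_prop
        · intro a b
          rw [← UniformSpace.Completion.coe_add, UniformSpace.Completion.norm_coe,
            UniformSpace.Completion.norm_coe, UniformSpace.Completion.norm_coe]
          exact hw _ _
      have h1 : (y : M) = x + -(x - (y : M)) := by ring
      have h2 : x = (y : M) + (x - (y : M)) := by ring
      apply le_antisymm
      · conv_lhs => rw [h1]
        refine (hna _ _).trans (max_le le_rfl ?_)
        rw [norm_neg]
        exact hy.le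
      · by_contra hcon
        push Not at hcon
        have h3 := hna (y : M) (x - (y : M))
        rw [← h2] at h3
        exact absurd h3 (not_le.mpr (max_lt hcon hy))
    obtain ⟨a, ha⟩ := hKvals (WithAbs.equiv w y)
    refine ⟨a, ?_⟩
    rw [← hya, ← ha]
    exact UniformSpace.Completion.norm_coe y

/-- Strong anisotropy of a unimodular diagonal form persists in odd degree extensions; the value
group changes only by radicals. -/
theorem SA_odd' {M : Type*} [NontriviallyNormedField M] [CompleteSpace M] [IsUltrametricDist M]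
    [CharZero M] (h2 : ‖(2 : M)‖ = 1) {ι : Type*} [Fintype ι] (a : ι → M) (ha : ∀ i, ‖a i‖ = 1)
    (hSA : SA (fun x : M => ‖x‖) a) {M1 : Type*} [Field M1] [Algebra M M1]
    [FiniteDimensional M M1] (hodd : Odd (Module.finrank M M1)) :
    ∃ v : AbsoluteValue M1 ℝ, IsNonarchimedean v ∧ (∀ x, v (algebraMap M M1 x) = ‖x‖) ∧
      SA v (fun i => algebraMap M M1 (a i)) ∧
      ∀ x, ∃ k : ℕ, 0 < k ∧ ∃ b : M, v x ^ k = ‖b‖ := by
  obtain ⟨v, hv, hvM, hvSA⟩ := SA_odd h2 a ha hSA hodd
  refine ⟨v, hv, hvM, hvSA, ?_⟩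
  -- `v` is the spectral norm
  let : NontriviallyNormedField M1 := spectralNorm.nontriviallyNormedField M M1
  have hsp : ∀ x, v x = spectralNorm M M1 x := by
    let f : AlgebraNorm M M1 :=
      { toFun := v
        map_zero' := map_zero v
        add_le' := v.add_le
        neg' := v.map_neg
        mul_le' := fun x y => (map_mul v x y).le
        eq_zero_of_map_eq_zero' := fun x hx => (AbsoluteValue.eq_zero v).mp hx
        smul' := fun r x => by
          change v (r • x) = ‖r‖ * v x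
          rw [Algebra.smul_def, map_mul, hvM] }
    have hf_pm : IsPowMul f := fun x n _ => map_pow v x n
    have h1 := spectralNorm_unique (K := M) (L := M1) (f := f) hf_pm
    intro x
    have h2 := congrArg (fun g : AlgebraNorm M M1 => g x) h1
    exact h2
  intro x
  have hint : IsIntegral M x := Algebra.IsIntegral.isIntegral x
  refine ⟨(minpoly M x).natDegree, minpoly.natDegree_pos hint, (minpoly M x).coeff 0, ?_⟩
  rw [hsp, spectralNorm.spectralNorm_eq_norm_coeff_zero_rpow, ← Real.rpow_natCast, ← Real.rpow_mul (norm_nonneg _),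
    one_div, inv_mul_cancel₀, Real.rpow_one]
  exact_mod_cast (minpoly.natDegree_pos hint).ne'

end Complete

section Exchange

theorem algInd_exchange {k M ι : Type*} [Field k] [Field M] [Algebra k M] (x : ι → M) (A τ ν : M)
    (h : AlgebraicIndependent k (fun o : Option ι => o.elim A x))
    (hν : ν ∈ Algebra.adjoin k (Set.range x))
    (hrel : A ^ 2 + (2 + 4 * (τ * ν)) * A + (1 - 4 * ν ^ 3) = 0) :
    AlgebraicIndependent k (fun o : Option ι => o.elim τ x) := by
  rw [AlgebraicIndependent.option_iff] at h ⊢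
  obtain ⟨hx, hA⟩ := h
  refine ⟨hx, fun hτ => hA ?_⟩
  set B := Algebra.adjoin k (Set.range x) with hB
  set S := Subalgebra.algebraicClosure B M with hS
  have hνS : ν ∈ S := by
    have h1 : algebraMap B M ⟨ν, hν⟩ ∈ S := S.algebraMap_mem _
    exact h1
  have hτS : τ ∈ S := hτ
  have hb : 2 + 4 * (τ * ν) ∈ S := by
    refine S.add_mem ?_ (S.mul_mem ?_ (S.mul_mem hτS hνS))
    · exact natCast_mem S 2
    · exact natCast_mem S 4
  have hc : 1 - 4 * ν ^ 3 ∈ S := by
    refine S.sub_mem (S.one_mem) (S.mul_mem ?_ (S.pow_mem hνS 3))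
    exact natCast_mem S 4
  have hint : IsIntegral S A := by
    refine ⟨X ^ 2 + (C ⟨_, hb⟩ * X + C ⟨_, hc⟩), ?_, ?_⟩
    · refine monic_X_pow_add ?_
      refine (degree_linear_le).trans_lt ?_
      exact_mod_cast one_lt_two
    · rw [eval₂_add, eval₂_add, eval₂_mul, eval₂_C, eval₂_C, eval₂_X, eval₂_pow, eval₂_X]
      change A ^ 2 + ((2 + 4 * (τ * ν)) * A + (1 - 4 * ν ^ 3)) = 0
      rw [← add_assoc]
      exact hrel
  exact (hint.isAlgebraic).restrictScalars B

theorem algInd_scale {k A J : Type*} [Field k] [CommRing A] [Algebra k A] (b : J → A)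
    (hb : AlgebraicIndependent k b) (q : J → k) (hq : ∀ j, q j ≠ 0) :
    AlgebraicIndependent k (fun j => algebraMap k A (q j) * b j) := by
  set φ : MvPolynomial J k →ₐ[k] MvPolynomial J k :=
    MvPolynomial.aeval (fun j => MvPolynomial.C (q j) * MvPolynomial.X j) with hφ
  set φ' : MvPolynomial J k →ₐ[k] MvPolynomial J k :=
    MvPolynomial.aeval (fun j => MvPolynomial.C (q j)⁻¹ * MvPolynomial.X j) with hφ'
  have hcomp : φ'.comp φ = AlgHom.id k _ := by
    apply MvPolynomial.algHom_ext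
    intro j
    rw [AlgHom.comp_apply, hφ, MvPolynomial.aeval_X, map_mul]
    have h1 : ∀ r : k, φ' (MvPolynomial.C r) = MvPolynomial.C r := fun r => φ'.commutes r
    rw [h1, hφ', MvPolynomial.aeval_X, AlgHom.id_apply, ← mul_assoc, ← MvPolynomial.C_mul,
      mul_inv_cancel₀ (hq j), MvPolynomial.C_1, one_mul]
  have hφinj : Function.Injective φ := by
    intro p p' h
    have h1 := congrArg φ' h
    rw [← AlgHom.comp_apply, ← AlgHom.comp_apply, hcomp] at h1
    exact h1
  have h2 : (MvPolynomial.aeval (fun j => algebraMap k A (q j) * b j) :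
      MvPolynomial J k →ₐ[k] A) = (MvPolynomial.aeval b).comp φ := by
    apply MvPolynomial.algHom_ext
    intro j
    rw [AlgHom.comp_apply, MvPolynomial.aeval_X, hφ, MvPolynomial.aeval_X, map_mul,
      MvPolynomial.aeval_C, MvPolynomial.aeval_X]
  rw [AlgebraicIndependent, h2]
  exact (show Function.Injective (MvPolynomial.aeval b) from hb).comp hφinj

theorem norm_three : ‖(3 : PadicAlgCl 3)‖ = 1 / 3 := by
  have h1 := PadicAlgCl.norm_extends 3 ((3 : ℕ) : ℚ_[3])
  rw [map_natCast, Padic.norm_p] at h1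
  have h2 : ((3 : ℕ) : PadicAlgCl 3) = 3 := by norm_num
  rw [h2] at h1
  rw [h1]
  norm_num

theorem norm_two : ‖(2 : PadicAlgCl 3)‖ = 1 := by
  have h1 := IsUltrametricDist.norm_natCast_le_one (PadicAlgCl 3) 2
  by_contra h
  have h2 : ‖((2 : ℕ) : PadicAlgCl 3)‖ < 1 := by
    refine lt_of_le_of_ne h1 ?_
    simpa using h
  have h3 : (1 : PadicAlgCl 3) = 3 + (-((2 : ℕ) : PadicAlgCl 3)) := by norm_num
  have h4 : ‖(1 : PadicAlgCl 3)‖ < 1 := by
    rw [h3]
    refine (IsUltrametricDist.norm_add_le_max _ _).trans_lt (max_lt ?_ ?_)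
    · rw [norm_three]
      norm_num
    · rw [norm_neg]
      exact h2
  rw [norm_one] at h4
  exact lt_irrefl _ h4

end Exchange

section Index

variable (k r : ℕ)

/-- The number of additional variables. -/
abbrev KK (k r : ℕ) : ℕ := k + ((k + 1 + 1) + r)

/-- The role of each coordinate. -/
def gmap : Fin r ⊕ Fin (k + 1 + 2 + (k + 1)) → Option (Option (Fin (KK k r))) :=
  Sum.elim (fun l => some (some (Fin.natAdd k (Fin.natAdd (k + 1 + 1) l))))
    (Fin.addCases (motive := fun _ => Option (Option (Fin (KK k r))))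
      (Fin.cases (some (some (Fin.natAdd k (Fin.castAdd r 0))))
        (Fin.cases (some none) (fun j => some (some (Fin.natAdd k (Fin.castAdd r j.succ))))))
      (Fin.cases none (fun j => some (some (Fin.castAdd _ j)))))

/-- A left inverse of `gmap`. -/
def gmap' : Option (Option (Fin (KK k r))) → Fin r ⊕ Fin (k + 1 + 2 + (k + 1))
  | none => Sum.inr (Fin.natAdd (k + 1 + 2) 0)
  | some none => Sum.inr (Fin.castAdd (k + 1) 1)
  | some (some j) => Fin.addCases (motive := fun _ => Fin r ⊕ Fin (k + 1 + 2 + (k + 1)))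
      (fun j => Sum.inr (Fin.natAdd (k + 1 + 2) j.succ))
      (Fin.addCases (motive := fun _ => Fin r ⊕ Fin (k + 1 + 2 + (k + 1)))
        (Fin.cases (Sum.inr (Fin.castAdd (k + 1) 0))
          (fun j => Sum.inr (Fin.castAdd (k + 1) j.succ.succ))) (fun l => Sum.inl l)) j

theorem gmap_left : Function.LeftInverse (gmap' k r) (gmap k r) := by
  rintro (l | i)
  · simp [gmap, gmap']
  · refine Fin.addCases (fun i => ?_) (fun i => ?_) i
    · refine Fin.cases ?_ (fun i => ?_) i
      · simp [gmap, gmap']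
      · refine Fin.cases ?_ (fun i => ?_) i
        · simp only [gmap, gmap', Sum.elim_inr, Fin.addCases_left]
          rfl
        · simp [gmap, gmap']
    · refine Fin.cases ?_ (fun i => ?_) i
      · simp [gmap, gmap']
      · simp [gmap, gmap']

end Index

end Pool.Agent.Lib.MP_2619d0_ag.Half

/-!
# The data of the main argument
-/


namespace Pool.Agent.Lib.MP_2619d0_ag.Half

open MvPolynomial

/-- Scaling weights. -/
noncomputable def wt (k r : ℕ) (x : PadicAlgCl 3) : Fin r ⊕ Fin (k + 1 + 2 + (k + 1)) → PadicAlgCl 3 :=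
  Sum.elim (fun _ => 1)
    (Fin.addCases (motive := fun _ => PadicAlgCl 3)
      (Fin.cases x (Fin.cases 1 (fun _ => x))) (fun _ => 1))

theorem wt_ne_zero (k r : ℕ) {x : PadicAlgCl 3} (hx : x ≠ 0)
    (j : Fin r ⊕ Fin (k + 1 + 2 + (k + 1))) : wt k r x j ≠ 0 := by
  rcases j with l | i
  · exact one_ne_zero
  · simp only [wt, Sum.elim_inr]
    refine Fin.addCases (fun i => ?_) (fun i => ?_) i
    · rw [Fin.addCases_left]
      refine Fin.cases ?_ (fun i => ?_) i
      · exact hx
      · refine Fin.cases ?_ (fun i => ?_) i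
        · exact one_ne_zero
        · exact hx
    · rw [Fin.addCases_right]
      exact one_ne_zero

/-- Extension of a subset by the empty set. -/
def extS (k m : ℕ) (S : Fin k → Bool) : Fin (k + m) → Bool :=
  Fin.addCases (motive := fun _ => Bool) S (fun _ => false)

theorem pf_extS {R : Type*} [CommRing R] {k m : ℕ} (t : Fin (k + m) → R) (S : Fin k → Bool) :
    pf t (extS k m S) = pf (fun j => t (Fin.castAdd m j)) S := by
  unfold pf extS
  rw [Fin.prod_univ_add]
  simp

theorem extS_injective (k m : ℕ) : Function.Injective (extS k m) := by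
  intro S S' h
  funext j
  have h1 := congrFun h (Fin.castAdd m j)
  simpa [extS] using h1

/-- The embedding of slots. -/
def emb (k m : ℕ) : Option (Fin (k + 1) → Bool) → Option (Bool × (Fin (k + m) → Bool)) :=
  Option.map (fun S => (S 0, extS k m (fun i => S i.succ)))

theorem emb_injective (k m : ℕ) : Function.Injective (emb k m) := by
  apply Option.map_injective
  intro S S' h
  simp only [Prod.mk.injEq] at h
  funext i
  refine Fin.cases h.1 (fun j => ?_) i
  exact congrFun (extS_injective k m h.2) j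

/-- The list of slots for the second comparison. -/
def lst {R : Type*} [CommRing R] {n : ℕ} (τ : Fin n → R) (s : R) : Option (Fin n → Bool) → R
  | none => -s
  | some S => pf τ S

theorem exists_setup2 (k r : ℕ) (F : MvPolynomial (Fin (k + 1 + 2 + (k + 1) + 1 + 1)) ℂ)
    (hF : F.IsHomogeneous 3)
    (hgen : AlgebraicIndependent ℚ
      (fun j : Exp3 (k + 1 + 2 + (k + 1) + 1 + 1) => coeff j.1 F)) :
    ∃ (ψ : ℂ →+* PadicAlgCl 3) (M : Type) (_ : NontriviallyNormedField M) (_ : CompleteSpace M)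
      (_ : IsUltrametricDist M) (κ : PadicAlgCl 3 →+* M) (θ : Fin (k + 1 + 2 + (k + 1)) → M)
      (U : Fin r → M) (η : M),
      (∀ d, ‖(map ψ F).coeff d - (((Fh (0 : Fin (k + 1))).coeff d : ℤ) : PadicAlgCl 3)‖ ≤ 1 / 9) ∧
      (∀ a, ‖κ a‖ = ‖a‖) ∧
      ‖θ (Fin.castAdd (k + 1) 0)‖ ≤ 1 / 3 ∧ ‖θ (Fin.castAdd (k + 1) 1)‖ = 1 ∧
      (∀ j : Fin (k + 1), ‖θ (Fin.castAdd (k + 1) j.succ.succ)‖ ≤ 1 / 3) ∧
      (∀ j, ‖θ (Fin.natAdd (k + 1 + 2) j)‖ = 1) ∧ ‖η‖ ≤ 1 ∧
      η ^ 2 + 2 * (θ (Fin.natAdd (k + 1 + 2) 0) * θ (Fin.castAdd (k + 1) 1)) * η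
        - θ (Fin.castAdd (k + 1) 1) ^ 3
        - θ (Fin.natAdd (k + 1 + 2) 0) * θ (Fin.castAdd (k + 1) 1) = 0 ∧
      ‖η + θ (Fin.natAdd (k + 1 + 2) 0) * θ (Fin.castAdd (k + 1) 1)‖ = 1 ∧
      SA (fun x : M => ‖x‖) (lst (fun j => θ (Fin.natAdd (k + 1 + 2) j))
        (θ (Fin.natAdd (k + 1 + 2) 0) * θ (Fin.castAdd (k + 1) 1))) ∧
      (∀ x : M, ∃ a : PadicAlgCl 3, ‖x‖ = ‖a‖) ∧
      (∀ P : MvPolynomial (Fin r ⊕ Fin (k + 1 + 2 + (k + 1))) ℂ,
        eval₂ (κ.comp ψ) (Sum.elim U θ) P = 0 → P = 0) := by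
  classical
  obtain ⟨ψ, hψ⟩ := exists_embedding 3
    (fun j : Exp3 (k + 1 + 2 + (k + 1) + 1 + 1) => coeff j.1 F) hgen
    (fun j => (Fh (0 : Fin (k + 1))).coeff j.1) (by norm_num : (0 : ℝ) < 1 / 9)
  set v0 : AbsoluteValue (PadicAlgCl 3) ℝ := NormedField.toAbsoluteValue (PadicAlgCl 3) with hv0
  have hna0 : IsNonarchimedean v0 := fun x y => IsUltrametricDist.norm_add_le_max x y
  set K := KK k r with hK
  obtain ⟨v, hv, hP, hD, hSA⟩ := exists_mv v0 hna0 norm_two K
  have hnt : ∃ a, 1 < v a := by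
    refine ⟨C (1 / 3), ?_⟩
    rw [hv.C, hv0]
    change 1 < ‖(1 / 3 : PadicAlgCl 3)‖
    rw [norm_div, norm_one, norm_three]
    norm_num
  obtain ⟨M, instM, hcomp, hultra, i, hi, hiSA, hiv⟩ := exists_complete v0 v hv.nonarch hnt hv.vals
  have hinj : Function.Injective i := by
    intro p q hpq
    have h1 : v (p - q) = 0 := by
      rw [← hi, map_sub, hpq, sub_self, norm_zero]
    exact sub_eq_zero.mp ((AbsoluteValue.eq_zero v).mp h1)
  set κ : PadicAlgCl 3 →+* M := i.comp C with hκ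
  have hκn : ∀ a, ‖κ a‖ = ‖a‖ := fun a => by
    change ‖i (C a)‖ = _
    rw [hi, hv.C]
    rfl
  -- the generic elements
  set A : M := i (up K (X 0)) with hA
  set ν : M := i (up K (X 1)) with hν
  set T : Fin K → M := fun j => i (tv _ K j) with hT
  have hupX : ∀ l : Fin 2, up K (X l : MvPolynomial (Fin 2) (PadicAlgCl 3)) = X (Fin.addNat l K) :=
    fun l => rename_X _ _
  have hA1 : ‖A‖ = 1 := by rw [hA, hi, hupX, hv.X]
  have hν1 : ‖ν‖ = 1 := by rw [hν, hi, hupX, hv.X]
  have hT1 : ∀ j, ‖T j‖ = 1 := fun j => by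
    simp only [hT]
    rw [hi, tv, hv.X]
  have hA0 : A ≠ 0 := by
    intro h
    rw [h, norm_zero] at hA1
    exact zero_ne_one hA1
  have hν0 : ν ≠ 0 := by
    intro h
    rw [h, norm_zero] at hν1
    exact zero_ne_one hν1
  have h2M : ‖(2 : M)‖ = 1 := by
    have h5 := hκn 2
    rw [map_ofNat, norm_two] at h5
    exact h5
  have h20 : (2 : M) ≠ 0 := by
    intro h
    rw [h, norm_zero] at h2M
    exact zero_ne_one h2M
  have h40 : (4 : M) ≠ 0 := by
    have : (4 : M) = 2 * 2 := by norm_num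
    rw [this]
    exact mul_ne_zero h20 h20
  have hq : κ (1 / 4) = 1 / 4 := by
    rw [map_div₀, map_one, map_ofNat]
  set Pv : M := i (up K (P0 _)) with hPv
  set Dv : M := i (up K (D0 _)) with hDv
  have hPv1 : ‖Pv‖ = 1 := by rw [hPv, hi, hP]
  have hDv1 : ‖Dv‖ = 1 := by rw [hDv, hi, hD]
  have hupC : ∀ a : PadicAlgCl 3, i (up K (C a)) = κ a := fun a => by
    rw [up, rename_C]
    rfl
  have hPve : Pv = ν ^ 3 - 1 / 4 * (A + 1) ^ 2 := by
    have h1 : i (up K (P0 (PadicAlgCl 3))) = ν ^ 3 - i (up K (C (1 / 4))) * (A + 1) ^ 2 := by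
      simp only [up, P0, map_sub, map_mul, map_pow, map_add, map_one, hν, hA]
    rw [hPv, h1, hupC, hq]
  have hDve : Dv = ν ^ 3 + 1 / 4 * (A ^ 2 - 1) := by
    have h1 : i (up K (D0 (PadicAlgCl 3))) = ν ^ 3 + i (up K (C (1 / 4))) * (A ^ 2 - 1) := by
      simp only [up, D0, map_sub, map_mul, map_pow, map_add, map_one, hν, hA]
    rw [hDv, h1, hupC, hq]
  set τ0 : M := Pv / (ν * A) with hτ0
  have hτ01 : ‖τ0‖ = 1 := by
    rw [hτ0, norm_div, norm_mul, hPv1, hν1, hA1]
    norm_num
  set η : M := (A + 1) / 2 with hη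
  have hη1 : ‖η‖ ≤ 1 := by
    rw [hη, norm_div, h2M, div_one]
    refine (IsUltrametricDist.norm_add_le_max _ _).trans (max_le hA1.le ?_)
    rw [norm_one]
  set fam : Option (Option (Fin K)) → M := fun o => o.elim τ0 (fun o' => o'.elim ν T) with hfam
  have h30 : (3 : PadicAlgCl 3) ≠ 0 := by
    intro h
    have := norm_three
    rw [h, norm_zero] at this
    norm_num at this
  set θ : Fin (k + 1 + 2 + (k + 1)) → M := fun j => κ (wt k r 3 (Sum.inr j)) * fam (gmap k r (Sum.inr j))
    with hθ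
  set U : Fin r → M := fun l => κ (wt k r 3 (Sum.inl l)) * fam (gmap k r (Sum.inl l)) with hU
  -- values of `θ`
  have hθM : θ (Fin.castAdd (k + 1) 0) = κ 3 * T (Fin.natAdd k (Fin.castAdd r 0)) := by
    simp only [hθ, wt, gmap, Sum.elim_inr, Fin.addCases_left, Fin.cases_zero, hfam, Option.elim]
  have hθν : θ (Fin.castAdd (k + 1) 1) = ν := by
    have h1 : θ (Fin.castAdd (k + 1) 1) = κ 1 * ν := by
      simp only [hθ, wt, gmap, Sum.elim_inr, Fin.addCases_left]
      rfl
    rw [h1, map_one, one_mul]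
  have hθy : ∀ j : Fin (k + 1), θ (Fin.castAdd (k + 1) j.succ.succ)
      = κ 3 * T (Fin.natAdd k (Fin.castAdd r j.succ)) := by
    intro j
    simp only [hθ, wt, gmap, Sum.elim_inr, Fin.addCases_left, Fin.cases_succ, hfam, Option.elim]
  have hθ0 : θ (Fin.natAdd (k + 1 + 2) 0) = τ0 := by
    simp only [hθ, wt, gmap, Sum.elim_inr, Fin.addCases_right, Fin.cases_zero, hfam, Option.elim,
      map_one, one_mul]
  have hθτ : ∀ j : Fin k, θ (Fin.natAdd (k + 1 + 2) j.succ) = T (Fin.castAdd _ j) := by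
    intro j
    simp only [hθ, wt, gmap, Sum.elim_inr, Fin.addCases_right, Fin.cases_succ, hfam, Option.elim,
      map_one, one_mul]
  have hκ3 : ‖κ 3‖ = 1 / 3 := by rw [hκn, norm_three]
  refine ⟨ψ, M, instM, hcomp, hultra, κ, θ, U, η, ?_, hκn, ?_, ?_, ?_, ?_, hη1, ?_, ?_, ?_, hiv, ?_⟩
  · intro d
    rw [coeff_map]
    by_cases hd : d.degree = 3
    · exact hψ ⟨d, hd⟩
    · have h1 : coeff d F = 0 := by
        by_contra h
        exact hd (degree_of_mem hF (mem_support_iff.mpr h))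
      have h2 : coeff d (Fh (0 : Fin (k + 1))) = 0 := by
        by_contra h
        exact hd (degree_of_mem (Fh_homogeneous _) (mem_support_iff.mpr h))
      rw [h1, h2]
      simp
  · rw [hθM, norm_mul, hκ3, hT1, mul_one]
  · rw [hθν, hν1]
  · intro j
    rw [hθy, norm_mul, hκ3, hT1, mul_one]
  · intro j
    refine Fin.cases ?_ (fun j => ?_) j
    · rw [hθ0, hτ01]
    · rw [hθτ, hT1]
  · rw [hθ0, hθν, hτ0, hPve, hη]
    field_simp
    ring
  · rw [hθ0, hθν]
    have h1 : η + τ0 * ν = Dv / A := by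
      rw [hτ0, hPve, hDve, hη]
      field_simp
      ring
    rw [h1, norm_div, hDv1, hA1]
    norm_num
  · -- strong anisotropy
    have h1 := hiSA _ _ hSA
    have h2 := SA_comp' (NormedField.toAbsoluteValue M) _ h1 (emb k ((k + 1 + 1) + r))
      (emb_injective _ _)
    have h3 := SA_mul_sq (NormedField.toAbsoluteValue M) _
      (fun o : Option (Fin (k + 1) → Bool) => o.elim A⁻¹ (fun S => if S 0 then (ν * A)⁻¹ else 1))
      (by
        intro o
        rcases o with _ | S
        · change ‖A⁻¹‖ = 1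
          rw [norm_inv, hA1, inv_one]
        · change ‖(if S 0 then (ν * A)⁻¹ else 1 : M)‖ = 1
          split_ifs
          · rw [norm_inv, norm_mul, hν1, hA1, one_mul, inv_one]
          · exact norm_one) h2
    have h4 : (fun o : Option (Fin (k + 1) → Bool) =>
        i (LL (PadicAlgCl 3) K (emb k ((k + 1 + 1) + r) o)) *
        (o.elim A⁻¹ (fun S => if S 0 then (ν * A)⁻¹ else 1)) ^ 2)
        = lst (fun j => θ (Fin.natAdd (k + 1 + 2) j))
        (θ (Fin.natAdd (k + 1 + 2) 0) * θ (Fin.castAdd (k + 1) 1)) := by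
      funext o
      rcases o with _ | S
      · have h5 : i (up K (slots (PadicAlgCl 3) none)) = -(A * Pv) := by
          simp only [up, slots, map_neg, map_mul, hA, hPv]
        simp only [emb, Option.map, LL, lst, Option.elim]
        rw [h5, hθ0, hθν, hτ0]
        field_simp
      · have h6 : i (pf (tv (PadicAlgCl 3) K) (extS k ((k + 1 + 1) + r) (fun i => S i.succ)))
            = pf (fun j => θ (Fin.natAdd (k + 1 + 2) j.succ)) (fun i => S i.succ) := by
          rw [pf_map, pf_extS]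
          congr 1
          funext j
          exact (hθτ j).symm
        simp only [emb, Option.map, LL, lst, Option.elim]
        rw [map_mul, h6, pf_cons (fun j => θ (Fin.natAdd (k + 1 + 2) j)), hθ0]
        by_cases hS : S 0
        · have h5 : i (up K (slots (PadicAlgCl 3) (some true))) = ν * A * Pv := by
            simp only [up, slots, map_mul, hA, hν, hPv]
          simp only [hS, if_true]
          rw [h5, hτ0]
          field_simp
        · have h5 : i (up K (slots (PadicAlgCl 3) (some false))) = 1 := by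
            simp only [up, slots, map_one]
          rw [Bool.not_eq_true] at hS
          simp only [hS, Bool.false_eq_true, if_false]
          rw [h5]
          ring
    rw [← h4]
    exact h3
  · -- algebraic independence
    let algFM : Algebra (PadicAlgCl 3) M := κ.toAlgebra
    let algCF : Algebra ℂ (PadicAlgCl 3) := ψ.toAlgebra
    let algCM : Algebra ℂ M := (κ.comp ψ).toAlgebra
    have tower : IsScalarTower ℂ (PadicAlgCl 3) M := IsScalarTower.of_algebraMap_eq fun _ => rfl
    have h1 : AlgebraicIndependent (PadicAlgCl 3) (fun j : Fin (2 + K) => i (X j)) := by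
      have h2 : (aeval (fun j : Fin (2 + K) => i (X j)) :
          MvPolynomial (Fin (2 + K)) (PadicAlgCl 3) →ₐ[PadicAlgCl 3] M).toRingHom = i := by
        apply MvPolynomial.ringHom_ext
        · intro a
          change aeval _ (C a) = _
          rw [aeval_C]
          rfl
        · intro j
          change aeval _ (X j) = _
          rw [aeval_X]
      intro p q hpq
      apply hinj
      rw [← h2]
      exact hpq
    set x : Option (Fin K) → M := fun o' => o'.elim ν T with hx
    have h2 : AlgebraicIndependent (PadicAlgCl 3)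
        (fun o : Option (Option (Fin K)) => o.elim A x) := by
      have h3 := h1.comp (fun o : Option (Option (Fin K)) =>
        (o.elim (Fin.addNat 0 K) (fun o' => o'.elim (Fin.addNat 1 K)
          (fun j => Fin.castLE (by omega) j)) : Fin (2 + K))) (by
        rintro (_ | _ | a) (_ | _ | b) hab
        · rfl
        · have := congrArg Fin.val hab
          simp at this
        · have := congrArg Fin.val hab
          simp at this
          omega
        · have := congrArg Fin.val hab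
          simp at this
        · rfl
        · have := congrArg Fin.val hab
          simp at this
          omega
        · have := congrArg Fin.val hab
          simp at this
          omega
        · have := congrArg Fin.val hab
          simp at this
          omega
        · have := congrArg Fin.val hab
          simp at this
          have hab' : a = b := Fin.ext this
          rw [hab'])
      have h4 : ((fun j : Fin (2 + K) => i (X j)) ∘ (fun o : Option (Option (Fin K)) =>
        (o.elim (Fin.addNat 0 K) (fun o' => o'.elim (Fin.addNat 1 K)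
          (fun j => Fin.castLE (by omega) j)) : Fin (2 + K))))
          = fun o : Option (Option (Fin K)) => o.elim A x := by
        funext o
        rcases o with _ | _ | a
        · simp only [Function.comp_apply, Option.elim, hA, hupX]
        · simp only [Function.comp_apply, Option.elim, hx, hν, hupX]
        · simp only [Function.comp_apply, Option.elim, hx, hT, tv]
      rw [← h4]
      exact h3
    have h3 : AlgebraicIndependent (PadicAlgCl 3)
        (fun o : Option (Option (Fin K)) => o.elim τ0 x) := by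
      refine algInd_exchange x A τ0 ν h2 (Algebra.subset_adjoin ⟨none, rfl⟩) ?_
      rw [hτ0, hPve]
      field_simp
      ring
    have h4 := algInd_scale _ (h3.comp (gmap k r) (gmap_left k r).injective) (wt k r 3)
      (wt_ne_zero k r h30)
    have h5 : (fun j => algebraMap (PadicAlgCl 3) M (wt k r 3 j) *
        ((fun o : Option (Option (Fin K)) => o.elim τ0 x) ∘ gmap k r) j) = Sum.elim U θ := by
      funext j
      rcases j with a | a
      · rfl
      · rfl
    rw [h5] at h4
    have h6 : AlgebraicIndependent ℂ (Sum.elim U θ) :=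
      h4.restrictScalars (algebraMap ℂ (PadicAlgCl 3)).injective
    intro P hP
    apply h6
    rw [map_zero]
    exact hP

end Pool.Agent.Lib.MP_2619d0_ag.Half

/-!
# Two points of different classes
-/


namespace Pool.Agent.Lib.MP_2619d0_ag.Half

open Polynomial

/-- Relation between a form and its dehomogenisation. -/
theorem eval₂_eq_dh {k S : Type*} [Field k] [Field S] (ρ : k →+* S) {m d : ℕ}
    (x : Fin (m + 1) → S) (hx : x 0 ≠ 0) {G : MvPolynomial (Fin (m + 1)) k}
    (hG : G.IsHomogeneous d) :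
    MvPolynomial.eval₂ ρ x G
      = x 0 ^ d * MvPolynomial.eval₂ ρ (fun j : Fin m => x j.succ / x 0) (dh k m G) := by
  conv_lhs => rw [G.as_sum]
  conv_rhs => rw [G.as_sum]
  rw [MvPolynomial.eval₂_sum, map_sum, MvPolynomial.eval₂_sum, Finset.mul_sum]
  refine Finset.sum_congr rfl fun e he => ?_
  rw [dh_monomial, MvPolynomial.eval₂_monomial, MvPolynomial.eval₂_monomial,
    Finsupp.prod_fintype _ _ (by intro i; simp),
    Finsupp.prod_fintype _ _ (by intro i; simp), Fin.prod_univ_succ]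
  have h1 : d = e 0 + e.tail.degree := by
    rw [← degree_eq_cons, degree_of_mem hG he]
  have h2 : x 0 ^ e.tail.degree * ∏ i : Fin m, (x i.succ / x 0) ^ e.tail i
      = ∏ i : Fin m, x i.succ ^ e i.succ := by
    rw [Finsupp.degree_eq_sum, ← Finset.prod_pow_eq_pow_sum, ← Finset.prod_mul_distrib]
    refine Finset.prod_congr rfl fun i _ => ?_
    rw [← mul_pow, mul_div_cancel₀ _ hx, Finsupp.tail_apply]
  rw [← h2]
  conv_rhs => rw [h1]
  rw [pow_add]
  ring

theorem eval_bound {M : Type*} [NormedField M] [IsUltrametricDist M] (E : M[X]) {ε : ℝ}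
    (hε : 0 ≤ ε) (hE : ∀ k, ‖E.coeff k‖ ≤ ε) {y : M} (hy : ‖y‖ ≤ 1) :
    ‖E.eval y‖ ≤ ε ∧ ‖E.derivative.eval y‖ ≤ ε := by
  constructor
  · rw [eval_eq_sum, Polynomial.sum_def]
    refine IsUltrametricDist.norm_sum_le_of_forall_le_of_nonneg hε fun k _ => ?_
    rw [norm_mul, norm_pow]
    calc _ ≤ ε * 1 := mul_le_mul (hE k) (pow_le_one₀ (norm_nonneg _) hy)
          (pow_nonneg (norm_nonneg _) _) hε
      _ = ε := mul_one _
  · rw [derivative_eval, Polynomial.sum_def]
    refine IsUltrametricDist.norm_sum_le_of_forall_le_of_nonneg hε fun k _ => ?_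
    rw [norm_mul, norm_mul, norm_pow]
    calc _ ≤ (ε * 1) * 1 := by
          refine mul_le_mul (mul_le_mul (hE k) (norm_natCast_le_one' k) (norm_nonneg _) hε)
            (pow_le_one₀ (norm_nonneg _) hy) (pow_nonneg (norm_nonneg _) _) (by linarith)
      _ = ε := by ring

/-- The vector `(c, y, θ)`. -/
def vecm {R : Type*} {m : ℕ} (c y : R) (θ : Fin m → R) : Fin (m + 1 + 1) → R :=
  Fin.cases c (Fin.cases y θ)

theorem vecm_map {R S : Type*} {m : ℕ} (f : R → S) (c y : R) (θ : Fin m → R) :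
    (fun j => f (vecm c y θ j)) = vecm (f c) (f y) (fun j => f (θ j)) := by
  funext j
  refine Fin.cases ?_ (fun j => ?_) j
  · rfl
  · refine Fin.cases ?_ (fun j => ?_) j
    · rfl
    · rfl

section Roots

variable {𝓕 M : Type*} [NormedField 𝓕] [IsUltrametricDist 𝓕] [NormedField M]
  [IsUltrametricDist M] [CompleteSpace M] (κ : 𝓕 →+* M) (hκ : ∀ a, ‖κ a‖ = ‖a‖)
  (h3 : ‖(3 : 𝓕)‖ = 1 / 3) (h2 : ‖(2 : 𝓕)‖ = 1) {n : ℕ} (j0 : Fin n)
  (F' : MvPolynomial (Fin (n + 2 + n + 1 + 1)) 𝓕) (hF' : F'.IsHomogeneous 3)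
  (hFc : ∀ d, ‖F'.coeff d - (((Fh j0).coeff d : ℤ) : 𝓕)‖ ≤ 1 / 9)
  (θ : Fin (n + 2 + n) → M) (hθM : ‖θ (Fin.castAdd n 0)‖ ≤ 1 / 3)
  (hθν : ‖θ (Fin.castAdd n 1)‖ = 1) (hθy : ∀ j : Fin n, ‖θ (Fin.castAdd n j.succ.succ)‖ ≤ 1 / 3)
  (hθx : ∀ j, ‖θ (Fin.natAdd (n + 2) j)‖ = 1)

omit [CompleteSpace M] [IsUltrametricDist 𝓕] in
include hκ hF' hFc in
/-- Value of the perturbed form at polynomial vectors with integral coordinates. -/
theorem perturb (c y : M[X]) (θ' : Fin (n + 2 + n) → M[X])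
    (hc : ∀ k, ‖c.coeff k‖ ≤ 1) (hy : ∀ k, ‖y.coeff k‖ ≤ 1) (hθ : ∀ j k, ‖(θ' j).coeff k‖ ≤ 1)
    (τ' : Fin n → M[X]) (hbase : ∀ j, θ' (Fin.natAdd (n + 2) j) = τ' j * c) :
    ∃ E : M[X], (∀ k, ‖E.coeff k‖ ≤ 1 / 9) ∧
      MvPolynomial.eval₂ (C.comp κ) (vecm c y θ') F' =
        F0 τ' j0 c (θ' (Fin.castAdd n 0)) (θ' (Fin.castAdd n 1)) y
          (fun j => θ' (Fin.castAdd n j.succ.succ)) + 3 * y ^ 3 + E := by
  set FZ : MvPolynomial (Fin (n + 2 + n + 1 + 1)) 𝓕 :=
    MvPolynomial.map (Int.castRingHom 𝓕) (Fh j0) with hFZ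
  have hH : (F' - FZ).IsHomogeneous 3 := hF'.sub ((Fh_homogeneous j0).map _)
  have hHc : ∀ d, ‖(F' - FZ).coeff d‖ ≤ 1 / 9 := by
    intro d
    rw [MvPolynomial.coeff_sub, hFZ, MvPolynomial.coeff_map]
    exact hFc d
  set v0 : AbsoluteValue M ℝ := NormedField.toAbsoluteValue M with hv0
  have hna : IsNonarchimedean v0 := fun x y => IsUltrametricDist.norm_add_le_max x y
  have hg : ∀ p : M[X], (∀ k, ‖p.coeff k‖ ≤ 1) → gaussNorm v0 1 p ≤ 1 := by
    intro p hp
    obtain ⟨k, hk⟩ := exists_eq_gaussNorm v0 1 p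
    rw [hk, one_pow, mul_one]
    exact hp k
  have hb := form_bound (gaussAbs v0 hna 1 one_pos) (gaussAbs_nonarch v0 hna 1 one_pos)
    (C.comp κ) (fun a => by
      rw [RingHom.comp_apply, gaussAbs_apply, gaussNorm_C]
      exact hκ a) (F' - FZ) hH (by norm_num : (0 : ℝ) ≤ 1 / 9) hHc (vecm c y θ')
      (B := 1) zero_le_one (by
        intro j
        refine Fin.cases ?_ (fun j => ?_) j
        · exact hg c hc
        · refine Fin.cases ?_ (fun j => ?_) j
          · exact hg y hy
          · exact hg (θ' j) (hθ j))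
  refine ⟨MvPolynomial.eval₂ (C.comp κ) (vecm c y θ') (F' - FZ), ?_, ?_⟩
  · intro k
    have h5 := le_gaussNorm v0
      (MvPolynomial.eval₂ (C.comp κ) (vecm c y θ') (F' - FZ)) zero_le_one k
    rw [one_pow, mul_one] at h5
    rw [gaussAbs_apply, one_pow, mul_one] at hb
    exact h5.trans hb
  · rw [MvPolynomial.eval₂_sub, hFZ, MvPolynomial.eval₂_map]
    have h6 : MvPolynomial.eval₂ ((C.comp κ).comp (Int.castRingHom 𝓕)) (vecm c y θ') (Fh j0)
        = MvPolynomial.eval₂ (Int.castRingHom M[X]) (vecm c y θ') (Fh j0) := by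
      congr 1
      exact Subsingleton.elim _ _
    rw [h6, eval_Fh j0 τ' (vecm c y θ') (by
      intro j
      exact hbase j)]
    change _ = F0 τ' j0 c (θ' (Fin.castAdd n 0)) (θ' (Fin.castAdd n 1)) y
      (fun j => θ' (Fin.castAdd n j.succ.succ)) + 3 * y ^ 3 + (_ -
      (F0 τ' j0 c (θ' (Fin.castAdd n 0)) (θ' (Fin.castAdd n 1)) y
      (fun j => θ' (Fin.castAdd n j.succ.succ)) + 3 * y ^ 3))
    ring

omit [CompleteSpace M] in
theorem lt_of_sum {a b : M} (ha : ‖a‖ < 1) (hb : ‖b‖ < 1) : ‖a + b‖ < 1 :=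
  (IsUltrametricDist.norm_add_le_max _ _).trans_lt (max_lt ha hb)

omit [CompleteSpace M] in
theorem le_of_sum {a b : M} {r : ℝ} (ha : ‖a‖ ≤ r) (hb : ‖b‖ ≤ r) : ‖a + b‖ ≤ r :=
  (IsUltrametricDist.norm_add_le_max _ _).trans (max_le ha hb)

omit [CompleteSpace M] in
theorem le_of_diff {a b : M} {r : ℝ} (ha : ‖a‖ ≤ r) (hb : ‖b‖ ≤ r) : ‖a - b‖ ≤ r := by
  rw [sub_eq_add_neg]
  exact le_of_sum ha (by rwa [norm_neg])

omit [CompleteSpace M] [IsUltrametricDist M] in
theorem norm_mul_le_of {a b : M} {r : ℝ} (ha : ‖a‖ ≤ 1) (hb : ‖b‖ ≤ r) :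
    ‖a * b‖ ≤ r := by
  rw [norm_mul]
  have := norm_nonneg b
  nlinarith [norm_nonneg a]

omit [IsUltrametricDist 𝓕] in
include hκ h3 h2 hF' hFc hθM hθν hθy hθx in
theorem exists_root_Q (η : M) (hη : ‖η‖ ≤ 1)
    (heq : η ^ 2 + 2 * (θ (Fin.natAdd (n + 2) j0) * θ (Fin.castAdd n 1)) * η
        - θ (Fin.castAdd n 1) ^ 3 - θ (Fin.natAdd (n + 2) j0) * θ (Fin.castAdd n 1) = 0)
    (hder : ‖η + θ (Fin.natAdd (n + 2) j0) * θ (Fin.castAdd n 1)‖ = 1) :
    ∃ y : M, ‖y‖ ≤ 1 ∧ MvPolynomial.eval₂ κ (vecm 1 y θ) F' = 0 := by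
  have hθ1 : ∀ j, ‖θ j‖ ≤ 1 := by
    intro j
    refine Fin.addCases (fun i => ?_) (fun i => ?_) j
    · refine Fin.cases ?_ (fun i => ?_) i
      · exact hθM.trans (by norm_num)
      · refine Fin.cases ?_ (fun i => ?_) i
        · exact hθν.le
        · exact (hθy i).trans (by norm_num)
    · exact (hθx i).le
  obtain ⟨E, hE, hEq⟩ := perturb κ hκ j0 F' hF' hFc (C 1) X (fun j => C (θ j))
    (by
      intro k
      rw [coeff_C]
      split_ifs <;> simp)
    (by
      intro k
      rw [coeff_X]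
      split_ifs <;> simp)
    (by
      intro j k
      rw [coeff_C]
      split_ifs
      · exact hθ1 j
      · simp) (fun j => C (θ (Fin.natAdd (n + 2) j))) (fun j => by rw [C_1, mul_one])
  set g : M[X] := MvPolynomial.eval₂ (C.comp κ) (vecm (C 1) X (fun j => C (θ j))) F' with hg
  set m := θ (Fin.castAdd n 0) with hm
  set ν := θ (Fin.castAdd n 1) with hν
  set τ0 := θ (Fin.natAdd (n + 2) j0) with hτ0
  set y1 := θ (Fin.castAdd n j0.succ.succ) with hy1
  set s : M := ∑ j : Fin n, θ (Fin.natAdd (n + 2) j) * θ (Fin.castAdd n j.succ.succ) ^ 2 with hs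
  have hs1 : ‖s‖ ≤ 1 / 3 := by
    refine IsUltrametricDist.norm_sum_le_of_forall_le_of_nonneg (by norm_num) fun i _ => ?_
    rw [norm_mul, norm_pow, hθx, one_mul]
    have h5 := hθy i
    have h6 := norm_nonneg (θ (Fin.castAdd n i.succ.succ))
    nlinarith
  have h3M : ‖(3 : M)‖ = 1 / 3 := by
    have h5 := hκ 3
    rw [map_ofNat, h3] at h5
    exact h5
  have h2M : ‖(2 : M)‖ = 1 := by
    have h5 := hκ 2
    rw [map_ofNat, h2] at h5
    exact h5
  set S : M := m ^ 2 + τ0 * ν with hS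
  have hm2 : ‖m ^ 2‖ ≤ 1 / 3 := by
    rw [norm_pow]
    have h6 := norm_nonneg m
    nlinarith
  have hτν : ‖τ0 * ν‖ = 1 := by
    rw [norm_mul, hθν, hθx, one_mul]
  have hS1 : ‖S‖ ≤ 1 := le_of_sum (hm2.trans (by norm_num)) hτν.le
  set c0 : M := s + 2 * m * ν * y1 - ν ^ 3 - S with hc0
  have hmνy : ‖2 * m * ν * y1‖ ≤ 1 / 3 := by
    rw [norm_mul, norm_mul, norm_mul, h2M, hθν, one_mul, mul_one]
    have h5 := hθy j0
    have h6 := norm_nonneg m
    have h7 := norm_nonneg y1
    rw [← hy1] at h5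
    nlinarith
  have hgeq : g = X ^ 2 + C (2 * S) * X + C c0 + C 3 * X ^ 3 + E := by
    rw [hEq, F0, SS]
    have h5 : ∑ j : Fin n, C (θ (Fin.natAdd (n + 2) j)) * C 1 * C (θ (Fin.castAdd n j.succ.succ)) ^ 2
        = C s := by
      rw [hs, map_sum]
      refine Finset.sum_congr rfl fun i _ => ?_
      rw [map_mul, map_pow, C_1, mul_one]
    rw [h5, ← hτ0, ← hy1]
    have h6 : (3 : M[X]) = C 3 := (map_ofNat C 3).symm
    have h7 : (2 : M[X]) = C 2 := (map_ofNat C 2).symm
    rw [h6, h7, C_1, hc0, hS]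
    simp only [C_sub, C_add, C_mul, C_pow]
    ring
  have hc01 : ‖c0‖ ≤ 1 := by
    refine le_of_diff (le_of_diff (le_of_sum (hs1.trans (by norm_num))
      (hmνy.trans (by norm_num))) ?_) hS1
    rw [norm_pow, hθν, one_pow]
  have hcoeff : ∀ k, ‖g.coeff k‖ ≤ 1 := by
    intro k
    rw [hgeq, coeff_add, coeff_add, coeff_add, coeff_add, coeff_X_pow, coeff_C, coeff_C_mul,
      coeff_X, coeff_C_mul, coeff_X_pow]
    refine le_of_sum (le_of_sum (le_of_sum (le_of_sum ?_ ?_) ?_) ?_) ((hE k).trans (by norm_num))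
    · split_ifs <;> simp
    · split_ifs
      · rw [mul_one, norm_mul, h2M, one_mul]
        exact hS1
      · simp
    · split_ifs
      · exact hc01
      · simp
    · rw [norm_mul, h3M]
      split_ifs <;> simp
      norm_num
  have hE1 := eval_bound E (by norm_num : (0 : ℝ) ≤ 1 / 9) hE (y := η) hη
  have hval : ‖g.eval η‖ ≤ 1 / 3 := by
    have h5 : g.eval η = s + 2 * m * ν * y1 + (2 * η) * m ^ 2 - m ^ 2 + η ^ 3 * 3 + E.eval η := by
      rw [hgeq]
      simp only [eval_add, eval_pow, eval_X, eval_mul, eval_C]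
      rw [hc0, hS]
      linear_combination heq
    rw [h5]
    refine le_of_sum (le_of_sum (le_of_diff (le_of_sum (le_of_sum hs1 hmνy) ?_) hm2) ?_)
      (hE1.1.trans (by norm_num))
    · refine norm_mul_le_of ?_ hm2
      rw [norm_mul, h2M, one_mul]
      exact hη
    · refine norm_mul_le_of ?_ h3M.le
      rw [norm_pow]
      exact pow_le_one₀ (norm_nonneg _) hη
  have hder' : ‖g.derivative.eval η‖ = 1 := by
    have h5 : g.derivative.eval η = (2 * m ^ 2 + (3 * η ^ 2) * 3 + E.derivative.eval η)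
        + 2 * (η + τ0 * ν) := by
      rw [hgeq]
      simp
      rw [hS]
      ring
    have h6 : ‖2 * m ^ 2 + (3 * η ^ 2) * 3 + E.derivative.eval η‖ < 1 := by
      refine lt_of_le_of_lt (b := 1 / 3) ?_ (by norm_num)
      refine le_of_sum (le_of_sum (norm_mul_le_of h2M.le hm2) (norm_mul_le_of ?_ h3M.le))
        (hE1.2.trans (by norm_num))
      rw [norm_mul, h3M, norm_pow]
      have h7 : ‖η‖ ^ 2 ≤ 1 := pow_le_one₀ (norm_nonneg _) hη
      linarith
    have h7 : ‖2 * (η + τ0 * ν)‖ = 1 := by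
      rw [norm_mul, h2M, one_mul]
      exact hder
    rw [h5]
    have h8 := IsUltrametricDist.norm_add_eq_max_of_norm_ne_norm
      (x := (2 * m ^ 2 + (3 * η ^ 2) * 3 + E.derivative.eval η : M)) (y := 2 * (η + τ0 * ν))
      (by rw [h7]; exact h6.ne)
    rw [h8, h7, max_eq_right h6.le]
  have hval' : ‖g.eval η‖ < 1 := hval.trans_lt (by norm_num)
  obtain ⟨y, hy0, hy1'⟩ := hensel_complete g hcoeff η hη hval' hder'
  refine ⟨y, ?_, ?_⟩
  · have h5 : y = (y - η) + η := by ring
    rw [h5]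
    exact le_of_sum (hy1'.trans hval'.le) hη
  · rw [hg] at hy0
    have h5 := MvPolynomial.hom_eval₂ F' (C.comp κ) (evalRingHom y)
      (vecm (C 1) X (fun j => C (θ j)))
    rw [coe_evalRingHom, hy0] at h5
    have h6 : (evalRingHom y).comp (C.comp κ) = κ := by
      apply RingHom.ext
      intro x
      simp
    have h7 := vecm_map (fun p : M[X] => eval y p) (C 1) X (fun j => C (θ j))
    rw [h6] at h5
    simp only [eval_C, eval_X] at h7
    rw [← h7]
    exact h5.symm

omit [IsUltrametricDist 𝓕] in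
include hκ h3 hF' hFc hθM hθν hθy hθx in
theorem exists_root_H : ∃ y : M, ‖y‖ = 3 ∧ MvPolynomial.eval₂ κ (vecm 1 y θ) F' = 0 := by
  have h3M : ‖(3 : M)‖ = 1 / 3 := by
    have h5 := hκ 3
    rw [map_ofNat, h3] at h5
    exact h5
  have h30 : (3 : M) ≠ 0 := by
    intro h
    rw [h, norm_zero] at h3M
    norm_num at h3M
  have hθ1 : ∀ j, ‖θ j‖ ≤ 1 := by
    intro j
    refine Fin.addCases (fun i => ?_) (fun i => ?_) j
    · refine Fin.cases ?_ (fun i => ?_) i
      · exact hθM.trans (by norm_num)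
      · refine Fin.cases ?_ (fun i => ?_) i
        · exact hθν.le
        · exact (hθy i).trans (by norm_num)
    · exact (hθx i).le
  obtain ⟨E, hE, hEq⟩ := perturb κ hκ j0 F' hF' hFc (C 3) (-X) (fun j => C (3 * θ j))
    (by
      intro k
      rw [coeff_C]
      split_ifs
      · rw [h3M]
        norm_num
      · simp)
    (by
      intro k
      rw [coeff_neg, coeff_X]
      split_ifs <;> simp)
    (by
      intro j k
      rw [coeff_C]
      split_ifs
      · rw [norm_mul, h3M]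
        have := hθ1 j
        linarith [norm_nonneg (θ j)]
      · simp) (fun j => C (θ (Fin.natAdd (n + 2) j))) (fun j => by
        rw [← C_mul]
        congr 1
        ring)
  set G0 : M[X] := MvPolynomial.eval₂ (C.comp κ) (vecm (C 3) (-X) (fun j => C (3 * θ j))) F'
    with hG0
  set m := θ (Fin.castAdd n 0) with hm
  set ν := θ (Fin.castAdd n 1) with hν
  set τ0 := θ (Fin.natAdd (n + 2) j0) with hτ0
  set y1 := θ (Fin.castAdd n j0.succ.succ) with hy1
  set s : M := ∑ j : Fin n, θ (Fin.natAdd (n + 2) j) * θ (Fin.castAdd n j.succ.succ) ^ 2 with hs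
  have hs1 : ‖s‖ ≤ 1 := by
    refine IsUltrametricDist.norm_sum_le_of_forall_le_of_nonneg zero_le_one fun i _ => ?_
    rw [norm_mul, norm_pow, hθx, one_mul]
    exact pow_le_one₀ (norm_nonneg _) (hθ1 _)
  set S : M := m ^ 2 + τ0 * ν with hS
  have hS1 : ‖S‖ ≤ 1 := by
    refine le_of_sum ?_ ?_
    · rw [norm_pow]
      exact pow_le_one₀ (norm_nonneg _) (hθ1 _)
    · rw [norm_mul]
      exact mul_le_one₀ (hθ1 _) (norm_nonneg _) (hθ1 _)
  set E' : M[X] := C (3 : M)⁻¹ * E with hE'
  have hE'c : ∀ k, ‖E'.coeff k‖ ≤ 1 / 3 := by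
    intro k
    rw [hE', coeff_C_mul, norm_mul, norm_inv, h3M]
    have := hE k
    calc (1 / 3 : ℝ)⁻¹ * ‖E.coeff k‖ ≤ (1 / 3 : ℝ)⁻¹ * (1 / 9) :=
          mul_le_mul_of_nonneg_left this (by norm_num)
      _ = 1 / 3 := by norm_num
  set c0 : M := 3 * (3 * s + 6 * m * ν * y1 - 3 * ν ^ 3 - 3 * S) with hc0
  set c1 : M := 3 * (2 * S) with hc1
  have hnat : ∀ k : ℕ, ‖(k : M)‖ ≤ 1 := fun k => norm_natCast_le_one' k
  have hc01 : ‖c0‖ ≤ 1 / 3 := by
    rw [hc0, norm_mul, h3M]
    have h5 : ‖3 * s + 6 * m * ν * y1 - 3 * ν ^ 3 - 3 * S‖ ≤ 1 := by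
      refine le_of_diff (le_of_diff (le_of_sum ?_ ?_) ?_) ?_
      · exact norm_mul_le_of (hnat 3) hs1
      · exact norm_mul_le_of (norm_mul_le_of (norm_mul_le_of (hnat 6) (hθ1 _)) (hθ1 _)) (hθ1 _)
      · refine norm_mul_le_of (hnat 3) ?_
        rw [norm_pow]
        exact pow_le_one₀ (norm_nonneg _) (hθ1 _)
      · exact norm_mul_le_of (hnat 3) hS1
    linarith
  have hc11 : ‖c1‖ ≤ 1 / 3 := by
    rw [hc1, norm_mul, h3M]
    have h5 : ‖2 * S‖ ≤ 1 := norm_mul_le_of (hnat 2) hS1
    linarith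
  set g : M[X] := X ^ 2 - X ^ 3 - C c1 * X + C c0 + E' with hg
  have hgeq : G0 = C 3 * g := by
    rw [hEq, F0, SS]
    have h5 : ∑ j : Fin n, C (θ (Fin.natAdd (n + 2) j)) * C 3
        * C (3 * θ (Fin.castAdd n j.succ.succ)) ^ 2 = C (27 * s) := by
      rw [hs, Finset.mul_sum, map_sum]
      refine Finset.sum_congr rfl fun i _ => ?_
      rw [← C_pow, ← C_mul, ← C_mul]
      congr 1
      ring
    rw [h5, ← hτ0, ← hy1, hg, hE', hc0, hc1, hS]
    have h6 : (3 : M[X]) = C 3 := (map_ofNat C 3).symm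
    have h7 : (2 : M[X]) = C 2 := (map_ofNat C 2).symm
    have h7' : (27 : M[X]) = C 27 := (map_ofNat C 27).symm
    have h8 : C (3 : M) * C (3 : M)⁻¹ = 1 := by
      rw [← C_mul, mul_inv_cancel₀ h30, C_1]
    have h9 : (C 27 : M[X]) = C 3 * C 3 * C 3 := by
      rw [← C_mul, ← C_mul]
      congr 1
      norm_num
    have h10 : (C 6 : M[X]) = C 2 * C 3 := by
      rw [← C_mul]
      congr 1
      norm_num
    rw [h6, h7]
    simp only [C_sub, C_add, C_mul, C_pow]
    rw [h9, h10]
    linear_combination -E * h8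
  have hcoeff : ∀ k, ‖g.coeff k‖ ≤ 1 := by
    intro k
    rw [hg, coeff_add, coeff_add, coeff_sub, coeff_sub, coeff_X_pow, coeff_X_pow, coeff_C,
      coeff_C_mul, coeff_X]
    refine le_of_sum (le_of_sum (le_of_diff (le_of_diff ?_ ?_) ?_) ?_)
      ((hE'c k).trans (by norm_num))
    · split_ifs <;> simp
    · split_ifs <;> simp
    · split_ifs
      · rw [mul_one]
        exact hc11.trans (by norm_num)
      · simp
    · split_ifs
      · exact hc01.trans (by norm_num)
      · simp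
  have hE1 := eval_bound E' (by norm_num : (0 : ℝ) ≤ 1 / 3) hE'c (y := (1 : M)) (by simp)
  have hval : ‖g.eval 1‖ < 1 := by
    have h5 : g.eval 1 = c0 - c1 + E'.eval 1 := by
      rw [hg]
      simp
      ring
    rw [h5]
    refine lt_of_le_of_lt (b := 1 / 3) ?_ (by norm_num)
    exact le_of_sum (le_of_diff hc01 hc11) hE1.1
  have hder : ‖g.derivative.eval 1‖ = 1 := by
    have h5 : g.derivative.eval 1 = (E'.derivative.eval 1 - c1) + (-1) := by
      rw [hg]
      simp
      ring
    have h6 : ‖E'.derivative.eval 1 - c1‖ < 1 :=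
      lt_of_le_of_lt (b := 1 / 3) (le_of_diff hE1.2 hc11) (by norm_num)
    rw [h5]
    have h7 := IsUltrametricDist.norm_add_eq_max_of_norm_ne_norm
      (x := (E'.derivative.eval 1 - c1 : M)) (y := -1) (by rw [norm_neg, norm_one]; exact h6.ne)
    rw [h7, norm_neg, norm_one, max_eq_right h6.le]
  obtain ⟨t, ht0, ht1⟩ := hensel_complete g hcoeff 1 (by simp) hval hder
  have htlt : ‖t - 1‖ < 1 := ht1.trans_lt hval
  have htn : ‖t‖ = 1 := by
    have h5 : t = (t - 1) + 1 := by ring
    rw [h5]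
    have h7 := IsUltrametricDist.norm_add_eq_max_of_norm_ne_norm
      (x := (t - 1 : M)) (y := 1) (by rw [norm_one]; exact htlt.ne)
    rw [h7, norm_one, max_eq_right htlt.le]
  have hG0t : G0.eval t = 0 := by
    rw [hgeq, eval_mul, ht0, mul_zero]
  have hsol : MvPolynomial.eval₂ κ (vecm 3 (-t) (fun j => 3 * θ j)) F' = 0 := by
    have h5 := MvPolynomial.hom_eval₂ F' (C.comp κ) (evalRingHom t)
      (vecm (C 3) (-X) (fun j => C (3 * θ j)))
    rw [← hG0, coe_evalRingHom, hG0t] at h5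
    have h6 : (evalRingHom t).comp (C.comp κ) = κ := by
      apply RingHom.ext
      intro x
      simp
    have h7 := vecm_map (fun p : M[X] => eval t p) (C 3) (-X) (fun j => C (3 * θ j))
    rw [h6] at h5
    simp only [eval_C, eval_neg, eval_X] at h7
    rw [← h7]
    exact h5.symm
  refine ⟨-t / 3, ?_, ?_⟩
  · rw [norm_div, norm_neg, htn, h3M]
    norm_num
  · rw [eval₂_eq_dh κ _ (by exact one_ne_zero : vecm (1 : M) (-t / 3) θ 0 ≠ 0) hF']
    rw [eval₂_eq_dh κ _ (by exact h30 : vecm (3 : M) (-t) (fun j => 3 * θ j) 0 ≠ 0) hF'] at hsol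
    have h5 := (mul_eq_zero.mp hsol).resolve_left (pow_ne_zero _ h30)
    have h6 : (fun j : Fin (n + 2 + n + 1) => vecm (3 : M) (-t) (fun j => 3 * θ j) j.succ
        / vecm (3 : M) (-t) (fun j => 3 * θ j) 0)
        = (fun j : Fin (n + 2 + n + 1) => vecm (1 : M) (-t / 3) θ j.succ
        / vecm (1 : M) (-t / 3) θ 0) := by
      funext j
      refine Fin.cases ?_ (fun j => ?_) j
      · change -t / 3 = -t / 3 / 1
        rw [div_one]
      · change 3 * θ j / 3 = θ j / 1
        rw [div_one, mul_div_cancel_left₀ _ h30]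
    rw [h6] at h5
    rw [h5, mul_zero]

end Roots

end Pool.Agent.Lib.MP_2619d0_ag.Half

/-!
# The main argument
-/


namespace Pool.Agent.Lib.MP_2619d0_ag.Half

open MvPolynomial

universe u

/-- The coordinate ring of the affine chart `x₀ ≠ 0`. -/
abbrev CR {m : ℕ} (F : MvPolynomial (Fin (m + 1)) ℂ) : Type :=
  MvPolynomial (Fin m) ℂ ⧸ Ideal.span {dh ℂ m F}

/-- A root gives an embedding of the coordinate ring. -/
theorem exists_Theta {m : ℕ} (F : MvPolynomial (Fin (m + 1 + 1)) ℂ) (hF : F.IsHomogeneous 3)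
    (hint : (baseHom (dh ℂ (m + 1) F)).IsIntegral)
    (hdom : IsDomain (CR F))
    {𝓕 M : Type} [Field 𝓕] [Field M] (ψ : ℂ →+* 𝓕) (κ : 𝓕 →+* M) (θ : Fin m → M)
    (hindθ : ∀ P : MvPolynomial (Fin m) ℂ, eval₂ (κ.comp ψ) θ P = 0 → P = 0)
    (y : M) (hy : eval₂ κ (vecm 1 y θ) (map ψ F) = 0) :
    ∃ Θ : CR F →+* M, Function.Injective Θ ∧
      (∀ g, Θ (Ideal.Quotient.mk _ g)
        = eval₂ (κ.comp ψ) (Fin.cases y θ : Fin (m + 1) → M) g) ∧
      ∀ P, Θ (baseHom (dh ℂ (m + 1) F) P) = eval₂ (κ.comp ψ) θ P := by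
  have ha : eval₂ (κ.comp ψ) (Fin.cases y θ : Fin (m + 1) → M) (dh ℂ (m + 1) F) = 0 := by
    have h1 := hy
    rw [eval₂_eq_dh κ _ (by exact one_ne_zero : vecm (1 : M) y θ 0 ≠ 0) (hF.map ψ)] at h1
    have h2 := (mul_eq_zero.mp h1).resolve_left (pow_ne_zero _ (by exact one_ne_zero))
    rw [dh_map, eval₂_map] at h2
    have h3 : (fun j : Fin (m + 1) => vecm (1 : M) y θ j.succ / vecm (1 : M) y θ 0)
        = (Fin.cases y θ : Fin (m + 1) → M) := by
      funext j
      refine Fin.cases ?_ (fun j => ?_) j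
      · change y / 1 = y
        rw [div_one]
      · change θ j / 1 = θ j
        rw [div_one]
    rw [h3] at h2
    exact h2
  set f := dh ℂ (m + 1) F with hf
  set ρ := κ.comp ψ with hρ
  set a : Fin (m + 1) → M := Fin.cases y θ with ha'
  have h6 : (fun j => a j.succ) = θ := by
    funext j
    rfl
  have h5 : ∀ P : MvPolynomial (Fin m) ℂ, eval₂ ρ (fun j => a j.succ) P = 0 → P = 0 := by
    intro P hP
    apply hindθ
    rw [h6] at hP
    exact hP
  obtain ⟨Θ, hΘinj, hΘ⟩ := kernel_eq (m := m) ρ f hint hdom a ha h5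
  refine ⟨Θ, hΘinj, hΘ, fun P => ?_⟩
  change Θ (Ideal.Quotient.mk _ (rename Fin.succ P)) = _
  rw [hΘ, eval₂_rename]
  have h7 : a ∘ Fin.succ = θ := h6
  rw [h7]

theorem core {k : ℕ} (F : MvPolynomial (Fin (k + 1 + 2 + (k + 1) + 1 + 1)) ℂ)
    (hF : F.IsHomogeneous 3)
    (hgen : AlgebraicIndependent ℚ
      (fun j : Exp3 (k + 1 + 2 + (k + 1) + 1 + 1) => coeff j.1 F))
    {r : ℕ} {K K' : Type} [Field K] [Algebra (CR F) K] [IsFractionRing (CR F) K] [Field K']
    [Algebra (MvPolynomial (Fin r) K) K'] [IsFractionRing (MvPolynomial (Fin r) K) K']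
    {L : Type u} [Field L] [Algebra K' L] [FiniteDimensional K' L]
    (hodd : Odd (Module.finrank K' L)) (ι : MvPolynomial (Fin (k + 1 + 2 + (k + 1) + 1)) ℂ →+* L)
    (hι : ∀ g, ι g = algebraMap K' L (algebraMap (MvPolynomial (Fin r) K) K'
      (C (algebraMap (CR F) K (Ideal.Quotient.mk _ g)))))
    {N : ℕ} (Φ : Fin (k + 1 + 2 + (k + 1) + 1 + 1) → MvPolynomial (Fin (k + 1) ⊕ Fin N) ℂ)
    (hΦ : eval₂ C Φ F = 0) (hΦbase : ∀ i, Φ (iX i) = X (Sum.inl i) * Φ 0)
    (τ : Fin N → L)
    (hpt : ∀ j : Fin (k + 1 + 2 + (k + 1) + 1),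
      eval₂ (ι.comp C) (Sum.elim (fun i => ι (X (Fin.natAdd (k + 1 + 2) i).succ)) τ) (Φ j.succ)
        = ι (X j) * eval₂ (ι.comp C)
          (Sum.elim (fun i => ι (X (Fin.natAdd (k + 1 + 2) i).succ)) τ) (Φ 0))
    (hne : eval₂ (ι.comp C) (Sum.elim (fun i => ι (X (Fin.natAdd (k + 1 + 2) i).succ)) τ) (Φ 0)
      ≠ 0) :
    False := by
  classical
  have hdom : IsDomain (CR F) := generic_domain (by omega) F hF hgen
  have hint := generic_integral F hF hgen
  obtain ⟨ψ, M, instM, hcompl, hultra, κ, θ, U, η, hFc, hκ, hθM, hθν, hθy, hθx, hη, hηeq, hηder,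
    hSA, hvg, hind⟩ := exists_setup2 k r F hF hgen
  have hindθ : ∀ P : MvPolynomial (Fin (k + 1 + 2 + (k + 1))) ℂ,
      eval₂ (κ.comp ψ) θ P = 0 → P = 0 := by
    intro P hP
    have h1 := hind (rename Sum.inr P) (by
      rw [eval₂_rename]
      exact hP)
    exact (rename_injective _ Sum.inr_injective) (by rw [h1, map_zero])
  have hF'h : (map ψ F).IsHomogeneous 3 := hF.map ψ
  obtain ⟨yH, hyH, hyH0⟩ := exists_root_H κ hκ norm_three (0 : Fin (k + 1)) (map ψ F) hF'h hFc θ
    hθM hθν hθy hθx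
  obtain ⟨yQ, hyQ, hyQ0⟩ := exists_root_Q κ hκ norm_three norm_two (0 : Fin (k + 1)) (map ψ F)
    hF'h hFc θ hθM hθν hθy hθx η hη hηeq hηder
  obtain ⟨ΘH, hΘHinj, hΘH, hΘHb⟩ := exists_Theta F hF hint hdom ψ κ θ hindθ yH hyH0
  obtain ⟨ΘQ, hΘQinj, hΘQ, hΘQb⟩ := exists_Theta F hF hint hdom ψ κ θ hindθ yQ hyQ0
  obtain ⟨jH, hjH⟩ := exists_emb_aux (K := K) (K' := K') (κ.comp ψ) θ U
    (baseHom (dh ℂ (k + 1 + 2 + (k + 1) + 1) F)) hint ΘH hΘHinj hΘHb hind
  obtain ⟨jQ, hjQ⟩ := exists_emb_aux (K := K) (K' := K') (κ.comp ψ) θ U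
    (baseHom (dh ℂ (k + 1 + 2 + (k + 1) + 1) F)) hint ΘQ hΘQinj hΘQb hind
  -- characteristic zero
  have hMchar : CharZero M := charZero_of_injective_ringHom κ.injective
  have hK'char : CharZero K' := ⟨fun a b hab => by
    have h3 := congrArg jH hab
    rw [map_natCast, map_natCast] at h3
    exact Nat.cast_injective h3⟩
  obtain ⟨M1, fM1, aM1, j1H, hfin1, hodd1, hj1H⟩ := exists_odd_ext hodd jH
  obtain ⟨M2, fM2, aM2, j2Q, hfin2, hodd2, hj2Q⟩ := exists_odd_ext hodd ((algebraMap M M1).comp jQ)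
  let algMM2 : Algebra M M2 := ((algebraMap M1 M2).comp (algebraMap M M1)).toAlgebra
  have tower : IsScalarTower M M1 M2 := IsScalarTower.of_algebraMap_eq fun _ => rfl
  have hfinM : FiniteDimensional M M2 := Module.Finite.trans M1 M2
  have hoddM : Odd (Module.finrank M M2) := by
    rw [← Module.finrank_mul_finrank M M1 M2]
    exact hodd1.mul hodd2
  have h2M : ‖(2 : M)‖ = 1 := by
    have h5 := hκ 2
    rw [map_ofNat, norm_two] at h5
    exact h5
  set ξ : Fin (k + 1) → M := fun i => θ (Fin.natAdd (k + 1 + 2) i) with hξ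
  set ν : M := θ (Fin.castAdd (k + 1) 1) with hν
  have hlst1 : ∀ o, ‖lst ξ (ξ 0 * ν) o‖ = 1 := by
    intro o
    rcases o with _ | S
    · simp only [lst]
      rw [norm_neg, norm_mul, hθν, mul_one]
      exact hθx 0
    · simp only [lst]
      unfold pf
      rw [norm_prod]
      refine Finset.prod_eq_one fun i _ => ?_
      split_ifs
      · exact hθx i
      · exact norm_one
  obtain ⟨v, hv, hvM, hvSA, hvvals⟩ := SA_odd' (M := M) h2M (lst ξ (ξ 0 * ν)) hlst1 hSA
    (M1 := M2) hoddM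
  -- ring homomorphisms to `M2`
  set κ2 : PadicAlgCl 3 →+* M2 := (algebraMap M M2).comp κ with hκ2
  have hκ2v : ∀ a, v (κ2 a) = ‖a‖ := by
    intro a
    rw [hκ2, RingHom.comp_apply, hvM, hκ]
  have hVG : ∀ x : M2, x ≠ 0 → ∀ m : ℕ, 0 < m → ∃ c : M2, v c ^ m = v x := by
    intro x _ m hm
    obtain ⟨e, he, b, hb⟩ := hvvals x
    obtain ⟨a, ha⟩ := hvg b
    obtain ⟨c0, hc0⟩ := IsAlgClosed.exists_pow_nat_eq a (Nat.mul_pos hm he)
    refine ⟨κ2 c0, ?_⟩
    have h5 : (v (κ2 c0) ^ m) ^ e = v x ^ e := by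
      rw [hκ2v, ← pow_mul, hb, ha, ← hc0, norm_pow]
    exact (pow_left_inj₀ (pow_nonneg (v.nonneg _) m) (v.nonneg _) he.ne').mp h5
  set j2H : L →+* M2 := (algebraMap M1 M2).comp j1H with hj2H
  have hEH : ∀ g, j2H (ι g) = algebraMap M M2
      (eval₂ (κ.comp ψ) (Fin.cases yH θ : Fin (k + 1 + 2 + (k + 1) + 1) → M) g) := by
    intro g
    rw [hι, hj2H, RingHom.comp_apply, hj1H, hjH, hΘH]
    rfl
  have hEQ : ∀ g, j2Q (ι g) = algebraMap M M2
      (eval₂ (κ.comp ψ) (Fin.cases yQ θ : Fin (k + 1 + 2 + (k + 1) + 1) → M) g) := by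
    intro g
    rw [hι, hj2Q, RingHom.comp_apply, hjQ, hΘQ]
    rfl
  set ρ : ℂ →+* M2 := κ2.comp ψ with hρ
  have hρH : j2H.comp (ι.comp C) = ρ := by
    ext c
    change j2H (ι (C c)) = _
    rw [hEH, eval₂_C]
    rfl
  have hρQ : j2Q.comp (ι.comp C) = ρ := by
    ext c
    change j2Q (ι (C c)) = _
    rw [hEQ, eval₂_C]
    rfl
  set ξ2 : Fin (k + 1) → M2 := fun i => algebraMap M M2 (ξ i) with hξ2
  have hξH : ∀ i, j2H (ι (X (Fin.natAdd (k + 1 + 2) i).succ)) = ξ2 i := by
    intro i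
    rw [hEH, eval₂_X]
    rfl
  have hξQ : ∀ i, j2Q (ι (X (Fin.natAdd (k + 1 + 2) i).succ)) = ξ2 i := by
    intro i
    rw [hEQ, eval₂_X]
    rfl
  set tH : Fin N → M2 := fun l => j2H (τ l) with htH
  set tQ : Fin N → M2 := fun l => j2Q (τ l) with htQ
  -- the curve
  set path : Fin (k + 1) ⊕ Fin N → Polynomial M2 :=
    Sum.elim (fun i => Polynomial.C (ξ2 i))
      (fun l => Polynomial.C (tH l) + Polynomial.X * Polynomial.C (tQ l - tH l)) with hpath
  set E : MvPolynomial (Fin (k + 1) ⊕ Fin N) ℂ →+* Polynomial M2 :=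
    eval₂Hom (Polynomial.C.comp ρ) path with hE
  set γ : Fin (k + 1 + 2 + (k + 1) + 1 + 1) → Polynomial M2 := fun j => E (Φ j) with hγ
  have hsol : eval₂ (Polynomial.C.comp κ2) γ (map ψ F) = 0 := by
    rw [eval₂_map]
    have h1 := congrArg E hΦ
    rw [map_zero, MvPolynomial.hom_eval₂] at h1
    have h2 : E.comp C = (Polynomial.C.comp κ2).comp ψ := by
      apply RingHom.ext
      intro c
      change E (C c) = _
      rw [hE, coe_eval₂Hom, eval₂_C]
      rfl
    rw [h2] at h1
    exact h1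
  have hbase : ∀ i, γ (iX i) = Polynomial.C (ξ2 i) * γ 0 := by
    intro i
    simp only [hγ]
    rw [hΦbase, map_mul]
    congr 1
    rw [hE, coe_eval₂Hom, eval₂_X]
    rfl
  have heval0 : ∀ P, (E P).eval 0
      = j2H (eval₂ (ι.comp C) (Sum.elim (fun i => ι (X (Fin.natAdd (k + 1 + 2) i).succ)) τ) P) := by
    intro P
    rw [MvPolynomial.hom_eval₂, hρH]
    have h1 := MvPolynomial.hom_eval₂ P (Polynomial.C.comp ρ) (Polynomial.evalRingHom 0) path
    have h2 : (Polynomial.evalRingHom (0 : M2)).comp (Polynomial.C.comp ρ) = ρ := by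
      ext c
      simp
    rw [h2] at h1
    have h3 : E P = eval₂ (Polynomial.C.comp ρ) path P := rfl
    rw [h3, ← Polynomial.coe_evalRingHom, h1]
    congr 1
    funext s
    rcases s with i | l
    · simp only [hpath, Sum.elim_inl, Polynomial.coe_evalRingHom,
        Polynomial.eval_C]
      rw [hξH]
    · simp [hpath, htH]
  have heval1 : ∀ P, (E P).eval 1
      = j2Q (eval₂ (ι.comp C) (Sum.elim (fun i => ι (X (Fin.natAdd (k + 1 + 2) i).succ)) τ) P) := by
    intro P
    rw [MvPolynomial.hom_eval₂, hρQ]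
    have h1 := MvPolynomial.hom_eval₂ P (Polynomial.C.comp ρ) (Polynomial.evalRingHom 1) path
    have h2 : (Polynomial.evalRingHom (1 : M2)).comp (Polynomial.C.comp ρ) = ρ := by
      ext c
      simp
    rw [h2] at h1
    have h3 : E P = eval₂ (Polynomial.C.comp ρ) path P := rfl
    rw [h3, ← Polynomial.coe_evalRingHom, h1]
    congr 1
    funext s
    rcases s with i | l
    · simp only [hpath, Sum.elim_inl, Polynomial.coe_evalRingHom,
        Polynomial.eval_C]
      rw [hξQ]
    · simp [hpath, htQ, htH]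
  set D : L := eval₂ (ι.comp C) (Sum.elim (fun i => ι (X (Fin.natAdd (k + 1 + 2) i).succ)) τ) (Φ 0)
    with hD
  set uH : Fin (k + 1 + 2 + (k + 1) + 1 + 1) → M2 := fun l => algebraMap M M2 (vecm 1 yH θ l)
    with huH
  set uQ : Fin (k + 1 + 2 + (k + 1) + 1 + 1) → M2 := fun l => algebraMap M M2 (vecm 1 yQ θ l)
    with huQ
  have hγH : (fun l => (γ l).eval 0) = fun l => j2H D * uH l := by
    funext l
    refine Fin.cases ?_ (fun j => ?_) l
    · have h1 := heval0 (Φ 0)
      have h2 : uH 0 = 1 := map_one (algebraMap M M2)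
      rw [h2, mul_one]
      exact h1
    · have h1 := heval0 (Φ j.succ)
      rw [hpt, map_mul, hEH, eval₂_X, mul_comm] at h1
      exact h1
  have hγQ : (fun l => (γ l).eval 1) = fun l => j2Q D * uQ l := by
    funext l
    refine Fin.cases ?_ (fun j => ?_) l
    · have h1 := heval1 (Φ 0)
      have h2 : uQ 0 = 1 := map_one (algebraMap M M2)
      rw [h2, mul_one]
      exact h1
    · have h1 := heval1 (Φ j.succ)
      rw [hpt, map_mul, hEQ, eval₂_X, mul_comm] at h1
      exact h1
  have hDH : j2H D ≠ 0 := fun h => hne (j2H.injective (by rw [h, map_zero]))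
  have hDQ : j2Q D ≠ 0 := fun h => hne (j2Q.injective (by rw [h, map_zero]))
  have hξ2v : ∀ i, v (ξ2 i) = 1 := by
    intro i
    rw [hξ2]
    simp only
    rw [hvM]
    exact hθx i
  have hlst2 : (fun o => algebraMap M M2 (lst ξ (ξ 0 * ν) o))
      = lst ξ2 (ξ2 0 * algebraMap M M2 ν) := by
    funext o
    rcases o with _ | S
    · simp only [lst, map_neg, map_mul, hξ2]
    · simp only [lst]
      exact pf_map (algebraMap M M2) ξ S
  rw [hlst2] at hvSA
  have hSApf : SA v (pf ξ2) := SA_comp' v _ hvSA some (Option.some_injective _)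
  have key := good_const v hv κ2 hκ2v (by rw [norm_three]; norm_num) ξ2 hξ2v hSApf
    (0 : Fin (k + 1)) (map ψ F) hF'h hFc γ hsol hbase hVG
    (by
      refine ⟨0, ?_⟩
      have h1 : (γ 0).eval 0 = j2H D * uH 0 := congrFun hγH 0
      rw [h1]
      exact mul_ne_zero hDH (by
        rw [show uH 0 = 1 from map_one (algebraMap M M2)]
        exact one_ne_zero))
    (by
      refine ⟨0, ?_⟩
      have h1 : (γ 0).eval 1 = j2Q D * uQ 0 := congrFun hγQ 0
      rw [h1]
      exact mul_ne_zero hDQ (by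
        rw [show uQ 0 = 1 from map_one (algebraMap M M2)]
        exact one_ne_zero))
  rw [hγH, hγQ, Good_smul v ξ2 _ uH hDH, Good_smul v ξ2 _ uQ hDQ] at key
  -- value of `S` at both points
  set m2 : M2 := algebraMap M M2 (θ (Fin.castAdd (k + 1) 0)) with hm2
  set ν2 : M2 := algebraMap M M2 ν with hν2
  have hSS : SS ξ2 (0 : Fin (k + 1)) 1 m2 ν2 = m2 ^ 2 + ξ2 0 * ν2 := by
    rw [SS]
    ring
  have hm2v : v (m2 ^ 2) < 1 := by
    rw [map_pow, hm2, hvM]
    have h6 := norm_nonneg (θ (Fin.castAdd (k + 1) 0))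
    nlinarith
  have hτνv : v (ξ2 0 * ν2) = 1 := by
    rw [map_mul, hξ2v, hν2, hvM, hθν, one_mul]
  have hgood : Good v ξ2 (0 : Fin (k + 1)) uH := by
    refine ⟨fun _ => 0, iY0 (k + 1), ?_⟩
    have h1 : Q ξ2 (fun _ => (0 : M2)) = 0 := by
      unfold Q
      simp
    have h2 : uH (iY0 (k + 1)) = algebraMap M M2 yH := rfl
    have h3 : SS ξ2 (0 : Fin (k + 1)) (uH 0) (uH (iM (k + 1))) (uH (iM1 (k + 1)))
        = SS ξ2 (0 : Fin (k + 1)) 1 m2 ν2 := by
      rw [show uH 0 = 1 from map_one (algebraMap M M2)]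
      rfl
    rw [h1, h2, h3, sub_zero, hSS, hvM, hyH]
    refine (hv _ _).trans_lt (max_lt ?_ ?_)
    · linarith
    · rw [hτνv]
      norm_num
  obtain ⟨w, i, hwi⟩ := key.mp hgood
  have huQ1 : v (uQ i) ≤ 1 := by
    rw [huQ]
    simp only
    rw [hvM]
    refine Fin.cases ?_ (fun j => ?_) i
    · exact norm_one.le
    · refine Fin.cases ?_ (fun j => ?_) j
      · exact hyQ
      · change ‖θ j‖ ≤ 1
        refine Fin.addCases (fun i => ?_) (fun i => ?_) j
        · refine Fin.cases ?_ (fun i => ?_) i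
          · exact hθM.trans (by norm_num)
          · refine Fin.cases ?_ (fun i => ?_) i
            · exact hθν.le
            · exact (hθy i).trans (by norm_num)
        · exact (hθx i).le
  have h3 : SS ξ2 (0 : Fin (k + 1)) (uQ 0) (uQ (iM (k + 1))) (uQ (iM1 (k + 1)))
      = SS ξ2 (0 : Fin (k + 1)) 1 m2 ν2 := by
    rw [show uQ 0 = 1 from map_one (algebraMap M M2)]
    rfl
  rw [h3, hSS] at hwi
  have hwi' : v (m2 ^ 2 + ξ2 0 * ν2 - Q ξ2 w) < 1 :=
    hwi.trans_le (pow_le_one₀ (v.nonneg _) huQ1)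
  have h4 := hvSA (fun o => o.elim 1 w) none
  have h5 : ∑ o, lst ξ2 (ξ2 0 * ν2) o * ((o.elim 1 w : M2)) ^ 2
      = m2 ^ 2 + -(m2 ^ 2 + ξ2 0 * ν2 - Q ξ2 w) := by
    rw [Fintype.sum_option]
    simp only [lst, Option.elim, Q]
    ring
  rw [h5] at h4
  simp only [lst, Option.elim, AbsoluteValue.map_neg, hτνv, map_one, one_pow, mul_one] at h4
  have h6 : v (m2 ^ 2 + -(m2 ^ 2 + ξ2 0 * ν2 - Q ξ2 w)) < 1 := by
    refine (hv _ _).trans_lt (max_lt hm2v ?_)
    rw [AbsoluteValue.map_neg]
    exact hwi'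
  exact absurd h4 (not_le.mpr h6)

end Pool.Agent.Lib.MP_2619d0_ag.Half

/-!
# Generic points of `X × 𝔸^r` and the final form of the main argument
-/


namespace Pool.Agent.Lib.MP_2619d0_ag.Half

open MvPolynomial

universe u

/-- The coordinate functions. -/
noncomputable def crd {m : ℕ} (F : MvPolynomial (Fin (m + 1)) ℂ) (j : Fin m) :
    FractionRing (CR F) :=
  algebraMap (CR F) (FractionRing (CR F)) (Ideal.Quotient.mk _ (X j))

/-- The stable coordinate functions. -/
noncomputable def scrd {m : ℕ} (F : MvPolynomial (Fin (m + 1)) ℂ) (r : ℕ) (j : Fin m) :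
    FractionRing (MvPolynomial (Fin r) (FractionRing (CR F))) :=
  algebraMap (MvPolynomial (Fin r) (FractionRing (CR F))) _ (C (crd F j))

theorem core_c {k : ℕ} (F : MvPolynomial (Fin (k + 1 + 2 + (k + 1) + 1 + 1)) ℂ)
    (hF : F.IsHomogeneous 3)
    (hgen : AlgebraicIndependent ℚ
      (fun j : Exp3 (k + 1 + 2 + (k + 1) + 1 + 1) => coeff j.1 F))
    {N r : ℕ} (Φ : Fin (k + 1 + 2 + (k + 1) + 1 + 1) → MvPolynomial (Fin (k + 1) ⊕ Fin N) ℂ)
    (hΦ : aeval Φ F = 0)
    (hΦbase : ∀ i, Φ (Fin.natAdd (k + 1 + 2) i).succ.succ = X (Sum.inl i) * Φ 0)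
    (L : Type u) [Field L] [Algebra ℂ L]
    [Algebra (FractionRing (MvPolynomial (Fin r) (FractionRing (CR F)))) L]
    [IsScalarTower ℂ (FractionRing (MvPolynomial (Fin r) (FractionRing (CR F)))) L]
    (hodd : Odd (Module.finrank (FractionRing (MvPolynomial (Fin r) (FractionRing (CR F)))) L))
    (τ : Fin N → L)
    (hne : aeval (Sum.elim (fun i => algebraMap _ L
      (scrd F r (Fin.natAdd (k + 1 + 2) i).succ)) τ) (Φ 0) ≠ 0)
    (hpt : ∀ j, aeval (Sum.elim (fun i => algebraMap _ L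
      (scrd F r (Fin.natAdd (k + 1 + 2) i).succ)) τ) (Φ j.succ) = algebraMap _ L (scrd F r j)
        * aeval (Sum.elim (fun i => algebraMap _ L
      (scrd F r (Fin.natAdd (k + 1 + 2) i).succ)) τ) (Φ 0)) : False := by
  have hdom : IsDomain (CR F) := generic_domain (by omega) F hF hgen
  let K := FractionRing (CR F)
  let K' := FractionRing (MvPolynomial (Fin r) K)
  have hfin : Module.Finite K' L := Module.finite_of_finrank_pos hodd.pos
  set ι : MvPolynomial (Fin (k + 1 + 2 + (k + 1) + 1)) ℂ →+* L :=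
    (algebraMap K' L).comp ((algebraMap (MvPolynomial (Fin r) K) K').comp
      (C.comp ((algebraMap (CR F) K).comp (Ideal.Quotient.mk _)))) with hι
  have hιC : ι.comp C = algebraMap ℂ L := by
    refine RingHom.ext fun c => ?_
    rw [IsScalarTower.algebraMap_apply ℂ K' L]
    rfl
  refine core F hF hgen (r := r) (K := K) (K' := K') (L := L) hodd ι (fun g => rfl) Φ hΦ
    hΦbase τ (fun j => ?_) ?_
  · rw [hιC]
    exact hpt j
  · rw [hιC]
    exact hne

theorem exists_field_of_generic {m r : ℕ} (F : MvPolynomial (Fin (m + 1)) ℂ) (hdom : IsDomain (CR F))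
    {L : Type u} [Field L] [Algebra ℂ L] (x : Fin m → L) (v : Fin r → L)
    (hgp : ∀ g : MvPolynomial (Fin r ⊕ Fin m) ℂ,
      aeval (Sum.elim v x) g = 0 ↔ rename Sum.inr (dh ℂ m F) ∣ g) :
    ∃ j : FractionRing (MvPolynomial (Fin r) (FractionRing (CR F))) →+* L,
      (∀ c : ℂ, j (algebraMap ℂ _ c) = algebraMap ℂ L c) ∧ (∀ i, j (scrd F r i) = x i) ∧
      j.fieldRange = (IntermediateField.adjoin ℂ (Set.range x ∪ Set.range v)).toSubfield := by
  classical
  set f := dh ℂ m F with hf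
  let A := CR F
  let K := FractionRing A
  -- the map from the coordinate ring
  have hgx : ∀ g : MvPolynomial (Fin m) ℂ, aeval x g = 0 ↔ f ∣ g := by
    intro g
    have h1 := hgp (rename Sum.inr g)
    rw [aeval_rename] at h1
    have h2 : (Sum.elim v x ∘ Sum.inr : Fin m → L) = x := rfl
    rw [h2] at h1
    rw [h1]
    constructor
    · intro h
      have h3 : (aeval (Sum.elim 0 X) : MvPolynomial (Fin r ⊕ Fin m) ℂ →ₐ[ℂ] _)
          (rename Sum.inr f) ∣ (aeval (Sum.elim 0 X) : MvPolynomial (Fin r ⊕ Fin m) ℂ →ₐ[ℂ]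
            MvPolynomial (Fin m) ℂ) (rename Sum.inr g) := map_dvd _ h
      rw [aeval_rename, aeval_rename] at h3
      have h4 : (Sum.elim (0 : Fin r → MvPolynomial (Fin m) ℂ) X ∘ Sum.inr :
          Fin m → MvPolynomial (Fin m) ℂ) = X := rfl
      rw [h4, aeval_X_left_apply, aeval_X_left_apply] at h3
      exact h3
    · intro h
      exact map_dvd _ h
  let ι : A →+* L := Ideal.Quotient.lift _ (aeval x : MvPolynomial (Fin m) ℂ →ₐ[ℂ] L).toRingHom
    (fun g hg => (hgx g).mpr (Ideal.mem_span_singleton.mp hg))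
  have hι : ∀ g : MvPolynomial (Fin m) ℂ, ι (Ideal.Quotient.mk _ g) = aeval x g :=
    fun g => Ideal.Quotient.lift_mk _ _ _
  have hιinj : Function.Injective ι := by
    rw [injective_iff_map_eq_zero]
    intro a ha
    obtain ⟨g, rfl⟩ := Ideal.Quotient.mk_surjective a
    rw [hι] at ha
    rw [Ideal.Quotient.eq_zero_iff_mem, Ideal.mem_span_singleton]
    exact (hgx g).mp ha
  let j0 : K →+* L := IsFractionRing.lift hιinj
  have hj0 : ∀ a : A, j0 (algebraMap A K a) = ι a := fun a => IsFractionRing.lift_algebraMap hιinj a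
  let algAL : Algebra A L := ι.toAlgebra
  let algKL : Algebra K L := j0.toAlgebra
  have tAKL : IsScalarTower A K L := IsScalarTower.of_algebraMap_eq fun a => (hj0 a).symm
  have : FaithfulSMul A L := (faithfulSMul_iff_algebraMap_injective _ _).mpr hιinj
  have halgK : Algebra.IsAlgebraic A K := IsLocalization.isAlgebraic K (nonZeroDivisors A)
  have hU : AlgebraicIndependent A v := by
    rw [algebraicIndependent_iff]
    intro P hP
    obtain ⟨Q, rfl⟩ : ∃ Q : MvPolynomial (Fin r) (MvPolynomial (Fin m) ℂ),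
        map (Ideal.Quotient.mk _) Q = P :=
      map_surjective _ Ideal.Quotient.mk_surjective P
    set g := (sumAlgEquiv ℂ (Fin r) (Fin m)).symm Q with hg
    have hQ : Q = sumAlgEquiv ℂ (Fin r) (Fin m) g := by rw [hg, AlgEquiv.apply_symm_apply]
    have hcomp : ∀ g : MvPolynomial (Fin r ⊕ Fin m) ℂ, aeval v (map (Ideal.Quotient.mk
        (Ideal.span {f})) (sumAlgEquiv ℂ (Fin r) (Fin m) g)) = aeval (Sum.elim v x) g := by
      intro g
      induction g using MvPolynomial.induction_on with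
      | C c =>
        rw [sumAlgEquiv_C_inl, map_C, aeval_C, aeval_C]
        change ι (Ideal.Quotient.mk _ (C c)) = _
        rw [hι, aeval_C]
      | add p q hp hq => rw [map_add, map_add, map_add, hp, hq, map_add]
      | mul_X p i hp =>
        rw [map_mul, map_mul, map_mul, hp, map_mul]
        congr 1
        rcases i with i | i
        · rw [sumAlgEquiv_X_inl, map_X, aeval_X, aeval_X]
          rfl
        · rw [sumAlgEquiv_X_inr, map_C, aeval_C, aeval_X]
          change ι (Ideal.Quotient.mk _ (X i)) = _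
          rw [hι, aeval_X]
          rfl
    rw [hQ, hcomp] at hP
    obtain ⟨h, hh⟩ := (hgp g).mp hP
    rw [hQ, hh, map_mul, map_mul]
    have h5 : sumAlgEquiv ℂ (Fin r) (Fin m) (rename Sum.inr f) = C f := by
      have h6 := sumAlgEquiv_comp_rename_inr (R := ℂ) (S₁ := Fin r) (S₂ := Fin m)
      have h7 := congrArg (fun φ => φ f) h6
      exact h7
    rw [h5, map_C]
    have h8 : (Ideal.Quotient.mk (Ideal.span {f})) f = 0 :=
      Ideal.Quotient.eq_zero_iff_mem.mpr (Ideal.mem_span_singleton_self f)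
    rw [h8, C_0, zero_mul]
  have hUK : AlgebraicIndependent K v := hU.extendScalars K
  let K' := FractionRing (MvPolynomial (Fin r) K)
  let j : K' →+* L := IsFractionRing.lift (g := (aeval v : MvPolynomial (Fin r) K →ₐ[K] L).toRingHom)
    hUK
  have hj : ∀ P : MvPolynomial (Fin r) K, j (algebraMap (MvPolynomial (Fin r) K) K' P) = aeval v P :=
    fun P => IsFractionRing.lift_algebraMap _ _
  have hjA : ∀ a : A, j (algebraMap (MvPolynomial (Fin r) K) K' (C (algebraMap A K a))) = ι a := by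
    intro a
    rw [hj, aeval_C]
    exact hj0 a
  have hjC : ∀ c : ℂ, j (algebraMap ℂ K' c) = algebraMap ℂ L c := by
    intro c
    have h1 : algebraMap ℂ K' c = algebraMap (MvPolynomial (Fin r) K) K' (C (algebraMap A K (Ideal.Quotient.mk _ (C c)))) :=
      rfl
    rw [h1, hjA, hι, aeval_C]
  have hjx : ∀ i, j (scrd F r i) = x i := by
    intro i
    have h1 : scrd F r i = algebraMap (MvPolynomial (Fin r) K) K' (C (algebraMap A K (Ideal.Quotient.mk _ (X i)))) := rfl
    rw [h1, hjA, hι, aeval_X]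
  refine ⟨j, hjC, hjx, le_antisymm ?_ ?_⟩
  · rintro _ ⟨z, rfl⟩
    set E := IntermediateField.adjoin ℂ (Set.range x ∪ Set.range v) with hE
    have hxE : ∀ i, x i ∈ E := fun i =>
      IntermediateField.subset_adjoin ℂ _ (Or.inl (Set.mem_range_self i))
    have hvE : ∀ i, v i ∈ E := fun i =>
      IntermediateField.subset_adjoin ℂ _ (Or.inr (Set.mem_range_self i))
    have h1 : ∀ g : MvPolynomial (Fin m) ℂ, aeval x g ∈ E := by
      intro g
      induction g using MvPolynomial.induction_on with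
      | C c => rw [aeval_C]; exact E.algebraMap_mem c
      | add p q hp hq => rw [map_add]; exact add_mem hp hq
      | mul_X p i hp => rw [map_mul, aeval_X]; exact mul_mem hp (hxE i)
    have h2 : ∀ k : K, j0 k ∈ E := by
      intro k
      obtain ⟨a, b, hb, rfl⟩ := IsFractionRing.div_surjective (A := A) k
      obtain ⟨a', rfl⟩ := Ideal.Quotient.mk_surjective a
      obtain ⟨b', rfl⟩ := Ideal.Quotient.mk_surjective b
      rw [map_div₀, hj0, hj0, hι, hι]
      exact div_mem (h1 _) (h1 _)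
    have h3 : ∀ P : MvPolynomial (Fin r) K, aeval v P ∈ E := by
      intro g
      induction g using MvPolynomial.induction_on with
      | C c => rw [aeval_C]; exact h2 c
      | add p q hp hq => rw [map_add]; exact add_mem hp hq
      | mul_X p i hp => rw [map_mul, aeval_X]; exact mul_mem hp (hvE i)
    obtain ⟨a, b, hb, rfl⟩ := IsFractionRing.div_surjective (A := MvPolynomial (Fin r) K) z
    rw [map_div₀, hj, hj]
    exact div_mem (h3 _) (h3 _)
  · let R : IntermediateField ℂ L := j.fieldRange.toIntermediateField (fun c => ⟨_, hjC c⟩)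
    have h1 : IntermediateField.adjoin ℂ (Set.range x ∪ Set.range v) ≤ R := by
      rw [IntermediateField.adjoin_le_iff]
      rintro z (⟨i, rfl⟩ | ⟨i, rfl⟩)
      · exact ⟨_, hjx i⟩
      · refine ⟨algebraMap (MvPolynomial (Fin r) K) K' (X i), ?_⟩
        rw [hj, aeval_X]
    exact h1

/-- Replacing a field by its image does not change the degree. -/
theorem finrank_fieldRange {K : Type*} {L : Type*} [Field K] [Field L] (j : K →+* L)
    (E : Subfield L) (h : j.fieldRange = E) :
    @Module.finrank K L _ _ j.toAlgebra.toModule = Module.finrank E L := by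
  subst h
  let alg : Algebra K L := j.toAlgebra
  exact Algebra.finrank_eq_of_equiv_equiv (j.rangeRestrictFieldEquiv) (RingEquiv.refl L) (by
    ext z
    rfl)

end Pool.Agent.Lib.MP_2619d0_ag.Half

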