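import Mathlib
import Pool.Agent.Lib.MP_2619d0_ag.OddDegree
import Pool.Agent.Lib.MP_2619d0_ag.Generic
import Pool.Agent.Lib.MP_2619d0_ag.FunField

/-!
# Tools: Gauss absolute values, Hensel, odd extensions, embeddings into C, points of bases
-/

set_option autoImplicit false

/-!
# Gauss norms and strongly anisotropic diagonal forms
-/


namespace Pool.Agent.Lib.MP_2619d0_ag

open Polynomial

/-- The diagonal form `∑ a_j x_j²` is strongly anisotropic for `v`: its value dominates all of its
terms. -/
def SA {R : Type*} [CommRing R] (v : R → ℝ) {ι : Type*} [Fintype ι] (a : ι → R) : Prop :=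
  ∀ (x : ι → R) (i : ι), v (a i) * v (x i) ^ 2 ≤ v (∑ j, a j * x j ^ 2)

theorem na_sum_le {R : Type*} [CommRing R] (v : AbsoluteValue R ℝ) (hna : IsNonarchimedean v)
    {κ : Type*} (s : Finset κ) (f : κ → R) (B : ℝ) (hB : 0 ≤ B) (h : ∀ k ∈ s, v (f k) ≤ B) :
    v (∑ k ∈ s, f k) ≤ B := by
  classical
  induction s using Finset.induction_on with
  | empty => simpa using hB
  | insert a s ha ih =>
    rw [Finset.sum_insert ha]
    refine (hna _ _).trans (max_le (h a (Finset.mem_insert_self _ _)) (ih fun k hk => ?_))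
    exact h k (Finset.mem_insert_of_mem hk)

theorem na_sum_lt {R : Type*} [CommRing R] (v : AbsoluteValue R ℝ) (hna : IsNonarchimedean v)
    {κ : Type*} (s : Finset κ) (f : κ → R) (B : ℝ) (hB : 0 < B) (h : ∀ k ∈ s, v (f k) < B) :
    v (∑ k ∈ s, f k) < B := by
  classical
  induction s using Finset.induction_on with
  | empty => simpa using hB
  | insert a s ha ih =>
    rw [Finset.sum_insert ha]
    refine (hna _ _).trans_lt (max_lt (h a (Finset.mem_insert_self _ _)) (ih fun k hk => ?_))
    exact h k (Finset.mem_insert_of_mem hk)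

/-- If `v (x - y) < v y` then `v x = v y`. -/
theorem na_eq_of_sub_lt {R : Type*} [CommRing R] (v : AbsoluteValue R ℝ)
    (hna : IsNonarchimedean v) {x y : R} (h : v (x - y) < v y) : v x = v y := by
  apply le_antisymm
  · have h1 := hna (x - y) y
    rw [sub_add_cancel] at h1
    exact h1.trans (max_le h.le le_rfl)
  · by_contra hcon
    push Not at hcon
    have h1 := hna (y - x) x
    rw [sub_add_cancel, AbsoluteValue.map_sub] at h1
    exact absurd h1 (not_le.mpr (max_lt h hcon))

/-- Springer type lemma for Gauss norms on polynomial rings in one variable. -/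
theorem gauss_SA {R : Type*} [CommRing R] (v : AbsoluteValue R ℝ) (hna : IsNonarchimedean v)
    {r : ℝ} (hr : 0 < r) {ι : Type*} [Fintype ι] (a : ι → R) (e : ι → ℕ)
    (h : ∀ c : ℕ, ∀ x : ι → R, (∀ j, e j % 2 ≠ c → x j = 0) →
      ∀ i, v (a i) * v (x i) ^ 2 ≤ v (∑ j, a j * x j ^ 2))
    (y : ι → R[X]) (i : ι) :
    v (a i) * r ^ (e i) * (gaussNorm v r (y i)) ^ 2 ≤
      gaussNorm v r (∑ j, C (a j) * X ^ (e j) * (y j) ^ 2) := by
  classical
  set T : ι → ℕ → ℝ := fun j k => v (a j) * r ^ (e j) * (v ((y j).coeff k) * r ^ k) ^ 2 with hT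
  have hT0 : ∀ j k, 0 ≤ T j k := fun j k => by
    simp only [hT]
    positivity
  obtain ⟨k₀, hk₀⟩ := exists_eq_gaussNorm v r (y i)
  have hLHS : v (a i) * r ^ (e i) * (gaussNorm v r (y i)) ^ 2 = T i k₀ := by
    rw [hk₀]
  rw [hLHS]
  have hRHS0 : 0 ≤ gaussNorm v r (∑ j, C (a j) * X ^ (e j) * (y j) ^ 2) :=
    gaussNorm_nonneg v _ hr.le
  rcases (hT0 i k₀).eq_or_lt with h0 | hpos
  · rw [← h0]
    exact hRHS0
  -- choose the dominating term with the largest index
  set P : Finset (ι × ℕ) := (Finset.univ : Finset ι).biUnion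
    (fun j => (y j).support.image (fun k => (j, k))) with hP
  have hPmem : ∀ j k, (y j).coeff k ≠ 0 → (j, k) ∈ P := by
    intro j k hjk
    rw [hP, Finset.mem_biUnion]
    exact ⟨j, Finset.mem_univ _, Finset.mem_image.mpr ⟨k, mem_support_iff.mpr hjk, rfl⟩⟩
  have hTne : ∀ j k, 0 < T j k → (j, k) ∈ P := by
    intro j k hjk
    apply hPmem
    intro h0
    simp [hT, h0] at hjk
  obtain ⟨⟨j₁, k₁⟩, hm, hmax⟩ := P.exists_max_image
    (fun p => toLex (T p.1 p.2, 2 * p.2 + e p.1)) ⟨(i, k₀), hTne _ _ hpos⟩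
  set S := T j₁ k₁ with hS
  set L := 2 * k₁ + e j₁ with hL
  have hmax1 : ∀ j k, T j k ≤ S := by
    intro j k
    rcases (hT0 j k).eq_or_lt with h0 | h0
    · rw [← h0]
      exact hT0 _ _
    · have h1 := hmax (j, k) (hTne j k h0)
      rw [Prod.Lex.le_iff] at h1
      rcases h1 with h1 | h1
      · exact h1.le
      · exact h1.1.le
  have hSpos : 0 < S := hpos.trans_le (hmax1 i k₀)
  have hmax2 : ∀ j k, L < 2 * k + e j → T j k < S := by
    intro j k hjk
    rcases (hT0 j k).eq_or_lt with h0 | h0
    · rw [← h0]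
      exact hSpos
    · have h1 := hmax (j, k) (hTne j k h0)
      rw [Prod.Lex.le_iff] at h1
      rcases h1 with h1 | h1
      · exact h1
      · exact absurd h1.2 (not_le.mpr hjk)
  refine (hmax1 i k₀).trans ?_
  -- the coefficient of `X ^ L`
  set z : ι → R := fun j => if e j ≤ L ∧ (L - e j) % 2 = 0 then (y j).coeff ((L - e j) / 2) else 0
    with hz
  have hrL : 0 < r ^ L := pow_pos hr _
  have hdiff : ∀ j, v ((C (a j) * X ^ (e j) * (y j) ^ 2).coeff L - a j * z j ^ 2) * r ^ L < S := by
    intro j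
    rw [mul_assoc, coeff_C_mul, coeff_X_pow_mul']
    by_cases hej : e j ≤ L
    · rw [if_pos hej]
      set n := L - e j with hn
      have hLn : L = e j + n := by omega
      have hsum : ((y j) ^ 2).coeff n = ∑ p ∈ Finset.HasAntidiagonal.antidiagonal n,
          (y j).coeff p.1 * (y j).coeff p.2 := by
        rw [pow_two, coeff_mul]
      -- cross terms
      have hcross : ∀ p ∈ Finset.HasAntidiagonal.antidiagonal n, p.1 ≠ p.2 →
          v (a j * ((y j).coeff p.1 * (y j).coeff p.2)) * r ^ L < S := by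
        intro p hp hne
        rw [Finset.HasAntidiagonal.mem_antidiagonal] at hp
        have hsq : (v (a j * ((y j).coeff p.1 * (y j).coeff p.2)) * r ^ L) ^ 2
            = T j p.1 * T j p.2 := by
          simp only [hT]
          rw [hLn, ← hp, map_mul, map_mul]
          ring
        have hlt : T j p.1 * T j p.2 < S ^ 2 := by
          rcases lt_or_gt_of_ne hne with h1 | h1
          · have h2 : T j p.2 < S := hmax2 _ _ (by omega)
            calc T j p.1 * T j p.2 ≤ S * T j p.2 :=
                  mul_le_mul_of_nonneg_right (hmax1 _ _) (hT0 _ _)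
              _ < S * S := mul_lt_mul_of_pos_left h2 hSpos
              _ = S ^ 2 := by ring
          · have h2 : T j p.1 < S := hmax2 _ _ (by omega)
            calc T j p.1 * T j p.2 ≤ T j p.1 * S :=
                  mul_le_mul_of_nonneg_left (hmax1 _ _) (hT0 _ _)
              _ < S * S := mul_lt_mul_of_pos_right h2 hSpos
              _ = S ^ 2 := by ring
        rw [← hsq] at hlt
        exact lt_of_pow_lt_pow_left₀ 2 hSpos.le hlt
      have hrw : a j * ((y j) ^ 2).coeff n - a j * z j ^ 2
          = ∑ p ∈ (Finset.HasAntidiagonal.antidiagonal n).filter (fun p => p.1 ≠ p.2),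
            a j * ((y j).coeff p.1 * (y j).coeff p.2) := by
        rw [hsum, Finset.mul_sum]
        rw [← Finset.sum_filter_add_sum_filter_not (Finset.HasAntidiagonal.antidiagonal n) (fun p => p.1 ≠ p.2)]
        rw [add_sub_assoc]
        conv_rhs => rw [← add_zero (∑ p ∈ (Finset.HasAntidiagonal.antidiagonal n).filter (fun p => p.1 ≠ p.2),
            a j * ((y j).coeff p.1 * (y j).coeff p.2))]
        congr 1
        rw [sub_eq_zero]
        simp only [not_not]
        by_cases hpar : n % 2 = 0
        · have hzj : z j = (y j).coeff (n / 2) := by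
            simp only [hz]
            rw [if_pos ⟨hej, hpar⟩]
          rw [Finset.sum_eq_single (n / 2, n / 2)]
          · rw [hzj]
            ring
          · rintro ⟨s, t⟩ hst hne
            rw [Finset.mem_filter, Finset.HasAntidiagonal.mem_antidiagonal] at hst
            exfalso
            apply hne
            have h1 := hst.1
            have h2 := hst.2
            simp only at h1 h2
            ext <;> simp <;> omega
          · intro hnot
            exfalso
            apply hnot
            rw [Finset.mem_filter, Finset.HasAntidiagonal.mem_antidiagonal]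
            exact ⟨by simp only; omega, rfl⟩
        · have hzj : z j = 0 := by
            simp only [hz]
            rw [if_neg]
            rintro ⟨-, h2⟩
            exact hpar h2
          rw [hzj]
          rw [Finset.sum_eq_zero]
          · ring
          · rintro ⟨s, t⟩ hst
            rw [Finset.mem_filter, Finset.HasAntidiagonal.mem_antidiagonal] at hst
            exfalso
            have h1 := hst.1
            have h2 := hst.2
            simp only at h1 h2
            omega
      rw [hrw, ← lt_div_iff₀ hrL]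
      apply na_sum_lt v hna _ _ _ (div_pos hSpos hrL)
      intro p hp
      rw [Finset.mem_filter] at hp
      rw [lt_div_iff₀ hrL]
      exact hcross p hp.1 hp.2
    · rw [if_neg hej]
      have hzj : z j = 0 := by
        simp only [hz]
        rw [if_neg]
        rintro ⟨h1, -⟩
        exact hej h1
      rw [hzj]
      simpa using hSpos
  have hzpar : ∀ j, e j % 2 ≠ L % 2 → z j = 0 := by
    intro j hj
    simp only [hz]
    rw [if_neg]
    rintro ⟨h1, h2⟩
    omega
  have hz1 : z j₁ = (y j₁).coeff k₁ := by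
    simp only [hz]
    rw [if_pos (by constructor <;> omega)]
    congr 1
    omega
  have hSle : S ≤ v (∑ j, a j * z j ^ 2) * r ^ L := by
    have h1 := h (L % 2) z hzpar j₁
    rw [hz1] at h1
    calc S = v (a j₁) * v ((y j₁).coeff k₁) ^ 2 * r ^ L := by
          rw [hS, hL]
          simp only [hT]
          rw [pow_add, pow_mul]
          ring
      _ ≤ _ := mul_le_mul_of_nonneg_right h1 hrL.le
  have hcoeff : (∑ j, C (a j) * X ^ (e j) * (y j) ^ 2).coeff L
      = ∑ j, (C (a j) * X ^ (e j) * (y j) ^ 2).coeff L := finsetSum_coeff _ _ _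
  have hfin : v ((∑ j, C (a j) * X ^ (e j) * (y j) ^ 2).coeff L) = v (∑ j, a j * z j ^ 2) := by
    apply na_eq_of_sub_lt v hna
    rw [hcoeff, ← Finset.sum_sub_distrib]
    have h2 : v (∑ j, ((C (a j) * X ^ (e j) * (y j) ^ 2).coeff L - a j * z j ^ 2)) < S / r ^ L := by
      apply na_sum_lt v hna _ _ _ (div_pos hSpos hrL)
      intro j _
      rw [lt_div_iff₀ hrL]
      exact hdiff j
    refine h2.trans_le ?_
    rw [div_le_iff₀ hrL]
    exact hSle
  calc S ≤ v (∑ j, a j * z j ^ 2) * r ^ L := hSle
    _ = v ((∑ j, C (a j) * X ^ (e j) * (y j) ^ 2).coeff L) * r ^ L := by rw [hfin]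
    _ ≤ _ := le_gaussNorm v _ hr.le L

end Pool.Agent.Lib.MP_2619d0_ag

/-!
# The Gauss absolute value on multivariate polynomial rings
-/


namespace Pool.Agent.Lib.MP_2619d0_ag

open Polynomial

/-- The Gauss norm of radius `r` as an absolute value. -/
noncomputable def gaussAbs {R : Type*} [CommRing R] (v : AbsoluteValue R ℝ)
    (hna : IsNonarchimedean v) (r : ℝ) (hr : 0 < r) : AbsoluteValue R[X] ℝ where
  toFun := gaussNorm v r
  map_mul' p q := gaussNorm_mul hna hr p q
  nonneg' p := gaussNorm_nonneg v p hr.le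
  eq_zero' p := gaussNorm_eq_zero_iff v p (fun _ hx => (AbsoluteValue.eq_zero v).mp hx) hr
  add_le' p q := by
    have h1 := isNonarchimedean_gaussNorm v hna hr.le p q
    have h2 := gaussNorm_nonneg v p hr.le
    have h3 := gaussNorm_nonneg v q hr.le
    refine h1.trans (max_le ?_ ?_) <;> linarith

theorem gaussAbs_apply {R : Type*} [CommRing R] (v : AbsoluteValue R ℝ)
    (hna : IsNonarchimedean v) (r : ℝ) (hr : 0 < r) (p : R[X]) :
    gaussAbs v hna r hr p = gaussNorm v r p := rfl

theorem gaussAbs_nonarch {R : Type*} [CommRing R] (v : AbsoluteValue R ℝ)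
    (hna : IsNonarchimedean v) (r : ℝ) (hr : 0 < r) : IsNonarchimedean (gaussAbs v hna r hr) :=
  fun p q => isNonarchimedean_gaussNorm v hna hr.le p q

/-- Pull back of an absolute value along an injective ring homomorphism. -/
noncomputable def compAbs {R S : Type*} [CommRing R] [CommRing S] (v : AbsoluteValue S ℝ)
    (f : R →+* S) (hf : Function.Injective f) : AbsoluteValue R ℝ where
  toFun p := v (f p)
  map_mul' p q := by rw [map_mul, map_mul]
  nonneg' p := v.nonneg _
  eq_zero' p := by rw [v.eq_zero, map_eq_zero_iff f hf]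
  add_le' p q := by
    rw [map_add]
    exact v.add_le _ _

theorem compAbs_apply {R S : Type*} [CommRing R] [CommRing S] (v : AbsoluteValue S ℝ)
    (f : R →+* S) (hf : Function.Injective f) (p : R) : compAbs v f hf p = v (f p) := rfl

/-- The coefficients `1, X_1, …, X_N` of the generic diagonal form. -/
noncomputable def genDiag (R : Type*) [CommRing R] (N : ℕ) :
    Option (Fin N) → MvPolynomial (Fin N) R :=
  fun o => o.elim 1 MvPolynomial.X

theorem exists_mvAbs {𝓕 : Type*} [Field 𝓕] (v0 : AbsoluteValue 𝓕 ℝ) (hna : IsNonarchimedean v0) :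
    ∀ N : ℕ, ∃ v : AbsoluteValue (MvPolynomial (Fin N) 𝓕) ℝ, IsNonarchimedean v ∧
      (∀ a, v (MvPolynomial.C a) = v0 a) ∧ (∀ i, v (MvPolynomial.X i) = 1) ∧
      SA v (genDiag 𝓕 N) := by
  intro N
  induction N with
  | zero =>
    set φ := (MvPolynomial.isEmptyAlgEquiv 𝓕 (Fin 0)).toRingEquiv.toRingHom with hφ
    have hφinj : Function.Injective φ := (MvPolynomial.isEmptyAlgEquiv 𝓕 (Fin 0)).injective
    have hφa : ∀ p, φ p = MvPolynomial.isEmptyAlgEquiv 𝓕 (Fin 0) p := fun p => rfl
    refine ⟨compAbs v0 φ hφinj, ?_, ?_, ?_, ?_⟩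
    · intro p q
      simp only [compAbs_apply, map_add]
      exact hna _ _
    · intro a
      rw [compAbs_apply, hφa]
      exact congrArg v0 ((MvPolynomial.isEmptyAlgEquiv 𝓕 (Fin 0)).commutes a)
    · intro i
      exact i.elim0
    · intro x o
      rcases o with _ | i
      · have h1 : ∑ j, genDiag 𝓕 0 j * x j ^ 2 = x none ^ 2 := by
          rw [Fintype.sum_option]
          simp [genDiag]
        rw [h1, map_pow]
        have h2 : genDiag 𝓕 0 none = 1 := rfl
        rw [h2, map_one, one_mul]
      · exact i.elim0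
  | succ N ih =>
    obtain ⟨v, hv, hC, hX, hSA⟩ := ih
    set φ := (MvPolynomial.finSuccEquiv 𝓕 N).toRingEquiv.toRingHom with hφ
    have hφinj : Function.Injective φ := (MvPolynomial.finSuccEquiv 𝓕 N).injective
    have hφa : ∀ p, φ p = MvPolynomial.finSuccEquiv 𝓕 N p := fun p => rfl
    refine ⟨compAbs (gaussAbs v hv 1 one_pos) φ hφinj, ?_, ?_, ?_, ?_⟩
    · intro p q
      simp only [compAbs_apply, map_add]
      exact gaussAbs_nonarch v hv 1 one_pos _ _
    · intro a
      rw [compAbs_apply, hφa, gaussAbs_apply]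
      have h1 : MvPolynomial.finSuccEquiv 𝓕 N (MvPolynomial.C a)
          = Polynomial.C (MvPolynomial.C a) := by
        simp [MvPolynomial.finSuccEquiv_apply]
      rw [h1, gaussNorm_C, hC]
    · intro i
      rw [compAbs_apply, hφa, gaussAbs_apply]
      refine Fin.cases ?_ (fun j => ?_) i
      · rw [MvPolynomial.finSuccEquiv_X_zero]
        rw [← Polynomial.monomial_one_one_eq_X, gaussNorm_monomial]
        simp
      · rw [MvPolynomial.finSuccEquiv_X_succ, gaussNorm_C, hX]
    · intro x o
      set a : Option (Fin (N + 1)) → MvPolynomial (Fin N) 𝓕 :=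
        fun o => o.elim 1 (fun i => Fin.cases 1 (fun j => MvPolynomial.X j) i) with ha
      set e : Option (Fin (N + 1)) → ℕ :=
        fun o => o.elim 0 (fun i => Fin.cases 1 (fun _ => 0) i) with he
      have hae : ∀ o, φ (genDiag 𝓕 (N + 1) o) = C (a o) * X ^ (e o) := by
        intro o
        rcases o with _ | i
        · simp [genDiag, ha, he]
        · refine Fin.cases ?_ (fun j => ?_) i
          · simp only [genDiag, ha, he, Option.elim, Fin.cases_zero, map_one, one_mul, pow_one]
            rw [hφa, MvPolynomial.finSuccEquiv_X_zero]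
          · simp only [genDiag, ha, he, Option.elim, Fin.cases_succ, pow_zero, mul_one]
            rw [hφa, MvPolynomial.finSuccEquiv_X_succ]
      have hva : ∀ o, v (a o) = 1 := by
        intro o
        rcases o with _ | i
        · simp [ha]
        · refine Fin.cases ?_ (fun j => ?_) i
          · simp [ha]
          · simp [ha, hX]
      have key := gauss_SA v hv one_pos a e ?_ (fun o => φ (x o)) o
      · have h1 : compAbs (gaussAbs v hv 1 one_pos) φ hφinj (genDiag 𝓕 (N + 1) o) = v (a o) := by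
          rw [compAbs_apply, hae, gaussAbs_apply, Polynomial.C_mul_X_pow_eq_monomial,
            gaussNorm_monomial]
          simp
        rw [h1, compAbs_apply, compAbs_apply, gaussAbs_apply, gaussAbs_apply, map_sum]
        rw [one_pow, mul_one] at key
        refine key.trans (le_of_eq ?_)
        congr 1
        refine Finset.sum_congr rfl fun o' _ => ?_
        rw [map_mul, map_pow, hae]
      · intro c w hw i
        by_cases hc0 : c = 0
        · subst hc0
          have hw0 : w (some 0) = 0 := by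
            apply hw
            simp [he]
          have hsum : ∑ j, a j * w j ^ 2
              = ∑ o : Option (Fin N), genDiag 𝓕 N o *
                (o.elim (w none) (fun j => w (some j.succ))) ^ 2 := by
            rw [Fintype.sum_option, Fintype.sum_option, Fin.sum_univ_succ, hw0]
            simp [genDiag, ha]
          rw [hsum]
          rcases i with _ | i
          · have := hSA (fun o => o.elim (w none) (fun j => w (some j.succ))) none
            simpa [genDiag, ha] using this
          · refine Fin.cases ?_ (fun j => ?_) i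
            · rw [hw0]
              simp
            · have := hSA (fun o => o.elim (w none) (fun j => w (some j.succ))) (some j)
              simpa [genDiag, ha] using this
        · by_cases hc1 : c = 1
          · subst hc1
            have hwn : w none = 0 := by
              apply hw
              simp [he]
            have hws : ∀ j : Fin N, w (some j.succ) = 0 := by
              intro j
              apply hw
              simp [he]
            have hsum : ∑ j, a j * w j ^ 2 = w (some 0) ^ 2 := by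
              rw [Fintype.sum_option, Fin.sum_univ_succ, hwn]
              simp [ha, hws]
            rw [hsum]
            rcases i with _ | i
            · rw [hwn]
              simp
            · refine Fin.cases ?_ (fun j => ?_) i
              · simp [ha]
              · rw [hws]
                simp
          · have hw0 : ∀ j, w j = 0 := by
              intro j
              apply hw
              rcases j with _ | i
              · simp [he]
                omega
              · refine Fin.cases ?_ (fun j => ?_) i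
                · simp [he]
                  omega
                · simp [he]
                  omega
            simp [hw0]

end Pool.Agent.Lib.MP_2619d0_ag

/-!
# Hensel's lemma in complete ultrametric fields
-/


namespace Pool.Agent.Lib.MP_2619d0_ag

open Polynomial

variable {M : Type*} [NormedField M] [IsUltrametricDist M]

theorem norm_pow_sub_pow_le {a b : M} (ha : ‖a‖ ≤ 1) (hb : ‖b‖ ≤ 1) (n : ℕ) :
    ‖a ^ n - b ^ n‖ ≤ ‖a - b‖ := by
  induction n with
  | zero => simp
  | succ n ih =>
    have h1 : a ^ (n + 1) - b ^ (n + 1) = a * (a ^ n - b ^ n) + (a - b) * b ^ n := by ring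
    rw [h1]
    refine (IsUltrametricDist.norm_add_le_max _ _).trans (max_le ?_ ?_)
    · rw [norm_mul]
      calc ‖a‖ * ‖a ^ n - b ^ n‖ ≤ 1 * ‖a - b‖ :=
            mul_le_mul ha ih (norm_nonneg _) zero_le_one
        _ = ‖a - b‖ := one_mul _
    · rw [norm_mul, norm_pow]
      calc ‖a - b‖ * ‖b‖ ^ n ≤ ‖a - b‖ * 1 :=
            mul_le_mul_of_nonneg_left (pow_le_one₀ (norm_nonneg _) hb) (norm_nonneg _)
        _ = ‖a - b‖ := mul_one _

theorem norm_natCast_le_one' (n : ℕ) : ‖(n : M)‖ ≤ 1 := IsUltrametricDist.norm_natCast_le_one M n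

theorem norm_pow_taylor {a b a0 : M} (ha : ‖a‖ ≤ 1) (hb : ‖b‖ ≤ 1) (ha0 : ‖a0‖ ≤ 1) {c : ℝ}
    (hac : ‖a - a0‖ ≤ c) (hbc : ‖b - a0‖ ≤ c) (n : ℕ) :
    ‖a ^ n - b ^ n - (n : M) * a0 ^ (n - 1) * (a - b)‖ ≤ c * ‖a - b‖ := by
  have hc : 0 ≤ c := (norm_nonneg _).trans hac
  have hnn : 0 ≤ c * ‖a - b‖ := mul_nonneg hc (norm_nonneg _)
  induction n with
  | zero => simpa using hnn
  | succ n ih =>
    rcases Nat.eq_zero_or_pos n with h0 | hpos
    · subst h0
      simpa using hnn
    · have h1 : a ^ (n + 1) - b ^ (n + 1) - ((n + 1 : ℕ) : M) * a0 ^ (n + 1 - 1) * (a - b)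
          = a * (a ^ n - b ^ n - (n : M) * a0 ^ (n - 1) * (a - b))
            + (a - b) * ((b ^ n - a0 ^ n) + (n : M) * a0 ^ (n - 1) * (a - a0)) := by
        obtain ⟨k, rfl⟩ : ∃ k, n = k + 1 := ⟨n - 1, by omega⟩
        simp only [Nat.add_sub_cancel]
        push_cast
        ring
      rw [h1]
      refine (IsUltrametricDist.norm_add_le_max _ _).trans (max_le ?_ ?_)
      · rw [norm_mul]
        calc _ ≤ 1 * (c * ‖a - b‖) := mul_le_mul ha ih (norm_nonneg _) zero_le_one
          _ = c * ‖a - b‖ := one_mul _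
      · rw [norm_mul, mul_comm]
        refine mul_le_mul_of_nonneg_right ?_ (norm_nonneg _)
        refine (IsUltrametricDist.norm_add_le_max _ _).trans (max_le ?_ ?_)
        · exact (norm_pow_sub_pow_le hb ha0 n).trans hbc
        · rw [norm_mul, norm_mul, norm_pow]
          have h2 : ‖(n : M)‖ * ‖a0‖ ^ (n - 1) ≤ 1 :=
            mul_le_one₀ (norm_natCast_le_one' n) (pow_nonneg (norm_nonneg _) _)
              (pow_le_one₀ (norm_nonneg _) ha0)
          calc _ ≤ 1 * c := mul_le_mul h2 hac (norm_nonneg _) zero_le_one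
            _ = c := one_mul _

theorem norm_eval_taylor (g : M[X]) (hg : ∀ k, ‖g.coeff k‖ ≤ 1) {a b a0 : M} (ha : ‖a‖ ≤ 1)
    (hb : ‖b‖ ≤ 1) (ha0 : ‖a0‖ ≤ 1) {c : ℝ} (hac : ‖a - a0‖ ≤ c) (hbc : ‖b - a0‖ ≤ c) :
    ‖g.eval a - g.eval b - g.derivative.eval a0 * (a - b)‖ ≤ c * ‖a - b‖ := by
  have hc : 0 ≤ c := (norm_nonneg _).trans hac
  have hnn : 0 ≤ c * ‖a - b‖ := mul_nonneg hc (norm_nonneg _)
  have h1 : g.eval a - g.eval b - g.derivative.eval a0 * (a - b)
      = ∑ k ∈ g.support, g.coeff k * (a ^ k - b ^ k - (k : M) * a0 ^ (k - 1) * (a - b)) := by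
    rw [eval_eq_sum, eval_eq_sum, derivative_eval, Polynomial.sum_def, Polynomial.sum_def,
      Polynomial.sum_def, Finset.sum_mul, ← Finset.sum_sub_distrib, ← Finset.sum_sub_distrib]
    refine Finset.sum_congr rfl fun k _ => ?_
    ring
  rw [h1]
  refine IsUltrametricDist.norm_sum_le_of_forall_le_of_nonneg hnn fun k _ => ?_
  rw [norm_mul]
  calc _ ≤ 1 * (c * ‖a - b‖) :=
        mul_le_mul (hg k) (norm_pow_taylor ha hb ha0 hac hbc k) (norm_nonneg _) zero_le_one
    _ = c * ‖a - b‖ := one_mul _

/-- Hensel's lemma. -/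
theorem hensel_complete [CompleteSpace M] (g : M[X]) (hg : ∀ k, ‖g.coeff k‖ ≤ 1) (y0 : M)
    (hy0 : ‖y0‖ ≤ 1) (h1 : ‖g.eval y0‖ < 1) (h2 : ‖g.derivative.eval y0‖ = 1) :
    ∃ y, g.eval y = 0 ∧ ‖y - y0‖ ≤ ‖g.eval y0‖ := by
  set c := ‖g.eval y0‖ with hc
  set d := g.derivative.eval y0 with hd
  have hd0 : d ≠ 0 := by
    intro h
    rw [h, norm_zero] at h2
    exact zero_ne_one h2
  have hc0 : 0 ≤ c := norm_nonneg _
  set B : Set M := Metric.closedBall y0 c with hB
  have hBmem : ∀ y, y ∈ B ↔ ‖y - y0‖ ≤ c := by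
    intro y
    rw [hB, Metric.mem_closedBall, dist_eq_norm]
  have hB1 : ∀ y ∈ B, ‖y‖ ≤ 1 := by
    intro y hy
    rw [hBmem] at hy
    have h3 : y = (y - y0) + y0 := by ring
    rw [h3]
    exact (IsUltrametricDist.norm_add_le_max _ _).trans (max_le (hy.trans h1.le) hy0)
  set T : M → M := fun y => y - g.eval y / d with hT
  have hlip : ∀ a ∈ B, ∀ b ∈ B, ‖T a - T b‖ ≤ c * ‖a - b‖ := by
    intro a ha b hb
    have h3 : T a - T b = -((g.eval a - g.eval b - d * (a - b)) / d) := by
      simp only [hT]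
      field_simp
      ring
    rw [h3, norm_neg, norm_div, h2, div_one]
    exact norm_eval_taylor g hg (hB1 a ha) (hB1 b hb) hy0 ((hBmem a).mp ha) ((hBmem b).mp hb)
  have hy0B : y0 ∈ B := by
    rw [hBmem, sub_self, norm_zero]
    exact hc0
  have hmaps : Set.MapsTo T B B := by
    intro a ha
    rw [hBmem]
    have h3 : T a - y0 = (T a - T y0) + (-(g.eval y0 / d)) := by
      simp only [hT]
      ring
    rw [h3]
    refine (IsUltrametricDist.norm_add_le_max _ _).trans (max_le ?_ ?_)
    · refine (hlip a ha y0 hy0B).trans ?_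
      calc c * ‖a - y0‖ ≤ 1 * c :=
            mul_le_mul h1.le ((hBmem a).mp ha) (norm_nonneg _) zero_le_one
        _ = c := one_mul _
    · rw [norm_neg, norm_div, h2, div_one]
  have hcontr : ContractingWith ‖g.eval y0‖₊ (hmaps.restrict T B B) := by
    refine ⟨?_, ?_⟩
    · exact NNReal.coe_lt_coe.mp h1
    · apply LipschitzWith.of_dist_le_mul
      rintro ⟨a, ha⟩ ⟨b, hb⟩
      have := hlip a ha b hb
      rw [Subtype.dist_eq, Subtype.dist_eq, dist_eq_norm, dist_eq_norm]
      exact this
  have hcomplete : IsComplete B := Metric.isClosed_closedBall.isComplete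
  obtain ⟨y, hyB, hy, -⟩ := ContractingWith.exists_fixedPoint' hcomplete hmaps hcontr hy0B
    (edist_ne_top _ _)
  refine ⟨y, ?_, (hBmem y).mp hyB⟩
  have h3 : y - g.eval y / d = y := hy
  have h4 : g.eval y / d = 0 := by
    linear_combination -h3
  exact (div_eq_zero_iff.mp h4).resolve_right hd0

end Pool.Agent.Lib.MP_2619d0_ag

/-!
# A complete valued field in which the generic diagonal form is strongly anisotropic
-/


namespace Pool.Agent.Lib.MP_2619d0_ag

/-- Extension of a nonarchimedean absolute value to the fraction field. -/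
theorem exists_fracAbs {R : Type*} [CommRing R] [IsDomain R] (v : AbsoluteValue R ℝ)
    (hna : IsNonarchimedean v) : ∃ w : AbsoluteValue (FractionRing R) ℝ, IsNonarchimedean w ∧
      ∀ a, w (algebraMap R (FractionRing R) a) = v a := by
  set v' : Valuation R NNReal :=
    { toFun := fun x => Real.toNNReal (v x)
      map_zero' := by simp
      map_one' := by simp
      map_mul' := fun x y => by
        rw [map_mul, Real.toNNReal_mul (v.nonneg _)]
      map_add_le_max' := fun x y => by
        have h := hna x y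
        rw [← NNReal.coe_le_coe, NNReal.coe_max, Real.coe_toNNReal _ (v.nonneg _),
          Real.coe_toNNReal _ (v.nonneg _), Real.coe_toNNReal _ (v.nonneg _)]
        exact h } with hv'
  have hv'a : ∀ x, ((v' x : NNReal) : ℝ) = v x := fun x => Real.coe_toNNReal _ (v.nonneg _)
  have hS : nonZeroDivisors R ≤ v'.supp.primeCompl := by
    intro x hx
    rw [Ideal.mem_primeCompl_iff, Valuation.mem_supp_iff]
    intro h0
    have h1 : v x = 0 := by
      rw [← hv'a, h0]
      rfl
    exact nonZeroDivisors.ne_zero hx ((AbsoluteValue.eq_zero v).mp h1)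
  set w' := v'.extendToLocalization hS (FractionRing R) with hw'
  refine ⟨{ toFun := fun x => ((w' x : NNReal) : ℝ)
            map_mul' := fun x y => by simp
            nonneg' := fun x => NNReal.coe_nonneg _
            eq_zero' := fun x => by simp
            add_le' := fun x y => ?_ }, ?_, ?_⟩
  · have h1 := w'.map_add x y
    rw [← NNReal.coe_add]
    refine NNReal.coe_le_coe.mpr (h1.trans ?_)
    exact max_le_add_of_nonneg zero_le zero_le
  · intro x y
    have h1 := w'.map_add x y
    have h2 := NNReal.coe_le_coe.mpr h1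
    rw [NNReal.coe_max] at h2
    exact h2
  · intro a
    change ((w' (algebraMap R (FractionRing R) a) : NNReal) : ℝ) = v a
    rw [hw', Valuation.extendToLocalization_apply_map_apply, hv'a]

/-- Strong anisotropy passes to the fraction field. -/
theorem SA_frac {R : Type*} [CommRing R] [IsDomain R] (v : AbsoluteValue R ℝ)
    (w : AbsoluteValue (FractionRing R) ℝ) (hw : ∀ a, w (algebraMap R (FractionRing R) a) = v a)
    {ι : Type*} [Fintype ι] (a : ι → R) (h : SA v a) :
    SA w (fun i => algebraMap R (FractionRing R) (a i)) := by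
  intro x i
  obtain ⟨b, hb⟩ := IsLocalization.exist_integer_multiples_of_finite (nonZeroDivisors R) x
  choose y hy using hb
  have hy' : ∀ i, algebraMap R (FractionRing R) (y i) = algebraMap R (FractionRing R) b * x i := by
    intro i
    rw [hy i, Algebra.smul_def]
  have hb0 : 0 < w (algebraMap R (FractionRing R) b) := by
    rw [hw]
    apply v.pos
    exact nonZeroDivisors.ne_zero b.2
  have h1 := h y i
  rw [← hw, ← hw, ← hw, hy', map_mul, map_sum] at h1
  have h2 : ∑ j, algebraMap R (FractionRing R) (a j * y j ^ 2)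
      = (algebraMap R (FractionRing R) b) ^ 2 *
        ∑ j, algebraMap R (FractionRing R) (a j) * x j ^ 2 := by
    rw [Finset.mul_sum]
    refine Finset.sum_congr rfl fun j _ => ?_
    rw [map_mul, map_pow, hy']
    ring
  rw [h2, map_mul, map_pow, mul_pow] at h1
  have hb2 : 0 < (w (algebraMap R (FractionRing R) b)) ^ 2 := pow_pos hb0 2
  refine le_of_mul_le_mul_left ?_ hb2
  calc _ = w (algebraMap R (FractionRing R) (a i)) *
        (w (algebraMap R (FractionRing R) ↑b) ^ 2 * w (x i) ^ 2) := by ring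
    _ ≤ _ := h1

/-- Strong anisotropy passes to the completion. -/
theorem SA_completion {K : Type*} [NormedField K] {ι : Type*} [Fintype ι] (a : ι → K)
    (h : SA (fun x : K => ‖x‖) a) :
    SA (fun x : UniformSpace.Completion K => ‖x‖) (fun i => (a i : UniformSpace.Completion K)) := by
  intro x i
  have hdense : DenseRange (fun y : ι → K => fun i => ((y i : K) : UniformSpace.Completion K)) :=
    DenseRange.piMap (f := fun _ : ι => ((↑) : K → UniformSpace.Completion K))
      (fun _ => UniformSpace.Completion.denseRange_coe)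
  refine hdense.induction_on x ?_ ?_
  · apply isClosed_le
    · fun_prop
    · fun_prop
  · intro y
    have h1 := h y i
    simp only at h1 ⊢
    rw [UniformSpace.Completion.norm_coe, UniformSpace.Completion.norm_coe]
    refine h1.trans (le_of_eq ?_)
    rw [← UniformSpace.Completion.norm_coe]
    congr 1
    have h2 := map_sum (UniformSpace.Completion.coeRingHom (α := K)) (fun j => a j * y j ^ 2)
      Finset.univ
    refine h2.trans ?_
    refine Finset.sum_congr rfl fun j _ => ?_
    rw [map_mul, map_pow]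
    rfl

theorem exists_big (𝓕 : Type) [NontriviallyNormedField 𝓕] [IsUltrametricDist 𝓕] (N : ℕ) :
    ∃ (M : Type) (_ : NontriviallyNormedField M) (_ : CompleteSpace M) (_ : IsUltrametricDist M)
      (i : MvPolynomial (Fin N) 𝓕 →+* M), Function.Injective i ∧
      (∀ a, ‖i (MvPolynomial.C a)‖ = ‖a‖) ∧ (∀ j, ‖i (MvPolynomial.X j)‖ = 1) ∧
      SA (fun x : M => ‖x‖) (fun o => i (genDiag 𝓕 N o)) := by
  set v0 : AbsoluteValue 𝓕 ℝ := NormedField.toAbsoluteValue 𝓕 with hv0
  have hv0a : ∀ a, v0 a = ‖a‖ := fun a => rfl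
  have hna0 : IsNonarchimedean v0 := fun x y => IsUltrametricDist.norm_add_le_max x y
  obtain ⟨v, hv, hC, hX, hSA⟩ := exists_mvAbs v0 hna0 N
  obtain ⟨w, hw, hwa⟩ := exists_fracAbs v hv
  have hSAw := SA_frac v w hwa _ hSA
  set K := FractionRing (MvPolynomial (Fin N) 𝓕) with hK
  let M := UniformSpace.Completion (WithAbs w)
  set i : MvPolynomial (Fin N) 𝓕 →+* M :=
    (UniformSpace.Completion.coeRingHom (α := WithAbs w)).comp
      ((WithAbs.equiv w).symm.toRingHom.comp (algebraMap (MvPolynomial (Fin N) 𝓕) K)) with hi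
  have hnorm : ∀ p, ‖i p‖ = v p := by
    intro p
    have h1 : i p = (((WithAbs.toAbs w (algebraMap (MvPolynomial (Fin N) 𝓕) K p)) : WithAbs w) :
      UniformSpace.Completion (WithAbs w)) := rfl
    rw [h1, UniformSpace.Completion.norm_coe, ← hwa]
    rfl
  have hSAM : SA (fun x : M => ‖x‖) (fun o => i (genDiag 𝓕 N o)) := by
    refine SA_completion (K := WithAbs w)
      (fun o => WithAbs.toAbs w (algebraMap (MvPolynomial (Fin N) 𝓕) K (genDiag 𝓕 N o))) ?_
    intro x o
    have h1 := hSAw (fun j => (WithAbs.equiv w) (x j)) o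
    have h2 : ∀ y : WithAbs w, ‖y‖ = w (WithAbs.equiv w y) := fun y => rfl
    simp only [h2, map_sum, map_mul, map_pow]
    exact h1
  obtain ⟨a, ha⟩ := NormedField.exists_one_lt_norm 𝓕
  let inst : NontriviallyNormedField M :=
    { (inferInstance : NormedField M) with
      non_trivial := ⟨i (MvPolynomial.C a), by
        have : ‖i (MvPolynomial.C a)‖ = ‖a‖ := by rw [hnorm, hC, hv0a]
        rw [this]
        exact ha⟩ }
  refine ⟨M, inst, inferInstanceAs (CompleteSpace M), ?_, i, ?_, ?_, ?_, ?_⟩
  · -- ultrametric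
    refine IsUltrametricDist.isUltrametricDist_of_forall_norm_add_le_max_norm ?_
    intro x y
    refine UniformSpace.Completion.induction_on₂ x y ?_ ?_
    · apply isClosed_le
      · fun_prop
      · fun_prop
    · intro a b
      rw [← UniformSpace.Completion.coe_add, UniformSpace.Completion.norm_coe,
        UniformSpace.Completion.norm_coe, UniformSpace.Completion.norm_coe]
      exact hw _ _
  · intro p q hpq
    have h1 : v (p - q) = 0 := by
      rw [← hnorm, map_sub, hpq, sub_self, norm_zero]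
    exact sub_eq_zero.mp ((AbsoluteValue.eq_zero v).mp h1)
  · intro a
    change ‖i _‖ = _
    rw [hnorm, hC, hv0a]
  · intro j
    change ‖i _‖ = _
    rw [hnorm, hX]
  · exact hSAM

end Pool.Agent.Lib.MP_2619d0_ag

/-!
# Odd degree extensions
-/


namespace Pool.Agent.Lib.MP_2619d0_ag

open Polynomial

/-- Strong anisotropy of a unimodular diagonal form persists in odd degree extensions of a
complete field of residue characteristic different from two. -/
theorem SA_odd {M : Type*} [NontriviallyNormedField M] [CompleteSpace M] [IsUltrametricDist M]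
    [CharZero M] (h2 : ‖(2 : M)‖ = 1) {ι : Type*} [Fintype ι] (a : ι → M) (ha : ∀ i, ‖a i‖ = 1)
    (hSA : SA (fun x : M => ‖x‖) a) {M1 : Type*} [Field M1] [Algebra M M1]
    [FiniteDimensional M M1] (hodd : Odd (Module.finrank M M1)) :
    ∃ v : AbsoluteValue M1 ℝ, IsNonarchimedean v ∧ (∀ x, v (algebraMap M M1 x) = ‖x‖) ∧
      SA v (fun i => algebraMap M M1 (a i)) := by
  classical
  let : NontriviallyNormedField M1 := spectralNorm.nontriviallyNormedField M M1
  let : NormedAlgebra M M1 := spectralNorm.normedAlgebra M M1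
  have : IsUltrametricDist M1 :=
    IsUltrametricDist.isUltrametricDist_of_forall_norm_add_le_max_norm
      (isNonarchimedean_spectralNorm (K := M) (L := M1))
  have : CompleteSpace M1 := FiniteDimensional.complete M M1
  have hnorm : ∀ x : M, ‖algebraMap M M1 x‖ = ‖x‖ := fun x => spectralNorm_extends x
  refine ⟨NormedField.toAbsoluteValue M1, fun x y => IsUltrametricDist.norm_add_le_max x y,
    hnorm, ?_⟩
  -- anisotropy over `M1`
  have haniso : ∀ x : ι → M1, ∑ j, algebraMap M M1 (a j) * x j ^ 2 = 0 → x = 0 := by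
    intro x hx
    refine springer hodd (fun _ => 0) (fun i j => if i = j then a i else 0) ?_ x ?_ ?_
    · intro y _ hy
      funext i
      have h1 : ∑ i, ∑ j, (if i = j then a i else 0) * (y i * y j) = ∑ j, a j * y j ^ 2 := by
        refine Finset.sum_congr rfl fun i _ => ?_
        rw [Finset.sum_eq_single i]
        · rw [if_pos rfl]
          ring
        · intro j _ hj
          rw [if_neg (Ne.symm hj), zero_mul]
        · intro h
          exact absurd (Finset.mem_univ _) h
      rw [h1] at hy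
      have h3 := hSA y i
      simp only at h3
      rw [hy, norm_zero, ha, one_mul] at h3
      have h4 : ‖y i‖ ^ 2 = 0 := le_antisymm h3 (sq_nonneg _)
      exact norm_eq_zero.mp (pow_eq_zero_iff (two_ne_zero)|>.mp h4)
    · simp
    · rw [← hx]
      refine Finset.sum_congr rfl fun i _ => ?_
      rw [Finset.sum_eq_single i]
      · rw [if_pos rfl]
        ring
      · intro j _ hj
        rw [if_neg (Ne.symm hj), map_zero, zero_mul]
      · intro h
        exact absurd (Finset.mem_univ _) h
  intro x i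
  change ‖algebraMap M M1 (a i)‖ * ‖x i‖ ^ 2 ≤ ‖∑ j, algebraMap M M1 (a j) * x j ^ 2‖
  rw [hnorm, ha, one_mul]
  by_contra hcon
  push Not at hcon
  have hne : (Finset.univ : Finset ι).Nonempty := ⟨i, Finset.mem_univ _⟩
  obtain ⟨k, -, hk⟩ := Finset.univ.exists_max_image (fun j => ‖x j‖) hne
  have hcon' : ‖∑ j, algebraMap M M1 (a j) * x j ^ 2‖ < ‖x k‖ ^ 2 :=
    hcon.trans_le (pow_le_pow_left₀ (norm_nonneg _) (hk i (Finset.mem_univ _)) 2)
  have hxk : 0 < ‖x k‖ := by
    rcases (norm_nonneg (x k)).eq_or_lt with h | h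
    · rw [← h] at hcon'
      exact absurd hcon' (not_lt.mpr (by simp))
    · exact h
  have hxk0 : x k ≠ 0 := norm_pos_iff.mp hxk
  set u : ι → M1 := fun j => x j / x k with hu
  have hu1 : ∀ j, ‖u j‖ ≤ 1 := by
    intro j
    simp only [hu]
    rw [norm_div, div_le_one hxk]
    exact hk j (Finset.mem_univ _)
  have huk : u k = 1 := by
    simp only [hu]
    exact div_self hxk0
  have hsum : ‖∑ j, algebraMap M M1 (a j) * u j ^ 2‖ < 1 := by
    have h3 : ∑ j, algebraMap M M1 (a j) * u j ^ 2
        = (∑ j, algebraMap M M1 (a j) * x j ^ 2) / (x k) ^ 2 := by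
      rw [Finset.sum_div]
      refine Finset.sum_congr rfl fun j _ => ?_
      simp only [hu]
      rw [div_pow, mul_div_assoc]
    rw [h3, norm_div, norm_pow, div_lt_one (pow_pos hxk 2)]
    exact hcon'
  set c : M1 := ∑ j ∈ Finset.univ.erase k, algebraMap M M1 (a j) * u j ^ 2 with hc
  have hc1 : ‖c‖ ≤ 1 := by
    refine IsUltrametricDist.norm_sum_le_of_forall_le_of_nonneg zero_le_one fun j _ => ?_
    rw [norm_mul, norm_pow, hnorm, ha, one_mul]
    exact pow_le_one₀ (norm_nonneg _) (hu1 j)
  set g : M1[X] := C (algebraMap M M1 (a k)) * X ^ 2 + C c with hg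
  have hgc : ∀ n, ‖g.coeff n‖ ≤ 1 := by
    intro n
    rw [hg, coeff_add, coeff_C_mul, coeff_X_pow, coeff_C]
    refine (IsUltrametricDist.norm_add_le_max _ _).trans (max_le ?_ ?_)
    · split_ifs
      · rw [mul_one, hnorm, ha]
      · simp
    · split_ifs
      · exact hc1
      · simp
  have hg1 : g.eval 1 = ∑ j, algebraMap M M1 (a j) * u j ^ 2 := by
    rw [← Finset.add_sum_erase _ _ (Finset.mem_univ k), huk, hg, eval_add, eval_mul, eval_C,
      eval_pow, eval_X, eval_C]
  have hg' : g.derivative.eval 1 = 2 * algebraMap M M1 (a k) := by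
    rw [hg]
    simp
    ring
  have h2' : ‖(2 : M1)‖ = 1 := by
    have h3 := hnorm 2
    rw [map_ofNat] at h3
    rw [h3, h2]
  obtain ⟨y, hy, hy1⟩ := hensel_complete g hgc 1 (by simp) (by rw [hg1]; exact hsum)
    (by rw [hg', norm_mul, h2', hnorm, ha, one_mul])
  have hy0 : y ≠ 0 := by
    rintro rfl
    rw [zero_sub, norm_neg, norm_one, hg1] at hy1
    exact absurd hy1 (not_le.mpr hsum)
  have hz := haniso (Function.update u k y) (by
    rw [← Finset.add_sum_erase _ _ (Finset.mem_univ k), Function.update_self]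
    have h3 : ∑ j ∈ Finset.univ.erase k, algebraMap M M1 (a j) * (Function.update u k y j) ^ 2
        = c := by
      rw [hc]
      refine Finset.sum_congr rfl fun j hj => ?_
      rw [Function.update_of_ne (Finset.ne_of_mem_erase hj)]
    rw [h3, ← hy, hg]
    simp)
  have := congrFun hz k
  rw [Function.update_self] at this
  exact hy0 this

/-- A finite extension of odd degree can be embedded in a finite extension of odd degree of any
overfield. -/
theorem exists_odd_ext {K L : Type*} [Field K] [Field L] [Algebra K L] [CharZero K]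
    [FiniteDimensional K L] (hodd : Odd (Module.finrank K L)) {M : Type} [Field M] (j : K →+* M) :
    ∃ (M1 : Type) (_ : Field M1) (_ : Algebra M M1) (j1 : L →+* M1),
      FiniteDimensional M M1 ∧ Odd (Module.finrank M M1) ∧
      ∀ x, j1 (algebraMap K L x) = algebraMap M M1 (j x) := by
  classical
  set pb := Field.powerBasisOfFiniteOfSeparable K L with hpb
  set g := minpoly K pb.gen with hg
  have hgdeg : Odd (g.map j).natDegree := by
    rw [natDegree_map, hg, pb.natDegree_minpoly, ← pb.finrank]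
    exact hodd
  obtain ⟨p, hp, hpodd, hpd⟩ := exists_odd_irreducible_factor _ (g.map j) rfl hgdeg
  have : Fact (Irreducible p) := ⟨hp⟩
  refine ⟨AdjoinRoot p, inferInstance, inferInstance, ?_⟩
  let : Algebra K (AdjoinRoot p) := ((algebraMap M (AdjoinRoot p)).comp j).toAlgebra
  have halg : ∀ x, algebraMap K (AdjoinRoot p) x = algebraMap M (AdjoinRoot p) (j x) :=
    fun x => rfl
  have hroot : aeval (AdjoinRoot.root p) (minpoly K pb.gen) = 0 := by
    obtain ⟨q, hq⟩ := hpd
    rw [aeval_def, show algebraMap K (AdjoinRoot p) = (algebraMap M (AdjoinRoot p)).comp j from rfl,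
      ← Polynomial.eval₂_map, ← hg, hq, Polynomial.eval₂_mul]
    have : eval₂ (algebraMap M (AdjoinRoot p)) (AdjoinRoot.root p) p = 0 :=
      AdjoinRoot.eval₂_root p
    rw [this, zero_mul]
  set F := pb.lift (AdjoinRoot.root p) hroot with hF
  refine ⟨F.toRingHom, ?_, ?_, ?_⟩
  · exact (AdjoinRoot.powerBasis hp.ne_zero).finite
  · rw [(AdjoinRoot.powerBasis hp.ne_zero).finrank, AdjoinRoot.powerBasis_dim]
    exact hpodd
  · intro x
    exact F.commutes x

end Pool.Agent.Lib.MP_2619d0_ag

/-!
# Embedding a field with prescribed images of algebraically independent elements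
-/


namespace Pool.Agent.Lib.MP_2619d0_ag

open Cardinal MvPolynomial

theorem exists_hom_of_algInd {J K 𝓕 : Type} [Finite J] [Field K] [Algebra ℚ K] [Field 𝓕]
    [Algebra ℚ 𝓕] [IsAlgClosed 𝓕] (hunc : ℵ₀ < #𝓕) (hcard : #K ≤ #𝓕) (a : J → K)
    (ha : AlgebraicIndependent ℚ a) (y : J → 𝓕) (hy : AlgebraicIndependent ℚ y) :
    ∃ ψ : K →+* 𝓕, ∀ j, ψ (a j) = y j := by
  classical
  let algK : Algebra (MvPolynomial J ℚ) K := (aeval a : MvPolynomial J ℚ →ₐ[ℚ] K).toRingHom.toAlgebra
  let algF : Algebra (MvPolynomial J ℚ) 𝓕 := (aeval y : MvPolynomial J ℚ →ₐ[ℚ] 𝓕).toRingHom.toAlgebra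
  have hK : ∀ p : MvPolynomial J ℚ, algebraMap (MvPolynomial J ℚ) K p = aeval a p := fun p => rfl
  have hF : ∀ p : MvPolynomial J ℚ, algebraMap (MvPolynomial J ℚ) 𝓕 p = aeval y p := fun p => rfl
  have hKinj : Function.Injective (algebraMap (MvPolynomial J ℚ) K) := ha
  have hFinj : Function.Injective (algebraMap (MvPolynomial J ℚ) 𝓕) := hy
  have : FaithfulSMul (MvPolynomial J ℚ) K :=
    (faithfulSMul_iff_algebraMap_injective (MvPolynomial J ℚ) K).mpr hKinj
  have : FaithfulSMul (MvPolynomial J ℚ) 𝓕 :=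
    (faithfulSMul_iff_algebraMap_injective (MvPolynomial J ℚ) 𝓕).mpr hFinj
  obtain ⟨s, hs⟩ := exists_isTranscendenceBasis (MvPolynomial J ℚ) K
  obtain ⟨t, ht⟩ := exists_isTranscendenceBasis (MvPolynomial J ℚ) 𝓕
  have hR : #(MvPolynomial J ℚ) ≤ ℵ₀ := by
    refine MvPolynomial.cardinalMk_le_max.trans ?_
    refine max_le (max_le ?_ ?_) le_rfl
    · exact Cardinal.mk_le_aleph0
    · exact Cardinal.mk_le_aleph0
  have hcardt : #𝓕 = #t :=
    IsAlgClosed.cardinal_eq_cardinal_transcendence_basis_of_aleph0_lt' _ ht hR hunc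
  have hst : #s ≤ #t := (Cardinal.mk_set_le s).trans (hcard.trans (le_of_eq hcardt))
  obtain ⟨f⟩ : Nonempty (s ↪ t) := hst
  set w : s → 𝓕 := fun i => (f i : 𝓕) with hw
  have hwind : AlgebraicIndependent (MvPolynomial J ℚ) w := ht.1.comp f f.injective
  let A := Algebra.adjoin (MvPolynomial J ℚ) (Set.range ((↑) : s → K))
  let g : A →ₐ[MvPolynomial J ℚ] 𝓕 :=
    (aeval w : MvPolynomial s (MvPolynomial J ℚ) →ₐ[MvPolynomial J ℚ] 𝓕).comp
      (hs.1.aevalEquiv.symm : A →ₐ[MvPolynomial J ℚ] MvPolynomial s (MvPolynomial J ℚ))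
  have hginj : Function.Injective g := by
    have h1 : Function.Injective
        (aeval w : MvPolynomial s (MvPolynomial J ℚ) →ₐ[MvPolynomial J ℚ] 𝓕) := hwind
    exact h1.comp hs.1.aevalEquiv.symm.injective
  let algAF : Algebra A 𝓕 := g.toRingHom.toAlgebra
  have hAF : ∀ x : A, algebraMap A 𝓕 x = g x := fun x => rfl
  have : FaithfulSMul A 𝓕 := (faithfulSMul_iff_algebraMap_injective A 𝓕).mpr hginj
  have : Module.IsTorsionFree A 𝓕 := Module.isTorsionFree_iff_faithfulSMul.mpr inferInstance
  have : Algebra.IsAlgebraic A K := hs.isAlgebraic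
  let ψ : K →ₐ[A] 𝓕 := IsAlgClosed.lift
  refine ⟨ψ.toRingHom, fun j => ?_⟩
  have h1 : algebraMap A K (algebraMap (MvPolynomial J ℚ) A (X j)) = a j := by
    rw [← IsScalarTower.algebraMap_apply (MvPolynomial J ℚ) A K, hK, aeval_X]
  have h2 : ψ (a j) = y j := by
    rw [← h1, ψ.commutes, hAF, g.commutes, hF, aeval_X]
  exact h2

/-- Affine changes preserve algebraic independence. -/
theorem algInd_affine {J 𝓕 : Type} [Field 𝓕] [Algebra ℚ 𝓕] (b : J → 𝓕)
    (hb : AlgebraicIndependent ℚ b) (c q : J → ℚ) (hq : ∀ j, q j ≠ 0) :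
    AlgebraicIndependent ℚ (fun j => algebraMap ℚ 𝓕 (c j) + algebraMap ℚ 𝓕 (q j) * b j) := by
  set φ : MvPolynomial J ℚ →ₐ[ℚ] MvPolynomial J ℚ := aeval (fun j => C (c j) + C (q j) * X j)
    with hφ
  set φ' : MvPolynomial J ℚ →ₐ[ℚ] MvPolynomial J ℚ :=
    aeval (fun j => C (q j)⁻¹ * (X j - C (c j))) with hφ'
  have hcomp : φ'.comp φ = AlgHom.id ℚ _ := by
    apply MvPolynomial.algHom_ext
    intro j
    rw [AlgHom.comp_apply, hφ, aeval_X, map_add, map_mul]
    have h1 : ∀ r : ℚ, φ' (C r) = C r := fun r => φ'.commutes r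
    rw [h1, h1, hφ', aeval_X, AlgHom.id_apply, ← mul_assoc, ← C_mul, mul_inv_cancel₀ (hq j), C_1]
    ring
  have hφinj : Function.Injective φ := by
    intro p p' h
    have h1 := congrArg φ' h
    rw [← AlgHom.comp_apply, ← AlgHom.comp_apply, hcomp] at h1
    exact h1
  have h2 : (aeval (fun j => algebraMap ℚ 𝓕 (c j) + algebraMap ℚ 𝓕 (q j) * b j) :
      MvPolynomial J ℚ →ₐ[ℚ] 𝓕) = (aeval b).comp φ := by
    apply MvPolynomial.algHom_ext
    intro j
    rw [AlgHom.comp_apply, aeval_X, hφ, aeval_X, map_add, map_mul, aeval_C, aeval_C, aeval_X]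
  rw [AlgebraicIndependent, h2]
  exact (show Function.Injective (aeval b) from hb).comp hφinj

/-- Existence of algebraically independent elements with prescribed integral approximations. -/
theorem exists_algInd_near {J 𝓕 : Type} [Finite J] [NormedField 𝓕] [Algebra ℚ 𝓕] [IsAlgClosed 𝓕]
    (hunc : ℵ₀ < #𝓕) (p : ℕ) (hp0 : p ≠ 0) (hp : ‖(p : 𝓕)‖ < 1) (hp0' : 0 < ‖(p : 𝓕)‖) (c : J → ℤ)
    {ε : ℝ} (hε : 0 < ε) :
    ∃ y : J → 𝓕, AlgebraicIndependent ℚ y ∧ ∀ j, ‖y j - (c j : 𝓕)‖ ≤ ε := by
  classical
  obtain ⟨t, ht⟩ := exists_isTranscendenceBasis ℚ 𝓕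
  have hcardt : #𝓕 = #t :=
    IsAlgClosed.cardinal_eq_cardinal_transcendence_basis_of_aleph0_lt' _ ht
      (Cardinal.mk_le_aleph0) hunc
  have hJ : #J ≤ #t := by
    rw [← hcardt]
    exact (Cardinal.mk_le_aleph0).trans hunc.le
  obtain ⟨f⟩ : Nonempty (J ↪ t) := hJ
  have hb : AlgebraicIndependent ℚ (fun j => (f j : 𝓕)) := ht.1.comp f f.injective
  have hn : ∀ j, ∃ n : ℕ, ‖(p : 𝓕)‖ ^ n * ‖(f j : 𝓕)‖ ≤ ε := by
    intro j
    have h1 : Filter.Tendsto (fun n : ℕ => ‖(p : 𝓕)‖ ^ n * ‖(f j : 𝓕)‖) Filter.atTop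
        (nhds (0 * ‖(f j : 𝓕)‖)) :=
      (tendsto_pow_atTop_nhds_zero_of_lt_one hp0'.le hp).mul_const _
    rw [zero_mul] at h1
    exact ((h1.eventually (gt_mem_nhds hε)).exists).imp fun n hn => hn.le
  choose n hn using hn
  refine ⟨fun j => algebraMap ℚ 𝓕 (c j) + algebraMap ℚ 𝓕 ((p : ℚ) ^ n j) * (f j : 𝓕),
    algInd_affine _ hb (fun j => (c j : ℚ)) (fun j => (p : ℚ) ^ n j)
      (fun j => pow_ne_zero _ (by exact_mod_cast hp0)), fun j => ?_⟩
  have h1 : algebraMap ℚ 𝓕 (c j : ℚ) = (c j : 𝓕) := map_intCast _ _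
  have h2 : algebraMap ℚ 𝓕 ((p : ℚ) ^ n j) = (p : 𝓕) ^ n j := by
    rw [map_pow, map_natCast]
  simp only
  rw [h1, h2, add_sub_cancel_left, norm_mul, norm_pow]
  exact hn j

/-- The main embedding statement: `ℂ` embeds in the algebraic closure of `ℚ_p` such that given
algebraically independent numbers are mapped close to given integers. -/
theorem exists_embedding (p : ℕ) [Fact p.Prime] {J : Type} [Finite J] (a : J → ℂ)
    (ha : AlgebraicIndependent ℚ a) (c : J → ℤ) {ε : ℝ} (hε : 0 < ε) :
    ∃ ψ : ℂ →+* PadicAlgCl p, ∀ j, ‖ψ (a j) - (c j : PadicAlgCl p)‖ ≤ ε := by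
  have hcont : 𝔠 ≤ #(PadicAlgCl p) :=
    (continuum_le_cardinal_of_nontriviallyNormedField ℚ_[p]).trans
      (Cardinal.mk_le_of_injective (algebraMap ℚ_[p] (PadicAlgCl p)).injective)
  have hunc : ℵ₀ < #(PadicAlgCl p) := Cardinal.aleph0_lt_continuum.trans_le hcont
  have hcard : #ℂ ≤ #(PadicAlgCl p) := by
    rw [Cardinal.mk_complex]
    exact hcont
  have hnp : ‖(p : PadicAlgCl p)‖ = (p : ℝ)⁻¹ := by
    have h1 := PadicAlgCl.norm_extends p (p : ℚ_[p])
    rw [map_natCast, Padic.norm_p] at h1
    exact h1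
  have hp2 : 1 < (p : ℝ) := by
    exact_mod_cast (Fact.out : p.Prime).one_lt
  obtain ⟨y, hy, hyc⟩ := exists_algInd_near (𝓕 := PadicAlgCl p) hunc p
    (Fact.out : p.Prime).ne_zero (by rw [hnp]; exact inv_lt_one_of_one_lt₀ hp2)
    (by rw [hnp]; positivity) c hε
  obtain ⟨ψ, hψ⟩ := exists_hom_of_algInd hunc hcard a ha y hy
  exact ⟨ψ, fun j => by rw [hψ]; exact hyc j⟩

end Pool.Agent.Lib.MP_2619d0_ag

/-!
# Extending an embedding to purely transcendental extensions
-/


namespace Pool.Agent.Lib.MP_2619d0_ag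

open MvPolynomial

theorem exists_emb_aux {k A K K' M σ τ : Type} [Field k] [CommRing A] [IsDomain A] [Field K]
    [Algebra A K] [IsFractionRing A K] [Field K'] [Algebra (MvPolynomial σ K) K']
    [IsFractionRing (MvPolynomial σ K) K'] [Field M] (ρ : k →+* M) (θ : τ → M) (U : σ → M)
    (b : MvPolynomial τ k →+* A) (hb : b.IsIntegral) (Θ : A →+* M)
    (hΘ : Function.Injective Θ) (hΘb : ∀ P, Θ (b P) = eval₂ ρ θ P)
    (hind : ∀ P : MvPolynomial (σ ⊕ τ) k, eval₂ ρ (Sum.elim U θ) P = 0 → P = 0) :
    ∃ j : K' →+* M, ∀ a : A,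
      j (algebraMap (MvPolynomial σ K) K' (C (algebraMap A K a))) = Θ a := by
  classical
  have hindθ : ∀ P : MvPolynomial τ k, eval₂ ρ θ P = 0 → P = 0 := by
    intro P hP
    have h1 := hind (rename Sum.inr P) (by
      rw [eval₂_rename]
      exact hP)
    exact (rename_injective _ Sum.inr_injective) (by rw [h1, map_zero])
  let j : K →+* M := IsFractionRing.lift hΘ
  have hj : ∀ a : A, j (algebraMap A K a) = Θ a :=
    fun a => IsFractionRing.lift_algebraMap hΘ a
  let R := MvPolynomial τ k
  let algCM : Algebra k M := ρ.toAlgebra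
  let algRM : Algebra R M := (aeval θ : R →ₐ[k] M).toRingHom.toAlgebra
  let algRA : Algebra R A := b.toAlgebra
  let algRK : Algebra R K := ((algebraMap A K).comp b).toAlgebra
  let algKM : Algebra K M := j.toAlgebra
  have tRAK : IsScalarTower R A K := IsScalarTower.of_algebraMap_eq fun _ => rfl
  have tCRM : IsScalarTower k R M := IsScalarTower.of_algebraMap_eq fun c => by
    change ρ c = aeval θ (C c)
    rw [aeval_C]
    rfl
  have tRKM : IsScalarTower R K M := IsScalarTower.of_algebraMap_eq fun P => by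
    change aeval θ P = j (algebraMap A K (b P))
    rw [hj, hΘb]
    rfl
  have hintA : Algebra.IsIntegral R A := ⟨hb⟩
  have hRinj : Function.Injective b := by
    intro P Q hPQ
    have h1 := congrArg Θ hPQ
    rw [hΘb, hΘb] at h1
    have h3 := hindθ (P - Q) (by rw [eval₂_sub, h1, sub_self])
    exact sub_eq_zero.mp h3
  have : FaithfulSMul R A := (faithfulSMul_iff_algebraMap_injective _ _).mpr hRinj
  have halgK : Algebra.IsAlgebraic R K := by
    have h1 : Algebra.IsAlgebraic R A := Algebra.IsIntegral.isAlgebraic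
    have h2 : Algebra.IsAlgebraic A K := IsLocalization.isAlgebraic K (nonZeroDivisors A)
    exact Algebra.IsAlgebraic.trans R A K
  have hU : AlgebraicIndependent R U := by
    have h1 : (aeval (Sum.elim U θ) : MvPolynomial (σ ⊕ τ) k →ₐ[k] M)
        = ((aeval U : MvPolynomial σ R →ₐ[R] M).restrictScalars k).comp
          (sumAlgEquiv k σ τ).toAlgHom := by
      apply MvPolynomial.algHom_ext
      intro s
      rcases s with s | s
      · simp
      · simp only [aeval_X, Sum.elim_inr, AlgHom.comp_apply, AlgHom.restrictScalars_apply]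
        change θ s = aeval U (sumAlgEquiv k σ τ (X (Sum.inr s)))
        have h2 : sumAlgEquiv k σ τ (X (Sum.inr s)) = C (X s) := by
          simp
        rw [h2, aeval_C]
        change θ s = aeval θ (X s)
        rw [aeval_X]
    intro P Q hPQ
    apply (sumAlgEquiv k σ τ).symm.injective
    set P' := (sumAlgEquiv k σ τ).symm P with hP'
    set Q' := (sumAlgEquiv k σ τ).symm Q with hQ'
    have h2 : aeval (Sum.elim U θ) (P' - Q') = (0 : M) := by
      rw [map_sub, h1]
      simp only [AlgHom.comp_apply, AlgHom.restrictScalars_apply]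
      change aeval U (sumAlgEquiv k σ τ P')
        - aeval U (sumAlgEquiv k σ τ Q') = 0
      rw [hP', hQ', AlgEquiv.apply_symm_apply, AlgEquiv.apply_symm_apply]
      exact sub_eq_zero.mpr hPQ
    exact sub_eq_zero.mp (hind _ h2)
  have hUK : AlgebraicIndependent K U := hU.extendScalars K
  let j' : K' →+* M :=
    IsFractionRing.lift (g := (aeval U : MvPolynomial σ K →ₐ[K] M).toRingHom) hUK
  refine ⟨j', fun a => ?_⟩
  have h1 : j' (algebraMap (MvPolynomial σ K) K' (C (algebraMap A K a)))
      = aeval U (C (algebraMap A K a)) :=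
    IsFractionRing.lift_algebraMap _ _
  rw [h1, aeval_C, ← hj]
  rfl

end Pool.Agent.Lib.MP_2619d0_ag

/-!
# Embedding the function field of a cubic hypersurface
-/


namespace Pool.Agent.Lib.MP_2619d0_ag

open MvPolynomial

/-- The structure map of the coordinate ring over the polynomial ring in all variables but the
first. -/
noncomputable def baseHom {k : Type*} [Field k] {m : ℕ} (f : MvPolynomial (Fin (m + 1)) k) :
    MvPolynomial (Fin m) k →+* MvPolynomial (Fin (m + 1)) k ⧸ Ideal.span {f} :=
  (Ideal.Quotient.mk (Ideal.span {f})).comp (rename Fin.succ : _ →ₐ[k] _).toRingHom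

theorem eval₂_finSucc {k : Type*} [Field k] {m : ℕ} (f g : MvPolynomial (Fin (m + 1)) k) :
    Polynomial.eval₂ (baseHom f) (Ideal.Quotient.mk (Ideal.span {f}) (X 0))
      (finSuccEquiv k m g) = Ideal.Quotient.mk (Ideal.span {f}) g := by
  have h : ((Polynomial.eval₂RingHom (baseHom f) (Ideal.Quotient.mk (Ideal.span {f}) (X 0))).comp
      (finSuccEquiv k m).toRingEquiv.toRingHom) = Ideal.Quotient.mk (Ideal.span {f}) := by
    apply MvPolynomial.ringHom_ext
    · intro a
      change Polynomial.eval₂ (baseHom f) (Ideal.Quotient.mk (Ideal.span {f}) (X 0))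
        (finSuccEquiv k m (C a)) = _
      have h1 : finSuccEquiv k m (C a) = Polynomial.C (C a) := by
        simp [finSuccEquiv_apply]
      rw [h1, Polynomial.eval₂_C, baseHom, RingHom.comp_apply]
      congr 1
      exact rename_C _ _
    · intro i
      change Polynomial.eval₂ (baseHom f) (Ideal.Quotient.mk (Ideal.span {f}) (X 0))
        (finSuccEquiv k m (X i)) = _
      refine Fin.cases ?_ (fun j => ?_) i
      · rw [finSuccEquiv_X_zero, Polynomial.eval₂_X]
      · rw [finSuccEquiv_X_succ, Polynomial.eval₂_C, baseHom, RingHom.comp_apply]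
        congr 1
        exact rename_X _ _
  exact congrArg (fun φ => φ g) h

theorem baseHom_isIntegral {k : Type*} [Field k] {m : ℕ} (f : MvPolynomial (Fin (m + 1)) k)
    {c : k} (hc : c ≠ 0) (hdeg : (finSuccEquiv k m f).degree ≤ 3)
    (hlead : (finSuccEquiv k m f).coeff 3 = C c) : (baseHom f).IsIntegral := by
  have hX : (baseHom f).IsIntegralElem (Ideal.Quotient.mk (Ideal.span {f}) (X 0)) := by
    refine ⟨Polynomial.C (C c⁻¹) * finSuccEquiv k m f, ?_, ?_⟩
    · refine Polynomial.monic_of_degree_le 3 ?_ ?_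
      · refine (Polynomial.degree_mul_le _ _).trans ?_
        calc _ ≤ (0 : WithBot ℕ) + 3 := add_le_add Polynomial.degree_C_le hdeg
          _ = 3 := zero_add _
      · rw [Polynomial.coeff_C_mul]
        change C c⁻¹ * (finSuccEquiv k m f).coeff 3 = 1
        rw [hlead, ← C_mul, inv_mul_cancel₀ hc, C_1]
    · rw [Polynomial.eval₂_mul, eval₂_finSucc,
        Ideal.Quotient.eq_zero_iff_mem.mpr (Ideal.mem_span_singleton_self f), mul_zero]
  intro x
  obtain ⟨g, rfl⟩ := Ideal.Quotient.mk_surjective x
  rw [← eval₂_finSucc, Polynomial.eval₂_eq_sum, Polynomial.sum_def]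
  let := (baseHom f).toAlgebra
  have hX' : IsIntegral (MvPolynomial (Fin m) k) (Ideal.Quotient.mk (Ideal.span {f}) (X 0)) := hX
  change IsIntegral (MvPolynomial (Fin m) k) _
  apply IsIntegral.sum
  intro i _
  exact (isIntegral_algebraMap (R := MvPolynomial (Fin m) k)
    (A := MvPolynomial (Fin (m + 1)) k ⧸ Ideal.span {f})).mul (hX'.pow i)

theorem kernel_eq {k M : Type*} [Field k] [Field M] (ρ : k →+* M) {m : ℕ}
    (f : MvPolynomial (Fin (m + 1)) k)
    (hint : (baseHom f).IsIntegral)
    (hdom : IsDomain (MvPolynomial (Fin (m + 1)) k ⧸ Ideal.span {f}))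
    (a : Fin (m + 1) → M) (ha : eval₂ ρ a f = 0)
    (hind : ∀ P : MvPolynomial (Fin m) k, eval₂ ρ (fun j => a j.succ) P = 0 → P = 0) :
    ∃ Θ : (MvPolynomial (Fin (m + 1)) k ⧸ Ideal.span {f}) →+* M, Function.Injective Θ ∧
      ∀ g, Θ (Ideal.Quotient.mk (Ideal.span {f}) g) = eval₂ ρ a g := by
  let Θ : (MvPolynomial (Fin (m + 1)) k ⧸ Ideal.span {f}) →+* M :=
    Ideal.Quotient.lift (Ideal.span {f}) (eval₂Hom ρ a) (by
      intro g hg
      rw [Ideal.mem_span_singleton] at hg
      obtain ⟨h, rfl⟩ := hg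
      rw [map_mul, coe_eval₂Hom, ha, zero_mul])
  have hΘ : ∀ g, Θ (Ideal.Quotient.mk (Ideal.span {f}) g) = eval₂ ρ a g := fun g => rfl
  refine ⟨Θ, ?_, hΘ⟩
  rw [injective_iff_map_eq_zero]
  intro x hx
  by_contra hx0
  let := (baseHom f).toAlgebra
  have h1 := Ideal.comap_ne_bot_of_integral_mem (I := RingHom.ker Θ) hx0 hx
    (show IsIntegral (MvPolynomial (Fin m) k) x from hint x)
  apply h1
  rw [eq_bot_iff]
  intro P hP
  rw [Ideal.mem_comap, RingHom.mem_ker] at hP
  rw [Ideal.mem_bot]
  apply hind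
  have h2 : Θ (algebraMap (MvPolynomial (Fin m) k)
      (MvPolynomial (Fin (m + 1)) k ⧸ Ideal.span {f}) P) = eval₂ ρ a (rename Fin.succ P) := rfl
  rw [h2, eval₂_rename] at hP
  exact hP

theorem generic_domain {m : ℕ} (hm : 2 ≤ m) (F : MvPolynomial (Fin (m + 1)) ℂ)
    (hF : F.IsHomogeneous 3)
    (hgen : AlgebraicIndependent ℚ (fun j : Exp3 (m + 1) => coeff j.1 F)) :
    IsDomain (MvPolynomial (Fin m) ℂ ⧸ Ideal.span {dh ℂ m F}) := by
  obtain ⟨N, rfl⟩ : ∃ N, m = N + 2 := ⟨m - 2, by omega⟩
  obtain ⟨-, h1, h2⟩ := generic_star F hF hgen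
  exact isDomain_quotient h1 h2

theorem generic_integral {m : ℕ} (F : MvPolynomial (Fin (m + 1 + 1)) ℂ)
    (hF : F.IsHomogeneous 3)
    (hgen : AlgebraicIndependent ℚ (fun j : Exp3 (m + 1 + 1) => coeff j.1 F)) :
    (baseHom (dh ℂ (m + 1) F)).IsIntegral := by
  obtain ⟨h1, h2⟩ := finSucc_dh_coeff hF
  refine baseHom_isIntegral _ ?_ h1 h2
  have h3 : (Finsupp.single (1 : Fin (m + 1 + 1)) 3).degree = 3 := Finsupp.degree_single _ _
  exact hgen.ne_zero ⟨Finsupp.single 1 3, h3⟩

end Pool.Agent.Lib.MP_2619d0_ag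

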