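import Mathlib

set_option autoImplicit false

namespace Pool.Agent.Lib.MP_2619d0_ag

open MvPolynomial

/-- A diagonal form with coefficients distinct variables is anisotropic over a polynomial ring
over a domain. -/
theorem diag_anisotropic {k : Type*} [Field k] {n : ℕ} (S : Finset (Fin n))
    (u : Fin n → MvPolynomial (Fin n) k)
    (h : ∑ i ∈ S, X i * (u i) ^ 2 = 0) : ∀ i ∈ S, u i = 0 := by
  classical
  by_contra hcon
  push Not at hcon
  obtain ⟨i₀, hi₀S, hi₀⟩ := hcon
  set m : MonomialOrder (Fin n) := MonomialOrder.lex with hm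
  set d : Fin n → (Fin n →₀ ℕ) := fun i => m.degree (X i * (u i) ^ 2) with hd
  have hdeg : ∀ i, u i ≠ 0 → d i = Finsupp.single i 1 + 2 • m.degree (u i) := by
    intro i hi
    simp only [hd]
    rw [MonomialOrder.degree_mul (X_ne_zero i) (pow_ne_zero 2 hi), MonomialOrder.degree_X,
      MonomialOrder.degree_pow]
  -- distinct degrees
  have hinj : ∀ i j, u i ≠ 0 → u j ≠ 0 → d i = d j → i = j := by
    intro i j hi hj hij
    by_contra hne
    rw [hdeg i hi, hdeg j hj] at hij
    have h1 := DFunLike.congr_fun hij i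
    simp only [Finsupp.add_apply, Finsupp.single_eq_same, Finsupp.smul_apply, smul_eq_mul,
      Finsupp.single_apply, if_neg (Ne.symm hne)] at h1
    omega
  -- choose max
  set T : Finset (Fin n) := S.filter (fun i => u i ≠ 0) with hT
  have hTne : T.Nonempty := ⟨i₀, by simp [hT, hi₀S, hi₀]⟩
  obtain ⟨i₁, hi₁T, hmax⟩ := T.exists_max_image (fun i => m.toSyn (d i)) hTne
  have hi₁ : u i₁ ≠ 0 := by
    have := hi₁T
    simp only [hT, Finset.mem_filter] at this
    exact this.2
  have hi₁S : i₁ ∈ S := by
    have := hi₁T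
    simp only [hT, Finset.mem_filter] at this
    exact this.1
  have hc := congrArg (fun p => MvPolynomial.coeff (d i₁) p) h
  simp only [MvPolynomial.coeff_sum, MvPolynomial.coeff_zero] at hc
  rw [Finset.sum_eq_single i₁] at hc
  · have : m.leadingCoeff (X i₁ * (u i₁) ^ 2) ≠ 0 := by
      rw [MonomialOrder.leadingCoeff_ne_zero_iff]
      exact mul_ne_zero (X_ne_zero _) (pow_ne_zero 2 hi₁)
    exact this hc
  · intro j hjS hj
    by_cases hju : u j = 0
    · simp [hju]
    · apply m.coeff_eq_zero_of_lt
      have hjT : j ∈ T := by simp [hT, hjS, hju]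
      have h1 := hmax j hjT
      refine lt_of_le_of_ne h1 ?_
      intro h2
      have h3 : d j = d i₁ := m.toSyn.injective h2
      exact hj (hinj j i₁ hju hi₁ h3)
  · intro h2
    exact absurd hi₁S h2

end Pool.Agent.Lib.MP_2619d0_ag
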