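import Pool.Agent.Lib.MP_2619d0_ag.TOdd

/-!
# Conics through an odd generic point
-/

set_option autoImplicit false

namespace MP2619.T

universe u

open MvPolynomial Pool.Agent.Lib.MP_2619d0_ag Pool.Agent.Lib.MP_2619d0_ag.T

variable {m : ℕ} {L : Type u} [Field L] [Algebra ℂ L]

/-- A conic in `X` through the odd generic point `x` and the point `w` is impossible if the third
point of the line through `x` and `w` is an odd generic point. -/
theorem conic_third (hm : 1 ≤ m) {F : MvPolynomial (Fin (m+1+1)) ℂ} (hF : VG F)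
    (w q x : Fin (m+1+1) → L) (hx : HG F x) (hγ0 : Dc (cL L F) w x ≠ 0)
    (hid : ∀ s : L, Fc (cL L F) (s ^ 2 • w + s • q + x) = 0)
    (hz : HG F (Dc (cL L F) w x • x - Dc (cL L F) x w • w))
    (hzo : Odd (fd (ev (Dc (cL L F) w x • x - Dc (cL L F) x w • w)))) : False := by
  have hinf : Infinite L := Infinite.of_injective _ (algebraMap ℂ L).injective
  have hx0 : x 0 ≠ 0 := HG_zero hF hx
  obtain ⟨e6, e5, e4, e3, e2, e1, e0⟩ := st_conic_coeffs (cL L F) w q x hid
  obtain ⟨γ, hγ⟩ : ∃ γ, γ = Dc (cL L F) w x := ⟨_, rfl⟩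
  obtain ⟨τ, hτ⟩ : ∃ τ, τ = Tc (cL L F) w q x := ⟨_, rfl⟩
  obtain ⟨κ, hκ⟩ : ∃ κ, κ = Dc (cL L F) x w := ⟨_, rfl⟩
  rw [← hγ, ← hκ] at hz hzo
  rw [← hγ] at hγ0
  have hB : ∀ s : L, Dc (cL L F) w (s ^ 2 • w + s • q + x) = γ := by
    intro s
    rw [Dc_add_right, Dc_add_right, Dc_smul_right, Dc_smul_right, Dc_self, e6, e5, ← hγ]
    ring
  have hA : ∀ s : L, Dc (cL L F) (s ^ 2 • w + s • q + x) w = s ^ 2 * γ + s * τ + κ := by
    intro s
    have t1 : Tc (cL L F) w q w = 0 := by rw [Tc_comm', Tc_self, e5, mul_zero]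
    have t2 : Tc (cL L F) w x w = 2 * γ := by rw [Tc_comm', Tc_self, ← hγ]
    have t3 : Tc (cL L F) q x w = τ := by rw [Tc_comm', Tc_comm, ← hτ]
    have t4 : Dc (cL L F) q w = - γ := by
      rw [hγ]
      linear_combination e4
    have t5 : Tc (cL L F) (s ^ 2 • w) (s • q) w = 0 := by
      rw [Tc_smul_left, Tc_comm, Tc_smul_left, Tc_comm, t1]
      ring
    rw [Dc_add_left, Dc_add_left, Dc_smul_left, Dc_smul_left, Dc_self, e6, t5, Tc_add_left,
      Tc_smul_left, Tc_smul_left, t2, t3, t4, ← hκ]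
    ring
  obtain ⟨a, haa⟩ : ∃ a, a = γ • x - κ • w := ⟨_, rfl⟩
  obtain ⟨b, hbb⟩ : ∃ b, b = γ • q - τ • w := ⟨_, rfl⟩
  have hzs : ∀ s : L, s • b + a = γ • ((s ^ 2 • w + s • q + x) +
      (-((s ^ 2 * γ + s * τ + κ) / γ)) • w) := by
    intro s
    have h2 : γ * -((s ^ 2 * γ + s * τ + κ) / γ) = - (s ^ 2 * γ + s * τ + κ) := by field_simp
    rw [smul_add, smul_smul, h2, haa, hbb]
    funext i
    simp only [Pi.add_apply, Pi.sub_apply, Pi.smul_apply, smul_eq_mul]
    ring
  have hzF : ∀ s : L, Fc (cL L F) (s • b + a) = 0 := by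
    intro s
    rw [hzs, Fc_smul]
    have h1 : (s ^ 2 • w + s • q + x) + (-((s ^ 2 * γ + s * τ + κ) / γ)) • w =
        (1 : L) • (s ^ 2 • w + s • q + x) + (-((s ^ 2 * γ + s * τ + κ) / γ)) • w := by
      rw [one_smul]
    rw [h1, Fc_line, hid, hA, hB, e6]
    field_simp
    ring
  rw [← haa] at hz hzo
  have hz0 : a 0 ≠ 0 := HG_zero hF hz
  have hzG : Gp F (ev a) := Gp_ev (N := m+1) hF.1 a hz0 hz
  obtain ⟨⟨l, hl⟩, -⟩ := st_line hm hF b a a 0 hzF (by rw [zero_smul, zero_add]) hz0 hzG hzo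
  have hFz' : Fc (cL L F) a = 0 := by
    have h1 := hzF 0
    rwa [zero_smul, zero_add] at h1
  have hDz : Dc (cL L F) w a = γ ^ 2 := by
    rw [haa, sub_eq_add_neg, ← neg_smul, Dc_add_right, Dc_smul_right, Dc_smul_right, Dc_self, e6,
      ← hγ]
    ring
  obtain ⟨δ, hδ⟩ : ∃ δ, δ = Dc (cL L F) a w := ⟨_, rfl⟩
  -- the conic lies on a line
  have hline : ∀ s : L, γ • (s ^ 2 • w + s • q + x) =
      (γ * s ^ 2 + τ * s + κ) • w + (l * s + 1) • a := by
    intro s
    have h1 : γ • q = τ • w + l • a := by rw [← hl, hbb]; abel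
    have h2 : γ • x = κ • w + a := by rw [haa]; abel
    have h3 : γ • (s ^ 2 • w + s • q + x) = (γ * s ^ 2) • w + s • (γ • q) + γ • x := by
      funext i
      simp only [Pi.add_apply, Pi.smul_apply, smul_eq_mul]
      ring
    rw [h3, h1, h2]
    funext i
    simp only [Pi.add_apply, Pi.smul_apply, smul_eq_mul]
    ring
  have hprod : ∀ s : L, (γ * s ^ 2 + τ * s + κ) * (l * s + 1) *
      ((γ * s ^ 2 + τ * s + κ) * γ ^ 2 + (l * s + 1) * δ) = 0 := by
    intro s
    have h1 : Fc (cL L F) (γ • (s ^ 2 • w + s • q + x)) = 0 := by rw [Fc_smul, hid, mul_zero]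
    rw [hline, Fc_line, e6, hFz', hDz, ← hδ] at h1
    linear_combination h1
  have hPoly : (Polynomial.C γ * Polynomial.X ^ 2 + Polynomial.C τ * Polynomial.X +
      Polynomial.C κ) * (Polynomial.C l * Polynomial.X + 1) *
      ((Polynomial.C γ * Polynomial.X ^ 2 + Polynomial.C τ * Polynomial.X +
      Polynomial.C κ) * Polynomial.C (γ ^ 2) + (Polynomial.C l * Polynomial.X + 1) *
        Polynomial.C δ) = 0 := by
    apply Polynomial.funext
    intro s
    simp only [Polynomial.eval_add, Polynomial.eval_mul, Polynomial.eval_C, Polynomial.eval_pow,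
      Polynomial.eval_X, Polynomial.eval_zero, Polynomial.eval_one]
    exact hprod s
  rcases mul_eq_zero.1 hPoly with h | h
  · rcases mul_eq_zero.1 h with h | h
    · have h1 := congrArg (fun p => Polynomial.coeff p 2) h
      simp only [Polynomial.coeff_add, Polynomial.coeff_C_mul, Polynomial.coeff_X_pow,
        Polynomial.coeff_X, Polynomial.coeff_C, Polynomial.coeff_zero] at h1
      norm_num at h1
      exact hγ0 h1
    · have h1 := congrArg (fun p => Polynomial.eval 0 p) h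
      simp only [Polynomial.eval_add, Polynomial.eval_mul, Polynomial.eval_C,
        Polynomial.eval_X, Polynomial.eval_zero, mul_zero, zero_add, Polynomial.eval_one] at h1
      exact one_ne_zero h1
  · have h1 := congrArg (fun p => Polynomial.coeff p 2) h
    simp only [Polynomial.coeff_add, Polynomial.coeff_mul_C, Polynomial.coeff_C_mul,
      Polynomial.coeff_X_pow, Polynomial.coeff_X, Polynomial.coeff_C,
      Polynomial.coeff_zero, Polynomial.coeff_one] at h1
    norm_num at h1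
    exact hγ0 h1

end MP2619.T
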