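import Pool.Agent.Lib.MP_2619d0_ag.QDegen

/-!
# Counting standard pairs, and the asymptotic comparison
-/

namespace MP2619.Q

open Finset

theorem card_box (m b q : ℕ) (i : Fin (m+1)) :
    ((univ.finsuppAntidiag b : Finset (Fin (m+1) →₀ ℕ)).filter
      (fun β => ∀ l, l ≠ i → β l < q)).card ≤ q ^ m := by
  classical
  have h1 : (Fintype.piFinset (fun _ : Fin m => range q)).card = q ^ m := by
    simp
  rw [← h1]
  apply Finset.card_le_card_of_injOn (fun β => fun l : Fin m => β (i.succAbove l))
  · intro β hβ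
    rw [Finset.mem_coe, mem_filter] at hβ
    simp only [Finset.mem_coe, Fintype.mem_piFinset, mem_range]
    intro l
    exact hβ.2 _ (Fin.succAbove_ne i l)
  · intro β hβ γ hγ h
    rw [Finset.mem_coe, mem_filter, mem_finsuppAntidiag] at hβ hγ
    have h2 : ∀ l, β (i.succAbove l) = γ (i.succAbove l) := fun l => congrFun h l
    have h3 : β i = γ i := by
      have e1 := hβ.1.1
      have e2 := hγ.1.1
      rw [Fin.sum_univ_succAbove _ i] at e1 e2
      simp only [h2] at e1
      omega
    ext l
    rcases Fin.eq_self_or_eq_succAbove i l with h4 | ⟨l', h4⟩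
    · rw [h4]; exact h3
    · rw [h4]; exact h2 l'

theorem card_std (m a b q : ℕ) (hb : (m+1) * q ≤ b) :
    Nat.card (Std m a b q) ≤ (m+1) * (((m+1) + a - 1).choose a * q ^ m) +
      (m+1) * (m+1) * ((m + a - 1).choose a * ((m+1) + b - 1).choose b) := by
  classical
  let S1 : Fin (m+1) → Finset ((Fin (m+2) →₀ ℕ) × (Fin (m+1) →₀ ℕ)) := fun i =>
    ((univ.erase i.castSucc).finsuppAntidiag a) ×ˢ
      ((univ.finsuppAntidiag b : Finset (Fin (m+1) →₀ ℕ)).filter (fun β => ∀ l, l ≠ i → β l < q))
  let S2 : Fin (m+1) × Fin (m+1) → Finset ((Fin (m+2) →₀ ℕ) × (Fin (m+1) →₀ ℕ)) := fun i =>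
    (((univ.erase i.1.castSucc).erase i.2.castSucc).finsuppAntidiag a) ×ˢ
      (univ.finsuppAntidiag b : Finset (Fin (m+1) →₀ ℕ))
  let T := (univ.biUnion S1) ∪ ((univ.filter (fun i : Fin (m+1) × Fin (m+1) => i.1 ≠ i.2)).biUnion S2)
  have hmem : ∀ p : Std m a b q, p.1.1 ∈ T := by
    rintro ⟨p, hp⟩
    simp only [Std, Set.mem_ofPred_eq] at hp
    have hp1 := p.2
    rw [mem_product, mem_finsuppAntidiag, mem_finsuppAntidiag] at hp1
    have hex : ∃ i, q ≤ p.1.2 i := by
      by_contra hcon
      push Not at hcon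
      have h1 : ∑ i, p.1.2 i < ∑ i : Fin (m+1), q :=
        Finset.sum_lt_sum_of_nonempty univ_nonempty (fun i _ => hcon i)
      rw [p.snd_sum] at h1
      simp at h1
      omega
    obtain ⟨i, hi⟩ := hex
    have hi0 : p.1.1 i.castSucc = 0 := by
      rcases hp i with h | h
      · exact h
      · omega
    by_cases h2 : ∀ l, l ≠ i → p.1.2 l < q
    · apply mem_union_left
      rw [mem_biUnion]
      refine ⟨i, mem_univ _, ?_⟩
      simp only [S1]
      rw [mem_product, mem_finsuppAntidiag, mem_filter, mem_finsuppAntidiag]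
      refine ⟨⟨?_, ?_⟩, ⟨hp1.2, h2⟩⟩
      · have h3 := hp1.1.1
        rw [← Finset.add_sum_erase univ _ (mem_univ i.castSucc), hi0, zero_add] at h3
        exact h3
      · intro j hj
        rw [mem_erase]
        refine ⟨?_, mem_univ _⟩
        rintro rfl
        rw [Finsupp.mem_support_iff] at hj
        exact hj hi0
    · push Not at h2
      obtain ⟨l, hl, hl2⟩ := h2
      have hl0 : p.1.1 l.castSucc = 0 := by
        rcases hp l with h | h
        · exact h
        · omega
      apply mem_union_right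
      rw [mem_biUnion]
      refine ⟨(l, i), by simp [hl], ?_⟩
      simp only [S2]
      rw [mem_product, mem_finsuppAntidiag, mem_finsuppAntidiag]
      refine ⟨⟨?_, ?_⟩, hp1.2⟩
      · have hne : i.castSucc ≠ l.castSucc := by
          intro h; exact hl (Fin.castSucc_injective _ h).symm
        have h3 : i.castSucc ∈ univ.erase l.castSucc := by
          rw [mem_erase]; exact ⟨hne, mem_univ _⟩
        have h4 := hp1.1.1
        rw [← Finset.add_sum_erase univ _ (mem_univ l.castSucc), hl0, zero_add,
          ← Finset.add_sum_erase _ _ h3, hi0, zero_add] at h4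
        exact h4
      · intro j hj
        rw [mem_erase, mem_erase]
        rw [Finsupp.mem_support_iff] at hj
        refine ⟨?_, ?_, mem_univ _⟩
        · rintro rfl; exact hj hi0
        · rintro rfl; exact hj hl0
  have h1 : Nat.card (Std m a b q) ≤ Nat.card T := by
    apply Nat.card_le_card_of_injective (fun p : Std m a b q => (⟨p.1.1, hmem p⟩ : T))
    intro p r h
    have := congrArg Subtype.val h
    exact Subtype.ext (Subtype.ext this)
  refine h1.trans ?_
  rw [Nat.card_eq_fintype_card, Fintype.card_coe]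
  refine (card_union_le _ _).trans ?_
  apply Nat.add_le_add
  · refine card_biUnion_le.trans ?_
    refine (Finset.sum_le_card_nsmul _ _ (((m+1) + a - 1).choose a * q ^ m) ?_).trans ?_
    · intro i _
      simp only [S1]
      rw [card_product]
      apply Nat.mul_le_mul
      · rw [card_finsuppAntidiag_nat_eq_choose, card_erase_of_mem (mem_univ _)]
        simp
      · exact card_box m b q i
    · simp
  · refine card_biUnion_le.trans ?_
    refine (Finset.sum_le_card_nsmul _ _ ((m + a - 1).choose a * ((m+1) + b - 1).choose b) ?_).trans ?_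
    · rintro ⟨i, l⟩ hil
      simp only [mem_filter, mem_univ, true_and] at hil
      simp only [S2]
      rw [card_product]
      have hne : l.castSucc ≠ i.castSucc := by
        intro h; exact hil (Fin.castSucc_injective _ h).symm
      apply Nat.mul_le_mul
      · rw [card_finsuppAntidiag_nat_eq_choose, card_erase_of_mem (by
          rw [mem_erase]; exact ⟨hne, mem_univ _⟩), card_erase_of_mem (mem_univ _)]
        simp
      · rw [card_finsuppAntidiag_nat_eq_choose]
        simp
    · rw [smul_eq_mul]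
      apply Nat.mul_le_mul_right
      refine (card_filter_le _ _).trans ?_
      simp

theorem asym {m : ℕ} (hm : 1 ≤ m) (A B C : ℕ)
    (h : ∀ a : ℕ, A * a ^ m ≤ B * (a + m) ^ m + C * (a + m) ^ (m - 1)) : A ≤ B := by
  have h1 : ∀ a : ℕ, 1 ≤ a → (A : ℝ) * ((a : ℝ) / (a + m)) ^ m ≤ B + C * (1 / ((a : ℝ) + m)) := by
    intro a ha
    have h2 : (A : ℝ) * (a : ℝ) ^ m ≤ B * ((a : ℝ) + m) ^ m + C * ((a : ℝ) + m) ^ (m - 1) := by
      exact_mod_cast h a
    have hpos : (0 : ℝ) < (a : ℝ) + m := by
      have : (1 : ℝ) ≤ a := by exact_mod_cast ha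
      positivity
    have hpm : (0 : ℝ) < ((a : ℝ) + m) ^ m := by positivity
    rw [div_pow, ← mul_div_assoc, div_le_iff₀ hpm]
    refine h2.trans (le_of_eq ?_)
    have : ((a : ℝ) + m) ^ m = ((a : ℝ) + m) * ((a : ℝ) + m) ^ (m - 1) := by
      rw [← pow_succ']
      congr 1
      omega
    rw [add_mul]
    congr 1
    rw [this]
    field_simp
  have t1 : Filter.Tendsto (fun a : ℕ => (a : ℝ) + m) Filter.atTop Filter.atTop :=
    Filter.tendsto_atTop_add_const_right _ _ tendsto_natCast_atTop_atTop
  have t2 : Filter.Tendsto (fun a : ℕ => 1 / ((a : ℝ) + m)) Filter.atTop (nhds 0) := by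
    have := t1.inv_tendsto_atTop
    refine this.congr fun a => ?_
    simp
  have t3 : Filter.Tendsto (fun a : ℕ => (a : ℝ) / (a + m)) Filter.atTop (nhds 1) := by
    have h3 : ∀ᶠ a : ℕ in Filter.atTop, 1 - (m : ℝ) * (1 / ((a : ℝ) + m)) = (a : ℝ) / (a + m) := by
      filter_upwards [Filter.eventually_ge_atTop 1] with a ha
      have : (1 : ℝ) ≤ a := by exact_mod_cast ha
      have hpos : (a : ℝ) + m ≠ 0 := by positivity
      field_simp
      ring
    have h4 : Filter.Tendsto (fun a : ℕ => 1 - (m : ℝ) * (1 / ((a : ℝ) + m))) Filter.atTop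
        (nhds (1 - (m : ℝ) * 0)) := (t2.const_mul _).const_sub _
    rw [mul_zero, sub_zero] at h4
    exact h4.congr' h3
  have t4 : Filter.Tendsto (fun a : ℕ => (A : ℝ) * ((a : ℝ) / (a + m)) ^ m) Filter.atTop
      (nhds ((A : ℝ) * 1 ^ m)) := (t3.pow m).const_mul _
  have t5 : Filter.Tendsto (fun a : ℕ => (B : ℝ) + C * (1 / ((a : ℝ) + m))) Filter.atTop
      (nhds ((B : ℝ) + C * 0)) := (t2.const_mul _).const_add _
  have h6 : (A : ℝ) * 1 ^ m ≤ (B : ℝ) + C * 0 :=
    le_of_tendsto_of_tendsto t4 t5 (by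
      filter_upwards [Filter.eventually_ge_atTop 1] with a ha
      exact h1 a ha)
  simpa using h6

end MP2619.Q
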