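import Mathlib

/-!
# Degeneration bound for the bigraded algebra generated by maximal minors

`B` is an `(m+1) × (m+2)` matrix of forms of degree `q` in `m+1` variables, `z` the vector of its
signed maximal minors.  The span of the products `z^α x^β` (`|α| = a`, `|β| = b`) has dimension at
most the number of pairs `(α, β)` such that for every `k` either `α_k = 0` or `β_k < q`.
-/

namespace MP2619.Q

open Polynomial

section Abstract

variable {k : Type*} [Field k]

theorem elim {ι Q : Type*} [Fintype ι] [DecidableEq ι] [AddCommGroup Q] [Module k[X] Q]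
    [Module k Q] [IsScalarTower k k[X] Q]
    (v : ι → Q) (B : Set ι)
    (h : ∀ i, i ∉ B → (X : k[X]) • v i ∈ Submodule.span k (Set.range v)) :
    ∃ Δ : k[X], Δ ≠ 0 ∧ ∀ i, Δ • v i ∈ Submodule.span k[X] (v '' B) := by
  classical
  have h' : ∀ i : {i // i ∉ B}, ∃ c : ι → k, ∑ j, c j • v j = (X : k[X]) • v i := by
    intro i
    exact (Submodule.mem_span_range_iff_exists_fun k).1 (h i i.2)
  choose c hc using h'
  let M : Matrix {i // i ∉ B} {i // i ∉ B} k := fun i j => c i j
  refine ⟨M.charpoly, M.charpoly_monic.ne_zero, ?_⟩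
  have hw : ∀ i : {i // i ∉ B}, ∑ j : {i // i ∉ B}, (Matrix.charmatrix M i j) • v j ∈
      Submodule.span k[X] (v '' B) := by
    intro i
    have h1 : ∑ j : {i // i ∉ B}, (Matrix.charmatrix M i j) • v j =
        (X : k[X]) • v i - ∑ j : {i // i ∉ B}, (C (c i j) : k[X]) • v j := by
      simp only [Matrix.charmatrix_apply, sub_smul, Finset.sum_sub_distrib]
      congr 1
      rw [Finset.sum_eq_single i]
      · simp
      · intro j _ hj
        simp [Matrix.diagonal_apply_ne _ (Ne.symm hj)]
      · intro hi; exact absurd (Finset.mem_univ _) hi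
    have h2 : (X : k[X]) • v i = ∑ j : {i // i ∉ B}, (C (c i j) : k[X]) • v j +
        ∑ j : {i // i ∈ B}, (C (c i j) : k[X]) • v j := by
      rw [← hc i]
      have h3 : ∀ j, c i j • v j = (C (c i j) : k[X]) • v j := by
        intro j
        rw [← Polynomial.algebraMap_eq, algebraMap_smul]
      simp only [h3]
      rw [add_comm]
      exact (Fintype.sum_subtype_add_sum_subtype (fun j => j ∈ B)
        (fun j => (C (c i j) : k[X]) • v j)).symm
    rw [h1, h2, add_sub_cancel_left]
    refine Submodule.sum_mem _ fun j _ => Submodule.smul_mem _ _ (Submodule.subset_span ⟨j, j.2, rfl⟩)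
  intro i
  by_cases hi : i ∈ B
  · exact Submodule.smul_mem _ _ (Submodule.subset_span ⟨i, hi, rfl⟩)
  · have h4 : M.charpoly • v i = ∑ l : {i // i ∉ B},
        (Matrix.adjugate (Matrix.charmatrix M)) ⟨i, hi⟩ l •
          ∑ j : {i // i ∉ B}, (Matrix.charmatrix M l j) • v j := by
      simp only [Finset.smul_sum, smul_smul]
      rw [Finset.sum_comm]
      have h5 : ∀ j : {i // i ∉ B}, ∑ l : {i // i ∉ B},
          ((Matrix.adjugate (Matrix.charmatrix M)) ⟨i, hi⟩ l * Matrix.charmatrix M l j) • v j =
          ((Matrix.adjugate (Matrix.charmatrix M) * Matrix.charmatrix M) ⟨i, hi⟩ j) • v j := by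
        intro j
        rw [← Finset.sum_smul, Matrix.mul_apply]
      simp only [h5, Matrix.adjugate_mul]
      rw [Finset.sum_eq_single ⟨i, hi⟩]
      · simp [Matrix.charpoly]
      · intro j _ hj
        simp [Matrix.one_apply_ne (Ne.symm hj)]
      · intro hi; exact absurd (Finset.mem_univ _) hi
    rw [h4]
    exact Submodule.sum_mem _ fun l _ => Submodule.smul_mem _ _ (hw l)

theorem lift_li {ι P Q : Type*} [Finite ι] [AddCommGroup Q] [Module k[X] Q] [AddCommGroup P]
    [Module k P] (ev : Q →+ P) (hev : ∀ (c : k[X]) (q : Q), ev (c • q) = c.eval 0 • ev q)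
    (hX : ∀ q : Q, (X : k[X]) • q = 0 → q = 0) (v : ι → Q)
    (hv : LinearIndependent k (fun i => ev (v i))) : LinearIndependent k[X] v := by
  classical
  cases nonempty_fintype ι
  rw [Fintype.linearIndependent_iff] at hv ⊢
  have key : ∀ n : ℕ, ∀ c : ι → k[X], (∀ i, (c i).natDegree < n) → ∑ i, c i • v i = 0 →
      ∀ i, c i = 0 := by
    intro n
    induction n with
    | zero => intro c hc _ i; exact absurd (hc i) (Nat.not_lt_zero _)
    | succ n ih =>
      intro c hc hs
      have h0 : ∀ i, (c i).eval 0 = 0 := by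
        apply hv
        have := congrArg ev hs
        rw [map_sum, map_zero] at this
        simpa [hev] using this
      have h1 : ∀ i, c i = X * (c i).divX := by
        intro i
        conv_lhs => rw [← Polynomial.X_mul_divX_add (c i)]
        rw [Polynomial.coeff_zero_eq_eval_zero, h0 i]
        simp
      have h2 : ∑ i, (c i).divX • v i = 0 := by
        apply hX
        rw [Finset.smul_sum]
        rw [← hs]
        refine Finset.sum_congr rfl fun i _ => ?_
        rw [smul_smul, ← h1 i]
      by_cases hn : n = 0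
      · subst hn
        intro i
        have : (c i).natDegree = 0 := by have := hc i; omega
        rw [Polynomial.eq_C_of_natDegree_eq_zero this, Polynomial.coeff_zero_eq_eval_zero, h0 i]
        simp
      · have h3 := ih (fun i => (c i).divX) (fun i => by
          rw [Polynomial.natDegree_divX_eq_natDegree_tsub_one]
          have := hc i; omega) h2
        intro i
        rw [h1 i, h3 i, mul_zero]
  intro c hc i
  exact key ((Finset.univ.sup fun i => (c i).natDegree) + 1) c
    (fun i => Nat.lt_succ_of_le (Finset.le_sup (f := fun i => (c i).natDegree) (Finset.mem_univ i)))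
    hc i

theorem finrank_le {ι P Q : Type*} [Fintype ι] [DecidableEq ι] [AddCommGroup Q] [Module k[X] Q]
    [Module k Q] [IsScalarTower k k[X] Q] [AddCommGroup P]
    [Module k P] (ev : Q →+ P) (hev : ∀ (c : k[X]) (q : Q), ev (c • q) = c.eval 0 • ev q)
    (htf : ∀ (c : k[X]) (q : Q), c • q = 0 → c = 0 ∨ q = 0) (v : ι → Q) (B : Set ι)
    (h : ∀ i, i ∉ B → (X : k[X]) • v i ∈ Submodule.span k (Set.range v)) :
    Module.finrank k (Submodule.span k (Set.range fun i => ev (v i))) ≤ Nat.card B := by
  classical
  obtain ⟨Δ, hΔ0, hΔ⟩ := elim v B h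
  obtain ⟨s, hs, hspan, hli⟩ := exists_linearIndependent k (Set.range fun i => ev (v i))
  have hsfin : s.Finite := (Set.finite_range _).subset hs
  have : Fintype s := hsfin.fintype
  have hpre : ∀ x : s, ∃ i, ev (v i) = x := fun x => hs x.2
  choose f hf using hpre
  have hli2 : LinearIndependent k (fun x : s => ev (v (f x))) := by
    have : (fun x : s => ev (v (f x))) = ((↑) : s → P) := by
      funext x; exact hf x
    rw [this]; exact hli
  have hli3 : LinearIndependent k[X] (fun x : s => v (f x)) :=
    lift_li ev hev (fun q hq => by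
      rcases htf X q hq with h | h
      · exact absurd h X_ne_zero
      · exact h) _ hli2
  have hli4 : LinearIndependent k[X] (fun x : s => Δ • v (f x)) := by
    rw [Fintype.linearIndependent_iff] at hli3 ⊢
    intro g hg i
    have h1 : ∑ i, g i • v (f i) = 0 := by
      have h2 : Δ • ∑ i, g i • v (f i) = 0 := by
        rw [Finset.smul_sum, ← hg]
        refine Finset.sum_congr rfl fun i _ => ?_
        rw [smul_smul, smul_smul, mul_comm]
      rcases htf _ _ h2 with h | h
      · exact absurd h hΔ0
      · exact h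
    exact hli3 g h1 i
  have : Fintype (v '' B) := (Set.toFinite _).fintype
  have hcard := linearIndependent_le_span' (fun x : s => Δ • v (f x)) hli4 (v '' B) (by
    rintro _ ⟨x, rfl⟩
    exact hΔ _)
  rw [Cardinal.mk_fintype, Nat.cast_le] at hcard
  rw [← hspan, finrank_span_set_eq_card hli, Set.toFinset_card]
  refine hcard.trans ?_
  rw [← Nat.card_eq_fintype_card]
  exact Nat.card_image_le (Set.toFinite _)

end Abstract

section Concrete

open MvPolynomial

variable {k : Type*} [Field k] {m : ℕ}

/-- signed maximal minors of an `(m+1) × (m+2)` matrix -/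
noncomputable def minors {A : Type*} [CommRing A] (B : Matrix (Fin (m+1)) (Fin (m+2)) A) :
    Fin (m+2) → A :=
  fun j => (-1) ^ (j : ℕ) * (B.submatrix id j.succAbove).det

theorem mul_minors {A : Type*} [CommRing A] (B : Matrix (Fin (m+1)) (Fin (m+2)) A) (i : Fin (m+1)) :
    ∑ j, B i j * minors B j = 0 := by
  let M : Matrix (Fin (m+2)) (Fin (m+2)) A := Matrix.of (Fin.cons (B i) B)
  have h0 : M.det = 0 := by
    apply Matrix.det_zero_of_row_eq (i := 0) (j := i.succ) (Fin.succ_ne_zero i).symm
    rfl
  rw [Matrix.det_succ_row_zero] at h0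
  rw [← h0]
  refine Finset.sum_congr rfl fun j _ => ?_
  have h1 : M.submatrix Fin.succ j.succAbove = B.submatrix id j.succAbove := by
    rfl
  have h2 : M 0 j = B i j := rfl
  rw [h1, h2, minors]
  ring

/-- index set of pairs of exponents of bidegree `(a, b)` -/
abbrev Idx (m a b : ℕ) : Type :=
  {p : (Fin (m+2) →₀ ℕ) × (Fin (m+1) →₀ ℕ) //
    p ∈ (Finset.univ.finsuppAntidiag a) ×ˢ (Finset.univ.finsuppAntidiag b)}

theorem Idx.fst_sum {m a b : ℕ} (p : Idx m a b) : ∑ j, p.1.1 j = a := by
  have := p.2
  rw [Finset.mem_product, Finset.mem_finsuppAntidiag, Finset.mem_finsuppAntidiag] at this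
  exact this.1.1

theorem Idx.snd_sum {m a b : ℕ} (p : Idx m a b) : ∑ j, p.1.2 j = b := by
  have := p.2
  rw [Finset.mem_product, Finset.mem_finsuppAntidiag, Finset.mem_finsuppAntidiag] at this
  exact this.2.1

/-- constructor -/
def Idx.mk' {m a b : ℕ} (p : Fin (m+2) →₀ ℕ) (q : Fin (m+1) →₀ ℕ) (hp : ∑ j, p j = a)
    (hq : ∑ j, q j = b) : Idx m a b :=
  ⟨(p, q), by
    rw [Finset.mem_product, Finset.mem_finsuppAntidiag, Finset.mem_finsuppAntidiag]
    exact ⟨⟨hp, Finset.subset_univ _⟩, ⟨hq, Finset.subset_univ _⟩⟩⟩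

/-- standard pairs -/
def Std (m a b q : ℕ) : Set (Idx m a b) :=
  {p | ∀ i : Fin (m+1), p.1.1 i.castSucc = 0 ∨ p.1.2 i < q}

/-- the product `z^α x^β` -/
noncomputable def prodv {R : Type*} [CommRing R] {a b : ℕ} (z : Fin (m+2) → MvPolynomial (Fin (m+1)) R)
    (p : Idx m a b) : MvPolynomial (Fin (m+1)) R :=
  (∏ j, z j ^ (p.1.1 j)) * monomial p.1.2 1

set_option maxHeartbeats 4000000 in
theorem degen_bound (B : Matrix (Fin (m+1)) (Fin (m+2)) (MvPolynomial (Fin (m+1)) k)) {q : ℕ}
    (hB : ∀ i j, (B i j).IsHomogeneous q) (a b : ℕ) :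
    Module.finrank k (Submodule.span k (Set.range fun p : Idx m a b => prodv (minors B) p)) ≤
      Nat.card (Std m a b q) := by
  classical
  let Bs : Matrix (Fin (m+1)) (Fin (m+2)) (MvPolynomial (Fin (m+1)) k[X]) :=
    fun i j => MvPolynomial.map Polynomial.C (B i j) +
      (if j = i.castSucc then MvPolynomial.C (Polynomial.X : k[X]) * (MvPolynomial.X i) ^ q else 0)
  let ev : MvPolynomial (Fin (m+1)) k[X] →+* MvPolynomial (Fin (m+1)) k :=
    MvPolynomial.map (Polynomial.evalRingHom 0)
  have hevB : Bs.map ev = B := by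
    have h1 : (Polynomial.evalRingHom (0:k)).comp Polynomial.C = RingHom.id k := by
      ext x; simp
    have h2 : ∀ i j, ev (Bs i j) = B i j := by
      intro i j
      simp only [Bs, ev, map_add, MvPolynomial.map_map]
      rw [h1, MvPolynomial.map_id]
      split_ifs
      · simp
      · simp
    ext1 i j
    exact h2 i j
  have hmin : ∀ j, ev (minors Bs j) = minors B j := by
    intro j
    simp only [minors, map_mul, map_pow, map_neg, map_one, RingHom.map_det]
    congr 2
    conv_rhs => rw [← hevB]
    rfl
  have hev : ∀ p : Idx m a b, ev (prodv (minors Bs) p) = prodv (minors B) p := by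
    intro p
    simp only [prodv, map_mul, map_prod, map_pow, hmin]
    congr 1
    simp [ev, MvPolynomial.map_monomial]
  have key := finrank_le (k := k) (ι := Idx m a b) (P := MvPolynomial (Fin (m+1)) k)
    (Q := MvPolynomial (Fin (m+1)) k[X]) ev.toAddMonoidHom
    (by
      intro c x
      rw [MvPolynomial.smul_eq_C_mul]
      simp [ev, MvPolynomial.smul_eq_C_mul])
    (by
      intro c x h
      rw [MvPolynomial.smul_eq_C_mul, mul_eq_zero, MvPolynomial.C_eq_zero] at h
      exact h)
    (fun p => prodv (minors Bs) p) (Std m a b q) ?_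
  · have h2 : (fun p : Idx m a b => prodv (minors B) p) =
        (fun p : Idx m a b => ev.toAddMonoidHom (prodv (minors Bs) p)) := by
      funext p; exact (hev p).symm
    rw [h2]
    exact key
  intro p hp
  simp only [Std, Set.mem_ofPred_eq, not_forall, not_or, not_lt] at hp
  obtain ⟨i, hi1, hi2⟩ := hp
  -- lowered exponents
  set α' : Fin (m+2) →₀ ℕ := p.1.1 - Finsupp.single i.castSucc 1 with hα'
  set β' : Fin (m+1) →₀ ℕ := p.1.2 - Finsupp.single i q with hβ'
  have hα : p.1.1 = α' + Finsupp.single i.castSucc 1 := by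
    rw [hα', tsub_add_cancel_of_le]
    rw [Finsupp.single_le_iff]; omega
  have hβ : p.1.2 = β' + Finsupp.single i q := by
    rw [hβ', tsub_add_cancel_of_le]
    rw [Finsupp.single_le_iff]; exact hi2
  have hαs : ∑ j, α' j + 1 = a := by
    rw [← p.fst_sum, hα]
    simp [Finset.sum_add_distrib, Finsupp.single_apply]
  have hβs : ∑ j, β' j + q = b := by
    rw [← p.snd_sum, hβ]
    simp [Finset.sum_add_distrib, Finsupp.single_apply]
  set Z : MvPolynomial (Fin (m+1)) k[X] := (∏ j, minors Bs j ^ (α' j)) * monomial β' 1 with hZ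
  have h1 : ∑ j, Z * (Bs i j * minors Bs j) = 0 := by
    rw [← Finset.mul_sum, mul_minors, mul_zero]
  have h2 : ∀ j, Z * (Bs i j * minors Bs j) =
      Z * MvPolynomial.map Polynomial.C (B i j) * minors Bs j +
      (if j = i.castSucc then Z * (MvPolynomial.C (Polynomial.X : k[X]) * (MvPolynomial.X i) ^ q) *
        minors Bs j else 0) := by
    intro j
    simp only [Bs]
    split_ifs <;> ring
  simp only [h2, Finset.sum_add_distrib, Finset.sum_ite_eq', Finset.mem_univ, if_true] at h1
  have h3 : (Polynomial.X : k[X]) • prodv (minors Bs) p =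
      Z * (MvPolynomial.C (Polynomial.X : k[X]) * (MvPolynomial.X i) ^ q) *
        minors Bs i.castSucc := by
    rw [MvPolynomial.smul_eq_C_mul, prodv, hα, hβ, hZ]
    have h4 : (∏ j, minors Bs j ^ ((α' + Finsupp.single i.castSucc 1 : Fin (m+2) →₀ ℕ) j)) =
        (∏ j, minors Bs j ^ (α' j)) * minors Bs i.castSucc := by
      simp only [Finsupp.add_apply, pow_add, Finset.prod_mul_distrib]
      congr 1
      rw [Finset.prod_eq_single i.castSucc]
      · simp
      · intro j _ hj
        rw [Finsupp.single_apply, if_neg (Ne.symm hj), pow_zero]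
      · intro h; exact absurd (Finset.mem_univ _) h
    have h5 : (monomial (β' + Finsupp.single i q) (1 : k[X])) =
        monomial β' 1 * (MvPolynomial.X i) ^ q := by
      rw [MvPolynomial.X_pow_eq_monomial, MvPolynomial.monomial_mul, mul_one]
    rw [h4, h5]
    ring
  have h6 : (Polynomial.X : k[X]) • prodv (minors Bs) p =
      - ∑ j, Z * MvPolynomial.map Polynomial.C (B i j) * minors Bs j := by
    rw [h3]
    exact eq_neg_of_add_eq_zero_right h1
  rw [h6]
  refine Submodule.neg_mem _ (Submodule.sum_mem _ fun j _ => ?_)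
  -- expand `B i j` in monomials
  have h7 : MvPolynomial.map Polynomial.C (B i j) =
      ∑ γ ∈ (B i j).support, (coeff γ (B i j)) • (monomial γ (1 : k[X])) := by
    conv_lhs => rw [MvPolynomial.as_sum (B i j)]
    rw [map_sum]
    refine Finset.sum_congr rfl fun γ _ => ?_
    rw [MvPolynomial.map_monomial, MvPolynomial.smul_monomial]
    congr 1
    rw [← Polynomial.C_mul', mul_one]
  rw [h7, Finset.mul_sum, Finset.sum_mul]
  refine Submodule.sum_mem _ fun γ hγ => ?_
  have hγs : ∑ l, γ l = q := by
    have := hB i j (MvPolynomial.mem_support_iff.1 hγ)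
    rw [Finsupp.weight_apply] at this
    rw [← this, Finsupp.sum_fintype _ _ (by simp)]
    simp
  have hmem : Z * ((coeff γ (B i j)) • (monomial γ (1 : k[X]))) * minors Bs j =
      (coeff γ (B i j)) • prodv (minors Bs) (Idx.mk' (a := a) (b := b)
        (α' + Finsupp.single j 1) (β' + γ)
        (by simp [Finset.sum_add_distrib, Finsupp.single_apply]; exact hαs)
        (by simp [Finset.sum_add_distrib, hγs]; exact hβs)) := by
    rw [prodv, hZ]
    simp only [Idx.mk']
    have h4 : (∏ l, minors Bs l ^ ((α' + Finsupp.single j 1 : Fin (m+2) →₀ ℕ) l)) =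
        (∏ l, minors Bs l ^ (α' l)) * minors Bs j := by
      simp only [Finsupp.add_apply, pow_add, Finset.prod_mul_distrib]
      congr 1
      rw [Finset.prod_eq_single j]
      · simp
      · intro l _ hl
        rw [Finsupp.single_apply, if_neg (Ne.symm hl), pow_zero]
      · intro h; exact absurd (Finset.mem_univ _) h
    have h5 : (monomial (β' + γ) (1 : k[X])) = monomial β' 1 * monomial γ 1 := by
      rw [MvPolynomial.monomial_mul, mul_one]
    rw [h4, h5, mul_smul_comm, smul_mul_assoc]
    generalize (∏ l, minors Bs l ^ (α' l)) = U1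
    generalize minors Bs j = U2
    generalize monomial β' (1 : k[X]) = U3
    generalize monomial γ (1 : k[X]) = U4
    have : U1 * U3 * U4 * U2 = U1 * U2 * (U3 * U4) := by ring
    rw [this]
  rw [hmem]
  exact Submodule.smul_mem _ _ (Submodule.subset_span ⟨_, rfl⟩)

end Concrete

end MP2619.Q
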