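import Pool.Agent.Lib.MP_2619d0_ag.QLower

/-!
# The degree of a rational map and the final inequality
-/

namespace MP2619.Q

open MvPolynomial

variable {k : Type*} [Field k] {m : ℕ}

/-- For a family `f` of polynomials (homogeneous coordinates of a rational map from projective
`m`-space), the field generated over `k` by the quotients `f_i / f_j`, inside the field of
fractions of `k[x_0, …, x_m]`. -/
noncomputable def ratField {ι : Type*} (f : ι → MvPolynomial (Fin (m+1)) k) :
    IntermediateField k (FractionRing (MvPolynomial (Fin (m+1)) k)) :=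
  IntermediateField.adjoin k (Set.range fun p : ι × ι =>
    algebraMap _ (FractionRing (MvPolynomial (Fin (m+1)) k)) (f p.1) / algebraMap _ _ (f p.2))

theorem div_mem_ratField {ι : Type*} [Fintype ι] (f : ι → MvPolynomial (Fin (m+1)) k) (j : ι)
    {n : ℕ} {G : MvPolynomial ι k} (hG : G.IsHomogeneous n) :
    algebraMap _ (FractionRing (MvPolynomial (Fin (m+1)) k)) (aeval f G) /
      (algebraMap _ _ (f j)) ^ n ∈ ratField f := by
  classical
  set ρ := algebraMap (MvPolynomial (Fin (m+1)) k) (FractionRing (MvPolynomial (Fin (m+1)) k))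
  rw [MvPolynomial.as_sum G, map_sum, map_sum, Finset.sum_div]
  refine sum_mem fun γ hγ => ?_
  have hγs : ∑ l, γ l = n := by
    have h2 := hG (mem_support_iff.1 hγ)
    rw [← h2, Finsupp.weight_apply, Finsupp.sum_fintype _ _ (by simp)]
    simp
  rw [aeval_monomial, map_mul, Finsupp.prod_fintype _ _ (by simp), map_prod]
  have h1 : ρ (algebraMap k _ (coeff γ G)) * (∏ i, ρ (f i ^ γ i)) / ρ (f j) ^ n =
      algebraMap k _ (coeff γ G) * ∏ i, (ρ (f i) / ρ (f j)) ^ γ i := by
    rw [mul_div_assoc]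
    congr 1
    rw [← hγs, ← Finset.prod_pow_eq_pow_sum, ← Finset.prod_div_distrib]
    refine Finset.prod_congr rfl fun i _ => ?_
    rw [map_pow, div_pow]
  rw [h1]
  refine mul_mem (IntermediateField.algebraMap_mem _ _) (prod_mem fun i _ => pow_mem ?_ _)
  exact IntermediateField.subset_adjoin _ _ ⟨(i, j), rfl⟩

theorem ratField_le {ι : Type*} {e : ℕ} (f : ι → MvPolynomial (Fin (m+1)) k)
    (hf : ∀ i, (f i).IsHomogeneous e) :
    ratField f ≤ ratField (X : Fin (m+1) → MvPolynomial (Fin (m+1)) k) := by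
  unfold ratField
  rw [IntermediateField.adjoin_le_iff]
  rintro _ ⟨⟨i, j⟩, rfl⟩
  have h1 := div_mem_ratField (X : Fin (m+1) → MvPolynomial (Fin (m+1)) k) 0 (hf i)
  have h2 := div_mem_ratField (X : Fin (m+1) → MvPolynomial (Fin (m+1)) k) 0 (hf j)
  rw [aeval_X_left_apply] at h1 h2
  have h3 := div_mem h1 h2
  have h4 : (algebraMap (MvPolynomial (Fin (m+1)) k) (FractionRing (MvPolynomial (Fin (m+1)) k)))
      (X 0) ^ e ≠ 0 := by
    apply pow_ne_zero
    rw [Ne, FaithfulSMul.algebraMap_eq_zero_iff]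
    exact X_ne_zero 0
  rw [div_div_div_cancel_right₀ h4] at h3
  exact h3

theorem exists_frac (u : FractionRing (MvPolynomial (Fin (m+1)) k))
    (hu : u ∈ ratField (X : Fin (m+1) → MvPolynomial (Fin (m+1)) k)) :
    ∃ (n : ℕ) (p q : MvPolynomial (Fin (m+1)) k), p.IsHomogeneous n ∧ q.IsHomogeneous n ∧ q ≠ 0 ∧
      u = algebraMap _ _ p / algebraMap _ _ q := by
  unfold ratField at hu
  have hne : ∀ q : MvPolynomial (Fin (m+1)) k, q ≠ 0 →
      algebraMap _ (FractionRing (MvPolynomial (Fin (m+1)) k)) q ≠ 0 := by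
    intro q hq
    rw [Ne, FaithfulSMul.algebraMap_eq_zero_iff]
    exact hq
  induction hu using IntermediateField.adjoin_induction with
  | mem x hx =>
    obtain ⟨⟨i, j⟩, rfl⟩ := hx
    exact ⟨1, X i, X j, isHomogeneous_X _ _, isHomogeneous_X _ _, X_ne_zero _, rfl⟩
  | algebraMap c =>
    refine ⟨0, C c, 1, isHomogeneous_C _ _, isHomogeneous_one _ _, one_ne_zero, ?_⟩
    rw [map_one, div_one]
    rfl
  | add x y _ _ hx hy =>
    obtain ⟨n, p, q, hp, hq, hq0, rfl⟩ := hx
    obtain ⟨n', p', q', hp', hq', hq0', rfl⟩ := hy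
    refine ⟨n + n', p * q' + q * p', q * q', (hp.mul hq').add (hq.mul hp'), hq.mul hq',
      mul_ne_zero hq0 hq0', ?_⟩
    rw [div_add_div _ _ (hne q hq0) (hne q' hq0')]
    simp only [map_add, map_mul]
  | inv x _ hx =>
    obtain ⟨n, p, q, hp, hq, hq0, rfl⟩ := hx
    by_cases hp0 : p = 0
    · subst hp0
      refine ⟨0, 0, 1, isHomogeneous_zero _ _ _, isHomogeneous_one _ _, one_ne_zero, ?_⟩
      simp
    · exact ⟨n, q, p, hq, hp, hp0, by rw [inv_div]⟩
  | mul x y _ _ hx hy =>
    obtain ⟨n, p, q, hp, hq, hq0, rfl⟩ := hx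
    obtain ⟨n', p', q', hp', hq', hq0', rfl⟩ := hy
    refine ⟨n + n', p * p', q * q', hp.mul hp', hq.mul hq', mul_ne_zero hq0 hq0', ?_⟩
    rw [div_mul_div_comm]
    simp only [map_mul]

theorem exists_common {δ : ℕ} (u : Fin δ → FractionRing (MvPolynomial (Fin (m+1)) k))
    (hu : ∀ i, u i ∈ ratField (X : Fin (m+1) → MvPolynomial (Fin (m+1)) k)) :
    ∃ (b : ℕ) (θ : Fin δ → MvPolynomial (Fin (m+1)) k) (Q : MvPolynomial (Fin (m+1)) k),
      (∀ i, (θ i).IsHomogeneous b) ∧ Q ≠ 0 ∧ ∀ i, u i = algebraMap _ _ (θ i) / algebraMap _ _ Q := by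
  classical
  choose n p q hp hq hq0 hpq using fun i => exists_frac (u i) (hu i)
  refine ⟨∑ i, n i, fun i => p i * ∏ j ∈ Finset.univ.erase i, q j, ∏ j, q j, ?_, ?_, ?_⟩
  · intro i
    rw [← Finset.add_sum_erase _ _ (Finset.mem_univ i)]
    exact (hp i).mul (IsHomogeneous.prod _ _ _ fun j _ => hq j)
  · exact Finset.prod_ne_zero_iff.2 fun j _ => hq0 j
  · intro i
    rw [← Finset.mul_prod_erase _ _ (Finset.mem_univ i), map_mul, map_mul]
    rw [hpq i]
    have h1 : algebraMap (MvPolynomial (Fin (m+1)) k) (FractionRing (MvPolynomial (Fin (m+1)) k))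
        (∏ j ∈ Finset.univ.erase i, q j) ≠ 0 := by
      rw [Ne, FaithfulSMul.algebraMap_eq_zero_iff]
      exact Finset.prod_ne_zero_iff.2 fun j _ => hq0 j
    rw [mul_div_mul_right _ _ h1]

/-- The degree of the rational map from projective `m`-space given by the forms `φ`, onto its
image: the degree of the extension of the function field `k(x_i/x_j)` of projective space over
the function field `k(φ_i/φ_j)` of the image. -/
noncomputable def mapDegree {ι : Type*} (φ : ι → MvPolynomial (Fin (m+1)) k) : ℕ :=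
  IntermediateField.relfinrank (ratField φ) (ratField (X : Fin (m+1) → MvPolynomial (Fin (m+1)) k))

theorem bound_of_li [IsAlgClosed k] [CharZero k] (hm : 1 ≤ m) {d e : ℕ} (hd : 1 ≤ d)
    {F : MvPolynomial (Fin (m+2)) k} (hF : F.IsHomogeneous (d+1))
    (hsm : ∀ w : Fin (m+2) → k, (∀ j, eval w (pderiv j F) = 0) → w = 0)
    (φ : Fin (m+2) → MvPolynomial (Fin (m+1)) k) (hφ : ∀ j, (φ j).IsHomogeneous e)
    (h0 : aeval φ F = 0)
    (hdom : ∀ G : MvPolynomial (Fin (m+2)) k, aeval φ G = 0 → F ∣ G)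
    {δ : ℕ} (v : Fin δ → IntermediateField.extendScalars (ratField_le φ hφ))
    (hv : LinearIndependent (ratField φ) v) :
    δ * (d+1) * d ^ m ≤ (m+1) * (e-1) ^ m := by
  classical
  obtain ⟨b, θ, Q, hθ, hQ, hθQ⟩ := exists_common
    (fun i => ((v i : FractionRing (MvPolynomial (Fin (m+1)) k)))) (fun i => (v i).2)
  have hj : ∃ j, φ j ≠ 0 := by
    by_contra hcon
    push Not at hcon
    have h1 : F ∣ X 0 := hdom _ (by rw [aeval_X]; exact hcon 0)
    have h2 := eq_zero_of_dvd_of_lt hF (isHomogeneous_X k (0 : Fin (m+2))) (by omega) h1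
    exact X_ne_zero _ h2
  obtain ⟨j, hj⟩ := hj
  refine core hm hF hsm φ hφ h0 hdom θ hθ ?_
  intro n g hg hs
  rw [Fintype.linearIndependent_iff] at hv
  set ρ := algebraMap (MvPolynomial (Fin (m+1)) k) (FractionRing (MvPolynomial (Fin (m+1)) k))
    with hρ
  have hρj : ρ (φ j) ≠ 0 := by
    rw [Ne, FaithfulSMul.algebraMap_eq_zero_iff]; exact hj
  have hρQ : ρ Q ≠ 0 := by
    rw [Ne, FaithfulSMul.algebraMap_eq_zero_iff]; exact hQ
  let c : Fin δ → ratField φ := fun i =>
    ⟨ρ (aeval φ (g i)) / ρ (φ j) ^ n, div_mem_ratField φ j (hg i)⟩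
  have h1 : ∑ i, c i • v i = 0 := by
    apply Subtype.ext
    have h2 : ((∑ i, c i • v i : IntermediateField.extendScalars (ratField_le φ hφ)) :
        FractionRing (MvPolynomial (Fin (m+1)) k)) =
        ∑ i, (ρ (aeval φ (g i)) / ρ (φ j) ^ n) * (v i : FractionRing (MvPolynomial (Fin (m+1)) k)) := by
      rw [AddSubmonoidClass.coe_finsetSum]
      rfl
    rw [h2]
    have h3 : ∀ i, (ρ (aeval φ (g i)) / ρ (φ j) ^ n) *
        (v i : FractionRing (MvPolynomial (Fin (m+1)) k)) =
        ρ (aeval φ (g i) * θ i) / (ρ (φ j) ^ n * ρ Q) := by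
      intro i
      rw [hθQ i, div_mul_div_comm, map_mul]
    simp only [h3]
    rw [← Finset.sum_div, ← map_sum, hs, map_zero, zero_div]
    rfl
  intro i
  have h4 := congrArg Subtype.val (hv c h1 i)
  have h5 : ρ (aeval φ (g i)) / ρ (φ j) ^ n = 0 := h4
  rw [div_eq_zero_iff] at h5
  rcases h5 with h5 | h5
  · rwa [FaithfulSMul.algebraMap_eq_zero_iff] at h5
  · exact absurd h5 (pow_ne_zero _ hρj)

theorem main [IsAlgClosed k] [CharZero k] (hm : 1 ≤ m) {d e : ℕ} (hd : 1 ≤ d)
    {F : MvPolynomial (Fin (m+2)) k} (hF : F.IsHomogeneous (d+1))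
    (hsm : ∀ w : Fin (m+2) → k, (∀ j, eval w (pderiv j F) = 0) → w = 0)
    (φ : Fin (m+2) → MvPolynomial (Fin (m+1)) k) (hφ : ∀ j, (φ j).IsHomogeneous e)
    (h0 : aeval φ F = 0)
    (hdom : ∀ G : MvPolynomial (Fin (m+2)) k, aeval φ G = 0 → F ∣ G) :
    0 < mapDegree φ ∧ mapDegree φ * (d+1) * d ^ m ≤ (m+1) * (e-1) ^ m := by
  classical
  have hdeg : mapDegree φ = Module.finrank (ratField φ)
      (IntermediateField.extendScalars (ratField_le φ hφ)) := by
    unfold mapDegree
    exact IntermediateField.relfinrank_eq_finrank_of_le (ratField_le φ hφ)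
  have hrank : Module.rank (ratField φ) (IntermediateField.extendScalars (ratField_le φ hφ)) ≤
      (((m+1) * (e-1) ^ m : ℕ) : Cardinal) := by
    apply rank_le
    intro s hs
    have h1 := bound_of_li hm hd hF hsm φ hφ h0 hdom (δ := s.card)
      (fun i => ((s.equivFin.symm i : s) : IntermediateField.extendScalars (ratField_le φ hφ)))
      (hs.comp _ (s.equivFin.symm.injective))
    have h2 : s.card ≤ s.card * (d+1) * d ^ m := by
      rw [mul_assoc]
      exact Nat.le_mul_of_pos_right _ (by positivity)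
    exact h2.trans h1
  have hfree : Module.Free (ratField φ) (IntermediateField.extendScalars (ratField_le φ hφ)) :=
    Module.Free.of_divisionRing _ _
  have hfin : Module.Finite (ratField φ) (IntermediateField.extendScalars (ratField_le φ hφ)) := by
    rw [← Module.rank_lt_aleph0_iff]
    exact hrank.trans_lt (Cardinal.natCast_lt_aleph0)
  have hpos : 0 < mapDegree φ := by
    rw [hdeg]
    exact Module.finrank_pos
  refine ⟨hpos, ?_⟩
  rw [hdeg]
  let bs := Module.finBasis (ratField φ) (IntermediateField.extendScalars (ratField_le φ hφ))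
  exact bound_of_li hm hd hF hsm φ hφ h0 hdom bs bs.linearIndependent

end MP2619.Q
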