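import Pool.Agent.Lib.MP_2619d0_ag.QJac

/-!
# Hilbert functions: homogeneous forms, the Jacobian ideal of a smooth form, the image algebra
-/

namespace MP2619.Q

open MvPolynomial

section Basic

variable {k : Type*} [Field k] {σ τ : Type*}

theorem comp_mul {f : MvPolynomial σ k} {e : ℕ} (hf : f.IsHomogeneous e) (n : ℕ)
    (g : MvPolynomial σ k) :
    homogeneousComponent (n + e) (f * g) = f * homogeneousComponent n g := by
  induction g using MvPolynomial.induction_on' with
  | monomial d c =>
    have h1 : (monomial d c : MvPolynomial σ k).IsHomogeneous d.degree :=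
      isHomogeneous_monomial c rfl
    have h2 := hf.mul h1
    rw [homogeneousComponent_of_mem h2, homogeneousComponent_of_mem h1]
    by_cases h : n = d.degree
    · rw [if_pos h, if_pos (by omega)]
    · rw [if_neg h, if_neg (by omega), mul_zero]
  | add p q hp hq => rw [mul_add, map_add, hp, hq, map_add, mul_add]

theorem finrank_homog (r n : ℕ) :
    Module.finrank k (homogeneousSubmodule (Fin (r+1)) k n) = (r + n).choose n := by
  classical
  let b : ↥(Finset.univ.finsuppAntidiag n : Finset (Fin (r+1) →₀ ℕ)) →
      MvPolynomial (Fin (r+1)) k := fun d => monomial d.1 1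
  have hb : LinearIndependent k b := by
    have h1 := (MvPolynomial.basisMonomials (Fin (r+1)) k).linearIndependent
    have h2 := h1.comp (fun d : (Finset.univ.finsuppAntidiag n : Finset (Fin (r+1) →₀ ℕ)) => d.1)
      Subtype.val_injective
    have h3 : b = (⇑(basisMonomials (Fin (r + 1)) k) ∘
        fun d : ↥(Finset.univ.finsuppAntidiag n : Finset (Fin (r+1) →₀ ℕ)) => d.1) := by
      funext d
      simp [b]
    rw [h3]
    exact h2
  have hspan : Submodule.span k (Set.range b) = homogeneousSubmodule (Fin (r+1)) k n := by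
    apply le_antisymm
    · rw [Submodule.span_le]
      rintro _ ⟨d, rfl⟩
      have := d.2
      rw [Finset.mem_finsuppAntidiag] at this
      apply isHomogeneous_monomial
      rw [Finsupp.degree_eq_sum]
      exact this.1
    · intro p hp
      rw [MvPolynomial.as_sum p]
      refine Submodule.sum_mem _ fun d hd => ?_
      have h1 : monomial d (coeff d p) = (coeff d p) • (monomial d (1 : k)) := by
        rw [smul_monomial, smul_eq_mul, mul_one]
      rw [h1]
      refine Submodule.smul_mem _ _ (Submodule.subset_span ⟨⟨d, ?_⟩, rfl⟩)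
      rw [Finset.mem_finsuppAntidiag]
      refine ⟨?_, Finset.subset_univ _⟩
      have h2 := (mem_homogeneousSubmodule n p).1 hp (mem_support_iff.1 hd)
      rw [← h2, Finsupp.weight_apply, Finsupp.sum_fintype _ _ (by simp)]
      simp
  rw [← hspan, finrank_span_eq_card hb, Fintype.card_coe,
    Finset.card_finsuppAntidiag_nat_eq_choose]
  simp only [Finset.card_univ, Fintype.card_fin]
  congr 1
  omega

instance (r n : ℕ) : Module.Finite k (homogeneousSubmodule (Fin (r+1)) k n) := by
  rw [Module.Finite.iff_fg]
  exact homogeneousSubmodule_fg _ _ n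

/-- The image algebra in degree `n`. -/
noncomputable def imgDeg {r : ℕ} (φ : Fin (r+1) → MvPolynomial σ k) (n : ℕ) :
    Submodule k (MvPolynomial σ k) :=
  (homogeneousSubmodule (Fin (r+1)) k n).map (aeval φ).toLinearMap

instance {r : ℕ} (φ : Fin (r+1) → MvPolynomial σ k) (n : ℕ) :
    Module.Finite k (imgDeg φ n) := by
  unfold imgDeg
  infer_instance

/-- Lower bound for the Hilbert function of the image of a hypersurface of degree `d`. -/
theorem finrank_imgDeg {r d : ℕ} {F : MvPolynomial (Fin (r+1)) k} (hF : F.IsHomogeneous d)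
    (φ : Fin (r+1) → MvPolynomial σ k)
    (hdom : ∀ G : MvPolynomial (Fin (r+1)) k, aeval φ G = 0 → F ∣ G) (n : ℕ) :
    (r + (n + d)).choose (n + d) ≤ Module.finrank k (imgDeg φ (n + d)) + (r + n).choose n := by
  classical
  let L : homogeneousSubmodule (Fin (r+1)) k (n+d) →ₗ[k] MvPolynomial σ k :=
    (aeval φ).toLinearMap.comp (Submodule.subtype _)
  have h1 := LinearMap.finrank_range_add_finrank_ker L
  have h2 : LinearMap.range L = imgDeg φ (n+d) := by
    rw [LinearMap.range_comp, Submodule.range_subtype]
    rfl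
  rw [h2, finrank_homog] at h1
  let M : homogeneousSubmodule (Fin (r+1)) k n →ₗ[k] homogeneousSubmodule (Fin (r+1)) k (n+d) :=
    LinearMap.codRestrict _ ((LinearMap.mulLeft k F).comp (Submodule.subtype _)) (by
      intro x
      have h3 := hF.mul ((mem_homogeneousSubmodule n _).1 x.2)
      rw [add_comm d n] at h3
      exact h3)
  have h3 : LinearMap.ker L ≤ LinearMap.range M := by
    intro x hx
    rw [LinearMap.mem_ker] at hx
    obtain ⟨H, hH⟩ := hdom x.1 hx
    refine ⟨⟨homogeneousComponent n H, homogeneousComponent_mem n H⟩, ?_⟩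
    apply Subtype.ext
    show F * homogeneousComponent n H = x.1
    rw [← comp_mul hF, ← hH]
    exact homogeneousComponent_eq_self ((mem_homogeneousSubmodule (n+d) _).1 x.2)
  have h4 := Submodule.finrank_mono h3
  have h5 := LinearMap.finrank_range_le M
  rw [finrank_homog] at h5
  omega

end Basic

section Null

variable {k : Type*} [Field k] [IsAlgClosed k] {r : ℕ}

theorem exists_pow_mem {F : MvPolynomial (Fin (r+1)) k}
    (hsm : ∀ w : Fin (r+1) → k, (∀ j, eval w (pderiv j F) = 0) → w = 0) :
    ∃ N : ℕ, ∀ i, (X i : MvPolynomial (Fin (r+1)) k) ^ N ∈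
      Ideal.span (Set.range fun j => pderiv j F) := by
  classical
  set I := Ideal.span (Set.range fun j => pderiv j F) with hI
  have h1 : ∀ i : Fin (r+1), (X i : MvPolynomial (Fin (r+1)) k) ∈ I.radical := by
    intro i
    rw [← MvPolynomial.vanishingIdeal_zeroLocus_eq_radical (K := k)]
    rw [mem_vanishingIdeal_iff]
    intro w hw
    have h2 : w = 0 := by
      apply hsm
      intro j
      have := hw (pderiv j F) (Ideal.subset_span ⟨j, rfl⟩)
      rwa [MvPolynomial.aeval_eq_eval] at this
    rw [h2]; simp
  choose n hn using fun i => h1 i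
  refine ⟨∑ i, n i, fun i => ?_⟩
  have h2 : n i ≤ ∑ i, n i := Finset.single_le_sum (fun _ _ => Nat.zero_le _) (Finset.mem_univ i)
  rw [← Nat.add_sub_cancel' h2, pow_add]
  exact Ideal.mul_mem_right _ _ (hn i)

theorem exists_decomp {F : MvPolynomial (Fin (r+1)) k} {d : ℕ} (hF : F.IsHomogeneous (d+1))
    (hsm : ∀ w : Fin (r+1) → k, (∀ j, eval w (pderiv j F) = 0) → w = 0) :
    ∃ N : ℕ, ∀ n, N ≤ n → ∀ G : MvPolynomial (Fin (r+1)) k, G.IsHomogeneous (n + d) →
      ∃ H : Fin (r+1) → MvPolynomial (Fin (r+1)) k, (∀ j, (H j).IsHomogeneous n) ∧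
        G = ∑ j, pderiv j F * H j := by
  classical
  obtain ⟨N, hN⟩ := exists_pow_mem hsm
  refine ⟨(r+1) * N, fun n hn G hG => ?_⟩
  have h1 : G ∈ Ideal.span (Set.range fun j => pderiv j F) := by
    rw [MvPolynomial.as_sum G]
    refine Ideal.sum_mem _ fun γ hγ => ?_
    have hγs : ∑ l, γ l = n + d := by
      have h2 := hG (mem_support_iff.1 hγ)
      rw [← h2, Finsupp.weight_apply, Finsupp.sum_fintype _ _ (by simp)]
      simp
    have hex : ∃ i, N ≤ γ i := by
      by_contra hcon
      push Not at hcon
      have h3 : ∑ i, γ i < ∑ i : Fin (r+1), N :=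
        Finset.sum_lt_sum_of_nonempty Finset.univ_nonempty (fun i _ => hcon i)
      rw [hγs] at h3
      simp at h3
      omega
    obtain ⟨i, hi⟩ := hex
    have h4 : monomial γ (coeff γ G) =
        monomial (γ - Finsupp.single i N) (coeff γ G) * (X i) ^ N := by
      rw [X_pow_eq_monomial, monomial_mul, mul_one, tsub_add_cancel_of_le]
      rw [Finsupp.single_le_iff]; exact hi
    rw [h4]
    exact Ideal.mul_mem_left _ _ (hN i)
  rw [Ideal.mem_span_range_iff_exists_fun] at h1
  obtain ⟨c, hc⟩ := h1
  refine ⟨fun j => homogeneousComponent n (c j), fun j => homogeneousComponent_isHomogeneous _ _, ?_⟩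
  have h5 : homogeneousComponent (n + d) G = G := homogeneousComponent_eq_self hG
  rw [← h5, ← hc, map_sum]
  refine Finset.sum_congr rfl fun j _ => ?_
  have h6 : (pderiv j F).IsHomogeneous d := by
    have := hF.pderiv (i := j)
    simpa using this
  rw [mul_comm, comp_mul h6]

end Null

end MP2619.Q
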