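import Pool.Agent.Lib.MP_2619d0_ag.QDegen

/-!
# Dominant parametrisations have a nonzero maximal Jacobian minor
-/

namespace MP2619.Q

open MvPolynomial

section Der

variable {k P : Type*} [Field k] [CharZero k] [CommRing P] [IsDomain P] [Algebra k P]

/-- In characteristic zero a derivation which kills a subalgebra kills every element algebraic
over it. -/
theorem der_eq_zero (D : Derivation k P P) (A : Subalgebra k P) (hA : ∀ a ∈ A, D a = 0) (x : P)
    (hx : IsAlgebraic A x) : D x = 0 := by
  classical
  have hcP : CharZero P := charZero_of_injective_algebraMap (algebraMap k P).injective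
  have hcA : CharZero A := ⟨fun a b h => by
    have := congrArg (algebraMap A P) h
    simpa using this⟩
  have htA : IsAddTorsionFree A := inferInstance
  let D' : Derivation A P P :=
    { toFun := D
      map_add' := map_add D
      map_smul' := by
        intro c y
        rw [Algebra.smul_def, RingHom.id_apply, D.leibniz]
        have : D (algebraMap A P c) = 0 := hA _ c.2
        rw [this, smul_zero, add_zero, smul_eq_mul, Algebra.smul_def]
      map_one_eq_zero' := D.map_one_eq_zero
      leibniz' := D.leibniz }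
  have hex : ∃ n : ℕ, ∃ p : Polynomial A, p ≠ 0 ∧ p.natDegree = n ∧ Polynomial.aeval x p = 0 := by
    obtain ⟨p, hp, h0⟩ := hx
    exact ⟨p.natDegree, p, hp, rfl, h0⟩
  obtain ⟨p, hp0, hpd, hpx⟩ := Nat.find_spec hex
  have hmin := fun {n} => Nat.find_min hex (m := n)
  have hder : Polynomial.aeval x (Polynomial.derivative p) • D' x = 0 := by
    rw [← D'.map_aeval, hpx, map_zero]
  have hne : Polynomial.aeval x (Polynomial.derivative p) ≠ 0 := by
    intro h0
    by_cases hd : p.natDegree = 0
    · rw [Polynomial.eq_C_of_natDegree_eq_zero hd, Polynomial.aeval_C] at hpx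
      apply hp0
      rw [Polynomial.eq_C_of_natDegree_eq_zero hd]
      have : p.coeff 0 = 0 := by
        apply Subtype.ext
        exact hpx
      rw [this, Polynomial.C_0]
    · have h1 : (Polynomial.derivative p).natDegree < Nat.find hex := by
        rw [← hpd]
        exact Polynomial.natDegree_derivative_lt hd
      apply hmin h1
      refine ⟨_, ?_, rfl, h0⟩
      intro h2
      exact hd (Polynomial.derivative_eq_zero.1 h2)
  rcases smul_eq_zero.1 hder with h | h
  · exact absurd h hne
  · exact h

end Der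

variable {k : Type*} [Field k] {σ τ : Type*}

theorem der_aeval [Fintype τ] (D : Derivation k (MvPolynomial σ k) (MvPolynomial σ k))
    (φ : τ → MvPolynomial σ k) (G : MvPolynomial τ k) :
    D (aeval φ G) = ∑ j, aeval φ (pderiv j G) * D (φ j) := by
  classical
  induction G using MvPolynomial.induction_on with
  | C a =>
    simp
  | add p q hp hq =>
    simp only [map_add, hp, hq, add_mul, Finset.sum_add_distrib]
  | mul_X p j hp =>
    rw [map_mul, D.leibniz, hp, aeval_X, smul_eq_mul, smul_eq_mul]
    simp only [pderiv_mul, pderiv_X, map_add, map_mul, aeval_X, add_mul, Finset.sum_add_distrib,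
      Finset.mul_sum]
    rw [add_comm]
    congr 1
    · refine Finset.sum_congr rfl fun l _ => ?_
      ring
    · rw [Finset.sum_eq_single j]
      · simp
      · intro l _ hl
        simp [hl.symm]
      · intro h; exact absurd (Finset.mem_univ _) h

variable {m : ℕ}

/-- A degree argument: a form which divides a form of smaller degree -/
theorem eq_zero_of_dvd_of_lt {F G : MvPolynomial τ k} {d e : ℕ} (hF : F.IsHomogeneous d)
    (hG : G.IsHomogeneous e) (hed : e < d) (h : F ∣ G) : G = 0 := by
  by_contra hG0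
  obtain ⟨H, rfl⟩ := h
  have hF0 : F ≠ 0 := left_ne_zero_of_mul hG0
  have hH0 : H ≠ 0 := right_ne_zero_of_mul hG0
  have h1 := hG.totalDegree hG0
  rw [totalDegree_mul_of_isDomain hF0 hH0, hF.totalDegree hF0] at h1
  omega

/-- some partial derivative does not vanish on the image -/
theorem exists_grad_ne_zero {F : MvPolynomial (Fin (m+2)) k} {d : ℕ} (hd : 1 ≤ d)
    (hF : F.IsHomogeneous d)
    (hsm : ∀ w : Fin (m+2) → k, (∀ j, eval w (pderiv j F) = 0) → w = 0)
    (φ : Fin (m+2) → MvPolynomial (Fin (m+1)) k)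
    (hdom : ∀ G : MvPolynomial (Fin (m+2)) k, aeval φ G = 0 → F ∣ G) :
    ∃ j, aeval φ (pderiv j F) ≠ 0 := by
  by_contra hcon
  push Not at hcon
  have h1 : ∀ j, pderiv j F = 0 := fun j =>
    eq_zero_of_dvd_of_lt hF hF.pderiv (by omega) (hdom _ (hcon j))
  have h2 := hsm (fun _ => 1) (fun j => by rw [h1 j, map_zero])
  exact one_ne_zero (congrFun h2 0)

theorem grad_rel {F : MvPolynomial τ k} [Fintype τ] (φ : τ → MvPolynomial σ k)
    (h0 : aeval φ F = 0) (D : Derivation k (MvPolynomial σ k) (MvPolynomial σ k)) :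
    ∑ j, D (φ j) * aeval φ (pderiv j F) = 0 := by
  have h1 := der_aeval D φ F
  rw [h0, map_zero] at h1
  rw [h1]
  exact Finset.sum_congr rfl fun j _ => mul_comm _ _

theorem algIndep {F : MvPolynomial (Fin (m+2)) k}
    (φ : Fin (m+2) → MvPolynomial (Fin (m+1)) k)
    (hdom : ∀ G : MvPolynomial (Fin (m+2)) k, aeval φ G = 0 → F ∣ G) (j : Fin (m+2))
    (hj : pderiv j F ≠ 0) : AlgebraicIndependent k (fun i : Fin (m+1) => φ (j.succAbove i)) := by
  classical
  rw [algebraicIndependent_iff]
  intro G hG
  have h1 : aeval φ (rename j.succAbove G) = 0 := by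
    rw [aeval_rename]; exact hG
  have h2 := hdom _ h1
  by_contra hG0
  have hR0 : rename j.succAbove G ≠ 0 := by
    intro h
    exact hG0 (rename_injective _ Fin.succAbove_right_injective (by rw [h, map_zero]))
  obtain ⟨H, hH⟩ := h2
  have hF0 : F ≠ 0 := by rintro rfl; simp at hj
  have hH0 : H ≠ 0 := by rintro rfl; rw [mul_zero] at hH; exact hR0 hH
  have h3 : degreeOf j (rename j.succAbove G) = 0 := by
    by_contra h
    rw [← ne_eq, ← mem_vars_iff_degreeOf_ne_zero] at h
    obtain ⟨i, _, hi⟩ := mem_vars_rename _ _ h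
    exact Fin.succAbove_ne j i hi
  rw [hH, degreeOf_mul_eq hF0 hH0] at h3
  apply hj
  apply pderiv_eq_zero_of_notMem_vars
  rw [mem_vars_iff_degreeOf_ne_zero]
  omega

theorem isAlgebraic_all {F : MvPolynomial (Fin (m+2)) k}
    (φ : Fin (m+2) → MvPolynomial (Fin (m+1)) k)
    (hdom : ∀ G : MvPolynomial (Fin (m+2)) k, aeval φ G = 0 → F ∣ G) (j : Fin (m+2))
    (hj : pderiv j F ≠ 0) (x : MvPolynomial (Fin (m+1)) k) :
    IsAlgebraic (Algebra.adjoin k (Set.range fun i : Fin (m+1) => φ (j.succAbove i))) x := by
  have h1 := algIndep φ hdom j hj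
  have h2 : IsTranscendenceBasis k (fun i : Fin (m+1) => φ (j.succAbove i)) := by
    apply h1.isTranscendenceBasis_of_lift_trdeg_le_of_finite
    rw [MvPolynomial.trdeg_of_isDomain]
    simp
  exact (h2.isAlgebraic).isAlgebraic x

theorem minor_ne_zero [CharZero k] {F : MvPolynomial (Fin (m+2)) k}
    (φ : Fin (m+2) → MvPolynomial (Fin (m+1)) k)
    (hdom : ∀ G : MvPolynomial (Fin (m+2)) k, aeval φ G = 0 → F ∣ G) (j : Fin (m+2))
    (hj : pderiv j F ≠ 0) :
    minors (fun i l => pderiv i (φ l) : Matrix (Fin (m+1)) (Fin (m+2)) _) j ≠ 0 := by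
  classical
  intro h0
  unfold minors at h0
  rw [mul_eq_zero] at h0
  have h1 : (Matrix.submatrix (fun i l => pderiv i (φ l) : Matrix (Fin (m+1)) (Fin (m+2)) _)
      id j.succAbove).det = 0 := by
    rcases h0 with h | h
    · exact absurd h (pow_ne_zero _ (neg_ne_zero.2 one_ne_zero))
    · exact h
  obtain ⟨v, hv0, hv⟩ := Matrix.exists_vecMul_eq_zero_iff.2 h1
  let D : Derivation k (MvPolynomial (Fin (m+1)) k) (MvPolynomial (Fin (m+1)) k) :=
    ∑ i, v i • (pderiv i : Derivation k (MvPolynomial (Fin (m+1)) k) (MvPolynomial (Fin (m+1)) k))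
  have hD : ∀ x, D x = ∑ i, v i * pderiv i x := by
    intro x
    have := congrFun (map_sum (Derivation.coeFnAddMonoidHom :
      Derivation k (MvPolynomial (Fin (m+1)) k) (MvPolynomial (Fin (m+1)) k) →+ _)
      (fun i => v i • (pderiv i : Derivation k (MvPolynomial (Fin (m+1)) k) _)) Finset.univ) x
    rw [Finset.sum_apply] at this
    exact this
  have hDφ : ∀ l, D (φ (j.succAbove l)) = 0 := by
    intro l
    rw [hD]
    exact congrFun hv l
  have hA : ∀ a ∈ Algebra.adjoin k (Set.range fun i : Fin (m+1) => φ (j.succAbove i)), D a = 0 := by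
    intro a ha
    induction ha using Algebra.adjoin_induction with
    | mem x hx => obtain ⟨l, rfl⟩ := hx; exact hDφ l
    | algebraMap r => exact D.map_algebraMap r
    | add x y _ _ hx hy => rw [map_add, hx, hy, add_zero]
    | mul x y _ _ hx hy => rw [D.leibniz, hx, hy, smul_zero, smul_zero, add_zero]
  apply hv0
  funext i
  have h2 := der_eq_zero D _ hA (X i) (isAlgebraic_all φ hdom j hj (X i))
  rw [hD] at h2
  simpa [pderiv_X, Pi.single_apply] using h2

end MP2619.Q
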