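import Pool.Agent.Lib.MP_2619d0_ag.QCount
import Pool.Agent.Lib.MP_2619d0_ag.QHilb

/-!
# The main inequality
-/

namespace MP2619.Q

open MvPolynomial

variable {k : Type*} [Field k] {m : ℕ}

/-- The gradient of `F` along `φ`. -/
noncomputable def gradv (F : MvPolynomial (Fin (m+2)) k) (φ : Fin (m+2) → MvPolynomial (Fin (m+1)) k) :
    Fin (m+2) → MvPolynomial (Fin (m+1)) k :=
  fun j => aeval φ (pderiv j F)

/-- Spans of products of `a` gradient components with forms of degree `N` in `φ`. -/
noncomputable def Wsp (F : MvPolynomial (Fin (m+2)) k) (φ : Fin (m+2) → MvPolynomial (Fin (m+1)) k)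
    (N a : ℕ) : Submodule k (MvPolynomial (Fin (m+1)) k) :=
  Submodule.span k {y | ∃ α : Fin (m+2) →₀ ℕ, ∑ j, α j = a ∧
    ∃ G : MvPolynomial (Fin (m+2)) k, G.IsHomogeneous N ∧
      y = (∏ j, gradv F φ j ^ (α j)) * aeval φ G}

theorem mul_mem_Wsp (F : MvPolynomial (Fin (m+2)) k) (φ : Fin (m+2) → MvPolynomial (Fin (m+1)) k)
    (N a : ℕ) (j : Fin (m+2)) (y : MvPolynomial (Fin (m+1)) k) (hy : y ∈ Wsp F φ N a) :
    gradv F φ j * y ∈ Wsp F φ N (a+1) := by
  classical
  unfold Wsp at hy
  induction hy using Submodule.span_induction with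
  | mem y hy =>
    obtain ⟨α, hα, G, hG, rfl⟩ := hy
    apply Submodule.subset_span
    refine ⟨α + Finsupp.single j 1, ?_, G, hG, ?_⟩
    · simp [Finset.sum_add_distrib, Finsupp.single_apply, hα]
    · have h4 : (∏ l, gradv F φ l ^ ((α + Finsupp.single j 1 : Fin (m+2) →₀ ℕ) l)) =
          (∏ l, gradv F φ l ^ (α l)) * gradv F φ j := by
        simp only [Finsupp.add_apply, pow_add, Finset.prod_mul_distrib]
        congr 1
        rw [Finset.prod_eq_single j]
        · simp
        · intro l _ hl
          rw [Finsupp.single_apply, if_neg (Ne.symm hl), pow_zero]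
        · intro h; exact absurd (Finset.mem_univ _) h
      rw [h4]
      ring
  | zero => rw [mul_zero]; exact Submodule.zero_mem _
  | add x y _ _ hx hy => rw [mul_add]; exact Submodule.add_mem _ hx hy
  | smul c x _ hx => rw [mul_smul_comm]; exact Submodule.smul_mem _ _ hx

theorem mem_Wsp {F : MvPolynomial (Fin (m+2)) k} {φ : Fin (m+2) → MvPolynomial (Fin (m+1)) k}
    {d N : ℕ}
    (hdec : ∀ n, N ≤ n → ∀ G : MvPolynomial (Fin (m+2)) k, G.IsHomogeneous (n + d) →
      ∃ H : Fin (m+2) → MvPolynomial (Fin (m+2)) k, (∀ j, (H j).IsHomogeneous n) ∧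
        G = ∑ j, pderiv j F * H j) (a : ℕ) :
    ∀ G : MvPolynomial (Fin (m+2)) k, G.IsHomogeneous (a * d + N) → aeval φ G ∈ Wsp F φ N a := by
  induction a with
  | zero =>
    intro G hG
    rw [zero_mul, zero_add] at hG
    apply Submodule.subset_span
    exact ⟨0, by simp, G, hG, by simp⟩
  | succ a ih =>
    intro G hG
    have h1 : G.IsHomogeneous ((a * d + N) + d) := by
      convert hG using 1; ring
    obtain ⟨H, hH, rfl⟩ := hdec (a * d + N) (by omega) G h1
    rw [map_sum]
    refine Submodule.sum_mem _ fun j _ => ?_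
    rw [map_mul]
    exact mul_mem_Wsp F φ N a j _ (ih _ (hH j))

theorem mul_mem_span {F : MvPolynomial (Fin (m+2)) k} {φ : Fin (m+2) → MvPolynomial (Fin (m+1)) k}
    {e N a b : ℕ} (hφ : ∀ j, (φ j).IsHomogeneous e) {θ : MvPolynomial (Fin (m+1)) k}
    (hθ : θ.IsHomogeneous b) (y : MvPolynomial (Fin (m+1)) k) (hy : y ∈ Wsp F φ N a) :
    y * θ ∈ Submodule.span k (Set.range fun p : Idx m a (e * N + b) => prodv (gradv F φ) p) := by
  classical
  unfold Wsp at hy
  induction hy using Submodule.span_induction with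
  | mem y hy =>
    obtain ⟨α, hα, G, hG, rfl⟩ := hy
    have h1 : (aeval φ G * θ).IsHomogeneous (e * N + b) := by
      exact (hG.aeval φ hφ).mul hθ
    rw [mul_assoc]
    generalize hh : aeval φ G * θ = h at h1 ⊢
    rw [MvPolynomial.as_sum h, Finset.mul_sum]
    refine Submodule.sum_mem _ fun γ hγ => ?_
    have hγs : ∑ l, γ l = e * N + b := by
      have h2 := h1 (mem_support_iff.1 hγ)
      rw [← h2, Finsupp.weight_apply, Finsupp.sum_fintype _ _ (by simp)]
      simp
    have h3 : (∏ j, gradv F φ j ^ (α j)) * monomial γ (coeff γ h) =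
        (coeff γ h) • prodv (gradv F φ) (Idx.mk' α γ hα hγs) := by
      simp only [prodv, Idx.mk']
      rw [← mul_smul_comm, smul_monomial, smul_eq_mul, mul_one]
    rw [h3]
    exact Submodule.smul_mem _ _ (Submodule.subset_span ⟨_, rfl⟩)
  | zero => rw [zero_mul]; exact Submodule.zero_mem _
  | add x y _ _ hx hy => rw [add_mul]; exact Submodule.add_mem _ hx hy
  | smul c x _ hx => rw [smul_mul_assoc]; exact Submodule.smul_mem _ _ hx

/-- Proportional vectors give spans of the same dimension. -/
theorem finrank_prop {a b : ℕ} (z w : Fin (m+2) → MvPolynomial (Fin (m+1)) k)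
    (c c' : MvPolynomial (Fin (m+1)) k) (hc : c ≠ 0) (hc' : c' ≠ 0)
    (h : ∀ j, c * z j = c' * w j) :
    Module.finrank k (Submodule.span k (Set.range fun p : Idx m a b => prodv z p)) =
      Module.finrank k (Submodule.span k (Set.range fun p : Idx m a b => prodv w p)) := by
  classical
  have h1 : ∀ p : Idx m a b, c ^ a * prodv z p = c' ^ a * prodv w p := by
    intro p
    have h2 : ∀ (c : MvPolynomial (Fin (m+1)) k) (z : Fin (m+2) → MvPolynomial (Fin (m+1)) k),
        c ^ a * prodv z p = (∏ j, (c * z j) ^ (p.1.1 j)) * monomial p.1.2 1 := by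
      intro c z
      simp only [prodv, mul_pow, Finset.prod_mul_distrib]
      rw [Finset.prod_pow_eq_pow_sum, p.fst_sum, mul_assoc]
    rw [h2, h2]
    simp only [h]
  have h3 : ∀ (c : MvPolynomial (Fin (m+1)) k) (hc : c ≠ 0)
      (z : Fin (m+2) → MvPolynomial (Fin (m+1)) k),
      Module.finrank k (Submodule.span k (Set.range fun p : Idx m a b => prodv z p)) =
      Module.finrank k (Submodule.span k (Set.range fun p : Idx m a b => c ^ a * prodv z p)) := by
    intro c hc z
    have h4 : (Set.range fun p : Idx m a b => c ^ a * prodv z p) =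
        (LinearMap.mulLeft k (c ^ a)) '' (Set.range fun p : Idx m a b => prodv z p) := by
      rw [← Set.range_comp]
      rfl
    rw [h4, ← Submodule.map_span]
    have hinj : Function.Injective (LinearMap.mulLeft k (c ^ a)) := by
      intro x y hxy
      exact mul_left_cancel₀ (pow_ne_zero _ hc) hxy
    exact (Submodule.equivMapOfInjective _ hinj _).finrank_eq
  have h5 : (fun p : Idx m a b => c ^ a * prodv z p) = fun p => c' ^ a * prodv w p := funext h1
  rw [h3 c hc z, h3 c' hc' w, h5]

theorem choose_pascal (m n : ℕ) :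
    (m + 1 + (n + 1)).choose (n + 1) = (m + 1 + n).choose n + (m + (n + 1)).choose (n + 1) := by
  have : m + 1 + (n + 1) = (m + 1 + n) + 1 := by ring
  rw [this, Nat.choose_succ_succ]
  congr 2
  ring

theorem choose_diff (m n d : ℕ) :
    (m + 1 + n).choose n + d * (m + n).choose n ≤ (m + 1 + (n + d)).choose (n + d) := by
  induction d with
  | zero => simp
  | succ d ih =>
    have h1 := choose_pascal m (n + d)
    have h2 : (m + n).choose n ≤ (m + (n + d + 1)).choose (n + d + 1) := by
      rw [Nat.choose_symm_add.symm, Nat.choose_symm_add.symm]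
      apply Nat.choose_le_choose
      omega
    have h3 : m + 1 + (n + (d + 1)) = m + 1 + (n + d + 1) := by ring
    rw [h3, show n + (d + 1) = n + d + 1 by ring, h1, add_mul]
    omega

theorem pow_le_fact_choose (m n : ℕ) : n ^ m ≤ m.factorial * (m + n).choose n := by
  have h1 : (n + 1) ^ m ≤ (n + 1).ascFactorial m := Nat.pow_succ_le_ascFactorial (n + 1) m
  have h2 : (n + 1).ascFactorial m = m.factorial * (n + m).choose m :=
    Nat.ascFactorial_eq_factorial_mul_choose n m
  have h3 : (m + n).choose n = (n + m).choose m := by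
    rw [add_comm m n]
    exact Nat.choose_symm_add
  rw [h3, ← h2]
  exact (Nat.pow_le_pow_left (Nat.le_succ n) m).trans h1

theorem fact_choose_le_pow (m a : ℕ) : m.factorial * (m + a).choose a ≤ (a + m) ^ m := by
  have h2 : (a + 1).ascFactorial m = m.factorial * (a + m).choose m :=
    Nat.ascFactorial_eq_factorial_mul_choose a m
  have h3 : (m + a).choose a = (a + m).choose m := by
    rw [add_comm m a]
    exact Nat.choose_symm_add
  rw [h3, ← h2]
  exact Nat.ascFactorial_le_pow_add a m

/-- The gradient and the minors of the Jacobian matrix are proportional. -/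
theorem grad_prop [CharZero k] {F : MvPolynomial (Fin (m+2)) k}
    (φ : Fin (m+2) → MvPolynomial (Fin (m+1)) k) (h0 : aeval φ F = 0) (j : Fin (m+2))
    (hj : minors (fun i l => pderiv i (φ l) : Matrix (Fin (m+1)) (Fin (m+2)) _) j ≠ 0)
    (l : Fin (m+2)) :
    minors (fun i l => pderiv i (φ l) : Matrix (Fin (m+1)) (Fin (m+2)) _) j * gradv F φ l =
      gradv F φ j * minors (fun i l => pderiv i (φ l) : Matrix (Fin (m+1)) (Fin (m+2)) _) l := by
  classical
  set J : Matrix (Fin (m+1)) (Fin (m+2)) (MvPolynomial (Fin (m+1)) k) :=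
    fun i l => pderiv i (φ l) with hJ
  set u : Fin (m+2) → MvPolynomial (Fin (m+1)) k :=
    fun l => minors J j * gradv F φ l - gradv F φ j * minors J l with hu
  have h1 : ∀ i, ∑ l, J i l * u l = 0 := by
    intro i
    have e1 := grad_rel φ h0 (pderiv i)
    have e2 := mul_minors J i
    have e3 : ∑ l, J i l * u l = minors J j * (∑ l, pderiv i (φ l) * gradv F φ l) -
        gradv F φ j * ∑ l, J i l * minors J l := by
      rw [Finset.mul_sum, Finset.mul_sum, ← Finset.sum_sub_distrib]
      refine Finset.sum_congr rfl fun l _ => ?_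
      simp only [hu, hJ]
      ring
    rw [e3, e2]
    simp only [gradv]
    rw [e1]
    ring
  have huj : u j = 0 := by simp only [hu]; ring
  have hdet : (J.submatrix id j.succAbove).det ≠ 0 := by
    unfold minors at hj
    exact right_ne_zero_of_mul hj
  have h2 : (fun l => u (j.succAbove l)) = 0 := by
    apply Matrix.eq_zero_of_mulVec_eq_zero hdet
    funext i
    have := h1 i
    rw [Fin.sum_univ_succAbove _ j, huj, mul_zero, zero_add] at this
    exact this
  have h3 : u l = 0 := by
    rcases Fin.eq_self_or_eq_succAbove j l with h | ⟨l', h⟩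
    · rw [h]; exact huj
    · rw [h]; exact congrFun h2 l'
  exact sub_eq_zero.1 h3

theorem core [IsAlgClosed k] [CharZero k] (hm : 1 ≤ m) {d e : ℕ}
    {F : MvPolynomial (Fin (m+2)) k} (hF : F.IsHomogeneous (d+1))
    (hsm : ∀ w : Fin (m+2) → k, (∀ j, eval w (pderiv j F) = 0) → w = 0)
    (φ : Fin (m+2) → MvPolynomial (Fin (m+1)) k) (hφ : ∀ j, (φ j).IsHomogeneous e)
    (h0 : aeval φ F = 0)
    (hdom : ∀ G : MvPolynomial (Fin (m+2)) k, aeval φ G = 0 → F ∣ G)
    {δ b0 : ℕ} (θ : Fin δ → MvPolynomial (Fin (m+1)) k) (hθ : ∀ i, (θ i).IsHomogeneous b0)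
    (hind : ∀ (n : ℕ) (g : Fin δ → MvPolynomial (Fin (m+2)) k), (∀ i, (g i).IsHomogeneous n) →
      ∑ i, aeval φ (g i) * θ i = 0 → ∀ i, aeval φ (g i) = 0) :
    δ * (d+1) * d ^ m ≤ (m+1) * (e-1) ^ m := by
  classical
  set J : Matrix (Fin (m+1)) (Fin (m+2)) (MvPolynomial (Fin (m+1)) k) :=
    fun i l => pderiv i (φ l) with hJ
  obtain ⟨j, hj⟩ := exists_grad_ne_zero (by omega) hF hsm φ hdom
  have hjF : pderiv j F ≠ 0 := by
    rintro h; rw [h, map_zero] at hj; exact hj rfl
  have hjm := minor_ne_zero φ hdom j hjF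
  obtain ⟨N₁, hN₁⟩ := exists_decomp hF hsm
  set q := e - 1 with hq
  set N := N₁ + (m+1) * q + (d+1) with hN
  have hdec : ∀ n, N ≤ n → ∀ G : MvPolynomial (Fin (m+2)) k, G.IsHomogeneous (n + d) →
      ∃ H : Fin (m+2) → MvPolynomial (Fin (m+2)) k, (∀ j, (H j).IsHomogeneous n) ∧
        G = ∑ j, pderiv j F * H j := fun n hn => hN₁ n (by omega)
  set b := e * N + b0 with hb
  have hbq : (m+1) * q ≤ b := by
    rcases Nat.eq_zero_or_pos e with he | he
    · have : q = 0 := by omega
      rw [this]; omega
    · have h1 : N ≤ e * N := Nat.le_mul_of_pos_left N he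
      omega
  have hJq : ∀ i l, (J i l).IsHomogeneous q := fun i l => (hφ l).pderiv
  set n0 : ℕ → ℕ := fun a => a * d + (N - (d+1)) with hn0
  have key : ∀ a : ℕ, δ * ((d+1) * (m + n0 a).choose (n0 a)) ≤
      (m+1) * (((m+1) + a - 1).choose a * q ^ m) +
      (m+1) * (m+1) * ((m + a - 1).choose a * ((m+1) + b - 1).choose b) := by
    intro a
    have hna : n0 a + (d+1) = a * d + N := by
      simp only [hn0]; omega
    have k1 := finrank_imgDeg hF φ hdom (n0 a)
    have k2 := choose_diff m (n0 a) (d+1)
    have k3 : (d+1) * (m + n0 a).choose (n0 a) ≤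
        Module.finrank k (imgDeg φ (n0 a + (d+1))) := by omega
    refine (Nat.mul_le_mul_left δ k3).trans ?_
    -- the injective map
    let V := Submodule.span k (Set.range fun p : Idx m a b => prodv (gradv F φ) p)
    let Ψ : (Fin δ → imgDeg φ (n0 a + (d+1))) →ₗ[k] V :=
      LinearMap.codRestrict V
        (∑ i, (LinearMap.mulRight k (θ i)).comp
          ((Submodule.subtype _).comp (LinearMap.proj i))) (by
        intro c
        rw [LinearMap.sum_apply]
        refine Submodule.sum_mem _ fun i _ => ?_
        obtain ⟨G, hG, hG2⟩ := (c i).2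
        simp only [LinearMap.comp_apply, LinearMap.proj_apply, Submodule.subtype_apply,
          LinearMap.mulRight_apply]
        rw [← hG2]
        apply mul_mem_span hφ (hθ i)
        apply mem_Wsp hdec a
        rw [← hna]
        exact hG)
    have hΨ : Function.Injective Ψ := by
      rw [← LinearMap.ker_eq_bot, LinearMap.ker_eq_bot']
      intro c hc
      have h1 : ∑ i, (c i : MvPolynomial (Fin (m+1)) k) * θ i = 0 := by
        have h2 := congrArg Subtype.val hc
        simpa [Ψ, LinearMap.sum_apply] using h2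
      choose g hg hg2 using fun i => (c i).2
      have h3 := hind _ g hg (by
        rw [← h1]
        refine Finset.sum_congr rfl fun i _ => ?_
        rw [← hg2 i]; rfl)
      funext i
      apply Subtype.ext
      rw [← hg2 i]
      exact h3 i
    have hVfin : Module.Finite k V := by
      apply Module.Finite.span_of_finite
      exact Set.finite_range _
    have k4 := LinearMap.finrank_le_finrank_of_injective hΨ
    rw [Module.finrank_pi_fintype] at k4
    simp only [Finset.sum_const, Finset.card_univ, Fintype.card_fin, smul_eq_mul] at k4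
    refine k4.trans ?_
    have k5 : Module.finrank k V = Module.finrank k
        (Submodule.span k (Set.range fun p : Idx m a b => prodv (minors J) p)) :=
      finrank_prop (gradv F φ) (minors J) (minors J j) (gradv F φ j) hjm hj
        (fun l => grad_prop φ h0 j hjm l)
    rw [k5]
    exact (degen_bound J hJq a b).trans (card_std m a b q hbq)
  -- asymptotics
  have hA : δ * (d+1) * d ^ m ≤ (m+1) * q ^ m := by
    apply asym hm (δ * (d+1) * d ^ m) ((m+1) * q ^ m)
      (m.factorial * ((m+1) * (m+1) * ((m+1) + b - 1).choose b))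
    intro a
    have h1 := Nat.mul_le_mul_left m.factorial (key a)
    have h2 : (a * d) ^ m ≤ m.factorial * (m + n0 a).choose (n0 a) :=
      (Nat.pow_le_pow_left (by simp only [hn0]; omega) m).trans (pow_le_fact_choose m (n0 a))
    have h3 : m.factorial * ((m+1) + a - 1).choose a ≤ (a + m) ^ m := by
      have : (m+1) + a - 1 = m + a := by omega
      rw [this]
      exact fact_choose_le_pow m a
    have h4 : (m + a - 1).choose a ≤ (a + m) ^ (m - 1) := by
      have e1 : m + a - 1 = (m - 1) + a := by omega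
      rw [e1]
      have e2 := fact_choose_le_pow (m-1) a
      refine (Nat.le_mul_of_pos_left _ (Nat.factorial_pos (m-1))).trans (e2.trans ?_)
      exact Nat.pow_le_pow_left (by omega) _
    calc δ * (d+1) * d ^ m * a ^ m = δ * (d+1) * (a * d) ^ m := by rw [mul_pow]; ring
      _ ≤ δ * (d+1) * (m.factorial * (m + n0 a).choose (n0 a)) := Nat.mul_le_mul_left _ h2
      _ = m.factorial * (δ * ((d+1) * (m + n0 a).choose (n0 a))) := by ring
      _ ≤ _ := h1
      _ = (m+1) * q ^ m * (m.factorial * ((m+1) + a - 1).choose a) +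
          m.factorial * ((m+1) * (m+1) * ((m+1) + b - 1).choose b) * (m + a - 1).choose a := by
            ring
      _ ≤ _ := Nat.add_le_add (Nat.mul_le_mul_left _ h3) (Nat.mul_le_mul_left _ h4)
  exact hA

end MP2619.Q
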