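import Pool.Agent.Lib.MP_2619d0_ag.Parity

set_option autoImplicit false

namespace Pool.Agent.Lib.MP_2619d0_ag

open MvPolynomial

/-- `Star f`: the only vector fields `u` (with polynomial coefficients) that are tangent to the
hypersurface `f = 0` and asymptotic (i.e. isotropic for the Hessian) along it vanish on it. -/
def Star {k : Type*} [CommRing k] {m : ℕ} (f : MvPolynomial (Fin m) k) : Prop :=
  ∀ u : Fin m → MvPolynomial (Fin m) k,
    f ∣ ∑ i, pderiv i f * u i →
    f ∣ ∑ i, ∑ j, pderiv i (pderiv j f) * (u i * u j) →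
    ∀ i, f ∣ u i

/-- The graph `x_1 = - ∑_{i ≠ 1} x_i^3`. -/
noncomputable def f0 (k : Type*) [CommRing k] (N : ℕ) : MvPolynomial (Fin (N + 2)) k :=
  X 1 + ∑ i ∈ Finset.univ.erase (1 : Fin (N + 2)), X i ^ 3

/-- Substitution eliminating `x_1`. -/
noncomputable def theta (k : Type*) [CommRing k] (N : ℕ) :
    MvPolynomial (Fin (N + 2)) k →ₐ[k] MvPolynomial (Fin (N + 2)) k :=
  aeval (fun i => if i = 1 then -(∑ i ∈ Finset.univ.erase (1 : Fin (N + 2)), X i ^ 3) else X i)

theorem theta_X_ne {k : Type*} [CommRing k] {N : ℕ} {i : Fin (N + 2)} (hi : i ≠ 1) :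
    theta k N (X i) = X i := by
  simp [theta, hi]

theorem theta_X_one {k : Type*} [CommRing k] {N : ℕ} :
    theta k N (X 1) = -(∑ i ∈ Finset.univ.erase (1 : Fin (N + 2)), X i ^ 3) := by
  simp [theta]

theorem theta_f0 {k : Type*} [CommRing k] {N : ℕ} : theta k N (f0 k N) = 0 := by
  rw [f0, map_add, theta_X_one, map_sum]
  rw [neg_add_eq_zero]
  refine Finset.sum_congr rfl fun i hi => ?_
  rw [map_pow, theta_X_ne (Finset.ne_of_mem_erase hi)]

theorem dvd_sub_theta {k : Type*} [CommRing k] {N : ℕ} (P : MvPolynomial (Fin (N + 2)) k) :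
    f0 k N ∣ P - theta k N P := by
  induction P using MvPolynomial.induction_on with
  | C a =>
    have : theta k N (C a) = C a := by
      simp [theta]
    rw [this, sub_self]
    exact dvd_zero _
  | add p q hp hq =>
    rw [map_add]
    have : p + q - (theta k N p + theta k N q) = (p - theta k N p) + (q - theta k N q) := by ring
    rw [this]
    exact dvd_add hp hq
  | mul_X p i hp =>
    rw [map_mul]
    have h1 : f0 k N ∣ X i - theta k N (X i) := by
      by_cases hi : i = 1
      · subst hi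
        rw [theta_X_one, sub_neg_eq_add]
        exact dvd_refl _
      · rw [theta_X_ne hi, sub_self]
        exact dvd_zero _
    have : p * X i - theta k N p * theta k N (X i)
        = (p - theta k N p) * X i + theta k N p * (X i - theta k N (X i)) := by ring
    rw [this]
    exact dvd_add (Dvd.dvd.mul_right hp _) (Dvd.dvd.mul_left h1 _)

theorem f0_dvd_iff {k : Type*} [CommRing k] {N : ℕ} (P : MvPolynomial (Fin (N + 2)) k) :
    f0 k N ∣ P ↔ theta k N P = 0 := by
  constructor
  · rintro ⟨Q, rfl⟩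
    rw [map_mul, theta_f0, zero_mul]
  · intro h
    have := dvd_sub_theta P
    rwa [h, sub_zero] at this

theorem pderiv_f0_one {k : Type*} [CommRing k] {N : ℕ} : pderiv 1 (f0 k N) = 1 := by
  rw [f0, map_add, map_sum, pderiv_X_self]
  rw [Finset.sum_eq_zero, add_zero]
  intro i hi
  have hne : i ≠ 1 := Finset.ne_of_mem_erase hi
  rw [pderiv_pow, pderiv_X_of_ne hne]
  simp

theorem pderiv_f0_ne {k : Type*} [CommRing k] {N : ℕ} {i : Fin (N + 2)} (hi : i ≠ 1) :
    pderiv i (f0 k N) = 3 * X i ^ 2 := by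
  classical
  rw [f0, map_add, map_sum, pderiv_X_of_ne (Ne.symm hi), zero_add]
  rw [Finset.sum_eq_single i]
  · rw [pderiv_pow, pderiv_X_self]
    norm_num
  · intro j _ hj
    rw [pderiv_pow, pderiv_X_of_ne hj]
    simp
  · intro h
    exact absurd (Finset.mem_erase.mpr ⟨hi, Finset.mem_univ _⟩) h

theorem pderiv2_f0_self {k : Type*} [CommRing k] {N : ℕ} {i : Fin (N + 2)} (hi : i ≠ 1) :
    pderiv i (pderiv i (f0 k N)) = 6 * X i := by
  rw [pderiv_f0_ne hi]
  have h3 : (3 : MvPolynomial (Fin (N + 2)) k) = C 3 := (map_ofNat C 3).symm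
  rw [h3, pderiv_C_mul, pderiv_pow, pderiv_X_self]
  simp only [map_ofNat]
  norm_num
  ring

theorem pderiv2_f0_of_ne {k : Type*} [CommRing k] {N : ℕ} {i j : Fin (N + 2)} (hij : i ≠ j) :
    pderiv i (pderiv j (f0 k N)) = 0 := by
  by_cases hj : j = 1
  · subst hj
    rw [pderiv_f0_one, pderiv_one]
  · rw [pderiv_f0_ne hj]
    have h3 : (3 : MvPolynomial (Fin (N + 2)) k) = C 3 := (map_ofNat C 3).symm
    rw [h3, pderiv_C_mul, pderiv_pow, pderiv_X_of_ne (Ne.symm hij)]
    simp

theorem pderiv2_f0_one {k : Type*} [CommRing k] {N : ℕ} :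
    pderiv 1 (pderiv 1 (f0 k N)) = 0 := by
  rw [pderiv_f0_one, pderiv_one]

theorem star_f0 {k : Type*} [Field k] {N : ℕ} (h6 : (6 : k) ≠ 0) : Star (f0 k N) := by
  classical
  intro u hT hQ
  have hQ' : ∑ i, ∑ j, pderiv i (pderiv j (f0 k N)) * (u i * u j)
      = ∑ i ∈ Finset.univ.erase (1 : Fin (N + 2)), 6 * X i * (u i) ^ 2 := by
    have h1 : ∀ i : Fin (N + 2), ∑ j, pderiv i (pderiv j (f0 k N)) * (u i * u j)
        = if i = 1 then 0 else 6 * X i * (u i) ^ 2 := by
      intro i
      rw [Finset.sum_eq_single i]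
      · split_ifs with h
        · subst h
          rw [pderiv2_f0_one, zero_mul]
        · rw [pderiv2_f0_self h]
          ring
      · intro j _ hj
        rw [pderiv2_f0_of_ne (Ne.symm hj), zero_mul]
      · intro h
        exact absurd (Finset.mem_univ _) h
    rw [Finset.sum_congr rfl (fun i _ => h1 i)]
    rw [← Finset.add_sum_erase _ _ (Finset.mem_univ (1 : Fin (N + 2)))]
    rw [if_pos rfl, zero_add]
    refine Finset.sum_congr rfl fun i hi => ?_
    rw [if_neg (Finset.ne_of_mem_erase hi)]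
  rw [hQ', f0_dvd_iff, map_sum] at hQ
  have h6' : (C (6 : k) : MvPolynomial (Fin (N + 2)) k) ≠ 0 := by
    rw [Ne, C_eq_zero]
    exact h6
  have hsum : ∑ i ∈ Finset.univ.erase (1 : Fin (N + 2)), X i * (theta k N (u i)) ^ 2 = 0 := by
    apply mul_left_cancel₀ h6'
    rw [mul_zero, Finset.mul_sum, ← hQ]
    refine Finset.sum_congr rfl fun i hi => ?_
    rw [map_mul, map_mul, map_pow, theta_X_ne (Finset.ne_of_mem_erase hi)]
    simp only [map_ofNat]
    ring
  have hz := diag_anisotropic _ _ hsum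
  have hne : ∀ i : Fin (N + 2), i ≠ 1 → f0 k N ∣ u i := by
    intro i hi
    rw [f0_dvd_iff]
    exact hz i (Finset.mem_erase.mpr ⟨hi, Finset.mem_univ _⟩)
  intro i
  by_cases hi : i = 1
  · subst hi
    rw [← Finset.add_sum_erase _ _ (Finset.mem_univ (1 : Fin (N + 2))), pderiv_f0_one,
      one_mul] at hT
    refine (dvd_add_left ?_).mp hT
    exact Finset.dvd_sum fun j hj => Dvd.dvd.mul_left (hne j (Finset.ne_of_mem_erase hj)) _
  · exact hne i hi

/-- `f0` is a prime polynomial over a field. -/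
theorem prime_f0 {k : Type*} [Field k] {N : ℕ} {P Q : MvPolynomial (Fin (N + 2)) k}
    (h : f0 k N ∣ P * Q) : f0 k N ∣ P ∨ f0 k N ∣ Q := by
  rw [f0_dvd_iff, map_mul, mul_eq_zero] at h
  rwa [f0_dvd_iff, f0_dvd_iff]

end Pool.Agent.Lib.MP_2619d0_ag
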