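import Pool.Agent.Lib.MP_2619d0_ag.Special

set_option autoImplicit false

namespace Pool.Agent.Lib.MP_2619d0_ag

open MvPolynomial

theorem finSuccEquiv_map' {R S : Type*} [CommRing R] [CommRing S] (φ : R →+* S) {m : ℕ}
    (p : MvPolynomial (Fin (m + 1)) R) :
    finSuccEquiv S m (map φ p) = Polynomial.map (map φ) (finSuccEquiv R m p) := by
  ext i d
  rw [finSuccEquiv_coeff_coeff, Polynomial.coeff_map, coeff_map, coeff_map,
    finSuccEquiv_coeff_coeff]

theorem dvd_iff_finSucc {R : Type*} [CommRing R] {m : ℕ} (p q : MvPolynomial (Fin (m + 1)) R) :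
    p ∣ q ↔ finSuccEquiv R m p ∣ finSuccEquiv R m q :=
  (map_dvd_iff (finSuccEquiv R m)).symm

/-- Divisibility by a monic polynomial descends along injective maps. -/
theorem dvd_of_map_dvd {R S : Type*} [CommRing R] [CommRing S] (φ : R →+* S)
    (hφ : Function.Injective φ) {m : ℕ} {f P : MvPolynomial (Fin (m + 1)) R}
    (hf : (finSuccEquiv R m f).Monic) (h : map φ f ∣ map φ P) : f ∣ P := by
  rw [dvd_iff_finSucc, finSuccEquiv_map', finSuccEquiv_map',
    Polynomial.map_dvd_map _ (map_injective φ hφ) hf] at h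
  rwa [dvd_iff_finSucc]

/-- Among finitely many elements, not all zero, of a valued field one can divide by one of them
so that all quotients lie in the valuation ring. -/
theorem exists_scale {𝕂 : Type*} [Field 𝕂] (V : ValuationSubring 𝕂) (s : Finset 𝕂)
    (hs : ∃ a ∈ s, a ≠ 0) : ∃ c ∈ s, c ≠ 0 ∧ ∀ a ∈ s, c⁻¹ * a ∈ V := by
  obtain ⟨a₀, ha₀, ha₀'⟩ := hs
  obtain ⟨c, hcs, hc⟩ := s.exists_max_image V.valuation ⟨a₀, ha₀⟩
  have hc0 : c ≠ 0 := by
    rintro rfl
    have := hc a₀ ha₀
    rw [map_zero, le_zero_iff, map_eq_zero] at this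
    exact ha₀' this
  refine ⟨c, hcs, hc0, fun a ha => ?_⟩
  apply V.mem_of_valuation_le_one
  rw [map_mul, map_inv₀]
  have h1 := hc a ha
  have h2 : V.valuation c ≠ 0 := by
    rwa [Ne, map_eq_zero]
  calc (V.valuation c)⁻¹ * V.valuation a ≤ (V.valuation c)⁻¹ * V.valuation c :=
        mul_le_mul_right h1 _
    _ = 1 := inv_mul_cancel₀ h2

theorem exists_lift {𝕂 : Type*} [Field 𝕂] (V : ValuationSubring 𝕂) {m : ℕ}
    (f : MvPolynomial (Fin (m + 1)) V) (hf : (finSuccEquiv V m f).Monic)
    {ι : Type*} [Fintype ι] (u : ι → MvPolynomial (Fin (m + 1)) 𝕂)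
    (hu : ∃ i, ¬ (map V.subtype f ∣ u i)) :
    ∃ (c : 𝕂) (s : ι → MvPolynomial (Fin (m + 1)) V),
      (∀ i, map V.subtype f ∣ C c * u i - map V.subtype (s i)) ∧
      (∃ i, ¬ (map (IsLocalRing.residue V) f ∣ map (IsLocalRing.residue V) (s i))) := by
  classical
  set F := finSuccEquiv V m f with hF
  set FK := Polynomial.map (map V.subtype) F with hFK
  have hFKm : FK.Monic := hf.map _
  -- normal forms
  set r : ι → MvPolynomial (Fin (m + 1)) 𝕂 := fun i =>
    (finSuccEquiv 𝕂 m).symm (finSuccEquiv 𝕂 m (u i) %ₘ FK) with hr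
  have hrdvd : ∀ i, map V.subtype f ∣ u i - r i := by
    intro i
    rw [dvd_iff_finSucc, finSuccEquiv_map', map_sub, hr]
    simp only [AlgEquiv.apply_symm_apply]
    have := Polynomial.dvd_modByMonic_sub (finSuccEquiv 𝕂 m (u i)) FK
    rw [← dvd_neg, neg_sub] at this
    exact this
  have hrne : ∃ i, r i ≠ 0 := by
    obtain ⟨i, hi⟩ := hu
    refine ⟨i, fun h0 => hi ?_⟩
    have := hrdvd i
    rwa [h0, sub_zero] at this
  -- the finite set of coefficients
  set S : Finset 𝕂 := Finset.univ.biUnion (fun i => (r i).coeffs) with hS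
  have hSne : ∃ a ∈ S, a ≠ 0 := by
    obtain ⟨i, hi⟩ := hrne
    obtain ⟨d, hd⟩ := MvPolynomial.ne_zero_iff.mp hi
    refine ⟨coeff d (r i), ?_, hd⟩
    rw [hS, Finset.mem_biUnion]
    exact ⟨i, Finset.mem_univ _, coeff_mem_coeffs d hd⟩
  obtain ⟨c, hcS, hc0, hcV⟩ := exists_scale V S hSne
  have hlift : ∀ i, ∃ s : MvPolynomial (Fin (m + 1)) V, map V.subtype s = C c⁻¹ * r i := by
    intro i
    have : C c⁻¹ * r i ∈ Set.range (MvPolynomial.map V.subtype) := by
      rw [mem_range_map_iff_coeffs_subset]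
      intro x hx
      have hx' : x ∈ (C c⁻¹ * r i).coeffs := hx
      rw [mem_coeffs_iff] at hx'
      obtain ⟨d, hd, rfl⟩ := hx'
      rw [coeff_C_mul]
      have hd' : coeff d (r i) ≠ 0 := by
        intro h0
        rw [mem_support_iff, coeff_C_mul, h0, mul_zero] at hd
        exact hd rfl
      have hmem : c⁻¹ * coeff d (r i) ∈ V := hcV _ (by
        rw [hS, Finset.mem_biUnion]
        exact ⟨i, Finset.mem_univ _, coeff_mem_coeffs d hd'⟩)
      exact ⟨⟨_, hmem⟩, rfl⟩
    exact this
  choose s hs using hlift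
  refine ⟨c⁻¹, s, ?_, ?_⟩
  · intro i
    rw [hs i, ← mul_sub]
    exact Dvd.dvd.mul_left (hrdvd i) _
  · -- the coefficient equal to `c` gives a coefficient `1` of some `s i`
    rw [hS, Finset.mem_biUnion] at hcS
    obtain ⟨i, -, hci⟩ := hcS
    rw [mem_coeffs_iff] at hci
    obtain ⟨d, hd, hcd⟩ := hci
    refine ⟨i, fun hdvd => ?_⟩
    have hcoef : coeff d (s i) = 1 := by
      have h1 := congrArg (coeff d) (hs i)
      rw [coeff_map, coeff_C_mul, ← hcd, inv_mul_cancel₀ hc0] at h1
      exact V.subtype_injective (by rw [h1, map_one])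
    -- degree bound
    rw [dvd_iff_finSucc, finSuccEquiv_map', finSuccEquiv_map'] at hdvd
    have hdeg : (finSuccEquiv V m (s i)).degree < F.degree := by
      have h2 : (Polynomial.map (map V.subtype) (finSuccEquiv V m (s i))).degree < FK.degree := by
        rw [← finSuccEquiv_map', hs i, map_mul]
        have h3 : finSuccEquiv 𝕂 m (r i) = finSuccEquiv 𝕂 m (u i) %ₘ FK := by
          rw [hr]
          simp
        rw [h3]
        have h4 : finSuccEquiv 𝕂 m (C c⁻¹) = Polynomial.C (C c⁻¹) := by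
          simp [finSuccEquiv_apply]
        rw [h4]
        have h5 : (C c⁻¹ : MvPolynomial (Fin m) 𝕂) ≠ 0 := by
          rw [Ne, C_eq_zero]
          exact inv_ne_zero hc0
        rw [Polynomial.degree_C_mul h5]
        exact Polynomial.degree_modByMonic_lt _ hFKm
      rwa [Polynomial.degree_map_eq_of_injective (map_injective _ V.subtype_injective),
        hFK, Polynomial.degree_map_eq_of_injective (map_injective _ V.subtype_injective)] at h2
    have hzero : Polynomial.map (map (IsLocalRing.residue V)) (finSuccEquiv V m (s i)) = 0 := by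
      refine Polynomial.eq_zero_of_dvd_of_degree_lt hdvd ?_
      have h5 : (Polynomial.map (map (IsLocalRing.residue V)) F).degree = F.degree :=
        Polynomial.Monic.degree_map hf _
      rw [h5]
      exact lt_of_le_of_lt Polynomial.degree_map_le hdeg
    rw [← finSuccEquiv_map'] at hzero
    have hz : map (IsLocalRing.residue V) (s i) = 0 := by
      have := congrArg (finSuccEquiv _ m).symm hzero
      simpa using this
    have h6 := congrArg (coeff d) hz
    rw [coeff_map, hcoef, map_one, coeff_zero] at h6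
    exact one_ne_zero h6

end Pool.Agent.Lib.MP_2619d0_ag
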