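import Pool.Agent.Lib.MP_2619d0_ag.QLower

/-!
# Dominant maps `ℙ^m ⇢ X` onto a smooth cubic given by cubic forms have base points
-/

set_option autoImplicit false

namespace MP2619.T

open MvPolynomial MP2619.Q

variable {k : Type*} [Field k] {m : ℕ}

theorem pow_mem_family [IsAlgClosed k] {ι : Type*}
    (φ : ι → MvPolynomial (Fin (m+1)) k)
    (hbp : ∀ w : Fin (m+1) → k, (∀ j, eval w (φ j) = 0) → w = 0) :
    ∃ N : ℕ, ∀ i, (X i : MvPolynomial (Fin (m+1)) k) ^ N ∈ Ideal.span (Set.range φ) := by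
  classical
  set I := Ideal.span (Set.range φ) with hI
  have h1 : ∀ i : Fin (m+1), (X i : MvPolynomial (Fin (m+1)) k) ∈ I.radical := by
    intro i
    rw [← MvPolynomial.vanishingIdeal_zeroLocus_eq_radical (K := k)]
    rw [mem_vanishingIdeal_iff]
    intro w hw
    have h2 : w = 0 := by
      apply hbp
      intro j
      have := hw (φ j) (Ideal.subset_span ⟨j, rfl⟩)
      rwa [MvPolynomial.aeval_eq_eval] at this
    rw [h2]; simp
  choose n hn using fun i => h1 i
  refine ⟨∑ i, n i, fun i => ?_⟩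
  have h2 : n i ≤ ∑ i, n i := Finset.single_le_sum (fun _ _ => Nat.zero_le _) (Finset.mem_univ i)
  rw [← Nat.add_sub_cancel' h2, pow_add]
  exact Ideal.mul_mem_right _ _ (hn i)

/-- Nullstellensatz for a family of forms without common zero. -/
theorem decomp_family [IsAlgClosed k] {ι : Type*} [Fintype ι] {e : ℕ}
    (φ : ι → MvPolynomial (Fin (m+1)) k) (hφ : ∀ j, (φ j).IsHomogeneous e)
    (hbp : ∀ w : Fin (m+1) → k, (∀ j, eval w (φ j) = 0) → w = 0) :
    ∃ N : ℕ, ∀ n, N ≤ n → ∀ G : MvPolynomial (Fin (m+1)) k, G.IsHomogeneous (n + e) →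
      ∃ H : ι → MvPolynomial (Fin (m+1)) k, (∀ j, (H j).IsHomogeneous n) ∧
        G = ∑ j, φ j * H j := by
  classical
  obtain ⟨N, hN⟩ := pow_mem_family φ hbp
  refine ⟨(m+1) * N, fun n hn G hG => ?_⟩
  have h1 : G ∈ Ideal.span (Set.range φ) := by
    rw [MvPolynomial.as_sum G]
    refine Ideal.sum_mem _ fun γ hγ => ?_
    have hγs : ∑ l, γ l = n + e := by
      have h2 := hG (mem_support_iff.1 hγ)
      rw [← h2, Finsupp.weight_apply, Finsupp.sum_fintype _ _ (by simp)]
      simp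
    have hex : ∃ i, N ≤ γ i := by
      by_contra hcon
      push Not at hcon
      have h3 : ∑ i, γ i < ∑ i : Fin (m+1), N :=
        Finset.sum_lt_sum_of_nonempty Finset.univ_nonempty (fun i _ => hcon i)
      rw [hγs] at h3
      simp at h3
      omega
    obtain ⟨i, hi⟩ := hex
    have h4 : monomial γ (coeff γ G) =
        monomial (γ - Finsupp.single i N) (coeff γ G) * (X i) ^ N := by
      rw [X_pow_eq_monomial, monomial_mul, mul_one, tsub_add_cancel_of_le]
      rw [Finsupp.single_le_iff]; exact hi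
    rw [h4]
    exact Ideal.mul_mem_left _ _ (hN i)
  rw [Ideal.mem_span_range_iff_exists_fun] at h1
  obtain ⟨c, hc⟩ := h1
  refine ⟨fun j => homogeneousComponent n (c j), fun j => homogeneousComponent_isHomogeneous _ _, ?_⟩
  have h5 : homogeneousComponent (n + e) G = G := homogeneousComponent_eq_self hG
  rw [← h5, ← hc, map_sum]
  refine Finset.sum_congr rfl fun j _ => ?_
  rw [mul_comm, comp_mul (hφ j)]

/-- Products of `ℓ`-forms in `φ` with forms of degree `c`. -/
noncomputable def prodSp {ι : Type*} (φ : ι → MvPolynomial (Fin (m+1)) k) (ℓ c : ℕ) :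
    Submodule k (MvPolynomial (Fin (m+1)) k) :=
  Submodule.span k {y | ∃ g : MvPolynomial ι k, g.IsHomogeneous ℓ ∧
    ∃ h : MvPolynomial (Fin (m+1)) k, h.IsHomogeneous c ∧ y = aeval φ g * h}

theorem mul_mem_prodSp {ι : Type*} (φ : ι → MvPolynomial (Fin (m+1)) k) (ℓ c : ℕ) (j : ι)
    (y : MvPolynomial (Fin (m+1)) k) (hy : y ∈ prodSp φ ℓ c) : φ j * y ∈ prodSp φ (ℓ+1) c := by
  unfold prodSp at hy
  induction hy using Submodule.span_induction with
  | mem y hy =>
    obtain ⟨g, hg, h, hh, rfl⟩ := hy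
    apply Submodule.subset_span
    refine ⟨X j * g, ?_, h, hh, ?_⟩
    · rw [add_comm]
      exact (isHomogeneous_X k j).mul hg
    · rw [map_mul, aeval_X]; ring
  | zero => rw [mul_zero]; exact Submodule.zero_mem _
  | add x y _ _ hx hy => rw [mul_add]; exact Submodule.add_mem _ hx hy
  | smul c x _ hx => rw [mul_smul_comm]; exact Submodule.smul_mem _ _ hx

theorem mem_prodSp {ι : Type*} [Fintype ι] {e N : ℕ}
    (φ : ι → MvPolynomial (Fin (m+1)) k)
    (hdec : ∀ n, N ≤ n → ∀ G : MvPolynomial (Fin (m+1)) k, G.IsHomogeneous (n + e) →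
      ∃ H : ι → MvPolynomial (Fin (m+1)) k, (∀ j, (H j).IsHomogeneous n) ∧
        G = ∑ j, φ j * H j) (ℓ : ℕ) :
    ∀ G : MvPolynomial (Fin (m+1)) k, G.IsHomogeneous (N + e * ℓ) → G ∈ prodSp φ ℓ N := by
  induction ℓ with
  | zero =>
    intro G hG
    apply Submodule.subset_span
    exact ⟨1, isHomogeneous_one _ _, G, by simpa using hG, by simp⟩
  | succ ℓ ih =>
    intro G hG
    have h1 : G.IsHomogeneous ((N + e * ℓ) + e) := by
      convert hG using 1; ring
    obtain ⟨H, hH, rfl⟩ := hdec (N + e * ℓ) (by omega) G h1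
    refine Submodule.sum_mem _ fun j _ => ?_
    exact mul_mem_prodSp φ ℓ N j _ (ih _ (hH j))

/-- Independence over the image algebra. -/
def Ind {ι : Type*} (φ : ι → MvPolynomial (Fin (m+1)) k) {δ : ℕ}
    (θ : Fin δ → MvPolynomial (Fin (m+1)) k) : Prop :=
  ∀ (n : ℕ) (g : Fin δ → MvPolynomial ι k), (∀ i, (g i).IsHomogeneous n) →
      ∑ i, aeval φ (g i) * θ i = 0 → ∀ i, aeval φ (g i) = 0

/-- A maximal independent family. -/
theorem exists_max {ι : Type*} (φ : ι → MvPolynomial (Fin (m+1)) k) (c D : ℕ)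
    (hbd : ∀ (δ : ℕ) (θ : Fin δ → MvPolynomial (Fin (m+1)) k), (∀ i, (θ i).IsHomogeneous c) →
      Ind φ θ → δ ≤ D) :
    ∃ (δ : ℕ) (θ : Fin δ → MvPolynomial (Fin (m+1)) k), (∀ i, (θ i).IsHomogeneous c) ∧
      Ind φ θ ∧ ∀ h : MvPolynomial (Fin (m+1)) k, h.IsHomogeneous c →
        ∃ (n : ℕ) (g' : MvPolynomial ι k) (g : Fin δ → MvPolynomial ι k),
          g'.IsHomogeneous n ∧ (∀ i, (g i).IsHomogeneous n) ∧ aeval φ g' ≠ 0 ∧
            aeval φ g' * h = ∑ i, aeval φ (g i) * θ i := by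
  classical
  let P : ℕ → Prop := fun δ => ∃ θ : Fin δ → MvPolynomial (Fin (m+1)) k,
    (∀ i, (θ i).IsHomogeneous c) ∧ Ind φ θ
  have hP0 : P 0 := ⟨fun i => i.elim0, fun i => i.elim0, fun n g hg h i => i.elim0⟩
  have hPδ : P (Nat.findGreatest P D) := Nat.findGreatest_spec (Nat.zero_le D) hP0
  obtain ⟨δ, hδ⟩ : ∃ δ, δ = Nat.findGreatest P D := ⟨_, rfl⟩
  rw [← hδ] at hPδ
  obtain ⟨θ, hθ, hind⟩ := hPδ
  refine ⟨δ, θ, hθ, hind, fun h hh => ?_⟩
  by_contra hcon
  push Not at hcon
  have hPs : P (δ + 1) := by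
    refine ⟨Fin.cons h θ, ?_, ?_⟩
    · intro i
      refine Fin.cases ?_ (fun j => ?_) i
      · exact hh
      · exact hθ j
    · intro n g hg hs
      rw [Fin.sum_univ_succ] at hs
      simp only [Fin.cons_zero, Fin.cons_succ] at hs
      have h1 : aeval φ (g 0) = 0 := by
        by_contra h2
        apply hcon n (g 0) (fun i => - g i.succ) (hg 0) (fun i => (hg i.succ).neg) h2
        simp only [map_neg, neg_mul, Finset.sum_neg_distrib]
        exact eq_neg_of_add_eq_zero_left hs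
      rw [h1, zero_mul, zero_add] at hs
      intro i
      refine Fin.cases ?_ (fun j => ?_) i
      · exact h1
      · exact hind n (fun i => g i.succ) (fun i => hg i.succ) hs j
  have h3 : δ + 1 ≤ D := by
    obtain ⟨θ', hθ', hind'⟩ := hPs
    exact hbd _ θ' hθ' hind'
  have h4 := Nat.le_findGreatest h3 hPs
  omega


/-- Common denominators. -/
theorem exists_denom {ι : Type*} (φ : ι → MvPolynomial (Fin (m+1)) k) (c : ℕ) {δ : ℕ}
    (θ : Fin δ → MvPolynomial (Fin (m+1)) k)
    (hmax : ∀ h : MvPolynomial (Fin (m+1)) k, h.IsHomogeneous c →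
        ∃ (n : ℕ) (g' : MvPolynomial ι k) (g : Fin δ → MvPolynomial ι k),
          g'.IsHomogeneous n ∧ (∀ i, (g i).IsHomogeneous n) ∧ aeval φ g' ≠ 0 ∧
            aeval φ g' * h = ∑ i, aeval φ (g i) * θ i) :
    ∃ (s : ℕ) (G : MvPolynomial ι k), G.IsHomogeneous s ∧ aeval φ G ≠ 0 ∧
      ∀ h : MvPolynomial (Fin (m+1)) k, h.IsHomogeneous c →
        ∃ a : Fin δ → MvPolynomial ι k, (∀ i, (a i).IsHomogeneous s) ∧
          aeval φ G * h = ∑ i, aeval φ (a i) * θ i := by
  classical
  let T : Finset (Fin (m+1) →₀ ℕ) := Finset.univ.finsuppAntidiag c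
  have hT : ∀ γ : T, (monomial γ.1 (1 : k) : MvPolynomial (Fin (m+1)) k).IsHomogeneous c := by
    intro γ
    have := γ.2
    rw [Finset.mem_finsuppAntidiag] at this
    apply isHomogeneous_monomial
    rw [Finsupp.degree_eq_sum]
    exact this.1
  choose n g' g hg' hg hne heq using fun γ : T => hmax _ (hT γ)
  refine ⟨∑ γ, n γ, ∏ γ, g' γ, IsHomogeneous.prod _ _ _ fun γ _ => hg' γ, ?_, ?_⟩
  · rw [map_prod]
    exact Finset.prod_ne_zero_iff.2 fun γ _ => hne γ
  · have hmono : ∀ γ : T, ∃ a : Fin δ → MvPolynomial ι k, (∀ i, (a i).IsHomogeneous (∑ γ, n γ)) ∧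
          aeval φ (∏ γ, g' γ) * monomial γ.1 (1 : k) = ∑ i, aeval φ (a i) * θ i := by
      intro γ
      refine ⟨fun i => g γ i * ∏ γ' ∈ Finset.univ.erase γ, g' γ', ?_, ?_⟩
      · intro i
        rw [← Finset.add_sum_erase _ _ (Finset.mem_univ γ)]
        exact (hg γ i).mul (IsHomogeneous.prod _ _ _ fun γ' _ => hg' γ')
      · rw [← Finset.mul_prod_erase _ _ (Finset.mem_univ γ), map_mul, mul_assoc,
          mul_comm (aeval φ (∏ _x ∈ _, _)), ← mul_assoc, heq, Finset.sum_mul]
        refine Finset.sum_congr rfl fun i _ => ?_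
        rw [map_mul]
        ring
    choose a ha ha2 using hmono
    intro h hh
    refine ⟨fun i => ∑ γ : T, C (coeff γ.1 h) * a γ i, ?_, ?_⟩
    · intro i
      refine IsHomogeneous.sum _ _ _ fun γ _ => ?_
      have := (isHomogeneous_C ι (coeff γ.1 h)).mul (ha γ i)
      rwa [zero_add] at this
    · have h1 : h = ∑ γ : T, C (coeff γ.1 h) * monomial γ.1 (1 : k) := by
        conv_lhs => rw [MvPolynomial.as_sum h]
        have h2 : h.support ⊆ T := by
          intro γ hγ
          simp only [T]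
          rw [Finset.mem_finsuppAntidiag]
          refine ⟨?_, Finset.subset_univ _⟩
          have h2 := hh (mem_support_iff.1 hγ)
          rw [← h2, Finsupp.weight_apply, Finsupp.sum_fintype _ _ (by simp)]
          simp
        rw [Finset.sum_subset h2 (by
          intro γ _ hγ
          rw [notMem_support_iff] at hγ
          rw [hγ, monomial_zero])]
        rw [← Finset.sum_coe_sort]
        refine Finset.sum_congr rfl fun γ _ => ?_
        rw [C_mul_monomial, mul_one]
      conv_lhs => rw [h1, Finset.mul_sum]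
      have h3 : ∀ γ : T, aeval φ (∏ γ, g' γ) * (C (coeff γ.1 h) * monomial γ.1 (1 : k)) =
          ∑ i, C (coeff γ.1 h) * (aeval φ (a γ i) * θ i) := by
        intro γ
        rw [← Finset.mul_sum, ← ha2]
        ring
      rw [Finset.sum_congr rfl fun γ _ => h3 γ, Finset.sum_comm]
      refine Finset.sum_congr rfl fun i _ => ?_
      rw [map_sum, Finset.sum_mul]
      refine Finset.sum_congr rfl fun γ _ => ?_
      rw [map_mul, aeval_C, ← mul_assoc]
      rfl

/-- The Hilbert function of the source is bounded by that of the image. -/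
theorem hilb_le {r : ℕ} (φ : Fin (r+1) → MvPolynomial (Fin (m+1)) k) {e c ℓ s δ : ℕ}
    (hsp : ∀ G : MvPolynomial (Fin (m+1)) k, G.IsHomogeneous (c + e * ℓ) → G ∈ prodSp φ ℓ c)
    (θ : Fin δ → MvPolynomial (Fin (m+1)) k)
    (G : MvPolynomial (Fin (r+1)) k) (hG0 : aeval φ G ≠ 0)
    (hG : ∀ h : MvPolynomial (Fin (m+1)) k, h.IsHomogeneous c →
        ∃ a : Fin δ → MvPolynomial (Fin (r+1)) k, (∀ i, (a i).IsHomogeneous s) ∧
          aeval φ G * h = ∑ i, aeval φ (a i) * θ i) :
    (m + (c + e * ℓ)).choose (c + e * ℓ) ≤ δ * Module.finrank k (imgDeg φ (ℓ + s)) := by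
  classical
  let Ψ : (Fin δ → imgDeg φ (ℓ + s)) →ₗ[k] MvPolynomial (Fin (m+1)) k :=
    ∑ i, (LinearMap.mulRight k (θ i)).comp ((Submodule.subtype _).comp (LinearMap.proj i))
  have hΨ : ∀ a, Ψ a = ∑ i, (a i : MvPolynomial (Fin (m+1)) k) * θ i := by
    intro a
    simp [Ψ, LinearMap.sum_apply]
  have h1 : ∀ y ∈ prodSp φ ℓ c, aeval φ G * y ∈ LinearMap.range Ψ := by
    intro y hy
    unfold prodSp at hy
    induction hy using Submodule.span_induction with
    | mem y hy =>
      obtain ⟨g, hg, h, hh, rfl⟩ := hy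
      obtain ⟨a, ha, ha2⟩ := hG h hh
      refine ⟨fun i => ⟨aeval φ (g * a i), ⟨g * a i, hg.mul (ha i), rfl⟩⟩, ?_⟩
      rw [hΨ]
      have h2 : aeval φ G * (aeval φ g * h) = aeval φ g * (aeval φ G * h) := by ring
      rw [h2, ha2, Finset.mul_sum]
      refine Finset.sum_congr rfl fun i _ => ?_
      simp only [map_mul]
      ring
    | zero => rw [mul_zero]; exact Submodule.zero_mem _
    | add x y _ _ hx hy => rw [mul_add]; exact Submodule.add_mem _ hx hy
    | smul c x _ hx => rw [mul_smul_comm]; exact Submodule.smul_mem _ _ hx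
  let M : homogeneousSubmodule (Fin (m+1)) k (c + e * ℓ) →ₗ[k] LinearMap.range Ψ :=
    LinearMap.codRestrict _ ((LinearMap.mulLeft k (aeval φ G)).comp (Submodule.subtype _)) (by
      intro x
      exact h1 _ (hsp _ ((mem_homogeneousSubmodule _ _).1 x.2)))
  have hM : Function.Injective M := by
    intro x y hxy
    have h2 := congrArg Subtype.val hxy
    exact Subtype.ext (mul_left_cancel₀ hG0 h2)
  have h3 := LinearMap.finrank_le_finrank_of_injective hM
  rw [finrank_homog] at h3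
  have h4 := LinearMap.finrank_range_le Ψ
  rw [Module.finrank_pi_fintype] at h4
  simp only [Finset.sum_const, Finset.card_univ, Fintype.card_fin, smul_eq_mul] at h4
  exact h3.trans h4

/-- Upper bound for the Hilbert function of the image of a hypersurface of degree `d`. -/
theorem finrank_imgDeg_le {r d : ℕ} {F : MvPolynomial (Fin (r+1)) k} (hF : F.IsHomogeneous d)
    (hF0 : F ≠ 0) (φ : Fin (r+1) → MvPolynomial (Fin (m+1)) k)
    (h0 : aeval φ F = 0) (n : ℕ) :
    Module.finrank k (imgDeg φ (n + d)) + (r + n).choose n ≤ (r + (n + d)).choose (n + d) := by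
  classical
  let L : homogeneousSubmodule (Fin (r+1)) k (n+d) →ₗ[k] MvPolynomial (Fin (m+1)) k :=
    (aeval φ).toLinearMap.comp (Submodule.subtype _)
  have h1 := LinearMap.finrank_range_add_finrank_ker L
  have h2 : LinearMap.range L = imgDeg φ (n+d) := by
    rw [LinearMap.range_comp, Submodule.range_subtype]
    rfl
  rw [h2, finrank_homog] at h1
  let M : homogeneousSubmodule (Fin (r+1)) k n →ₗ[k] homogeneousSubmodule (Fin (r+1)) k (n+d) :=
    LinearMap.codRestrict _ ((LinearMap.mulLeft k F).comp (Submodule.subtype _)) (by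
      intro x
      have h3 := hF.mul ((mem_homogeneousSubmodule n _).1 x.2)
      rw [add_comm d n] at h3
      exact h3)
  have hMc : ∀ x, ((M x : homogeneousSubmodule (Fin (r+1)) k (n+d)) : MvPolynomial (Fin (r+1)) k) =
      F * (x : MvPolynomial (Fin (r+1)) k) := fun x => rfl
  have hM : Function.Injective M := by
    intro x y hxy
    have h2 := congrArg Subtype.val hxy
    rw [hMc, hMc] at h2
    exact Subtype.ext (mul_left_cancel₀ hF0 h2)
  have hMk : LinearMap.range M ≤ LinearMap.ker L := by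
    rintro _ ⟨x, rfl⟩
    rw [LinearMap.mem_ker]
    show aeval φ ((M x : homogeneousSubmodule (Fin (r+1)) k (n+d)) :
      MvPolynomial (Fin (r+1)) k) = 0
    rw [hMc, map_mul, h0, zero_mul]
  have h3 := Submodule.finrank_mono hMk
  rw [LinearMap.finrank_range_of_inj hM, finrank_homog] at h3
  omega

theorem choose_diff_le (m n d : ℕ) :
    (m + 1 + (n + d)).choose (n + d) ≤ (m + 1 + n).choose n + d * (m + (n + d)).choose (n + d) := by
  induction d with
  | zero => simp
  | succ d ih =>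
    have h1 := choose_pascal m (n + d)
    have h2 : (m + (n + d)).choose (n + d) ≤ (m + (n + d + 1)).choose (n + d + 1) := by
      rw [Nat.choose_symm_add.symm, Nat.choose_symm_add.symm]
      apply Nat.choose_le_choose
      omega
    have h3 : m + 1 + (n + (d + 1)) = m + 1 + (n + d + 1) := by ring
    rw [h3, show n + (d + 1) = n + d + 1 by ring, h1, add_mul]
    have h4 : d * (m + (n + d)).choose (n + d) ≤ d * (m + (n + d + 1)).choose (n + d + 1) :=
      Nat.mul_le_mul_left _ h2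
    omega

/-- A dominant map `ℙ^m ⇢ X` onto a smooth cubic hypersurface given by cubic forms has a base
point. -/
theorem exists_base_point [IsAlgClosed k] [CharZero k] (hm : 2 ≤ m)
    {F : MvPolynomial (Fin (m+2)) k} (hF : F.IsHomogeneous 3)
    (hsm : ∀ w : Fin (m+2) → k, (∀ j, eval w (pderiv j F) = 0) → w = 0)
    (φ : Fin (m+2) → MvPolynomial (Fin (m+1)) k) (hφ : ∀ j, (φ j).IsHomogeneous 3)
    (h0 : aeval φ F = 0)
    (hdom : ∀ G : MvPolynomial (Fin (m+2)) k, aeval φ G = 0 → F ∣ G) :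
    ∃ p : Fin (m+1) → k, p ≠ 0 ∧ ∀ j, eval p (φ j) = 0 := by
  classical
  by_contra hcon
  have hbp : ∀ w : Fin (m+1) → k, (∀ j, eval w (φ j) = 0) → w = 0 := by
    intro w hw
    by_contra hw0
    exact hcon ⟨w, hw0, hw⟩
  have hF0 : F ≠ 0 := by
    rintro rfl
    have h1 := hsm (fun _ => 1) (by intro j; simp)
    have h2 := congrFun h1 0
    simp at h2
  obtain ⟨N, hN⟩ := decomp_family φ hφ hbp
  obtain ⟨δ, θ, hθ, hind, hmax⟩ := exists_max φ N (m+1) (by
    intro δ θ hθ hind
    have h1 := core (by omega) (d := 2) (e := 3) hF hsm φ hφ h0 hdom θ hθ hind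
    have h2 : δ * 3 ≤ m + 1 := by
      have h3 : (δ * 3) * 2 ^ m ≤ (m+1) * 2 ^ m := h1
      exact Nat.le_of_mul_le_mul_right h3 (by positivity)
    omega)
  have hδ : 3 * δ ≤ m + 1 := by
    have h1 := core (by omega) (d := 2) (e := 3) hF hsm φ hφ h0 hdom θ hθ hind
    have h3 : (δ * 3) * 2 ^ m ≤ (m+1) * 2 ^ m := h1
    have := Nat.le_of_mul_le_mul_right h3 (by positivity)
    omega
  obtain ⟨s, G, hGh, hG0, hG⟩ := exists_denom φ N θ hmax
  set ℓ := (s + m) * m with hℓ
  have hℓ3 : 3 ≤ ℓ := by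
    have h1 : 2 * 2 ≤ (s + m) * m := Nat.mul_le_mul (by omega) hm
    omega
  have h1 := hilb_le φ (ℓ := ℓ) (mem_prodSp φ hN ℓ) θ G hG0 hG
  obtain ⟨n, hn⟩ : ∃ n, ℓ + s = n + 3 := ⟨ℓ + s - 3, by omega⟩
  have h2 := finrank_imgDeg_le hF hF0 φ h0 n
  have h3 := choose_diff_le m n 3
  rw [hn] at h1
  have h4 : Module.finrank k (imgDeg φ (n + 3)) ≤ 3 * (m + (n + 3)).choose (n + 3) := by omega
  have h5 : (m + (N + 3 * ℓ)).choose (N + 3 * ℓ) ≤ (m + 1) * (m + (n+3)).choose (n+3) := by
    calc _ ≤ δ * (3 * (m + (n + 3)).choose (n + 3)) := h1.trans (Nat.mul_le_mul_left _ h4)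
      _ = (3 * δ) * (m + (n+3)).choose (n+3) := by ring
      _ ≤ _ := Nat.mul_le_mul_right _ hδ
  have h6 : (3 * ℓ) ^ m ≤ (m + 1) * (ℓ + s + m) ^ m := by
    calc (3 * ℓ) ^ m ≤ (N + 3 * ℓ) ^ m := Nat.pow_le_pow_left (by omega) _
      _ ≤ m.factorial * (m + (N + 3 * ℓ)).choose (N + 3 * ℓ) := pow_le_fact_choose m _
      _ ≤ m.factorial * ((m + 1) * (m + (n+3)).choose (n+3)) := Nat.mul_le_mul_left _ h5
      _ = (m + 1) * (m.factorial * (m + (n+3)).choose (n+3)) := by ring
      _ ≤ (m + 1) * (n + 3 + m) ^ m := Nat.mul_le_mul_left _ (fact_choose_le_pow m _)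
      _ = _ := by rw [hn]
  have h7 : ℓ + s + m = (s + m) * (m + 1) := by rw [hℓ]; ring
  have h8 : 2 * ((s + m) * (m + 1)) ≤ 3 * ℓ := by
    rw [hℓ]
    nlinarith [Nat.mul_le_mul_left (s + m) hm]
  have h9 : (2 * ((s + m) * (m + 1))) ^ m ≤ (m + 1) * ((s + m) * (m + 1)) ^ m :=
    (Nat.pow_le_pow_left h8 m).trans (by rw [← h7]; exact h6)
  rw [mul_pow] at h9
  have h10 : 0 < ((s + m) * (m + 1)) ^ m := by positivity
  have h11 := Nat.le_of_mul_le_mul_right h9 h10
  have h12 : m + 1 < 2 ^ m := by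
    clear * - hm
    induction m, hm using Nat.le_induction with
    | base => norm_num
    | succ j hj ih => rw [pow_succ]; omega
  omega

end MP2619.T
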