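import Mathlib

/-!
# Cubic forms and their polarisation
-/

set_option autoImplicit false
set_option linter.unusedSectionVars false

namespace MP2619.T

open MvPolynomial

section Tri

variable {k : Type*} [Field k] [CharZero k] {ι : Type*} [Fintype ι]

/-- The coefficients of the symmetric trilinear form of a cubic form. -/
noncomputable def tc (G : MvPolynomial ι k) (a b c : ι) : k :=
  (6 : k)⁻¹ * coeff 0 (pderiv a (pderiv b (pderiv c G)))

theorem pderiv_comm' {R σ : Type*} [CommRing R] (i j : σ) (p : MvPolynomial σ R) :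
    pderiv i (pderiv j p) = pderiv j (pderiv i p) := by
  classical
  have h : ⁅(pderiv i : Derivation R (MvPolynomial σ R) (MvPolynomial σ R)),
      (pderiv j : Derivation R (MvPolynomial σ R) (MvPolynomial σ R))⁆ = 0 := by
    apply MvPolynomial.derivation_ext
    intro l
    rw [Derivation.commutator_apply]
    simp only [pderiv_X, Derivation.zero_apply]
    rw [Pi.single_apply, Pi.single_apply]
    split_ifs <;> simp
  have h2 := DFunLike.congr_fun h p
  rw [Derivation.commutator_apply, Derivation.zero_apply, sub_eq_zero] at h2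
  exact h2

theorem tc_swap12 (G : MvPolynomial ι k) (a b c : ι) : tc G a b c = tc G b a c := by
  unfold tc; rw [pderiv_comm']

theorem tc_swap23 (G : MvPolynomial ι k) (a b c : ι) : tc G a b c = tc G a c b := by
  unfold tc; rw [pderiv_comm' b c]

variable {A : Type*} [CommRing A] [Algebra k A]

/-- The symmetric trilinear form of a cubic form. -/
noncomputable def tri (G : MvPolynomial ι k) (x y z : ι → A) : A :=
  ∑ a, ∑ b, ∑ c, algebraMap k A (tc G a b c) * (x a * y b * z c)

theorem tri_swap12 (G : MvPolynomial ι k) (x y z : ι → A) : tri G x y z = tri G y x z := by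
  unfold tri
  rw [Finset.sum_comm]
  refine Finset.sum_congr rfl fun a _ => Finset.sum_congr rfl fun b _ =>
    Finset.sum_congr rfl fun c _ => ?_
  rw [tc_swap12]
  ring

theorem tri_swap23 (G : MvPolynomial ι k) (x y z : ι → A) : tri G x y z = tri G x z y := by
  unfold tri
  refine Finset.sum_congr rfl fun a _ => ?_
  rw [Finset.sum_comm]
  refine Finset.sum_congr rfl fun b _ => Finset.sum_congr rfl fun c _ => ?_
  rw [tc_swap23]
  ring

theorem tri_swap13 (G : MvPolynomial ι k) (x y z : ι → A) : tri G x y z = tri G z y x := by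
  rw [tri_swap12, tri_swap23, tri_swap12]

theorem tri_add_right (G : MvPolynomial ι k) (x y z z' : ι → A) :
    tri G x y (z + z') = tri G x y z + tri G x y z' := by
  unfold tri
  simp only [← Finset.sum_add_distrib]
  refine Finset.sum_congr rfl fun a _ => Finset.sum_congr rfl fun b _ =>
    Finset.sum_congr rfl fun c _ => ?_
  rw [Pi.add_apply]; ring

theorem tri_smul_right (G : MvPolynomial ι k) (x y z : ι → A) (r : A) :
    tri G x y (r • z) = r * tri G x y z := by
  unfold tri
  simp only [Finset.mul_sum]
  refine Finset.sum_congr rfl fun a _ => Finset.sum_congr rfl fun b _ =>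
    Finset.sum_congr rfl fun c _ => ?_
  rw [Pi.smul_apply, smul_eq_mul]; ring

theorem tri_add_mid (G : MvPolynomial ι k) (x y y' z : ι → A) :
    tri G x (y + y') z = tri G x y z + tri G x y' z := by
  rw [tri_swap23, tri_add_right, tri_swap23, tri_swap23 G x z y']

theorem tri_smul_mid (G : MvPolynomial ι k) (x y z : ι → A) (r : A) :
    tri G x (r • y) z = r * tri G x y z := by
  rw [tri_swap23, tri_smul_right, tri_swap23]

theorem tri_add_left (G : MvPolynomial ι k) (x x' y z : ι → A) :
    tri G (x + x') y z = tri G x y z + tri G x' y z := by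
  rw [tri_swap12, tri_add_mid, tri_swap12, tri_swap12 G y x']

theorem tri_smul_left (G : MvPolynomial ι k) (x y z : ι → A) (r : A) :
    tri G (r • x) y z = r * tri G x y z := by
  rw [tri_swap12, tri_smul_mid, tri_swap12]

theorem tri_map {B : Type*} [CommRing B] [Algebra k B] (f : A →ₐ[k] B) (G : MvPolynomial ι k)
    (x y z : ι → A) : f (tri G x y z) = tri G (fun i => f (x i)) (fun i => f (y i))
      (fun i => f (z i)) := by
  unfold tri
  simp only [map_sum, map_mul, AlgHom.commutes]

theorem aeval_eq_tri {G : MvPolynomial ι k} (hG : G.IsHomogeneous 3) (x : ι → A) :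
    aeval x G = tri G x x x := by
  have h0 : ∀ a b c, algebraMap k A (coeff 0 (pderiv a (pderiv b (pderiv c G)))) =
      aeval x (pderiv a (pderiv b (pderiv c G))) := by
    intro a b c
    have h1 : (pderiv a (pderiv b (pderiv c G))).IsHomogeneous 0 := by
      have := ((hG.pderiv (i := c)).pderiv (i := b)).pderiv (i := a)
      simpa using this
    have h2 : pderiv a (pderiv b (pderiv c G)) =
        C (coeff 0 (pderiv a (pderiv b (pderiv c G)))) := by
      exact totalDegree_eq_zero_iff_eq_C.1 (Nat.le_zero.1 h1.totalDegree_le)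
    conv_rhs => rw [h2, aeval_C]
  have h1 : ∀ b c, ∑ a, x a * aeval x (pderiv a (pderiv b (pderiv c G))) =
      aeval x (pderiv b (pderiv c G)) := by
    intro b c
    have h2 : (pderiv b (pderiv c G)).IsHomogeneous 1 := by
      have := (hG.pderiv (i := c)).pderiv (i := b)
      simpa using this
    have h3 := congrArg (aeval x) h2.sum_X_mul_pderiv
    rw [map_sum, one_smul] at h3
    rw [← h3]
    exact Finset.sum_congr rfl fun a _ => by rw [map_mul, aeval_X]
  have h2 : ∀ c, ∑ b, x b * aeval x (pderiv b (pderiv c G)) =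
      2 * aeval x (pderiv c G) := by
    intro c
    have h2 : (pderiv c G).IsHomogeneous 2 := by
      have := hG.pderiv (i := c)
      simpa using this
    have h3 := congrArg (aeval x) h2.sum_X_mul_pderiv
    rw [map_sum, nsmul_eq_mul, map_mul] at h3
    rw [show (2 : A) = aeval x ((2 : ℕ) : MvPolynomial ι k) by simp, ← h3]
    exact Finset.sum_congr rfl fun a _ => by rw [map_mul, aeval_X]
  have h3 : ∑ c, x c * aeval x (pderiv c G) = 3 * aeval x G := by
    have h3 := congrArg (aeval x) hG.sum_X_mul_pderiv
    rw [map_sum, nsmul_eq_mul, map_mul] at h3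
    rw [show (3 : A) = aeval x ((3 : ℕ) : MvPolynomial ι k) by simp, ← h3]
    exact Finset.sum_congr rfl fun a _ => by rw [map_mul, aeval_X]
  have h4 : tri G x x x = algebraMap k A (6 : k)⁻¹ * (6 * aeval x G) := by
    have h5 : (6 : A) * aeval x G = ∑ c, ∑ b, ∑ a, x c * (x b * (x a *
        aeval x (pderiv a (pderiv b (pderiv c G))))) := by
      simp only [← Finset.mul_sum, h1, h2]
      have : ∀ c, x c * (2 * aeval x (pderiv c G)) = 2 * (x c * aeval x (pderiv c G)) := by
        intro c; ring
      simp only [this, ← Finset.mul_sum, h3]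
      ring
    rw [h5]
    unfold tri tc
    simp only [Finset.mul_sum]
    rw [Finset.sum_comm]
    simp only [map_mul, h0]
    rw [show (∑ y : ι, ∑ x_1 : ι, ∑ x_2 : ι, (algebraMap k A 6⁻¹ *
      aeval x (pderiv x_1 (pderiv y (pderiv x_2 G)))) * (x x_1 * x y * x x_2)) =
      ∑ x_2 : ι, ∑ y : ι, ∑ x_1 : ι, (algebraMap k A 6⁻¹ *
      aeval x (pderiv x_1 (pderiv y (pderiv x_2 G)))) * (x x_1 * x y * x x_2) by
        rw [Finset.sum_congr rfl fun y _ => Finset.sum_comm, Finset.sum_comm]]
    refine Finset.sum_congr rfl fun a _ => Finset.sum_congr rfl fun b _ =>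
      Finset.sum_congr rfl fun c _ => ?_
    ring
  rw [h4, ← mul_assoc, ← map_ofNat (algebraMap k A) 6, ← map_mul, inv_mul_cancel₀ (by norm_num),
    map_one, one_mul]

theorem aeval_add_smul {G : MvPolynomial ι k} (hG : G.IsHomogeneous 3) (x y : ι → A) (t : A) :
    aeval (x + t • y) G = aeval x G + t * (3 * tri G x x y) + t ^ 2 * (3 * tri G y y x) +
      t ^ 3 * aeval y G := by
  rw [aeval_eq_tri hG, aeval_eq_tri hG, aeval_eq_tri hG]
  simp only [tri_add_left, tri_add_mid, tri_add_right, tri_smul_left, tri_smul_mid,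
    tri_smul_right]
  rw [tri_swap23 G x y x, tri_swap12 G y x x, tri_swap23 G x y x, tri_swap12 G x y y,
    tri_swap23 G y x y]
  ring

end Tri

end MP2619.T
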