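import Pool.Agent.Lib.MP_2619d0_ag.T.V1
import Pool.Agent.Lib.MP_2619d0_ag.T.B2
import Pool.Agent.Lib.MP_2619d0_ag.TCubic

/-!
# A cubic form with algebraically independent coefficients is smooth
-/

set_option autoImplicit false

namespace MP2619.T

open MvPolynomial Pool.Agent.Lib.MP_2619d0_ag Pool.Agent.Lib.MP_2619d0_ag.T

theorem aeval_pderiv {k A : Type*} [Field k] [CharZero k] [CommRing A] [Algebra k A] {ι : Type*}
    [Fintype ι] [DecidableEq ι] {G : MvPolynomial ι k} (hG : G.IsHomogeneous 3) (x : ι → A)
    (c : ι) : aeval x (pderiv c G) = 3 * tri G x x (Pi.single c 1) := by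
  have h0 : ∀ a b c, algebraMap k A (coeff 0 (pderiv a (pderiv b (pderiv c G)))) =
      aeval x (pderiv a (pderiv b (pderiv c G))) := by
    intro a b c
    have h1 : (pderiv a (pderiv b (pderiv c G))).IsHomogeneous 0 := by
      have := ((hG.pderiv (i := c)).pderiv (i := b)).pderiv (i := a)
      simpa using this
    have h2 : pderiv a (pderiv b (pderiv c G)) =
        C (coeff 0 (pderiv a (pderiv b (pderiv c G)))) := by
      exact totalDegree_eq_zero_iff_eq_C.1 (Nat.le_zero.1 h1.totalDegree_le)
    conv_rhs => rw [h2, aeval_C]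
  have h1 : ∀ b c, ∑ a, x a * aeval x (pderiv a (pderiv b (pderiv c G))) =
      aeval x (pderiv b (pderiv c G)) := by
    intro b c
    have h2 : (pderiv b (pderiv c G)).IsHomogeneous 1 := by
      have := (hG.pderiv (i := c)).pderiv (i := b)
      simpa using this
    have h3 := congrArg (aeval x) h2.sum_X_mul_pderiv
    rw [map_sum, one_smul] at h3
    rw [← h3]
    exact Finset.sum_congr rfl fun a _ => by rw [map_mul, aeval_X]
  have h2 : ∑ b, x b * aeval x (pderiv b (pderiv c G)) = 2 * aeval x (pderiv c G) := by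
    have h2 : (pderiv c G).IsHomogeneous 2 := by
      have := hG.pderiv (i := c)
      simpa using this
    have h3 := congrArg (aeval x) h2.sum_X_mul_pderiv
    rw [map_sum, nsmul_eq_mul, map_mul] at h3
    rw [show (2 : A) = aeval x ((2 : ℕ) : MvPolynomial ι k) by simp, ← h3]
    exact Finset.sum_congr rfl fun a _ => by rw [map_mul, aeval_X]
  have h3 : tri G x x (Pi.single c 1) = algebraMap k A (6 : k)⁻¹ * (2 * aeval x (pderiv c G)) := by
    rw [← h2]
    unfold tri tc
    simp only [Finset.mul_sum]
    rw [Finset.sum_comm]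
    refine Finset.sum_congr rfl fun b _ => ?_
    rw [← h1 b c, Finset.mul_sum, Finset.mul_sum]
    refine Finset.sum_congr rfl fun a _ => ?_
    rw [Finset.sum_eq_single c]
    · rw [Pi.single_eq_same, map_mul, h0]
      ring
    · intro l _ hl
      rw [Pi.single_eq_of_ne hl]
      ring
    · intro h
      exact absurd (Finset.mem_univ _) h
  have h4 : (3 : A) * (algebraMap k A (6 : k)⁻¹ * 2) = 1 := by
    rw [← map_ofNat (algebraMap k A) 3, ← map_ofNat (algebraMap k A) 2, ← map_mul, ← map_mul,
      ← map_one (algebraMap k A)]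
    congr 1
    norm_num
  calc aeval x (pderiv c G) = (3 * (algebraMap k A (6 : k)⁻¹ * 2)) * aeval x (pderiv c G) := by
        rw [h4, one_mul]
    _ = _ := by rw [h3]; ring

theorem Dc_eq_tri {A : Type*} [CommRing A] [Algebra ℂ A] {n : ℕ} {F : MvPolynomial (Fin n) ℂ}
    (hF : F.IsHomogeneous 3) (x y : Fin n → A) :
    Dc (cm (algebraMap ℂ A) (cub F)) x y = 3 * tri F x x y := by
  have h1 := aeval_add_smul hF x y (1 : A)
  have h2 := aeval_add_smul hF x y (-1 : A)
  rw [aeval_eq_Fc hF, aeval_eq_Fc hF, aeval_eq_Fc hF] at h1 h2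
  rw [one_smul] at h1
  have h3 : x + (-1 : A) • y = (1 : A) • x + (-1 : A) • y := by rw [one_smul]
  rw [h3, Fc_line] at h2
  rw [Fc_add] at h1
  have h4 : (2 : A) * Dc (cm (algebraMap ℂ A) (cub F)) x y = 2 * (3 * tri F x x y) := by
    linear_combination h1 - h2
  have h5 : algebraMap ℂ A (1/2) * 2 = 1 := by
    rw [← map_ofNat (algebraMap ℂ A) 2, ← map_mul, ← map_one (algebraMap ℂ A)]
    congr 1
    norm_num
  calc _ = (algebraMap ℂ A (1/2) * 2) * Dc (cm (algebraMap ℂ A) (cub F)) x y := by
        rw [h5, one_mul]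
    _ = algebraMap ℂ A (1/2) * (2 * Dc (cm (algebraMap ℂ A) (cub F)) x y) := by ring
    _ = (algebraMap ℂ A (1/2) * 2) * (3 * tri F x x y) := by rw [h4]; ring
    _ = _ := by rw [h5, one_mul]

theorem smooth_of_VG {n : ℕ} {F : MvPolynomial (Fin n) ℂ} (hF : VG F) (w : Fin n → ℂ)
    (hw : ∀ j, eval w (pderiv j F) = 0) : w = 0 := by
  classical
  by_contra hw0
  obtain ⟨V, cV, hcV, hres, h2⟩ := exists_V hF
  have hD : ∀ j, Dc (cub F) w (Pi.single j 1) = 0 := by
    intro j
    have h1 := Dc_eq_tri hF.1 w (Pi.single j 1 : Fin n → ℂ)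
    have h3 := aeval_pderiv hF.1 w j
    rw [MvPolynomial.aeval_eq_eval, hw j] at h3
    rw [← h3] at h1
    exact h1
  -- normalise
  obtain ⟨i, hi, hmax⟩ : ∃ i, w i ≠ 0 ∧ ∀ j, w j / w i ∈ V := by
    have hne : ∃ i, w i ≠ 0 := by
      by_contra hcon
      push Not at hcon
      exact hw0 (funext hcon)
    obtain ⟨l, hl⟩ := hne
    obtain ⟨i, _, hi⟩ := Finset.exists_max_image Finset.univ (fun i => V.valuation (w i))
      ⟨l, Finset.mem_univ l⟩
    have hi0 : w i ≠ 0 := by
      intro h
      have h1 := hi l (Finset.mem_univ l)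
      rw [h, map_zero, le_zero_iff, map_eq_zero] at h1
      exact hl h1
    refine ⟨i, hi0, fun j => ?_⟩
    rw [← V.valuation_le_one_iff, map_div₀]
    have h2 : V.valuation (w i) ≠ 0 := by rw [Ne, map_eq_zero]; exact hi0
    exact (div_le_one₀ (zero_lt_iff.2 h2)).2 (hi j (Finset.mem_univ j))
  set x : Fin n → V := fun j => ⟨w j / w i, hmax j⟩ with hx
  have hxw : (fun j => ((x j : V) : ℂ)) = (w i)⁻¹ • w := by
    funext j
    simp only [hx, Pi.smul_apply, smul_eq_mul]
    exact div_eq_inv_mul _ _
  have hDV : Dc cV x (Pi.single i 1) = 0 := by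
    apply V.subtype_injective
    rw [map_zero, ← Dc_cm V.subtype]
    have h1 : cm V.subtype cV = cub F := by
      funext a b c
      exact hcV a b c
    have h3 : (fun j => V.subtype ((Pi.single i 1 : Fin n → V) j)) = Pi.single i (1 : ℂ) := by
      funext j
      rw [Pi.single_apply, Pi.single_apply]
      split_ifs
      · exact map_one _
      · exact map_zero _
    have h4 : (fun j => V.subtype (x j)) = (w i)⁻¹ • w := hxw
    rw [h1, h3, h4, Dc_smul_left, hD, mul_zero]
  have hDk := congrArg (IsLocalRing.residue V) hDV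
  rw [map_zero, ← Dc_cm] at hDk
  have hc : cm (IsLocalRing.residue V) cV = fun a b c => if a = b ∧ b = c then 1 else 0 := by
    funext a b c
    exact hres a b c
  have hs : (fun j => (IsLocalRing.residue V) ((Pi.single i 1 : Fin n → V) j)) =
      Pi.single i 1 := by
    funext j
    rw [Pi.single_apply, Pi.single_apply]
    split_ifs
    · exact map_one _
    · exact map_zero _
  have hxi : IsLocalRing.residue V (x i) = 1 := by
    have : x i = 1 := Subtype.ext (div_self hi)
    rw [this, map_one]
  rw [hc, hs] at hDk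
  have hval : Dc (fun a b c => if a = b ∧ b = c then (1 : IsLocalRing.ResidueField V) else 0)
      (fun j => IsLocalRing.residue V (x j)) (Pi.single i 1) = 3 := by
    unfold Dc
    have h1 : ∀ a b c, (if a = b ∧ b = c then (1 : IsLocalRing.ResidueField V) else 0) *
        ((Pi.single i 1 : Fin n → IsLocalRing.ResidueField V) a * IsLocalRing.residue V (x b) *
          IsLocalRing.residue V (x c) + IsLocalRing.residue V (x a) *
          (Pi.single i 1 : Fin n → IsLocalRing.ResidueField V) b * IsLocalRing.residue V (x c) +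
          IsLocalRing.residue V (x a) * IsLocalRing.residue V (x b) *
          (Pi.single i 1 : Fin n → IsLocalRing.ResidueField V) c) =
        if c = b then (if b = a then (if a = i then 3 else 0) else 0) else 0 := by
      intro a b c
      by_cases hcb : c = b
      · subst hcb
        by_cases hba : c = a
        · subst hba
          by_cases hai : c = i
          · subst hai
            simp [hxi]
            ring
          · simp [hai]
        · have : ¬ a = c := fun h => hba h.symm
          simp [this, hba]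
      · have : ¬ b = c := fun h => hcb h.symm
        simp [this, hcb]
    simp only [h1]
    simp
  rw [hval] at hDk
  have h3 : (3 : IsLocalRing.ResidueField V) = 1 := by
    have : (3 : IsLocalRing.ResidueField V) = 2 + 1 := by norm_num
    rw [this, h2, zero_add]
  rw [h3] at hDk
  exact one_ne_zero hDk

end MP2619.T
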