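import Pool.Agent.Lib.MP_2619d0_ag.TReduce
import Pool.Agent.Lib.MP_2619d0_ag.TSmooth
import Pool.Agent.Lib.MP_2619d0_ag.TBase
import Pool.Agent.Lib.MP_2619d0_ag.T.S1

/-!
# Conics: the last step
-/

set_option autoImplicit false

namespace MP2619.T

open MvPolynomial Pool.Agent.Lib.MP_2619d0_ag Pool.Agent.Lib.MP_2619d0_ag.T

universe u

/-- Theorem (T). -/
def StT {N : ℕ} (F : MvPolynomial (Fin (N+1)) ℂ) : Prop :=
  ∀ (L : Type u) [Field L] [Algebra ℂ L] (y x : Fin (N+1) → L), y 0 ≠ 0 → Gp F (ev y) →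
    Odd (fd (ev y)) → Fc (cL L F) x = 0 → Dc (cL L F) x y = 0 → ∃ a : L, x = a • y

/-- The span over `L` of a subspace over `ℂ`. -/
noncomputable def spanL {n : ℕ} (L : Type u) [Field L] [Algebra ℂ L]
    (W : Submodule ℂ (Fin n → ℂ)) : Submodule L (Fin n → L) :=
  Submodule.span L ((fun (x : Fin n → ℂ) i => algebraMap ℂ L (x i)) '' W)

/-- Theorem (S). -/
def StS {N : ℕ} (F : MvPolynomial (Fin (N+1)) ℂ) : Prop :=
  ∀ (L : Type u) [Field L] [Algebra ℂ L] (y w : Fin (N+1) → L) (W : Submodule ℂ (Fin (N+1) → ℂ)),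
    y 0 ≠ 0 → Gp F (ev y) → Odd (fd (ev y)) → (∀ x ∈ W, Fc (cub F) x = 0) → w ∈ spanL L W →
      Fc (cL L F) (y + w) = 0 → (y + w) 0 ≠ 0 ∧ Gp F (ev (y + w)) ∧ Odd (fd (ev (y + w)))

section ratio

variable {N : ℕ} {L : Type u} [Field L] [Algebra ℂ L]

theorem ev_apply (y : Fin (N+1) → L) (G : MvPolynomial (Fin N) ℂ) :
    ev y G = aeval (fun i : Fin N => y i.succ / y 0) G := rfl

theorem cl_ev (y : Fin (N+1) → L) (hy : y 0 ≠ 0) : cl (ev y) = (ratioField y).toSubfield := by
  apply le_antisymm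
  · unfold cl
    rw [Subfield.closure_le]
    rintro _ ⟨G, rfl⟩
    rw [ev_apply]
    have h1 : ∀ i : Fin N, y i.succ / y 0 ∈ ratioField y := fun i =>
      IntermediateField.subset_adjoin _ _ ⟨i.succ, 0, rfl⟩
    have h2 := (MvPolynomial.aeval_algebraMap_apply (A := ratioField y) L
      (fun i : Fin N => (⟨y i.succ / y 0, h1 i⟩ : ratioField y)) G)
    have h3 : (fun i : Fin N => y i.succ / y 0) = fun i => algebraMap (ratioField y) L
      (⟨y i.succ / y 0, h1 i⟩ : ratioField y) := rfl
    rw [h3]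
    change aeval ((algebraMap (ratioField y) L) ∘ fun i : Fin N =>
      (⟨y i.succ / y 0, h1 i⟩ : ratioField y)) G ∈ _
    rw [h2]
    exact (aeval (fun i : Fin N => (⟨y i.succ / y 0, h1 i⟩ : ratioField y)) G : ratioField y).2
  · have hC : ∀ c : ℂ, algebraMap ℂ L c ∈ cl (ev y) := by
      intro c
      apply Subfield.subset_closure
      exact ⟨C c, by rw [ev_apply, aeval_C]⟩
    let M : IntermediateField ℂ L := { cl (ev y) with algebraMap_mem' := hC }
    have h1 : ratioField y ≤ M := by
      unfold ratioField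
      rw [IntermediateField.adjoin_le_iff]
      have hi : ∀ i : Fin (N+1), y i / y 0 ∈ M := by
        intro i
        refine Fin.cases ?_ (fun j => ?_) i
        · rw [div_self hy]; exact one_mem _
        · exact Subfield.subset_closure ⟨X j, by rw [ev_apply, aeval_X]⟩
      rintro _ ⟨i, j, rfl⟩
      have h2 : y i / y j = (y i / y 0) / (y j / y 0) := by
        rw [div_div_div_cancel_right₀ hy]
      rw [h2]
      exact div_mem (hi i) (hi j)
    exact h1

theorem fd_ev (y : Fin (N+1) → L) (hy : y 0 ≠ 0) :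
    fd (ev y) = Module.finrank (ratioField y) L := by
  unfold fd
  rw [cl_ev y hy]
  rfl

theorem Gp_ev {F : MvPolynomial (Fin (N+1)) ℂ} (hF : F.IsHomogeneous 3)
    (y : Fin (N+1) → L) (hy : y 0 ≠ 0)
    (hpt : ∀ (d : ℕ) (G : MvPolynomial (Fin (N+1)) ℂ), G.IsHomogeneous d →
        (aeval y G = 0 ↔ F ∣ G)) : Gp F (ev y) := by
  intro g
  rw [ev_apply]
  constructor
  · intro hg
    have h1 : aeval y (homog g) = 0 := by
      rw [aeval_eq_dh y hy (homog_homogeneous g), dh_homog, hg, mul_zero]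
    obtain ⟨H, hH⟩ := (hpt _ _ (homog_homogeneous g)).mp h1
    refine ⟨dh ℂ N H, ?_⟩
    rw [← map_mul, ← hH, dh_homog]
  · rintro ⟨h, rfl⟩
    have h1 := (hpt 3 F hF).mpr (dvd_refl F)
    rw [aeval_eq_dh y hy hF] at h1
    have h2 := (mul_eq_zero.mp h1).resolve_left (pow_ne_zero _ hy)
    rw [map_mul, h2, zero_mul]

theorem cc_ev (F : MvPolynomial (Fin (N+1)) ℂ) (y : Fin (N+1) → L) :
    cc F (ev y) = cL L F := by
  unfold cc cL
  congr 1
  ext c
  exact aeval_C _ _

theorem yh_ev (y : Fin (N+1) → L) (hy : y 0 ≠ 0) : yh (ev y) = (y 0)⁻¹ • y := by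
  funext i
  refine Fin.cases ?_ (fun j => ?_) i
  · simp [yh, inv_mul_cancel₀ hy]
  · simp only [yh, Fin.cons_succ, Pi.smul_apply, smul_eq_mul]
    rw [ev_apply, aeval_X]
    exact div_eq_inv_mul _ _

theorem Fc_zero {F : MvPolynomial (Fin (N+1)) ℂ} (hF : F.IsHomogeneous 3)
    (y : Fin (N+1) → L) (hy : y 0 ≠ 0) (hG : Gp F (ev y)) : Fc (cL L F) y = 0 := by
  have h1 := (hG (dh ℂ N F)).2 dvd_rfl
  rw [chi_dh hF, cc_ev, yh_ev y hy, Fc_smul] at h1
  exact (mul_eq_zero.1 h1).resolve_left (pow_ne_zero _ (inv_ne_zero hy))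

theorem star_ev (hN : 2 ≤ N) {F : MvPolynomial (Fin (N+1)) ℂ} (hF : VG F)
    (y : Fin (N+1) → L) (hy : y 0 ≠ 0) (hG : Gp F (ev y)) (hodd : Odd (fd (ev y)))
    (v : Fin (N+1) → L) (h1 : Dc (cL L F) y v = 0) (h2 : Dc (cL L F) v y = 0) :
    ∃ a : L, v = a • y := by
  have h3 := starOdd hN hF (ev y) hG hodd v (by
    rw [cc_ev, yh_ev y hy, Dc_smul_left, h1, mul_zero]) (by
    rw [cc_ev, yh_ev y hy, Dc_smul_right, h2, mul_zero])
  rw [yh_ev y hy, smul_smul] at h3
  exact ⟨_, h3⟩

end ratio

section line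

set_option linter.unusedSectionVars false

variable {N : ℕ} {E L : Type} [Field E] [Field L] [Algebra ℂ E] [Algebra ℂ L] [Algebra E L]
  [IsScalarTower ℂ E L]

theorem cL_eq (F : MvPolynomial (Fin (N+1)) ℂ) : cL L F = cm (algebraMap E L) (cL E F) := by
  unfold cL
  rw [cm_comp, ← IsScalarTower.algebraMap_eq]

/-- If the point is defined over `E` the extension is not finite. -/
theorem not_odd_of_E (t : L) (ht : Transcendental E t) (y : Fin (N+1) → L) (hy : y 0 ≠ 0)
    (e : Fin (N+1) → E) (μ : L) (hμ : y = μ • (fun i => algebraMap E L (e i))) :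
    ¬ Odd (fd (ev y)) := by
  intro hodd
  have hcl : cl (ev y) ≤ (algebraMap E L).fieldRange := by
    unfold cl
    rw [Subfield.closure_le]
    rintro _ ⟨G, rfl⟩
    refine ⟨aeval (fun i : Fin N => e i.succ / e 0) G, ?_⟩
    rw [ev_apply]
    have h1 : (fun i : Fin N => y i.succ / y 0) = fun i => algebraMap E L (e i.succ / e 0) := by
      funext i
      have hμ0 : μ ≠ 0 := by
        rintro rfl
        rw [zero_smul] at hμ
        exact hy (by rw [hμ]; rfl)
      rw [hμ, map_div₀]
      simp only [Pi.smul_apply, smul_eq_mul]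
      rw [mul_div_mul_left _ _ hμ0]
    rw [h1]
    exact (MvPolynomial.aeval_algebraMap_apply L (fun i : Fin N => e i.succ / e 0) G).symm
  have hfin : Module.finrank (cl (ev y)) L ≠ 0 := by
    intro h
    have : Odd (0 : ℕ) := by
      have h2 : fd (ev y) = 0 := h
      rwa [h2] at hodd
    exact (Nat.not_odd_iff_even.2 (by simp)) this
  have hfd : FiniteDimensional (cl (ev y)) L := FiniteDimensional.of_finrank_pos (by omega)
  obtain ⟨p, hp0, hp⟩ := (Algebra.IsAlgebraic.of_finite (cl (ev y)) L).isAlgebraic t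
  have hlift : ∀ x : cl (ev y), ∃ e : E, algebraMap E L e = x := fun x => hcl x.2
  choose g hg using hlift
  apply ht
  have hq : ∃ q : Polynomial E, q.map (algebraMap E L) = p.map (algebraMap (cl (ev y)) L) := by
    have h1 : p.map (algebraMap (cl (ev y)) L) ∈ Polynomial.lifts (algebraMap E L) := by
      rw [Polynomial.lifts_iff_coeff_lifts]
      intro n
      rw [Polynomial.coeff_map]
      exact ⟨g (p.coeff n), hg _⟩
    exact (Polynomial.mem_lifts _).1 h1
  obtain ⟨q, hq⟩ := hq
  refine ⟨q, ?_, ?_⟩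
  · rintro rfl
    rw [Polynomial.map_zero] at hq
    exact hp0 ((Polynomial.map_eq_zero (algebraMap (cl (ev y)) L)).1 hq.symm)
  · rw [Polynomial.aeval_def, ← Polynomial.eval_map, hq, Polynomial.eval_map,
      ← Polynomial.aeval_def, hp]

theorem coeffs_zero (t : L) (ht : Transcendental E t) (P : Polynomial E)
    (hP : Polynomial.aeval t P = 0) : P = 0 := by
  by_contra h
  exact ht ⟨P, h, hP⟩

/-- Families of lines. -/
theorem line_not_odd (hN : 2 ≤ N) {F : MvPolynomial (Fin (N+1)) ℂ} (hF : VG F)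
    (t : L) (ht : Transcendental E t) (a b : Fin (N+1) → E) (y : Fin (N+1) → L)
    (hy : y = (fun i => algebraMap E L (a i)) + t • (fun i => algebraMap E L (b i)))
    (hy0 : y 0 ≠ 0) (hG : Gp F (ev y)) : ¬ Odd (fd (ev y)) := by
  intro hodd
  have hF0 := Fc_zero hF.1 y hy0 hG
  set a' : Fin (N+1) → L := fun i => algebraMap E L (a i) with ha'
  set b' : Fin (N+1) → L := fun i => algebraMap E L (b i) with hb'
  have e1 : Fc (cL L F) a' = algebraMap E L (Fc (cL E F) a) := by
    rw [cL_eq (E := E) (L := L)]; exact Fc_cm _ _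
  have e2 : Fc (cL L F) b' = algebraMap E L (Fc (cL E F) b) := by
    rw [cL_eq (E := E) (L := L)]; exact Fc_cm _ _
  have e3 : Dc (cL L F) a' b' = algebraMap E L (Dc (cL E F) a b) := by
    rw [cL_eq (E := E) (L := L)]; exact Dc_cm _ _ _
  have e4 : Dc (cL L F) b' a' = algebraMap E L (Dc (cL E F) b a) := by
    rw [cL_eq (E := E) (L := L)]; exact Dc_cm _ _ _
  have hP := coeffs_zero t ht
    (Polynomial.C (Fc (cL E F) a) + Polynomial.C (Dc (cL E F) a b) * Polynomial.X +
      Polynomial.C (Dc (cL E F) b a) * Polynomial.X ^ 2 +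
      Polynomial.C (Fc (cL E F) b) * Polynomial.X ^ 3) (by
    simp only [map_add, map_mul, map_pow, Polynomial.aeval_C, Polynomial.aeval_X]
    rw [← e1, ← e2, ← e3, ← e4]
    have h1 := hF0
    rw [hy] at h1
    have h2 : a' + t • b' = (1 : L) • a' + t • b' := by rw [one_smul]
    rw [h2, Fc_line] at h1
    linear_combination h1)
  have c1 : Dc (cL E F) a b = 0 := by
    have := congrArg (fun p => Polynomial.coeff p 1) hP
    simpa [Polynomial.coeff_X, Polynomial.coeff_C] using this
  have c2 : Dc (cL E F) b a = 0 := by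
    have := congrArg (fun p => Polynomial.coeff p 2) hP
    simpa [Polynomial.coeff_X, Polynomial.coeff_C, Polynomial.coeff_X_pow] using this
  have c3 : Fc (cL E F) b = 0 := by
    have := congrArg (fun p => Polynomial.coeff p 3) hP
    simpa [Polynomial.coeff_X, Polynomial.coeff_C, Polynomial.coeff_X_pow] using this
  rw [c1, map_zero] at e3
  rw [c2, map_zero] at e4
  rw [c3, map_zero] at e2
  obtain ⟨l, hl⟩ := star_ev hN hF y hy0 hG hodd b' (by
    rw [hy, Dc_add_left, e3, Dc_smul_left, Dc_self, e2, Tc_comm, Tc_smul_left, Tc_comm', Tc_self, e4]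
    ring) (by
    rw [hy, Dc_add_right, e4, Dc_smul_right, Dc_self, e2]
    ring)
  by_cases hl0 : l = 0
  · rw [hl0, zero_smul] at hl
    rw [hl, smul_zero, add_zero] at hy
    exact not_odd_of_E t ht y hy0 a 1 (by rw [one_smul, hy]) hodd
  · exact not_odd_of_E t ht y hy0 b l⁻¹ (by
      change y = l⁻¹ • b'
      rw [hl, smul_smul, inv_mul_cancel₀ hl0, one_smul]) hodd

end line

section span

theorem Fc_span {N : ℕ} {F : MvPolynomial (Fin (N+1)) ℂ} (hF : F.IsHomogeneous 3)
    {L : Type u} [Field L] [Algebra ℂ L] (W : Submodule ℂ (Fin (N+1) → ℂ))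
    (hW : ∀ x ∈ W, Fc (cub F) x = 0) (w : Fin (N+1) → L) (hw : w ∈ spanL L W) :
    Fc (cL L F) w = 0 := by
  classical
  unfold spanL at hw
  rw [Submodule.mem_span_iff_exists_finset_subset] at hw
  obtain ⟨f, T, hT, _, hw⟩ := hw
  have hT' : ∀ a ∈ T, ∃ x : Fin (N+1) → ℂ, x ∈ W ∧ (fun i => algebraMap ℂ L (x i)) = a := by
    intro a ha
    obtain ⟨x, hx, hxa⟩ := hT ha
    exact ⟨x, hx, hxa⟩
  choose! g hg using hT'
  -- a polynomial vanishing on all complex points
  let P : MvPolynomial T ℂ := aeval (fun i : Fin (N+1) => ∑ k : T, C (g k.1 i) * X k) F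
  have hP : P = 0 := by
    apply MvPolynomial.funext
    intro l
    rw [map_zero]
    have h1 := MvPolynomial.comp_aeval_apply (fun i : Fin (N+1) => ∑ k : T, C (g k.1 i) * X k)
      (aeval l : MvPolynomial T ℂ →ₐ[ℂ] ℂ) F
    rw [← MvPolynomial.aeval_eq_eval]
    change aeval l (aeval _ F) = 0
    rw [h1]
    have h2 : (fun i : Fin (N+1) => aeval l (∑ k : T, C (g k.1 i) * X k : MvPolynomial T ℂ)) =
        ∑ k : T, l k • g k.1 := by
      funext i
      rw [map_sum, Finset.sum_apply]
      refine Finset.sum_congr rfl fun k _ => ?_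
      rw [map_mul, aeval_C, aeval_X, Pi.smul_apply, smul_eq_mul, mul_comm]
      rfl
    rw [h2, aeval_eq_Fc hF]
    exact hW _ (Submodule.sum_mem _ fun k _ => Submodule.smul_mem _ _ (hg k.1 k.2).1)
  have h1 := MvPolynomial.comp_aeval_apply (fun i : Fin (N+1) => ∑ k : T, C (g k.1 i) * X k)
      (aeval (fun k : T => f k.1) : MvPolynomial T ℂ →ₐ[ℂ] L) F
  have h2 : (fun i : Fin (N+1) => aeval (fun k : T => f k.1)
      (∑ k : T, C (g k.1 i) * X k : MvPolynomial T ℂ)) = w := by
    rw [← hw, ← Finset.sum_coe_sort]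
    funext i
    rw [map_sum, Finset.sum_apply]
    refine Finset.sum_congr rfl fun k _ => ?_
    rw [map_mul, aeval_C, aeval_X, Pi.smul_apply, smul_eq_mul, mul_comm]
    congr 1
    exact congrFun (hg k.1 k.2).2 i
  change aeval (fun k : T => f k.1) P = _ at h1
  rw [hP, map_zero, h2, aeval_eq_Fc hF] at h1
  exact h1.symm

theorem F_ne_zero {N : ℕ} {F : MvPolynomial (Fin (N+1)) ℂ} (hF : VG F) : F ≠ 0 := by
  rintro rfl
  have h1 : (Finsupp.single (0 : Fin (N+1)) 3).degree = 3 := Finsupp.degree_single _ _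
  have h2 := hF.2.ne_zero ⟨_, h1⟩
  simp at h2

theorem not_mem_span {N : ℕ} {F : MvPolynomial (Fin (N+1)) ℂ} (hF : VG F)
    {L : Type u} [Field L] [Algebra ℂ L] (W : Submodule ℂ (Fin (N+1) → ℂ))
    (hW : ∀ x ∈ W, Fc (cub F) x = 0) (y : Fin (N+1) → L)
    (hpt : ∀ (d : ℕ) (G : MvPolynomial (Fin (N+1)) ℂ), G.IsHomogeneous d →
        (aeval y G = 0 ↔ F ∣ G)) : y ∉ spanL L W := by
  classical
  intro hy
  have hWt : W ≠ ⊤ := by
    rintro rfl
    apply F_ne_zero hF
    apply MvPolynomial.funext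
    intro x
    rw [map_zero, ← MvPolynomial.aeval_eq_eval, aeval_eq_Fc hF.1]
    exact hW x trivial
  obtain ⟨x0, hx0⟩ : ∃ x0, x0 ∉ W := by
    by_contra hcon
    push Not at hcon
    exact hWt (eq_top_iff.2 fun x _ => hcon x)
  obtain ⟨ℓ, hℓ, hℓW⟩ := Submodule.exists_le_ker_of_notMem hx0
  let G : MvPolynomial (Fin (N+1)) ℂ := ∑ i, C (ℓ (Pi.single i 1)) * X i
  have hGh : G.IsHomogeneous 1 := by
    refine IsHomogeneous.sum _ _ _ fun i _ => ?_
    have := (isHomogeneous_C (Fin (N+1)) (ℓ (Pi.single i 1))).mul (isHomogeneous_X ℂ i)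
    rwa [zero_add] at this
  have hGx : ∀ x : Fin (N+1) → ℂ, eval x G = ℓ x := by
    intro x
    simp only [G, map_sum, map_mul, eval_C, eval_X]
    rw [LinearMap.pi_apply_eq_sum_univ ℓ x]
    refine Finset.sum_congr rfl fun i _ => ?_
    rw [mul_comm, smul_eq_mul]
    congr 2
    funext j
    rw [Pi.single_apply]
    simp only [eq_comm]
  have hGy : aeval y G = 0 := by
    have h1 : ∀ v ∈ spanL L W, aeval v G = 0 := by
      intro v hv
      unfold spanL at hv
      have hadd : ∀ v : Fin (N+1) → L, aeval v G = ∑ i, algebraMap ℂ L (ℓ (Pi.single i 1)) * v i := by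
        intro v
        simp only [G, map_sum, map_mul, aeval_C, aeval_X]
      induction hv using Submodule.span_induction with
      | mem v hv =>
        obtain ⟨x, hx, rfl⟩ := hv
        have h2 := MvPolynomial.comp_aeval_apply x (Algebra.ofId ℂ L) G
        rw [MvPolynomial.aeval_eq_eval, hGx, LinearMap.mem_ker.1 (hℓW hx), map_zero] at h2
        exact h2.symm
      | zero => rw [hadd]; simp
      | add u v _ _ hu hv =>
        rw [hadd] at hu hv ⊢
        simp only [Pi.add_apply, mul_add, Finset.sum_add_distrib]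
        rw [hu, hv, add_zero]
      | smul c v _ hv =>
        rw [hadd] at hv ⊢
        simp only [Pi.smul_apply, smul_eq_mul]
        have : ∀ i, algebraMap ℂ L (ℓ (Pi.single i 1)) * (c * v i) =
          c * (algebraMap ℂ L (ℓ (Pi.single i 1)) * v i) := fun i => by ring
        simp only [this, ← Finset.mul_sum]
        rw [hv, mul_zero]
    exact h1 y hy
  have h2 := (hpt 1 G hGh).1 hGy
  have h3 := MP2619.Q.eq_zero_of_dvd_of_lt hF.1 hGh (by norm_num) h2
  have h4 := hGx x0
  rw [h3, map_zero] at h4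
  exact hℓ h4.symm

end span

section core

theorem ev_smul {N : ℕ} {L : Type u} [Field L] [Algebra ℂ L] (μ : L) (hμ : μ ≠ 0)
    (y : Fin (N+1) → L) : ev (μ • y) = ev y := by
  unfold ev
  congr 2
  funext i
  simp only [Pi.smul_apply, smul_eq_mul]
  rw [mul_div_mul_left _ _ hμ]

/-- The degree of a family of conics is even. -/
theorem core_of_TS {m : ℕ} (hm : 3 ≤ m) {F : MvPolynomial (Fin (m+2)) ℂ} (hF : VG F)
    (hT : StT.{0} (N := m+1) F) (hS : StS.{0} (N := m+1) F)
    (E L : Type) [Field E] [Field L] [Algebra ℂ E] [Algebra ℂ L] [Algebra E L]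
      [IsScalarTower ℂ E L] (t : L) (W : Submodule ℂ (Fin (m+2) → ℂ)) (w q c : Fin (m+2) → E)
      (ht : Transcendental E t) (hW : ∀ x ∈ W, eval x F = 0)
      (hw : w ∈ Submodule.span E ((fun (x : Fin (m+2) → ℂ) i => algebraMap ℂ E (x i)) '' W))
      (hpt : ∀ (d : ℕ) (G : MvPolynomial (Fin (m+2)) ℂ), G.IsHomogeneous d →
        (aeval (fun i => algebraMap E L (w i) + algebraMap E L (q i) * t +
          algebraMap E L (c i) * t ^ 2) G = 0 ↔ F ∣ G)) :
      Even (Module.finrank (ratioField (fun i => algebraMap E L (w i) + algebraMap E L (q i) * t +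
          algebraMap E L (c i) * t ^ 2)) L) := by
  by_contra hcon
  rw [Nat.not_even_iff_odd] at hcon
  have hW' : ∀ x ∈ W, Fc (cub F) x = 0 := by
    intro x hx
    have h1 := hW x hx
    rw [← MvPolynomial.aeval_eq_eval, aeval_eq_Fc hF.1] at h1
    exact h1
  set w' : Fin (m+1+1) → L := fun i => algebraMap E L (w i) with hw'
  set q' : Fin (m+1+1) → L := fun i => algebraMap E L (q i) with hq'
  set c' : Fin (m+1+1) → L := fun i => algebraMap E L (c i) with hc'
  obtain ⟨z, hzdef⟩ : ∃ z : Fin (m+1+1) → L, z = fun i => algebraMap E L (w i) +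
    algebraMap E L (q i) * t + algebraMap E L (c i) * t ^ 2 := ⟨_, rfl⟩
  rw [← hzdef] at hpt hcon
  have hz : z = w' + (t • q' + t ^ 2 • c') := by
    rw [hzdef]
    funext i
    simp only [Pi.add_apply, Pi.smul_apply, smul_eq_mul, hw', hq', hc']
    ring
  have ht0 : t ≠ 0 := by
    rintro rfl
    exact ht isAlgebraic_zero
  have hz0 : z 0 ≠ 0 := by
    intro h0
    have h1 := (hpt 1 (X 0) (isHomogeneous_X _ _)).1 (by rw [aeval_X, h0])
    have h2 := MP2619.Q.eq_zero_of_dvd_of_lt hF.1 (isHomogeneous_X ℂ (0 : Fin (m+2)))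
      (by norm_num) h1
    exact X_ne_zero _ h2
  have hG : Gp F (ev z) := Gp_ev (N := m+1) hF.1 z hz0 hpt
  have hodd : Odd (fd (ev z)) := by rw [fd_ev (N := m+1) z hz0]; exact hcon
  have hwL : w' ∈ spanL L W := by
    unfold spanL
    have h1 : ∀ v ∈ Submodule.span E ((fun (x : Fin (m+2) → ℂ) i => algebraMap ℂ E (x i)) '' W),
        (fun i => algebraMap E L (v i)) ∈ Submodule.span L
          ((fun (x : Fin (m+2) → ℂ) i => algebraMap ℂ L (x i)) '' W) := by
      intro v hv
      induction hv using Submodule.span_induction with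
      | mem v hv =>
        obtain ⟨x, hx, rfl⟩ := hv
        refine Submodule.subset_span ⟨x, hx, ?_⟩
        funext i
        exact IsScalarTower.algebraMap_apply ℂ E L (x i)
      | zero =>
        have : (fun i : Fin (m+2) => algebraMap E L ((0 : Fin (m+2) → E) i)) = 0 := by
          funext i; exact map_zero _
        rw [this]; exact Submodule.zero_mem _
      | add u v _ _ hu hv =>
        have : (fun i : Fin (m+2) => algebraMap E L ((u + v) i)) =
            (fun i => algebraMap E L (u i)) + fun i => algebraMap E L (v i) := by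
          funext i; exact map_add _ _ _
        rw [this]; exact Submodule.add_mem _ hu hv
      | smul a v _ hv =>
        have : (fun i : Fin (m+2) => algebraMap E L ((a • v) i)) =
            algebraMap E L a • fun i => algebraMap E L (v i) := by
          funext i; exact map_mul _ _ _
        rw [this]; exact Submodule.smul_mem _ _ hv
    exact h1 w hw
  have hFw : Fc (cL L F) w' = 0 := Fc_span (N := m+1) hF.1 W hW' w' hwL
  have hFz : Fc (cL L F) z = 0 := Fc_zero (N := m+1) hF.1 z hz0 hG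
  have hzW : z ∉ spanL L W := not_mem_span (N := m+1) hF W hW' z hpt
  by_cases hw0 : w' = 0
  · -- lines
    have hz1 : z = t • (q' + t • c') := by
      rw [hz, hw0, zero_add, smul_add, smul_smul]
      ring_nf
    have h1 : (q' + t • c') 0 ≠ 0 := by
      intro h
      apply hz0
      rw [hz1, Pi.smul_apply, h, smul_zero]
    rw [hz1, ev_smul t ht0] at hG hodd
    exact line_not_odd (N := m+1) (by omega) hF t ht q c _ rfl h1 hG hodd
  · -- conics
    have hB : Dc (cL L F) w' z ≠ 0 := by
      intro h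
      obtain ⟨a, ha⟩ := hT L z w' hz0 hG hodd hFw h
      have ha0 : a ≠ 0 := by
        rintro rfl
        rw [zero_smul] at ha
        exact hw0 ha
      apply hzW
      have : z = a⁻¹ • w' := by rw [ha, smul_smul, inv_mul_cancel₀ ha0, one_smul]
      rw [this]
      exact Submodule.smul_mem _ _ hwL
    -- identities
    have cE : cL L F = cm (algebraMap E L) (cL E F) := cL_eq (N := m+1) F
    have eF : ∀ x : Fin (m+1+1) → E, Fc (cL L F) (fun i => algebraMap E L (x i)) =
        algebraMap E L (Fc (cL E F) x) := fun x => by rw [cE]; exact Fc_cm _ _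
    have eD : ∀ x y : Fin (m+1+1) → E, Dc (cL L F) (fun i => algebraMap E L (x i))
        (fun i => algebraMap E L (y i)) = algebraMap E L (Dc (cL E F) x y) := fun x y => by
      rw [cE]; exact Dc_cm _ _ _
    have eT : ∀ x y v : Fin (m+1+1) → E, Tc (cL L F) (fun i => algebraMap E L (x i))
        (fun i => algebraMap E L (y i)) (fun i => algebraMap E L (v i)) =
        algebraMap E L (Tc (cL E F) x y v) := fun x y v => by
      rw [cE]; exact Tc_cm _ _ _ _
    have hTt : Tc (cL L F) (t • q') (t ^ 2 • c') w' = t ^ 3 * Tc (cL L F) w' q' c' := by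
      rw [Tc_smul_left, Tc_comm, Tc_smul_left, Tc_comm, Tc_comm', Tc_comm]
      ring
    have hP := coeffs_zero t ht
      (Polynomial.C (Fc (cL E F) w) + Polynomial.C (Dc (cL E F) w q) * Polynomial.X +
        Polynomial.C (Dc (cL E F) w c + Dc (cL E F) q w) * Polynomial.X ^ 2 +
        Polynomial.C (Fc (cL E F) q + Tc (cL E F) w q c) * Polynomial.X ^ 3 +
        Polynomial.C (Dc (cL E F) q c + Dc (cL E F) c w) * Polynomial.X ^ 4 +
        Polynomial.C (Dc (cL E F) c q) * Polynomial.X ^ 5 +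
        Polynomial.C (Fc (cL E F) c) * Polynomial.X ^ 6) (by
      simp only [map_add, map_mul, map_pow, Polynomial.aeval_C, Polynomial.aeval_X]
      rw [← eF, ← eF, ← eF, ← eD, ← eD, ← eD, ← eD, ← eD, ← eD, ← eT]
      have h1 := hFz
      rw [hz, Fc_add, Dc_add_right, Dc_smul_right, Dc_smul_right, Dc_add_left, Dc_smul_left,
        Dc_smul_left, Fc_line, hTt] at h1
      linear_combination h1)
    have c1 : Dc (cL E F) w q = 0 := by
      have := congrArg (fun p => Polynomial.coeff p 1) hP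
      simp only [Polynomial.coeff_add, Polynomial.coeff_C_mul, Polynomial.coeff_X_pow,
        Polynomial.coeff_X, Polynomial.coeff_C, Polynomial.coeff_zero] at this
      norm_num at this
      exact this
    have c2 : Dc (cL E F) w c + Dc (cL E F) q w = 0 := by
      have := congrArg (fun p => Polynomial.coeff p 2) hP
      simp only [Polynomial.coeff_add, Polynomial.coeff_C_mul, Polynomial.coeff_X_pow,
        Polynomial.coeff_X, Polynomial.coeff_C, Polynomial.coeff_zero] at this
      norm_num at this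
      exact this
    -- the third point
    set γ := Dc (cL E F) w c with hγ
    set τ := Tc (cL E F) w q c with hτ
    set κ := Dc (cL E F) c w with hκ
    have hBval : Dc (cL L F) w' z = t ^ 2 * algebraMap E L γ := by
      rw [hz, Dc_add_right, Dc_add_right, Dc_self, hFw, Dc_smul_right, Dc_smul_right, hw', hq', hc',
        eD, eD, c1, map_zero]
      ring
    have hAval : Dc (cL L F) z w' = t ^ 2 * (algebraMap E L γ + t * algebraMap E L τ +
        t ^ 2 * algebraMap E L κ) := by
      have h2 : algebraMap E L (Dc (cL E F) q w) = - algebraMap E L γ := by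
        rw [← map_neg]
        congr 1
        linear_combination c2
      rw [hz, Dc_add_left, Dc_self, hFw, Tc_comm', Tc_self, Dc_add_right, Dc_smul_right,
        Dc_smul_right, Dc_add_left, Dc_smul_left, Dc_smul_left, hTt, hw', hq', hc', eD, eD, eD, eD,
        eT, c1, map_zero, h2]
      ring
    have hγ0 : algebraMap E L γ ≠ 0 := by
      intro h
      rw [hBval, h, mul_zero] at hB
      exact hB rfl
    set B := Dc (cL L F) w' z with hBdef
    set A := Dc (cL L F) z w' with hAdef
    have hFzz : Fc (cL L F) (z + (-(A / B)) • w') = 0 := by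
      have h1 : z + (-(A / B)) • w' = (1 : L) • z + (-(A / B)) • w' := by rw [one_smul]
      rw [h1, Fc_line, hFz, hFw, ← hBdef, ← hAdef]
      field_simp
      ring
    obtain ⟨k0, kG, kodd⟩ := hS L z ((-(A / B)) • w') W hz0 hG hodd hW'
      (Submodule.smul_mem _ _ hwL) hFzz
    have hzz : z + (-(A / B)) • w' = (t ^ 3 / B) • ((fun i => algebraMap E L (γ * q i - τ * w i)) +
        t • (fun i => algebraMap E L (γ * c i - κ * w i))) := by
      have h1 : B • (z + (-(A / B)) • w') = t ^ 3 • ((fun i => algebraMap E L (γ * q i - τ * w i)) +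
        t • (fun i => algebraMap E L (γ * c i - κ * w i))) := by
        rw [smul_add, smul_smul]
        have h2 : B * -(A / B) = - A := by field_simp
        rw [h2, hBval, hAval]
        funext i
        simp only [Pi.add_apply, Pi.smul_apply, smul_eq_mul, hz, hw', hq', hc', map_sub, map_mul]
        ring
      rw [show t ^ 3 / B = B⁻¹ * t ^ 3 from div_eq_inv_mul _ _, mul_smul, ← h1, smul_smul,
        inv_mul_cancel₀ hB, one_smul]
    have hμ : t ^ 3 / B ≠ 0 := div_ne_zero (pow_ne_zero _ ht0) hB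
    rw [hzz] at k0
    rw [hzz, ev_smul _ hμ] at kG kodd
    have k0' : ((fun i => algebraMap E L (γ * q i - τ * w i)) +
        t • (fun i => algebraMap E L (γ * c i - κ * w i)) : Fin (m+1+1) → L) 0 ≠ 0 := by
      intro h
      apply k0
      rw [Pi.smul_apply, h, smul_zero]
    exact line_not_odd (N := m+1) (by omega) hF t ht _ _ _ rfl k0' kG kodd

/-- Dominant maps `ℙ^m ⇢ X` given by forms of degree at most three have even degree. -/
theorem cubic_even {m : ℕ} (hm : 3 ≤ m) {F : MvPolynomial (Fin (m+2)) ℂ} (hF : VG F)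
    (hT : StT.{0} (N := m+1) F) (hS : StS.{0} (N := m+1) F) {e : ℕ} (he : e ≤ 3)
    (φ : Fin (m+2) → MvPolynomial (Fin (m+1)) ℂ) (hφ : ∀ j, (φ j).IsHomogeneous e)
    (hdom : ∀ G : MvPolynomial (Fin (m+2)) ℂ, aeval φ G = 0 ↔ F ∣ G) :
    Even (MP2619.Q.mapDegree φ) := by
  have hsm : ∀ w : Fin (m+2) → ℂ, (∀ j, eval w (pderiv j F) = 0) → w = 0 :=
    fun w hw => smooth_of_VG hF w hw
  by_cases he3 : e = 3
  · subst he3
    refine even_of_core (by omega) hF.1 φ hφ hdom ?_ ?_
    · exact exists_base_point (by omega) hF.1 hsm φ hφ ((hdom F).2 dvd_rfl)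
        (fun G hG => (hdom G).1 hG)
    · intro E L _ _ _ _ _ _ t W w q c ht _ _ hW hw hpt
      exact core_of_TS hm hF hT hS E L t W w q c ht hW hw hpt
  · exfalso
    obtain ⟨h1, h2⟩ := MP2619.Q.main (by omega) (d := 2) (e := e) (by omega) hF.1 hsm φ hφ
      ((hdom F).2 dvd_rfl) (fun G hG => (hdom G).1 hG)
    have h3 : (e - 1) ^ m ≤ 1 := by
      calc (e - 1) ^ m ≤ 1 ^ m := Nat.pow_le_pow_left (by omega) m
        _ = 1 := one_pow m
    have h4 : MP2619.Q.mapDegree φ * (2 + 1) * 2 ^ m ≤ m + 1 := by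
      calc _ ≤ (m + 1) * (e - 1) ^ m := h2
        _ ≤ (m + 1) * 1 := Nat.mul_le_mul_left _ h3
        _ = m + 1 := mul_one _
    have h5 : 2 ^ m ≤ MP2619.Q.mapDegree φ * (2 + 1) * 2 ^ m :=
      Nat.le_mul_of_pos_left _ (by positivity)
    have h6 : m + 1 < 2 ^ m := by
      clear * - hm
      induction m, hm using Nat.le_induction with
      | base => norm_num
      | succ j hj ih => rw [pow_succ]; omega
    omega

end core

end MP2619.T
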