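import Pool.Agent.Lib.MP_2619d0_ag.QField
import Pool.Agent.Lib.MP_2619d0_ag.TCubic

/-!
# Projection from a base point
-/

set_option autoImplicit false
set_option linter.unusedSectionVars false

namespace MP2619.T

open MvPolynomial MP2619.Q

variable {m : ℕ}

/-- The subfield generated by the ratios of coordinates. -/
noncomputable def ratioField {n : ℕ} {L : Type*} [Field L] [Algebra ℂ L] (x : Fin n → L) :
    IntermediateField ℂ L :=
  IntermediateField.adjoin ℂ {z : L | ∃ i j, z = x i / x j}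

open scoped IntermediateField.algebraAdjoinAdjoin in
theorem trdeg_adjoin_le {k L : Type} [Field k] [Field L] [Algebra k L] (S : Set L) :
    Algebra.trdeg k (IntermediateField.adjoin k S) ≤ Cardinal.mk S := by
  have h1 : Algebra.trdeg k (Algebra.adjoin k S) ≤ Cardinal.mk S := by
    have h2 : Function.Surjective (MvPolynomial.aeval (fun s : S =>
        (⟨s.1, Algebra.subset_adjoin s.2⟩ : Algebra.adjoin k S)) :
          MvPolynomial S k →ₐ[k] Algebra.adjoin k S) := by
      rw [← AlgHom.range_eq_top, ← Algebra.adjoin_range_eq_range_aeval, eq_top_iff]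
      rintro ⟨y, hy⟩ _
      have h3 : (Algebra.adjoin k (Set.range fun s : S =>
        (⟨s.1, Algebra.subset_adjoin s.2⟩ : Algebra.adjoin k S))).map
          (Algebra.adjoin k S).val = Algebra.adjoin k S := by
        rw [AlgHom.map_adjoin]
        congr 1
        ext z
        constructor
        · rintro ⟨_, ⟨s, rfl⟩, rfl⟩
          exact s.2
        · intro hz
          exact ⟨_, ⟨⟨z, hz⟩, rfl⟩, rfl⟩
      have h4 := hy
      rw [← h3] at h4
      obtain ⟨y', hy', hyy⟩ := h4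
      have : y' = ⟨y, hy⟩ := Subtype.ext hyy
      rw [← this]
      exact hy'
    have h3 := trdeg_le_of_surjective _ h2
    rwa [MvPolynomial.trdeg_of_isDomain, Cardinal.lift_id] at h3
  have h2 := trdeg_add_eq k (Algebra.adjoin k S) (A := IntermediateField.adjoin k S)
  have h3 : Algebra.trdeg (Algebra.adjoin k S) (IntermediateField.adjoin k S) = 0 := by
    rw [trdeg_eq_zero_iff]
    infer_instance
  rw [← h2, h3, add_zero]
  exact h1

theorem eq_top_of_map {k L O : Type} [Field k] [Field L] [Field O] [Algebra k L] [Algebra k O]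
    (f : L →ₐ[k] O) (S : Set O) (hf : f.fieldRange = IntermediateField.adjoin k S)
    (M : IntermediateField k L) (h : ∀ s ∈ S, ∃ y ∈ M, f y = s) : M = ⊤ := by
  have h1 : f.fieldRange ≤ M.map f := by
    rw [hf, IntermediateField.adjoin_le_iff]
    intro s hs
    obtain ⟨y, hy, hys⟩ := h s hs
    exact ⟨y, hy, hys⟩
  rw [eq_top_iff]
  intro y _
  obtain ⟨y', hy', hyy⟩ := h1 ⟨y, rfl⟩
  have : y' = y := f.injective hyy
  rw [← this]
  exact hy'

section Homothety

/-- The homothety with centre `p` and ratio `a`. -/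
noncomputable def hom0 (p : Fin (m+1) → ℂ) (i0 : Fin (m+1)) (a : ℂ) :
    MvPolynomial (Fin (m+1)) ℂ →ₐ[ℂ] MvPolynomial (Fin (m+1)) ℂ :=
  aeval (fun j => C a * X j + C ((1 - a) * p j) * X i0)

theorem hom0_X (p : Fin (m+1) → ℂ) (i0 : Fin (m+1)) (a : ℂ) (j : Fin (m+1)) :
    hom0 p i0 a (X j) = C a * X j + C ((1 - a) * p j) * X i0 := by
  unfold hom0; rw [aeval_X]

theorem hom0_X0 (p : Fin (m+1) → ℂ) (i0 : Fin (m+1)) (hp : p i0 = 1) (a : ℂ) :
    hom0 p i0 a (X i0) = X i0 := by
  rw [hom0_X, hp, mul_one, ← add_mul, ← C_add]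
  simp

theorem hom0_comp (p : Fin (m+1) → ℂ) (i0 : Fin (m+1)) (hp : p i0 = 1) (a b : ℂ) (hab : a * b = 1) :
    (hom0 p i0 b).comp (hom0 p i0 a) = AlgHom.id ℂ _ := by
  apply MvPolynomial.algHom_ext
  intro j
  rw [AlgHom.comp_apply, hom0_X, map_add, map_mul, map_mul, hom0_X0 p i0 hp, hom0_X,
    AlgHom.id_apply]
  have h1 : ∀ c : ℂ, hom0 p i0 b (C c) = C c := fun c => by
    rw [← algebraMap_eq, AlgHom.commutes]
  rw [h1, h1, mul_add, ← mul_assoc, ← C_mul, hab, C_1, one_mul, ← mul_assoc, ← C_mul, add_assoc,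
    ← add_mul, ← C_add]
  have h2 : a * ((1 - b) * p j) + (1 - a) * p j = 0 := by
    have : a * ((1 - b) * p j) + (1 - a) * p j = (a - a * b + 1 - a) * p j := by ring
    rw [this, hab]; ring
  rw [h2, C_0, zero_mul, add_zero]

theorem hom0_injective (p : Fin (m+1) → ℂ) (i0 : Fin (m+1)) (hp : p i0 = 1) (a : ℂ) (ha : a ≠ 0) :
    Function.Injective (hom0 p i0 a) := by
  intro x y hxy
  have h1 := hom0_comp p i0 hp a a⁻¹ (mul_inv_cancel₀ ha)
  have h2 : ∀ z, hom0 p i0 a⁻¹ (hom0 p i0 a z) = z := fun z => by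
    rw [← AlgHom.comp_apply, h1]; rfl
  rw [← h2 x, ← h2 y, hxy]

/-- The field of fractions of the polynomial ring. -/
abbrev Om (m : ℕ) := FractionRing (MvPolynomial (Fin (m+1)) ℂ)

/-- The homothety on the field of fractions. -/
theorem exists_hom (p : Fin (m+1) → ℂ) (i0 : Fin (m+1)) (hp : p i0 = 1) (a : ℂ) (ha : a ≠ 0) :
    ∃ g : Om m →ₐ[ℂ] Om m, ∀ f, g (algebraMap _ _ f) = algebraMap _ _ (hom0 p i0 a f) := by
  have hinj : Function.Injective ((algebraMap (MvPolynomial (Fin (m+1)) ℂ) (Om m)).comp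
      (hom0 p i0 a).toRingHom) :=
    (IsFractionRing.injective _ _).comp (hom0_injective p i0 hp a ha)
  let g : Om m →+* Om m := IsFractionRing.lift hinj
  have hg : ∀ f, g (algebraMap _ _ f) = algebraMap _ _ (hom0 p i0 a f) := fun f =>
    IsFractionRing.lift_algebraMap hinj f
  refine ⟨{ g with commutes' := fun c => ?_ }, hg⟩
  have h1 : algebraMap ℂ (Om m) c = algebraMap (MvPolynomial (Fin (m+1)) ℂ) (Om m)
    (algebraMap ℂ _ c) := IsScalarTower.algebraMap_apply _ _ _ _
  rw [h1]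
  have h2 := hg (algebraMap ℂ _ c)
  rw [AlgHom.commutes] at h2
  exact h2

end Homothety

section Data

/-- The function field of projective space. -/
noncomputable abbrev LL (m : ℕ) : IntermediateField ℂ (Om m) :=
  ratField (X : Fin (m+1) → MvPolynomial (Fin (m+1)) ℂ)

/-- Affine coordinates. -/
noncomputable def rr (i0 j : Fin (m+1)) : LL m :=
  ⟨algebraMap _ (Om m) (X j : MvPolynomial (Fin (m+1)) ℂ) / algebraMap _ _ (X i0),
    IntermediateField.subset_adjoin _ _ ⟨(j, i0), rfl⟩⟩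

/-- Affine coordinates centred at `p`. -/
noncomputable def om (p : Fin (m+1) → ℂ) (i0 j : Fin (m+1)) : LL m :=
  rr i0 j - algebraMap ℂ (LL m) (p j)

/-- The direction. -/
noncomputable def vv (p : Fin (m+1) → ℂ) (i0 j0 j : Fin (m+1)) : LL m :=
  om p i0 j / om p i0 j0

theorem algebraMap_X_ne (i0 : Fin (m+1)) :
    algebraMap (MvPolynomial (Fin (m+1)) ℂ) (Om m) (X i0) ≠ 0 := by
  rw [Ne, FaithfulSMul.algebraMap_eq_zero_iff]
  exact X_ne_zero i0

theorem rr_self (i0 : Fin (m+1)) : rr i0 i0 = 1 :=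
  Subtype.ext (div_self (algebraMap_X_ne i0))

theorem om_self (p : Fin (m+1) → ℂ) (i0 : Fin (m+1)) (hp : p i0 = 1) : om p i0 i0 = 0 := by
  unfold om
  rw [rr_self, hp, map_one, sub_self]

theorem coe_om (p : Fin (m+1) → ℂ) (i0 j : Fin (m+1)) :
    ((om p i0 j : LL m) : Om m) = algebraMap _ (Om m) (X j : MvPolynomial (Fin (m+1)) ℂ) /
      algebraMap _ (Om m) (X i0 : MvPolynomial (Fin (m+1)) ℂ) - algebraMap ℂ (Om m) (p j) := rfl

theorem algebraMap_C' (c : ℂ) : algebraMap ℂ (Om m) c =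
    algebraMap (MvPolynomial (Fin (m+1)) ℂ) (Om m) (C c) :=
  IsScalarTower.algebraMap_apply _ (MvPolynomial (Fin (m+1)) ℂ) _ _

theorem om_ne (p : Fin (m+1) → ℂ) (i0 j0 : Fin (m+1)) (hij : j0 ≠ i0) : om p i0 j0 ≠ 0 := by
  intro h
  have h1 := congrArg Subtype.val h
  rw [coe_om] at h1
  change _ = (0 : Om m) at h1
  rw [sub_eq_zero, div_eq_iff (algebraMap_X_ne i0), algebraMap_C', ← map_mul] at h1
  have h2 := IsFractionRing.injective (MvPolynomial (Fin (m+1)) ℂ) (Om m) h1
  have h3 := congrArg (eval (Pi.single j0 1 : Fin (m+1) → ℂ)) h2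
  rw [map_mul, eval_X, eval_X, Pi.single_eq_same, Pi.single_eq_of_ne (Ne.symm hij), mul_zero] at h3
  exact one_ne_zero h3

theorem vv_self (p : Fin (m+1) → ℂ) (i0 j0 : Fin (m+1)) (hij : j0 ≠ i0) : vv p i0 j0 j0 = 1 :=
  div_self (om_ne p i0 j0 hij)

theorem vv_zero (p : Fin (m+1) → ℂ) (i0 j0 : Fin (m+1)) (hp : p i0 = 1) : vv p i0 j0 i0 = 0 := by
  unfold vv
  rw [om_self p i0 hp, zero_div]

theorem rr_eq (p : Fin (m+1) → ℂ) (i0 j0 : Fin (m+1)) (hij : j0 ≠ i0) (j : Fin (m+1)) :
    rr i0 j = algebraMap ℂ (LL m) (p j) + om p i0 j0 * vv p i0 j0 j := by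
  unfold vv
  rw [mul_div_cancel₀ _ (om_ne p i0 j0 hij)]
  unfold om
  ring

theorem hom_om (p : Fin (m+1) → ℂ) (i0 : Fin (m+1)) (hp : p i0 = 1) (a : ℂ)
    (g : Om m →ₐ[ℂ] Om m) (hg : ∀ f, g (algebraMap _ _ f) = algebraMap _ _ (hom0 p i0 a f))
    (j : Fin (m+1)) : g (om p i0 j : LL m) = algebraMap ℂ (Om m) a * (om p i0 j : LL m) := by
  rw [coe_om, map_sub, map_div₀, hg, hg, hom0_X0 p i0 hp, hom0_X, AlgHom.commutes, map_add, map_mul,
    map_mul, add_div, mul_div_assoc, mul_div_assoc, div_self (algebraMap_X_ne i0), mul_one,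
    ← algebraMap_C', ← algebraMap_C', map_mul, map_sub, map_one]
  ring

/-- The field generated by the direction. -/
noncomputable abbrev EE (p : Fin (m+1) → ℂ) (i0 j0 : Fin (m+1)) : IntermediateField ℂ (LL m) :=
  IntermediateField.adjoin ℂ (Set.range (vv p i0 j0))

theorem hom_fix (p : Fin (m+1) → ℂ) (i0 j0 : Fin (m+1)) (hp : p i0 = 1)
    (a : ℂ) (ha : a ≠ 0)
    (g : Om m →ₐ[ℂ] Om m) (hg : ∀ f, g (algebraMap _ _ f) = algebraMap _ _ (hom0 p i0 a f))
    (e : LL m) (he : e ∈ EE p i0 j0) : g e = e := by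
  have h1 : EE p i0 j0 ≤ (AlgHom.equalizer (g.comp (LL m).val) (LL m).val : Subalgebra ℂ _).toIntermediateField
      (by
        intro x hx
        rw [AlgHom.mem_equalizer] at hx ⊢
        rw [map_inv₀, map_inv₀, hx]) := by
    rw [IntermediateField.adjoin_le_iff]
    rintro _ ⟨j, rfl⟩
    change g ((vv p i0 j0 j : LL m) : Om m) = (vv p i0 j0 j : LL m)
    have h2 : ((vv p i0 j0 j : LL m) : Om m) = (om p i0 j : LL m) / (om p i0 j0 : LL m) := rfl
    rw [h2, map_div₀, hom_om p i0 hp a g hg, hom_om p i0 hp a g hg]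
    rw [mul_div_mul_left]
    rw [Ne, map_eq_zero]
    exact ha
  exact h1 he

theorem transcendental_om (p : Fin (m+1) → ℂ) (i0 j0 : Fin (m+1)) (hp : p i0 = 1)
    (hij : j0 ≠ i0) : Transcendental (EE p i0 j0) (om p i0 j0) := by
  rintro ⟨P, hP0, hP⟩
  set Q : Polynomial (Om m) := P.map ((LL m).val.toRingHom.comp (algebraMap (EE p i0 j0) (LL m)))
    with hQ
  have hQ0 : Q ≠ 0 := by
    rw [hQ, Ne, Polynomial.map_eq_zero]
    exact hP0
  have h1 : Polynomial.eval ((om p i0 j0 : LL m) : Om m) Q = 0 := by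
    have h2 := congrArg (LL m).val.toRingHom hP
    rw [Polynomial.aeval_def, Polynomial.hom_eval₂, map_zero] at h2
    rw [hQ, Polynomial.eval_map]
    exact h2
  have h2 : ∀ a : ℂ, a ≠ 0 →
      Polynomial.eval (algebraMap ℂ (Om m) a * ((om p i0 j0 : LL m) : Om m)) Q = 0 := by
    intro a ha
    obtain ⟨g, hg⟩ := exists_hom p i0 hp a ha
    have h3 := congrArg g h1
    rw [map_zero] at h3
    rw [← hom_om p i0 hp a g hg]
    rw [← h3]
    have h4 : Q.map g.toRingHom = Q := by
      rw [hQ, Polynomial.map_map]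
      congr 1
      ext e
      exact hom_fix p i0 j0 hp a ha g hg e.1 e.2
    conv_lhs => rw [← h4]
    exact Polynomial.eval_map_apply g.toRingHom _
  apply hQ0
  apply Polynomial.eq_zero_of_infinite_isRoot
  have hinj : Function.Injective (fun a : ℂ => algebraMap ℂ (Om m) a *
      ((om p i0 j0 : LL m) : Om m)) := by
    intro a b hab
    have h3 : ((om p i0 j0 : LL m) : Om m) ≠ 0 := by
      intro h
      exact om_ne p i0 j0 hij (Subtype.ext h)
    exact (algebraMap ℂ (Om m)).injective (mul_right_cancel₀ h3 hab)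
  have hinf : ({0}ᶜ : Set ℂ).Infinite := Set.Finite.infinite_compl (Set.finite_singleton 0)
  refine (hinf.image hinj.injOn).mono ?_
  rintro _ ⟨a, ha, rfl⟩
  exact h2 a ha

theorem adjoin_om (p : Fin (m+1) → ℂ) (i0 j0 : Fin (m+1)) (hij : j0 ≠ i0) :
    IntermediateField.adjoin (EE p i0 j0) {om p i0 j0} = ⊤ := by
  have hrM : ∀ j, rr i0 j ∈ IntermediateField.adjoin (EE p i0 j0) {om p i0 j0} := by
    intro j
    have h1 : vv p i0 j0 j ∈ EE p i0 j0 := IntermediateField.subset_adjoin _ _ ⟨j, rfl⟩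
    have h2 : algebraMap ℂ (LL m) (p j) ∈ EE p i0 j0 := IntermediateField.algebraMap_mem _ _
    rw [rr_eq p i0 j0 hij j]
    refine add_mem ?_ (mul_mem ?_ ?_)
    · exact IntermediateField.algebraMap_mem
        (IntermediateField.adjoin (EE p i0 j0) {om p i0 j0}) ⟨_, h2⟩
    · exact IntermediateField.subset_adjoin _ _ rfl
    · exact IntermediateField.algebraMap_mem
        (IntermediateField.adjoin (EE p i0 j0) {om p i0 j0}) ⟨_, h1⟩
  have h1 := eq_top_of_map (LL m).val _ (IntermediateField.fieldRange_val (LL m))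
    ((IntermediateField.adjoin (EE p i0 j0) {om p i0 j0}).restrictScalars ℂ) (by
      rintro _ ⟨⟨i, j⟩, rfl⟩
      refine ⟨rr i0 i / rr i0 j, div_mem (hrM i) (hrM j), ?_⟩
      change algebraMap _ (Om m) (X i : MvPolynomial (Fin (m+1)) ℂ) / algebraMap _ _ (X i0) /
        (algebraMap _ (Om m) (X j : MvPolynomial (Fin (m+1)) ℂ) / algebraMap _ _ (X i0)) = _
      rw [div_div_div_cancel_right₀ (algebraMap_X_ne i0)])
  exact IntermediateField.restrictScalars_eq_top_iff.1 h1

theorem trdeg_EE (p : Fin (m+1) → ℂ) (i0 j0 : Fin (m+1)) (hp : p i0 = 1) (hij : j0 ≠ i0) :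
    Algebra.trdeg ℂ (EE p i0 j0) < m := by
  classical
  set s : Set (LL m) := Set.range (fun j : {j : Fin (m+1) // j ≠ i0 ∧ j ≠ j0} =>
    vv p i0 j0 j.1) with hs
  have h1 : EE p i0 j0 = IntermediateField.adjoin ℂ s := by
    apply le_antisymm
    · unfold EE
      rw [IntermediateField.adjoin_le_iff]
      rintro _ ⟨j, rfl⟩
      by_cases h3 : j = i0
      · rw [h3, vv_zero p i0 j0 hp]
        exact zero_mem _
      · by_cases h4 : j = j0
        · rw [h4, vv_self p i0 j0 hij]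
          exact one_mem _
        · exact IntermediateField.subset_adjoin _ _ ⟨⟨j, h3, h4⟩, rfl⟩
    · rw [IntermediateField.adjoin_le_iff]
      rintro _ ⟨j, rfl⟩
      exact IntermediateField.subset_adjoin _ _ ⟨j.1, rfl⟩
  rw [h1]
  refine (trdeg_adjoin_le s).trans_lt ?_
  have h4 : Cardinal.mk s ≤ Cardinal.mk {j : Fin (m+1) // j ≠ i0 ∧ j ≠ j0} :=
    Cardinal.mk_range_le
  refine h4.trans_lt ?_
  rw [Cardinal.mk_fintype]
  norm_cast
  rw [Fintype.card_subtype]
  have h5 : (Finset.univ.filter fun j : Fin (m+1) => j ≠ i0 ∧ j ≠ j0) =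
      (Finset.univ.erase i0).erase j0 := by
    ext j; simp [and_comm]
  rw [h5, Finset.card_erase_of_mem (by simp [hij]), Finset.card_erase_of_mem (by simp)]
  have h6 : 1 ≤ m := by
    rcases Nat.eq_zero_or_pos m with h | h
    · subst h
      exact absurd (by omega) hij
    · exact h
  simp
  omega

end Data

section Final

theorem aeval_smul_hom {A : Type*} [CommRing A] [Algebra ℂ A] {n d : ℕ}
    {G : MvPolynomial (Fin n) ℂ} (hG : G.IsHomogeneous d) (c : A) (x : Fin n → A) :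
    aeval (fun i => c * x i) G = c ^ d * aeval x G := by
  classical
  rw [MvPolynomial.as_sum G, map_sum, map_sum, Finset.mul_sum]
  refine Finset.sum_congr rfl fun γ hγ => ?_
  have hγs : ∑ l, γ l = d := by
    have h2 := hG (mem_support_iff.1 hγ)
    rw [← h2, Finsupp.weight_apply, Finsupp.sum_fintype _ _ (by simp)]
    simp
  rw [aeval_monomial, aeval_monomial, Finsupp.prod_fintype _ _ (by simp),
    Finsupp.prod_fintype _ _ (by simp), ← hγs, ← Finset.prod_pow_eq_pow_sum]
  simp only [mul_pow, Finset.prod_mul_distrib]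
  ring

theorem aeval_rr {d : ℕ} (i0 : Fin (m+1)) {H : MvPolynomial (Fin (m+1)) ℂ}
    (hH : H.IsHomogeneous d) : ((aeval (rr i0) H : LL m) : Om m) =
      ((algebraMap _ (Om m) (X i0 : MvPolynomial (Fin (m+1)) ℂ))⁻¹) ^ d * algebraMap _ (Om m) H := by
  have h1 : ((aeval (rr i0) H : LL m) : Om m) = aeval (fun j => ((rr i0 j : LL m) : Om m)) H :=
    MvPolynomial.comp_aeval_apply (rr i0) (LL m).val H
  rw [h1]
  have h2 : (fun j => ((rr i0 j : LL m) : Om m)) = fun j =>
      (algebraMap _ (Om m) (X i0 : MvPolynomial (Fin (m+1)) ℂ))⁻¹ *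
        algebraMap _ (Om m) (X j : MvPolynomial (Fin (m+1)) ℂ) := by
    funext j
    exact div_eq_inv_mul _ _
  rw [h2, aeval_smul_hom hH]
  congr 1
  have h3 := MvPolynomial.comp_aeval_apply (X : Fin (m+1) → MvPolynomial (Fin (m+1)) ℂ)
    (IsScalarTower.toAlgHom ℂ (MvPolynomial (Fin (m+1)) ℂ) (Om m)) H
  rw [aeval_X_left_apply] at h3
  exact h3.symm

/-- The image of the differential at `p`. -/
noncomputable def Wlin (p : Fin (m+1) → ℂ) (φ : Fin (m+2) → MvPolynomial (Fin (m+1)) ℂ) :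
    (Fin (m+1) → ℂ) →ₗ[ℂ] (Fin (m+2) → ℂ) where
  toFun v := fun i => 3 * tri (φ i) p p v
  map_add' v v' := by
    funext i
    rw [tri_add_right, Pi.add_apply, mul_add]
  map_smul' c v := by
    funext i
    rw [tri_smul_right, Pi.smul_apply, RingHom.id_apply, smul_eq_mul]
    ring

theorem Wlin_zero {F : MvPolynomial (Fin (m+2)) ℂ} (hF : F.IsHomogeneous 3)
    (φ : Fin (m+2) → MvPolynomial (Fin (m+1)) ℂ) (hφ : ∀ j, (φ j).IsHomogeneous 3)
    (h0 : aeval φ F = 0) (p : Fin (m+1) → ℂ) (hp : ∀ j, eval p (φ j) = 0)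
    (x : Fin (m+2) → ℂ) (hx : x ∈ LinearMap.range (Wlin p φ)) : eval x F = 0 := by
  obtain ⟨v, rfl⟩ := hx
  let g : Fin (m+2) → Polynomial ℂ := fun i =>
    Polynomial.C (3 * tri (φ i) p p v) + Polynomial.C (3 * tri (φ i) v v p) * Polynomial.X +
      Polynomial.C (eval v (φ i)) * Polynomial.X ^ 2
  have h1 : ∀ s : ℂ, Polynomial.eval s (aeval g F) = eval (fun i => Polynomial.eval s (g i)) F := by
    intro s
    have h2 := MvPolynomial.comp_aeval_apply g (Polynomial.aeval s : Polynomial ℂ →ₐ[ℂ] ℂ) F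
    rw [Polynomial.coe_aeval_eq_eval] at h2
    rw [h2, MvPolynomial.aeval_eq_eval]
  have h2 : aeval g F = 0 := by
    apply Polynomial.eq_zero_of_infinite_isRoot
    refine (Set.Finite.infinite_compl (Set.finite_singleton (0 : ℂ))).mono ?_
    intro s hs
    have hs0 : s ≠ 0 := hs
    change Polynomial.eval s (aeval g F) = 0
    rw [h1]
    have h3 : eval (fun i => s * Polynomial.eval s (g i)) F =
        s ^ 3 * eval (fun i => Polynomial.eval s (g i)) F := by
      have := aeval_smul_hom hF s (fun i => Polynomial.eval s (g i))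
      simpa only [MvPolynomial.aeval_eq_eval] using this
    have h4 : eval (fun i => s * Polynomial.eval s (g i)) F = 0 := by
      have h5 : (fun i => s * Polynomial.eval s (g i)) = fun i => eval (p + s • v) (φ i) := by
        funext i
        have h6 := aeval_add_smul (hφ i) p v s
        simp only [MvPolynomial.aeval_eq_eval] at h6
        rw [h6, hp i]
        simp only [g, Polynomial.eval_add, Polynomial.eval_mul, Polynomial.eval_C,
          Polynomial.eval_X, Polynomial.eval_pow]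
        ring
      rw [h5]
      have h6 := MvPolynomial.comp_aeval_apply φ (aeval (p + s • v) :
        MvPolynomial (Fin (m+1)) ℂ →ₐ[ℂ] ℂ) F
      rw [h0, map_zero] at h6
      simpa only [MvPolynomial.aeval_eq_eval] using h6.symm
    rw [h3] at h4
    exact (mul_eq_zero.1 h4).resolve_left (pow_ne_zero _ hs0)
  have h3 := h1 0
  rw [h2, Polynomial.eval_zero] at h3
  rw [h3]
  congr 1
  congr 1
  funext i
  simp [g, Wlin]

theorem mapDegree_eq {e : ℕ} (i0 : Fin (m+1)) (φ : Fin (m+2) → MvPolynomial (Fin (m+1)) ℂ)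
    (hφ : ∀ j, (φ j).IsHomogeneous e) (t : LL m) (ht : t ≠ 0) :
    mapDegree φ = Module.finrank (ratioField (fun i => aeval (rr i0) (φ i) / t)) (LL m) := by
  have h1 : (ratioField (fun i => aeval (rr i0) (φ i) / t)).map (LL m).val = ratField φ := by
    unfold ratioField ratField
    rw [IntermediateField.adjoin_map]
    congr 1
    have hz : ∀ i j : Fin (m+2), (LL m).val (aeval (rr i0) (φ i) / t / (aeval (rr i0) (φ j) / t)) =
        algebraMap _ (Om m) (φ i) / algebraMap _ (Om m) (φ j) := by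
      intro i j
      have h2 : ((LL m).val t : Om m) ≠ 0 := by
        intro h
        exact ht (Subtype.ext h)
      rw [map_div₀, map_div₀, map_div₀, div_div_div_cancel_right₀ h2]
      change ((aeval (rr i0) (φ i) : LL m) : Om m) / ((aeval (rr i0) (φ j) : LL m) : Om m) = _
      rw [aeval_rr i0 (hφ i), aeval_rr i0 (hφ j), mul_div_mul_left]
      exact pow_ne_zero _ (inv_ne_zero (algebraMap_X_ne i0))
    ext y
    constructor
    · rintro ⟨_, ⟨i, j, rfl⟩, rfl⟩
      exact ⟨(i, j), (hz i j).symm⟩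
    · rintro ⟨⟨i, j⟩, rfl⟩
      exact ⟨_, ⟨i, j, rfl⟩, hz i j⟩
  have h2 : ratioField (fun i => aeval (rr i0) (φ i) / t) = (ratField φ).comap (LL m).val := by
    rw [← h1, IntermediateField.comap_map]
  rw [h2, IntermediateField.finrank_comap, IntermediateField.fieldRange_val]
  rfl

theorem generic_z {e : ℕ} (i0 : Fin (m+1)) {F : MvPolynomial (Fin (m+2)) ℂ}
    (φ : Fin (m+2) → MvPolynomial (Fin (m+1)) ℂ)
    (hφ : ∀ j, (φ j).IsHomogeneous e)
    (hdom : ∀ G : MvPolynomial (Fin (m+2)) ℂ, aeval φ G = 0 ↔ F ∣ G)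
    (t : LL m) (ht : t ≠ 0) (d : ℕ) (G : MvPolynomial (Fin (m+2)) ℂ) (hG : G.IsHomogeneous d) :
    aeval (fun i => aeval (rr i0) (φ i) / t) G = 0 ↔ F ∣ G := by
  have h1 : (fun i => aeval (rr i0) (φ i) / t) = fun i => t⁻¹ * aeval (rr i0) (φ i) := by
    funext i; exact div_eq_inv_mul _ _
  rw [h1, aeval_smul_hom hG, mul_eq_zero]
  have h2 : aeval (fun i => aeval (rr i0) (φ i)) G = aeval (rr i0) (aeval φ G) :=
    (MvPolynomial.comp_aeval_apply φ (aeval (rr i0) : MvPolynomial (Fin (m+1)) ℂ →ₐ[ℂ] LL m) G).symm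
  rw [h2, ← hdom]
  have h3 := aeval_rr i0 (hG.aeval φ hφ)
  have h4 : (algebraMap _ (Om m) (X i0 : MvPolynomial (Fin (m+1)) ℂ))⁻¹ ^ (e * d) ≠ 0 :=
    pow_ne_zero _ (inv_ne_zero (algebraMap_X_ne i0))
  constructor
  · rintro (h | h)
    · exact absurd h (pow_ne_zero _ (inv_ne_zero ht))
    · rw [h] at h3
      have h5 := (mul_eq_zero.1 h3.symm).resolve_left h4
      rwa [FaithfulSMul.algebraMap_eq_zero_iff] at h5
  · intro h
    right
    rw [h, map_zero]

theorem mem_span_Wlin {E : Type*} [Field E] [Algebra ℂ E] (p : Fin (m+1) → ℂ)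
    (φ : Fin (m+2) → MvPolynomial (Fin (m+1)) ℂ) (vE : Fin (m+1) → E) :
    (fun i => 3 * tri (φ i) (fun j => algebraMap ℂ E (p j)) (fun j => algebraMap ℂ E (p j)) vE) ∈
      Submodule.span E ((fun (x : Fin (m+2) → ℂ) i => algebraMap ℂ E (x i)) ''
        (LinearMap.range (Wlin p φ))) := by
  classical
  set pE : Fin (m+1) → E := fun j => algebraMap ℂ E (p j) with hpE
  have h1 : (fun i => 3 * tri (φ i) pE pE vE) = ∑ j, vE j • (fun i => algebraMap ℂ E
      ((Wlin p φ (Pi.single j 1) : Fin (m+2) → ℂ) i)) := by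
    funext i
    rw [Finset.sum_apply]
    simp only [Pi.smul_apply, smul_eq_mul]
    have h2 : ∀ j, algebraMap ℂ E ((Wlin p φ (Pi.single j 1) : Fin (m+2) → ℂ) i) =
        3 * tri (φ i) pE pE (Pi.single j 1) := by
      intro j
      have h3 := tri_map (Algebra.ofId ℂ E) (φ i) p p (Pi.single j 1)
      change (Algebra.ofId ℂ E) (3 * tri (φ i) p p (Pi.single j 1)) = _
      rw [map_mul, map_ofNat, h3]
      congr 2
      funext l
      rw [Pi.single_apply, Pi.single_apply]
      split_ifs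
      · exact map_one _
      · exact map_zero _
    simp only [h2]
    have h4 : tri (φ i) pE pE vE = ∑ j, vE j * tri (φ i) pE pE (Pi.single j 1) := by
      have h5 : vE = ∑ j, vE j • (Pi.single j 1 : Fin (m+1) → E) := by
        funext l
        simp [Finset.sum_apply, Pi.single_apply]
      have h6 : ∀ (T : Finset (Fin (m+1))), tri (φ i) pE pE
          (∑ j ∈ T, vE j • (Pi.single j 1 : Fin (m+1) → E)) =
          ∑ j ∈ T, vE j * tri (φ i) pE pE (Pi.single j 1) := by
        intro T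
        induction T using Finset.induction_on with
        | empty =>
          rw [Finset.sum_empty, Finset.sum_empty]
          have := tri_smul_right (φ i) pE pE (0 : Fin (m+1) → E) 0
          rwa [zero_smul, zero_mul] at this
        | insert a T ha ih =>
          rw [Finset.sum_insert ha, Finset.sum_insert ha, tri_add_right, tri_smul_right, ih]
      conv_lhs => rw [h5]
      exact h6 _
    rw [h4, Finset.mul_sum]
    refine Finset.sum_congr rfl fun j _ => ?_
    ring
  rw [h1]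
  refine Submodule.sum_mem _ fun j _ => Submodule.smul_mem _ _ (Submodule.subset_span ?_)
  exact ⟨Wlin p φ (Pi.single j 1), ⟨_, rfl⟩, rfl⟩

/-- The reduction: a dominant map `ℙ^m ⇢ X` given by cubic forms with a base point is a family of
conics. -/
theorem even_of_core {F : MvPolynomial (Fin (m+2)) ℂ} (hm : 1 ≤ m) (hF : F.IsHomogeneous 3)
    (φ : Fin (m+2) → MvPolynomial (Fin (m+1)) ℂ) (hφ : ∀ j, (φ j).IsHomogeneous 3)
    (hdom : ∀ G : MvPolynomial (Fin (m+2)) ℂ, aeval φ G = 0 ↔ F ∣ G)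
    (hbp : ∃ p : Fin (m+1) → ℂ, p ≠ 0 ∧ ∀ j, eval p (φ j) = 0)
    (core : ∀ (E L : Type) [Field E] [Field L] [Algebra ℂ E] [Algebra ℂ L] [Algebra E L]
      [IsScalarTower ℂ E L] (t : L) (W : Submodule ℂ (Fin (m+2) → ℂ)) (w q c : Fin (m+2) → E),
      Transcendental E t → IntermediateField.adjoin E {t} = ⊤ → Algebra.trdeg ℂ E < m →
      (∀ x ∈ W, eval x F = 0) →
      w ∈ Submodule.span E ((fun (x : Fin (m+2) → ℂ) i => algebraMap ℂ E (x i)) '' W) →
      (∀ (d : ℕ) (G : MvPolynomial (Fin (m+2)) ℂ), G.IsHomogeneous d →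
        (aeval (fun i => algebraMap E L (w i) + algebraMap E L (q i) * t +
          algebraMap E L (c i) * t ^ 2) G = 0 ↔ F ∣ G)) →
      Even (Module.finrank (ratioField (fun i => algebraMap E L (w i) + algebraMap E L (q i) * t +
          algebraMap E L (c i) * t ^ 2)) L)) :
    Even (mapDegree φ) := by
  classical
  obtain ⟨p, hp0, hp⟩ := hbp
  have hi0 : ∃ i0, p i0 ≠ 0 := by
    by_contra hcon
    push Not at hcon
    exact hp0 (funext hcon)
  obtain ⟨i0, hi0⟩ := hi0
  -- normalise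
  have hp' : ∀ j, eval (fun i => (p i0)⁻¹ * p i) (φ j) = 0 := by
    intro j
    have h1 := aeval_smul_hom (hφ j) (p i0)⁻¹ p
    simp only [MvPolynomial.aeval_eq_eval] at h1
    rw [h1, hp j, mul_zero]
  obtain ⟨p', hp1, hp2⟩ : ∃ p' : Fin (m+1) → ℂ, p' i0 = 1 ∧ ∀ j, eval p' (φ j) = 0 :=
    ⟨fun i => (p i0)⁻¹ * p i, inv_mul_cancel₀ hi0, hp'⟩
  clear hp' hp hi0 hp0 p
  rename' p' => p
  obtain ⟨j0, hij⟩ : ∃ j0 : Fin (m+1), j0 ≠ i0 := by
    have : Nontrivial (Fin (m+1)) := Fin.nontrivial_iff_two_le.2 (by omega)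
    exact exists_ne i0
  set t : LL m := om p i0 j0 with ht
  have ht0 : t ≠ 0 := om_ne p i0 j0 hij
  set vE : Fin (m+1) → EE p i0 j0 := fun j => ⟨vv p i0 j0 j,
    IntermediateField.subset_adjoin _ _ ⟨j, rfl⟩⟩ with hvE
  set pE : Fin (m+1) → EE p i0 j0 := fun j => algebraMap ℂ _ (p j) with hpE
  set w : Fin (m+2) → EE p i0 j0 := fun i => 3 * tri (φ i) pE pE vE with hw
  set q : Fin (m+2) → EE p i0 j0 := fun i => 3 * tri (φ i) vE vE pE with hq
  set c : Fin (m+2) → EE p i0 j0 := fun i => aeval vE (φ i) with hc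
  have hz : ∀ i, algebraMap (EE p i0 j0) (LL m) (w i) + algebraMap (EE p i0 j0) (LL m) (q i) * t +
      algebraMap (EE p i0 j0) (LL m) (c i) * t ^ 2 = aeval (rr i0) (φ i) / t := by
    intro i
    rw [eq_div_iff ht0]
    have h1 : rr i0 = (fun j => algebraMap ℂ (LL m) (p j)) + t • (vv p i0 j0) := by
      funext j
      rw [rr_eq p i0 j0 hij j]
      rfl
    have h2 := aeval_add_smul (hφ i) (fun j => algebraMap ℂ (LL m) (p j)) (vv p i0 j0) t
    rw [← h1] at h2
    have h3 : aeval (fun j => algebraMap ℂ (LL m) (p j)) (φ i) = 0 := by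
      have h4 := MvPolynomial.comp_aeval_apply p (Algebra.ofId ℂ (LL m)) (φ i)
      rw [MvPolynomial.aeval_eq_eval, hp2 i, map_zero] at h4
      exact h4.symm
    rw [h2, h3]
    let ι := IsScalarTower.toAlgHom ℂ (EE p i0 j0) (LL m)
    have e1 : algebraMap (EE p i0 j0) (LL m) (w i) =
        3 * tri (φ i) (fun j => algebraMap ℂ (LL m) (p j)) (fun j => algebraMap ℂ (LL m) (p j))
          (vv p i0 j0) := by
      have := tri_map ι (φ i) pE pE vE
      change ι (3 * tri (φ i) pE pE vE) = _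
      rw [map_mul, map_ofNat, this]
      congr 2
    have e2 : algebraMap (EE p i0 j0) (LL m) (q i) =
        3 * tri (φ i) (vv p i0 j0) (vv p i0 j0) (fun j => algebraMap ℂ (LL m) (p j)) := by
      have := tri_map ι (φ i) vE vE pE
      change ι (3 * tri (φ i) vE vE pE) = _
      rw [map_mul, map_ofNat, this]
      congr 2
    have e3 : algebraMap (EE p i0 j0) (LL m) (c i) = aeval (vv p i0 j0) (φ i) := by
      have := MvPolynomial.comp_aeval_apply vE ι (φ i)
      exact this
    rw [e1, e2, e3]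
    ring
  have hzf : (fun i => algebraMap (EE p i0 j0) (LL m) (w i) +
      algebraMap (EE p i0 j0) (LL m) (q i) * t +
      algebraMap (EE p i0 j0) (LL m) (c i) * t ^ 2) = fun i => aeval (rr i0) (φ i) / t := funext hz
  have hfin := core (EE p i0 j0) (LL m) t (LinearMap.range (Wlin p φ)) w q c
    (transcendental_om p i0 j0 hp1 hij) (adjoin_om p i0 j0 hij) (trdeg_EE p i0 j0 hp1 hij)
    (fun x hx => Wlin_zero hF φ hφ ((hdom F).2 dvd_rfl) p hp2 x hx) ?_ ?_
  · rw [hzf] at hfin
    rw [mapDegree_eq i0 φ hφ t ht0]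
    exact hfin
  · exact mem_span_Wlin p φ vE
  · intro d G hG
    rw [hzf]
    exact generic_z i0 φ hφ hdom t ht0 d G hG

end Final

end MP2619.T
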